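import Pool.Agent.Helper138_LS.AffSel

/-!
Dense relations on the points of an affine plane: points at infinity, and the little theorem of Desargues.
-/

set_option autoImplicit false

open Finset

namespace Pool.Agent.Helper138_LS

open Pool.Agent.H480R2.LS

/-- the loss for a common point at infinity -/
noncomputable def hP (c : ℝ) : ℝ := fD (fD (fD (fD (fD (fD (dz c))))))

theorem mono_hP : Mono hP :=
  mono_fD.comp (mono_fD.comp (mono_fD.comp (mono_fD.comp (mono_fD.comp (mono_fD.comp mono_dz)))))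

theorem hP_nonneg {c : ℝ} (hc : 0 ≤ c) : 0 ≤ hP c := mono_hP.nonneg hc

theorem Inj3.sub {ι α β γ : Type*} {S S' : Finset ι} (hS : S' ⊆ S) {x : ι → α} {y : ι → β} {z : ι → γ}
    (h : Inj3 S x y z) : Inj3 S' x y z :=
  fun s hs t ht => h s (hS hs) t (hS ht)

section rel

variable {q k n : ℕ} {T : Finset (Finset (Fin k))} {R : Finset (Fin k → Fin n)}

theorem patIn_sub {S : Finset (Fin k → Fin n)} (hS : S ⊆ R) (h : PatIn R T) : PatIn S T :=
  fun f hf g hg hfg => h f (hS hf) g (hS hg) hfg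

/-- the points of a line are determined by two of them -/
theorem Aff.det (h : Aff q T) (hR : PatIn R T) {M : Finset (Fin k)} (hM : Ln q T M) {x y : Fin k}
    (hxy : x ≠ y) (hx : x ∈ M) (hy : y ∈ M) {f g : Fin k → Fin n} (hf : f ∈ R) (hg : g ∈ R)
    (h1 : f x = g x) (h2 : f y = g y) {z : Fin k} (hz : z ∈ M) : f z = g z := by
  by_cases hfg : f = g
  · rw [hfg]
  · have h3 := sameT h.ic h.sz hM.1 (hR f hf g hg hfg) hxy hx hy (mem_agr.mpr h1) (mem_agr.mpr h2)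
    rw [h3] at hz
    exact mem_agr.mp hz

/-- **Points at infinity.** -/
theorem three_par (hn : 0 < n) (h : Aff q T) (hR : PatIn R T) {M1 M2 M3 : Finset (Fin k)}
    (h1 : Ln q T M1) (h2 : Ln q T M2) (h3 : Ln q T M3) (d12 : Disjoint M1 M2) (d13 : Disjoint M1 M3)
    (d23 : Disjoint M2 M3) {u1 v1 u2 v2 u3 v3 : Fin k} (hu1 : u1 ∈ M1) (hv1 : v1 ∈ M1) (huv1 : u1 ≠ v1)
    (hu2 : u2 ∈ M2) (hv2 : v2 ∈ M2) (huv2 : u2 ≠ v2) (hu3 : u3 ∈ M3) (hv3 : v3 ∈ M3) (huv3 : u3 ≠ v3)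
    {c : ℝ} (hc : 0 ≤ c) (hS : c * (n : ℝ) ^ 3 ≤ R.card) :
    gN c * (n : ℝ) ^ 3 ≤ (n : ℝ) ^ 2 ∨ ∃ S ⊆ R, ∃ X : (Fin k → Fin n) → Fin n,
      Col S (fun f => f u1) (fun f => f v1) X ∧ Col S (fun f => f u2) (fun f => f v2) X ∧
      Col S (fun f => f u3) (fun f => f v3) X ∧ hP c * (n : ℝ) ^ 3 ≤ S.card := by
  obtain ⟨o, a1, b1, a2, b2, a3, b3, c1, c3, hsel⟩ := h.sel h1 h2 h3 d12 d13 d23
  obtain ⟨m1, m3, n1, n3, l3, a13, b13, c13, e1, e2, e3, f12, g12, f23, g23, i1, i2, i3, i4, fin⟩ := hsel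
  obtain ⟨S0, hS0, X, x1, x2, x3, s0⟩ := desargues hn (blkT_col h.ic h.sz hR e1)
    (blkT_col h.ic h.sz hR e2) (blkT_col h.ic h.sz hR e3) (blkT_col h.ic h.sz hR f12)
    (blkT_col h.ic h.sz hR g12) (blkT_col h.ic h.sz hR f23) (blkT_col h.ic h.sz hR g23)
    (nblT_inj hR i1) (nblT_inj hR i2) (nblT_inj hR i3) (nblT_inj hR i4) hc hS
  have r0 := dz_nonneg hc
  have hR0 := patIn_sub hS0 hR
  rcases fin with hc1 | ⟨y, y1, y2, y3, y4⟩
  · -- the third line passes through the same point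
    right
    have X1 : Det2 S0 (fun f => f u1) (fun f => f v1) X := by
      intro f hf g hg q1 q2
      exact x1.1 f hf g hg (h.det hR0 h1 huv1 hu1 hv1 hf hg q1 q2 m1)
        (h.det hR0 h1 huv1 hu1 hv1 hf hg q1 q2 m3)
    have X2 : Det2 S0 (fun f => f u2) (fun f => f v2) X := by
      intro f hf g hg q1 q2
      exact x2.1 f hf g hg (h.det hR0 h2 huv2 hu2 hv2 hf hg q1 q2 n1)
        (h.det hR0 h2 huv2 hu2 hv2 hf hg q1 q2 n3)
    have X3 : Det2 S0 (fun f => f u3) (fun f => f v3) X := by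
      intro f hf g hg q1 q2
      exact x3.1 f hf g hg (h.det hR0 h3 huv3 hu3 hv3 hf hg q1 q2 hc1)
        (h.det hR0 h3 huv3 hu3 hv3 hf hg q1 q2 l3)
    -- with one further point everything is determined
    have I1 : ∀ {z : Fin k}, z ∈ M1 → Inj3 S0 (fun f => f z) X (fun f => f b1) := by
      intro z hz f hf g hg q1 q2 q3
      have q4 := x2.2.1 f hf g hg q3 q2
      exact nblT_inj hR0 (h.nbl h2 b13 n1 n3 (Finset.disjoint_left.mp d12 hz)).rot.rot f hf g hg q1 q3 q4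
    have I2 : ∀ {z : Fin k}, z ∈ M2 → Inj3 S0 (fun f => f z) X (fun f => f a1) := by
      intro z hz f hf g hg q1 q2 q3
      have q4 := x1.2.1 f hf g hg q3 q2
      exact nblT_inj hR0 (h.nbl h1 a13 m1 m3 (Finset.disjoint_right.mp d12 hz)).rot.rot f hf g hg q1 q3 q4
    have I3 : ∀ {z : Fin k}, z ∈ M3 → Inj3 S0 (fun f => f z) X (fun f => f a1) := by
      intro z hz f hf g hg q1 q2 q3
      have q4 := x1.2.1 f hf g hg q3 q2
      exact nblT_inj hR0 (h.nbl h1 a13 m1 m3 (Finset.disjoint_right.mp d13 hz)).rot.rot f hf g hg q1 q3 q4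
    obtain ⟨S1, hS1, z1, s1⟩ := uniq3 (x := fun f => f u1) (y := fun f => f v1) (z := X) hn X1 (I1 hu1) r0 s0
    have r1 := fD_nonneg r0
    obtain ⟨S2, hS2, z2, s2⟩ := uniq3 (x := fun f => f v1) (y := fun f => f u1) (z := X) hn
      (fun f hf g hg q1 q2 => X1 f (hS1 hf) g (hS1 hg) q2 q1) ((I1 hv1).sub hS1) r1 s1
    have r2 := fD_nonneg r1
    have t2 := hS2.trans hS1
    obtain ⟨S3, hS3, z3, s3⟩ := uniq3 (x := fun f => f u2) (y := fun f => f v2) (z := X) hn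
      (fun f hf g hg q1 q2 => X2 f (t2 hf) g (t2 hg) q1 q2) ((I2 hu2).sub t2) r2 s2
    have r3 := fD_nonneg r2
    have t3 := hS3.trans t2
    obtain ⟨S4, hS4, z4, s4⟩ := uniq3 (x := fun f => f v2) (y := fun f => f u2) (z := X) hn
      (fun f hf g hg q1 q2 => X2 f (t3 hf) g (t3 hg) q2 q1) ((I2 hv2).sub t3) r3 s3
    have r4 := fD_nonneg r3
    have t4 := hS4.trans t3
    obtain ⟨S5, hS5, z5, s5⟩ := uniq3 (x := fun f => f u3) (y := fun f => f v3) (z := X) hn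
      (fun f hf g hg q1 q2 => X3 f (t4 hf) g (t4 hg) q1 q2) ((I3 hu3).sub t4) r4 s4
    have r5 := fD_nonneg r4
    have t5 := hS5.trans t4
    obtain ⟨S6, hS6, z6, s6⟩ := uniq3 (x := fun f => f v3) (y := fun f => f u3) (z := X) hn
      (fun f hf g hg q1 q2 => X3 f (t5 hf) g (t5 hg) q2 q1) ((I3 hv3).sub t5) r5 s5
    have t6 := hS6.trans t5
    refine ⟨S6, t6.trans hS0, X, ⟨?_, ?_, ?_⟩, ⟨?_, ?_, ?_⟩, ⟨?_, ?_, ?_⟩, s6⟩
    · exact fun f hf g hg q1 q2 => X1 f (t6 hf) g (t6 hg) q1 q2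
    · exact ((((z1.mono hS2).mono hS3).mono hS4).mono hS5).mono hS6
    · exact (((z2.mono hS3).mono hS4).mono hS5).mono hS6
    · exact fun f hf g hg q1 q2 => X2 f (t6 hf) g (t6 hg) q1 q2
    · exact ((z3.mono hS4).mono hS5).mono hS6
    · exact (z4.mono hS5).mono hS6
    · exact fun f hf g hg q1 q2 => X3 f (t6 hf) g (t6 hg) q1 q2
    · exact z5.mono hS6
    · exact z6
  · -- the third line does not pass through it
    left
    have k1 := blkT_det h.ic h.sz hR0 y1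
    have k2 := blkT_det h.ic h.sz hR0 y2
    have k3 := nblT_inj hR0 y3
    have k4 := nblT_inj hR0 y4
    obtain ⟨S1, hS1, z1, s1⟩ := dd3 (D := fun f => f y) (a := fun f => f a1) (b := fun f => f c1) (l := X) hn
      (fun f hf g hg q1 q2 => x1.1 f hf g hg q2 (k2 f hf g hg q1 q2))
      (fun f hf g hg q1 q2 => x3.1 f hf g hg q2 (k1 f hf g hg q1 q2)) k3 r0 s0
    have h' : S1.card ≤ n ^ 2 := by
      apply card_le_sq S1 (fun f => f y) (fun f => f b1)
      intro f hf g hg q1 q2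
      have q3 := z1 f hf g hg q1
      have q4 := x2.2.1 f (hS1 hf) g (hS1 hg) q2 q3
      exact k4 f (hS1 hf) g (hS1 hg) q1 q2 q4
    have h'' : (S1.card : ℝ) ≤ (n : ℝ) ^ 2 := by exact_mod_cast h'
    exact s1.trans h''

end rel

end Pool.Agent.Helper138_LS
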