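import Pool.Agent.Helper138_LS.AffDense

/-!
The little theorem of Desargues for dense relations on the points of an affine plane.
-/

set_option autoImplicit false

open Finset

namespace Pool.Agent.Helper138_LS

open Pool.Agent.H480R2.LS

theorem Col.rot {κ α β γ : Type*} {S : Finset κ} {x : κ → α} {y : κ → β} {z : κ → γ}
    (h : Col S x y z) : Col S z x y :=
  ⟨fun s hs t ht q1 q2 => h.2.1 s hs t ht q2 q1, fun s hs t ht q1 q2 => h.2.2 s hs t ht q2 q1, h.1⟩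

theorem Mono.mul {f g : ℝ → ℝ} (hf : Mono f) (hg : Mono g) : Mono fun c => f c * g c := by
  obtain ⟨k, hk, K, hK, h⟩ := hf
  obtain ⟨k', hk', K', hK', h'⟩ := hg
  refine ⟨k * k', by positivity, K + K', by omega, fun c => ?_⟩
  show f c * g c = _
  rw [h, h', pow_add]
  ring

/-- maps the unit interval to itself -/
def U01 (f : ℝ → ℝ) : Prop := ∀ c, 0 ≤ c → c ≤ 1 → 0 ≤ f c ∧ f c ≤ 1

theorem U01.comp {f g : ℝ → ℝ} (hf : U01 f) (hg : U01 g) : U01 fun c => f (g c) :=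
  fun c h0 h1 => hf _ (hg c h0 h1).1 (hg c h0 h1).2

theorem u01_fA : U01 fA := by
  intro c h0 h1
  have h2 : c ^ 3 ≤ 1 := pow_le_one₀ h0 h1
  refine ⟨fA_nonneg h0, ?_⟩
  rw [fA]
  linarith

theorem u01_fD : U01 fD := fun _ h0 h1 => ⟨fD_nonneg h0, pow_le_one₀ h0 h1⟩

theorem u01_dz : U01 dz :=
  u01_fA.comp (u01_fD.comp (u01_fD.comp (u01_fA.comp (u01_fD.comp (u01_fD.comp
    (u01_fA.comp u01_fD))))))

theorem u01_gN : U01 gN := u01_fD.comp u01_dz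

theorem u01_hP : U01 hP :=
  u01_fD.comp (u01_fD.comp (u01_fD.comp (u01_fD.comp (u01_fD.comp (u01_fD.comp u01_dz)))))

/-- the loss for a failure of the little theorem of Desargues -/
noncomputable def hL (c : ℝ) : ℝ :=
  (gN c * gN (hP c)) * (gN (hP (hP c)) * gN (hP (hP (hP c))))

theorem mono_hL : Mono hL :=
  (mono_gN.mul (mono_gN.comp mono_hP)).mul
    ((mono_gN.comp (mono_hP.comp mono_hP)).mul (mono_gN.comp (mono_hP.comp (mono_hP.comp mono_hP))))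

theorem hL_le {c : ℝ} (h0 : 0 ≤ c) (h1 : c ≤ 1) :
    hL c ≤ gN c ∧ hL c ≤ gN (hP c) ∧ hL c ≤ gN (hP (hP c)) ∧ hL c ≤ gN (hP (hP (hP c))) := by
  obtain ⟨p1, p2⟩ := u01_hP c h0 h1
  obtain ⟨q1, q2⟩ := u01_hP _ p1 p2
  obtain ⟨r1, r2⟩ := u01_hP _ q1 q2
  obtain ⟨a1, a2⟩ := u01_gN c h0 h1
  obtain ⟨b1, b2⟩ := u01_gN _ p1 p2
  obtain ⟨c1, c2⟩ := u01_gN _ q1 q2
  obtain ⟨d1, d2⟩ := u01_gN _ r1 r2
  rw [hL]
  set w := gN c
  set x := gN (hP c)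
  set y := gN (hP (hP c))
  set z := gN (hP (hP (hP c)))
  have e1 : w * x ≤ 1 := mul_le_one₀ a2 b1 b2
  have e2 : y * z ≤ 1 := mul_le_one₀ c2 d1 d2
  have f1 : 0 ≤ w * x := mul_nonneg a1 b1
  have f2 : 0 ≤ y * z := mul_nonneg c1 d1
  refine ⟨?_, ?_, ?_, ?_⟩
  · exact (mul_le_of_le_one_right f1 e2).trans (mul_le_of_le_one_right a1 b2)
  · exact (mul_le_of_le_one_right f1 e2).trans (mul_le_of_le_one_left b1 a2)
  · exact (mul_le_of_le_one_left f2 e1).trans (mul_le_of_le_one_right c1 d2)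
  · exact (mul_le_of_le_one_left f2 e1).trans (mul_le_of_le_one_left d1 c2)

/-- a failure of the little theorem of Desargues -/
def BadLD {k : ℕ} (q : ℕ) (T : Finset (Finset (Fin k))) : Prop :=
  ∃ (M1 M2 M3 N1 N2 N3 P1 P2 P3 F G : Finset (Fin k)) (a b a' b' a'' b'' y u v : Fin k),
    (Ln q T M1 ∧ Ln q T M2 ∧ Ln q T M3 ∧ Disjoint M1 M2 ∧ Disjoint M1 M3 ∧ Disjoint M2 M3 ∧
      a ∈ M1 ∧ b ∈ M1 ∧ a ≠ b ∧ a' ∈ M2 ∧ b' ∈ M2 ∧ a' ≠ b' ∧ a'' ∈ M3 ∧ b'' ∈ M3 ∧ a'' ≠ b'') ∧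
    (Ln q T N1 ∧ Ln q T N2 ∧ Ln q T N3 ∧ Disjoint N1 N2 ∧ Disjoint N1 N3 ∧ Disjoint N2 N3 ∧
      a ∈ N1 ∧ a' ∈ N1 ∧ b ∈ N2 ∧ b' ∈ N2 ∧ y ∈ N3 ∧ u ∈ N3 ∧ y ≠ u) ∧
    (Ln q T P1 ∧ Ln q T P2 ∧ Ln q T P3 ∧ Disjoint P1 P2 ∧ Disjoint P1 P3 ∧ Disjoint P2 P3 ∧
      a' ∈ P1 ∧ a'' ∈ P1 ∧ b' ∈ P2 ∧ b'' ∈ P2 ∧ y ∈ P3 ∧ v ∈ P3 ∧ y ≠ v) ∧
    (Ln q T F ∧ Ln q T G ∧ a ∈ F ∧ a'' ∈ F ∧ y ∈ F ∧ b ∈ G ∧ b'' ∈ G ∧ y ∈ G) ∧
    a'' ∉ N1 ∧ v ∉ N3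

section rel

variable {q k n : ℕ} {T : Finset (Finset (Fin k))} {R : Finset (Fin k → Fin n)}

theorem badLD_bound (hn : 0 < n) (h : Aff q T) (hR : PatIn R T) (hB : BadLD q T) {c : ℝ} (hc : 0 ≤ c)
    (hc1 : c ≤ 1) (hS : c * (n : ℝ) ^ 3 ≤ R.card) : hL c * (n : ℝ) ^ 3 ≤ (n : ℝ) ^ 2 := by
  obtain ⟨M1, M2, M3, N1, N2, N3, P1, P2, P3, F, G, a, b, a', b', a'', b'', y, u, v,
    ⟨hM1, hM2, hM3, dM12, dM13, dM23, aM, bM, hab, aM', bM', hab', aM'', bM'', hab''⟩,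
    ⟨hN1, hN2, hN3, dN12, dN13, dN23, aN, aN', bN, bN', yN, uN, hyu⟩,
    ⟨hP1, hP2, hP3, dP12, dP13, dP23, aP, aP', bP, bP', yP, vP, hyv⟩,
    ⟨hF, hG, aF, aF', yF, bG, bG', yG⟩, hnl, hnv⟩ := hB
  obtain ⟨l1, l2, l3, l4⟩ := hL_le hc hc1
  have hn3 : (0 : ℝ) ≤ (n : ℝ) ^ 3 := by positivity
  have haa' : a ≠ a' := by rintro rfl; exact Finset.disjoint_left.mp dM12 aM aM'
  have haa'' : a ≠ a'' := by rintro rfl; exact Finset.disjoint_left.mp dM13 aM aM''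
  have ha'a'' : a' ≠ a'' := by rintro rfl; exact Finset.disjoint_left.mp dM23 aM' aM''
  have hbb' : b ≠ b' := by rintro rfl; exact Finset.disjoint_left.mp dM12 bM bM'
  have hbb'' : b ≠ b'' := by rintro rfl; exact Finset.disjoint_left.mp dM13 bM bM''
  have hb'b'' : b' ≠ b'' := by rintro rfl; exact Finset.disjoint_left.mp dM23 bM' bM''
  rcases three_par hn h hR hM1 hM2 hM3 dM12 dM13 dM23 aM bM hab aM' bM' hab' aM'' bM'' hab'' hc hS with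
    hh | ⟨S1, hS1, O, o1, o2, o3, s1⟩
  · exact (mul_le_mul_of_nonneg_right l1 hn3).trans hh
  have r1 := hP_nonneg hc
  have hR1 := patIn_sub hS1 hR
  rcases three_par hn h hR1 hN1 hN2 hN3 dN12 dN13 dN23 aN aN' haa' bN bN' hbb' yN uN hyu r1 s1 with
    hh | ⟨S2, hS2, D, w1, w2, w3, s2⟩
  · exact (mul_le_mul_of_nonneg_right l2 hn3).trans hh
  have r2 := hP_nonneg r1
  have hR2 := patIn_sub hS2 hR1
  rcases three_par hn h hR2 hP1 hP2 hP3 dP12 dP13 dP23 aP aP' ha'a'' bP bP' hb'b'' yP vP hyv r2 s2 with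
    hh | ⟨S3, hS3, E, t1, t2, t3, s3⟩
  · exact (mul_le_mul_of_nonneg_right l3 hn3).trans hh
  have r3 := hP_nonneg r2
  have hR3 := patIn_sub hS3 hR2
  replace o1 := (o1.mono hS2).mono hS3
  replace o2 := (o2.mono hS2).mono hS3
  replace o3 := (o3.mono hS2).mono hS3
  replace w1 := w1.mono hS3
  replace w2 := w2.mono hS3
  replace w3 := w3.mono hS3
  have i1 := nblT_inj hR3 (h.nbl hM1 hab aM bM (Finset.disjoint_right.mp dM12 aM'))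
  have i2 := nblT_inj hR3 (h.nbl hM1 hab aM bM (Finset.disjoint_right.mp dM13 aM''))
  have i3 := nblT_inj hR3 (h.nbl hM2 hab' aM' bM' (Finset.disjoint_right.mp dM23 aM''))
  have i4 := nblT_inj hR3 (h.nbl hN1 haa' aN aN' hnl)
  obtain ⟨S4, hS4, X, x1, x2, x3, s4⟩ := desargues hn (o := O) (a1 := fun f => f a) (b1 := fun f => f b)
    (a2 := fun f => f a') (b2 := fun f => f b') (a3 := fun f => f a'') (b3 := fun f => f b'') (c1 := E)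
    (c3 := D) o1.rot o2.rot o3.rot w1 w2 t1 t2
    (fun f hf g hg q1 q2 q3 => i1 f hf g hg q2 (o1.2.1 f hf g hg q2 q1) q3)
    (fun f hf g hg q1 q2 q3 => i2 f hf g hg q2 (o1.2.1 f hf g hg q2 q1) q3)
    (fun f hf g hg q1 q2 q3 => i3 f hf g hg q2 (o2.2.1 f hf g hg q2 q1) q3)
    i4 r3 s3
  have r4 := dz_nonneg r3
  have hR4 := patIn_sub hS4 hR3
  obtain ⟨S5, hS5, z1, s5⟩ := dd3 (D := X) (a := fun f => f a) (b := fun f => f b) (l := fun f => f y) hn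
    (fun f hf g hg q1 q2 => h.det hR4 hF haa'' aF aF' hf hg q2 (x1.2.1 f hf g hg q2 q1) yF)
    (fun f hf g hg q1 q2 => h.det hR4 hG hbb'' bG bG' hf hg q2 (x2.2.1 f hf g hg q2 q1) yG)
    (fun f hf g hg q1 q2 q3 => i2 f (hS4 hf) g (hS4 hg) q2 q3 (x1.2.1 f hf g hg q2 q1)) r4 s4
  have hR5 := patIn_sub hS5 hR4
  have i5 := nblT_inj hR5 (h.nbl hN3 hyu yN uN hnv)
  have h' : S5.card ≤ n ^ 2 := by
    apply card_le_sq S5 D E
    intro f hf g hg q1 q2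
    have q3 := z1 f hf g hg (x3.1 f (hS5 hf) g (hS5 hg) q2 q1)
    have q4 := w3.2.1 f (hS4 (hS5 hf)) g (hS4 (hS5 hg)) q3 q1
    have q5 := t3.2.1 f (hS4 (hS5 hf)) g (hS4 (hS5 hg)) q3 q2
    exact i5 f hf g hg q3 q4 q5
  have h'' : (S5.card : ℝ) ≤ (n : ℝ) ^ 2 := by exact_mod_cast h'
  exact (mul_le_mul_of_nonneg_right l4 hn3).trans (s5.trans h'')

end rel

end Pool.Agent.Helper138_LS
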