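import Mathlib

/-!
Finite affine planes in which the little theorem of Desargues holds have prime power order.
The plane is given by its parallelism relations: `r c a b` means that `a = b` or the line `a b` has
direction `c`.
-/

set_option autoImplicit false

namespace Pool.Agent.Helper138_LS

structure APlane {A C : Type*} (r : C → A → A → Prop) : Prop where
  refl : ∀ c a, r c a a
  symm : ∀ c a b, r c a b → r c b a
  trans : ∀ c a b d, r c a b → r c b d → r c a d
  ex : ∀ a b, ∃ c, r c a b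
  uq : ∀ a b c d, a ≠ b → r c a b → r d a b → c = d
  meet : ∀ c d a b, c ≠ d → ∃ x, r c a x ∧ r d b x
  off : ∀ c a b, ∃ y, ¬ r c a y ∧ ¬ r c b y
  desg : ∀ c d e a b a' b' a'' b'', c ≠ d → c ≠ e → d ≠ e → a ≠ b → a ≠ a' → a' ≠ a'' → ¬ r c a a'' →
    r c a b → r c a' b' → r c a'' b'' → r d a a' → r d b b' → r e a' a'' → r e b' b'' →
    ∀ f, r f a a'' → r f b b''

section plane

variable {A C : Type*} {r : C → A → A → Prop}

theorem APlane.both (h : APlane r) {c d : C} {a b : A} (hcd : c ≠ d) (h1 : r c a b) (h2 : r d a b) :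
    a = b := by
  by_contra hab
  exact hcd (h.uq a b c d hab h1 h2)

/-- little Desargues, all cases -/
theorem APlane.desg' (h : APlane r) {c d e : C} {a b a' b' a'' b'' : A} (hcd : c ≠ d) (hce : c ≠ e)
    (h1 : r c a b) (h2 : r c a' b') (h3 : r c a'' b'') (h4 : r d a a') (h5 : r d b b')
    (h6 : r e a' a'') (h7 : r e b' b'') (f : C) (hf : r f a a'') : r f b b'' := by
  by_cases hab : a = b
  · subst hab
    have e1 : a' = b' := h.both hcd h2 (h.trans _ _ _ _ (h.symm _ _ _ h4) h5)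
    subst e1
    have e2 : a'' = b'' := h.both hce h3 (h.trans _ _ _ _ (h.symm _ _ _ h6) h7)
    subst e2
    exact hf
  by_cases haa : a = a'
  · subst haa
    have e1 : b = b' := h.both hcd (h.trans _ _ _ _ (h.symm _ _ _ h1) h2) h5
    subst e1
    by_cases h8 : a = a''
    · subst h8
      have e2 : b = b'' := h.both hce (h.trans _ _ _ _ (h.symm _ _ _ h1) h3) h7
      subst e2
      exact h.refl _ _
    · have e3 := h.uq _ _ _ _ h8 h6 hf
      subst e3
      exact h7
  by_cases haa' : a' = a''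
  · subst haa'
    have e1 : b' = b'' := h.both hce (h.trans _ _ _ _ (h.symm _ _ _ h2) h3) h7
    subst e1
    have e3 := h.uq _ _ _ _ haa h4 hf
    subst e3
    exact h5
  by_cases hde : d = e
  · subst hde
    have e1 : r d a a'' := h.trans _ _ _ _ h4 h6
    have e2 : r d b b'' := h.trans _ _ _ _ h5 h7
    by_cases h8 : a = a''
    · subst h8
      have e2 : b = b'' := h.both hcd (h.trans _ _ _ _ (h.symm _ _ _ h1) h3) e2
      subst e2
      exact h.refl _ _
    · have e3 := h.uq _ _ _ _ h8 e1 hf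
      subst e3
      exact e2
  by_cases hc : r c a a''
  · have e1 : r c b b'' := h.trans _ _ _ _ (h.symm _ _ _ h1) (h.trans _ _ _ _ hc h3)
    by_cases h8 : a = a''
    · subst h8
      exact absurd (h.both hde h4 (h.symm _ _ _ h6)) haa
    · have e3 := h.uq _ _ _ _ h8 hc hf
      subst e3
      exact e1
  exact h.desg c d e a b a' b' a'' b'' hcd hce hde hab haa haa' hc h1 h2 h3 h4 h5 h6 h7 f hf

/-- dilatations -/
def Dil (r : C → A → A → Prop) (g : Equiv.Perm A) : Prop := ∀ c a b, r c a b → r c (g a) (g b)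

theorem Dil.one (r : C → A → A → Prop) : Dil r 1 := fun _ _ _ h => h

theorem Dil.mul {g g' : Equiv.Perm A} (hg : Dil r g) (hg' : Dil r g') : Dil r (g * g') :=
  fun c a b h => hg c _ _ (hg' c _ _ h)

theorem Dil.inv (h : APlane r) {g : Equiv.Perm A} (hg : Dil r g) : Dil r g⁻¹ := by
  intro c a b hab
  by_cases h1 : a = b
  · subst h1; exact h.refl _ _
  obtain ⟨d, hd⟩ := h.ex (g⁻¹ a) (g⁻¹ b)
  have h2 := hg d _ _ hd
  have e1 : g (g⁻¹ a) = a := g.apply_symm_apply a
  have e2 : g (g⁻¹ b) = b := g.apply_symm_apply b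
  rw [e1, e2] at h2
  have e := h.uq _ _ _ _ h1 h2 hab
  subst e
  exact hd

theorem dil_fix2 (h : APlane r) {g : Equiv.Perm A} (hg : Dil r g) {a b : A} (hab : a ≠ b)
    (ha : g a = a) (hb : g b = b) : g = 1 := by
  have key : ∀ {u v : A}, u ≠ v → g u = u → g v = v → ∀ c, r c u v → ∀ x, ¬ r c u x → g x = x := by
    intro u v huv hu hv c hc x hx
    obtain ⟨d, hd⟩ := h.ex u x
    obtain ⟨e, he⟩ := h.ex v x
    have hde : d ≠ e := by
      rintro rfl
      have h1 := h.trans _ _ _ _ hd (h.symm _ _ _ he)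
      have h2 := h.uq _ _ _ _ huv h1 hc
      subst h2
      exact hx hd
    have h1 := hg d _ _ hd
    have h2 := hg e _ _ he
    rw [hu] at h1
    rw [hv] at h2
    exact (h.both hde (h.trans _ _ _ _ (h.symm _ _ _ hd) h1) (h.trans _ _ _ _ (h.symm _ _ _ he) h2)).symm
  obtain ⟨c, hc⟩ := h.ex a b
  obtain ⟨y, hy, _⟩ := h.off c a a
  have hgy := key hab ha hb c hc y hy
  have hay : a ≠ y := by
    rintro rfl
    exact hy (h.refl _ _)
  obtain ⟨c', hc'⟩ := h.ex a y
  have hcc : c' ≠ c := by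
    rintro rfl
    exact hy hc'
  ext x
  rw [Equiv.Perm.one_apply]
  by_cases hx : r c a x
  · by_cases hax : a = x
    · rw [← hax, ha]
    · apply key hay ha hgy c' hc' x
      intro h1
      exact hax (h.both hcc h1 hx)
  · exact key hab ha hb c hc x hx

theorem dil_trace (h : APlane r) [Nonempty A] {g : Equiv.Perm A} (hg : Dil r g) (hf : ∀ x, g x ≠ x) :
    ∃ c, ∀ x, r c x (g x) := by
  obtain ⟨x0⟩ := ‹Nonempty A›
  obtain ⟨c, hc⟩ := h.ex x0 (g x0)
  refine ⟨c, fun y => ?_⟩
  obtain ⟨d, hd⟩ := h.ex y (g y)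
  by_cases hcd : c = d
  · rw [hcd]; exact hd
  exfalso
  obtain ⟨z, hz1, hz2⟩ := h.meet c d x0 y hcd
  have h1 := hg c _ _ hz1
  have h2 := hg d _ _ hz2
  have h3 : r c z (g z) := h.trans _ _ _ _ (h.symm _ _ _ hz1) (h.trans _ _ _ _ hc h1)
  have h4 : r d z (g z) := h.trans _ _ _ _ (h.symm _ _ _ hz2) (h.trans _ _ _ _ hd h2)
  exact hf z (h.both hcd h3 h4).symm

/-- the translations -/
def TransE (h : APlane r) : Subgroup (Equiv.Perm A) where
  carrier := {g | Dil r g ∧ (g = 1 ∨ ∀ x, g x ≠ x)}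
  one_mem' := ⟨Dil.one r, Or.inl rfl⟩
  inv_mem' := by
    rintro g ⟨h1, h2⟩
    refine ⟨h1.inv h, ?_⟩
    rcases h2 with rfl | h2
    · left; exact inv_one
    · right
      intro x hx
      apply h2 x
      rw [Equiv.Perm.inv_eq_iff_eq] at hx
      exact hx.symm
  mul_mem' := by
    rintro g k ⟨hg, hg'⟩ ⟨hk, hk'⟩
    refine ⟨hg.mul hk, ?_⟩
    rcases hg' with rfl | hg'
    · rcases hk' with rfl | hk'
      · left; simp
      · right; simpa using hk'
    rcases hk' with rfl | hk'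
    · right; simpa using hg'
    by_cases hfix : ∃ x, (g * k) x = x
    · left
      obtain ⟨x, hx⟩ := hfix
      rw [Equiv.Perm.mul_apply] at hx
      haveI : Nonempty A := ⟨x⟩
      obtain ⟨c, hc⟩ := dil_trace h hg hg'
      obtain ⟨c', hc'⟩ := dil_trace h hk hk'
      have hcc : c = c' := by
        have h1 := hc (k x)
        rw [hx] at h1
        have h2 := hc' x
        exact h.uq _ _ _ _ (hk' x) h1 (h.symm _ _ _ h2)
      subst hcc
      obtain ⟨z, hz, _⟩ := h.off c x x
      have hxz : x ≠ z := by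
        rintro rfl
        exact hz (h.refl _ _)
      obtain ⟨d, hd⟩ := h.ex x z
      have hcd : c ≠ d := by
        rintro rfl
        exact hz hd
      have h1 : r c z (g (k z)) := h.trans _ _ _ _ (hc' z) (hc (k z))
      have h2 : r d x (g (k z)) := by
        have := hg d _ _ (hk d _ _ hd)
        rwa [hx] at this
      have h3 : g (k z) = z := (h.both hcd h1 (h.trans _ _ _ _ (h.symm _ _ _ hd) h2)).symm
      exact dil_fix2 h (hg.mul hk) hxz hx h3
    · right
      push Not at hfix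
      exact hfix

theorem transE_transitive [Finite A] (h : APlane r) (a b : A) : ∃ g ∈ TransE h, g a = b := by
  classical
  by_cases hab : a = b
  · exact ⟨1, (TransE h).one_mem, by simpa using hab⟩
  obtain ⟨c, hc⟩ := h.ex a b
  obtain ⟨a1, ha1, _⟩ := h.off c a a
  -- images off the line
  have hoff : ∀ u v : A, r c u v → ∀ x, ¬ r c u x → ∃ y, r c x y ∧ ∃ d, c ≠ d ∧ r d u x ∧ r d v y := by
    intro u v _ x hx
    obtain ⟨d, hd⟩ := h.ex u x
    have hcd : c ≠ d := by
      rintro rfl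
      exact hx hd
    obtain ⟨y, hy1, hy2⟩ := h.meet c d x v hcd
    exact ⟨y, hy1, d, hcd, hd, hy2⟩
  obtain ⟨b1, hb1, d1, hd1, hd1a, hd1b⟩ := hoff a b hc a1 ha1
  have hon : ∀ x, r c a x → ∃ y, r c x y ∧ ∃ d, c ≠ d ∧ r d a1 x ∧ r d b1 y := by
    intro x hx
    apply hoff a1 b1 hb1 x
    intro h1
    exact ha1 (h.trans _ _ _ _ hx (h.symm _ _ _ h1))
  have hall : ∀ x, ∃ y, r c x y ∧ (¬ r c a x → ∃ d, c ≠ d ∧ r d a x ∧ r d b y) ∧
      (r c a x → ∃ d, c ≠ d ∧ r d a1 x ∧ r d b1 y) := by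
    intro x
    by_cases hx : r c a x
    · obtain ⟨y, h1, h2⟩ := hon x hx
      exact ⟨y, h1, fun h3 => absurd hx h3, fun _ => h2⟩
    · obtain ⟨y, h1, h2⟩ := hoff a b hc x hx
      exact ⟨y, h1, fun _ => h2, fun h3 => absurd h3 hx⟩
  choose t ht1 ht2 ht3 using hall
  have hta1 : t a1 = b1 := by
    obtain ⟨d, hd, h1, h2⟩ := ht2 a1 ha1
    have haa1 : a ≠ a1 := by
      rintro rfl
      exact ha1 (h.refl _ _)
    have e := h.uq _ _ _ _ haa1 h1 hd1a
    subst e
    exact h.both hd (h.trans _ _ _ _ (h.symm _ _ _ (ht1 a1)) hb1) (h.trans _ _ _ _ (h.symm _ _ _ h2) hd1b)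
  -- off the line
  have k1 : ∀ x y, ¬ r c a x → ¬ r c a y → ∀ f, r f x y → r f (t x) (t y) := by
    intro x y hx hy f hf
    obtain ⟨d, hd, h1, h2⟩ := ht2 x hx
    obtain ⟨e, he, h3, h4⟩ := ht2 y hy
    exact h.desg' hd he (ht1 x) hc (ht1 y) (h.symm _ _ _ h1) (h.symm _ _ _ h2) h3 h4 f hf
  have k2 : ∀ x y, r c a x → ¬ r c a y → ¬ r c a1 y → ∀ f, r f x y → r f (t x) (t y) := by
    intro x y hx hy hy1 f hf
    obtain ⟨d, hd, h1, h2⟩ := ht3 x hx
    obtain ⟨e, he⟩ := h.ex a1 y
    have hce : c ≠ e := by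
      rintro rfl
      exact hy1 he
    have h3 := k1 a1 y ha1 hy e he
    rw [hta1] at h3
    exact h.desg' hd hce (ht1 x) hb1 (ht1 y) (h.symm _ _ _ h1) (h.symm _ _ _ h2) he h3 f hf
  have k3 : ∀ x y, r c a x → ¬ r c a y → ∀ f, r f x y → r f (t x) (t y) := by
    intro x y hx hy f hf
    by_cases hy1 : r c a1 y
    · obtain ⟨a2, h2, h3⟩ := h.off c a a1
      obtain ⟨d, hd⟩ := h.ex x a2
      obtain ⟨e, he⟩ := h.ex a2 y
      have hcd : c ≠ d := by
        rintro rfl
        exact h2 (h.trans _ _ _ _ hx hd)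
      have hce : c ≠ e := by
        rintro rfl
        exact h3 (h.trans _ _ _ _ hy1 (h.symm _ _ _ he))
      exact h.desg' hcd hce (ht1 x) (ht1 a2) (ht1 y) hd (k2 x a2 hx h2 h3 d hd) he
        (k1 a2 y h2 hy e he) f hf
    · exact k2 x y hx hy hy1 f hf
  have k4 : ∀ x y f, r f x y → r f (t x) (t y) := by
    intro x y f hf
    by_cases hxy : x = y
    · subst hxy; exact h.refl _ _
    by_cases hx : r c a x
    · by_cases hy : r c a y
      · have h1 : r c x y := h.trans _ _ _ _ (h.symm _ _ _ hx) hy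
        have e := h.uq _ _ _ _ hxy h1 hf
        subst e
        exact h.trans _ _ _ _ (h.symm _ _ _ (ht1 x)) (h.trans _ _ _ _ h1 (ht1 y))
      · exact k3 x y hx hy f hf
    · by_cases hy : r c a y
      · exact h.symm _ _ _ (k3 y x hy hx f (h.symm _ _ _ hf))
      · exact k1 x y hx hy f hf
  have hinj : Function.Injective t := by
    intro x y hxy
    by_contra hne
    have h1 : r c x y := h.trans _ _ _ _ (ht1 x) (by rw [hxy]; exact h.symm _ _ _ (ht1 y))
    obtain ⟨w, hw, _⟩ := h.off c x x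
    obtain ⟨d, hd⟩ := h.ex w x
    obtain ⟨e, he⟩ := h.ex w y
    have hde : d ≠ e := by
      rintro rfl
      have h2 := h.trans _ _ _ _ (h.symm _ _ _ hd) he
      have e3 := h.uq _ _ _ _ hne h1 h2
      subst e3
      exact hw (h.symm _ _ _ hd)
    have h2 := k4 _ _ _ hd
    have h3 := k4 _ _ _ he
    rw [← hxy] at h3
    have h4 : t w = t x := h.both hde h2 h3
    apply hw
    exact h.trans _ _ _ _ (ht1 x) (by rw [← h4]; exact h.symm _ _ _ (ht1 w))
  have hbij : Function.Bijective t := Finite.injective_iff_bijective.mp hinj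
  refine ⟨Equiv.ofBijective t hbij, ⟨fun f x y hf => k4 x y f hf, Or.inr ?_⟩, ?_⟩
  · intro x hx
    rw [Equiv.ofBijective_apply] at hx
    have haa1 : a ≠ a1 := by
      rintro rfl
      exact ha1 (h.refl _ _)
    by_cases hax : r c a x
    · obtain ⟨d, hd, h1, h2⟩ := ht3 x hax
      rw [hx] at h2
      have h3 : r d a1 b1 := h.trans _ _ _ _ h1 (h.symm _ _ _ h2)
      have h4 : a1 = b1 := h.both hd hb1 h3
      rw [← h4] at hd1b
      exact hab (h.both hd1 hc (h.trans _ _ _ _ hd1a (h.symm _ _ _ hd1b)))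
    · obtain ⟨d, hd, h1, h2⟩ := ht2 x hax
      rw [hx] at h2
      exact hab (h.both hd hc (h.trans _ _ _ _ h1 (h.symm _ _ _ h2)))
  · rw [Equiv.ofBijective_apply]
    obtain ⟨d, hd, h1, h2⟩ := ht3 a (h.refl _ _)
    have haa1 : a1 ≠ a := by
      rintro rfl
      exact ha1 (h.refl _ _)
    have e := h.uq _ _ _ _ haa1 h1 (h.symm _ _ _ hd1a)
    subst e
    exact h.both hd (h.trans _ _ _ _ (h.symm _ _ _ (ht1 a)) hc)
      (h.trans _ _ _ _ (h.symm _ _ _ h2) (h.symm _ _ _ hd1b))

theorem card_transE [Fintype A] [Nonempty A] (h : APlane r) : Nat.card (TransE h) = Nat.card A := by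
  obtain ⟨a0⟩ := ‹Nonempty A›
  apply Nat.card_congr
  refine Equiv.ofBijective (fun g : TransE h => (g : Equiv.Perm A) a0) ⟨?_, ?_⟩
  · rintro ⟨g, hg⟩ ⟨k, hk⟩ hgk
    simp only at hgk
    have h1 : k⁻¹ * g ∈ TransE h := (TransE h).mul_mem ((TransE h).inv_mem hk) hg
    have h2 : (k⁻¹ * g) a0 = a0 := by
      rw [Equiv.Perm.mul_apply, hgk]
      exact k.symm_apply_apply a0
    have h3 : k⁻¹ * g = 1 := by
      rcases h1.2 with h3 | h3
      · exact h3
      · exact absurd h2 (h3 a0)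
    apply Subtype.ext
    show g = k
    rw [inv_mul_eq_one] at h3
    exact h3.symm
  · intro b
    obtain ⟨g, hg, hgb⟩ := transE_transitive h a0 b
    exact ⟨⟨g, hg⟩, hgb⟩

/-- translation of direction `c` -/
theorem trans_dir (h : APlane r) [Nonempty A] {g : Equiv.Perm A} (hg : g ∈ TransE h) (h1 : g ≠ 1) :
    (∀ x, g x ≠ x) ∧ ∃ c, ∀ x, r c x (g x) := by
  have h2 : ∀ x, g x ≠ x := by
    rcases hg.2 with h3 | h3
    · exact absurd h3 h1
    · exact h3
  exact ⟨h2, dil_trace h hg.1 h2⟩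

theorem pow_dir (h : APlane r) {g : Equiv.Perm A} {c : C} (hc : ∀ x, r c x (g x)) (m : ℕ) :
    ∀ x, r c x ((g ^ m) x) := by
  induction m with
  | zero => intro x; exact h.refl _ _
  | succ m ih =>
    intro x
    rw [pow_succ', Equiv.Perm.mul_apply]
    exact h.trans _ _ _ _ (ih x) (hc _)

theorem order_le (h : APlane r) [Finite A] [Nonempty A] {g k : Equiv.Perm A} (hg : g ∈ TransE h)
    (hk : k ∈ TransE h) (hg1 : g ≠ 1) (hk1 : k ≠ 1) {c d : C} (hcd : c ≠ d)
    (hc : ∀ x, r c x (g x)) (hd : ∀ x, r d x (k x)) : orderOf k ≤ orderOf g := by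
  by_contra hlt
  push Not at hlt
  have hgx := (trans_dir h hg hg1).1
  have hkx := (trans_dir h hk hk1).1
  -- they commute
  have hcomm : Commute g k := by
    ext x
    rw [Equiv.Perm.mul_apply, Equiv.Perm.mul_apply]
    have h1 : r c (k x) (g (k x)) := hc (k x)
    have h2 : r d (g x) (g (k x)) := hg.1 d _ _ (hd x)
    have h3 : r d (g x) (k (g x)) := hd (g x)
    have h4 : r c (k x) (k (g x)) := hk.1 c _ _ (hc x)
    exact h.both hcd (h.trans _ _ _ _ (h.symm _ _ _ h1) h4) (h.trans _ _ _ _ (h.symm _ _ _ h2) h3)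
  have hpow : (g * k) ^ orderOf g = k ^ orderOf g := by
    rw [hcomm.mul_pow, pow_orderOf_eq_one, one_mul]
  have hg0 : 0 < orderOf g := orderOf_pos g
  have hne : k ^ orderOf g ≠ 1 := fun e =>
    absurd (Nat.le_of_dvd hg0 (orderOf_dvd_of_pow_eq_one e)) (not_le.mpr hlt)
  have hgk : g * k ∈ TransE h := (TransE h).mul_mem hg hk
  have hgk1 : g * k ≠ 1 := by
    intro e
    apply hne
    rw [← hpow, e, one_pow]
  obtain ⟨hf, e, he⟩ := trans_dir h hgk hgk1
  obtain ⟨x⟩ := ‹Nonempty A›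
  have h1 : k ^ orderOf g ∈ TransE h := (TransE h).pow_mem hk _
  have h2 := (trans_dir h h1 hne).1 x
  have h3 := pow_dir h he (orderOf g) x
  rw [hpow] at h3
  have h4 := pow_dir h hd (orderOf g) x
  have hed : e = d := h.uq _ _ _ _ (Ne.symm h2) h3 h4
  subst hed
  have h5 := he x
  rw [Equiv.Perm.mul_apply] at h5
  have h6 : r e (k x) (g (k x)) := h.trans _ _ _ _ (h.symm _ _ _ (hd x)) h5
  exact hgx (k x) (h.both hcd (hc (k x)) h6).symm

/-- **Main theorem of this file.** -/
theorem aplane_card [Fintype A] [Nonempty A] [Nontrivial A] (h : APlane r) :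
    IsPrimePow (Nat.card A) := by
  classical
  haveI : Finite A := inferInstance
  -- all non-trivial elements have the same order
  have hdir : ∀ c : C, ∃ g ∈ TransE h, g ≠ 1 ∧ ∀ x, r c x (g x) := by
    intro c
    obtain ⟨a⟩ := ‹Nonempty A›
    -- a point on the line of direction c
    have : ∃ b, a ≠ b ∧ r c a b := by
      obtain ⟨y, hy, _⟩ := h.off c a a
      obtain ⟨d, hd⟩ := h.ex a y
      have hcd : c ≠ d := by
        rintro rfl
        exact hy hd
      -- a point off the line a y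
      obtain ⟨z, hz, _⟩ := h.off d a a
      obtain ⟨b, hb1, hb2⟩ := h.meet c d a z hcd
      refine ⟨b, ?_, hb1⟩
      rintro rfl
      exact hz (h.symm _ _ _ hb2)
    obtain ⟨b, hab, hb⟩ := this
    obtain ⟨g, hg, hgb⟩ := transE_transitive h a b
    have hg1 : g ≠ 1 := by
      rintro rfl
      exact hab hgb
    obtain ⟨_, e, he⟩ := trans_dir h hg hg1
    have h1 := he a
    rw [hgb] at h1
    have h2 := h.uq _ _ _ _ hab h1 hb
    subst h2
    exact ⟨g, hg, hg1, he⟩
  have hsame : ∀ g ∈ TransE h, ∀ k ∈ TransE h, g ≠ 1 → k ≠ 1 → orderOf g = orderOf k := by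
    have h1 : ∀ g ∈ TransE h, ∀ k ∈ TransE h, g ≠ 1 → k ≠ 1 → ∀ c d, c ≠ d → (∀ x, r c x (g x)) →
        (∀ x, r d x (k x)) → orderOf g = orderOf k := by
      intro g hg k hk hg1 hk1 c d hcd hc hd
      exact le_antisymm (order_le h hk hg hk1 hg1 (Ne.symm hcd) hd hc) (order_le h hg hk hg1 hk1 hcd hc hd)
    intro g hg k hk hg1 hk1
    obtain ⟨_, c, hc⟩ := trans_dir h hg hg1
    obtain ⟨_, d, hd⟩ := trans_dir h hk hk1
    by_cases hcd : c = d
    · subst hcd
      -- another direction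
      obtain ⟨a⟩ := ‹Nonempty A›
      obtain ⟨y, hy, _⟩ := h.off c a a
      obtain ⟨e, he⟩ := h.ex a y
      have hce : c ≠ e := by
        rintro rfl
        exact hy he
      obtain ⟨u, hu, hu1, hue⟩ := hdir e
      rw [h1 g hg u hu hg1 hu1 c e hce hc hue, ← h1 k hk u hu hk1 hu1 c e hce hd hue]
    · exact h1 g hg k hk hg1 hk1 c d hcd hc hd
  obtain ⟨a, b, hab⟩ := exists_pair_ne A
  obtain ⟨g, hg, hgb⟩ := transE_transitive h a b
  have hg1 : g ≠ 1 := by
    rintro rfl
    exact hab hgb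
  set p := orderOf g with hp
  have hp1 : p ≠ 1 := fun e => hg1 (orderOf_eq_one_iff.mp e)
  have hpp : p.Prime := by
    have h2 := Nat.minFac_prime hp1
    have h3 : 0 < p := orderOf_pos g
    set m := p / p.minFac with hm
    have h4 : m * p.minFac = p := Nat.div_mul_cancel (Nat.minFac_dvd p)
    have h5 : orderOf (g ^ m) = p.minFac := by
      rw [orderOf_pow' g (by
        rintro h6
        rw [h6, zero_mul] at h4
        omega), ← hp]
      have h6 : p.gcd m = m := Nat.gcd_eq_right ⟨p.minFac, h4.symm⟩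
      rw [h6]
      have h8 : 0 < m := by
        rcases Nat.eq_zero_or_pos m with h7 | h7
        · rw [h7, zero_mul] at h4
          omega
        · exact h7
      exact Nat.div_eq_of_eq_mul_right h8 h4.symm
    have h6 : g ^ m ≠ 1 := by
      intro e
      rw [e, orderOf_one] at h5
      exact h2.one_lt.ne h5
    have h7 := hsame (g ^ m) ((TransE h).pow_mem hg m) g hg h6 hg1
    rw [h5, ← hp] at h7
    rw [← h7]
    exact h2
  haveI : Fact p.Prime := ⟨hpp⟩
  have hpg : IsPGroup p (TransE h) := by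
    rintro ⟨k, hk⟩
    refine ⟨1, ?_⟩
    apply Subtype.ext
    show k ^ p ^ 1 = 1
    rw [pow_one]
    by_cases hk1 : k = 1
    · rw [hk1, one_pow]
    · rw [hp, hsame g hg k hk hg1 hk1, pow_orderOf_eq_one]
  obtain ⟨e, he⟩ := IsPGroup.iff_card.mp hpg
  rw [card_transE h] at he
  rw [he]
  have he0 : e ≠ 0 := by
    rintro rfl
    rw [pow_zero] at he
    exact absurd he (Finite.one_lt_card (α := A)).ne'
  exact hpp.isPrimePow.pow he0

end plane

end Pool.Agent.Helper138_LS
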