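import Pool.Agent.Helper138_LS.AffLD
import Pool.Agent.Helper138_LS.TransPlane

/-!
If the little theorem of Desargues never fails, the order of the affine plane is a prime power.
-/

set_option autoImplicit false

open Finset

namespace Pool.Agent.Helper138_LS

open Pool.Agent.H480R2.LS

/-- parallel or equal -/
def Par {k : ℕ} (A B : Finset (Fin k)) : Prop := A = B ∨ Disjoint A B

theorem Par.symm {k : ℕ} {A B : Finset (Fin k)} (h : Par A B) : Par B A := by
  rcases h with rfl | h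
  · exact Or.inl rfl
  · exact Or.inr h.symm

section aff

variable {q k : ℕ} {T : Finset (Finset (Fin k))}

theorem Aff.par_eq (_h : Aff q T) {A B : Finset (Fin k)} (hAB : Par A B) {p : Fin k} (h1 : p ∈ A)
    (h2 : p ∈ B) : A = B := by
  rcases hAB with hh | hh
  · exact hh
  · exact absurd h2 (Finset.disjoint_left.mp hh h1)

theorem Aff.par_tr (h : Aff q T) {A B C : Finset (Fin k)} (hA : Ln q T A) (hB : Ln q T B)
    (hC : Ln q T C) (h1 : Par A B) (h2 : Par B C) : Par A C := by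
  rcases h1 with rfl | h1
  · exact h2
  · rcases h2 with rfl | h2
    · exact Or.inr h1
    · exact h.ptrans hA hB hC h1 h2

theorem Aff.par_through (h : Aff q T) {B : Finset (Fin k)} (hB : Ln q T B) (p : Fin k) :
    ∃ A, Ln q T A ∧ p ∈ A ∧ Par A B := by
  by_cases hp : p ∈ B
  · exact ⟨B, hB, hp, Or.inl rfl⟩
  · obtain ⟨A, hA, h1, h2, _⟩ := h.par_ex hB hp
    exact ⟨A, hA, h1, Or.inr h2⟩

/-- two points have the direction `c` -/
def rA (q : ℕ) (T : Finset (Finset (Fin k))) (p0 : Fin k) (c : {A // Ln q T A ∧ p0 ∈ A})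
    (a b : Fin k) : Prop := ∃ A, Ln q T A ∧ a ∈ A ∧ b ∈ A ∧ Par A c.1

theorem aff_plane (h : Aff q T) (p0 : Fin k) (hD : ¬ BadLD q T) : APlane (rA q T p0) := by
  classical
  have hq := h.hq
  have hk4 : 3 * q ≤ k := by rw [h.hk]; nlinarith
  have dir_eq : ∀ {c d : {A // Ln q T A ∧ p0 ∈ A}}, Par c.1 d.1 → c = d := by
    intro c d hcd
    exact Subtype.ext (h.par_eq hcd c.2.2 d.2.2)
  have key : ∀ {c d : {A // Ln q T A ∧ p0 ∈ A}} {A : Finset (Fin k)}, Ln q T A → Par A c.1 →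
      Par A d.1 → c = d := by
    intro c d A hA h1 h2
    exact dir_eq (h.par_tr c.2.1 hA d.2.1 h1.symm h2)
  have same : ∀ {c : {A // Ln q T A ∧ p0 ∈ A}} {A B : Finset (Fin k)}, Ln q T A → Ln q T B →
      Par A c.1 → Par B c.1 → Par A B := by
    intro c A B hA hB h1 h2
    exact h.par_tr hA c.2.1 hB h1 h2.symm
  refine ⟨?_, ?_, ?_, ?_, ?_, ?_, ?_, ?_⟩
  · -- refl
    intro c a
    obtain ⟨A, hA, h1, h2⟩ := h.par_through c.2.1 a
    exact ⟨A, hA, h1, h1, h2⟩
  · rintro c a b ⟨A, hA, h1, h2, h3⟩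
    exact ⟨A, hA, h2, h1, h3⟩
  · rintro c a b d ⟨A, hA, h1, h2, h3⟩ ⟨B, hB, g1, g2, g3⟩
    have e := h.par_eq (same hA hB h3 g3) h2 g1
    subst e
    exact ⟨A, hA, h1, g2, h3⟩
  · -- ex
    intro a b
    have hex : ∃ A, Ln q T A ∧ a ∈ A ∧ b ∈ A := by
      by_cases hab : a = b
      · subst hab
        obtain ⟨x, hx⟩ : ((Finset.univ : Finset (Fin k)).erase a).Nonempty := by
          rw [← Finset.card_pos, Finset.card_erase_of_mem (Finset.mem_univ _), Finset.card_univ,
            Fintype.card_fin]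
          omega
        obtain ⟨A, hA, h1, _⟩ := h.line (Finset.mem_erase.mp hx).1.symm
        exact ⟨A, hA, h1, h1⟩
      · exact h.line hab
    obtain ⟨A, hA, h1, h2⟩ := hex
    obtain ⟨c, hc, h3, h4⟩ := h.par_through hA p0
    exact ⟨⟨c, hc, h3⟩, A, hA, h1, h2, h4.symm⟩
  · -- uq
    rintro a b c d hab ⟨A, hA, h1, h2, h3⟩ ⟨B, hB, g1, g2, g3⟩
    have e := h.uq hA hB h1 h2 g1 g2 hab
    subst e
    exact key hA h3 g3
  · -- meet
    intro c d a b hcd
    obtain ⟨A, hA, h1, h2⟩ := h.par_through c.2.1 a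
    obtain ⟨B, hB, g1, g2⟩ := h.par_through d.2.1 b
    have hAB : ¬ Disjoint A B := by
      intro hd
      apply hcd
      exact dir_eq (h.par_tr c.2.1 hA d.2.1 h2.symm (h.par_tr hA hB d.2.1 (Or.inr hd) g2))
    obtain ⟨x, hx1, hx2⟩ := Finset.not_disjoint_iff.mp hAB
    exact ⟨x, ⟨A, hA, h1, hx1, h2⟩, ⟨B, hB, g1, hx2, g2⟩⟩
  · -- off
    intro c a b
    obtain ⟨A, hA, h1, h2⟩ := h.par_through c.2.1 a
    obtain ⟨B, hB, g1, g2⟩ := h.par_through c.2.1 b
    obtain ⟨y, hy⟩ : ((Finset.univ : Finset (Fin k)) \ (A ∪ B)).Nonempty := by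
      rw [← Finset.card_pos]
      have e1 := Finset.le_card_sdiff (A ∪ B) (Finset.univ : Finset (Fin k))
      have e2 := Finset.card_union_le A B
      rw [Finset.card_univ, Fintype.card_fin] at e1
      rw [hA.2, hB.2] at e2
      omega
    simp only [Finset.mem_sdiff, Finset.mem_univ, true_and, Finset.mem_union, not_or] at hy
    refine ⟨y, ?_, ?_⟩
    · rintro ⟨C, hC, f1, f2, f3⟩
      have e := h.par_eq (same hA hC h2 f3) h1 f1
      subst e
      exact hy.1 f2
    · rintro ⟨C, hC, f1, f2, f3⟩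
      have e := h.par_eq (same hB hC g2 f3) g1 f1
      subst e
      exact hy.2 f2
  · -- little Desargues
    rintro c d e a b a' b' a'' b'' hcd hce hde hab haa' ha'a'' hnr ⟨M1, hM1, aM, bM, pM1⟩
      ⟨M2, hM2, aM', bM', pM2⟩ ⟨M3, hM3, aM'', bM'', pM3⟩ ⟨N1, hN1, aN, aN', pN1⟩
      ⟨N2, hN2, bN, bN', pN2⟩ ⟨P1, hP1, aP, aP', pP1⟩ ⟨P2, hP2, bP, bP', pP2⟩ f ⟨F, hF, aF, aF', pF⟩
    by_contra hcon
    have M12 : M1 ≠ M2 := by
      rintro rfl
      have e := h.uq hM1 hN1 aM aM' aN aN' haa'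
      subst e
      exact hcd (key hM1 pM1 pN1)
    have M13 : M1 ≠ M3 := by
      rintro rfl
      exact hnr ⟨M1, hM1, aM, aM'', pM1⟩
    have M23 : M2 ≠ M3 := by
      rintro rfl
      have e := h.uq hM2 hP1 aM' aM'' aP aP' ha'a''
      subst e
      exact hce (key hM2 pM2 pP1)
    have dM12 : Disjoint M1 M2 := (same hM1 hM2 pM1 pM2).resolve_left M12
    have dM13 : Disjoint M1 M3 := (same hM1 hM3 pM1 pM3).resolve_left M13
    have dM23 : Disjoint M2 M3 := (same hM2 hM3 pM2 pM3).resolve_left M23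
    have hbb' : b ≠ b' := by rintro rfl; exact Finset.disjoint_left.mp dM12 bM bM'
    have hbb'' : b ≠ b'' := by rintro rfl; exact Finset.disjoint_left.mp dM13 bM bM''
    have hb'b'' : b' ≠ b'' := by rintro rfl; exact Finset.disjoint_left.mp dM23 bM' bM''
    have haa'' : a ≠ a'' := by rintro rfl; exact Finset.disjoint_left.mp dM13 aM aM''
    have N12 : N1 ≠ N2 := by
      rintro rfl
      have e := h.uq hM1 hN1 aM bM aN bN hab
      subst e
      exact hcd (key hM1 pM1 pN1)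
    have hab' : a' ≠ b' := by
      rintro rfl
      exact N12 (h.par_eq (same hN1 hN2 pN1 pN2) aN' bN')
    have P12 : P1 ≠ P2 := by
      rintro rfl
      have e := h.uq hM2 hP1 aM' bM' aP bP hab'
      subst e
      exact hce (key hM2 pM2 pP1)
    have hab'' : a'' ≠ b'' := by
      rintro rfl
      exact P12 (h.par_eq (same hP1 hP2 pP1 pP2) aP' bP')
    have NP1 : N1 ≠ P1 := by
      rintro rfl
      exact hde (key hN1 pN1 pP1)
    have NP2 : N2 ≠ P2 := by
      rintro rfl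
      exact hde (key hN2 pN2 pP2)
    have dN12 : Disjoint N1 N2 := (same hN1 hN2 pN1 pN2).resolve_left N12
    have dP12 : Disjoint P1 P2 := (same hP1 hP2 pP1 pP2).resolve_left P12
    obtain ⟨G, hG, bG, bG'⟩ := h.line hbb''
    have hFG : ¬ Disjoint F G := by
      intro hd
      exact hcon ⟨G, hG, bG, bG', h.par_tr hG hF f.2.1 (Or.inr hd.symm) pF⟩
    obtain ⟨y, yF, yG⟩ := Finset.not_disjoint_iff.mp hFG
    have a''N1 : a'' ∉ N1 := fun hh => NP1 (h.uq hN1 hP1 aN' hh aP aP' ha'a'')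
    have FN1 : F ≠ N1 := by rintro rfl; exact a''N1 aF'
    have FP1 : F ≠ P1 := by
      rintro rfl
      exact NP1 (h.uq hN1 hF aN aN' aF aP haa')
    have GN2 : G ≠ N2 := by
      rintro rfl
      exact NP2 (h.uq hG hP2 bN' bG' bP bP' hb'b'')
    have GP2 : G ≠ P2 := by
      rintro rfl
      exact NP2 (h.uq hN2 hG bN bN' bG bP hbb')
    have yN1 : y ∉ N1 := by
      intro hh
      have e := h.pt hF hN1 FN1 aF aN yF hh
      subst e
      have e2 := h.uq hG hM1 yG bG aM bM hab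
      subst e2
      exact Finset.disjoint_left.mp dM13 bG' bM''
    have yN2 : y ∉ N2 := by
      intro hh
      have e := h.pt hG hN2 GN2 bG bN yG hh
      subst e
      have e2 := h.uq hF hM1 aF yF aM bM hab
      subst e2
      exact Finset.disjoint_left.mp dM13 aF' aM''
    have yP1 : y ∉ P1 := by
      intro hh
      have e := h.pt hF hP1 FP1 aF' aP' yF hh
      subst e
      have e2 := h.uq hG hM3 yG bG' aM'' bM'' hab''
      subst e2
      exact Finset.disjoint_left.mp dM13 bM bG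
    have yP2 : y ∉ P2 := by
      intro hh
      have e := h.pt hG hP2 GP2 bG' bP' yG hh
      subst e
      have e2 := h.uq hF hM3 aF' yF aM'' bM'' hab''
      subst e2
      exact Finset.disjoint_left.mp dM13 aM aF
    obtain ⟨N3, hN3, yN3, dN31, _⟩ := h.par_ex hN1 yN1
    obtain ⟨P3, hP3, yP3, dP31, _⟩ := h.par_ex hP1 yP1
    have dN23 : Disjoint N2 N3 := by
      rcases h.ptrans hN2 hN1 hN3 dN12.symm dN31.symm with e | e
      · rw [e] at yN2
        exact absurd yN3 yN2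
      · exact e
    have dP23 : Disjoint P2 P3 := by
      rcases h.ptrans hP2 hP1 hP3 dP12.symm dP31.symm with e | e
      · rw [e] at yP2
        exact absurd yP3 yP2
      · exact e
    obtain ⟨u, hu⟩ : (N3.erase y).Nonempty := by
      rw [← Finset.card_pos, Finset.card_erase_of_mem yN3, hN3.2]
      omega
    obtain ⟨v, hv⟩ : (P3.erase y).Nonempty := by
      rw [← Finset.card_pos, Finset.card_erase_of_mem yP3, hP3.2]
      omega
    rw [Finset.mem_erase] at hu hv
    have hvN3 : v ∉ N3 := by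
      intro hh
      have e := h.uq hN3 hP3 yN3 hh yP3 hv.2 hv.1.symm
      subst e
      rcases h.ptrans hN1 hN3 hP1 dN31.symm dP31 with e | e
      · exact NP1 e
      · exact Finset.disjoint_left.mp e aN' aP
    exact hD ⟨M1, M2, M3, N1, N2, N3, P1, P2, P3, F, G, a, b, a', b', a'', b'', y, u, v,
      ⟨hM1, hM2, hM3, dM12, dM13, dM23, aM, bM, hab, aM', bM', hab', aM'', bM'', hab''⟩,
      ⟨hN1, hN2, hN3, dN12, dN31.symm, dN23, aN, aN', bN, bN', yN3, hu.2, hu.1.symm⟩,
      ⟨hP1, hP2, hP3, dP12, dP31.symm, dP23, aP, aP', bP, bP', yP3, hv.2, hv.1.symm⟩,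
      ⟨hF, hG, aF, aF', yF, bG, bG', yG⟩, a''N1, hvN3⟩

/-- **The order is a prime power.** -/
theorem aff_primePow (h : Aff q T) (hD : ¬ BadLD q T) : IsPrimePow q := by
  have hq := h.hq
  have hk : 2 ≤ k := by rw [h.hk]; nlinarith
  have : Nontrivial (Fin k) := ⟨⟨0, by omega⟩, ⟨1, by omega⟩, by simp⟩
  have : Nonempty (Fin k) := ⟨⟨0, by omega⟩⟩
  have h3 := aplane_card (aff_plane h ⟨0, by omega⟩ hD)
  rw [Nat.card_eq_fintype_card, Fintype.card_fin, h.hk] at h3
  exact (isPrimePow_pow_iff (by norm_num)).mp h3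

end aff

end Pool.Agent.Helper138_LS
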