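import Pool.Agent.Helper138_LS.NonDes
import Pool.Agent.Helper138_LS.TransPlane

/-!
A family `T` with the parameters of a projective plane of order `q ≥ 3` in which Desargues configurations
close: then `q` is a prime power.
-/

set_option autoImplicit false

open Finset

namespace Pool.Agent.Helper138_LS

open Pool.Agent.H480R2.LS

variable {q k : ℕ} {T : Finset (Finset (Fin k))}

/-- any two lines meet -/
theorem meetT (hk : k = q ^ 2 + q + 1) (hq : 1 ≤ q) (hI : IC T)
    (hT : ∀ A ∈ T, A.card ∈ ({0, 1, q + 1} : Finset ℕ))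
    (hcov : ∀ x y : Fin k, x ≠ y → ∃ A ∈ T, x ∈ A ∧ y ∈ A) {A B : Finset (Fin k)}
    (hA : A ∈ T) (hB : B ∈ T) (hAc : A.card = q + 1) (hBc : B.card = q + 1) :
    ∃ z, z ∈ A ∧ z ∈ B := by
  classical
  by_contra hcon
  push Not at hcon
  obtain ⟨p, hp⟩ : B.Nonempty := Finset.card_pos.mp (by omega)
  have hpA : p ∉ A := fun h => hcon p h hp
  have hex : ∀ x, x ∈ A → ∃ L ∈ T, p ∈ L ∧ x ∈ L := by
    intro x hx
    exact hcov p x (by rintro rfl; exact hpA hx)
  choose! L hLT hLp hLx using hex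
  have hLc : ∀ x ∈ A, (L x).card = q + 1 := by
    intro x hx
    exact cardT hT (hLT x hx) (by rintro rfl; exact hpA hx) (hLp x hx) (hLx x hx)
  have hdis : ∀ x ∈ A, ∀ y ∈ A, x ≠ y → Disjoint ((L x).erase p) ((L y).erase p) := by
    intro x hx y hy hxy
    rw [Finset.disjoint_left]
    intro z hz1 hz2
    rw [Finset.mem_erase] at hz1 hz2
    have e1 := sameT hI hT (hLT x hx) (hLT y hy) hz1.1 hz1.2 (hLp x hx) hz2.2 (hLp y hy)
    have e2 := sameT hI hT (hLT x hx) hA hxy (hLx x hx) (by rw [e1]; exact hLx y hy) hx hy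
    apply hpA
    rw [← e2]
    exact hLp x hx
  have hcard : (A.biUnion fun x => (L x).erase p).card = (q + 1) * q := by
    rw [Finset.card_biUnion hdis]
    rw [Finset.sum_congr rfl (fun x hx => by
      rw [Finset.card_erase_of_mem (hLp x hx), hLc x hx, Nat.add_sub_cancel])]
    rw [Finset.sum_const, smul_eq_mul, hAc]
  have hsub : (A.biUnion fun x => (L x).erase p) ⊆ Finset.univ.erase p := by
    intro z hz
    rw [Finset.mem_biUnion] at hz
    obtain ⟨x, _, hz⟩ := hz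
    exact Finset.mem_erase.mpr ⟨(Finset.mem_erase.mp hz).1, Finset.mem_univ _⟩
  have heq : (A.biUnion fun x => (L x).erase p) = Finset.univ.erase p := by
    apply Finset.eq_of_subset_of_card_le hsub
    rw [hcard, Finset.card_erase_of_mem (Finset.mem_univ _), Finset.card_univ, Fintype.card_fin, hk]
    have : q ^ 2 + q + 1 - 1 = (q + 1) * q := by
      rw [Nat.add_sub_cancel]; ring
    omega
  obtain ⟨y, hy, hyp⟩ : ∃ y ∈ B, y ≠ p := by
    apply Finset.exists_mem_ne
    omega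
  have h1 : y ∈ A.biUnion fun x => (L x).erase p := by
    rw [heq]
    exact Finset.mem_erase.mpr ⟨hyp, Finset.mem_univ _⟩
  rw [Finset.mem_biUnion] at h1
  obtain ⟨x, hx, hy2⟩ := h1
  have e1 := sameT hI hT (hLT x hx) hB hyp (Finset.mem_of_mem_erase hy2) (hLp x hx) hy hp
  exact hcon x hx (by rw [← e1]; exact hLx x hx)

/-- parallelism off the line `M` -/
def par (T : Finset (Finset (Fin k))) (M : Finset (Fin k)) (c : {c // c ∈ M}) (a b : {a // a ∉ M}) :
    Prop := a = b ∨ ∃ A ∈ T, c.1 ∈ A ∧ a.1 ∈ A ∧ b.1 ∈ A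

theorem par_plane (hk : k = q ^ 2 + q + 1) (hq : 3 ≤ q) (hI : IC T)
    (hT : ∀ A ∈ T, A.card ∈ ({0, 1, q + 1} : Finset ℕ))
    (hcov : ∀ x y : Fin k, x ≠ y → ∃ A ∈ T, x ∈ A ∧ y ∈ A) (hD : ¬ BadDes T) {M : Finset (Fin k)}
    (hM : M ∈ T) (hMc : M.card = q + 1) : APlane (par T M) := by
  classical
  have hcM : ∀ (c : {c // c ∈ M}) (a : {a // a ∉ M}), c.1 ≠ a.1 := by
    rintro ⟨c, hc⟩ ⟨a, ha⟩ h
    simp only at h
    subst h
    exact ha hc
  -- the line through two points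
  have hline : ∀ {A B : Finset (Fin k)} {x y : Fin k}, A ∈ T → B ∈ T → x ≠ y → x ∈ A → y ∈ A →
      x ∈ B → y ∈ B → A = B := fun hA hB hxy h1 h2 h3 h4 => sameT hI hT hA hB hxy h1 h2 h3 h4
  have hrefl : ∀ c a, par T M c a a := fun c a => Or.inl rfl
  have hsymm : ∀ c a b, par T M c a b → par T M c b a := by
    rintro c a b (h | ⟨A, hA, h1, h2, h3⟩)
    · exact Or.inl h.symm
    · exact Or.inr ⟨A, hA, h1, h3, h2⟩
  have htrans : ∀ c a b d, par T M c a b → par T M c b d → par T M c a d := by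
    rintro c a b d (rfl | ⟨A, hA, h1, h2, h3⟩) (rfl | ⟨B, hB, h4, h5, h6⟩)
    · exact Or.inl rfl
    · exact Or.inr ⟨B, hB, h4, h5, h6⟩
    · exact Or.inr ⟨A, hA, h1, h2, h3⟩
    · have e := hline hA hB (hcM c b) h1 h3 h4 h5
      subst e
      exact Or.inr ⟨A, hA, h1, h2, h6⟩
  have huq : ∀ a b c d, a ≠ b → par T M c a b → par T M d a b → c = d := by
    rintro a b c d hab h1 h2
    rcases h1 with h1 | ⟨A, hA, h1, h3, h4⟩
    · exact absurd h1 hab
    rcases h2 with h2 | ⟨B, hB, h5, h6, h7⟩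
    · exact absurd h2 hab
    have e := hline hA hB (fun h => hab (Subtype.ext h)) h3 h4 h6 h7
    subst e
    by_contra hcd
    have e2 := hline hA hM (fun h => hcd (Subtype.ext h)) h1 h5 c.2 d.2
    rw [e2] at h3
    exact a.2 h3
  have hboth : ∀ {a b : {a // a ∉ M}} {c d : {c // c ∈ M}}, c ≠ d → par T M c a b → par T M d a b →
      a = b := by
    intro a b c d hcd h1 h2
    by_contra hab
    exact hcd (huq a b c d hab h1 h2)
  refine ⟨hrefl, hsymm, htrans, ?_, huq, ?_, ?_, ?_⟩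
  · -- ex
    intro a b
    by_cases hab : a = b
    · obtain ⟨c, hc⟩ : M.Nonempty := Finset.card_pos.mp (by omega)
      exact ⟨⟨c, hc⟩, Or.inl hab⟩
    · have hab' : a.1 ≠ b.1 := fun h => hab (Subtype.ext h)
      obtain ⟨A, hA, h1, h2⟩ := hcov a.1 b.1 hab'
      obtain ⟨c, hc1, hc2⟩ := meetT hk (by omega) hI hT hcov hA hM (cardT hT hA hab' h1 h2) hMc
      exact ⟨⟨c, hc2⟩, Or.inr ⟨A, hA, hc1, h1, h2⟩⟩
  · -- meet
    intro c d a b hcd
    obtain ⟨A, hA, h1, h2⟩ := hcov c.1 a.1 (hcM c a)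
    obtain ⟨B, hB, h3, h4⟩ := hcov d.1 b.1 (hcM d b)
    obtain ⟨z, hz1, hz2⟩ := meetT hk (by omega) hI hT hcov hA hB (cardT hT hA (hcM c a) h1 h2)
      (cardT hT hB (hcM d b) h3 h4)
    have hzM : z ∉ M := by
      intro hz
      have e1 : z = c.1 := by
        by_contra hne
        have e := hline hA hM hne hz1 h1 hz c.2
        rw [e] at h2
        exact a.2 h2
      have e2 : z = d.1 := by
        by_contra hne
        have e := hline hB hM hne hz2 h3 hz d.2
        rw [e] at h4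
        exact b.2 h4
      exact hcd (Subtype.ext (e1.symm.trans e2))
    exact ⟨⟨z, hzM⟩, Or.inr ⟨A, hA, h1, h2, hz1⟩, Or.inr ⟨B, hB, h3, h4, hz2⟩⟩
  · -- off
    intro c a b
    obtain ⟨A, hA, h1, h2⟩ := hcov c.1 a.1 (hcM c a)
    obtain ⟨B, hB, h3, h4⟩ := hcov c.1 b.1 (hcM c b)
    have hAc := cardT hT hA (hcM c a) h1 h2
    have hBc := cardT hT hB (hcM c b) h3 h4
    have hcard : (M ∪ (A ∪ B)).card < k := by
      calc (M ∪ (A ∪ B)).card ≤ M.card + (A ∪ B).card := Finset.card_union_le _ _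
        _ ≤ M.card + (A.card + B.card) := Nat.add_le_add_left (Finset.card_union_le _ _) _
        _ = 3 * q + 3 := by omega
        _ < k := by rw [hk]; nlinarith
    obtain ⟨y, hy⟩ : ∃ y, y ∉ M ∪ (A ∪ B) := by
      by_contra hcon
      push Not at hcon
      have e : M ∪ (A ∪ B) = Finset.univ := Finset.eq_univ_iff_forall.mpr hcon
      rw [e, Finset.card_univ, Fintype.card_fin] at hcard
      exact lt_irrefl _ hcard
    simp only [Finset.mem_union, not_or] at hy
    refine ⟨⟨y, hy.1⟩, ?_, ?_⟩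
    · rintro (h | ⟨A', hA', h5, h6, h7⟩)
      · exact hy.2.1 (by rw [h] at h2; exact h2)
      · have e := hline hA hA' (hcM c a) h1 h2 h5 h6
        rw [← e] at h7
        exact hy.2.1 h7
    · rintro (h | ⟨A', hA', h5, h6, h7⟩)
      · exact hy.2.2 (by rw [h] at h4; exact h4)
      · have e := hline hB hA' (hcM c b) h3 h4 h5 h6
        rw [← e] at h7
        exact hy.2.2 h7
  · -- Desargues
    intro c d e a b a' b' a'' b'' hcd hce hde hab haa haa' hcaa h1 h2 h3 h4 h5 h6 h7 f hf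
    have haa'' : a ≠ a'' := by
      rintro rfl
      exact hcaa (hrefl _ _)
    have hb1 : a' ≠ b' := by
      rintro rfl
      exact hab (hboth hcd h1 (htrans _ _ _ _ h4 (hsymm _ _ _ h5)))
    have hb2 : a'' ≠ b'' := by
      rintro rfl
      exact hb1 (hboth hce h2 (htrans _ _ _ _ h6 (hsymm _ _ _ h7)))
    have hb3 : b ≠ b' := by
      rintro rfl
      exact haa (hboth hcd (htrans _ _ _ _ h1 (hsymm _ _ _ h2)) h4)
    have hb4 : b' ≠ b'' := by
      rintro rfl
      exact haa' (hboth hce (htrans _ _ _ _ h2 (hsymm _ _ _ h3)) h6)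
    have hb5 : ¬ par T M c b b'' := by
      intro h
      exact hcaa (htrans _ _ _ _ h1 (htrans _ _ _ _ h (hsymm _ _ _ h3)))
    have hb6 : b ≠ b'' := by
      rintro rfl
      exact hb5 (hrefl _ _)
    -- the lines
    have toBlk : ∀ {c : {c // c ∈ M}} {a b : {a // a ∉ M}}, a ≠ b → par T M c a b →
        BlkT T c.1 a.1 b.1 := by
      rintro c a b hab (h | ⟨A, hA, q1, q2, q3⟩)
      · exact absurd h hab
      · exact ⟨hcM c a, hcM c b, fun h => hab (Subtype.ext h), A, hA, q1, q2, q3⟩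
    have ofBlk : ∀ {c : {c // c ∈ M}} {a b : {a // a ∉ M}}, (∃ A ∈ T, c.1 ∈ A ∧ a.1 ∈ A ∧ b.1 ∈ A) →
        par T M c a b := fun h => Or.inr h
    have hav : a.1 ≠ a''.1 := fun h => haa'' (Subtype.ext h)
    have hbv : b.1 ≠ b''.1 := fun h => hb6 (Subtype.ext h)
    obtain ⟨A, hA, hA1, hA2⟩ := hcov a.1 a''.1 hav
    obtain ⟨B, hB, hB1, hB2⟩ := hcov b.1 b''.1 hbv
    obtain ⟨z, hzA, hzB⟩ := meetT hk (by omega) hI hT hcov hA hB (cardT hT hA hav hA1 hA2)
      (cardT hT hB hbv hB1 hB2)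
    -- c is not on the two lines
    have hcA : c.1 ∉ A := fun h => hcaa (ofBlk ⟨A, hA, h, hA1, hA2⟩)
    have hcB : c.1 ∉ B := fun h => hb5 (ofBlk ⟨B, hB, h, hB1, hB2⟩)
    obtain ⟨_, _, hne1, E1, hE1, hE1c, hE1a, hE1b⟩ := toBlk hab h1
    obtain ⟨_, _, hne3, E3, hE3, hE3c, hE3a, hE3b⟩ := toBlk hb2 h3
    have hza : z ≠ a.1 := by
      rintro rfl
      have e := hline hB hE1 hne1.symm hB1 hzB hE1b hE1a
      rw [e] at hcB
      exact hcB hE1c
    have hzb : z ≠ b.1 := by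
      rintro rfl
      have e := hline hA hE1 hne1 hA1 hzA hE1a hE1b
      rw [e] at hcA
      exact hcA hE1c
    have hza'' : z ≠ a''.1 := by
      rintro rfl
      have e := hline hB hE3 hne3.symm hB2 hzB hE3b hE3a
      rw [e] at hcB
      exact hcB hE3c
    have hzb'' : z ≠ b''.1 := by
      rintro rfl
      have e := hline hA hE3 hne3 hA2 hzA hE3a hE3b
      rw [e] at hcA
      exact hcA hE3c
    -- z lies on M
    have hzM : z ∈ M := by
      by_contra hzM
      apply hD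
      have notBlk : ∀ {u v : {c // c ∈ M}} {x y : {a // a ∉ M}}, u ≠ v → x ≠ y → par T M v x y →
          NBlT T u.1 x.1 y.1 := by
        intro u v x y huv hxy hv
        refine ⟨hcM u x, hcM u y, fun h => hxy (Subtype.ext h), ?_⟩
        rintro A' hA' ⟨q1, q2, q3⟩
        exact huv (huq x y u v hxy (ofBlk ⟨A', hA', q1, q2, q3⟩) hv)
      have rot : ∀ {x y z : Fin k}, BlkT T x y z → BlkT T y z x := by
        rintro x y z ⟨q1, q2, q3, A', hA', q4, q5, q6⟩
        exact ⟨q3, q1.symm, q2.symm, A', hA', q5, q6, q4⟩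
      refine ⟨c.1, a.1, b.1, a'.1, b'.1, a''.1, b''.1, e.1, z, d.1, toBlk hab h1, toBlk hb1 h2,
        toBlk hb2 h3, rot (toBlk haa h4), rot (toBlk hb3 h5), rot (toBlk haa' h6), rot (toBlk hb4 h7),
        ⟨hav, hza.symm, hza''.symm, A, hA, hA1, hA2, hzA⟩,
        ⟨hbv, hzb.symm, hzb''.symm, B, hB, hB1, hB2, hzB⟩, notBlk hcd haa h4, ?_,
        notBlk hce haa' h6, ?_, ?_, ?_⟩
      · refine ⟨hcM c a, hcM c a'', hav, ?_⟩
        rintro A' hA' ⟨q1, q2, q3⟩
        exact hcaa (ofBlk ⟨A', hA', q1, q2, q3⟩)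
      · -- a a' a''
        refine ⟨fun h => haa (Subtype.ext h), hav, fun h => haa' (Subtype.ext h), ?_⟩
        rintro A' hA' ⟨q1, q2, q3⟩
        obtain ⟨_, _, hne4, E4, hE4, q4, q5, q6⟩ := toBlk haa h4
        obtain ⟨_, _, hne6, E6, hE6, q7, q8, q9⟩ := toBlk haa' h6
        have e1 := hline hA' hE4 hne4 q1 q2 q5 q6
        have e2 := hline hA' hE6 hne6 q2 q3 q8 q9
        have e3 := hline hA' hM (fun h => hde (Subtype.ext h)) (by rw [e1]; exact q4)
          (by rw [e2]; exact q7) d.2 e.2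
        rw [e3] at q1
        exact a.2 q1
      · -- z a b
        refine ⟨hza, hzb, hne1, ?_⟩
        rintro A' hA' ⟨q1, q2, q3⟩
        have e1 := hline hA' hE1 hne1 q2 q3 hE1a hE1b
        have e2 := hline hA' hA hza q1 q2 hzA hA1
        rw [← e2, e1] at hcA
        exact hcA hE1c
      · -- e z d
        refine ⟨fun h => hzM (h ▸ e.2), fun h => hde (Subtype.ext h.symm), fun h => hzM (h ▸ d.2), ?_⟩
        rintro A' hA' ⟨q1, q2, q3⟩
        have e1 := hline hA' hM (fun h => hde (Subtype.ext h.symm)) q1 q3 e.2 d.2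
        rw [e1] at q2
        exact hzM q2
    -- conclusion
    rcases hf with hf | ⟨F, hF, q1, q2, q3⟩
    · exact absurd hf haa''
    have e1 := hline hF hA hav q2 q3 hA1 hA2
    have e2 : f.1 = z := by
      by_contra hne
      have e3 := hline hA hM hne (by rw [← e1]; exact q1) hzA f.2 hzM
      rw [e3] at hA1
      exact a.2 hA1
    exact ofBlk ⟨B, hB, by rw [e2]; exact hzB, hB1, hB2⟩

/-- **The order is a prime power.** -/
theorem order_primePow (hk : k = q ^ 2 + q + 1) (hq : 3 ≤ q) (hI : IC T)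
    (hT : ∀ A ∈ T, A.card ∈ ({0, 1, q + 1} : Finset ℕ))
    (hcov : ∀ x y : Fin k, x ≠ y → ∃ A ∈ T, x ∈ A ∧ y ∈ A) (hD : ¬ BadDes T) : IsPrimePow q := by
  classical
  have hk2 : 2 ≤ k := by rw [hk]; nlinarith
  obtain ⟨M, hM, h1, h2⟩ := hcov ⟨0, by omega⟩ ⟨1, by omega⟩ (by simp)
  have hMc := cardT hT hM (by simp) h1 h2
  have hP := par_plane hk hq hI hT hcov hD hM hMc
  have hcard : Nat.card {a // a ∉ M} = q ^ 2 := by
    rw [Nat.card_eq_fintype_card, Fintype.card_subtype_compl, Fintype.card_fin, Fintype.card_coe, hMc, hk]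
    omega
  haveI : Nontrivial {a // a ∉ M} := by
    rw [← Fintype.one_lt_card_iff_nontrivial, ← Nat.card_eq_fintype_card, hcard]
    nlinarith
  have h3 := aplane_card hP
  rw [hcard] at h3
  exact (isPrimePow_pow_iff (by norm_num)).mp h3

end Pool.Agent.Helper138_LS
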