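import Pool.Agent.Helper138_LS.STS13
import Pool.Agent.Helper138_LS.PlaneT

/-!
Systems with the parameters of a projective plane whose order is not a prime power are sparse.
-/

set_option autoImplicit false

open Finset

namespace Pool.Agent.Helper138_LS

open Pool.Agent.H480R2.LS

/-- a power saving for systems with `L = {0,1,l}`, given one for every family `T` covering all pairs -/
theorem sysMono {g : ℝ → ℝ} (hg : Mono g) {k l : ℕ} (hk : 1 ≤ k) (hL : ({0, 1, l} : Finset ℕ) ⊆ Finset.range k)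
    (H : ∀ T : Finset (Finset (Fin k)), (∀ A ∈ T, A.card ∈ ({0, 1, l} : Finset ℕ)) → IC T →
      (∀ x y : Fin k, x ≠ y → ∃ A ∈ T, x ∈ A ∧ y ∈ A) →
      ∀ (n : ℕ), 0 < n → ∀ R : Finset (Fin k → Fin n), PatIn R T → ∀ c : ℝ, 0 ≤ c →
        c * (n : ℝ) ^ 3 ≤ R.card → g c * (n : ℝ) ^ 3 ≤ (n : ℝ) ^ 2) :
    ∃ e : ℝ, 0 < e ∧ e ≤ 1 ∧ ∃ C : ℝ, 0 < C ∧ ∀ (n : ℕ) (F : Finset (Finset (Fin n))),
      Sys n k {0, 1, l} F → (F.card : ℝ) ≤ C * (n : ℝ) ^ (3 - e) := by
  obtain ⟨e, he, he1, C, hC, hb⟩ := mono_bound hg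
  refine ⟨e, he, he1, (k : ℝ) ^ k * ((Kc k (TL k {0, 1, l}).card : ℝ) * (C + 1)) + 1, by positivity, ?_⟩
  intro n F hF
  rcases Nat.eq_zero_or_pos n with rfl | hn
  · have : F = ∅ := by
      rw [Finset.eq_empty_iff_forall_notMem]
      intro A hA
      have h1 := hF.1 A hA
      have h2 := Finset.card_le_univ A
      simp at h2
      rw [h2] at h1
      simp at h1
      omega
    rw [this]
    simp only [Finset.card_empty, Nat.cast_zero]
    positivity
  · have hn' : (0 : ℝ) < n := by exact_mod_cast hn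
    have h1 := sys_red (k := k) (L := {0, 1, l}) (B := (C + 1) * (n : ℝ) ^ (3 - e)) hk hL
      (fun T hT hI R hR => by
        set c : ℝ := (R.card : ℝ) / (n : ℝ) ^ 3 with hc
        have hc0 : 0 ≤ c := by positivity
        have hS : c * (n : ℝ) ^ 3 = R.card := by rw [hc]; field_simp
        by_cases hcov : ∀ x y : Fin k, x ≠ y → ∃ A ∈ T, x ∈ A ∧ y ∈ A
        · exact (hb n _ hn (Nat.cast_nonneg _) (H T hT hI hcov n hn R hR c hc0 hS.le)).trans
            (rpow_mono_e hn le_rfl hC (by linarith))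
        · push Not at hcov
          obtain ⟨x, y, _, h⟩ := hcov
          have h1 : R.card ≤ n ^ 2 := by
            apply card_le_sq R (fun f => f x) (fun f => f y)
            intro f hf g hg h1 h2
            by_contra hfg
            exact h _ (hR f hf g hg hfg) (mem_agr.mpr h1) (mem_agr.mpr h2)
          have h2 : (R.card : ℝ) ≤ (n : ℝ) ^ 2 := by exact_mod_cast h1
          calc (R.card : ℝ) ≤ 1 * (n : ℝ) ^ (3 - 1 : ℝ) := by
                rw [one_mul]
                have : (n : ℝ) ^ (3 - 1 : ℝ) = (n : ℝ) ^ 2 := by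
                  rw [show (3 - 1 : ℝ) = ((2 : ℕ) : ℝ) by norm_num, Real.rpow_natCast]
                rw [this]
                exact h2
            _ ≤ _ := rpow_mono_e hn he1 one_pos (by linarith)) hF
    have h2 : (0 : ℝ) ≤ (n : ℝ) ^ (3 - e) := by positivity
    calc (F.card : ℝ) ≤ _ := h1
      _ = ((k : ℝ) ^ k * ((Kc k (TL k {0, 1, l}).card : ℝ) * (C + 1))) * (n : ℝ) ^ (3 - e) := by ring
      _ ≤ _ := by
        apply mul_le_mul_of_nonneg_right _ h2
        linarith

theorem projNeg {q : ℕ} (hq : 2 ≤ q) (hnp : ¬ IsPrimePow q) :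
    ∃ e : ℝ, 0 < e ∧ e ≤ 1 ∧ ∃ C : ℝ, 0 < C ∧ ∀ (n : ℕ) (F : Finset (Finset (Fin n))),
      Sys n (q ^ 2 + q + 1) {0, 1, q + 1} F → (F.card : ℝ) ≤ C * (n : ℝ) ^ (3 - e) := by
  have hq3 : 3 ≤ q := by
    rcases Nat.lt_or_ge q 3 with h | h
    · have : q = 2 := by omega
      subst this
      exact absurd Nat.prime_two.isPrimePow hnp
    · exact h
  apply sysMono mono_gN (by omega)
  · intro x hx
    simp only [Finset.mem_insert, Finset.mem_singleton] at hx
    rw [Finset.mem_range]
    have : 0 < q ^ 2 := by positivity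
    rcases hx with rfl | rfl | rfl <;> nlinarith
  · intro T hT hI hcov n hn R hR c hc hS
    have hB : BadDes T := by
      by_contra hD
      exact hnp (order_primePow rfl hq3 hI hT hcov hD)
    exact badDes_bound hn hI hT hR hB hc hS

end Pool.Agent.Helper138_LS
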