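import Pool.Agent.Helper138_LS.Reduce
import Pool.Agent.Helper138_LS.PlaneNeg
import Pool.Agent.Helper138_LS.AffPlane

/-!
Systems with the parameters of an affine plane or of an inversive plane whose order is not a prime power are
sparse.
-/

set_option autoImplicit false

open Finset

namespace Pool.Agent.Helper138_LS

open Pool.Agent.H480R2.LS

theorem six_le {q : ℕ} (hq : 2 ≤ q) (hnp : ¬ IsPrimePow q) : 6 ≤ q := by
  by_contra hlt
  have h2 : q = 2 ∨ q = 3 ∨ q = 4 ∨ q = 5 := by omega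
  rcases h2 with rfl | rfl | rfl | rfl
  · exact hnp Nat.prime_two.isPrimePow
  · exact hnp Nat.prime_three.isPrimePow
  · exact hnp ((isPrimePow_nat_iff 4).mpr ⟨2, 2, Nat.prime_two, by norm_num, by norm_num⟩)
  · exact hnp Nat.prime_five.isPrimePow

theorem affNeg {q : ℕ} (hq : 2 ≤ q) (hnp : ¬ IsPrimePow q) :
    ∃ e : ℝ, 0 < e ∧ e ≤ 1 ∧ ∃ C : ℝ, 0 < C ∧ ∀ (n : ℕ) (F : Finset (Finset (Fin n))),
      Sys n (q ^ 2) {0, 1, q} F → (F.card : ℝ) ≤ C * (n : ℝ) ^ (3 - e) := by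
  have hq6 := six_le hq hnp
  apply sysMono mono_hL (Nat.one_le_pow _ _ (by omega))
  · intro x hx
    simp only [Finset.mem_insert, Finset.mem_singleton] at hx
    rw [Finset.mem_range]
    rcases hx with rfl | rfl | rfl <;> nlinarith
  · intro T hT hI hcov n hn R hR c hc hS
    have h : Aff q T := ⟨rfl, hq6, hI, hT, hcov⟩
    have hB : BadLD q T := by
      by_contra hD
      exact hnp (aff_primePow h hD)
    have hn' : (0 : ℝ) < n := by exact_mod_cast hn
    have hc1 : c ≤ 1 := by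
      have hk : 2 ≤ q ^ 2 := by nlinarith
      obtain ⟨A, hA, h1, h2⟩ := h.line (x := ⟨0, by omega⟩) (y := ⟨1, by omega⟩) (by simp)
      obtain ⟨z, hz⟩ : ((Finset.univ : Finset (Fin (q ^ 2))) \ A).Nonempty := by
        rw [← Finset.card_pos]
        have e1 := Finset.le_card_sdiff A (Finset.univ : Finset (Fin (q ^ 2)))
        rw [Finset.card_univ, Fintype.card_fin, hA.2] at e1
        have : q < q ^ 2 := by nlinarith
        omega
      have hz' := (Finset.mem_sdiff.mp hz).2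
      have h3 : R.card ≤ n ^ 3 := by
        apply card_le_cube R (fun f => f ⟨0, by omega⟩) (fun f => f ⟨1, by omega⟩) (fun f => f z)
        exact nblT_inj hR (h.nbl hA (by simp) h1 h2 hz')
      have h4 : (R.card : ℝ) ≤ (n : ℝ) ^ 3 := by exact_mod_cast h3
      have h5 : c * (n : ℝ) ^ 3 ≤ 1 * (n : ℝ) ^ 3 := by rw [one_mul]; exact hS.trans h4
      exact le_of_mul_le_mul_right h5 (by positivity)
    exact badLD_bound hn h hR hB hc hc1 hS

theorem invNeg {q : ℕ} (hq : 2 ≤ q) (hnp : ¬ IsPrimePow q) :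
    ∃ e : ℝ, 0 < e ∧ e ≤ 1 ∧ ∃ C : ℝ, 0 < C ∧ ∀ (n : ℕ) (F : Finset (Finset (Fin n))),
      Sys n (q ^ 2 + 1) {0, 1, 2, q + 1} F → (F.card : ℝ) ≤ C * (n : ℝ) ^ (4 - e) := by
  obtain ⟨e, he, he1, C, hC, h⟩ := affNeg hq hnp
  refine ⟨e, he, he1, C, hC, fun n F hF => ?_⟩
  have h1 := link_bound (k := q ^ 2) (L := {0, 1, 2, q + 1}) (L' := {0, 1, q}) (by
    intro l hl
    simp only [Finset.mem_insert, Finset.mem_singleton] at hl ⊢
    omega) hF (h n)
  have h2 : (n : ℝ) * (C * (n : ℝ) ^ (3 - e)) = C * (n : ℝ) ^ (4 - e) := by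
    rcases Nat.eq_zero_or_pos n with rfl | hn
    · rw [Nat.cast_zero, Real.zero_rpow (by linarith : (4:ℝ) - e ≠ 0)]
      ring
    · have hn' : (0:ℝ) < n := by exact_mod_cast hn
      rw [show (4 : ℝ) - e = 1 + (3 - e) by ring, Real.rpow_add hn', Real.rpow_one]
      ring
  rw [h2] at h1
  have h3 : (0:ℝ) ≤ F.card := Nat.cast_nonneg _
  have h4 : (0:ℝ) ≤ ((q ^ 2 : ℕ) : ℝ) := Nat.cast_nonneg _
  have h5 : 0 ≤ ((q ^ 2 : ℕ) : ℝ) * (F.card : ℝ) := mul_nonneg h4 h3
  linarith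

end Pool.Agent.Helper138_LS
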