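import Pool.Agent.Helper138_LS.AffT

/-!
Affine planes of order at least six: a Desargues configuration whose centre is affine and whose two pairs of
corresponding points lie on two given parallel lines, and which has a further point on a third parallel line.
-/

set_option autoImplicit false

open Finset

namespace Pool.Agent.Helper138_LS

open Pool.Agent.H480R2.LS

/-- the configuration -/
structure SelPt {k : ℕ} (T : Finset (Finset (Fin k))) (M1 M2 M3 : Finset (Fin k))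
    (o a1 b1 a2 b2 a3 b3 c1 c3 : Fin k) : Prop where
  m1 : a1 ∈ M1
  m3 : a3 ∈ M1
  n1 : b1 ∈ M2
  n3 : b3 ∈ M2
  l3 : c3 ∈ M3
  a13 : a1 ≠ a3
  b13 : b1 ≠ b3
  c13 : c1 ≠ c3
  e1 : BlkT T o a1 b1
  e2 : BlkT T o a2 b2
  e3 : BlkT T o a3 b3
  f12 : BlkT T a1 a2 c3
  g12 : BlkT T b1 b2 c3
  f23 : BlkT T a2 a3 c1
  g23 : BlkT T b2 b3 c1
  i1 : NBlT T o a1 a2
  i2 : NBlT T o a1 a3
  i3 : NBlT T o a2 a3
  i4 : NBlT T a1 a2 a3
  fin : c1 ∈ M3 ∨ ∃ y, BlkT T y c1 c3 ∧ BlkT T y a1 a3 ∧ NBlT T y a1 c1 ∧ NBlT T y b1 b3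

section aff

variable {q k : ℕ} {T : Finset (Finset (Fin k))}

/-- two distinct lines have at most one common point -/
theorem Aff.pt (h : Aff q T) {A B : Finset (Fin k)} (hA : Ln q T A) (hB : Ln q T B) (hne : A ≠ B)
    {x y : Fin k} (h1 : x ∈ A) (h2 : x ∈ B) (h3 : y ∈ A) (h4 : y ∈ B) : x = y := by
  by_contra hxy
  exact hne (h.uq hA hB h1 h3 h2 h4 hxy)

theorem Aff.nbl (h : Aff q T) {A : Finset (Fin k)} (hA : Ln q T A) {x y z : Fin k} (hxy : x ≠ y)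
    (hx : x ∈ A) (hy : y ∈ A) (hz : z ∉ A) : NBlT T x y z := by
  refine ⟨hxy, ?_, ?_, ?_⟩
  · rintro rfl; exact hz hx
  · rintro rfl; exact hz hy
  · rintro B hB ⟨h1, h2, h3⟩
    have hB' : Ln q T B := ⟨hB, cardT h.sz hB hxy h1 h2⟩
    have := h.uq hB' hA h1 h2 hx hy hxy
    rw [this] at h3
    exact hz h3

theorem NBlT.rot {x y z : Fin k} (h : NBlT T x y z) : NBlT T y z x :=
  ⟨h.2.2.1, h.1.symm, h.2.1.symm, fun A hA hh => h.2.2.2 A hA ⟨hh.2.2, hh.1, hh.2.1⟩⟩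

theorem NBlT.swap {x y z : Fin k} (h : NBlT T x y z) : NBlT T y x z :=
  ⟨h.1.symm, h.2.2.1, h.2.1, fun A hA hh => h.2.2.2 A hA ⟨hh.2.1, hh.1, hh.2.2⟩⟩

theorem blk (x y z : Fin k) {A : Finset (Fin k)} (hA : Ln q T A) (hxy : x ≠ y) (hxz : x ≠ z)
    (hyz : y ≠ z) (hx : x ∈ A) (hy : y ∈ A) (hz : z ∈ A) : BlkT T x y z :=
  ⟨hxy, hxz, hyz, A, hA.1, hx, hy, hz⟩

theorem Aff.finish (h : Aff q T) {M1 M2 M3 g : Finset (Fin k)} (h1 : Ln q T M1) (h2 : Ln q T M2)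
    (h3 : Ln q T M3) (hg : Ln q T g) (d12 : Disjoint M1 M2) (d13 : Disjoint M1 M3)
    (d23 : Disjoint M2 M3) {o x p y r a2 b2 c3 c1 : Fin k} (ho : o ∈ g) (ho1 : o ∉ M1) (ho2 : o ∉ M2)
    (hx : x ∈ M1) (hxg : x ∉ g) (hy : y ∈ M1) (hyg : y ∉ g) (hxy : x ≠ y) (hp : p ∈ M2) (hr : r ∈ M2)
    {Lx Ly K N P Q : Finset (Fin k)} (hLx : Ln q T Lx) (hLy : Ln q T Ly) (hK : Ln q T K)
    (hN : Ln q T N) (hP : Ln q T P) (hQ : Ln q T Q) (oLx : o ∈ Lx) (xLx : x ∈ Lx) (pLx : p ∈ Lx)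
    (oLy : o ∈ Ly) (yLy : y ∈ Ly) (rLy : r ∈ Ly) (ha2 : a2 ∈ g) (ha2o : a2 ≠ o) (ha21 : a2 ∉ M1)
    (ha23 : a2 ∉ M3) (hc3 : c3 ∈ M3) (xK : x ∈ K) (a2K : a2 ∈ K) (c3K : c3 ∈ K) (pN : p ∈ N)
    (c3N : c3 ∈ N) (b2N : b2 ∈ N) (hb2 : b2 ∈ g) (yP : y ∈ P) (a2P : a2 ∈ P) (rQ : r ∈ Q) (b2Q : b2 ∈ Q)
    (c1P : c1 ∈ P) (c1Q : c1 ∈ Q) : SelPt T M1 M2 M3 o x p a2 b2 y r c1 c3 := by
  have disj12 : ∀ {s t}, s ∈ M1 → t ∈ M2 → s ≠ t := by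
    rintro s t hs ht rfl; exact Finset.disjoint_left.mp d12 hs ht
  have disj13 : ∀ {s t}, s ∈ M1 → t ∈ M3 → s ≠ t := by
    rintro s t hs ht rfl; exact Finset.disjoint_left.mp d13 hs ht
  have disj23 : ∀ {s t}, s ∈ M2 → t ∈ M3 → s ≠ t := by
    rintro s t hs ht rfl; exact Finset.disjoint_left.mp d23 hs ht
  have gLx : g ≠ Lx := by rintro rfl; exact hxg xLx
  have gLy : g ≠ Ly := by rintro rfl; exact hyg yLy
  have gK : g ≠ K := by rintro rfl; exact hxg xK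
  have gP : g ≠ P := by rintro rfl; exact hyg yP
  have ox : o ≠ x := by rintro rfl; exact ho1 hx
  have oy : o ≠ y := by rintro rfl; exact ho1 hy
  have op : o ≠ p := by rintro rfl; exact ho2 hp
  have or' : o ≠ r := by rintro rfl; exact ho2 hr
  have xp : x ≠ p := disj12 hx hp
  have yr : y ≠ r := disj12 hy hr
  have xc3 : x ≠ c3 := disj13 hx hc3
  have pc3 : p ≠ c3 := disj23 hp hc3
  have a2c3 : a2 ≠ c3 := by rintro rfl; exact ha23 hc3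
  have xa2 : x ≠ a2 := by rintro rfl; exact ha21 hx
  have ya2 : y ≠ a2 := by rintro rfl; exact ha21 hy
  have pg : p ∉ g := fun hh => op (h.pt hg hLx gLx ho oLx hh pLx)
  have rg : r ∉ g := fun hh => or' (h.pt hg hLy gLy ho oLy hh rLy)
  have gQ : g ≠ Q := by rintro rfl; exact rg rQ
  have gN : g ≠ N := by rintro rfl; exact pg pN
  have M1P : M1 ≠ P := by rintro rfl; exact ha21 a2P
  have M1K : M1 ≠ K := by rintro rfl; exact ha21 a2K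
  have KP : K ≠ P := by
    rintro rfl
    exact hxy (h.pt h1 hK M1K hx xK hy yP)
  have pr : p ≠ r := by
    rintro rfl
    have e := h.uq hLx hLy oLx pLx oLy rLy op
    subst e
    have e2 := h.uq hLx h1 xLx yLy hx hy hxy
    subst e2
    exact ho1 oLx
  have b2o : o ≠ b2 := by
    rintro rfl
    have e := h.uq hN hLx pN b2N pLx oLx op.symm
    subst e
    have e2 := h.uq hN hK xLx c3N xK c3K xc3
    subst e2
    exact ha2o (h.pt hg hN gN ha2 a2K ho oLx)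
  have b2a2 : a2 ≠ b2 := by
    rintro rfl
    have e := h.uq hN hK c3N b2N c3K a2K a2c3.symm
    subst e
    have e2 := h.uq hN hLx xK pN xLx pLx xp
    subst e2
    exact ha2o (h.pt hg hN gN ha2 a2K ho oLx)
  have pb2 : p ≠ b2 := by rintro rfl; exact pg hb2
  have rb2 : r ≠ b2 := by rintro rfl; exact rg hb2
  have b2c3 : b2 ≠ c3 := by
    rintro rfl
    exact a2c3 (h.pt hg hK gK ha2 a2K hb2 c3K)
  have a2c1 : a2 ≠ c1 := by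
    rintro rfl
    exact b2a2 (h.pt hg hQ gQ ha2 c1Q hb2 b2Q)
  have yc1 : y ≠ c1 := by
    rintro rfl
    have e := h.uq hQ hLy c1Q rQ yLy rLy yr
    subst e
    exact b2o (h.pt hg hQ gLy ho oLy hb2 b2Q)
  have b2c1 : b2 ≠ c1 := by
    rintro rfl
    exact b2a2 (h.pt hg hP gP ha2 a2P hb2 c1P)
  have rc1 : r ≠ c1 := by
    rintro rfl
    have e := h.uq hP hLy yP c1P yLy rLy yr
    subst e
    exact ha2o (h.pt hg hP gLy ha2 a2P ho oLy)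
  have c1c3 : c1 ≠ c3 := by
    rintro rfl
    exact a2c1 (h.pt hK hP KP a2K a2P c3K c1P)
  have c1M1 : c1 ∉ M1 := fun hh => yc1 (h.pt h1 hP M1P hy yP hh c1P)
  refine ⟨hx, hy, hp, hr, hc3, hxy, pr, c1c3, blk o x p hLx ox op xp oLx xLx pLx,
    blk o a2 b2 hg ha2o.symm b2o b2a2 ho ha2 hb2, blk o y r hLy oy or' yr oLy yLy rLy,
    blk x a2 c3 hK xa2 xc3 a2c3 xK a2K c3K, blk p b2 c3 hN pb2 pc3 b2c3 pN b2N c3N,
    blk a2 y c1 hP ya2.symm a2c1 yc1 a2P yP c1P, blk b2 r c1 hQ rb2.symm b2c1 rc1 b2Q rQ c1Q,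
    (h.nbl hg ha2o ha2 ho hxg).rot, (h.nbl h1 hxy hx hy ho1).rot.rot, h.nbl hg ha2o.symm ho ha2 hyg,
    (h.nbl h1 hxy.symm hy hx ha21).rot, ?_⟩
  by_cases hc : c1 ∈ M3
  · exact Or.inl hc
  right
  obtain ⟨H, hH, c1H, c3H⟩ := h.line c1c3
  have HM3 : H ≠ M3 := by rintro rfl; exact hc c1H
  obtain ⟨z, hz1, hz2⟩ := h.cross hH h3 h1 d13.symm HM3 c3H hc3
  have zc1 : z ≠ c1 := by rintro rfl; exact c1M1 hz2
  have zc3 : z ≠ c3 := disj13 hz2 hc3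
  have zx : z ≠ x := by
    rintro rfl
    have e := h.uq hH hK hz1 c3H xK c3K xc3
    subst e
    exact a2c1 (h.pt hH hP KP a2K a2P c1H c1P)
  have zy : z ≠ y := by
    rintro rfl
    have e := h.uq hH hP hz1 c1H yP c1P yc1
    subst e
    exact a2c3 (h.pt hK hH KP a2K a2P c3K c3H)
  exact ⟨z, blk z c1 c3 hH zc1 zc3 c1c3 hz1 c1H c3H, blk z x y h1 zx zy hxy hz2 hx hy,
    h.nbl h1 zx hz2 hx c1M1, (h.nbl h2 pr hp hr (fun hh => disj12 hz2 hh rfl)).rot.rot⟩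

theorem Aff.sel (h : Aff q T) {M1 M2 M3 : Finset (Fin k)} (h1 : Ln q T M1) (h2 : Ln q T M2)
    (h3 : Ln q T M3) (d12 : Disjoint M1 M2) (d13 : Disjoint M1 M3) (d23 : Disjoint M2 M3) :
    ∃ o a1 b1 a2 b2 a3 b3 c1 c3, SelPt T M1 M2 M3 o a1 b1 a2 b2 a3 b3 c1 c3 := by
  classical
  have hq := h.hq
  -- the centre
  obtain ⟨o, ho⟩ : ((Finset.univ : Finset (Fin k)) \ (M1 ∪ (M2 ∪ M3))).Nonempty := by
    rw [← Finset.card_pos]
    have e1 := Finset.le_card_sdiff (M1 ∪ (M2 ∪ M3)) (Finset.univ : Finset (Fin k))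
    have e2 := Finset.card_union_le M1 (M2 ∪ M3)
    have e3 := Finset.card_union_le M2 M3
    rw [Finset.card_univ, Fintype.card_fin] at e1
    have e5 := h.hk
    rw [h1.2] at e2
    rw [h2.2, h3.2] at e3
    have e4 : 6 * q ≤ q ^ 2 := by nlinarith
    omega
  simp only [Finset.mem_sdiff, Finset.mem_univ, true_and, Finset.mem_union, not_or] at ho
  obtain ⟨ho1, ho2, ho3⟩ := ho
  obtain ⟨w, hw⟩ : M1.Nonempty := Finset.card_pos.mp (by rw [h1.2]; omega)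
  have how : o ≠ w := by rintro rfl; exact ho1 hw
  obtain ⟨g, hg, og, wg⟩ := h.line how
  have gM1 : g ≠ M1 := by rintro rfl; exact ho1 og
  obtain ⟨w2, hw2g, hw2⟩ := h.cross hg h1 h2 d12 gM1 wg hw
  obtain ⟨w3, hw3g, hw3⟩ := h.cross hg h1 h3 d13 gM1 wg hw
  have gM3 : g ≠ M3 := by rintro rfl; exact ho3 og
  obtain ⟨a, ha, a', ha', a'', ha'', haa', haa'', ha'a''⟩ := Finset.two_lt_card.mp
    (show 2 < (M1.erase w).card by rw [Finset.card_erase_of_mem hw, h1.2]; omega)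
  rw [Finset.mem_erase] at ha ha' ha''
  -- the projection from `o`
  have phi : ∀ x ∈ M1, x ≠ w → x ∉ g ∧ ∃ L p, Ln q T L ∧ o ∈ L ∧ x ∈ L ∧ p ∈ L ∧ p ∈ M2 ∧ p ∉ g := by
    intro x hx hxw
    have hxg : x ∉ g := fun hh => hxw (h.pt hg h1 gM1 hh hx wg hw)
    have hox : o ≠ x := by rintro rfl; exact ho1 hx
    obtain ⟨L, hL, oL, xL⟩ := h.line hox
    have LM1 : L ≠ M1 := by rintro rfl; exact ho1 oL
    obtain ⟨p, hpL, hp⟩ := h.cross hL h1 h2 d12 LM1 xL hx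
    refine ⟨hxg, L, p, hL, oL, xL, hpL, hp, ?_⟩
    intro hpg
    have hop : o ≠ p := by rintro rfl; exact ho2 hp
    have := h.uq hg hL og hpg oL hpL hop
    rw [this] at hxg
    exact hxg xL
  -- the forbidden line for `x`
  have forb : ∀ x p, x ∈ M1 → x ∉ g → p ∈ M2 → p ∉ g → ∃ A c S, Ln q T A ∧ p ∈ A ∧ Disjoint A g ∧
      c ∈ A ∧ c ∈ M3 ∧ Ln q T S ∧ x ∈ S ∧ c ∈ S := by
    intro x p hx hxg hp hpg
    obtain ⟨A, hA, hpA, hAg, _⟩ := h.par_ex hg hpg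
    have AM2 : A ≠ M2 := by
      rintro rfl
      exact Finset.disjoint_left.mp hAg hw2 hw2g
    obtain ⟨c, hcA, hc⟩ := h.cross hA h2 h3 d23 AM2 hpA hp
    have hxc : x ≠ c := by rintro rfl; exact Finset.disjoint_left.mp d13 hx hc
    obtain ⟨S, hS, xS, cS⟩ := h.line hxc
    exact ⟨A, c, S, hA, hpA, hAg, hcA, hc, hS, xS, cS⟩
  obtain ⟨xg1, L1, p1, hL1, oL1, xL1, pL1, hp1, pg1⟩ := phi a ha.2 ha.1
  obtain ⟨xg2, L2, p2, hL2, oL2, xL2, pL2, hp2, pg2⟩ := phi a' ha'.2 ha'.1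
  obtain ⟨xg3, L3, p3, hL3, oL3, xL3, pL3, hp3, pg3⟩ := phi a'' ha''.2 ha''.1
  obtain ⟨A1, s1, S1, hA1, pA1, Ag1, sA1, hs1, hS1, xS1, sS1⟩ := forb a p1 ha.2 xg1 hp1 pg1
  obtain ⟨A2, s2, S2, hA2, pA2, Ag2, sA2, hs2, hS2, xS2, sS2⟩ := forb a' p2 ha'.2 xg2 hp2 pg2
  -- the choice of `a2`
  have one : ∀ {S : Finset (Fin k)} {x}, Ln q T S → x ∈ S → x ∉ g → (S ∩ g).card ≤ 1 := by
    intro S x hS hx hxg
    rw [Finset.card_le_one]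
    intro u hu v hv
    rw [Finset.mem_inter] at hu hv
    have : S ≠ g := by rintro rfl; exact hxg hx
    exact h.pt hS hg this hu.1 hu.2 hv.1 hv.2
  obtain ⟨a2, ha2⟩ : (g \ (({o, w, w3} : Finset (Fin k)) ∪ ((S1 ∩ g) ∪ (S2 ∩ g)))).Nonempty := by
    rw [← Finset.card_pos]
    have e1 := Finset.le_card_sdiff (({o, w, w3} : Finset (Fin k)) ∪ ((S1 ∩ g) ∪ (S2 ∩ g))) g
    have e2 := Finset.card_union_le ({o, w, w3} : Finset (Fin k)) ((S1 ∩ g) ∪ (S2 ∩ g))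
    have e3 := Finset.card_union_le (S1 ∩ g) (S2 ∩ g)
    have e4 := one hS1 xS1 xg1
    have e5 := one hS2 xS2 xg2
    have e6 : ({o, w, w3} : Finset (Fin k)).card ≤ 3 := Finset.card_le_three
    rw [hg.2] at e1
    omega
  simp only [Finset.mem_sdiff, Finset.mem_union, Finset.mem_insert, Finset.mem_singleton,
    Finset.mem_inter, not_or, not_and] at ha2
  obtain ⟨a2g, ⟨a2o, a2w, a2w3⟩, a2S1, a2S2⟩ := ha2
  replace a2S1 : a2 ∉ S1 := fun hh => a2S1 hh a2g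
  replace a2S2 : a2 ∉ S2 := fun hh => a2S2 hh a2g
  have a2M1 : a2 ∉ M1 := fun hh => a2w (h.pt hg h1 gM1 a2g hh wg hw)
  have a2M3 : a2 ∉ M3 := fun hh => a2w3 (h.pt hg h3 gM3 a2g hh hw3g hw3)
  -- the points `c3` and `b2` for `x`
  have half : ∀ {x p s : Fin k} {A S : Finset (Fin k)}, x ∈ M1 → x ∉ g → p ∈ M2 → p ∉ g →
      Ln q T A → p ∈ A → Disjoint A g → s ∈ A → s ∈ M3 → Ln q T S → x ∈ S → s ∈ S → a2 ∉ S →
      ∃ K N c f, Ln q T K ∧ Ln q T N ∧ x ∈ K ∧ a2 ∈ K ∧ c ∈ K ∧ c ∈ M3 ∧ p ∈ N ∧ c ∈ N ∧ f ∈ N ∧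
        f ∈ g := by
    intro x p s A S hx hxg hp hpg hA hpA hAg hsA hs hS xS sS hS2
    have hxa2 : x ≠ a2 := by rintro rfl; exact a2M1 hx
    obtain ⟨K, hK, xK, a2K⟩ := h.line hxa2
    have KM1 : K ≠ M1 := by rintro rfl; exact a2M1 a2K
    obtain ⟨c, hcK, hc⟩ := h.cross hK h1 h3 d13 KM1 xK hx
    have hpc : p ≠ c := by rintro rfl; exact Finset.disjoint_left.mp d23 hp hc
    obtain ⟨N, hN, pN, cN⟩ := h.line hpc
    have hNg : ¬ Disjoint N g := by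
      intro hd
      have e := h.par_uq hN hA hg pN hpA hd hAg
      subst e
      have NM3 : N ≠ M3 := by
        rintro rfl
        exact Finset.disjoint_left.mp d23 hp pN
      have e2 := h.pt hN h3 NM3 cN hc hsA hs
      subst e2
      have hxc : x ≠ c := by rintro rfl; exact Finset.disjoint_left.mp d13 hx hc
      have e3 := h.uq hK hS xK hcK xS sS hxc
      subst e3
      exact hS2 a2K
    obtain ⟨f, hfN, hfg⟩ := Finset.not_disjoint_iff.mp hNg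
    exact ⟨K, N, c, f, hK, hN, xK, a2K, hcK, hc, pN, cN, hfN, hfg⟩
  obtain ⟨K1, N1, c1, f1, hK1, hN1, xK1, aK1, cK1, hc1, pN1, cN1, fN1, fg1⟩ :=
    half ha.2 xg1 hp1 pg1 hA1 pA1 Ag1 sA1 hs1 hS1 xS1 sS1 a2S1
  obtain ⟨K2, N2, c2, f2, hK2, hN2, xK2, aK2, cK2, hc2, pN2, cN2, fN2, fg2⟩ :=
    half ha'.2 xg2 hp2 pg2 hA2 pA2 Ag2 sA2 hs2 hS2 xS2 sS2 a2S2
  by_contra hcon
  push Not at hcon
  have p3f1 : p3 ≠ f1 := by rintro rfl; exact pg3 fg1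
  have p3f2 : p3 ≠ f2 := by rintro rfl; exact pg3 fg2
  have p1f2 : p1 ≠ f2 := by rintro rfl; exact pg1 fg2
  obtain ⟨Q1, hQ1, pQ1, fQ1⟩ := h.line p3f1
  obtain ⟨Q2, hQ2, pQ2, fQ2⟩ := h.line p3f2
  obtain ⟨Q3, hQ3, pQ3, fQ3⟩ := h.line p1f2
  have a3a2 : a'' ≠ a2 := by rintro rfl; exact a2M1 ha''.2
  obtain ⟨P, hP, aP, a2P⟩ := h.line a3a2
  have D1 : Disjoint Q1 P := by
    by_contra hd
    obtain ⟨c, hcQ, hcP⟩ := Finset.not_disjoint_iff.mp hd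
    exact hcon _ _ _ _ _ _ _ _ _ (h.finish h1 h2 h3 hg d12 d13 d23 og ho1 ho2 ha.2 xg1 ha''.2 xg3 haa''
      hp1 hp3 hL1 hL3 hK1 hN1 hP hQ1 oL1 xL1 pL1 oL3 xL3 pL3 a2g a2o a2M1 a2M3 hc1 xK1 aK1 cK1 pN1 cN1
      fN1 fg1 aP a2P pQ1 fQ1 hcP hcQ)
  have D2 : Disjoint Q2 P := by
    by_contra hd
    obtain ⟨c, hcQ, hcP⟩ := Finset.not_disjoint_iff.mp hd
    exact hcon _ _ _ _ _ _ _ _ _ (h.finish h1 h2 h3 hg d12 d13 d23 og ho1 ho2 ha'.2 xg2 ha''.2 xg3 ha'a''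
      hp2 hp3 hL2 hL3 hK2 hN2 hP hQ2 oL2 xL2 pL2 oL3 xL3 pL3 a2g a2o a2M1 a2M3 hc2 xK2 aK2 cK2 pN2 cN2
      fN2 fg2 aP a2P pQ2 fQ2 hcP hcQ)
  have D3 : Disjoint Q3 K1 := by
    by_contra hd
    obtain ⟨c, hcQ, hcP⟩ := Finset.not_disjoint_iff.mp hd
    exact hcon _ _ _ _ _ _ _ _ _ (h.finish h1 h2 h3 hg d12 d13 d23 og ho1 ho2 ha'.2 xg2 ha.2 xg1 haa'.symm
      hp2 hp1 hL2 hL1 hK2 hN2 hK1 hQ3 oL2 xL2 pL2 oL1 xL1 pL1 a2g a2o a2M1 a2M3 hc2 xK2 aK2 cK2 pN2 cN2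
      fN2 fg2 xK1 aK1 pQ3 fQ3 hcP hcQ)
  have e1 := h.par_uq hQ1 hQ2 hP pQ1 pQ2 D1 D2
  subst e1
  have Q1g : Q1 ≠ g := by rintro rfl; exact pg3 pQ1
  have e2 := h.pt hQ1 hg Q1g fQ1 fg1 fQ2 fg2
  subst e2
  have e3 := h.uq hQ3 hN1 pQ3 fQ3 pN1 fN1 p1f2
  subst e3
  exact Finset.disjoint_left.mp D3 cN1 cK1

end aff

end Pool.Agent.Helper138_LS
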