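import Pool.Agent.Helper138_LS.NonDes

/-!
Families `T` with the parameters of an affine plane of order `q`: parallel lines.
-/

set_option autoImplicit false

open Finset

namespace Pool.Agent.Helper138_LS

open Pool.Agent.H480R2.LS

/-- the parameters of an affine plane of order `q ≥ 6` -/
structure Aff (q : ℕ) {k : ℕ} (T : Finset (Finset (Fin k))) : Prop where
  hk : k = q ^ 2
  hq : 6 ≤ q
  ic : IC T
  sz : ∀ A ∈ T, A.card ∈ ({0, 1, q} : Finset ℕ)
  cov : ∀ x y : Fin k, x ≠ y → ∃ A ∈ T, x ∈ A ∧ y ∈ A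

section aff

variable {q k : ℕ} {T : Finset (Finset (Fin k))}

/-- lines -/
def Ln (q : ℕ) (T : Finset (Finset (Fin k))) (A : Finset (Fin k)) : Prop := A ∈ T ∧ A.card = q

theorem Aff.line (h : Aff q T) {x y : Fin k} (hxy : x ≠ y) : ∃ A, Ln q T A ∧ x ∈ A ∧ y ∈ A := by
  obtain ⟨A, hA, h1, h2⟩ := h.cov x y hxy
  exact ⟨A, ⟨hA, cardT h.sz hA hxy h1 h2⟩, h1, h2⟩

theorem Aff.uq (h : Aff q T) {A B : Finset (Fin k)} (hA : Ln q T A) (hB : Ln q T B) {x y : Fin k}
    (h1 : x ∈ A) (h2 : y ∈ A) (h3 : x ∈ B) (h4 : y ∈ B) (hxy : x ≠ y) : A = B :=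
  sameT h.ic h.sz hA.1 hB.1 hxy h1 h2 h3 h4

/-- the points on no line joining `p` to a point of `B` form, with `p`, a line -/
theorem Aff.par_ex (h : Aff q T) {B : Finset (Fin k)} (hB : Ln q T B) {p : Fin k} (hp : p ∉ B) :
    ∃ A, Ln q T A ∧ p ∈ A ∧ Disjoint A B ∧ ∀ A', Ln q T A' → p ∈ A' → Disjoint A' B → A' = A := by
  classical
  have hq := h.hq
  have hex : ∀ x, x ∈ B → ∃ L, Ln q T L ∧ p ∈ L ∧ x ∈ L := by
    intro x hx
    exact h.line (by rintro rfl; exact hp hx)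
  choose! L hL hLp hLx using hex
  have hdis : ∀ x ∈ B, ∀ y ∈ B, x ≠ y → Disjoint ((L x).erase p) ((L y).erase p) := by
    intro x hx y hy hxy
    rw [Finset.disjoint_left]
    intro z hz1 hz2
    rw [Finset.mem_erase] at hz1 hz2
    have e1 := h.uq (hL x hx) (hL y hy) hz1.2 (hLp x hx) hz2.2 (hLp y hy) hz1.1
    have e2 := h.uq (hL x hx) hB (hLx x hx) (by rw [e1]; exact hLx y hy) hx hy hxy
    apply hp
    rw [← e2]
    exact hLp x hx
  have hcard : (B.biUnion fun x => (L x).erase p).card = q * (q - 1) := by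
    rw [Finset.card_biUnion hdis]
    rw [Finset.sum_congr rfl (fun x hx => by
      rw [Finset.card_erase_of_mem (hLp x hx), (hL x hx).2])]
    rw [Finset.sum_const, smul_eq_mul, hB.2]
  set U := B.biUnion fun x => (L x).erase p with hU
  set W := (Finset.univ.erase p) \ U with hW
  have hUsub : U ⊆ Finset.univ.erase p := by
    intro z hz
    rw [hU, Finset.mem_biUnion] at hz
    obtain ⟨x, _, hz⟩ := hz
    exact Finset.mem_erase.mpr ⟨(Finset.mem_erase.mp hz).1, Finset.mem_univ _⟩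
  have hWc : W.card = q - 1 := by
    rw [hW, Finset.card_sdiff_of_subset hUsub, hcard, Finset.card_erase_of_mem (Finset.mem_univ _),
      Finset.card_univ, Fintype.card_fin, h.hk]
    obtain ⟨m, rfl⟩ : ∃ m, q = m + 1 := ⟨q - 1, by omega⟩
    have : (m + 1) ^ 2 - 1 = (m + 1) * m + m := by
      have : (m + 1) ^ 2 = (m + 1) * m + m + 1 := by ring
      omega
    rw [this]
    simp
  -- points of a line through p disjoint from B are in W
  have hin : ∀ A', Ln q T A' → p ∈ A' → Disjoint A' B → A'.erase p ⊆ W := by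
    intro A' hA' hpA' hdisj z hz
    rw [Finset.mem_erase] at hz
    rw [hW, Finset.mem_sdiff]
    refine ⟨Finset.mem_erase.mpr ⟨hz.1, Finset.mem_univ _⟩, ?_⟩
    intro hzU
    rw [hU, Finset.mem_biUnion] at hzU
    obtain ⟨x, hx, hzx⟩ := hzU
    have e := h.uq hA' (hL x hx) hz.2 hpA' (Finset.mem_of_mem_erase hzx) (hLp x hx) hz.1
    rw [e] at hdisj
    exact Finset.disjoint_left.mp hdisj (hLx x hx) hx
  have heqW : ∀ A', Ln q T A' → p ∈ A' → Disjoint A' B → A'.erase p = W := by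
    intro A' hA' hpA' hdisj
    apply Finset.eq_of_subset_of_card_le (hin A' hA' hpA' hdisj)
    rw [hWc, Finset.card_erase_of_mem hpA', hA'.2]
  obtain ⟨z, hz⟩ : W.Nonempty := Finset.card_pos.mp (by omega)
  have hz' := Finset.mem_sdiff.mp hz
  have hzp : p ≠ z := (Finset.mem_erase.mp hz'.1).1.symm
  obtain ⟨A, hA, hA1, hA2⟩ := h.line hzp
  have hAB : Disjoint A B := by
    rw [Finset.disjoint_left]
    intro x hxA hxB
    apply hz'.2
    rw [hU, Finset.mem_biUnion]
    refine ⟨x, hxB, ?_⟩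
    have hxp : x ≠ p := by rintro rfl; exact hp hxB
    have e := h.uq hA (hL x hxB) hxA hA1 (hLx x hxB) (hLp x hxB) hxp
    rw [Finset.mem_erase]
    exact ⟨hzp.symm, by rw [← e]; exact hA2⟩
  refine ⟨A, hA, hA1, hAB, ?_⟩
  intro A' hA' hpA' hdisj
  have e1 := heqW A' hA' hpA' hdisj
  have e2 := heqW A hA hA1 hAB
  rw [← Finset.insert_erase hpA', ← Finset.insert_erase hA1, e1, e2]

theorem Aff.par_uq (h : Aff q T) {A A' B : Finset (Fin k)} (hA : Ln q T A) (hA' : Ln q T A')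
    (hB : Ln q T B) {p : Fin k} (h1 : p ∈ A) (h2 : p ∈ A') (h3 : Disjoint A B) (h4 : Disjoint A' B) :
    A = A' := by
  have hp : p ∉ B := Finset.disjoint_left.mp h3 h1
  obtain ⟨A0, _, _, _, h5⟩ := h.par_ex hB hp
  rw [h5 A hA h1 h3, h5 A' hA' h2 h4]

theorem Aff.ptrans (h : Aff q T) {A B C : Finset (Fin k)} (hA : Ln q T A) (hB : Ln q T B)
    (hC : Ln q T C) (h1 : Disjoint A B) (h2 : Disjoint B C) : A = C ∨ Disjoint A C := by
  by_cases h3 : Disjoint A C
  · exact Or.inr h3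
  · left
    obtain ⟨p, hp1, hp2⟩ := Finset.not_disjoint_iff.mp h3
    exact h.par_uq hA hC hB hp1 hp2 h1 h2.symm

/-- a line meeting one of two parallel lines meets the other -/
theorem Aff.cross (h : Aff q T) {A B C : Finset (Fin k)} (hA : Ln q T A) (hB : Ln q T B)
    (hC : Ln q T C) (hBC : Disjoint B C) (hAB : A ≠ B) {x : Fin k} (h1 : x ∈ A) (h2 : x ∈ B) :
    ∃ z, z ∈ A ∧ z ∈ C := by
  by_contra hcon
  push Not at hcon
  have h3 : Disjoint A C := Finset.disjoint_left.mpr hcon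
  exact hAB (h.par_uq hA hB hC h1 h2 h3 hBC)

end aff

end Pool.Agent.Helper138_LS
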