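import Pool.Agent.Helper138_LS.RelF

/-!
The negative part of the classification of all pairs with `k ≤ 19` or `k ≤ max L + 15`.
-/

set_option autoImplicit false

open Finset

namespace Pool.Agent.Helper138_LS

open Pool.Agent.H480R2.LS

/-- the basic pairs: full sets `{0,…,s-1}` and fourteen sporadic pairs -/
def Base (k : ℕ) (L : Finset ℕ) : Prop :=
  (∃ s, s ≤ k ∧ L = Finset.range s) ∨
  (k = 7 ∧ L = {0, 1, 3}) ∨ (k = 8 ∧ L = {0, 1, 2, 4}) ∨ (k = 9 ∧ L = {0, 1, 3}) ∨
  (k = 10 ∧ L = {0, 1, 2, 4}) ∨ (k = 11 ∧ L = {0, 1, 2, 3, 5}) ∨ (k = 12 ∧ L = {0, 1, 2, 3, 4, 6}) ∨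
  (k = 13 ∧ L = {0, 1, 4}) ∨ (k = 15 ∧ L = {0, 1, 3}) ∨ (k = 15 ∧ L = {0, 1, 3, 7}) ∨
  (k = 16 ∧ L = {0, 1, 4}) ∨ (k = 16 ∧ L = {0, 1, 2, 4}) ∨ (k = 16 ∧ L = {0, 1, 2, 4, 8}) ∨
  (k = 17 ∧ L = {0, 1, 2, 5}) ∨ (k = 19 ∧ L = {0, 1, 3})

/-- the pairs `(a + g k', a + g L')` with `(k', L')` basic -/
def Yes (k : ℕ) (L : Finset ℕ) : Prop :=
  ∃ (a g k' : ℕ) (L' : Finset ℕ), 1 ≤ g ∧ Base k' L' ∧ k = a + g * k' ∧
    L = L'.image fun i => a + g * i

theorem Base.yes {k : ℕ} {L : Finset ℕ} (h : Base k L) : Yes k L := by
  refine ⟨0, 1, k, L, le_rfl, h, by ring, ?_⟩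
  simp

theorem yes_shift {k : ℕ} {L : Finset ℕ} (h0 : 0 ∉ L) (h : Yes k (dn L)) : Yes (k + 1) L := by
  obtain ⟨a, g, k', L', hg, hB, hk, hL⟩ := h
  refine ⟨a + 1, g, k', L', hg, hB, by omega, ?_⟩
  ext i
  rw [Finset.mem_image]
  constructor
  · intro hi
    have hi0 : i ≠ 0 := by rintro rfl; exact h0 hi
    obtain ⟨j, rfl⟩ : ∃ j, i = j + 1 := ⟨i - 1, by omega⟩
    rw [← mem_dn, hL, Finset.mem_image] at hi
    obtain ⟨t, ht, rfl⟩ := hi
    exact ⟨t, ht, by ring⟩
  · rintro ⟨t, ht, rfl⟩
    have : a + g * t ∈ dn L := by
      rw [hL, Finset.mem_image]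
      exact ⟨t, ht, rfl⟩
    rw [mem_dn] at this
    convert this using 1
    ring

theorem yes_scale {k g : ℕ} {L : Finset ℕ} (hg : 1 ≤ g) (hk : g ∣ k) (hL : ∀ l ∈ L, g ∣ l)
    (h : Yes (k / g) (sc g L)) : Yes k L := by
  obtain ⟨a, g', k', L', hg', hB, hk', hL'⟩ := h
  refine ⟨g * a, g * g', k', L', Nat.one_le_iff_ne_zero.mpr (by positivity), hB, ?_, ?_⟩
  · rw [← Nat.mul_div_cancel' hk, hk']
    ring
  · ext i
    rw [Finset.mem_image]
    constructor
    · intro hi
      obtain ⟨j, rfl⟩ := hL i hi
      rw [← mem_sc (by omega), hL', Finset.mem_image] at hi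
      obtain ⟨t, ht, rfl⟩ := hi
      exact ⟨t, ht, by ring⟩
    · rintro ⟨t, ht, rfl⟩
      have : a + g' * t ∈ sc g L := by
        rw [hL', Finset.mem_image]
        exact ⟨t, ht, rfl⟩
      rw [mem_sc (by omega)] at this
      convert this using 1
      ring

/-- the excluded pairs: those obtained from `(17, {0,1,2,3,5})` -/
def Exc (k : ℕ) (L : Finset ℕ) : Prop :=
  ∃ (a j : ℕ), j ≤ 7 ∧ k = a + (17 + j) ∧
    L = (insert (5 + j) (Finset.range (4 + j))).image fun i => a + i

/-- the range of the classification -/
def Dom (k : ℕ) (L : Finset ℕ) : Prop := k ≤ 19 ∨ ∃ l ∈ L, k ≤ l + 15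

theorem exc_shift {k : ℕ} {L : Finset ℕ} (h0 : 0 ∉ L) (h : Exc k (dn L)) : Exc (k + 1) L := by
  obtain ⟨a, j, hj, hk, hL⟩ := h
  refine ⟨a + 1, j, hj, by omega, ?_⟩
  ext i
  rw [Finset.mem_image]
  constructor
  · intro hi
    have hi0 : i ≠ 0 := by rintro rfl; exact h0 hi
    obtain ⟨t, rfl⟩ : ∃ t, i = t + 1 := ⟨i - 1, by omega⟩
    rw [← mem_dn, hL, Finset.mem_image] at hi
    obtain ⟨u, hu, rfl⟩ := hi
    exact ⟨u, hu, by ring⟩
  · rintro ⟨t, ht, rfl⟩
    have : a + t ∈ dn L := by
      rw [hL, Finset.mem_image]
      exact ⟨t, ht, rfl⟩
    rw [mem_dn] at this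
    convert this using 1
    ring

theorem dom_dn {k : ℕ} {L : Finset ℕ} (h : Dom (k + 1) L) : Dom k (dn L) := by
  rcases h with h | ⟨l, hl, h⟩
  · exact Or.inl (by omega)
  · rcases Nat.eq_zero_or_pos l with rfl | hl0
    · exact Or.inl (by omega)
    · right
      refine ⟨l - 1, ?_, by omega⟩
      rw [mem_dn, Nat.sub_add_cancel hl0]
      exact hl

theorem dom_sc {k g : ℕ} {L : Finset ℕ} (hg : 1 ≤ g) (hL : ∀ l ∈ L, g ∣ l) (h : Dom k L) :
    Dom (k / g) (sc g L) := by
  rcases h with h | ⟨l, hl, h⟩
  · exact Or.inl ((Nat.div_le_self _ _).trans h)
  · right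
    obtain ⟨j, rfl⟩ := hL l hl
    refine ⟨j, (mem_sc hg).mpr hl, ?_⟩
    have h1 : k / g ≤ (g * j + 15) / g := Nat.div_le_div_right h
    rw [Nat.mul_add_div (by omega)] at h1
    have h2 : 15 / g ≤ 15 := Nat.div_le_self _ _
    omega

/-- the case of three sizes -/
theorem rb_three {g k' : ℕ} (hg : 2 ≤ g) (hk' : 2 ≤ k') (hk : 1 + g * k' ≤ 19 ∨ g * k' ≤ g + 15)
    (hY : ¬ Yes (1 + g * k') {0, 1, 1 + g}) : RB (1 + g * k') {0, 1, 1 + g} 3 := by
  have st : ∀ (k l : ℕ), 2 ≤ l → ¬ l.choose 2 ∣ k.choose 2 → RB k {0, 1, l} 3 := by
    intro k l hl h
    have h1 := RB.steiner (k := k) (t := 2) (l := l) hl h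
    have h2 : insert l (Finset.range 2) = ({0, 1, l} : Finset ℕ) := by
      ext i
      simp only [Finset.mem_insert, Finset.mem_range, Finset.mem_singleton]
      omega
    rw [h2] at h1
    exact h1
  have hg8 : g < 16 := by
    by_contra h
    have : g * 2 ≤ g * k' := Nat.mul_le_mul_left _ hk'
    omega
  have hk8 : k' < 10 := by
    by_contra h
    obtain ⟨j, rfl⟩ : ∃ j, k' = j + 10 := ⟨k' - 10, by omega⟩
    have h1 : g * (j + 10) = g * j + g * 10 := by ring
    have h2 : 2 * j ≤ g * j := Nat.mul_le_mul_right _ hg
    omega
  by_cases hf : g * k' < (1 + g) * g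
  · apply RB.fisher (by omega) _ (by rw [Nat.add_sub_cancel_left, Nat.add_sub_cancel_left]; exact hf)
    have : g * 2 ≤ g * k' := Nat.mul_le_mul_left _ hk'
    omega
  interval_cases g <;> interval_cases k' <;> first
    | omega
    | exact st _ _ (by norm_num) (by decide)
    | exact RB_thirteen
    | (exfalso; apply hY; apply Base.yes; unfold Base; decide)

/-- planes with five points -/
theorem rb_five {k : ℕ} {L : Finset ℕ} {g m : ℕ} (hg : 2 ≤ g) (hm : 3 ≤ m)
    (hL : L = insert 0 ((Finset.range m).image fun i => 1 + g * i)) (hk : L ⊆ Finset.range k) :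
    RB k L (m + 1) := by
  subst hL
  exact RB.small_plane hg hm hk

theorem neg_all : ∀ k : ℕ, ∀ L : Finset ℕ, Dom k L → ¬ Exc k L → L.Nonempty → L ⊆ Finset.range k →
    ¬ Yes k L → RB k L L.card := by
  classical
  intro k
  induction k using Nat.strong_induction_on with
  | _ k ih =>
    intro L hD hX hne hL hY
    obtain ⟨l0, hl0⟩ := hne
    have hk1 : 1 ≤ k := by
      have := Finset.mem_range.mp (hL hl0)
      omega
    obtain ⟨k0, rfl⟩ : ∃ k0, k = k0 + 1 := ⟨k - 1, by omega⟩
    have hdn : dn L ⊆ Finset.range k0 := by
      intro i hi
      rw [mem_dn] at hi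
      have := Finset.mem_range.mp (hL hi)
      rw [Finset.mem_range]
      omega
    by_cases h0 : 0 ∈ L
    · by_cases h1 : 1 ∈ L
      · -- the smallest positive size is one
        have h0' : 0 ∈ dn L := mem_dn.mpr h1
        have hcard : L.card = (dn L).card + 1 := by
          rw [card_dn, Finset.card_erase_of_mem h0]
          have : 1 ≤ L.card := Finset.card_pos.mpr ⟨0, h0⟩
          omega
        have lift : ∀ L' : Finset ℕ, dn L = L' → L = insert 0 (L'.image fun i => 1 + i) := by
          intro L' hdL
          ext i
          rw [Finset.mem_insert, Finset.mem_image]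
          constructor
          · intro hi
            rcases Nat.eq_zero_or_pos i with rfl | hi0
            · exact Or.inl rfl
            · right
              obtain ⟨j, rfl⟩ : ∃ j, i = j + 1 := ⟨i - 1, by omega⟩
              rw [← mem_dn, hdL] at hi
              exact ⟨j, hi, by ring⟩
          · rintro (rfl | ⟨t, ht, rfl⟩)
            · exact h0
            · rw [← hdL, mem_dn] at ht
              convert ht using 1
              ring
        by_cases hX' : Exc k0 (dn L)
        · obtain ⟨a, j, hj, hk, hdL⟩ := hX'
          have ha : a = 0 := by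
            rw [hdL, Finset.mem_image] at h0'
            obtain ⟨i, _, h⟩ := h0'
            omega
          subst ha
          have hLL := lift _ hdL
          by_cases hj7 : j = 7
          · subst hj7
            have e1 : L = insert 13 (Finset.range 12) := by
              rw [hLL]
              decide
            have e2 : k0 + 1 = 25 := by omega
            have e3 : L.card = 12 + 1 := by
              rw [e1]
              decide
            rw [e3, e2, e1]
            exact RB.steiner (by norm_num) (by decide)
          · exfalso
            apply hX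
            refine ⟨0, j + 1, by omega, by omega, ?_⟩
            rw [hLL]
            ext i
            simp only [Finset.mem_insert, Finset.mem_image, Finset.mem_range]
            constructor
            · rintro (rfl | ⟨t, ⟨u, hu, rfl⟩, rfl⟩)
              · exact ⟨0, by omega, by omega⟩
              · exact ⟨u + 1, by omega, by omega⟩
            · rintro ⟨t, ht, rfl⟩
              rcases Nat.eq_zero_or_pos t with rfl | ht0
              · exact Or.inl rfl
              · exact Or.inr ⟨t - 1, ⟨t - 1, by omega, by omega⟩, by omega⟩
        by_cases hY' : Yes k0 (dn L)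
        swap
        · rw [hcard]
          exact RB.link (ih k0 (by omega) (dn L) (dom_dn hD) hX' ⟨0, h0'⟩ hdn hY')
        obtain ⟨a, g, k', L', hg, hB, hk, hdL⟩ := hY'
        have h0L' : a = 0 ∧ 0 ∈ L' := by
          rw [hdL, Finset.mem_image] at h0'
          obtain ⟨i, hi, h⟩ := h0'
          have e1 : a = 0 := by omega
          have e2 : g * i = 0 := by omega
          have e3 : i = 0 := by
            rcases Nat.mul_eq_zero.mp e2 with h | h
            · omega
            · exact h
          exact ⟨e1, e3 ▸ hi⟩
        obtain ⟨rfl, h0L'⟩ := h0L'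
        have hLL : L = insert 0 (L'.image fun i => 1 + g * i) := by
          rw [lift _ hdL, Finset.image_image]
          congr 1
          apply Finset.image_congr
          intro i _
          simp
        have hk0 : k0 = g * k' := by omega
        have st : ∀ (t l : ℕ), t ≤ l → ¬ l.choose t ∣ (k0 + 1).choose t → L = insert l (Finset.range t) →
            L.card = t + 1 → RB (k0 + 1) L L.card := by
          intro t l htl hh e1 e2
          rw [e2]
          have h3 := RB.steiner (k := k0 + 1) (t := t) (l := l) htl hh
          rw [← e1] at h3
          exact h3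
        rcases hB with ⟨s, hs, hL'⟩ | hB
        · subst hL'
          have hs1 : 1 ≤ s := by
            have := Finset.mem_range.mp h0L'
            omega
          rcases Nat.lt_or_ge g 2 with hg1 | hg2
          · -- full sets
            exfalso
            apply hY
            apply Base.yes
            left
            have hg' : g = 1 := by omega
            subst hg'
            refine ⟨s + 1, by omega, ?_⟩
            rw [hLL]
            ext i
            rw [Finset.mem_insert, Finset.mem_image, Finset.mem_range]
            constructor
            · rintro (rfl | ⟨t, ht, rfl⟩)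
              · omega
              · have := Finset.mem_range.mp ht
                omega
            · intro hi
              rcases Nat.eq_zero_or_pos i with rfl | hi0
              · exact Or.inl rfl
              · exact Or.inr ⟨i - 1, Finset.mem_range.mpr (by omega), by omega⟩
          · rcases Nat.lt_or_ge s 3 with hs3 | hs3
            · rcases Nat.lt_or_ge s 2 with hs2 | hs2
              · exfalso
                apply hY
                apply Base.yes
                left
                have hs' : s = 1 := by omega
                subst hs'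
                refine ⟨2, ?_, ?_⟩
                · have := Finset.mem_range.mp (hL h1)
                  omega
                · rw [hLL]
                  ext i
                  simp only [Finset.mem_insert, Finset.mem_image, Finset.mem_range]
                  constructor
                  · rintro (rfl | ⟨t, ht, rfl⟩)
                    · omega
                    · have : t = 0 := by omega
                      subst this
                      omega
                  · intro hi
                    rcases Nat.eq_zero_or_pos i with rfl | hi0
                    · exact Or.inl rfl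
                    · exact Or.inr ⟨0, by omega, by omega⟩
              · have hs' : s = 2 := by omega
                subst hs'
                have e1 : L = {0, 1, 1 + g} := by
                  rw [hLL]
                  ext i
                  simp only [Finset.mem_insert, Finset.mem_image, Finset.mem_range, Finset.mem_singleton]
                  constructor
                  · rintro (rfl | ⟨t, ht, rfl⟩)
                    · exact Or.inl rfl
                    · have : t = 0 ∨ t = 1 := by omega
                      rcases this with rfl | rfl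
                      · right; left; omega
                      · right; right; omega
                  · rintro (rfl | rfl | rfl)
                    · exact Or.inl rfl
                    · exact Or.inr ⟨0, by omega, by omega⟩
                    · exact Or.inr ⟨1, by omega, by omega⟩
                have e2 : k0 + 1 = 1 + g * k' := by omega
                have e3 : L.card = 3 := by
                  rw [e1, Finset.card_eq_three]
                  exact ⟨0, 1, 1 + g, by omega, by omega, by omega, rfl⟩
                have e4 : 1 + g * k' ≤ 19 ∨ g * k' ≤ g + 15 := by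
                  rcases hD with h | ⟨l, hl, h⟩
                  · exact Or.inl (by omega)
                  · rw [e1] at hl
                    simp only [Finset.mem_insert, Finset.mem_singleton] at hl
                    omega
                rw [e3]
                rw [e1, e2] at hY ⊢
                exact rb_three hg2 hs e4 hY
            · -- planes that are too small
              have e1 : L.card = s + 1 := by
                rw [hLL, Finset.card_insert_of_notMem, Finset.card_image_of_injective, Finset.card_range]
                · intro i j hij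
                  have : g * i = g * j := by
                    have hij' : 1 + g * i = 1 + g * j := hij
                    omega
                  exact Nat.eq_of_mul_eq_mul_left (by omega) this
                · rw [Finset.mem_image]
                  rintro ⟨t, _, ht⟩
                  omega
              rw [e1]
              rw [hLL] at hL ⊢
              exact RB.small_plane hg2 hs3 hL
        · -- the sporadic pairs
          have hD' : g * k' ≤ 18 ∨ ∃ l ∈ L', g * k' ≤ g * l + 15 := by
            rcases hD with h | ⟨l, hl, h⟩
            · exact Or.inl (by omega)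
            · rw [hLL, Finset.mem_insert, Finset.mem_image] at hl
              rcases hl with rfl | ⟨t, ht, rfl⟩
              · exact Or.inl (by omega)
              · exact Or.inr ⟨t, ht, by omega⟩
          have h7 : 7 ≤ k' := by
            rcases hB with h | h | h | h | h | h | h | h | h | h | h | h | h | h <;> omega
          have hgap : ∀ l ∈ L', l + 4 ≤ k' := by
            rcases hB with ⟨rfl, rfl⟩ | ⟨rfl, rfl⟩ | ⟨rfl, rfl⟩ | ⟨rfl, rfl⟩ | ⟨rfl, rfl⟩ | ⟨rfl, rfl⟩ |
              ⟨rfl, rfl⟩ | ⟨rfl, rfl⟩ | ⟨rfl, rfl⟩ | ⟨rfl, rfl⟩ | ⟨rfl, rfl⟩ | ⟨rfl, rfl⟩ | ⟨rfl, rfl⟩ |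
              ⟨rfl, rfl⟩ <;> decide
          have hg4 : g = 1 ∨ g = 2 ∨ g = 3 := by
            by_contra hcon
            have hg4 : 4 ≤ g := by omega
            rcases hD' with h | ⟨l, hl, h⟩
            · have : 4 * 7 ≤ g * k' := Nat.mul_le_mul hg4 h7
              omega
            · have h2 := hgap l hl
              have h3 : g * (l + 4) ≤ g * k' := Nat.mul_le_mul_left _ h2
              have h5 : g * (l + 4) = g * l + g * 4 := by ring
              omega
          rcases hg4 with rfl | rfl | rfl
          · rw [one_mul] at hk0
            subst hk0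
            simp only [one_mul] at hLL hD'
            rcases hB with ⟨rfl, rfl⟩ | ⟨rfl, rfl⟩ | ⟨rfl, rfl⟩ | ⟨rfl, rfl⟩ | ⟨rfl, rfl⟩ | ⟨rfl, rfl⟩ |
              ⟨rfl, rfl⟩ | ⟨rfl, rfl⟩ | ⟨rfl, rfl⟩ | ⟨rfl, rfl⟩ | ⟨rfl, rfl⟩ | ⟨rfl, rfl⟩ | ⟨rfl, rfl⟩ |
              ⟨rfl, rfl⟩
            · exact absurd (Base.yes (by rw [hLL]; unfold Base; decide)) hY
            · exact st 4 5 (by norm_num) (by decide) (by rw [hLL]; decide) (by rw [hLL]; decide)
            · exact absurd (Base.yes (by rw [hLL]; unfold Base; decide)) hY
            · exact absurd (Base.yes (by rw [hLL]; unfold Base; decide)) hY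
            · exact absurd (Base.yes (by rw [hLL]; unfold Base; decide)) hY
            · exact st 6 7 (by norm_num) (by decide) (by rw [hLL]; decide) (by rw [hLL]; decide)
            · exact st 3 5 (by norm_num) (by decide) (by rw [hLL]; decide) (by rw [hLL]; decide)
            · exact absurd (Base.yes (by rw [hLL]; unfold Base; decide)) hY
            · exact absurd (Base.yes (by rw [hLL]; unfold Base; decide)) hY
            · exact absurd (Base.yes (by rw [hLL]; unfold Base; decide)) hY
            · exfalso
              apply hX
              exact ⟨0, 0, by norm_num, rfl, by rw [hLL]; decide⟩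
            · -- nine points do not suffice
              have e1 : L = {0, 1, 2, 3, 5, 9} := by rw [hLL]; decide
              subst e1
              have e2 : RB 9 {0, 1, 2, 3, 5} 5 := by
                have h3 := RB.steiner (k := 9) (t := 4) (l := 5) (by norm_num) (by decide)
                have h4 : insert 5 (Finset.range 4) = ({0, 1, 2, 3, 5} : Finset ℕ) := by decide
                rw [h4] at h3
                exact h3
              exact RB.restrict (l := 9) (s := 5) hL (by decide) (by decide) (by decide) (by norm_num) e2
            · have e1 : L = {0, 1, 2, 3, 6} := by rw [hLL]; decide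
              subst e1
              exact RB_eighteen
            · exfalso
              rcases hD' with h | ⟨l, hl, h⟩
              · omega
              · simp only [Finset.mem_insert, Finset.mem_singleton] at hl
                omega
          · subst hk0
            have r5 : RB 9 {0, 1, 3, 5} 4 := rb_five (g := 2) (m := 3) le_rfl le_rfl (by decide) (by decide)
            have r7 : RB 11 {0, 1, 3, 5, 7} 5 :=
              rb_five (g := 2) (m := 4) le_rfl (by norm_num) (by decide) (by decide)
            have r9 : RB 13 {0, 1, 3, 5, 7, 9} 6 :=
              rb_five (g := 2) (m := 5) le_rfl (by norm_num) (by decide) (by decide)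
            rcases hB with ⟨rfl, rfl⟩ | ⟨rfl, rfl⟩ | ⟨rfl, rfl⟩ | ⟨rfl, rfl⟩ | ⟨rfl, rfl⟩ | ⟨rfl, rfl⟩ |
              ⟨rfl, rfl⟩ | ⟨rfl, rfl⟩ | ⟨rfl, rfl⟩ | ⟨rfl, rfl⟩ | ⟨rfl, rfl⟩ | ⟨rfl, rfl⟩ | ⟨rfl, rfl⟩ |
              ⟨rfl, rfl⟩
            · exact absurd (Base.yes (by rw [hLL]; unfold Base; decide)) hY
            · have e1 : L = {0, 1, 3, 5, 9} := by rw [hLL]; decide
              subst e1
              exact RB.restrict (l := 9) (s := 4) hL (by decide) (by decide) (by decide) (by norm_num) r5
            · have e1 : L = {0, 1, 3, 7} := by rw [hLL]; decide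
              subst e1
              exact RB_nineteen
            · have e1 : L = {0, 1, 3, 5, 9} := by rw [hLL]; decide
              subst e1
              exact RB.restrict (l := 9) (s := 4) hL (by decide) (by decide) (by decide) (by norm_num) r5
            · have e1 : L = {0, 1, 3, 5, 7, 11} := by rw [hLL]; decide
              subst e1
              exact RB.restrict (l := 11) (s := 5) hL (by decide) (by decide) (by decide) (by norm_num) r7
            · have e1 : L = {0, 1, 3, 5, 7, 9, 13} := by rw [hLL]; decide
              subst e1
              exact RB.restrict (l := 13) (s := 6) hL (by decide) (by decide) (by decide) (by norm_num) r9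
            all_goals
              exfalso
              rcases hD' with h | ⟨l, hl, h⟩
              · omega
              · simp only [Finset.mem_insert, Finset.mem_singleton] at hl
                omega
          · subst hk0
            rcases hB with ⟨rfl, rfl⟩ | ⟨rfl, rfl⟩ | ⟨rfl, rfl⟩ | ⟨rfl, rfl⟩ | ⟨rfl, rfl⟩ | ⟨rfl, rfl⟩ |
              ⟨rfl, rfl⟩ | ⟨rfl, rfl⟩ | ⟨rfl, rfl⟩ | ⟨rfl, rfl⟩ | ⟨rfl, rfl⟩ | ⟨rfl, rfl⟩ | ⟨rfl, rfl⟩ |
              ⟨rfl, rfl⟩
            · have e1 : L = {0, 1, 4, 10} := by rw [hLL]; decide
              subst e1
              have r3 : RB 10 {0, 1, 4} 3 := RB.fisher (by norm_num) (by norm_num) (by norm_num)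
              exact RB.restrict (l := 10) (s := 3) hL (by decide) (by decide) (by decide) (by norm_num) r3
            · have e1 : L = {0, 1, 4, 7, 13} := by rw [hLL]; decide
              subst e1
              have r7 : RB 13 {0, 1, 4, 7} 4 :=
                rb_five (g := 3) (m := 3) (by norm_num) le_rfl (by decide) (by decide)
              exact RB.restrict (l := 13) (s := 4) hL (by decide) (by decide) (by decide) (by norm_num) r7
            all_goals
              exfalso
              rcases hD' with h | ⟨l, hl, h⟩
              · omega
              · simp only [Finset.mem_insert, Finset.mem_singleton] at hl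
                omega
      · -- the smallest positive size is at least two
        by_cases hone : L.erase 0 = ∅
        · exfalso
          apply hY
          apply Base.yes
          left
          refine ⟨1, by omega, ?_⟩
          rw [← Finset.insert_erase h0, hone]
          decide
        obtain ⟨g, hg, hmin⟩ := Finset.exists_min_image (L.erase 0) id (Finset.nonempty_iff_ne_empty.mpr hone)
        rw [Finset.mem_erase] at hg
        have hg2 : 2 ≤ g := by
          have : g ≠ 1 := by rintro rfl; exact h1 hg.2
          omega
        apply RB.scale hg2 h0 hg.2 (fun l hl hl0 => hmin l (Finset.mem_erase.mpr ⟨hl0, hl⟩)) rfl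
        intro hgk hgl
        have e1 : (sc g L).card = L.card := by
          rw [sc, Finset.filter_true_of_mem hgl]
          apply Finset.card_image_of_injOn
          intro i hi j hj hij
          have e1 := Nat.mul_div_cancel' (hgl i hi)
          have e2 := Nat.mul_div_cancel' (hgl j hj)
          have hij' : i / g = j / g := hij
          rw [← e1, ← e2, hij']
        rw [← e1]
        apply ih ((k0 + 1) / g) (Nat.div_lt_self (by omega) (by omega)) (sc g L)
          (dom_sc (by omega) hgl hD)
        · rintro ⟨a, j, hj, hk, hsc⟩
          have h5 : ∀ l ∈ L, k0 + 1 ≥ l + 24 := by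
            intro l hl
            obtain ⟨u, rfl⟩ := hgl l hl
            rw [← mem_sc (by omega), hsc, Finset.mem_image] at hl
            obtain ⟨i, hi, rfl⟩ := hl
            have hi5 : i ≤ 5 + j := by
              rw [Finset.mem_insert, Finset.mem_range] at hi
              omega
            have h6 := Nat.mul_div_cancel' hgk
            rw [hk] at h6
            have h8 : g * (a + i + 12) ≤ g * (a + (17 + j)) := Nat.mul_le_mul_left _ (by omega)
            have h9 : g * (a + i + 12) = g * (a + i) + g * 12 := by ring
            omega
          rcases hD with h | ⟨l, hl, h⟩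
          · have h6 := Nat.div_le_self (k0 + 1) g
            have h7 := h5 0 h0
            omega
          · have := h5 l hl
            omega
        · exact ⟨0, (mem_sc (by omega)).mpr (by simpa using h0)⟩
        · intro i hi
          rw [mem_sc (by omega)] at hi
          have h2 := Finset.mem_range.mp (hL hi)
          rw [Finset.mem_range]
          rw [Nat.lt_div_iff_mul_lt (by omega)]
          have h3 := Nat.mul_div_cancel' hgk
          have h4 : g * i < g * ((k0 + 1) / g) := by omega
          have h5 : i < (k0 + 1) / g := Nat.lt_of_mul_lt_mul_left h4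
          have h6 : i + 1 ≤ (k0 + 1) / g := h5
          have h7 : g * (i + 1) ≤ g * ((k0 + 1) / g) := Nat.mul_le_mul_left _ h6
          have h8 : i * g = g * i := mul_comm _ _
          have h9 : g * (i + 1) = g * i + g := by ring
          omega
        · intro h
          exact hY (yes_scale (by omega) hgk hgl h)
    · -- a common point
      have hcard : (dn L).card = L.card := by
        rw [card_dn, Finset.erase_eq_of_notMem h0]
      have hl1 : 1 ≤ L.card := Finset.card_pos.mpr ⟨l0, hl0⟩
      apply RB.shift hl1 h0
      rw [← hcard]
      apply ih k0 (by omega) (dn L) (dom_dn hD) _ _ hdn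
      · intro h
        exact hY (yes_shift h0 h)
      · intro h
        exact hX (exc_shift h0 h)
      · rw [← Finset.card_pos, hcard]
        exact hl1

end Pool.Agent.Helper138_LS
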