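import Pool.Agent.H480R2.LS.Expo

/-!
Codes with `q ^ s` words and prescribed agreement sets give `(n,k,L)`-systems of order `n ^ s`.
-/

set_option autoImplicit false

open Finset

namespace Pool.Agent.Helper138_LS

open Pool.Agent.H480R2.LS

/-- a code with `q ^ s` words over an alphabet with `q ≥ 2` letters whose agreement sets lie in an
intersection closed family of sets with cardinalities in `L` -/
theorem of_code {k s q : ℕ} {L : Finset ℕ} (hk : 1 ≤ k) (hq : 2 ≤ q)
    (R : Finset (Fin k → Fin q)) (T : Finset (Finset (Fin k))) (hIC : IC T)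
    (hT : ∀ A ∈ T, A.card ∈ L) (hR : PatIn R T) (hcard : R.card = q ^ s) :
    ∃ c : ℝ, 0 < c ∧ ∀ n : ℕ, k ≤ n → ∃ F : Finset (Finset (Fin n)),
      (∀ A ∈ F, A.card = k) ∧ (∀ A ∈ F, ∀ B ∈ F, A ≠ B → (A ∩ B).card ∈ L) ∧
      c * (n : ℝ) ^ s ≤ F.card := by
  have hlog : Real.log q ≠ 0 := (Real.log_pos (by exact_mod_cast (show 1 < q by omega))).ne'
  have hmem : (s : ℝ) ∈ ES k L := by
    refine ⟨q, R, T, hq, hIC, hT, hR, ?_, ?_⟩
    · rw [hcard]; exact Nat.one_le_pow _ _ (by omega)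
    · rw [hcard]; push_cast; rw [Real.log_pow, mul_div_cancel_right₀ _ hlog]
  obtain ⟨c, hc, h⟩ := le_mm_of_mem (L := L) hk hmem le_rfl
  refine ⟨c, hc, fun n hn => ?_⟩
  obtain ⟨F, hF, hS⟩ := mm_attained n k L
  refine ⟨F, hS.1, hS.2, ?_⟩
  have := h n hn
  rw [Real.rpow_natCast] at this
  rw [hF]
  exact this

end Pool.Agent.Helper138_LS
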