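import Pool.Agent.Helper138_LS.Dense

/-!
The dense Desargues lemma.
-/

set_option autoImplicit false

open Finset

namespace Pool.Agent.Helper138_LS

theorem Det2.mono {κ α β γ : Type*} {S S' : Finset κ} (hS : S' ⊆ S) {x : κ → α} {y : κ → β}
    {z : κ → γ} (h : Det2 S x y z) : Det2 S' x y z :=
  fun s hs t ht => h s (hS hs) t (hS ht)

theorem Col.mono {κ α β γ : Type*} {S S' : Finset κ} (hS : S' ⊆ S) {x : κ → α} {y : κ → β}
    {z : κ → γ} (h : Col S x y z) : Col S' x y z :=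
  ⟨h.1.mono hS, h.2.1.mono hS, h.2.2.mono hS⟩

/-- the incidences in rank four -/
structure Core {κ : Type*} {n : ℕ} (S : Finset κ)
    (o a1 b1 a2 b2 a3 b3 c1 c3 a2' b2' c3' : κ → Fin n) : Prop where
  h1 : Col S o a1 b1
  h2 : Col S o a2 b2
  h3 : Col S o a3 b3
  k12 : Col S a1 a2 c3
  m12 : Col S b1 b2 c3
  k23 : Col S a2 a3 c1
  m23 : Col S b2 b3 c1
  h2' : Col S o a2' b2'
  k12' : Col S a1 a2' c3'
  m12' : Col S b1 b2' c3'
  i012 : ∀ s ∈ S, ∀ t ∈ S, o s = o t → a1 s = a1 t → a2 s = a2 t → a2' s = a2' t → s = t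
  i013 : ∀ s ∈ S, ∀ t ∈ S, o s = o t → a1 s = a1 t → a3 s = a3 t → a2' s = a2' t → s = t
  i023 : ∀ s ∈ S, ∀ t ∈ S, o s = o t → a2 s = a2 t → a3 s = a3 t → a2' s = a2' t → s = t
  i123 : ∀ s ∈ S, ∀ t ∈ S, a1 s = a1 t → a2 s = a2 t → a3 s = a3 t → a2' s = a2' t → s = t
  i5 : ∀ s ∈ S, ∀ t ∈ S, o s = o t → a1 s = a1 t → a3 s = a3 t → a2 s = a2 t

section core

variable {κ : Type*} {n : ℕ} {S S' : Finset κ} {o a1 b1 a2 b2 a3 b3 c1 c3 a2' b2' c3' : κ → Fin n}

theorem Core.mono (hS : S' ⊆ S) (h : Core S o a1 b1 a2 b2 a3 b3 c1 c3 a2' b2' c3') :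
    Core S' o a1 b1 a2 b2 a3 b3 c1 c3 a2' b2' c3' where
  h1 := h.h1.mono hS
  h2 := h.h2.mono hS
  h3 := h.h3.mono hS
  k12 := h.k12.mono hS
  m12 := h.m12.mono hS
  k23 := h.k23.mono hS
  m23 := h.m23.mono hS
  h2' := h.h2'.mono hS
  k12' := h.k12'.mono hS
  m12' := h.m12'.mono hS
  i012 := fun s hs t ht => h.i012 s (hS hs) t (hS ht)
  i013 := fun s hs t ht => h.i013 s (hS hs) t (hS ht)
  i023 := fun s hs t ht => h.i023 s (hS hs) t (hS ht)
  i123 := fun s hs t ht => h.i123 s (hS hs) t (hS ht)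
  i5 := fun s hs t ht => h.i5 s (hS hs) t (hS ht)

/-- the point `V` -/
theorem core_V (hn : 0 < n) (h : Core S o a1 b1 a2 b2 a3 b3 c1 c3 a2' b2' c3') :
    ∃ S' ⊆ S, ∃ V : κ → Fin n, Col S' a2 a2' V ∧ Col S' b2 b2' V ∧
      S.card ^ 3 ≤ 24 * n ^ 8 * S'.card := by
  obtain ⟨h1, h2, h3, k12, m12, k23, m23, h2', k12', m12', i012, i013, i023, i123, i5⟩ := h
  obtain ⟨S', hS', V, e1, e2, _, e3⟩ := ak hn S a2 b2 a2' (fun s => (c3 s, c3' s))
    a2 a2' o a1 b2 b2' o a1 b2 b2' o a1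
    (by simp only [Col, Det2, Prod.mk.injEq] at *; grind)
    (by simp only [Col, Det2] at *; grind)
    (by simp only [Col, Det2] at *; grind)
    (by simp only [Col, Det2] at *; grind)
    (by simp only [Col, Det2, Prod.mk.injEq] at *; grind)
    (by simp only [Col, Det2, Prod.mk.injEq] at *; grind)
    (by simp only [Col, Det2, Prod.mk.injEq] at *; grind)
    (by simp only [Col, Det2, Prod.mk.injEq] at *; grind)
    (by simp only [Col, Det2, Prod.mk.injEq] at *; grind)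
    (by simp only [Col, Det2, Prod.mk.injEq] at *; grind)
    (by simp only [Col, Det2] at *; grind)
    (by simp only [Col, Det2] at *; grind)
    (by simp only [Col, Det2] at *; grind)
  exact ⟨S', hS', V, e1, e2, e3⟩

/-- the point `V` lies on the line `c3 c3'` -/
theorem core_V1 (h : Core S o a1 b1 a2 b2 a3 b3 c1 c3 a2' b2' c3') {V : κ → Fin n}
    (v1 : Col S a2 a2' V) (v2 : Col S b2 b2' V) :
    ∃ S' ⊆ S, Det2 S' c3 c3' V ∧ S.card ^ 2 ≤ n ^ 4 * S'.card := by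
  obtain ⟨h1, h2, h3, k12, m12, k23, m23, h2', k12', m12', i012, i013, i023, i123, i5⟩ := h
  obtain ⟨S', hS', e1, e2⟩ := dd S (fun s => (c3 s, c3' s)) a2 b2 V (n ^ 2) (card_image_pair S _ _)
    (by simp only [Col, Det2, Prod.mk.injEq] at *; grind)
    (by simp only [Col, Det2, Prod.mk.injEq] at *; grind)
    (by simp only [Col, Det2, Inj3, Prod.mk.injEq] at *; grind)
  refine ⟨S', hS', ?_, ?_⟩
  · intro s hs t ht x y
    exact e1 s hs t ht (by simp only [x, y])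
  · calc _ ≤ _ := e2
      _ = _ := by ring

theorem core_V2 (h : Core S o a1 b1 a2 b2 a3 b3 c1 c3 a2' b2' c3') {V : κ → Fin n}
    (v1 : Col S a2 a2' V) (v2 : Col S b2 b2' V) :
    ∃ S' ⊆ S, Det2 S' V c3' c3 ∧ S.card ^ 2 ≤ n ^ 4 * S'.card := by
  obtain ⟨h1, h2, h3, k12, m12, k23, m23, h2', k12', m12', i012, i013, i023, i123, i5⟩ := h
  obtain ⟨S', hS', e1, e2⟩ := dd S (fun s => (V s, c3' s)) a2 b2 c3 (n ^ 2) (card_image_pair S _ _)
    (by simp only [Col, Det2, Prod.mk.injEq] at *; grind)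
    (by simp only [Col, Det2, Prod.mk.injEq] at *; grind)
    (by simp only [Col, Det2, Inj3, Prod.mk.injEq] at *; grind)
  refine ⟨S', hS', ?_, ?_⟩
  · intro s hs t ht x y
    exact e1 s hs t ht (by simp only [x, y])
  · calc _ ≤ _ := e2
      _ = _ := by ring

/-- the point `W` -/
theorem core_W (hn : 0 < n) (h : Core S o a1 b1 a2 b2 a3 b3 c1 c3 a2' b2' c3') {V : κ → Fin n}
    (v1 : Col S a2 a2' V) (v2 : Col S b2 b2' V) :
    ∃ S' ⊆ S, ∃ W : κ → Fin n, Col S' a2' a3 W ∧ Col S' b2' b3 W ∧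
      S.card ^ 3 ≤ 24 * n ^ 8 * S'.card := by
  obtain ⟨h1, h2, h3, k12, m12, k23, m23, h2', k12', m12', i012, i013, i023, i123, i5⟩ := h
  obtain ⟨S', hS', W, e1, e2, _, e3⟩ := ak hn S a2' a3 b2' (fun s => (V s, c1 s))
    a2' a3 o a1 b2' b3 o a1 b2' b3 o a1
    (by simp only [Col, Det2, Prod.mk.injEq] at *; grind)
    (by simp only [Col, Det2] at *; grind)
    (by simp only [Col, Det2] at *; grind)
    (by simp only [Col, Det2] at *; grind)
    (by simp only [Col, Det2, Prod.mk.injEq] at *; grind)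
    (by simp only [Col, Det2, Prod.mk.injEq] at *; grind)
    (by simp only [Col, Det2, Prod.mk.injEq] at *; grind)
    (by simp only [Col, Det2, Prod.mk.injEq] at *; grind)
    (by simp only [Col, Det2, Prod.mk.injEq] at *; grind)
    (by simp only [Col, Det2, Prod.mk.injEq] at *; grind)
    (by simp only [Col, Det2] at *; grind)
    (by simp only [Col, Det2] at *; grind)
    (by simp only [Col, Det2] at *; grind)
  exact ⟨S', hS', W, e1, e2, e3⟩

theorem core_W1 (h : Core S o a1 b1 a2 b2 a3 b3 c1 c3 a2' b2' c3') {V W : κ → Fin n}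
    (v1 : Col S a2 a2' V) (v2 : Col S b2 b2' V) (w1 : Col S a2' a3 W) (w2 : Col S b2' b3 W) :
    ∃ S' ⊆ S, Det2 S' V W c1 ∧ S.card ^ 2 ≤ n ^ 4 * S'.card := by
  obtain ⟨h1, h2, h3, k12, m12, k23, m23, h2', k12', m12', i012, i013, i023, i123, i5⟩ := h
  obtain ⟨S', hS', e1, e2⟩ := dd S (fun s => (V s, W s)) a3 b3 c1 (n ^ 2) (card_image_pair S _ _)
    (by simp only [Col, Det2, Prod.mk.injEq] at *; grind)
    (by simp only [Col, Det2, Prod.mk.injEq] at *; grind)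
    (by simp only [Col, Det2, Inj3, Prod.mk.injEq] at *; grind)
  refine ⟨S', hS', ?_, ?_⟩
  · intro s hs t ht x y
    exact e1 s hs t ht (by simp only [x, y])
  · calc _ ≤ _ := e2
      _ = _ := by ring

theorem core_W2 (h : Core S o a1 b1 a2 b2 a3 b3 c1 c3 a2' b2' c3') {V W : κ → Fin n}
    (v1 : Col S a2 a2' V) (v2 : Col S b2 b2' V) (w1 : Col S a2' a3 W) (w2 : Col S b2' b3 W) :
    ∃ S' ⊆ S, Det2 S' W c1 V ∧ S.card ^ 2 ≤ n ^ 4 * S'.card := by
  obtain ⟨h1, h2, h3, k12, m12, k23, m23, h2', k12', m12', i012, i013, i023, i123, i5⟩ := h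
  obtain ⟨S', hS', e1, e2⟩ := dd S (fun s => (W s, c1 s)) a3 b3 V (n ^ 2) (card_image_pair S _ _)
    (by simp only [Col, Det2, Prod.mk.injEq] at *; grind)
    (by simp only [Col, Det2, Prod.mk.injEq] at *; grind)
    (by simp only [Col, Det2, Inj3, Prod.mk.injEq] at *; grind)
  refine ⟨S', hS', ?_, ?_⟩
  · intro s hs t ht x y
    exact e1 s hs t ht (by simp only [x, y])
  · calc _ ≤ _ := e2
      _ = _ := by ring

/-- the point `c2` -/
theorem core_c2 (hn : 0 < n) (h : Core S o a1 b1 a2 b2 a3 b3 c1 c3 a2' b2' c3') {V W : κ → Fin n}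
    (w1 : Col S a2' a3 W) (w2 : Col S b2' b3 W)
    (x1 : Det2 S c3 c3' V) (x2 : Det2 S V c3' c3) (x3 : Det2 S V W c1) (x4 : Det2 S W c1 V) :
    ∃ S' ⊆ S, ∃ c2 : κ → Fin n, Col S' a1 a3 c2 ∧ Col S' b1 b3 c2 ∧ Col S' c1 c3 c2 ∧
      S.card ^ 3 ≤ 24 * n ^ 8 * S'.card := by
  obtain ⟨h1, h2, h3, k12, m12, k23, m23, h2', k12', m12', i012, i013, i023, i123, i5⟩ := h
  obtain ⟨S', hS', W, e1, e2, e3, e4⟩ := ak hn S o a1 a3 (fun s => (c3' s, W s))
    a1 a3 o a2' b1 b3 o a2' c1 c3 a2 a2'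
    (by simp only [Col, Det2, Prod.mk.injEq] at *; grind)
    (by simp only [Col, Det2] at *; grind)
    (by simp only [Col, Det2] at *; grind)
    (by simp only [Col, Det2] at *; grind)
    (by simp only [Col, Det2, Prod.mk.injEq] at *; grind)
    (by simp only [Col, Det2, Prod.mk.injEq] at *; grind)
    (by simp only [Col, Det2, Prod.mk.injEq] at *; grind)
    (by simp only [Col, Det2, Prod.mk.injEq] at *; grind)
    (by simp only [Col, Det2, Prod.mk.injEq] at *; grind)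
    (by simp only [Col, Det2, Prod.mk.injEq] at *; grind)
    (by simp only [Col, Det2] at *; grind)
    (by simp only [Col, Det2] at *; grind)
    (by simp only [Col, Det2] at *; grind)
  exact ⟨S', hS', W, e1, e2, e3, e4⟩

end core

end Pool.Agent.Helper138_LS
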