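import Mathlib

/-!
Counting lemmas for dense relations: collisions, double determination, uniqueness, common labels.
-/

set_option autoImplicit false

open Finset

namespace Pool.Agent.Helper138_LS

section dense

variable {κ : Type*}

/-- `x` and `y` determine `z` on `S` -/
def Det2 {α β γ : Type*} (S : Finset κ) (x : κ → α) (y : κ → β) (z : κ → γ) : Prop :=
  ∀ s ∈ S, ∀ t ∈ S, x s = x t → y s = y t → z s = z t

/-- any two of `x`, `y`, `z` determine the third on `S` -/
def Col {α β γ : Type*} (S : Finset κ) (x : κ → α) (y : κ → β) (z : κ → γ) : Prop :=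
  Det2 S x y z ∧ Det2 S x z y ∧ Det2 S y z x

/-- `x`, `y`, `z` determine the member of `S` -/
def Inj3 {α β γ : Type*} (S : Finset κ) (x : κ → α) (y : κ → β) (z : κ → γ) : Prop :=
  ∀ s ∈ S, ∀ t ∈ S, x s = x t → y s = y t → z s = z t → s = t

theorem coll {J : Type*} [DecidableEq J] (S : Finset κ) (f : κ → J) (m : ℕ)
    (hm : (S.image f).card ≤ m) :
    S.card ^ 2 ≤ m * ((S ×ˢ S).filter fun p => f p.1 = f p.2).card := by
  classical
  have h1 : S.card = ∑ j ∈ S.image f, (S.filter fun s => f s = j).card :=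
    Finset.card_eq_sum_card_fiberwise (fun s hs => Finset.mem_image_of_mem f hs)
  have h2 : ((S ×ˢ S).filter fun p => f p.1 = f p.2).card =
      ∑ j ∈ S.image f, (S.filter fun s => f s = j).card ^ 2 := by
    rw [Finset.card_eq_sum_card_fiberwise (f := fun p => f p.1) (t := S.image f)]
    · apply Finset.sum_congr rfl
      intro j _
      rw [sq, ← Finset.card_product]
      congr 1
      ext p
      simp only [Finset.mem_filter, Finset.mem_product]
      constructor
      · rintro ⟨⟨⟨a1, a2⟩, a3⟩, a4⟩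
        exact ⟨⟨a1, a4⟩, ⟨a2, a3 ▸ a4⟩⟩
      · rintro ⟨⟨a1, a4⟩, ⟨a2, a5⟩⟩
        exact ⟨⟨⟨a1, a2⟩, a4.trans a5.symm⟩, a4⟩
    · intro p hp
      rw [Finset.mem_coe, Finset.mem_filter, Finset.mem_product] at hp
      exact Finset.mem_image_of_mem f hp.1.1
  calc S.card ^ 2 = (∑ j ∈ S.image f, (S.filter fun s => f s = j).card) ^ 2 := by rw [← h1]
    _ ≤ (S.image f).card * ∑ j ∈ S.image f, (S.filter fun s => f s = j).card ^ 2 :=
        sq_sum_le_card_mul_sum_sq
    _ ≤ m * ((S ×ˢ S).filter fun p => f p.1 = f p.2).card := by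
        rw [h2]
        exact Nat.mul_le_mul_right _ hm

/-- double determination -/
theorem dd {𝒟 Λ : Type*} [DecidableEq 𝒟] {n : ℕ} (S : Finset κ) (D : κ → 𝒟) (a b : κ → Fin n)
    (l : κ → Λ) (d : ℕ) (hd : (S.image D).card ≤ d)
    (ha : Det2 S D a l) (hb : Det2 S D b l) (hab : Inj3 S D a b) :
    ∃ S' ⊆ S, (∀ s ∈ S', ∀ t ∈ S', D s = D t → l s = l t) ∧ S.card ^ 2 ≤ d * n * n * S'.card := by
  classical
  rcases S.eq_empty_or_nonempty with rfl | ⟨s0, hs0⟩
  · exact ⟨∅, by simp, by simp, by simp⟩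
  have hne : (Finset.univ : Finset (Fin n)).Nonempty := ⟨a s0, Finset.mem_univ _⟩
  set Q : 𝒟 → Fin n → Finset κ := fun δ a0 =>
    S.filter fun s => D s = δ ∧ ∃ t ∈ S, D t = δ ∧ b t = b s ∧ a t = a0 with hQ
  have hmax : ∀ δ : 𝒟, ∃ a0 : Fin n, ∀ a1 : Fin n, (Q δ a1).card ≤ (Q δ a0).card := by
    intro δ
    obtain ⟨a0, _, h⟩ := Finset.exists_max_image Finset.univ (fun a1 => (Q δ a1).card) hne
    exact ⟨a0, fun a1 => h a1 (Finset.mem_univ _)⟩
  choose A0 hA0 using hmax
  refine ⟨S.filter fun s => ∃ t ∈ S, D t = D s ∧ b t = b s ∧ a t = A0 (D s),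
    Finset.filter_subset _ _, ?_, ?_⟩
  · intro s hs t ht hst
    rw [Finset.mem_filter] at hs ht
    obtain ⟨hs, s', hs', h1, h2, h3⟩ := hs
    obtain ⟨ht, t', ht', h4, h5, h6⟩ := ht
    have e1 : l s' = l s := hb s' hs' s hs h1 h2
    have e2 : l t' = l t := hb t' ht' t ht h4 h5
    have e3 : l s' = l t' := ha s' hs' t' ht' (by rw [h1, h4, hst]) (by rw [h3, h6, hst])
    rw [← e1, ← e2, e3]
  · set P := (S ×ˢ S).filter fun p => (D p.1, b p.1) = (D p.2, b p.2) with hP
    have h1 : S.card ^ 2 ≤ (d * n) * P.card := by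
      apply coll S (fun s => (D s, b s)) (d * n)
      calc (S.image fun s => (D s, b s)).card ≤ ((S.image D) ×ˢ (Finset.univ : Finset (Fin n))).card := by
            apply Finset.card_le_card
            intro p hp
            rw [Finset.mem_image] at hp
            obtain ⟨s, hs, rfl⟩ := hp
            exact Finset.mem_product.mpr ⟨Finset.mem_image_of_mem D hs, Finset.mem_univ _⟩
        _ = (S.image D).card * n := by rw [Finset.card_product]; simp
        _ ≤ d * n := Nat.mul_le_mul_right _ hd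
    have h2 : P.card ≤ n * (S.filter fun s => ∃ t ∈ S, D t = D s ∧ b t = b s ∧ a t = A0 (D s)).card := by
      have h3 : P.card = ∑ δ ∈ S.image D, (P.filter fun p => D p.1 = δ).card :=
        Finset.card_eq_sum_card_fiberwise (fun p hp => by
          rw [Finset.mem_coe, hP, Finset.mem_filter, Finset.mem_product] at hp
          exact Finset.mem_image_of_mem D hp.1.1)
      have h4 : ∀ δ ∈ S.image D, (P.filter fun p => D p.1 = δ).card ≤ n * (Q δ (A0 δ)).card := by
        intro δ _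
        have h5 : (P.filter fun p => D p.1 = δ).card =
            ∑ a0 : Fin n, ((P.filter fun p => D p.1 = δ).filter fun p => a p.2 = a0).card :=
          Finset.card_eq_sum_card_fiberwise (fun _ _ => Finset.mem_univ _)
        have h6 : ∀ a0 : Fin n, ((P.filter fun p => D p.1 = δ).filter fun p => a p.2 = a0).card ≤
            (Q δ (A0 δ)).card := by
          intro a0
          refine le_trans ?_ (hA0 δ a0)
          apply Finset.card_le_card_of_injOn (fun p => p.1)
          · intro p hp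
            rw [Finset.mem_coe, Finset.mem_filter, Finset.mem_filter, hP, Finset.mem_filter,
              Finset.mem_product] at hp
            obtain ⟨⟨⟨⟨p1, p2⟩, p3⟩, p4⟩, p5⟩ := hp
            rw [Prod.mk.injEq] at p3
            rw [Finset.mem_coe, hQ, Finset.mem_filter]
            exact ⟨p1, p4, p.2, p2, by rw [← p3.1, p4], p3.2.symm, p5⟩
          · intro p hp q hq hpq
            rw [Finset.mem_coe, Finset.mem_filter, Finset.mem_filter, hP, Finset.mem_filter,
              Finset.mem_product] at hp hq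
            obtain ⟨⟨⟨⟨p1, p2⟩, p3⟩, p4⟩, p5⟩ := hp
            obtain ⟨⟨⟨⟨q1, q2⟩, q3⟩, q4⟩, q5⟩ := hq
            rw [Prod.mk.injEq] at p3 q3
            have hpq' : p.1 = q.1 := hpq
            apply Prod.ext hpq'
            apply hab p.2 p2 q.2 q2
            · rw [← p3.1, ← q3.1, hpq']
            · rw [p5, q5]
            · rw [← p3.2, ← q3.2, hpq']
        rw [h5]
        calc _ ≤ ∑ a0 : Fin n, (Q δ (A0 δ)).card := Finset.sum_le_sum fun a0 _ => h6 a0
          _ = n * (Q δ (A0 δ)).card := by simp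
      have h7 : (S.filter fun s => ∃ t ∈ S, D t = D s ∧ b t = b s ∧ a t = A0 (D s)).card =
          ∑ δ ∈ S.image D, (Q δ (A0 δ)).card := by
        rw [Finset.card_eq_sum_card_fiberwise (f := D) (t := S.image D)]
        · apply Finset.sum_congr rfl
          intro δ _
          congr 1
          ext s
          rw [hQ]
          simp only [Finset.mem_filter]
          constructor
          · rintro ⟨⟨x1, t, x2, x3, x4, x5⟩, rfl⟩
            exact ⟨x1, rfl, t, x2, x3, x4, x5⟩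
          · rintro ⟨x1, rfl, t, x2, x3, x4, x5⟩
            exact ⟨⟨x1, t, x2, x3, x4, x5⟩, rfl⟩
        · intro s hs
          exact Finset.mem_image_of_mem D (Finset.mem_filter.mp hs).1
      rw [h3, h7, Finset.mul_sum]
      exact Finset.sum_le_sum h4
    calc S.card ^ 2 ≤ (d * n) * P.card := h1
      _ ≤ (d * n) * (n * _) := Nat.mul_le_mul_left _ h2
      _ = _ := by ring

/-- uniqueness on a dense subset -/
theorem uniq {𝒟 : Type*} [DecidableEq 𝒟] {n : ℕ} (S : Finset κ) (X : κ → 𝒟) (y : κ → Fin n)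
    (N m : ℕ) (hN : (S.image fun s => (X s, y s)).card ≤ N)
    (hm : ∀ δ, (S.filter fun s => X s = δ).card ≤ m) :
    ∃ S' ⊆ S, (∀ s ∈ S', ∀ t ∈ S', X s = X t → y s = y t) ∧ S.card ^ 2 ≤ N * m * S'.card := by
  classical
  rcases S.eq_empty_or_nonempty with rfl | ⟨s0, hs0⟩
  · exact ⟨∅, by simp, by simp, by simp⟩
  have hne : (Finset.univ : Finset (Fin n)).Nonempty := ⟨y s0, Finset.mem_univ _⟩
  have hmax : ∀ δ : 𝒟, ∃ y0 : Fin n, ∀ y1 : Fin n,
      (S.filter fun s => X s = δ ∧ y s = y1).card ≤ (S.filter fun s => X s = δ ∧ y s = y0).card := by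
    intro δ
    obtain ⟨a0, _, h⟩ := Finset.exists_max_image Finset.univ
      (fun y1 => (S.filter fun s => X s = δ ∧ y s = y1).card) hne
    exact ⟨a0, fun a1 => h a1 (Finset.mem_univ _)⟩
  choose Y0 hY0 using hmax
  refine ⟨S.filter fun s => y s = Y0 (X s), Finset.filter_subset _ _, ?_, ?_⟩
  · intro s hs t ht hst
    rw [Finset.mem_filter] at hs ht
    rw [hs.2, ht.2, hst]
  · set P := (S ×ˢ S).filter fun p => (X p.1, y p.1) = (X p.2, y p.2) with hP
    have h1 : S.card ^ 2 ≤ N * P.card := coll S (fun s => (X s, y s)) N hN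
    have h2 : P.card ≤ m * (S.filter fun s => y s = Y0 (X s)).card := by
      have h3 : P.card = ∑ s ∈ S, (P.filter fun p => p.1 = s).card :=
        Finset.card_eq_sum_card_fiberwise (fun p hp => by
          rw [Finset.mem_coe, hP, Finset.mem_filter, Finset.mem_product] at hp
          exact hp.1.1)
      have h4 : ∀ s ∈ S, (P.filter fun p => p.1 = s).card ≤
          (S.filter fun t => X t = X s ∧ y t = Y0 (X s)).card := by
        intro s hs
        refine le_trans ?_ (hY0 (X s) (y s))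
        apply Finset.card_le_card_of_injOn (fun p => p.2)
        · intro p hp
          rw [Finset.mem_coe, Finset.mem_filter, hP, Finset.mem_filter, Finset.mem_product] at hp
          obtain ⟨⟨⟨p1, p2⟩, p3⟩, p4⟩ := hp
          rw [Prod.mk.injEq] at p3
          rw [Finset.mem_coe, Finset.mem_filter]
          exact ⟨p2, by rw [← p3.1, p4], by rw [← p3.2, p4]⟩
        · intro p hp q hq hpq
          rw [Finset.mem_coe, Finset.mem_filter] at hp hq
          exact Prod.ext (hp.2.trans hq.2.symm) hpq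
      have h5 : ∑ s ∈ S, (S.filter fun t => X t = X s ∧ y t = Y0 (X s)).card =
          ∑ t ∈ S.filter fun s => y s = Y0 (X s), (S.filter fun s => X s = X t).card := by
        simp_rw [Finset.card_filter]
        rw [Finset.sum_comm, Finset.sum_filter]
        apply Finset.sum_congr rfl
        intro t _
        by_cases ht : y t = Y0 (X t)
        · rw [if_pos ht]
          apply Finset.sum_congr rfl
          intro s _
          by_cases hs : X s = X t
          · rw [if_pos hs, if_pos ⟨hs.symm, by rw [hs]; exact ht⟩]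
          · rw [if_neg hs, if_neg (fun h => hs h.1.symm)]
        · rw [if_neg ht]
          apply Finset.sum_eq_zero
          intro s _
          rw [if_neg]
          rintro ⟨h6, h7⟩
          rw [← h6] at h7
          exact ht h7
      rw [h3]
      calc _ ≤ ∑ s ∈ S, (S.filter fun t => X t = X s ∧ y t = Y0 (X s)).card := Finset.sum_le_sum h4
        _ = _ := h5
        _ ≤ ∑ t ∈ S.filter fun s => y s = Y0 (X s), m := Finset.sum_le_sum fun t _ => hm _
        _ = m * _ := by rw [Finset.sum_const, smul_eq_mul]; ring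
    calc S.card ^ 2 ≤ N * P.card := h1
      _ ≤ N * (m * _) := Nat.mul_le_mul_left _ h2
      _ = _ := by ring

/-- greedy choice of labels -/
theorem greedy {𝒟 : Type*} [Inhabited 𝒟] (S : Finset κ) (F T : 𝒟 → κ → Prop)
    [∀ w, DecidablePred (F w)] [∀ w, DecidablePred (T w)]
    (hFT : ∀ w t, F w t → T w t) (τ : ℕ) (hT : ∀ w, (S.filter (T w)).card ≤ τ)
    (N : ℕ) (hF : ∀ S' ⊆ S, ∃ w, S'.card ^ 2 ≤ N * (S'.filter (F w)).card) :
    ∃ (G : ℕ → Finset κ) (w : ℕ → 𝒟), (∀ i, G i ⊆ S) ∧ (∀ i, ∀ t ∈ G i, F (w i) t) ∧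
      (∀ i j, i < j → ∀ t ∈ G j, ¬ T (w i) t) ∧ ∀ i, (S.card - i * τ) ^ 2 ≤ N * (G i).card := by
  classical
  choose! pick hpick using hF
  let R : ℕ → Finset κ := fun i => Nat.rec S (fun _ R => R.filter fun t => ¬ T (pick R) t) i
  have hR0 : R 0 = S := rfl
  have hR1 : ∀ i, R (i + 1) = (R i).filter fun t => ¬ T (pick (R i)) t := fun i => rfl
  have hRS : ∀ i, R i ⊆ S := by
    intro i
    induction i with
    | zero => rw [hR0]
    | succ i ih => rw [hR1]; exact (Finset.filter_subset _ _).trans ih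
  have hanti : ∀ i j, i ≤ j → R j ⊆ R i := by
    intro i j hij
    induction hij with
    | refl => exact Finset.Subset.refl _
    | step _ ih => rw [Nat.succ_eq_add_one, hR1]; exact (Finset.filter_subset _ _).trans ih
  have hcard : ∀ i, S.card - i * τ ≤ (R i).card := by
    intro i
    induction i with
    | zero => simp [hR0]
    | succ i ih =>
      have h1 := Finset.card_filter_add_card_filter_not (s := R i) (fun t => T (pick (R i)) t)
      have h2 : ((R i).filter fun t => T (pick (R i)) t).card ≤ τ :=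
        (Finset.card_le_card (Finset.filter_subset_filter _ (hRS i))).trans (hT _)
      rw [hR1, add_mul, one_mul]
      omega
  refine ⟨fun i => (R i).filter (F (pick (R i))), fun i => pick (R i), ?_, ?_, ?_, ?_⟩
  · intro i
    exact (Finset.filter_subset _ _).trans (hRS i)
  · intro i t ht
    exact (Finset.mem_filter.mp ht).2
  · intro i j hij t ht
    have h1 : t ∈ R (i + 1) := hanti (i + 1) j hij (Finset.mem_filter.mp ht).1
    rw [hR1, Finset.mem_filter] at h1
    exact h1.2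
  · intro i
    calc (S.card - i * τ) ^ 2 ≤ (R i).card ^ 2 := Nat.pow_le_pow_left (hcard i) 2
      _ ≤ _ := hpick (R i) (hRS i)

theorem card_le_sq {n : ℕ} (S : Finset κ) (x y : κ → Fin n)
    (h : ∀ s ∈ S, ∀ t ∈ S, x s = x t → y s = y t → s = t) : S.card ≤ n ^ 2 := by
  classical
  calc S.card ≤ (Finset.univ : Finset (Fin n × Fin n)).card := by
        apply Finset.card_le_card_of_injOn (fun s => (x s, y s)) (fun _ _ => Finset.mem_univ _)
        intro s hs t ht hst
        simp only [Prod.mk.injEq] at hst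
        exact h s hs t ht hst.1 hst.2
    _ = n ^ 2 := by simp; ring

theorem card_le_cube {n : ℕ} (S : Finset κ) (x y z : κ → Fin n)
    (h : ∀ s ∈ S, ∀ t ∈ S, x s = x t → y s = y t → z s = z t → s = t) : S.card ≤ n ^ 3 := by
  classical
  calc S.card ≤ (Finset.univ : Finset (Fin n × Fin n × Fin n)).card := by
        apply Finset.card_le_card_of_injOn (fun s => (x s, y s, z s)) (fun _ _ => Finset.mem_univ _)
        intro s hs t ht hst
        simp only [Prod.mk.injEq] at hst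
        exact h s hs t ht hst.1 hst.2.1 hst.2.2
    _ = n ^ 3 := by simp; ring

theorem card_le_fourth {n : ℕ} (S : Finset κ) (x y z w : κ → Fin n)
    (h : ∀ s ∈ S, ∀ t ∈ S, x s = x t → y s = y t → z s = z t → w s = w t → s = t) :
    S.card ≤ n ^ 4 := by
  classical
  calc S.card ≤ (Finset.univ : Finset (Fin n × Fin n × Fin n × Fin n)).card := by
        apply Finset.card_le_card_of_injOn (fun s => (x s, y s, z s, w s))
          (fun _ _ => Finset.mem_univ _)
        intro s hs t ht hst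
        simp only [Prod.mk.injEq] at hst
        exact h s hs t ht hst.1 hst.2.1 hst.2.2.1 hst.2.2.2
    _ = n ^ 4 := by simp; ring

theorem card_image_pair {n : ℕ} (S : Finset κ) (x y : κ → Fin n) :
    (S.image fun s => (x s, y s)).card ≤ n ^ 2 := by
  classical
  calc _ ≤ (Finset.univ : Finset (Fin n × Fin n)).card := Finset.card_le_univ _
    _ = n ^ 2 := by simp; ring

theorem card_image_triple {n : ℕ} (S : Finset κ) (x y z : κ → Fin n) :
    (S.image fun s => (x s, y s, z s)).card ≤ n ^ 3 := by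
  classical
  calc _ ≤ (Finset.univ : Finset (Fin n × Fin n × Fin n)).card := Finset.card_le_univ _
    _ = n ^ 3 := by simp; ring

/-- one third of the exceptional set of a label -/
theorem card_T {n : ℕ} (S : Finset κ) (D : κ → Fin n × Fin n) (p q r s : κ → Fin n)
    (hp : Det2 S D p q)
    (hr : ∀ x ∈ S, ∀ y ∈ S, p x = p y → q x = q y → r x = r y → s x = s y → x = y)
    (T : κ → Prop) [DecidablePred T] (w : Fin n × Fin n)
    (hT : ∀ t ∈ S, T t → ∃ u ∈ S, D u = w ∧ p u = p t ∧ q u = q t) :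
    (S.filter T).card ≤ n ^ 3 := by
  apply card_le_cube _ p r s
  intro x hx y hy h1 h2 h3
  rw [Finset.mem_filter] at hx hy
  obtain ⟨u, hu, u1, u2, u3⟩ := hT x hx.1 hx.2
  obtain ⟨v, hv, v1, v2, v3⟩ := hT y hy.1 hy.2
  refine hr x hx.1 y hy.1 h1 ?_ h2 h3
  rw [← u3, ← v3]
  exact hp u hu v hv (u1.trans v1.symm) (by rw [u2, v2, h1])

/-- common labels of three lines -/
theorem ak {n : ℕ} (hn : 0 < n) (S : Finset κ)
    (j1 j2 j3 : κ → Fin n) (D : κ → Fin n × Fin n)
    (p1 q1 r1 s1 p2 q2 r2 s2 p3 q3 r3 s3 : κ → Fin n)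
    (hJD : ∀ s ∈ S, ∀ t ∈ S, j1 s = j1 t → j2 s = j2 t → j3 s = j3 t → D s = D t → s = t)
    (hJ1 : ∀ s ∈ S, ∀ t ∈ S, j1 s = j1 t → j2 s = j2 t → j3 s = j3 t → p1 s = p1 t ∧ q1 s = q1 t)
    (hJ2 : ∀ s ∈ S, ∀ t ∈ S, j1 s = j1 t → j2 s = j2 t → j3 s = j3 t → p2 s = p2 t ∧ q2 s = q2 t)
    (hJ3 : ∀ s ∈ S, ∀ t ∈ S, j1 s = j1 t → j2 s = j2 t → j3 s = j3 t → p3 s = p3 t ∧ q3 s = q3 t)
    (hp1 : Det2 S D p1 q1) (hq1 : Det2 S D q1 p1)
    (hp2 : Det2 S D p2 q2) (hq2 : Det2 S D q2 p2)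
    (hp3 : Det2 S D p3 q3) (hq3 : Det2 S D q3 p3)
    (hr1 : ∀ x ∈ S, ∀ y ∈ S, p1 x = p1 y → q1 x = q1 y → r1 x = r1 y → s1 x = s1 y → x = y)
    (hr2 : ∀ x ∈ S, ∀ y ∈ S, p2 x = p2 y → q2 x = q2 y → r2 x = r2 y → s2 x = s2 y → x = y)
    (hr3 : ∀ x ∈ S, ∀ y ∈ S, p3 x = p3 y → q3 x = q3 y → r3 x = r3 y → s3 x = s3 y → x = y) :
    ∃ S' ⊆ S, ∃ l : κ → Fin n, Col S' p1 q1 l ∧ Col S' p2 q2 l ∧ Col S' p3 q3 l ∧
      S.card ^ 3 ≤ 24 * n ^ 8 * S'.card := by
  classical
  let R1 : Fin n × Fin n → κ → Prop := fun w t => ∃ u ∈ S, D u = w ∧ p1 u = p1 t ∧ q1 u = q1 t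
  let R2 : Fin n × Fin n → κ → Prop := fun w t => ∃ u ∈ S, D u = w ∧ p2 u = p2 t ∧ q2 u = q2 t
  let R3 : Fin n × Fin n → κ → Prop := fun w t => ∃ u ∈ S, D u = w ∧ p3 u = p3 t ∧ q3 u = q3 t
  haveI : Inhabited (Fin n × Fin n) := ⟨(⟨0, hn⟩, ⟨0, hn⟩)⟩
  have hT1 : ∀ w, (S.filter fun t => R1 w t ∨ R2 w t ∨ R3 w t).card ≤ 3 * n ^ 3 := by
    intro w
    have e1 : (S.filter (R1 w)).card ≤ n ^ 3 := card_T S D p1 q1 r1 s1 hp1 hr1 _ w fun t _ h => h
    have e2 : (S.filter (R2 w)).card ≤ n ^ 3 := card_T S D p2 q2 r2 s2 hp2 hr2 _ w fun t _ h => h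
    have e3 : (S.filter (R3 w)).card ≤ n ^ 3 := card_T S D p3 q3 r3 s3 hp3 hr3 _ w fun t _ h => h
    have e4 : (S.filter fun t => R1 w t ∨ R2 w t ∨ R3 w t) ⊆
        S.filter (R1 w) ∪ (S.filter (R2 w) ∪ S.filter (R3 w)) := by
      intro t ht
      rw [Finset.mem_filter] at ht
      rcases ht.2 with h | h | h
      · exact Finset.mem_union_left _ (Finset.mem_filter.mpr ⟨ht.1, h⟩)
      · exact Finset.mem_union_right _ (Finset.mem_union_left _ (Finset.mem_filter.mpr ⟨ht.1, h⟩))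
      · exact Finset.mem_union_right _ (Finset.mem_union_right _ (Finset.mem_filter.mpr ⟨ht.1, h⟩))
    calc _ ≤ _ := Finset.card_le_card e4
      _ ≤ (S.filter (R1 w)).card + (S.filter (R2 w) ∪ S.filter (R3 w)).card := Finset.card_union_le _ _
      _ ≤ (S.filter (R1 w)).card + ((S.filter (R2 w)).card + (S.filter (R3 w)).card) :=
          Nat.add_le_add_left (Finset.card_union_le _ _) _
      _ ≤ 3 * n ^ 3 := by omega
  have hF1 : ∀ S' ⊆ S, ∃ w, S'.card ^ 2 ≤ n ^ 5 * (S'.filter fun t => R1 w t ∧ R2 w t ∧ R3 w t).card := by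
    intro S' hS'
    set P := (S' ×ˢ S').filter fun p => (j1 p.1, j2 p.1, j3 p.1) = (j1 p.2, j2 p.2, j3 p.2) with hP
    have h1 : S'.card ^ 2 ≤ n ^ 3 * P.card :=
      coll S' (fun s => (j1 s, j2 s, j3 s)) (n ^ 3) (card_image_triple S' j1 j2 j3)
    have h2 : P.card ≤ ∑ w : Fin n × Fin n, (S'.filter fun t => R1 w t ∧ R2 w t ∧ R3 w t).card := by
      have h3 : P.card = ∑ w : Fin n × Fin n, (P.filter fun p => D p.2 = w).card :=
        Finset.card_eq_sum_card_fiberwise (fun _ _ => Finset.mem_univ _)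
      rw [h3]
      apply Finset.sum_le_sum
      intro w _
      apply Finset.card_le_card_of_injOn (fun p => p.1)
      · intro p hp
        rw [Finset.mem_coe, Finset.mem_filter, hP, Finset.mem_filter, Finset.mem_product] at hp
        obtain ⟨⟨⟨a1, a2⟩, a3⟩, a4⟩ := hp
        simp only [Prod.mk.injEq] at a3
        rw [Finset.mem_coe, Finset.mem_filter]
        have b1 := hJ1 p.2 (hS' a2) p.1 (hS' a1) a3.1.symm a3.2.1.symm a3.2.2.symm
        have b2 := hJ2 p.2 (hS' a2) p.1 (hS' a1) a3.1.symm a3.2.1.symm a3.2.2.symm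
        have b3 := hJ3 p.2 (hS' a2) p.1 (hS' a1) a3.1.symm a3.2.1.symm a3.2.2.symm
        exact ⟨a1, ⟨p.2, hS' a2, a4, b1⟩, ⟨p.2, hS' a2, a4, b2⟩, ⟨p.2, hS' a2, a4, b3⟩⟩
      · intro p hp q hq hpq
        rw [Finset.mem_coe, Finset.mem_filter, hP, Finset.mem_filter, Finset.mem_product] at hp hq
        obtain ⟨⟨⟨a1, a2⟩, a3⟩, a4⟩ := hp
        obtain ⟨⟨⟨c1, c2⟩, c3⟩, c4⟩ := hq
        simp only [Prod.mk.injEq] at a3 c3
        have hpq' : p.1 = q.1 := hpq
        apply Prod.ext hpq'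
        apply hJD p.2 (hS' a2) q.2 (hS' c2)
        · rw [← a3.1, ← c3.1, hpq']
        · rw [← a3.2.1, ← c3.2.1, hpq']
        · rw [← a3.2.2, ← c3.2.2, hpq']
        · rw [a4, c4]
    by_contra hcon
    push Not at hcon
    have h4 : ∑ w : Fin n × Fin n, n ^ 5 * (S'.filter fun t => R1 w t ∧ R2 w t ∧ R3 w t).card <
        ∑ w : Fin n × Fin n, S'.card ^ 2 :=
      Finset.sum_lt_sum_of_nonempty ⟨default, Finset.mem_univ _⟩ fun w _ => hcon w
    rw [← Finset.mul_sum, Finset.sum_const, Finset.card_univ, Fintype.card_prod, Fintype.card_fin,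
      smul_eq_mul] at h4
    have h5 : n * n * S'.card ^ 2 ≤ n * n * (n ^ 3 * P.card) := Nat.mul_le_mul_left _ h1
    have h6 : n ^ 5 * P.card ≤ n ^ 5 * ∑ w : Fin n × Fin n,
        (S'.filter fun t => R1 w t ∧ R2 w t ∧ R3 w t).card := Nat.mul_le_mul_left _ h2
    have h7 : n * n * (n ^ 3 * P.card) = n ^ 5 * P.card := by ring
    omega
  obtain ⟨G, w, hG1, hG2, hG3, hG4⟩ := greedy S (fun w t => R1 w t ∧ R2 w t ∧ R3 w t)
    (fun w t => R1 w t ∨ R2 w t ∨ R3 w t) (fun w t h => Or.inl h.1) (3 * n ^ 3) hT1 (n ^ 5) hF1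
  -- the number of labels
  have hS4 : S.card ≤ n ^ 4 := card_le_fourth S p1 q1 r1 s1 hr1
  set M := S.card / (6 * n ^ 3) + 1 with hM
  have hn3 : 0 < n ^ 3 := by positivity
  have hMn : M ≤ n := by
    have h1 : S.card / (6 * n ^ 3) ≤ n / 6 := by
      calc S.card / (6 * n ^ 3) ≤ n ^ 4 / (6 * n ^ 3) := Nat.div_le_div_right hS4
        _ = (n * n ^ 3) / (6 * n ^ 3) := by ring_nf
        _ = n / 6 := Nat.mul_div_mul_right _ _ hn3
    have h2 : n / 6 + 1 ≤ n := by omega
    omega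
  have hdisj : ∀ i j, i < j → Disjoint (G i) (G j) := by
    intro i j hij
    rw [Finset.disjoint_left]
    intro t hti htj
    exact hG3 i j hij t htj (Or.inl (hG2 i t hti).1)
  have hdisj' : ∀ i j, i ≠ j → Disjoint (G i) (G j) := by
    intro i j hij
    rcases Nat.lt_or_gt_of_ne hij with h | h
    · exact hdisj i j h
    · exact (hdisj j i h).symm
  set S' := (Finset.range M).biUnion G with hS'
  have hlab : ∀ t, t ∈ S' → ∃ i, i < M ∧ t ∈ G i := by
    intro t ht
    rw [hS', Finset.mem_biUnion] at ht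
    obtain ⟨i, hi, h⟩ := ht
    exact ⟨i, Finset.mem_range.mp hi, h⟩
  choose! lab hlab1 hlab2 using hlab
  let l : κ → Fin n := fun t => if h : lab t < n then ⟨lab t, h⟩ else ⟨0, hn⟩
  have hl : ∀ s ∈ S', ∀ t ∈ S', l s = l t ↔ lab s = lab t := by
    intro s hs t ht
    have h1 := lt_of_lt_of_le (hlab1 s hs) hMn
    have h2 := lt_of_lt_of_le (hlab1 t ht) hMn
    simp only [l, dif_pos h1, dif_pos h2, Fin.mk.injEq]
  -- equal values on one of the lines give equal labels
  have hsame : ∀ s ∈ S', ∀ t ∈ S', (∀ w, (R1 w s ∧ R2 w s ∧ R3 w s) → (R1 w t ∨ R2 w t ∨ R3 w t)) →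
      (∀ w, (R1 w t ∧ R2 w t ∧ R3 w t) → (R1 w s ∨ R2 w s ∨ R3 w s)) → lab s = lab t := by
    intro s hs t ht h1 h2
    by_contra hne
    rcases Nat.lt_or_gt_of_ne hne with h | h
    · exact hG3 _ _ h t (hlab2 t ht) (h1 _ (hG2 _ s (hlab2 s hs)))
    · exact hG3 _ _ h s (hlab2 s hs) (h2 _ (hG2 _ t (hlab2 t ht)))
  have hcols : ∀ (p q : κ → Fin n), Det2 S D p q → Det2 S D q p →
      (∀ s ∈ S', ∃ u ∈ S, D u = w (lab s) ∧ p u = p s ∧ q u = q s) →
      (∀ s ∈ S', ∀ t ∈ S', p s = p t → q s = q t → lab s = lab t) → Col S' p q l := by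
    intro p q h1 h2 h3 h4
    refine ⟨?_, ?_, ?_⟩
    · intro s hs t ht e1 e2
      exact (hl s hs t ht).mpr (h4 s hs t ht e1 e2)
    · intro s hs t ht e1 e2
      have e3 := (hl s hs t ht).mp e2
      obtain ⟨u, hu, u1, u2, u3⟩ := h3 s hs
      obtain ⟨v, hv, v1, v2, v3⟩ := h3 t ht
      rw [← u3, ← v3]
      exact h1 u hu v hv (by rw [u1, v1, e3]) (by rw [u2, v2, e1])
    · intro s hs t ht e1 e2
      have e3 := (hl s hs t ht).mp e2
      obtain ⟨u, hu, u1, u2, u3⟩ := h3 s hs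
      obtain ⟨v, hv, v1, v2, v3⟩ := h3 t ht
      rw [← u2, ← v2]
      exact h2 u hu v hv (by rw [u1, v1, e3]) (by rw [u3, v3, e1])
  refine ⟨S', ?_, l, ?_, ?_, ?_, ?_⟩
  · intro t ht
    exact hG1 _ (hlab2 t ht)
  · apply hcols p1 q1 hp1 hq1 (fun s hs => (hG2 _ s (hlab2 s hs)).1)
    intro s hs t ht e1 e2
    apply hsame s hs t ht
    · intro w h
      left
      obtain ⟨u, hu, u1, u2, u3⟩ := h.1
      exact ⟨u, hu, u1, u2.trans e1, u3.trans e2⟩
    · intro w h
      left
      obtain ⟨u, hu, u1, u2, u3⟩ := h.1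
      exact ⟨u, hu, u1, u2.trans e1.symm, u3.trans e2.symm⟩
  · apply hcols p2 q2 hp2 hq2 (fun s hs => (hG2 _ s (hlab2 s hs)).2.1)
    intro s hs t ht e1 e2
    apply hsame s hs t ht
    · intro w h
      right; left
      obtain ⟨u, hu, u1, u2, u3⟩ := h.2.1
      exact ⟨u, hu, u1, u2.trans e1, u3.trans e2⟩
    · intro w h
      right; left
      obtain ⟨u, hu, u1, u2, u3⟩ := h.2.1
      exact ⟨u, hu, u1, u2.trans e1.symm, u3.trans e2.symm⟩
  · apply hcols p3 q3 hp3 hq3 (fun s hs => (hG2 _ s (hlab2 s hs)).2.2)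
    intro s hs t ht e1 e2
    apply hsame s hs t ht
    · intro w h
      right; right
      obtain ⟨u, hu, u1, u2, u3⟩ := h.2.2
      exact ⟨u, hu, u1, u2.trans e1, u3.trans e2⟩
    · intro w h
      right; right
      obtain ⟨u, hu, u1, u2, u3⟩ := h.2.2
      exact ⟨u, hu, u1, u2.trans e1.symm, u3.trans e2.symm⟩
  · -- size
    have h1 : S'.card = ∑ i ∈ Finset.range M, (G i).card := by
      rw [hS']
      exact Finset.card_biUnion fun i _ j _ hij => hdisj' i j hij
    have h2 : ∀ i ∈ Finset.range M, S.card ^ 2 ≤ 4 * (n ^ 5 * (G i).card) := by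
      intro i hi
      have h3 : i ≤ S.card / (6 * n ^ 3) := by
        have := Finset.mem_range.mp hi
        omega
      have h4 : i * (6 * n ^ 3) ≤ S.card := (Nat.mul_le_mul_right _ h3).trans (Nat.div_mul_le_self _ _)
      have h5 : S.card ≤ 2 * (S.card - i * (3 * n ^ 3)) := by
        have h6 : i * (6 * n ^ 3) = 2 * (i * (3 * n ^ 3)) := by ring
        omega
      calc S.card ^ 2 ≤ (2 * (S.card - i * (3 * n ^ 3))) ^ 2 := Nat.pow_le_pow_left h5 2
        _ = 4 * (S.card - i * (3 * n ^ 3)) ^ 2 := by ring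
        _ ≤ 4 * (n ^ 5 * (G i).card) := Nat.mul_le_mul_left _ (hG4 i)
    have h3 : M * S.card ^ 2 ≤ 4 * (n ^ 5 * S'.card) := by
      calc M * S.card ^ 2 = ∑ i ∈ Finset.range M, S.card ^ 2 := by simp
        _ ≤ ∑ i ∈ Finset.range M, 4 * (n ^ 5 * (G i).card) := Finset.sum_le_sum h2
        _ = 4 * (n ^ 5 * S'.card) := by rw [h1, Finset.mul_sum, Finset.mul_sum]
    have h4 : S.card ≤ M * (6 * n ^ 3) := by
      have h5 : 0 < 6 * n ^ 3 := by positivity
      rw [hM, add_mul, one_mul]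
      have h6 := Nat.div_add_mod S.card (6 * n ^ 3)
      have h7 := Nat.mod_lt S.card h5
      have h8 : 6 * n ^ 3 * (S.card / (6 * n ^ 3)) = S.card / (6 * n ^ 3) * (6 * n ^ 3) := by ring
      omega
    calc S.card ^ 3 = S.card * S.card ^ 2 := by ring
      _ ≤ (M * (6 * n ^ 3)) * S.card ^ 2 := Nat.mul_le_mul_right _ h4
      _ = (6 * n ^ 3) * (M * S.card ^ 2) := by ring
      _ ≤ (6 * n ^ 3) * (4 * (n ^ 5 * S'.card)) := Nat.mul_le_mul_left _ h3
      _ = 24 * n ^ 8 * S'.card := by ring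

end dense

end Pool.Agent.Helper138_LS
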