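import Pool.Agent.Helper138_LS.Core

/-!
The dense Desargues lemma for relations of rank three.
-/

set_option autoImplicit false

open Finset

namespace Pool.Agent.Helper138_LS

/-- monomials -/
def Mono (f : ℝ → ℝ) : Prop := ∃ k : ℝ, 0 < k ∧ ∃ K : ℕ, 0 < K ∧ ∀ c, f c = k * c ^ K

theorem Mono.comp {f g : ℝ → ℝ} (hf : Mono f) (hg : Mono g) : Mono fun c => f (g c) := by
  obtain ⟨k, hk, K, hK, h⟩ := hf
  obtain ⟨k', hk', K', hK', h'⟩ := hg
  refine ⟨k * k' ^ K, by positivity, K' * K, Nat.mul_pos hK' hK, fun c => ?_⟩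
  show f (g c) = _
  rw [h, h', mul_pow, ← pow_mul]
  ring

theorem Mono.nonneg {f : ℝ → ℝ} (hf : Mono f) {c : ℝ} (hc : 0 ≤ c) : 0 ≤ f c := by
  obtain ⟨k, hk, K, _, h⟩ := hf
  rw [h]
  positivity

noncomputable def fA (c : ℝ) : ℝ := c ^ 3 / 24
noncomputable def fD (c : ℝ) : ℝ := c ^ 2

theorem mono_fA : Mono fA := ⟨1 / 24, by norm_num, 3, by norm_num, fun c => by rw [fA]; ring⟩
theorem mono_fD : Mono fD := ⟨1, by norm_num, 2, by norm_num, fun c => by rw [fD]; ring⟩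

theorem fA_nonneg {c : ℝ} (hc : 0 ≤ c) : 0 ≤ fA c := mono_fA.nonneg hc
theorem fD_nonneg {c : ℝ} (hc : 0 ≤ c) : 0 ≤ fD c := mono_fD.nonneg hc

theorem stepA {n a b : ℕ} {c : ℝ} (hn : 0 < n) (hc : 0 ≤ c) (h : a ^ 3 ≤ 24 * n ^ 8 * b)
    (ha : c * (n : ℝ) ^ 4 ≤ a) : fA c * (n : ℝ) ^ 4 ≤ b := by
  have hn' : (0 : ℝ) < n := by exact_mod_cast hn
  have h1 : ((a : ℝ)) ^ 3 ≤ 24 * (n : ℝ) ^ 8 * b := by exact_mod_cast h
  have h2 : (c * (n : ℝ) ^ 4) ^ 3 ≤ (a : ℝ) ^ 3 := pow_le_pow_left₀ (by positivity) ha 3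
  have h3 : (24 * (n : ℝ) ^ 8) * (fA c * (n : ℝ) ^ 4) ≤ (24 * (n : ℝ) ^ 8) * b := by
    calc (24 * (n : ℝ) ^ 8) * (fA c * (n : ℝ) ^ 4) = (c * (n : ℝ) ^ 4) ^ 3 := by rw [fA]; ring
      _ ≤ _ := h2.trans h1
  exact le_of_mul_le_mul_left h3 (by positivity)

theorem stepD {n a b : ℕ} {c : ℝ} (hn : 0 < n) (hc : 0 ≤ c) (h : a ^ 2 ≤ n ^ 4 * b)
    (ha : c * (n : ℝ) ^ 4 ≤ a) : fD c * (n : ℝ) ^ 4 ≤ b := by
  have hn' : (0 : ℝ) < n := by exact_mod_cast hn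
  have h1 : ((a : ℝ)) ^ 2 ≤ (n : ℝ) ^ 4 * b := by exact_mod_cast h
  have h2 : (c * (n : ℝ) ^ 4) ^ 2 ≤ (a : ℝ) ^ 2 := pow_le_pow_left₀ (by positivity) ha 2
  have h3 : (n : ℝ) ^ 4 * (fD c * (n : ℝ) ^ 4) ≤ (n : ℝ) ^ 4 * b := by
    calc (n : ℝ) ^ 4 * (fD c * (n : ℝ) ^ 4) = (c * (n : ℝ) ^ 4) ^ 2 := by rw [fD]; ring
      _ ≤ _ := h2.trans h1
  exact le_of_mul_le_mul_left h3 (by positivity)

theorem stepE {n a b : ℕ} {c : ℝ} (hn : 0 < n) (hc : 0 ≤ c) (h : a ^ 2 ≤ n ^ 3 * b)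
    (ha : c * (n : ℝ) ^ 3 ≤ a) : fD c * (n : ℝ) ^ 3 ≤ b := by
  have hn' : (0 : ℝ) < n := by exact_mod_cast hn
  have h1 : ((a : ℝ)) ^ 2 ≤ (n : ℝ) ^ 3 * b := by exact_mod_cast h
  have h2 : (c * (n : ℝ) ^ 3) ^ 2 ≤ (a : ℝ) ^ 2 := pow_le_pow_left₀ (by positivity) ha 2
  have h3 : (n : ℝ) ^ 3 * (fD c * (n : ℝ) ^ 3) ≤ (n : ℝ) ^ 3 * b := by
    calc (n : ℝ) ^ 3 * (fD c * (n : ℝ) ^ 3) = (c * (n : ℝ) ^ 3) ^ 2 := by rw [fD]; ring
      _ ≤ _ := h2.trans h1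
  exact le_of_mul_le_mul_left h3 (by positivity)

/-- the loss of the Desargues lemma -/
noncomputable def dz (c : ℝ) : ℝ := fA (fD (fD (fA (fD (fD (fA (fD c)))))))

theorem mono_dz : Mono dz :=
  mono_fA.comp (mono_fD.comp (mono_fD.comp (mono_fA.comp (mono_fD.comp (mono_fD.comp
    (mono_fA.comp mono_fD))))))

theorem dz_nonneg {c : ℝ} (hc : 0 ≤ c) : 0 ≤ dz c := mono_dz.nonneg hc

/-- the rank four part -/
theorem core_all {κ : Type*} {n : ℕ} {S : Finset κ} {o a1 b1 a2 b2 a3 b3 c1 c3 a2' b2' c3' : κ → Fin n}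
    (hn : 0 < n) (h : Core S o a1 b1 a2 b2 a3 b3 c1 c3 a2' b2' c3') {c : ℝ} (hc : 0 ≤ c)
    (hS : c * (n : ℝ) ^ 4 ≤ S.card) :
    ∃ S' ⊆ S, ∃ c2 : κ → Fin n, Col S' a1 a3 c2 ∧ Col S' b1 b3 c2 ∧ Col S' c1 c3 c2 ∧
      fA (fD (fD (fA (fD (fD (fA c)))))) * (n : ℝ) ^ 4 ≤ S'.card := by
  obtain ⟨S1, hS1, V, v1, v2, s1⟩ := core_V hn h
  have t1 := stepA hn hc s1 hS
  have n1 := fA_nonneg hc
  have g1 := h.mono hS1
  obtain ⟨S2, hS2, x1, s2⟩ := core_V1 g1 v1 v2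
  have t2 := stepD hn n1 s2 t1
  have n2 := fD_nonneg n1
  have g2 := g1.mono hS2
  obtain ⟨S3, hS3, x2, s3⟩ := core_V2 g2 (v1.mono hS2) (v2.mono hS2)
  have t3 := stepD hn n2 s3 t2
  have n3 := fD_nonneg n2
  have g3 := g2.mono hS3
  obtain ⟨S4, hS4, W, w1, w2, s4⟩ := core_W hn g3 ((v1.mono hS2).mono hS3) ((v2.mono hS2).mono hS3)
  have t4 := stepA hn n3 s4 t3
  have n4 := fA_nonneg n3
  have g4 := g3.mono hS4
  have v1' := (((v1.mono hS2).mono hS3).mono hS4)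
  have v2' := (((v2.mono hS2).mono hS3).mono hS4)
  obtain ⟨S5, hS5, x3, s5⟩ := core_W1 g4 v1' v2' w1 w2
  have t5 := stepD hn n4 s5 t4
  have n5 := fD_nonneg n4
  have g5 := g4.mono hS5
  obtain ⟨S6, hS6, x4, s6⟩ := core_W2 g5 (v1'.mono hS5) (v2'.mono hS5) (w1.mono hS5) (w2.mono hS5)
  have t6 := stepD hn n5 s6 t5
  have n6 := fD_nonneg n5
  have g6 := g5.mono hS6
  obtain ⟨S7, hS7, c2, e1, e2, e3, s7⟩ := core_c2 hn g6 ((w1.mono hS5).mono hS6)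
    ((w2.mono hS5).mono hS6) ((((x1.mono hS3).mono hS4).mono hS5).mono hS6)
    (((x2.mono hS4).mono hS5).mono hS6) (x3.mono hS6) x4
  have t7 := stepA hn n6 s7 t6
  exact ⟨S7, hS7.trans (hS6.trans (hS5.trans (hS4.trans (hS3.trans (hS2.trans hS1))))), c2, e1, e2, e3, t7⟩

/-- **Desargues.** -/
theorem desargues {ι : Type*} {n : ℕ} (hn : 0 < n) {S : Finset ι}
    {o a1 b1 a2 b2 a3 b3 c1 c3 : ι → Fin n}
    (h1 : Col S o a1 b1) (h2 : Col S o a2 b2) (h3 : Col S o a3 b3)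
    (k12 : Col S a1 a2 c3) (m12 : Col S b1 b2 c3) (k23 : Col S a2 a3 c1) (m23 : Col S b2 b3 c1)
    (i012 : Inj3 S o a1 a2) (i013 : Inj3 S o a1 a3) (i023 : Inj3 S o a2 a3) (i123 : Inj3 S a1 a2 a3)
    {c : ℝ} (hc : 0 ≤ c) (hS : c * (n : ℝ) ^ 3 ≤ S.card) :
    ∃ S' ⊆ S, ∃ c2 : ι → Fin n, Col S' a1 a3 c2 ∧ Col S' b1 b3 c2 ∧ Col S' c1 c3 c2 ∧
      dz c * (n : ℝ) ^ 3 ≤ S'.card := by
  classical
  have hn' : (0 : ℝ) < n := by exact_mod_cast hn
  set S4 : Finset (ι × ι) := (S ×ˢ S).filter fun p => (o p.1, a1 p.1) = (o p.2, a1 p.2) with hS4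
  have hmem : ∀ p ∈ S4, p.1 ∈ S ∧ p.2 ∈ S ∧ o p.1 = o p.2 ∧ a1 p.1 = a1 p.2 ∧ b1 p.1 = b1 p.2 := by
    intro p hp
    rw [hS4, Finset.mem_filter, Finset.mem_product, Prod.mk.injEq] at hp
    exact ⟨hp.1.1, hp.1.2, hp.2.1, hp.2.2, h1.1 _ hp.1.1 _ hp.1.2 hp.2.1 hp.2.2⟩
  have hfst : ∀ {x y z : ι → Fin n}, Col S x y z →
      Col S4 (fun p => x p.1) (fun p => y p.1) (fun p => z p.1) := by
    intro x y z h
    exact ⟨fun s hs t ht => h.1 _ (hmem s hs).1 _ (hmem t ht).1,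
      fun s hs t ht => h.2.1 _ (hmem s hs).1 _ (hmem t ht).1,
      fun s hs t ht => h.2.2 _ (hmem s hs).1 _ (hmem t ht).1⟩
  have hcore : Core S4 (fun p => o p.1) (fun p => a1 p.1) (fun p => b1 p.1) (fun p => a2 p.1)
      (fun p => b2 p.1) (fun p => a3 p.1) (fun p => b3 p.1) (fun p => c1 p.1) (fun p => c3 p.1)
      (fun p => a2 p.2) (fun p => b2 p.2) (fun p => c3 p.2) := by
    refine ⟨hfst h1, hfst h2, hfst h3, hfst k12, hfst m12, hfst k23, hfst m23, ?_, ?_, ?_, ?_, ?_, ?_,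
      ?_, ?_⟩
    all_goals
      simp only [Col, Det2, Inj3] at *
    · grind
    · grind
    · grind
    · intro s hs t ht e1 e2 e3 e4
      have q1 := hmem s hs
      have q2 := hmem t ht
      apply Prod.ext
      · exact i012 _ q1.1 _ q2.1 e1 e2 e3
      · exact i012 _ q1.2.1 _ q2.2.1 (by rw [← q1.2.2.1, ← q2.2.2.1, e1])
          (by rw [← q1.2.2.2.1, ← q2.2.2.2.1, e2]) e4
    · intro s hs t ht e1 e2 e3 e4
      have q1 := hmem s hs
      have q2 := hmem t ht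
      apply Prod.ext
      · exact i013 _ q1.1 _ q2.1 e1 e2 e3
      · exact i012 _ q1.2.1 _ q2.2.1 (by rw [← q1.2.2.1, ← q2.2.2.1, e1])
          (by rw [← q1.2.2.2.1, ← q2.2.2.2.1, e2]) e4
    · intro s hs t ht e1 e2 e3 e4
      have q1 := hmem s hs
      have q2 := hmem t ht
      have q3 := i023 _ q1.1 _ q2.1 e1 e2 e3
      apply Prod.ext q3
      exact i012 _ q1.2.1 _ q2.2.1 (by rw [← q1.2.2.1, ← q2.2.2.1, e1])
          (by rw [← q1.2.2.2.1, ← q2.2.2.2.1, q3]) e4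
    · intro s hs t ht e1 e2 e3 e4
      have q1 := hmem s hs
      have q2 := hmem t ht
      have q3 := i123 _ q1.1 _ q2.1 e1 e2 e3
      apply Prod.ext q3
      exact i012 _ q1.2.1 _ q2.2.1 (by rw [← q1.2.2.1, ← q2.2.2.1, q3])
          (by rw [← q1.2.2.2.1, ← q2.2.2.2.1, q3]) e4
    · intro s hs t ht e1 e2 e3
      have q1 := hmem s hs
      have q2 := hmem t ht
      rw [i013 _ q1.1 _ q2.1 e1 e2 e3]
  have hcard : fD c * (n : ℝ) ^ 4 ≤ S4.card := by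
    have q1 : S.card ^ 2 ≤ n ^ 2 * S4.card := coll S (fun s => (o s, a1 s)) (n ^ 2) (card_image_pair S _ _)
    have q2 : (S.card : ℝ) ^ 2 ≤ (n : ℝ) ^ 2 * S4.card := by exact_mod_cast q1
    have q3 : (c * (n : ℝ) ^ 3) ^ 2 ≤ (S.card : ℝ) ^ 2 := pow_le_pow_left₀ (by positivity) hS 2
    have q4 : (n : ℝ) ^ 2 * (fD c * (n : ℝ) ^ 4) ≤ (n : ℝ) ^ 2 * S4.card := by
      calc (n : ℝ) ^ 2 * (fD c * (n : ℝ) ^ 4) = (c * (n : ℝ) ^ 3) ^ 2 := by rw [fD]; ring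
        _ ≤ _ := q3.trans q2
    exact le_of_mul_le_mul_left q4 (by positivity)
  obtain ⟨S8, hS8, c2, e1, e2, e3, e4⟩ := core_all hn hcore (fD_nonneg hc) hcard
  -- back to single members
  have hrep : ∀ s, s ∈ S8.image Prod.fst → ∃ p ∈ S8, p.1 = s := by
    intro s hs
    rw [Finset.mem_image] at hs
    exact hs
  choose! rep hrep1 hrep2 using hrep
  have hcol : ∀ {x y : ι → Fin n}, Col S8 (fun p => x p.1) (fun p => y p.1) c2 →
      Col (S8.image Prod.fst) x y fun s => c2 (rep s) := by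
    intro x y h
    refine ⟨?_, ?_, ?_⟩
    · intro s hs t ht q1 q2
      exact h.1 _ (hrep1 s hs) _ (hrep1 t ht) (by simp only [hrep2 s hs, hrep2 t ht, q1])
        (by simp only [hrep2 s hs, hrep2 t ht, q2])
    · intro s hs t ht q1 q2
      have := h.2.1 _ (hrep1 s hs) _ (hrep1 t ht) (by simp only [hrep2 s hs, hrep2 t ht, q1]) q2
      simpa only [hrep2 s hs, hrep2 t ht] using this
    · intro s hs t ht q1 q2
      have := h.2.2 _ (hrep1 s hs) _ (hrep1 t ht) (by simp only [hrep2 s hs, hrep2 t ht, q1]) q2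
      simpa only [hrep2 s hs, hrep2 t ht] using this
  refine ⟨S8.image Prod.fst, ?_, fun s => c2 (rep s), hcol e1, hcol e2, hcol e3, ?_⟩
  · intro s hs
    have := hmem _ (hS8 (hrep1 s hs))
    rw [← hrep2 s hs]
    exact this.1
  · have q1 : S8.card ≤ n * (S8.image Prod.fst).card := by
      apply Finset.card_le_mul_card_image
      intro s _
      calc (S8.filter fun p => p.1 = s).card ≤ (Finset.univ : Finset (Fin n)).card := by
            apply Finset.card_le_card_of_injOn (fun p => a2 p.2) (fun _ _ => Finset.mem_univ _)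
            intro p hp q hq hpq
            rw [Finset.mem_coe, Finset.mem_filter] at hp hq
            have hpq' : a2 p.2 = a2 q.2 := hpq
            have hh : p.1 = q.1 := hp.2.trans hq.2.symm
            apply hcore.i012 p (hS8 hp.1) q (hS8 hq.1)
            · simp only [hh]
            · simp only [hh]
            · simp only [hh]
            · exact hpq'
        _ = n := by simp
    have q2 : (S8.card : ℝ) ≤ n * ((S8.image Prod.fst).card : ℝ) := by exact_mod_cast q1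
    have q3 : (n : ℝ) * (dz c * (n : ℝ) ^ 3) ≤ n * ((S8.image Prod.fst).card : ℝ) := by
      calc (n : ℝ) * (dz c * (n : ℝ) ^ 3) = dz c * (n : ℝ) ^ 4 := by ring
        _ ≤ _ := e4.trans q2
    exact le_of_mul_le_mul_left q3 hn'

/-- double determination in rank three -/
theorem dd3 {ι : Type*} {n : ℕ} (hn : 0 < n) {S : Finset ι} {D a b l : ι → Fin n}
    (ha : Det2 S D a l) (hb : Det2 S D b l) (hab : Inj3 S D a b)
    {c : ℝ} (hc : 0 ≤ c) (hS : c * (n : ℝ) ^ 3 ≤ S.card) :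
    ∃ S' ⊆ S, (∀ s ∈ S', ∀ t ∈ S', D s = D t → l s = l t) ∧ fD c * (n : ℝ) ^ 3 ≤ S'.card := by
  classical
  obtain ⟨S', hS', e1, e2⟩ := dd S D a b l n
    ((Finset.card_le_univ _).trans (by simp)) ha hb hab
  refine ⟨S', hS', e1, stepE hn hc ?_ hS⟩
  calc _ ≤ _ := e2
    _ = _ := by ring

/-- a third point of a line and one of the others determine the remaining one -/
theorem uniq3 {ι : Type*} {n : ℕ} (hn : 0 < n) {S : Finset ι} {x y z e : ι → Fin n}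
    (h : Det2 S x y z) (hi : Inj3 S x z e)
    {c : ℝ} (hc : 0 ≤ c) (hS : c * (n : ℝ) ^ 3 ≤ S.card) :
    ∃ S' ⊆ S, Det2 S' x z y ∧ fD c * (n : ℝ) ^ 3 ≤ S'.card := by
  classical
  have hN : (S.image fun s => ((x s, z s), y s)).card ≤ n ^ 2 := by
    calc (S.image fun s => ((x s, z s), y s)).card ≤ (Finset.univ : Finset (Fin n × Fin n)).card := by
          apply Finset.card_le_card_of_injOn (fun q => (q.1.1, q.2)) (fun _ _ => Finset.mem_univ _)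
          intro q hq r hr hqr
          rw [Finset.mem_coe, Finset.mem_image] at hq hr
          obtain ⟨s, hs, rfl⟩ := hq
          obtain ⟨t, ht, rfl⟩ := hr
          simp only [Prod.mk.injEq] at hqr ⊢
          exact ⟨⟨hqr.1, h s hs t ht hqr.1 hqr.2⟩, hqr.2⟩
      _ = n ^ 2 := by simp; ring
  have hm : ∀ δ, (S.filter fun s => (x s, z s) = δ).card ≤ n := by
    intro δ
    calc (S.filter fun s => (x s, z s) = δ).card ≤ (Finset.univ : Finset (Fin n)).card := by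
          apply Finset.card_le_card_of_injOn e (fun _ _ => Finset.mem_univ _)
          intro s hs t ht hst
          rw [Finset.mem_coe, Finset.mem_filter] at hs ht
          have q := hs.2.trans ht.2.symm
          rw [Prod.mk.injEq] at q
          exact hi s hs.1 t ht.1 q.1 q.2 hst
      _ = n := by simp
  obtain ⟨S', hS', e1, e2⟩ := uniq S (fun s => (x s, z s)) y (n ^ 2) n hN hm
  refine ⟨S', hS', ?_, stepE hn hc ?_ hS⟩
  · intro s hs t ht q1 q2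
    exact e1 s hs t ht (by simp only [q1, q2])
  · calc _ ≤ _ := e2
      _ = _ := by ring

end Pool.Agent.Helper138_LS
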