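import Pool.Agent.Helper138_LS.G12

/-!
MP_5cdc53_co, Q1 for the pair `k = 12`, `L = {0,1,2,3,4,6}`: the order of growth is `n ^ 6`.
The words of the extended ternary Golay code have zero sets of size 0, 3 or 6; the sets of size 6 are the
blocks of the Steiner system `S(5,6,12)`.
-/

set_option autoImplicit false

open Finset

namespace Pool.Agent.Helper138_LS.E12

open Pool.Agent.H480R2.LS Pool.Agent.Helper138_LS Pool.Agent.Helper138_LS.G12

/-- the word with a given message -/
def word (u : Fin 6 → ZMod 3) : Fin 12 → Fin 3 := fun i => ev (u 0) (u 1) (u 2) (u 3) (u 4) (u 5) i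

theorem word_agr (u v : Fin 6 → ZMod 3) :
    agr (word u) (word v) =
      ofMask (zmask (u 0 - v 0) (u 1 - v 1) (u 2 - v 2) (u 3 - v 3) (u 4 - v 4) (u 5 - v 5)) := by
  rw [← zeros_eq]
  ext i
  rw [mem_agr, Finset.mem_filter]
  have h : ev (u 0 - v 0) (u 1 - v 1) (u 2 - v 2) (u 3 - v 3) (u 4 - v 4) (u 5 - v 5) i =
      ev (u 0) (u 1) (u 2) (u 3) (u 4) (u 5) i - ev (v 0) (v 1) (v 2) (v 3) (v 4) (v 5) i := by
    unfold ev; ring
  rw [h, sub_eq_zero]
  simp only [Finset.mem_univ, true_and]
  exact Iff.rfl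

theorem word_cases' (u v : Fin 6 → ZMod 3) (h : u ≠ v) :
    (agr (word u) (word v)).card ≤ 4 ∨
      ∃ m ∈ masks, agr (word u) (word v) = ofMask m := by
  rw [word_agr]
  rcases word_cases (u 0 - v 0) (u 1 - v 1) (u 2 - v 2) (u 3 - v 3) (u 4 - v 4) (u 5 - v 5) with h1 | h1 | h1
  · exfalso
    apply h
    obtain ⟨a, b, c, d, e, f⟩ := h1
    funext i
    fin_cases i
    · exact sub_eq_zero.mp a
    · exact sub_eq_zero.mp b
    · exact sub_eq_zero.mp c
    · exact sub_eq_zero.mp d
    · exact sub_eq_zero.mp e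
    · exact sub_eq_zero.mp f
  · exact Or.inl h1
  · exact Or.inr ⟨_, h1, rfl⟩

theorem word_inj : Function.Injective word := by
  intro u v huv
  by_contra h
  rcases word_cases' u v h with h1 | ⟨m, hm, h1⟩
  · rw [huv] at h1
    have h2 : agr (word v) (word v) = Finset.univ := by ext i; simp [mem_agr]
    rw [h2] at h1
    simp at h1
  · have h3 := blocks_card m hm
    rw [← h1, huv] at h3
    have h2 : agr (word v) (word v) = Finset.univ := by ext i; simp [mem_agr]
    rw [h2] at h3
    simp at h3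

/-- the sets with at most four elements and the blocks -/
def T : Finset (Finset (Fin 12)) :=
  Finset.univ.filter fun A => A.card ≤ 4 ∨ ∃ m ∈ masks, A = ofMask m

theorem T_inter : IC T := by
  intro A hA B hB
  rw [T, Finset.mem_filter] at hA hB ⊢
  refine ⟨Finset.mem_univ _, ?_⟩
  rcases hA.2 with hA1 | ⟨x, hx, hA1⟩
  · exact Or.inl ((Finset.card_le_card Finset.inter_subset_left).trans hA1)
  · rcases hB.2 with hB1 | ⟨y, hy, hB1⟩
    · exact Or.inl ((Finset.card_le_card Finset.inter_subset_right).trans hB1)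
    · rcases blocks_inter x hx y hy with h | h
      · right
        exact ⟨x, hx, by rw [hA1, hB1, h, Finset.inter_self]⟩
      · left
        rw [hA1, hB1]
        exact h

theorem T_card : ∀ A ∈ T, A.card ∈ ({0, 1, 2, 3, 4, 6} : Finset ℕ) := by
  intro A hA
  rw [T, Finset.mem_filter] at hA
  rcases hA.2 with h | ⟨m, hm, h⟩
  · interval_cases A.card <;> simp
  · rw [h, blocks_card m hm]; simp

/-- There is `c > 0` such that for every `n ≥ 12` some family of 12-element subsets of an
`n`-element set, any two distinct members of which meet in 0, 1, 2, 3, 4 or 6 elements, has at least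
`c n ^ 6` members. -/
theorem attained : ∃ c : ℝ, 0 < c ∧ ∀ n : ℕ, 12 ≤ n → ∃ F : Finset (Finset (Fin n)),
    (∀ A ∈ F, A.card = 12) ∧
    (∀ A ∈ F, ∀ B ∈ F, A ≠ B → (A ∩ B).card ∈ ({0, 1, 2, 3, 4, 6} : Finset ℕ)) ∧
    c * (n : ℝ) ^ 6 ≤ F.card := by
  refine of_code (q := 3) (by norm_num) (by norm_num) (Finset.univ.image word) T T_inter T_card ?_ ?_
  · intro f hf g hg hfg
    rw [Finset.mem_image] at hf hg
    obtain ⟨u, _, rfl⟩ := hf
    obtain ⟨v, _, rfl⟩ := hg
    rw [T, Finset.mem_filter]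
    exact ⟨Finset.mem_univ _, word_cases' u v (fun h => hfg (by rw [h]))⟩
  · rw [Finset.card_image_of_injective _ word_inj]
    simp

end Pool.Agent.Helper138_LS.E12
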