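import Pool.Agent.Helper138_LS.PosProj

/-!
Nineteen points of the projective plane of order 11, an orbit of a subgroup of a Singer group: every line
contains 0, 1 or 3 of them. They form a Steiner triple system on 19 points.
-/

set_option autoImplicit false

open Finset

namespace Pool.Agent.Helper138_LS.E19

open Pool.Agent.H480R2.LS Pool.Agent.Helper138_LS

instance : Fact (Nat.Prime 11) := ⟨by norm_num⟩

/-- the coordinates -/
def c1 : Fin 19 → ZMod 11 := ![1, 0, 0, 1, 8, 3, 10, 4, 8, 6, 4, 4, 3, 4, 7, 2, 0, 6, 6]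
def c2 : Fin 19 → ZMod 11 := ![0, 1, 0, 5, 8, 1, 9, 8, 0, 5, 4, 2, 8, 1, 6, 6, 2, 8, 3]
def c3 : Fin 19 → ZMod 11 := ![0, 0, 1, 8, 3, 10, 4, 8, 6, 4, 4, 3, 4, 7, 2, 0, 6, 6, 1]

def ev (u : ZMod 11 × ZMod 11 × ZMod 11) (i : Fin 19) : ZMod 11 :=
  u.1 * c1 i + u.2.1 * c2 i + u.2.2 * c3 i

set_option maxRecDepth 100000 in
theorem zeros : ∀ a b c : ZMod 11, (a = 0 ∧ b = 0 ∧ c = 0) ∨
    (Finset.univ.filter fun i => ev (a, b, c) i = 0).card ≤ 1 ∨
    (Finset.univ.filter fun i => ev (a, b, c) i = 0).card = 3 := by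
  decide +kernel

set_option maxRecDepth 100000 in
theorem indep : ∀ i j : Fin 19, i ≠ j → ¬ (c2 i * c3 j - c3 i * c2 j = 0 ∧ c3 i * c1 j - c1 i * c3 j = 0 ∧
    c1 i * c2 j - c2 i * c1 j = 0) := by
  decide +kernel

theorem attained : ∃ c : ℝ, 0 < c ∧ ∀ n : ℕ, 19 ≤ n → ∃ F : Finset (Finset (Fin n)),
    (∀ A ∈ F, A.card = 19) ∧
    (∀ A ∈ F, ∀ B ∈ F, A ≠ B → (A ∩ B).card ∈ ({0, 1, 3} : Finset ℕ)) ∧
    c * (n : ℝ) ^ 3 ≤ F.card := by
  apply of_geom (P := Fin 19) (K := ZMod 11) (M := ZMod 11 × ZMod 11 × ZMod 11) (q := 11) (t := 1) (l := 3)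
    (Fintype.card_fin _) (ZMod.card 11) ?_ (by norm_num) (by norm_num) (by norm_num) ?_ ev ?_ ?_ ?_
  · rw [Fintype.card_prod, Fintype.card_prod, ZMod.card]; norm_num
  · intro i hi
    simp only [Finset.mem_insert, Finset.mem_singleton]
    omega
  · rintro ⟨a, b, c⟩ ⟨a', b', c'⟩ p
    simp only [ev, Prod.mk_sub_mk]
    ring
  · rintro ⟨a, b, c⟩ hu
    rcases zeros a b c with ⟨rfl, rfl, rfl⟩ | h
    · exact absurd rfl hu
    · exact h
  · intro u v hu hv hne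
    by_contra hcon
    push Not at hcon
    obtain ⟨p, hp, r, hr, hpr⟩ := Finset.one_lt_card.mp hcon
    rw [Finset.mem_inter, Finset.mem_filter, Finset.mem_filter] at hp hr
    apply hne
    have key : ∀ {u v : ZMod 11 × ZMod 11 × ZMod 11}, u ≠ 0 → ev u p = 0 → ev u r = 0 → ev v p = 0 →
        ev v r = 0 → ∀ s, ev u s = 0 → ev v s = 0 := by
      intro u v hu h1 h2 h3 h4 s hs
      refine lin3 ?_ (indep p r hpr) h1 h2 h3 h4 hs
      rintro ⟨e1, e2, e3⟩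
      exact hu (Prod.ext e1 (Prod.ext e2 e3))
    ext s
    rw [Finset.mem_filter, Finset.mem_filter]
    constructor
    · rintro ⟨_, h⟩
      exact ⟨Finset.mem_univ _, key hu hp.1.2 hr.1.2 hp.2.2 hr.2.2 s h⟩
    · rintro ⟨_, h⟩
      exact ⟨Finset.mem_univ _, key hv hp.2.2 hr.2.2 hp.1.2 hr.1.2 s h⟩

end Pool.Agent.Helper138_LS.E19
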