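import Pool.Agent.Helper138_LS.RelR

/-!
Rank functions of perfect matroid designs from intersection closed families.
-/

set_option autoImplicit false

open Finset

namespace Pool.Agent.Helper138_LS

open Pool.Agent.H480R2.LS

/-- rank functions of perfect matroid designs -/
structure PMD (k : ℕ) (L : Finset ℕ) (r : Finset (Fin k) → ℕ) : Prop where
  le_card : ∀ A, r A ≤ A.card
  mono : ∀ A B, A ⊆ B → r A ≤ r B
  submod : ∀ A B, r (A ∪ B) + r (A ∩ B) ≤ r A + r B
  rank : r Finset.univ = L.card
  flat : ∀ A, (∀ x, x ∉ A → r A < r (insert x A)) → r A < L.card →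
    A.card ∈ L ∧ (L.filter fun l => l < A.card).card = r A

section Closure

variable {k : ℕ} (T : Finset (Finset (Fin k))) (L : Finset ℕ)

/-- the closure -/
def clT (A : Finset (Fin k)) : Finset (Fin k) := Finset.univ.filter fun x => ∀ B ∈ T, A ⊆ B → x ∈ B

/-- the rank -/
def rkT (A : Finset (Fin k)) : ℕ := (L.filter fun l => l < (clT T A).card).card

variable {T L}

theorem mem_clT {A : Finset (Fin k)} {x : Fin k} : x ∈ clT T A ↔ ∀ B ∈ T, A ⊆ B → x ∈ B := by
  simp [clT]

theorem sub_clT (A : Finset (Fin k)) : A ⊆ clT T A := fun _ hx => mem_clT.mpr fun _ _ h => h hx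

theorem clT_le {A B : Finset (Fin k)} (hB : B ∈ T) (h : A ⊆ B) : clT T A ⊆ B :=
  fun _ hx => mem_clT.mp hx B hB h

theorem clT_mono {A B : Finset (Fin k)} (h : A ⊆ B) : clT T A ⊆ clT T B :=
  fun _ hx => mem_clT.mpr fun C hC h' => mem_clT.mp hx C hC (h.trans h')

theorem clT_idem {A B : Finset (Fin k)} (h : B ⊆ clT T A) : clT T B ⊆ clT T A :=
  fun _ hx => mem_clT.mpr fun _ hC h' => mem_clT.mp hx _ hC (h.trans (clT_le hC h'))

theorem clT_mem (hI : IC T) {A : Finset (Fin k)} (h : ∃ B ∈ T, A ⊆ B) : clT T A ∈ T := by
  obtain ⟨C, hC, h1, h2⟩ := cl_exists hI A h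
  have : clT T A = C := by
    apply Finset.Subset.antisymm (clT_le hC h1)
    intro x hx
    exact mem_clT.mpr fun B hB hAB => h2 B hB hAB hx
  rw [this]
  exact hC

theorem clT_univ {A : Finset (Fin k)} (h : ¬ ∃ B ∈ T, A ⊆ B) : clT T A = Finset.univ := by
  rw [Finset.eq_univ_iff_forall]
  intro x
  rw [mem_clT]
  intro B hB hAB
  exact absurd ⟨B, hB, hAB⟩ h

theorem rkT_mono {A B : Finset (Fin k)} (h : A ⊆ B) : rkT T L A ≤ rkT T L B := by
  apply Finset.card_le_card
  intro l hl
  rw [Finset.mem_filter] at hl ⊢
  exact ⟨hl.1, lt_of_lt_of_le hl.2 (Finset.card_le_card (clT_mono h))⟩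

theorem rkT_le (A : Finset (Fin k)) : rkT T L A ≤ L.card := Finset.card_filter_le _ _

theorem rkT_congr {A B : Finset (Fin k)} (h : clT T A = clT T B) : rkT T L A = rkT T L B := by
  rw [rkT, rkT, h]

variable (hI : IC T) (hT : ∀ A ∈ T, A.card ∈ L) (hL : L ⊆ Finset.range k)
include hI hT hL

theorem rkT_lt {A B : Finset (Fin k)} (h : clT T A ⊂ clT T B) : rkT T L A < rkT T L B := by
  have h1 : ∃ C ∈ T, A ⊆ C := by
    by_contra hcon
    have h2 := clT_univ hcon
    rw [h2] at h
    exact absurd (Finset.subset_univ _) h.2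
  have h2 := hT _ (clT_mem hI h1)
  apply Finset.card_lt_card
  rw [Finset.ssubset_iff_of_subset]
  · refine ⟨(clT T A).card, Finset.mem_filter.mpr ⟨h2, Finset.card_lt_card h⟩, ?_⟩
    rw [Finset.mem_filter]
    intro h3
    exact lt_irrefl _ h3.2
  · intro l hl
    rw [Finset.mem_filter] at hl ⊢
    exact ⟨hl.1, hl.2.trans (Finset.card_lt_card h)⟩

theorem rkT_top {A : Finset (Fin k)} : rkT T L A = L.card ↔ clT T A = Finset.univ := by
  constructor
  · intro h
    by_contra hcon
    have h1 : ∃ C ∈ T, A ⊆ C := by
      by_contra h1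
      exact hcon (clT_univ h1)
    have h2 := hT _ (clT_mem hI h1)
    have h3 : (L.filter fun l => l < (clT T A).card) = L := by
      apply Finset.eq_of_subset_of_card_le (Finset.filter_subset _ _)
      exact h.ge
    rw [← h3, Finset.mem_filter] at h2
    exact lt_irrefl _ h2.2
  · intro h
    rw [rkT, h, Finset.card_univ, Fintype.card_fin]
    congr 1
    rw [Finset.filter_eq_self]
    intro l hl
    exact Finset.mem_range.mp (hL hl)

theorem rkT_insert_lt {A : Finset (Fin k)} {x : Fin k} (hx : x ∉ clT T A) :
    rkT T L A < rkT T L (insert x A) := by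
  apply rkT_lt hI hT hL
  refine ⟨clT_mono (Finset.subset_insert _ _), fun h => hx (h (sub_clT _ (Finset.mem_insert_self _ _)))⟩

variable (hcov : ∀ X : Finset (Fin k), X.card ≤ L.card - 1 → ∃ A ∈ T, X ⊆ A)
include hcov

theorem rkT_le_of_card : ∀ d i, i + d = L.card → ∀ X : Finset (Fin k), X.card ≤ i → rkT T L X ≤ i := by
  intro d
  induction d with
  | zero =>
    intro i hi X _
    have := rkT_le (T := T) (L := L) X
    omega
  | succ d ih =>
    intro i hi X hX
    have h1 := clT_mem hI (hcov X (by omega))
    obtain ⟨z, hz⟩ : ∃ z, z ∉ clT T X := by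
      by_contra hcon
      push Not at hcon
      have h2 := hT _ h1
      rw [Finset.eq_univ_iff_forall.mpr hcon, Finset.card_univ, Fintype.card_fin] at h2
      have := Finset.mem_range.mp (hL h2)
      omega
    have h2 := ih (i + 1) (by omega) (insert z X) ((Finset.card_insert_le _ _).trans (by omega))
    have h3 := rkT_insert_lt hI hT hL hz
    omega

theorem rkT_le_card (X : Finset (Fin k)) : rkT T L X ≤ X.card := by
  rcases Nat.lt_or_ge X.card L.card with h | h
  · exact rkT_le_of_card hI hT hL hcov (L.card - X.card) X.card (by omega) X le_rfl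
  · exact (rkT_le X).trans h

theorem exists_basis (A : Finset (Fin k)) : ∃ X ⊆ A, X.card = rkT T L A ∧ clT T X = clT T A := by
  classical
  obtain ⟨X, hX, hmax⟩ := Finset.exists_max_image (A.powerset.filter fun X => rkT T L X = X.card) Finset.card
    ⟨∅, by
      rw [Finset.mem_filter, Finset.mem_powerset]
      refine ⟨Finset.empty_subset _, ?_⟩
      have := rkT_le_card hI hT hL hcov ∅
      rw [Finset.card_empty] at this ⊢
      omega⟩
  rw [Finset.mem_filter, Finset.mem_powerset] at hX
  have hcl : clT T X = clT T A := by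
    apply Finset.Subset.antisymm (clT_mono hX.1)
    apply clT_idem
    intro x hxA
    by_contra hx
    have h1 := rkT_insert_lt hI hT hL hx
    have h2 := rkT_le_card hI hT hL hcov (insert x X)
    have hxX : x ∉ X := fun h => hx (sub_clT _ h)
    rw [Finset.card_insert_of_notMem hxX] at h2
    have h3 := hmax (insert x X) (by
      rw [Finset.mem_filter, Finset.mem_powerset, Finset.card_insert_of_notMem hxX]
      exact ⟨Finset.insert_subset hxA hX.1, by omega⟩)
    rw [Finset.card_insert_of_notMem hxX] at h3
    omega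
  exact ⟨X, hX.1, by rw [← hX.2]; exact rkT_congr hcl, hcl⟩

theorem rkT_unit (A : Finset (Fin k)) (x : Fin k) : rkT T L (insert x A) ≤ rkT T L A + 1 := by
  classical
  obtain ⟨X, hX, hXc, hcl⟩ := exists_basis hI hT hL hcov A
  have h1 : clT T (insert x A) = clT T (insert x X) := by
    apply Finset.Subset.antisymm
    · apply clT_idem
      apply Finset.insert_subset (sub_clT _ (Finset.mem_insert_self _ _))
      calc A ⊆ clT T A := sub_clT _
        _ = clT T X := hcl.symm
        _ ⊆ _ := clT_mono (Finset.subset_insert _ _)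
    · exact clT_mono (Finset.insert_subset_insert _ hX)
  rw [rkT_congr h1]
  have h2 := rkT_le_card hI hT hL hcov (insert x X)
  have h3 := Finset.card_insert_le x X
  omega

theorem rkT_dim {A B : Finset (Fin k)} (h : A ⊆ B) (x : Fin k) :
    rkT T L (insert x B) + rkT T L A ≤ rkT T L (insert x A) + rkT T L B := by
  classical
  by_cases hx : x ∈ clT T A
  · have h1 : clT T (insert x B) = clT T B := by
      apply Finset.Subset.antisymm (clT_idem (Finset.insert_subset (clT_mono h hx) (sub_clT _)))
        (clT_mono (Finset.subset_insert _ _))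
    have h2 : clT T (insert x A) = clT T A := by
      apply Finset.Subset.antisymm (clT_idem (Finset.insert_subset hx (sub_clT _)))
        (clT_mono (Finset.subset_insert _ _))
    rw [rkT_congr h1, rkT_congr h2]
    omega
  · have h1 := rkT_insert_lt hI hT hL hx
    have h2 := rkT_unit hI hT hL hcov B x
    omega

theorem rkT_dim' {A B : Finset (Fin k)} (h : A ⊆ B) (D : Finset (Fin k)) :
    rkT T L (B ∪ D) + rkT T L A ≤ rkT T L (A ∪ D) + rkT T L B := by
  classical
  induction D using Finset.induction_on with
  | empty =>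
    rw [Finset.union_empty, Finset.union_empty]
    omega
  | insert x D _ ih =>
    have h1 := rkT_dim hI hT hL hcov (Finset.union_subset_union_left (t := D) h) x
    rw [Finset.union_insert, Finset.union_insert]
    omega

theorem rkT_pmd : PMD k L (rkT T L) where
  le_card := rkT_le_card hI hT hL hcov
  mono := fun A B h => rkT_mono h
  submod := by
    intro A B
    have h1 := rkT_dim' hI hT hL hcov (Finset.inter_subset_left (s₁ := A) (s₂ := B)) B
    have h2 : A ∩ B ∪ B = B := Finset.union_eq_right.mpr Finset.inter_subset_right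
    rw [h2] at h1
    omega
  rank := by
    rw [rkT_top hI hT hL]
    exact Finset.eq_univ_iff_forall.mpr fun x => sub_clT _ (Finset.mem_univ x)
  flat := by
    intro A hA hAs
    have h1 : clT T A = A := by
      apply Finset.Subset.antisymm _ (sub_clT _)
      intro x hx
      by_contra hxA
      have h2 : clT T (insert x A) = clT T A := by
        apply Finset.Subset.antisymm (clT_idem (Finset.insert_subset hx (sub_clT _)))
          (clT_mono (Finset.subset_insert _ _))
      have h3 := hA x hxA
      rw [rkT_congr (L := L) h2] at h3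
      exact lt_irrefl _ h3
    have h2 : ∃ B ∈ T, A ⊆ B := by
      by_contra hcon
      have := (rkT_top hI hT hL).mpr (clT_univ hcon)
      omega
    have h3 := hT _ (clT_mem hI h2)
    rw [h1] at h3
    refine ⟨h3, ?_⟩
    rw [rkT, h1]

theorem exists_cobasis (A : Finset (Fin k)) :
    ∃ Y : Finset (Fin k), Y.card + rkT T L A ≤ L.card ∧ clT T (A ∪ Y) = Finset.univ := by
  classical
  have key : ∀ d, ∀ A : Finset (Fin k), rkT T L A + d = L.card →
      ∃ Y : Finset (Fin k), Y.card ≤ d ∧ clT T (A ∪ Y) = Finset.univ := by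
    intro d
    induction d with
    | zero =>
      intro A hA
      refine ⟨∅, by simp, ?_⟩
      rw [Finset.union_empty]
      exact (rkT_top hI hT hL).mp (by omega)
    | succ d ih =>
      intro A hA
      obtain ⟨z, hz⟩ : ∃ z, z ∉ clT T A := by
        by_contra hcon
        push Not at hcon
        have := (rkT_top hI hT hL (A := A)).mpr (Finset.eq_univ_iff_forall.mpr hcon)
        omega
      have h1 := rkT_insert_lt hI hT hL hz
      have h2 := rkT_unit hI hT hL hcov A z
      obtain ⟨Y, hY, hY'⟩ := ih (insert z A) (by omega)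
      refine ⟨insert z Y, (Finset.card_insert_le _ _).trans (by omega), ?_⟩
      rw [Finset.union_insert, ← Finset.insert_union]
      exact hY'
  obtain ⟨Y, h1, h2⟩ := key (L.card - rkT T L A) A (by have := rkT_le (T := T) (L := L) A; omega)
  exact ⟨Y, by have := rkT_le (T := T) (L := L) A; omega, h2⟩

end Closure

end Pool.Agent.Helper138_LS
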