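import Pool.Agent.Helper138_LS.EA

/-!
Relations with few tuples missing give random tuples whose entropies are close to a rank function.
-/

set_option autoImplicit false

open Finset

namespace Pool.Agent.Helper138_LS

open Pool.Agent.H480R2.LS

/-- the entropy of the restriction to `A` of a random one among the tuples `X 0, …, X (N - 1)` -/
noncomputable def ent {k N : ℕ} (X : Fin N → Fin k → ℕ) (A : Finset (Fin k)) : ℝ :=
  (∑ w, Real.log (N / (Finset.univ.filter fun w' => ∀ i ∈ A, X w' i = X w i).card)) / N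

theorem sum_inv_fiber {α β : Type*} [DecidableEq β] (R : Finset α) (φ : α → β) :
    (∑ f ∈ R, (1 : ℝ) / (R.filter fun g => φ g = φ f).card) = (R.image φ).card := by
  classical
  rw [← Finset.sum_fiberwise_of_maps_to (t := R.image φ) (g := φ) (fun f hf => Finset.mem_image_of_mem φ hf)]
  have h1 : ∀ b ∈ R.image φ, (∑ f ∈ R.filter (fun g => φ g = b), (1 : ℝ) / (R.filter fun g => φ g = φ f).card) = 1 := by
    intro b hb
    rw [Finset.mem_image] at hb
    obtain ⟨f0, hf0, rfl⟩ := hb
    have h2 : ∀ f ∈ R.filter (fun g => φ g = φ f0), (1 : ℝ) / (R.filter fun g => φ g = φ f).card =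
        1 / (R.filter fun g => φ g = φ f0).card := by
      intro f hf
      rw [(Finset.mem_filter.mp hf).2]
    rw [Finset.sum_congr rfl h2, Finset.sum_const, nsmul_eq_mul]
    have h3 : ((R.filter fun g => φ g = φ f0).card : ℝ) ≠ 0 := by
      have : 0 < (R.filter fun g => φ g = φ f0).card :=
        Finset.card_pos.mpr ⟨f0, Finset.mem_filter.mpr ⟨hf0, rfl⟩⟩
      positivity
    field_simp
  rw [Finset.sum_congr rfl h1, Finset.sum_const, nsmul_eq_mul, mul_one]

theorem avg_log_le {α β : Type*} [DecidableEq β] (R : Finset α) (φ : α → β) (hR : R.Nonempty) {m : ℕ}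
    (hm : (R.image φ).card ≤ m) :
    (∑ f ∈ R, Real.log (R.card / (R.filter fun g => φ g = φ f).card)) / R.card ≤ Real.log m := by
  classical
  have hN : (0 : ℝ) < R.card := by exact_mod_cast Finset.card_pos.mpr hR
  have hm0 : (0 : ℝ) < m := by
    have := Finset.card_pos.mpr (hR.image φ)
    exact_mod_cast lt_of_lt_of_le this hm
  rw [div_le_iff₀ hN]
  have h1 : ∀ f ∈ R, Real.log (R.card / (R.filter fun g => φ g = φ f).card) ≤
      Real.log m - 1 + (R.card / m : ℝ) * (1 / (R.filter fun g => φ g = φ f).card) := by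
    intro f hf
    have hc0 : 0 < (R.filter fun g => φ g = φ f).card :=
      Finset.card_pos.mpr ⟨f, Finset.mem_filter.mpr ⟨hf, rfl⟩⟩
    have hc : (0 : ℝ) < (R.filter fun g => φ g = φ f).card := by exact_mod_cast hc0
    have h2 := Real.log_le_sub_one_of_pos (x := (R.card / m : ℝ) * (1 / (R.filter fun g => φ g = φ f).card))
      (by positivity)
    have h3 : Real.log ((R.card / m : ℝ) * (1 / (R.filter fun g => φ g = φ f).card)) =
        Real.log (R.card / (R.filter fun g => φ g = φ f).card) - Real.log m := by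
      rw [← Real.log_div (by positivity) (by positivity)]
      congr 1
      field_simp
    rw [h3] at h2
    linarith
  have h2 := Finset.sum_le_sum h1
  rw [Finset.sum_add_distrib, Finset.sum_const, nsmul_eq_mul, ← Finset.mul_sum, sum_inv_fiber] at h2
  have h3 : (R.card / m : ℝ) * (R.image φ).card ≤ R.card := by
    rw [div_mul_eq_mul_div, div_le_iff₀ hm0]
    have : ((R.image φ).card : ℝ) ≤ m := by exact_mod_cast hm
    nlinarith
  nlinarith

theorem le_avg_log {α : Type*} (R : Finset α) (c : α → ℕ) (hR : R.Nonempty) (hc : ∀ f ∈ R, 0 < c f) {K : ℕ}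
    (hK : ∀ f ∈ R, c f ≤ K) :
    Real.log R.card - Real.log K ≤ (∑ f ∈ R, Real.log (R.card / c f)) / R.card := by
  have hN : (0 : ℝ) < R.card := by exact_mod_cast Finset.card_pos.mpr hR
  rw [le_div_iff₀ hN]
  have h1 : ∀ f ∈ R, Real.log R.card - Real.log K ≤ Real.log (R.card / c f) := by
    intro f hf
    have h2 : (0 : ℝ) < c f := by exact_mod_cast hc f hf
    rw [Real.log_div hN.ne' h2.ne']
    have h3 := Real.log_le_log h2 (by exact_mod_cast hK f hf : (c f : ℝ) ≤ K)
    linarith
  have h2 := Finset.sum_le_sum h1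
  rw [Finset.sum_const, nsmul_eq_mul] at h2
  linarith

/-- an enumeration of the tuples of a relation -/
theorem exists_enum {k n : ℕ} (R : Finset (Fin k → Fin n)) : ∃ X : Fin R.card → Fin k → ℕ,
    ∀ A, ent X A = (∑ f ∈ R, Real.log (R.card / (R.filter fun g => ∀ i ∈ A, g i = f i).card)) / R.card := by
  classical
  refine ⟨fun w i => ((R.equivFin.symm w).1 i : ℕ), fun A => ?_⟩
  unfold ent
  congr 1
  rw [← Finset.sum_coe_sort R, ← Equiv.sum_comp R.equivFin.symm]
  apply Finset.sum_congr rfl
  intro w _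
  congr 2
  congr 1
  symm
  apply Finset.card_bij (fun g hg => R.equivFin ⟨g, (Finset.mem_filter.mp hg).1⟩)
  · intro g hg
    rw [Finset.mem_filter] at hg
    rw [Finset.mem_filter]
    refine ⟨Finset.mem_univ _, fun i hi => ?_⟩
    show ((R.equivFin.symm (R.equivFin ⟨g, _⟩)).1 i : ℕ) = ((R.equivFin.symm w).1 i : ℕ)
    rw [Equiv.symm_apply_apply, ← hg.2 i hi]
  · intro g hg g' hg' h
    have := R.equivFin.injective h
    exact congrArg Subtype.val this
  · intro w' hw'
    rw [Finset.mem_filter] at hw'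
    refine ⟨(R.equivFin.symm w').1, ?_, ?_⟩
    · rw [Finset.mem_filter]
      exact ⟨(R.equivFin.symm w').2, fun i hi => Fin.ext (hw'.2 i hi)⟩
    · simp

theorem ent_close {k n : ℕ} {L : Finset ℕ} {T : Finset (Finset (Fin k))} {R : Finset (Fin k → Fin n)}
    (hn : 1 ≤ n) (hI : IC T) (hT : ∀ A ∈ T, A.card ∈ L) (hL : L ⊆ Finset.range k)
    (hcov : ∀ X : Finset (Fin k), X.card ≤ L.card - 1 → ∃ A ∈ T, X ⊆ A) (hR : PatIn R T) (hne : R.Nonempty) :
    ∃ X : Fin R.card → Fin k → ℕ, ∀ A, |ent X A - Real.log n * rkT T L A| ≤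
      L.card * Real.log n - Real.log R.card := by
  classical
  have hlog : 0 ≤ Real.log n := Real.log_nonneg (by exact_mod_cast hn)
  -- tuples that agree on a set agree on its closure
  have hagr : ∀ f ∈ R, ∀ g ∈ R, ∀ A B : Finset (Fin k), B ⊆ clT T A → (∀ i ∈ A, f i = g i) → ∀ i ∈ B, f i = g i := by
    intro f hf g hg A B hB h i hi
    by_cases hfg : f = g
    · rw [hfg]
    have h1 := hR f hf g hg hfg
    exact mem_agr.mp (mem_clT.mp (hB hi) _ h1 fun j hj => mem_agr.mpr (h j hj))
  -- fibres are small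
  have hfib : ∀ A : Finset (Fin k), ∃ K : ℕ, K + rkT T L A ≤ L.card ∧
      ∀ f ∈ R, (R.filter fun g => ∀ i ∈ A, g i = f i).card ≤ n ^ K := by
    intro A
    obtain ⟨Y, hY, hYu⟩ := exists_cobasis hI hT hL hcov A
    refine ⟨Y.card, hY, fun f hf => ?_⟩
    have h1 : (R.filter fun g => ∀ i ∈ A, g i = f i).card ≤ Fintype.card (Y → Fin n) := by
      rw [← Finset.card_univ]
      apply Finset.card_le_card_of_injOn (fun g => fun i : Y => g i) (fun _ _ => Finset.mem_coe.mpr (Finset.mem_univ _))
      intro g hg g' hg' hgg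
      rw [Finset.mem_coe, Finset.mem_filter] at hg hg'
      funext i
      refine hagr g hg.1 g' hg'.1 (A ∪ Y) Finset.univ (by rw [hYu]) ?_ i (Finset.mem_univ _)
      intro j hj
      rcases Finset.mem_union.mp hj with hj | hj
      · rw [hg.2 j hj, hg'.2 j hj]
      · exact congrFun hgg ⟨j, hj⟩
    rwa [Fintype.card_fun, Fintype.card_fin, Fintype.card_coe] at h1
  have hpow : ∀ K : ℕ, Real.log ((n ^ K : ℕ) : ℝ) = K * Real.log n := by
    intro K
    rw [Nat.cast_pow, Real.log_pow]
  have hNpos : (0 : ℝ) < R.card := by exact_mod_cast Finset.card_pos.mpr hne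
  obtain ⟨X, hX⟩ := exists_enum R
  refine ⟨X, fun A => ?_⟩
  rw [hX A]
  have hδ : 0 ≤ L.card * Real.log n - Real.log R.card := by
    obtain ⟨K, hK, h1⟩ := hfib ∅
    obtain ⟨f, hf⟩ := hne
    have h2 := h1 f hf
    rw [Finset.filter_true_of_mem (fun g _ i hi => absurd hi (Finset.notMem_empty i))] at h2
    have h3 := Real.log_le_log hNpos (by exact_mod_cast h2 : (R.card : ℝ) ≤ ((n ^ K : ℕ) : ℝ))
    rw [hpow] at h3
    have h4 : (K : ℝ) ≤ L.card := by exact_mod_cast (show K ≤ L.card by omega)
    nlinarith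
  have hup : (∑ f ∈ R, Real.log (R.card / (R.filter fun g => ∀ i ∈ A, g i = f i).card)) / R.card ≤
      Real.log n * rkT T L A := by
    obtain ⟨B, hBA, hBc, hBcl⟩ := exists_basis hI hT hL hcov A
    have h1 := avg_log_le R (fun f => fun i : B => f i) hne (m := n ^ B.card) (by
      have h2 := Finset.card_le_univ (R.image fun f => fun i : B => f i)
      rwa [Fintype.card_fun, Fintype.card_fin, Fintype.card_coe] at h2)
    rw [hpow, hBc] at h1
    rw [mul_comm]
    refine le_trans (le_of_eq ?_) h1
    congr 1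
    apply Finset.sum_congr rfl
    intro f hf
    congr 4
    apply Finset.filter_congr
    intro g hg
    constructor
    · intro h
      funext i
      exact h i (hBA i.2)
    · intro h
      apply hagr g hg f hf B A (by rw [hBcl]; exact sub_clT A)
      intro i hi
      exact congrFun h ⟨i, hi⟩
  have hlow : Real.log R.card - (L.card - rkT T L A) * Real.log n ≤
      (∑ f ∈ R, Real.log (R.card / (R.filter fun g => ∀ i ∈ A, g i = f i).card)) / R.card := by
    obtain ⟨K, hK, h1⟩ := hfib A
    have h2 := le_avg_log R (fun f => (R.filter fun g => ∀ i ∈ A, g i = f i).card) hne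
      (fun f hf => Finset.card_pos.mpr ⟨f, Finset.mem_filter.mpr ⟨hf, fun _ _ => rfl⟩⟩) h1
    rw [hpow] at h2
    have h3 : (K : ℝ) ≤ L.card - rkT T L A := by
      have : (K : ℝ) + rkT T L A ≤ L.card := by exact_mod_cast hK
      linarith
    have h4 : (K : ℝ) * Real.log n ≤ (L.card - rkT T L A) * Real.log n := mul_le_mul_of_nonneg_right h3 hlog
    linarith
  rw [abs_le]
  constructor
  · nlinarith
  · linarith

end Pool.Agent.Helper138_LS
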