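import Pool.Agent.Helper138_LS.EB

/-!
Random tuples give relations, by permuting the coordinates of long sequences.
-/

set_option autoImplicit false

open Finset

namespace Pool.Agent.Helper138_LS

open Pool.Agent.H480R2.LS

theorem log_fact_lower (c : ℕ) : (c : ℝ) * Real.log c - c ≤ Real.log (c.factorial : ℝ) := by
  induction c with
  | zero => simp
  | succ c ih =>
    rw [Nat.factorial_succ, Nat.cast_mul, Real.log_mul (by positivity) (by positivity)]
    rcases Nat.eq_zero_or_pos c with rfl | hc
    · simp
    have hc' : (0 : ℝ) < c := by exact_mod_cast hc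
    have h1 : (c : ℝ) * (Real.log ((c + 1 : ℕ) : ℝ) - Real.log c) ≤ 1 := by
      rw [← Real.log_div (by positivity) hc'.ne']
      have h2 := Real.log_le_sub_one_of_pos (x := ((c + 1 : ℕ) : ℝ) / c) (by positivity)
      have h3 : ((c + 1 : ℕ) : ℝ) / c - 1 = 1 / c := by
        push_cast
        field_simp
        ring
      rw [h3] at h2
      calc (c : ℝ) * Real.log (((c + 1 : ℕ) : ℝ) / c) ≤ c * (1 / c) := mul_le_mul_of_nonneg_left h2 hc'.le
        _ = 1 := by field_simp
    push_cast at h1 ih ⊢
    linarith

theorem log_fact_upper (c : ℕ) (hc : 1 ≤ c) :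
    Real.log (c.factorial : ℝ) ≤ (c : ℝ) * Real.log c - c + 1 + Real.log c := by
  induction c, hc using Nat.le_induction with
  | base => simp
  | succ c hc ih =>
    rw [Nat.factorial_succ, Nat.cast_mul, Real.log_mul (by positivity) (by positivity)]
    have hc' : (0 : ℝ) < c := by exact_mod_cast hc
    have h1 : 1 ≤ ((c : ℝ) + 1) * (Real.log ((c + 1 : ℕ) : ℝ) - Real.log c) := by
      rw [← Real.log_div (by positivity) hc'.ne']
      have h2 := Real.one_sub_inv_le_log_of_pos (x := ((c + 1 : ℕ) : ℝ) / c) (by positivity)
      have h3 : 1 - (((c + 1 : ℕ) : ℝ) / c)⁻¹ = 1 / (c + 1) := by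
        push_cast
        field_simp
        ring
      rw [h3] at h2
      calc (1 : ℝ) = ((c : ℝ) + 1) * (1 / (c + 1)) := by field_simp
        _ ≤ _ := mul_le_mul_of_nonneg_left h2 (by positivity)
    push_cast at h1 ih ⊢
    nlinarith

/-- the number of permutations that preserve a function, up to lower order terms -/
theorem stab_close {Ω β : Type*} [Fintype Ω] [DecidableEq Ω] [Nonempty Ω] [DecidableEq β] (f : Ω → β) {m : ℕ}
    (hm : (Finset.univ.image f).card ≤ m) :
    |Real.log ((Fintype.card Ω).factorial : ℝ) - Real.log (Fintype.card {g : Equiv.Perm Ω // f ∘ g = f} : ℝ) -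
      ∑ w : Ω, Real.log (Fintype.card Ω / (Finset.univ.filter fun w' => f w' = f w).card)| ≤
      (m + 1) * (1 + Real.log (Fintype.card Ω)) := by
  classical
  set M := Fintype.card Ω with hM
  have hM1 : 1 ≤ M := Fintype.card_pos
  have hMpos : (0 : ℝ) < M := by exact_mod_cast hM1
  have hlogM : 0 ≤ Real.log M := Real.log_nonneg (by exact_mod_cast hM1)
  have hc : ∀ v ∈ Finset.univ.image f, 1 ≤ (Finset.univ.filter fun w' => f w' = v).card ∧
      (Finset.univ.filter fun w' => f w' = v).card ≤ M := by
    intro v hv
    rw [Finset.mem_image] at hv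
    obtain ⟨w, _, rfl⟩ := hv
    exact ⟨Finset.card_pos.mpr ⟨w, by simp⟩, Finset.card_le_univ _⟩
  have e1 : Real.log (Fintype.card {g : Equiv.Perm Ω // f ∘ g = f} : ℝ) =
      ∑ v ∈ Finset.univ.image f, Real.log ((Finset.univ.filter fun w' => f w' = v).card.factorial : ℝ) := by
    rw [DomMulAct.stabilizer_card', Nat.cast_prod, Real.log_prod (fun _ _ => by positivity)]
    apply Finset.sum_congr rfl
    intro v _
    rw [Fintype.card_subtype]
  have e2 : ∑ w : Ω, Real.log (M / (Finset.univ.filter fun w' => f w' = f w).card) =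
      ∑ v ∈ Finset.univ.image f, ((Finset.univ.filter fun w' => f w' = v).card : ℝ) *
        (Real.log M - Real.log (Finset.univ.filter fun w' => f w' = v).card) := by
    rw [← Finset.sum_fiberwise_of_maps_to (t := Finset.univ.image f) (g := f)
      (fun w _ => Finset.mem_image_of_mem f (Finset.mem_univ w))]
    apply Finset.sum_congr rfl
    intro v hv
    have h1 : ∀ w ∈ Finset.univ.filter (fun w' => f w' = v),
        Real.log (M / (Finset.univ.filter fun w' => f w' = f w).card) =
        Real.log M - Real.log (Finset.univ.filter fun w' => f w' = v).card := by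
      intro w hw
      rw [(Finset.mem_filter.mp hw).2]
      have := (hc v hv).1
      rw [Real.log_div hMpos.ne' (by positivity)]
    rw [Finset.sum_congr rfl h1, Finset.sum_const, nsmul_eq_mul]
  have e3 : ∑ v ∈ Finset.univ.image f, ((Finset.univ.filter fun w' => f w' = v).card : ℝ) = M := by
    rw [hM, ← Finset.card_univ, Finset.card_eq_sum_card_image f]
    push_cast
    rfl
  rw [e1, e2]
  have e4 : ∑ v ∈ Finset.univ.image f, ((Finset.univ.filter fun w' => f w' = v).card : ℝ) *
        (Real.log M - Real.log (Finset.univ.filter fun w' => f w' = v).card) =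
      M * Real.log M - ∑ v ∈ Finset.univ.image f, ((Finset.univ.filter fun w' => f w' = v).card : ℝ) *
        Real.log (Finset.univ.filter fun w' => f w' = v).card := by
    simp_rw [mul_sub]
    rw [Finset.sum_sub_distrib, ← Finset.sum_mul, e3]
  rw [e4]
  have f1 : ∑ v ∈ Finset.univ.image f, (((Finset.univ.filter fun w' => f w' = v).card : ℝ) *
        Real.log (Finset.univ.filter fun w' => f w' = v).card - (Finset.univ.filter fun w' => f w' = v).card) ≤
      ∑ v ∈ Finset.univ.image f, Real.log ((Finset.univ.filter fun w' => f w' = v).card.factorial : ℝ) :=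
    Finset.sum_le_sum fun v _ => log_fact_lower _
  have f2 : ∑ v ∈ Finset.univ.image f, Real.log ((Finset.univ.filter fun w' => f w' = v).card.factorial : ℝ) ≤
      ∑ v ∈ Finset.univ.image f, ((((Finset.univ.filter fun w' => f w' = v).card : ℝ) *
        Real.log (Finset.univ.filter fun w' => f w' = v).card - (Finset.univ.filter fun w' => f w' = v).card) +
        (1 + Real.log M)) := by
    apply Finset.sum_le_sum
    intro v hv
    have h1 := log_fact_upper _ (hc v hv).1
    have h2 := Real.log_le_log (by exact_mod_cast (hc v hv).1 :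
      (0 : ℝ) < (Finset.univ.filter fun w' => f w' = v).card) (by exact_mod_cast (hc v hv).2 :
      ((Finset.univ.filter fun w' => f w' = v).card : ℝ) ≤ M)
    linarith
  rw [Finset.sum_sub_distrib, e3] at f1
  rw [Finset.sum_add_distrib, Finset.sum_sub_distrib, e3, Finset.sum_const, nsmul_eq_mul] at f2
  have f3 : ((Finset.univ.image f).card : ℝ) * (1 + Real.log M) ≤ m * (1 + Real.log M) := by
    apply mul_le_mul_of_nonneg_right (by exact_mod_cast hm) (by linarith)
  have f4 := log_fact_lower M
  have f5 := log_fact_upper M hM1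
  have f6 : (0 : ℝ) ≤ m * (1 + Real.log M) := by positivity
  rw [abs_le]
  constructor
  · linarith
  · linarith

/-- selection of a popular class in each class -/
theorem select {G α β : Type*} [Fintype G] [DecidableEq α] [DecidableEq β] (f : G → α) (g : G → β)
    (hfg : ∀ x y, g x = g y → f x = f y) {Kf Kg : ℕ}
    (hKf : ∀ x, (Finset.univ.filter fun y => f y = f x).card ≤ Kf)
    (hKg : ∀ x, Kg ≤ (Finset.univ.filter fun y => g y = g x).card) (S : Finset G) :
    ∃ S' ⊆ S, Kg * S.card ≤ Kf * S'.card ∧ ∀ x ∈ S', ∀ y ∈ S', f x = f y → g x = g y := by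
  classical
  have hbest : ∀ a ∈ S.image f, ∃ b : β, ∀ b', (S.filter fun x => f x = a ∧ g x = b').card ≤
      (S.filter fun x => f x = a ∧ g x = b).card := by
    intro a ha
    rw [Finset.mem_image] at ha
    obtain ⟨x0, hx0, hx0a⟩ := ha
    obtain ⟨b, hb, hmax⟩ := Finset.exists_max_image (S.image g) (fun b => (S.filter fun x => f x = a ∧ g x = b).card)
      ⟨g x0, Finset.mem_image_of_mem g hx0⟩
    refine ⟨b, fun b' => ?_⟩
    by_cases hb' : b' ∈ S.image g
    · exact hmax b' hb'
    · have : (S.filter fun x => f x = a ∧ g x = b') = ∅ := by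
        rw [Finset.filter_eq_empty_iff]
        rintro x hx ⟨_, hxb⟩
        exact hb' (Finset.mem_image.mpr ⟨x, hx, hxb⟩)
      rw [this, Finset.card_empty]
      exact Nat.zero_le _
  rcases S.eq_empty_or_nonempty with rfl | ⟨x0, hx0⟩
  · exact ⟨∅, Finset.Subset.refl _, by simp, by simp⟩
  have : Nonempty β := ⟨g x0⟩
  choose! b hb using hbest
  refine ⟨S.filter fun x => g x = b (f x), Finset.filter_subset _ _, ?_, ?_⟩
  · have h1 : S.card = ∑ a ∈ S.image f, (S.filter fun x => f x = a).card := Finset.card_eq_sum_card_image f S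
    have h2 : (S.filter fun x => g x = b (f x)).card =
        ∑ a ∈ S.image f, (S.filter fun x => f x = a ∧ g x = b a).card := by
      rw [Finset.card_eq_sum_card_fiberwise (f := f) (t := S.image f)
        (fun x hx => Finset.mem_coe.mpr (Finset.mem_image_of_mem f (Finset.mem_filter.mp (Finset.mem_coe.mp hx)).1))]
      apply Finset.sum_congr rfl
      intro a _
      congr 1
      ext x
      rw [Finset.mem_filter, Finset.mem_filter, Finset.mem_filter]
      constructor
      · rintro ⟨⟨h1, h2⟩, h3⟩
        exact ⟨h1, h3, by rw [h2, h3]⟩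
      · rintro ⟨h1, h2, h3⟩
        exact ⟨⟨h1, by rw [h2, h3]⟩, h2⟩
    rw [h1, h2, Finset.mul_sum, Finset.mul_sum]
    apply Finset.sum_le_sum
    intro a ha
    set I := (S.filter fun x => f x = a).image g with hI
    have h3 : (S.filter fun x => f x = a).card ≤ I.card * (S.filter fun x => f x = a ∧ g x = b a).card := by
      rw [Finset.card_eq_sum_card_image g (S.filter fun x => f x = a), ← smul_eq_mul, ← Finset.sum_const]
      apply Finset.sum_le_sum
      intro b' _
      rw [Finset.filter_filter]
      exact hb a ha b'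
    have h4 : I.card * Kg ≤ Kf := by
      rw [Finset.mem_image] at ha
      obtain ⟨x1, hx1, rfl⟩ := ha
      calc I.card * Kg = ∑ _b' ∈ I, Kg := by rw [Finset.sum_const, smul_eq_mul]
        _ ≤ ∑ b' ∈ I, (Finset.univ.filter fun y => g y = b').card := by
            apply Finset.sum_le_sum
            intro b' hb'
            rw [hI, Finset.mem_image] at hb'
            obtain ⟨x, _, rfl⟩ := hb'
            exact hKg x
        _ = (I.biUnion fun b' => Finset.univ.filter fun y => g y = b').card := by
            rw [Finset.card_biUnion]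
            intro b1 _ b2 _ hb12
            rw [Function.onFun, Finset.disjoint_left]
            intro y hy1 hy2
            exact hb12 ((Finset.mem_filter.mp hy1).2.symm.trans (Finset.mem_filter.mp hy2).2)
        _ ≤ (Finset.univ.filter fun y => f y = f x1).card := by
            apply Finset.card_le_card
            intro y hy
            rw [Finset.mem_biUnion] at hy
            obtain ⟨b', hb', hy⟩ := hy
            rw [hI, Finset.mem_image] at hb'
            obtain ⟨x, hx, rfl⟩ := hb'
            rw [Finset.mem_filter] at hy ⊢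
            exact ⟨Finset.mem_univ _, (hfg _ _ hy.2).trans (Finset.mem_filter.mp hx).2⟩
        _ ≤ Kf := hKf x1
    calc Kg * (S.filter fun x => f x = a).card ≤ Kg * (I.card * (S.filter fun x => f x = a ∧ g x = b a).card) :=
          Nat.mul_le_mul_left _ h3
      _ = (I.card * Kg) * (S.filter fun x => f x = a ∧ g x = b a).card := by ring
      _ ≤ Kf * (S.filter fun x => f x = a ∧ g x = b a).card := Nat.mul_le_mul_right _ h4
  · intro x hx y hy hxy
    rw [(Finset.mem_filter.mp hx).2, (Finset.mem_filter.mp hy).2, hxy]

end Pool.Agent.Helper138_LS
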