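import Pool.Agent.Helper138_LS.EC

/-!
From random tuples with entropies close to the rank function of a perfect matroid design to relations.
-/

set_option autoImplicit false

open Finset

namespace Pool.Agent.Helper138_LS

open Pool.Agent.H480R2.LS

section PMDLemmas

variable {k : ℕ} {L : Finset ℕ} {r : Finset (Fin k) → ℕ}

/-- the closure of a set -/
def cr (r : Finset (Fin k) → ℕ) (A : Finset (Fin k)) : Finset (Fin k) :=
  Finset.univ.filter fun x => r (insert x A) = r A

theorem sub_cr (A : Finset (Fin k)) : A ⊆ cr r A := by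
  intro x hx
  rw [cr, Finset.mem_filter, Finset.insert_eq_of_mem hx]
  exact ⟨Finset.mem_univ _, rfl⟩

theorem PMD.cr_rank (h : PMD k L r) (A : Finset (Fin k)) : r (cr r A) = r A := by
  classical
  have key : ∀ D : Finset (Fin k), D ⊆ cr r A → r (A ∪ D) = r A := by
    intro D
    induction D using Finset.induction_on with
    | empty => intro _; rw [Finset.union_empty]
    | insert x D _ ih =>
      intro hD
      have h1 := ih ((Finset.subset_insert _ _).trans hD)
      have h2 : r (insert x A) = r A := (Finset.mem_filter.mp (hD (Finset.mem_insert_self _ _))).2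
      have h3 := h.submod (A ∪ D) (insert x A)
      have h4 : A ∪ D ∪ insert x A = A ∪ insert x D := by
        ext y
        simp only [Finset.mem_union, Finset.mem_insert]
        tauto
      have h5 : A ⊆ (A ∪ D) ∩ insert x A :=
        Finset.subset_inter Finset.subset_union_left (Finset.subset_insert _ _)
      have h6 := h.mono _ _ h5
      have h7 := h.mono A (A ∪ insert x D) Finset.subset_union_left
      rw [h4] at h3
      omega
  have h1 := key (cr r A) (Finset.Subset.refl _)
  rwa [Finset.union_eq_right.mpr (sub_cr A)] at h1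

/-- the proper closed sets -/
def FT (r : Finset (Fin k) → ℕ) : Finset (Finset (Fin k)) :=
  Finset.univ.filter fun A => A ≠ Finset.univ ∧ ∀ x, x ∉ A → r A < r (insert x A)

theorem PMD.card_mem (h : PMD k L r) : ∀ A ∈ FT r, A.card ∈ L := by
  intro A hA
  rw [FT, Finset.mem_filter] at hA
  obtain ⟨_, h1, h2⟩ := hA
  refine (h.flat A h2 ?_).1
  obtain ⟨x, hx⟩ : ∃ x, x ∉ A := by
    by_contra hcon
    push Not at hcon
    exact h1 (Finset.eq_univ_iff_forall.mpr hcon)
  have h3 := h2 x hx
  have h4 := h.mono (insert x A) Finset.univ (Finset.subset_univ _)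
  rw [h.rank] at h4
  omega

theorem PMD.ic (h : PMD k L r) : IC (FT r) := by
  classical
  have key : ∀ A B : Finset (Fin k), A ∈ FT r → ∀ x, x ∉ A → r (A ∩ B) < r (insert x (A ∩ B)) := by
    intro A B hA x hx
    rw [FT, Finset.mem_filter] at hA
    have h1 := hA.2.2 x hx
    have h2 := h.submod (insert x (A ∩ B)) A
    have h3 : insert x (A ∩ B) ∪ A = insert x A := by
      ext y
      simp only [Finset.mem_union, Finset.mem_insert, Finset.mem_inter]
      tauto
    have h4 := h.mono (A ∩ B) (insert x (A ∩ B) ∩ A)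
      (Finset.subset_inter (Finset.subset_insert _ _) Finset.inter_subset_left)
    rw [h3] at h2
    omega
  intro A hA B hB
  rw [FT, Finset.mem_filter]
  refine ⟨Finset.mem_univ _, ?_, ?_⟩
  · intro hu
    have hA' := (Finset.mem_filter.mp hA).2.1
    apply hA'
    rw [← Finset.univ_subset_iff, ← hu]
    exact Finset.inter_subset_left
  · intro x hx
    rw [Finset.mem_inter, not_and_or] at hx
    rcases hx with hx | hx
    · exact key A B hA x hx
    · rw [Finset.inter_comm]
      exact key B A hB x hx

end PMDLemmas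

section Build

variable {Ω : Type} [Fintype Ω] [DecidableEq Ω] {k : ℕ} (Y : Ω → Fin k → ℕ)

/-- restriction -/
def rst (A : Finset (Fin k)) (w : Ω) : A → ℕ := fun i => Y w i

variable {Y}

theorem rst_comp {A : Finset (Fin k)} {σ τ : Ω → Ω} :
    rst Y A ∘ σ = rst Y A ∘ τ ↔ ∀ i ∈ A, ∀ w, Y (σ w) i = Y (τ w) i := by
  constructor
  · intro h i hi w
    exact congrFun (congrFun h w) ⟨i, hi⟩
  · intro h
    funext w i
    exact h i i.2 w

variable (Y)

/-- the number of permutations that preserve the restriction to `A` -/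
noncomputable def Kst (A : Finset (Fin k)) : ℕ := by
  classical
  exact Fintype.card {g : Equiv.Perm Ω // rst Y A ∘ g = rst Y A}

theorem fiber_card (A : Finset (Fin k)) (σ : Equiv.Perm Ω) :
    (by classical exact (Finset.univ.filter fun τ : Equiv.Perm Ω => rst Y A ∘ τ = rst Y A ∘ σ).card) = Kst Y A := by
  classical
  unfold Kst
  rw [Fintype.card_subtype]
  apply Finset.card_bij (fun τ _ => τ * σ⁻¹)
  · intro τ hτ
    rw [Finset.mem_filter] at hτ ⊢
    refine ⟨Finset.mem_univ _, ?_⟩
    funext w
    have := congrFun hτ.2 (σ⁻¹ w)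
    simpa using this
  · intro τ _ τ' _ h
    exact mul_right_cancel h
  · intro g hg
    rw [Finset.mem_filter] at hg
    refine ⟨g * σ, ?_, by group⟩
    rw [Finset.mem_filter]
    refine ⟨Finset.mem_univ _, ?_⟩
    funext w
    have := congrFun hg.2 (σ w)
    simpa using this

theorem Kst_pos (A : Finset (Fin k)) : 0 < Kst Y A := by
  classical
  unfold Kst
  exact Fintype.card_pos_iff.mpr ⟨⟨1, by funext w; simp⟩⟩

theorem select_all (c : Finset (Fin k) → Finset (Fin k)) (hc : ∀ A, A ⊆ c A) (F : Finset (Finset (Fin k))) :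
    ∃ S : Finset (Equiv.Perm Ω), S.Nonempty ∧
      Real.log ((Fintype.card Ω).factorial : ℝ) - ∑ A ∈ F, (Real.log (Kst Y A) - Real.log (Kst Y (c A))) ≤
        Real.log S.card ∧
      ∀ A ∈ F, ∀ σ ∈ S, ∀ τ ∈ S, rst Y A ∘ σ = rst Y A ∘ τ → rst Y (c A) ∘ σ = rst Y (c A) ∘ τ := by
  classical
  induction F using Finset.induction_on with
  | empty =>
    refine ⟨Finset.univ, ⟨1, Finset.mem_univ _⟩, ?_, by simp⟩
    rw [Finset.card_univ, Fintype.card_perm]
    simp
  | insert A F hA ih =>
    obtain ⟨S, hS, h1, h2⟩ := ih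
    obtain ⟨S', hS', h3, h4⟩ := select (fun σ : Equiv.Perm Ω => rst Y A ∘ σ) (fun σ : Equiv.Perm Ω => rst Y (c A) ∘ σ)
      (fun σ τ h => by
        rw [rst_comp] at h ⊢
        exact fun i hi w => h i (hc A hi) w)
      (Kf := Kst Y A) (Kg := Kst Y (c A))
      (fun σ => by
        have := fiber_card Y A σ
        convert this.le using 1)
      (fun σ => by
        have := fiber_card Y (c A) σ
        convert this.ge using 1) S
    have hpos : 0 < S'.card := by
      by_contra hcon
      have e : S'.card = 0 := by omega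
      rw [e, Nat.mul_zero] at h3
      have h5 := Nat.mul_pos (Kst_pos Y (c A)) (Finset.card_pos.mpr hS)
      omega
    refine ⟨S', Finset.card_pos.mp hpos, ?_, ?_⟩
    · rw [Finset.sum_insert hA]
      have h5 : ((Kst Y (c A) : ℝ)) * S.card ≤ Kst Y A * S'.card := by exact_mod_cast h3
      have k1 : (0 : ℝ) < Kst Y (c A) := by exact_mod_cast Kst_pos Y (c A)
      have k2 : (0 : ℝ) < Kst Y A := by exact_mod_cast Kst_pos Y A
      have k3 : (0 : ℝ) < S.card := by exact_mod_cast Finset.card_pos.mpr hS
      have k4 : (0 : ℝ) < S'.card := by exact_mod_cast hpos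
      have h6 := Real.log_le_log (by positivity) h5
      rw [Real.log_mul k1.ne' k3.ne', Real.log_mul k2.ne' k4.ne'] at h6
      linarith
    · intro B hB σ hσ τ hτ h
      rw [Finset.mem_insert] at hB
      rcases hB with rfl | hB
      · exact h4 σ hσ τ hτ h
      · exact h2 B hB σ (hS' hσ) τ (hS' hτ) h

/-- the entropy of the restriction, times the number of points -/
noncomputable def En (A : Finset (Fin k)) : ℝ := by
  classical
  exact ∑ w : Ω, Real.log (Fintype.card Ω / (Finset.univ.filter fun w' => ∀ i ∈ A, Y w' i = Y w i).card)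

theorem Kst_close [Nonempty Ω] (A : Finset (Fin k)) {m : ℕ}
    (hm : (by classical exact (Finset.univ.image (rst Y A)).card) ≤ m) :
    |Real.log ((Fintype.card Ω).factorial : ℝ) - Real.log (Kst Y A) - En Y A| ≤
      (m + 1) * (1 + Real.log (Fintype.card Ω)) := by
  classical
  have h := stab_close (rst Y A) hm
  have e : En Y A = ∑ w : Ω, Real.log (Fintype.card Ω /
      (Finset.univ.filter fun w' => rst Y A w' = rst Y A w).card) := by
    unfold En
    apply Finset.sum_congr rfl
    intro w _
    congr 4
    apply Finset.filter_congr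
    intro w' _
    constructor
    · intro h
      funext i
      exact h i i.2
    · intro h i hi
      exact congrFun h ⟨i, hi⟩
  rw [e]
  unfold Kst
  convert h using 1

theorem build [Nonempty Ω] {L : Finset ℕ} {r : Finset (Fin k) → ℕ} (hr : PMD k L r) (hk : 1 ≤ k)
    {m : ℕ} (hm : ∀ A, (by classical exact (Finset.univ.image (rst Y A)).card) ≤ m) {t u : ℝ} (ht : 0 ≤ t)
    (hE : ∀ A, |En Y A - t * r A| ≤ u) {η : ℝ} (hη : (m + 1) * (1 + Real.log (Fintype.card Ω)) = η) :
    ∃ (n : ℕ) (R : Finset (Fin k → Fin n)) (T : Finset (Finset (Fin k))), 2 ≤ n ∧ IC T ∧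
      (∀ A ∈ T, A.card ∈ L) ∧ PatIn R T ∧ 1 ≤ R.card ∧
      t * L.card - (1 + 2 ^ (k + 1)) * (u + η) ≤ Real.log R.card ∧
      Real.log n ≤ Real.log 2 + Real.log k + t + u + η := by
  classical
  have hKc : ∀ A, |Real.log ((Fintype.card Ω).factorial : ℝ) - Real.log (Kst Y A) - En Y A| ≤ η := by
    intro A
    rw [← hη]
    exact Kst_close Y A (hm A)
  obtain ⟨S, hSne, hS, hSc⟩ := select_all Y (cr r) (fun A => sub_cr A) Finset.univ
  have hval : ∀ A, |En Y A - t * r A| ≤ u := hE
  -- the values
  set val : Equiv.Perm Ω → Fin k → (Ω → ℕ) := fun σ i w => Y (σ w) i with hvaldef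
  set V : Finset (Ω → ℕ) := (Finset.univ : Finset (Fin k)).biUnion fun i => Finset.univ.image fun σ => val σ i
    with hV
  have hmemV : ∀ σ i, val σ i ∈ V := by
    intro σ i
    rw [hV, Finset.mem_biUnion]
    exact ⟨i, Finset.mem_univ _, Finset.mem_image_of_mem _ (Finset.mem_univ _)⟩
  set e : (Ω → ℕ) → Fin (V.card + 1) := fun x => if h : x ∈ V then (V.equivFin ⟨x, h⟩).castSucc else Fin.last _
    with he
  have heinj : ∀ x ∈ V, ∀ y ∈ V, e x = e y → x = y := by
    intro x hx y hy hxy
    rw [he] at hxy
    simp only [dif_pos hx, dif_pos hy] at hxy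
    have h1 := V.equivFin.injective (Fin.castSucc_injective _ hxy)
    exact congrArg Subtype.val h1
  set Fm : Equiv.Perm Ω → Fin k → Fin (V.card + 1) := fun σ i => e (val σ i) with hFm
  have hagr : ∀ σ τ : Equiv.Perm Ω, ∀ A : Finset (Fin k), (∀ i ∈ A, Fm σ i = Fm τ i) ↔
      rst Y A ∘ σ = rst Y A ∘ τ := by
    intro σ τ A
    rw [rst_comp]
    constructor
    · intro h i hi w
      exact congrFun (heinj _ (hmemV σ i) _ (hmemV τ i) (h i hi)) w
    · intro h i hi
      show e (val σ i) = e (val τ i)
      have : val σ i = val τ i := by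
        funext w
        exact h i hi w
      rw [this]
  have hVpos : 1 ≤ V.card := Finset.card_pos.mpr ⟨_, hmemV 1 ⟨0, hk⟩⟩
  refine ⟨V.card + 1, S.image Fm, FT r, by omega, hr.ic, hr.card_mem, ?_, ?_, ?_, ?_⟩
  · intro f hf g hg hfg
    rw [Finset.mem_image] at hf hg
    obtain ⟨σ, hσ, rfl⟩ := hf
    obtain ⟨τ, hτ, rfl⟩ := hg
    rw [FT, Finset.mem_filter]
    refine ⟨Finset.mem_univ _, agr_ne_univ hfg, fun x hx => ?_⟩
    by_contra hcon
    have h1 : x ∈ cr r (agr (Fm σ) (Fm τ)) := by
      rw [cr, Finset.mem_filter]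
      have := hr.mono _ _ (Finset.subset_insert x (agr (Fm σ) (Fm τ)))
      exact ⟨Finset.mem_univ _, by omega⟩
    have h2 := hSc _ (Finset.mem_univ _) σ hσ τ hτ ((hagr σ τ _).mp fun i hi => mem_agr.mp hi)
    have h3 := (hagr σ τ _).mpr h2 x h1
    exact hx (mem_agr.mpr h3)
  · exact Finset.card_pos.mpr (hSne.image _)
  · -- the number of tuples
    have h1 : S.card ≤ Kst Y Finset.univ * (S.image Fm).card := by
      apply Finset.card_le_mul_card_image
      intro a ha
      rw [Finset.mem_image] at ha
      obtain ⟨τ, hτ, rfl⟩ := ha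
      rw [← fiber_card Y Finset.univ τ]
      apply Finset.card_le_card
      intro σ hσ
      rw [Finset.mem_filter] at hσ ⊢
      refine ⟨Finset.mem_univ _, (hagr σ τ _).mp fun i _ => ?_⟩
      rw [hσ.2]
    have k1 : (0 : ℝ) < Kst Y Finset.univ := by exact_mod_cast Kst_pos Y Finset.univ
    have k3 : (0 : ℝ) < S.card := by exact_mod_cast Finset.card_pos.mpr hSne
    have k4 : (0 : ℝ) < (S.image Fm).card := by exact_mod_cast Finset.card_pos.mpr (hSne.image _)
    have h2 := Real.log_le_log k3 (by exact_mod_cast h1 : (S.card : ℝ) ≤ Kst Y Finset.univ * (S.image Fm).card)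
    rw [Real.log_mul k1.ne' k4.ne'] at h2
    have h3 : ∀ A, Real.log (Kst Y A) - Real.log (Kst Y (cr r A)) ≤ 2 * (u + η) := by
      intro A
      have a1 := abs_le.mp (hKc A)
      have a2 := abs_le.mp (hKc (cr r A))
      have a3 := abs_le.mp (hval A)
      have a4 := abs_le.mp (hval (cr r A))
      rw [hr.cr_rank A] at a4
      linarith
    have h4 : ∑ A : Finset (Fin k), (Real.log (Kst Y A) - Real.log (Kst Y (cr r A))) ≤ 2 ^ (k + 1) * (u + η) := by
      refine (Finset.sum_le_sum fun A _ => h3 A).trans (le_of_eq ?_)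
      rw [Finset.sum_const, Finset.card_univ, Fintype.card_finset, Fintype.card_fin, nsmul_eq_mul]
      push_cast
      ring
    have a1 := abs_le.mp (hKc Finset.univ)
    have a2 := abs_le.mp (hval Finset.univ)
    rw [hr.rank] at a2
    linarith
  · -- the number of values
    have h1 : ∀ i : Fin k, ((Finset.univ.image fun σ => val σ i).card : ℝ) ≤ Real.exp (t + u + η) := by
      intro i
      have h2 : Kst Y {i} * (Finset.univ.image fun σ => val σ i).card ≤ (Finset.univ : Finset (Equiv.Perm Ω)).card := by
        apply Finset.mul_card_image_le_card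
        intro a ha
        rw [Finset.mem_image] at ha
        obtain ⟨τ, _, rfl⟩ := ha
        rw [← fiber_card Y {i} τ]
        apply Finset.card_le_card
        intro σ hσ
        rw [Finset.mem_filter] at hσ ⊢
        refine ⟨Finset.mem_univ _, ?_⟩
        funext w
        exact (rst_comp.mp hσ.2) i (Finset.mem_singleton_self _) w
      rw [Finset.card_univ, Fintype.card_perm] at h2
      have k1 : (0 : ℝ) < Kst Y {i} := by exact_mod_cast Kst_pos Y {i}
      have k2 : (0 : ℝ) < (Finset.univ.image fun σ => val σ i).card := by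
        have : 0 < (Finset.univ.image fun σ => val σ i).card :=
          Finset.card_pos.mpr ⟨_, Finset.mem_image_of_mem _ (Finset.mem_univ 1)⟩
        exact_mod_cast this
      have h3 := Real.log_le_log (by positivity) (by exact_mod_cast h2 :
        (Kst Y {i} : ℝ) * (Finset.univ.image fun σ => val σ i).card ≤ (Fintype.card Ω).factorial)
      rw [Real.log_mul k1.ne' k2.ne'] at h3
      have a1 := abs_le.mp (hKc {i})
      have a2 := abs_le.mp (hval {i})
      have a3 : (r {i} : ℝ) ≤ 1 := by
        have := hr.le_card {i}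
        rw [Finset.card_singleton] at this
        exact_mod_cast this
      have a4 : t * r {i} ≤ t := by nlinarith
      rw [← Real.log_le_iff_le_exp k2]
      linarith
    have h2 : (V.card : ℝ) ≤ k * Real.exp (t + u + η) := by
      have h3 : V.card ≤ ∑ i : Fin k, (Finset.univ.image fun σ => val σ i).card := Finset.card_biUnion_le
      have h4 : (V.card : ℝ) ≤ ∑ i : Fin k, ((Finset.univ.image fun σ => val σ i).card : ℝ) := by exact_mod_cast h3
      refine h4.trans ((Finset.sum_le_sum fun i _ => h1 i).trans (le_of_eq ?_))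
      rw [Finset.sum_const, Finset.card_univ, Fintype.card_fin, nsmul_eq_mul]
    have hk' : (0 : ℝ) < k := by exact_mod_cast hk
    have h3 : ((V.card + 1 : ℕ) : ℝ) ≤ 2 * (k * Real.exp (t + u + η)) := by
      have : (1 : ℝ) ≤ V.card := by exact_mod_cast hVpos
      push_cast
      linarith
    have h4 := Real.log_le_log (by positivity) h3
    rw [Real.log_mul (by norm_num) (by positivity), Real.log_mul hk'.ne' (Real.exp_pos _).ne', Real.log_exp] at h4
    linarith

end Build

end Pool.Agent.Helper138_LS
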