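import Pool.Agent.Helper138_LS.ED

/-!
The exponent of `m(n,k,L)` is `|L|` if and only if some perfect matroid design is almost entropic.
-/

set_option autoImplicit false

open Finset

namespace Pool.Agent.Helper138_LS

open Pool.Agent.H480R2.LS

/-- the Shannon entropy of the restriction to `A` of the random tuple equal to `X w` with probability `p w` -/
noncomputable def shan {k N : ℕ} (p : Fin N → ℝ) (X : Fin N → Fin k → ℕ) (A : Finset (Fin k)) : ℝ :=
  ∑ v ∈ Finset.univ.image (fun w => fun i : A => X w i),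
    Real.negMulLog (∑ w ∈ Finset.univ.filter (fun w => (fun i : A => X w i) = v), p w)

/-- almost entropic rank functions -/
def AlmEnt {k : ℕ} (r : Finset (Fin k) → ℕ) : Prop :=
  ∀ ε : ℝ, 0 < ε → ∃ t : ℝ, 0 < t ∧ ∃ (N : ℕ) (p : Fin N → ℝ) (X : Fin N → Fin k → ℕ),
    (∀ w, 0 ≤ p w) ∧ ∑ w, p w = 1 ∧ ∀ A, |shan p X A - t * r A| ≤ ε * t

theorem shan_unif {k N : ℕ} (hN : 0 < N) (X : Fin N → Fin k → ℕ) (A : Finset (Fin k)) :
    shan (fun _ => (1 : ℝ) / N) X A = ent X A := by
  classical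
  have hN' : (0 : ℝ) < N := by exact_mod_cast hN
  unfold shan ent
  rw [← Finset.sum_fiberwise_of_maps_to (t := Finset.univ.image (fun w => fun i : A => X w i))
    (g := fun w => fun i : A => X w i) (fun w _ => Finset.mem_image_of_mem _ (Finset.mem_univ w)), Finset.sum_div]
  apply Finset.sum_congr rfl
  intro v hv
  rw [Finset.mem_image] at hv
  obtain ⟨w0, _, hw0⟩ := hv
  set C := Finset.univ.filter (fun w => (fun i : A => X w i) = v) with hC
  have hCpos : (0 : ℝ) < C.card := by
    have : 0 < C.card := Finset.card_pos.mpr ⟨w0, Finset.mem_filter.mpr ⟨Finset.mem_univ _, hw0⟩⟩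
    exact_mod_cast this
  have h1 : ∀ w ∈ C, Real.log (N / (Finset.univ.filter fun w' => ∀ i ∈ A, X w' i = X w i).card) =
      Real.log (N / C.card) := by
    intro w hw
    rw [hC, Finset.mem_filter] at hw
    congr 3
    rw [hC]
    congr 1
    apply Finset.filter_congr
    intro w' _
    rw [← hw.2]
    constructor
    · intro h
      funext i
      exact h i i.2
    · intro h i hi
      exact congrFun h ⟨i, hi⟩
  rw [Finset.sum_congr rfl h1, Finset.sum_const, Finset.sum_const, nsmul_eq_mul, nsmul_eq_mul]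
  unfold Real.negMulLog
  have h2 : (C.card : ℝ) * (1 / N) = (N / C.card : ℝ)⁻¹ := by
    rw [inv_div]
    ring
  rw [h2, Real.log_inv, inv_div]
  ring

theorem shan_En {k N : ℕ} (m : Fin N → ℕ) (hm : 0 < ∑ w, m w) (X : Fin N → Fin k → ℕ) (A : Finset (Fin k)) :
    En (Ω := (w : Fin N) × Fin (m w)) (fun w => X w.1) A =
      (∑ w, m w : ℕ) * shan (fun w => (m w : ℝ) / (∑ w, m w : ℕ)) X A := by
  classical
  set M := ∑ w, m w with hM
  have hM' : (0 : ℝ) < M := by exact_mod_cast hm
  unfold En shan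
  have hcard : Fintype.card ((w : Fin N) × Fin (m w)) = M := by
    rw [Fintype.card_sigma]
    simp [hM]
  rw [hcard]
  have h1 : ∀ w : (w : Fin N) × Fin (m w),
      (Finset.univ.filter fun w' : (w : Fin N) × Fin (m w) => ∀ i ∈ A, X w'.1 i = X w.1 i).card =
      ∑ w' ∈ Finset.univ.filter (fun w' => (fun i : A => X w' i) = fun i : A => X w.1 i), m w' := by
    intro w
    have : (Finset.univ.filter fun w' : (w : Fin N) × Fin (m w) => ∀ i ∈ A, X w'.1 i = X w.1 i) =
        (Finset.univ.filter (fun w' => (fun i : A => X w' i) = fun i : A => X w.1 i)).sigma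
          fun w' => (Finset.univ : Finset (Fin (m w'))) := by
      ext w'
      rw [Finset.mem_filter, Finset.mem_sigma, Finset.mem_filter]
      constructor
      · rintro ⟨_, h⟩
        exact ⟨⟨Finset.mem_univ _, funext fun i => h i i.2⟩, Finset.mem_univ _⟩
      · rintro ⟨⟨_, h⟩, _⟩
        exact ⟨Finset.mem_univ _, fun i hi => congrFun h ⟨i, hi⟩⟩
    rw [this, Finset.card_sigma]
    simp
  simp_rw [h1]
  rw [Fintype.sum_sigma]
  simp only [Finset.sum_const, Finset.card_univ, Fintype.card_fin, nsmul_eq_mul]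
  rw [← Finset.sum_fiberwise_of_maps_to (t := Finset.univ.image (fun w => fun i : A => X w i))
    (g := fun w => fun i : A => X w i) (fun w _ => Finset.mem_image_of_mem _ (Finset.mem_univ w)), Finset.mul_sum]
  apply Finset.sum_congr rfl
  intro v _
  set C := Finset.univ.filter (fun w => (fun i : A => X w i) = v) with hC
  have h2 : ∀ w ∈ C, (m w : ℝ) * Real.log (M / ((∑ w' ∈ Finset.univ.filter
      (fun w' => (fun i : A => X w' i) = fun i : A => X w i), m w' : ℕ) : ℝ)) =
      m w * Real.log (M / ((∑ w' ∈ C, m w' : ℕ) : ℝ)) := by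
    intro w hw
    rw [hC, Finset.mem_filter] at hw
    rw [hw.2]
  rw [Finset.sum_congr rfl h2, ← Finset.sum_mul, ← Finset.sum_div]
  unfold Real.negMulLog
  have h3 : (∑ w ∈ C, (m w : ℝ)) = ((∑ w ∈ C, m w : ℕ) : ℝ) := by push_cast; rfl
  rw [h3]
  have h4 : Real.log (((∑ w ∈ C, m w : ℕ) : ℝ) / M) = - Real.log (M / ((∑ w ∈ C, m w : ℕ) : ℝ)) := by
    rw [← Real.log_inv, inv_div]
  rw [h4]
  field_simp

theorem shan_tendsto {k N : ℕ} (p : Fin N → ℝ) (hp : ∀ w, 0 ≤ p w) (hp1 : ∑ w, p w = 1)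
    (X : Fin N → Fin k → ℕ) (A : Finset (Fin k)) :
    Filter.Tendsto (fun M : ℕ => shan (fun w => (⌊p w * M⌋₊ : ℝ) / (∑ w, ⌊p w * M⌋₊ : ℕ)) X A) Filter.atTop
      (nhds (shan p X A)) := by
  have h1 : ∀ w, Filter.Tendsto (fun M : ℕ => (⌊p w * M⌋₊ : ℝ) / M) Filter.atTop (nhds (p w)) := by
    intro w
    exact (tendsto_nat_floor_mul_div_atTop (hp w)).comp tendsto_natCast_atTop_atTop
  have h2 : Filter.Tendsto (fun M : ℕ => ((∑ w, ⌊p w * M⌋₊ : ℕ) : ℝ) / M) Filter.atTop (nhds 1) := by
    have h3 := tendsto_finsetSum Finset.univ fun w _ => h1 w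
    rw [hp1] at h3
    refine h3.congr fun M => ?_
    push_cast
    rw [Finset.sum_div]
  have h3 : ∀ w, Filter.Tendsto (fun M : ℕ => (⌊p w * M⌋₊ : ℝ) / (∑ w, ⌊p w * M⌋₊ : ℕ)) Filter.atTop
      (nhds (p w)) := by
    intro w
    have h4 := (h1 w).div h2 one_ne_zero
    rw [div_one] at h4
    refine h4.congr' ?_
    filter_upwards [Filter.eventually_gt_atTop 0] with M hM
    have hM' : (M : ℝ) ≠ 0 := by positivity
    simp only [Pi.div_apply]
    rw [div_div_div_cancel_right₀ hM']
  unfold shan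
  apply tendsto_finsetSum
  intro v _
  apply (Real.continuous_negMulLog.tendsto _).comp
  apply tendsto_finsetSum
  intro w _
  exact h3 w

end Pool.Agent.Helper138_LS
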