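import Pool.Agent.Helper138_LS.EE
import Pool.Agent.H480R2.LS.Expo

/-!
The exponent of `m(n,k,L)` is `|L|` if and only if some perfect matroid design is almost entropic.
-/

set_option autoImplicit false

open Finset

namespace Pool.Agent.Helper138_LS

open Pool.Agent.H480R2.LS

/-- lower order terms -/
theorem eventually_small {a b D : ℝ} (hD : 0 < D) :
    ∀ᶠ x : ℝ in Filter.atTop, a * (1 + Real.log x) + b ≤ D * x := by
  have h1 := Real.isLittleO_log_id_atTop.bound (show 0 < D / (2 * (|a| + 1)) by positivity)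
  filter_upwards [h1, Filter.eventually_ge_atTop ((|a| + |b|) / (D / 2)), Filter.eventually_ge_atTop 1] with x h1 h2 h3
  rw [Real.norm_eq_abs, Real.norm_eq_abs, id, abs_of_nonneg (Real.log_nonneg h3), abs_of_nonneg (by linarith : (0:ℝ) ≤ x)]
    at h1
  rw [div_le_iff₀ (by positivity)] at h2
  have hlog := Real.log_nonneg h3
  have h4 : a * Real.log x ≤ (|a| + 1) * Real.log x := by
    apply mul_le_mul_of_nonneg_right _ hlog
    have := le_abs_self a
    linarith
  have h5 : (|a| + 1) * Real.log x ≤ (|a| + 1) * (D / (2 * (|a| + 1)) * x) :=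
    mul_le_mul_of_nonneg_left h1 (by positivity)
  have h6 : (|a| + 1) * (D / (2 * (|a| + 1)) * x) = D / 2 * x := by
    field_simp
  have := le_abs_self a
  have := le_abs_self b
  linarith

/-- **from almost entropic designs to large systems** -/
theorem ent_to_sys {k : ℕ} {L : Finset ℕ} {r : Finset (Fin k) → ℕ} (hk : 1 ≤ k) (hne : L.Nonempty)
    (hr : PMD k L r) (hA : AlmEnt r) {e : ℝ} (he : 0 < e) (he1 : e ≤ 1) :
    ∃ x ∈ ES k L, (L.card : ℝ) - e ≤ x := by
  classical
  have hs1 : (1 : ℝ) ≤ L.card := by exact_mod_cast Finset.card_pos.mpr hne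
  set c1 : ℝ := 1 + 2 ^ (k + 1) with hc1
  have hc1pos : 0 < c1 := by positivity
  set cs : ℝ := c1 + L.card with hcs
  have hcspos : 0 < cs := by positivity
  obtain ⟨t, ht, N, p, X, hp, hp1, hX⟩ := hA (e / (2 * cs)) (by positivity)
  set D : ℝ := e * t / (4 * cs) with hD
  have hDpos : 0 < D := by positivity
  set lk : ℝ := Real.log 2 + Real.log k with hlk
  have hlk0 : 0 ≤ lk := by
    have h1 : 0 ≤ Real.log 2 := Real.log_nonneg (by norm_num)
    have h2 : 0 ≤ Real.log k := Real.log_nonneg (by exact_mod_cast hk)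
    linarith
  -- choose the multiplicities
  have g1 : ∀ᶠ M : ℕ in Filter.atTop, ∀ A : Finset (Fin k),
      |shan (fun w => (⌊p w * M⌋₊ : ℝ) / (∑ w, ⌊p w * M⌋₊ : ℕ)) X A - shan p X A| ≤ D := by
    rw [Filter.eventually_all]
    intro A
    have h1 := Metric.tendsto_nhds.mp (shan_tendsto p hp hp1 X A) D hDpos
    filter_upwards [h1] with M hM
    rw [Real.dist_eq] at hM
    exact hM.le
  have g0 : Filter.Tendsto (fun M : ℕ => ((∑ w, ⌊p w * M⌋₊ : ℕ) : ℝ)) Filter.atTop Filter.atTop := by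
    apply Filter.tendsto_atTop_mono (f := fun M : ℕ => (M : ℝ) - N)
    · intro M
      have h1 : ∀ w : Fin N, p w * M - 1 ≤ (⌊p w * M⌋₊ : ℝ) := fun w => (Nat.sub_one_lt_floor _).le
      have h2 := Finset.sum_le_sum fun (w : Fin N) (_ : w ∈ Finset.univ) => h1 w
      rw [Finset.sum_sub_distrib, ← Finset.sum_mul, hp1, Finset.sum_const, Finset.card_univ, Fintype.card_fin,
        nsmul_eq_mul] at h2
      push_cast
      linarith
    · exact Filter.tendsto_atTop_add_const_right _ _ tendsto_natCast_atTop_atTop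
  have g2 := g0.eventually (eventually_small (a := (N + 1 : ℝ)) (b := lk) hDpos)
  have g3 := g0.eventually (Filter.eventually_ge_atTop (1 : ℝ))
  obtain ⟨M, f1, f2, f3⟩ := (g1.and (g2.and g3)).exists
  set m : Fin N → ℕ := fun w => ⌊p w * M⌋₊ with hm
  set S : ℕ := ∑ w, m w with hS
  have hSpos : 0 < S := by
    have : (1 : ℝ) ≤ S := f3
    exact_mod_cast this
  have hS1 : (1 : ℝ) ≤ S := f3
  have hcard : Fintype.card ((w : Fin N) × Fin (m w)) = S := by
    rw [Fintype.card_sigma]
    simp [hS]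
  have hnonempty : Nonempty ((w : Fin N) × Fin (m w)) := Fintype.card_pos_iff.mp (by rw [hcard]; exact hSpos)
  have hEn : ∀ A, |En (Ω := (w : Fin N) × Fin (m w)) (fun w => X w.1) A - (S * t) * r A| ≤
      S * (e / (2 * cs) * t + D) := by
    intro A
    rw [shan_En m hSpos X A]
    have h1 := f1 A
    have h2 := hX A
    have h3 : |shan (fun w => (m w : ℝ) / (∑ w, m w : ℕ)) X A - t * r A| ≤ e / (2 * cs) * t + D := by
      have h4 := abs_le.mp h1
      have h5 := abs_le.mp h2
      rw [abs_le]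
      constructor <;> linarith
    have h6 : ((∑ w, m w : ℕ) : ℝ) * shan (fun w => (m w : ℝ) / (∑ w, m w : ℕ)) X A - S * t * r A =
        S * (shan (fun w => (m w : ℝ) / (∑ w, m w : ℕ)) X A - t * r A) := by
      rw [← hS]
      ring
    rw [h6, abs_mul, abs_of_nonneg (by linarith : (0 : ℝ) ≤ S)]
    exact mul_le_mul_of_nonneg_left h3 (by linarith)
  obtain ⟨n, R, T, b1, b2, b3, b4, b5, b6, b7⟩ := build (Ω := (w : Fin N) × Fin (m w)) (fun w => X w.1) hr hk
    (m := N) (fun A => by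
      have h1 : (Finset.univ.image (rst (Ω := (w : Fin N) × Fin (m w)) (fun w => X w.1) A)) ⊆
          Finset.univ.image (fun w : Fin N => fun i : A => X w i) := by
        intro v hv
        rw [Finset.mem_image] at hv
        obtain ⟨w, _, rfl⟩ := hv
        exact Finset.mem_image.mpr ⟨w.1, Finset.mem_univ _, rfl⟩
      have h2 := (Finset.card_le_card h1).trans Finset.card_image_le
      rw [Finset.card_univ, Fintype.card_fin] at h2
      convert h2 using 2)
    (t := S * t) (u := S * (e / (2 * cs) * t + D)) (by positivity) hEn rfl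
  rw [hcard] at b6 b7
  refine ⟨Real.log R.card / Real.log n, ⟨n, R, T, b1, b2, b3, b4, b5, rfl⟩, ?_⟩
  have hlogn : 0 < Real.log n := Real.log_pos (by exact_mod_cast (show 1 < n by omega))
  rw [le_div_iff₀ hlogn]
  set η : ℝ := ((N : ℝ) + 1) * (1 + Real.log S) with hη
  set u : ℝ := S * (e / (2 * cs) * t + D) with hu
  have q1 : η + lk ≤ D * S := f2
  have q2 : Real.log n ≤ S * t + (lk + u + η) := by linarith
  have q3 : ((L.card : ℝ) - e) * Real.log n ≤ (L.card - e) * (S * t + (lk + u + η)) :=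
    mul_le_mul_of_nonneg_left q2 (by linarith)
  have q4 : cs * (lk + u + η) ≤ e * (S * t) := by
    have h1 : lk + u + η ≤ S * (e / (2 * cs) * t + 2 * D) := by
      rw [hu]
      linarith
    have h2 : cs * (S * (e / (2 * cs) * t + 2 * D)) = e * (S * t) := by
      rw [hD]
      field_simp
      ring
    calc cs * (lk + u + η) ≤ cs * (S * (e / (2 * cs) * t + 2 * D)) := mul_le_mul_of_nonneg_left h1 hcspos.le
      _ = _ := h2
  have q5 : 0 ≤ lk + u + η := by
    have h1 : 0 ≤ Real.log S := Real.log_nonneg hS1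
    have h2 : 0 ≤ η := by positivity
    have h3 : 0 ≤ u := by positivity
    linarith
  have q6 : 0 ≤ e * (lk + u + η) := by positivity
  have q7 : 0 ≤ c1 * lk := by positivity
  rw [hcs] at q4
  nlinarith

/-- **from large systems to almost entropic designs** -/
theorem sys_to_ent {k : ℕ} {L : Finset ℕ} (hL : L ⊆ Finset.range k) (hne : L.Nonempty)
    (h : (L.card : ℝ) ≤ expo k L) : ∃ r, PMD k L r ∧ AlmEnt r := by
  classical
  by_contra hcon
  push Not at hcon
  have hbad : ∀ T : Finset (Finset (Fin k)), ∃ ε : ℝ, 0 < ε ∧ ((IC T ∧ (∀ A ∈ T, A.card ∈ L) ∧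
      ∀ X : Finset (Fin k), X.card ≤ L.card - 1 → ∃ A ∈ T, X ⊆ A) →
      ¬ ∃ t : ℝ, 0 < t ∧ ∃ (N : ℕ) (p : Fin N → ℝ) (X : Fin N → Fin k → ℕ),
        (∀ w, 0 ≤ p w) ∧ ∑ w, p w = 1 ∧ ∀ A, |shan p X A - t * rkT T L A| ≤ ε * t) := by
    intro T
    by_cases hT : IC T ∧ (∀ A ∈ T, A.card ∈ L) ∧ ∀ X : Finset (Fin k), X.card ≤ L.card - 1 → ∃ A ∈ T, X ⊆ A
    · have h1 := hcon (rkT T L) (rkT_pmd hT.1 hT.2.1 hL hT.2.2)
      unfold AlmEnt at h1
      push Not at h1
      obtain ⟨ε, hε, h2⟩ := h1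
      refine ⟨ε, hε, fun _ => ?_⟩
      rintro ⟨t, ht, N, p, X, a1, a2, a3⟩
      obtain ⟨A, hA⟩ := h2 t ht N p X a1 a2
      exact absurd (a3 A) (not_le.mpr hA)
    · exact ⟨1, one_pos, fun h => absurd h hT⟩
  choose ε hε1 hε2 using hbad
  obtain ⟨T0, _, hT0⟩ := Finset.exists_min_image (Finset.univ : Finset (Finset (Finset (Fin k)))) ε
    ⟨∅, Finset.mem_univ _⟩
  set δ := min (ε T0) (1 / 2) with hδ
  have hδ0 : 0 < δ := lt_min (hε1 T0) (by norm_num)
  obtain ⟨x, hx, hxl⟩ := exists_lt_of_lt_csSup (s := ES k L) ⟨1, one_mem_ES hne hL⟩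
    (show (L.card : ℝ) - δ < sSup (ES k L) by
      have : expo k L = sSup (ES k L) := rfl
      rw [← this]
      linarith)
  obtain ⟨n, R, T, hn, hI, hT, hR, hR1, rfl⟩ := hx
  have hlogn : 0 < Real.log n := Real.log_pos (by exact_mod_cast (show 1 < n by omega))
  rw [lt_div_iff₀ hlogn] at hxl
  have hRpos : (0 : ℝ) < R.card := by exact_mod_cast (show 0 < R.card by omega)
  have hs : 1 ≤ L.card := Finset.card_pos.mpr hne
  have hcov : ∀ X : Finset (Fin k), X.card ≤ L.card - 1 → ∃ A ∈ T, X ⊆ A := by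
    intro X hX
    by_contra hX'
    push Not at hX'
    have h1 := cover_bound (show 0 < n by omega) hR hX hX'
    have h2 := Real.log_le_log hRpos (by exact_mod_cast h1 : (R.card : ℝ) ≤ ((n ^ (L.card - 1) : ℕ) : ℝ))
    rw [Nat.cast_pow, Real.log_pow, Nat.cast_sub hs] at h2
    push_cast at h2
    have h3 : δ ≤ 1 / 2 := min_le_right _ _
    nlinarith
  obtain ⟨X, hX⟩ := ent_close (show 1 ≤ n by omega) hI hT hL hcov hR (Finset.card_pos.mp (by omega))
  apply hε2 T ⟨hI, hT, hcov⟩
  refine ⟨Real.log n, hlogn, R.card, fun _ => 1 / R.card, X, fun _ => by positivity, ?_, fun A => ?_⟩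
  · rw [Finset.sum_const, Finset.card_univ, Fintype.card_fin, nsmul_eq_mul]
    field_simp
  · rw [shan_unif (show 0 < R.card by omega)]
    refine (hX A).trans ?_
    have h1 := hT0 T (Finset.mem_univ _)
    have h2 : δ ≤ ε T := (min_le_left _ _).trans h1
    nlinarith

end Pool.Agent.Helper138_LS
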