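import Pool.Agent.Helper138_LS.RelI

/-!
The parameters of the large Witt designs, with an explicit exponent.
-/

set_option autoImplicit false

open Finset

namespace Pool.Agent.Helper138_LS

open Pool.Agent.H480R2.LS

theorem not_distinct22 {T : Finset (Finset (Fin 22))} (hT : ∀ A ∈ T, A.card ∈ ({0, 1, 2, 6} : Finset ℕ))
    (hI : IC T) :
    (∃ x y z : Fin 22, ∀ A ∈ T, ¬ (x ∈ A ∧ y ∈ A ∧ z ∈ A)) ∨
      ∃ a1 a2 b1 b2 c1 c2 d1 d2, Vam T a1 a2 b1 b2 c1 c2 d1 d2 := by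
  by_cases h : ∃ x y z : Fin 22, ∀ A ∈ T, ¬ (x ∈ A ∧ y ∈ A ∧ z ∈ A)
  · exact Or.inl h
  · right
    push Not at h
    apply w22_vamos hI hT
    intro x y z _ _ _
    obtain ⟨A, hA, h1, h2, h3⟩ := h x y z
    exact ⟨A, hA, h1, h2, h3⟩

theorem bound22 : ∃ C : ℝ, 0 < C ∧ ∀ (n : ℕ) (F : Finset (Finset (Fin n))), Sys n 22 {0, 1, 2, 6} F →
    (F.card : ℝ) ≤ C * (n : ℝ) ^ (31 / 8 : ℝ) :=
  sys_bound (by norm_num) (by decide) fun _ hT hI => not_distinct22 hT hI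

theorem bound22_up (t : ℕ) : ∃ C : ℝ, ∀ (n : ℕ) (F : Finset (Finset (Fin n))),
    Sys n (21 + (t + 1)) (SL (t + 1) 5) F → (F.card : ℝ) ≤ C * (n : ℝ) ^ (((t + 1 : ℕ) : ℝ) + 3 - 1 / 8) := by
  induction t with
  | zero =>
    obtain ⟨C, _, h⟩ := bound22
    refine ⟨C, fun n F hF => ?_⟩
    have e1 : SL (0 + 1) 5 = {0, 1, 2, 6} := by decide
    rw [e1] at hF
    have e2 : ((0 + 1 : ℕ) : ℝ) + 3 - 1 / 8 = 31 / 8 := by norm_num
    rw [e2]
    exact h n F hF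
  | succ t ih =>
    obtain ⟨C, h⟩ := ih
    refine ⟨C, fun n F hF => ?_⟩
    have h1 := link_pow (k := 21 + (t + 1)) (L := SL (t + 1 + 1) 5) (L' := SL (t + 1) 5)
      (s := ((t + 1 : ℕ) : ℝ) + 3) (e := 1 / 8) (by
        intro l hl
        simp only [SL, Finset.mem_insert, Finset.mem_range] at hl ⊢
        omega) (by push_cast; linarith [(Nat.cast_nonneg t : (0 : ℝ) ≤ t)]) h n F hF
    have e2 : ((t + 1 + 1 : ℕ) : ℝ) + 3 - 1 / 8 = ((t + 1 : ℕ) : ℝ) + 3 + 1 - 1 / 8 := by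
      push_cast
      ring
    rw [e2]
    exact h1

end Pool.Agent.Helper138_LS
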