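import Pool.Agent.Helper138_LS.TripleNeg

/-!
Bounds for relations with intersection closed patterns: removing and fixing a coordinate.
-/

set_option autoImplicit false

open Finset

namespace Pool.Agent.Helper138_LS

open Pool.Agent.H480R2.LS

/-- preimage of a pattern -/
def pre {m k : ℕ} (φ : Fin m → Fin k) (A : Finset (Fin k)) : Finset (Fin m) :=
  Finset.univ.filter fun i => φ i ∈ A

theorem mem_pre {m k : ℕ} {φ : Fin m → Fin k} {A : Finset (Fin k)} {i : Fin m} :
    i ∈ pre φ A ↔ φ i ∈ A := by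
  simp [pre]

theorem pre_inter {m k : ℕ} (φ : Fin m → Fin k) (A B : Finset (Fin k)) :
    pre φ (A ∩ B) = pre φ A ∩ pre φ B := by
  ext i
  simp [mem_pre]

theorem pre_agr {m k : ℕ} {V : Type*} [DecidableEq V] (φ : Fin m → Fin k) (f g : Fin k → V) :
    agr (f ∘ φ) (g ∘ φ) = pre φ (agr f g) := by
  ext i
  rw [mem_pre, mem_agr, mem_agr]
  rfl

theorem ic_pre {m k : ℕ} {φ : Fin m → Fin k} {T : Finset (Finset (Fin k))} (hI : IC T) :
    IC (T.image (pre φ)) := by
  intro A hA B hB
  rw [Finset.mem_image] at *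
  obtain ⟨A, hA, rfl⟩ := hA
  obtain ⟨B, hB, rfl⟩ := hB
  exact ⟨A ∩ B, hI A hA B hB, pre_inter φ A B⟩

/-- pulling a relation back along a map of coordinates that determines its members -/
theorem pull {m k : ℕ} {V : Type*} [DecidableEq V] (φ : Fin m → Fin k) {T : Finset (Finset (Fin k))}
    {R : Finset (Fin k → V)} (hR : PatIn R T)
    (hinj : ∀ f ∈ R, ∀ g ∈ R, f ∘ φ = g ∘ φ → f = g) :
    PatIn (R.image fun f => f ∘ φ) (T.image (pre φ)) ∧ (R.image fun f => f ∘ φ).card = R.card := by
  constructor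
  · intro f hf g hg hfg
    rw [Finset.mem_image] at hf hg
    obtain ⟨f, hf, rfl⟩ := hf
    obtain ⟨g, hg, rfl⟩ := hg
    rw [Finset.mem_image]
    refine ⟨agr f g, hR f hf g hg ?_, (pre_agr φ f g).symm⟩
    rintro rfl
    exact hfg rfl
  · apply Finset.card_image_of_injOn
    intro f hf g hg hfg
    exact hinj f hf g hg hfg

/-- the sizes after removal of a point -/
def dn (L : Finset ℕ) : Finset ℕ := (L.erase 0).image Nat.pred

theorem mem_dn {L : Finset ℕ} {i : ℕ} : i ∈ dn L ↔ i + 1 ∈ L := by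
  rw [dn, Finset.mem_image]
  constructor
  · rintro ⟨j, hj, rfl⟩
    rw [Finset.mem_erase] at hj
    have : j.pred + 1 = j := Nat.succ_pred hj.1
    rw [this]
    exact hj.2
  · intro h
    exact ⟨i + 1, Finset.mem_erase.mpr ⟨by omega, h⟩, rfl⟩

theorem card_dn (L : Finset ℕ) : (dn L).card = (L.erase 0).card := by
  apply Finset.card_image_of_injOn
  intro i hi j hj hij
  rw [Finset.mem_coe, Finset.mem_erase] at hi hj
  have h1 := Nat.succ_pred hi.1
  have h2 := Nat.succ_pred hj.1
  have hij' : i.pred = j.pred := hij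
  rw [← h1, ← h2, hij']

theorem card_pre_succAbove {k : ℕ} {x : Fin (k + 1)} {A : Finset (Fin (k + 1))} (hx : x ∈ A) :
    (pre x.succAbove A).card + 1 = A.card := by
  have h : A = insert x ((pre x.succAbove A).map x.succAboveEmb) := by
    ext y
    rw [Finset.mem_insert, Finset.mem_map]
    constructor
    · intro hy
      by_cases hxy : y = x
      · exact Or.inl hxy
      · right
        obtain ⟨z, hz⟩ := Fin.exists_succAbove_eq hxy
        exact ⟨z, mem_pre.mpr (by rw [hz]; exact hy), hz⟩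
    · rintro (rfl | ⟨z, hz, rfl⟩)
      · exact hx
      · exact mem_pre.mp hz
  conv_rhs => rw [h]
  rw [Finset.card_insert_of_notMem, Finset.card_map]
  rw [Finset.mem_map]
  rintro ⟨z, _, hz⟩
  exact Fin.succAbove_ne x z hz

/-- removing a coordinate on which all members agree -/
theorem pull_point {k n : ℕ} {L : Finset ℕ} {T : Finset (Finset (Fin (k + 1)))}
    {R : Finset (Fin (k + 1) → Fin n)} (hI : IC T) (hT : ∀ A ∈ T, A.card ∈ L) (hR : PatIn R T)
    (x : Fin (k + 1)) (hx : ∀ f ∈ R, ∀ g ∈ R, f x = g x) :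
    ∃ (T' : Finset (Finset (Fin k))) (R' : Finset (Fin k → Fin n)), IC T' ∧ (∀ A ∈ T', A.card ∈ dn L) ∧
      PatIn R' T' ∧ R'.card = R.card ∧ ∀ A ∈ T', ∃ B ∈ T, x ∈ B ∧ A = pre x.succAbove B := by
  classical
  have hR' : PatIn R (T.filter fun A => x ∈ A) := by
    intro f hf g hg hfg
    exact Finset.mem_filter.mpr ⟨hR f hf g hg hfg, mem_agr.mpr (hx f hf g hg)⟩
  have hI' : IC (T.filter fun A => x ∈ A) := by
    intro A hA B hB
    rw [Finset.mem_filter] at *
    exact ⟨hI A hA.1 B hB.1, Finset.mem_inter.mpr ⟨hA.2, hB.2⟩⟩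
  obtain ⟨h1, h2⟩ := pull x.succAbove hR' (fun f hf g hg hfg => by
    funext y
    by_cases hxy : y = x
    · rw [hxy]
      exact hx f hf g hg
    · obtain ⟨z, rfl⟩ := Fin.exists_succAbove_eq hxy
      exact congrFun hfg z)
  refine ⟨_, _, ic_pre hI', ?_, h1, h2, ?_⟩
  · intro A hA
    rw [Finset.mem_image] at hA
    obtain ⟨A, hA, rfl⟩ := hA
    rw [Finset.mem_filter] at hA
    rw [mem_dn, card_pre_succAbove hA.2]
    exact hT A hA.1
  · intro A hA
    rw [Finset.mem_image] at hA
    obtain ⟨A, hA, rfl⟩ := hA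
    rw [Finset.mem_filter] at hA
    exact ⟨A, hA.1, hA.2, rfl⟩

/-- a point in all patterns, if the empty pattern is not allowed -/
theorem common_point {k : ℕ} {L : Finset ℕ} {T : Finset (Finset (Fin k))} (hI : IC T)
    (hT : ∀ A ∈ T, A.card ∈ L) (h0 : 0 ∉ L) (hne : T.Nonempty) : ∃ x, ∀ A ∈ T, x ∈ A := by
  obtain ⟨A0, hA0, hmin⟩ := Finset.exists_min_image T Finset.card hne
  have h1 : A0.card ≠ 0 := by
    intro h
    exact h0 (h ▸ hT A0 hA0)
  obtain ⟨x, hx⟩ := Finset.card_pos.mp (Nat.pos_of_ne_zero h1)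
  refine ⟨x, fun A hA => ?_⟩
  have h2 := hmin _ (hI A0 hA0 A hA)
  have h3 : A0 ∩ A = A0 := Finset.eq_of_subset_of_card_le Finset.inter_subset_left h2
  rw [← h3] at hx
  exact (Finset.mem_inter.mp hx).2

/-- the trivial bound -/
theorem triv_bound : ∀ (k n : ℕ) (_ : 0 < n) (L : Finset ℕ) (T : Finset (Finset (Fin k)))
    (R : Finset (Fin k → Fin n)), IC T → (∀ A ∈ T, A.card ∈ L) → PatIn R T → R.card ≤ n ^ L.card := by
  classical
  intro k
  induction k with
  | zero =>
    intro n hn L T R _ _ _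
    have : R.card ≤ 1 := Finset.card_le_one.mpr fun f _ g _ => Subsingleton.elim f g
    exact this.trans (Nat.one_le_pow _ _ hn)
  | succ k ih =>
    intro n hn L T R hI hT hR
    by_cases hone : R.card ≤ 1
    · exact hone.trans (Nat.one_le_pow _ _ hn)
    push Not at hone
    obtain ⟨f0, hf0, g0, hg0, hfg0⟩ := Finset.one_lt_card.mp hone
    have hne : T.Nonempty := ⟨_, hR f0 hf0 g0 hg0 hfg0⟩
    by_cases h0 : 0 ∈ L
    · have h1 : R.card = ∑ v : Fin n, (R.filter fun f => f 0 = v).card :=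
        Finset.card_eq_sum_card_fiberwise (fun _ _ => Finset.mem_univ _)
      have h2 : ∀ v : Fin n, (R.filter fun f => f 0 = v).card ≤ n ^ (L.card - 1) := by
        intro v
        have hRv : PatIn (R.filter fun f => f 0 = v) T := (fun f hf g hg => hR f (Finset.mem_filter.mp hf).1 g (Finset.mem_filter.mp hg).1)
        obtain ⟨T', R', a1, a2, a3, a4, _⟩ := pull_point hI hT hRv 0 (fun f hf g hg => by
          rw [Finset.mem_filter] at hf hg
          rw [hf.2, hg.2])
        rw [← a4]
        have h3 := ih n hn (dn L) T' R' a1 a2 a3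
        rw [card_dn, Finset.card_erase_of_mem h0] at h3
        exact h3
      rw [h1]
      calc ∑ v : Fin n, (R.filter fun f => f 0 = v).card ≤ ∑ v : Fin n, n ^ (L.card - 1) :=
            Finset.sum_le_sum fun v _ => h2 v
        _ = n * n ^ (L.card - 1) := by rw [Finset.sum_const, Finset.card_univ, Fintype.card_fin, smul_eq_mul]
        _ = n ^ L.card := by
          have : 1 ≤ L.card := Finset.card_pos.mpr ⟨0, h0⟩
          rw [← pow_succ']
          congr 1
          omega
    · obtain ⟨x, hx⟩ := common_point hI hT h0 hne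
      obtain ⟨T', R', a1, a2, a3, a4, _⟩ := pull_point hI hT hR x (fun f hf g hg => by
        by_cases hfg : f = g
        · rw [hfg]
        · exact mem_agr.mp (hx _ (hR f hf g hg hfg)))
      rw [← a4]
      have h3 := ih n hn (dn L) T' R' a1 a2 a3
      rw [card_dn, Finset.erase_eq_of_notMem h0] at h3
      exact h3

end Pool.Agent.Helper138_LS
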