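import Pool.Agent.Helper138_LS.PosAll
import Pool.Agent.Helper138_LS.RelB

/-!
The binary affine space of dimension four, and links in the positive direction.
-/

set_option autoImplicit false

open Finset

namespace Pool.Agent.Helper138_LS

open Pool.Agent.H480R2.LS

/-- codes whose zero sets lie in an intersection closed class -/
theorem of_geom2 {P K M : Type} [Fintype P] [DecidableEq P] [Fintype K] [DecidableEq K] [Fintype M]
    [AddCommGroup K] [AddCommGroup M] {k s q : ℕ} {L : Finset ℕ} (hP : Fintype.card P = k)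
    (hK : Fintype.card K = q) (hM : Fintype.card M = q ^ s) (hq : 2 ≤ q) (hk : 1 ≤ k)
    (𝒯 : Finset P → Prop) (hcl : ∀ A B, 𝒯 A → 𝒯 B → 𝒯 (A ∩ B)) (hL : ∀ A, 𝒯 A → A.card ∈ L)
    (hu : ¬ 𝒯 Finset.univ) (ev : M → P → K) (hsub : ∀ u v p, ev (u - v) p = ev u p - ev v p)
    (h1 : ∀ u, u ≠ 0 → 𝒯 (Finset.univ.filter fun p => ev u p = 0)) : Att k L s := by
  classical
  set Z : M → Finset P := fun u => Finset.univ.filter fun p => ev u p = 0 with hZ
  let eP : Fin k ≃ P := (Fintype.equivFinOfCardEq hP).symm
  let eK : K ≃ Fin q := Fintype.equivFinOfCardEq hK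
  let word : M → Fin k → Fin q := fun u i => eK (ev u (eP i))
  let T : Finset (Finset (Fin k)) := Finset.univ.filter fun A => 𝒯 (A.map eP.toEmbedding)
  have hagr : ∀ u v, (agr (word u) (word v)).map eP.toEmbedding = Z (u - v) := by
    intro u v
    ext p
    rw [Finset.mem_map]
    constructor
    · rintro ⟨i, hi, rfl⟩
      rw [mem_agr] at hi
      have := eK.injective hi
      simp only [hZ, Finset.mem_filter, Finset.mem_univ, true_and, hsub, sub_eq_zero]
      exact this
    · intro hp
      simp only [hZ, Finset.mem_filter, Finset.mem_univ, true_and, hsub, sub_eq_zero] at hp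
      refine ⟨eP.symm p, ?_, by simp⟩
      rw [mem_agr]
      show eK (ev u (eP (eP.symm p))) = eK (ev v (eP (eP.symm p)))
      rw [eP.apply_symm_apply, hp]
  have hword : ∀ u v, u ≠ v → 𝒯 ((agr (word u) (word v)).map eP.toEmbedding) := by
    intro u v huv
    rw [hagr]
    exact h1 _ (sub_ne_zero.mpr huv)
  have hinj : Function.Injective word := by
    intro u v huv
    by_contra hne
    apply hu
    have h3 := hword u v hne
    have h4 : (agr (word u) (word v)).map eP.toEmbedding = Finset.univ := by
      rw [Finset.eq_univ_iff_forall]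
      intro p
      rw [Finset.mem_map]
      exact ⟨eP.symm p, mem_agr.mpr (by rw [huv]), by simp⟩
    rw [h4] at h3
    exact h3
  refine of_code (q := q) (s := s) hk hq (Finset.univ.image word) T ?_ ?_ ?_ ?_
  · intro A hA B hB
    simp only [T, Finset.mem_filter, Finset.mem_univ, true_and] at hA hB ⊢
    rw [Finset.map_inter]
    exact hcl _ _ hA hB
  · intro A hA
    simp only [T, Finset.mem_filter, Finset.mem_univ, true_and] at hA
    have := hL _ hA
    rwa [Finset.card_map] at this
  · intro f hf g hg hfg
    rw [Finset.mem_image] at hf hg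
    obtain ⟨u, _, rfl⟩ := hf
    obtain ⟨v, _, rfl⟩ := hg
    simp only [T, Finset.mem_filter, Finset.mem_univ, true_and]
    exact hword u v (fun h => hfg (by rw [h]))
  · rw [Finset.card_image_of_injective _ hinj, Finset.card_univ, hM]

/-- the four-dimensional binary space -/
abbrev V4 := Fin 4 → ZMod 2

theorem v4_two (x : V4) : x + x = 0 := by
  funext i
  exact CharTwo.add_self_eq_zero (x i)

/-- sizes of affine closed sets -/
theorem v4_card (A : Finset V4) (hA : ∀ x ∈ A, ∀ y ∈ A, ∀ z ∈ A, x + y + z ∈ A) :
    A.card ∈ ({0, 1, 2, 4, 8, 16} : Finset ℕ) := by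
  classical
  rcases A.eq_empty_or_nonempty with rfl | ⟨a, ha⟩
  · simp
  · let H : AddSubgroup V4 :=
      { carrier := {v | v + a ∈ A}
        zero_mem' := by
          show 0 + a ∈ A
          rw [zero_add]
          exact ha
        add_mem' := by
          intro v w hv hw
          show v + w + a ∈ A
          have h1 := hA _ hv _ hw _ ha
          have h2 : v + a + (w + a) + a = v + w + a := by
            have := v4_two a
            calc v + a + (w + a) + a = v + w + a + (a + a) := by abel
              _ = _ := by rw [this, add_zero]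
          rw [h2] at h1
          exact h1
        neg_mem' := by
          intro v hv
          show -v + a ∈ A
          have h1 : -v = v := by
            rw [neg_eq_iff_add_eq_zero]
            exact v4_two v
          rw [h1]
          exact hv }
    have h1 : Nat.card H = A.card := by
      have e : H ≃ {x // x ∈ A} :=
        { toFun := fun v => ⟨v.1 + a, v.2⟩
          invFun := fun x => ⟨x.1 + a, by
            show x.1 + a + a ∈ A
            rw [add_assoc, v4_two, add_zero]
            exact x.2⟩
          left_inv := by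
            intro v
            apply Subtype.ext
            show v.1 + a + a = v.1
            rw [add_assoc, v4_two, add_zero]
          right_inv := by
            intro x
            apply Subtype.ext
            show x.1 + a + a = x.1
            rw [add_assoc, v4_two, add_zero] }
      rw [Nat.card_congr e, Nat.card_eq_fintype_card, Fintype.card_coe]
    have h2 : Nat.card V4 = 16 := by
      rw [Nat.card_eq_fintype_card]
      simp [ZMod.card]
    have h3 := H.card_addSubgroup_dvd_card
    rw [h1, h2] at h3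
    have h4 : A.card ∈ Nat.divisors 16 := Nat.mem_divisors.mpr ⟨h3, by norm_num⟩
    have h5 : Nat.divisors 16 = {1, 2, 4, 8, 16} := by decide
    rw [h5] at h4
    simp only [Finset.mem_insert, Finset.mem_singleton] at h4 ⊢
    omega

/-- the words -/
def ev4 (u : V4 × ZMod 2) (x : V4) : ZMod 2 := (∑ i, u.1 i * x i) + u.2

theorem pos16 : Att 16 {0, 1, 2, 4, 8} 5 := by
  classical
  have hc : Fintype.card V4 = 16 := by simp [ZMod.card]
  apply of_geom2 (P := V4) (K := ZMod 2) (M := V4 × ZMod 2) (q := 2) hc (ZMod.card 2) ?_ le_rfl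
    (by norm_num) (fun A => (∀ x ∈ A, ∀ y ∈ A, ∀ z ∈ A, x + y + z ∈ A) ∧ A ≠ Finset.univ) ?_ ?_ ?_ ev4 ?_ ?_
  · rw [Fintype.card_prod, hc, ZMod.card]; norm_num
  · rintro A B ⟨hA, hA'⟩ ⟨hB, _⟩
    refine ⟨?_, ?_⟩
    · intro x hx y hy z hz
      rw [Finset.mem_inter] at *
      exact ⟨hA x hx.1 y hy.1 z hz.1, hB x hx.2 y hy.2 z hz.2⟩
    · intro h
      apply hA'
      rw [Finset.eq_univ_iff_forall] at h ⊢
      exact fun x => (Finset.mem_inter.mp (h x)).1
  · rintro A ⟨hA, hA'⟩
    have h1 := v4_card A hA
    have h2 : A.card ≠ 16 := by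
      intro h
      apply hA'
      rw [← Finset.card_eq_iff_eq_univ, h, hc]
    simp only [Finset.mem_insert, Finset.mem_singleton] at h1 ⊢
    omega
  · exact fun h => h.2 rfl
  · intro u v p
    simp only [ev4, Prod.fst_sub, Prod.snd_sub, Pi.sub_apply, sub_mul, Finset.sum_sub_distrib]
    ring
  · intro u hu
    refine ⟨?_, ?_⟩
    · intro x hx y hy z hz
      rw [Finset.mem_filter] at *
      refine ⟨Finset.mem_univ _, ?_⟩
      have h1 : ev4 u (x + y + z) = ev4 u x + ev4 u y + ev4 u z - (u.2 + u.2) := by
        simp only [ev4, Pi.add_apply, mul_add, Finset.sum_add_distrib]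
        ring
      have h2 : u.2 + u.2 = 0 := CharTwo.add_self_eq_zero _
      rw [h1, hx.2, hy.2, hz.2, h2]
      ring
    · intro h
      rw [Finset.eq_univ_iff_forall] at h
      have h0 : ∀ x, ev4 u x = 0 := fun x => (Finset.mem_filter.mp (h x)).2
      have h1 : u.2 = 0 := by
        have := h0 0
        simpa [ev4] using this
      apply hu
      refine Prod.ext ?_ h1
      funext j
      have := h0 (Pi.single j 1)
      simp only [ev4, h1, add_zero, Pi.single_apply, mul_ite, mul_one, mul_zero] at this
      simpa using this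

/-- links in the positive direction -/
theorem Att.link {k s : ℕ} {L : Finset ℕ} (h : Att (k + 1) L (s + 1)) : Att k (dn L) s := by
  classical
  obtain ⟨c, hc, h⟩ := h
  refine ⟨c, hc, fun n hn => ?_⟩
  obtain ⟨F, hF1, hF2, hF3⟩ := h (n + 1) (by omega)
  have h2 : ∑ x : Fin (n + 1), (F.filter fun A => x ∈ A).card = F.card * (k + 1) := by
    rw [← Finset.sum_const_nat hF1]
    simp_rw [Finset.card_filter]
    rw [Finset.sum_comm]
    apply Finset.sum_congr rfl
    intro A _
    rw [← Finset.card_filter]
    congr 1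
    ext x
    simp
  obtain ⟨x, hx⟩ : ∃ x : Fin (n + 1), F.card ≤ (n + 1) * (F.filter fun A => x ∈ A).card := by
    by_contra hcon
    push Not at hcon
    have h3 : ∑ x : Fin (n + 1), (n + 1) * (F.filter fun A => x ∈ A).card < ∑ x : Fin (n + 1), F.card :=
      Finset.sum_lt_sum_of_nonempty ⟨0, Finset.mem_univ _⟩ fun x _ => hcon x
    rw [← Finset.mul_sum, h2, Finset.sum_const, Finset.card_univ, Fintype.card_fin, smul_eq_mul] at h3
    have h4 : (n + 1) * F.card ≤ (n + 1) * (F.card * (k + 1)) :=
      Nat.mul_le_mul_left _ (Nat.le_mul_of_pos_right _ (by omega))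
    omega
  have hinj : Set.InjOn (pre x.succAbove) (F.filter fun A => x ∈ A) := by
    intro A hA B hB hAB
    rw [Finset.mem_coe, Finset.mem_filter] at hA hB
    ext y
    by_cases hxy : y = x
    · rw [hxy]
      exact ⟨fun _ => hB.2, fun _ => hA.2⟩
    · obtain ⟨z, rfl⟩ := Fin.exists_succAbove_eq hxy
      rw [← mem_pre, ← mem_pre, hAB]
  refine ⟨(F.filter fun A => x ∈ A).image (pre x.succAbove), ?_, ?_, ?_⟩
  · intro A hA
    rw [Finset.mem_image] at hA
    obtain ⟨A, hA, rfl⟩ := hA
    rw [Finset.mem_filter] at hA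
    have h3 := card_pre_succAbove hA.2
    rw [hF1 A hA.1] at h3
    omega
  · intro A hA B hB hAB
    rw [Finset.mem_image] at hA hB
    obtain ⟨A, hA, rfl⟩ := hA
    obtain ⟨B, hB, rfl⟩ := hB
    rw [Finset.mem_filter] at hA hB
    rw [← pre_inter, mem_dn, card_pre_succAbove (Finset.mem_inter.mpr ⟨hA.2, hB.2⟩)]
    exact hF2 A hA.1 B hB.1 (fun h => hAB (by rw [h]))
  · rw [Finset.card_image_of_injOn hinj]
    have h3 : (F.card : ℝ) ≤ ((n : ℝ) + 1) * ((F.filter fun A => x ∈ A).card : ℝ) := by exact_mod_cast hx
    have h4 : ((n : ℝ) + 1) * (c * ((n : ℝ) + 1) ^ s) ≤ ((n : ℝ) + 1) * ((F.filter fun A => x ∈ A).card : ℝ) := by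
      calc ((n : ℝ) + 1) * (c * ((n : ℝ) + 1) ^ s) = c * (((n + 1 : ℕ) : ℝ)) ^ (s + 1) := by
            push_cast
            ring
        _ ≤ _ := hF3.trans h3
    have h5 := le_of_mul_le_mul_left h4 (by positivity)
    refine le_trans ?_ h5
    apply mul_le_mul_of_nonneg_left _ hc.le
    apply pow_le_pow_left₀ (by positivity)
    linarith

theorem pos15 : Att 15 {0, 1, 3, 7} 4 := by
  have h := pos16.link
  have h2 : dn {0, 1, 2, 4, 8} = {0, 1, 3, 7} := by decide
  rwa [h2] at h

end Pool.Agent.Helper138_LS
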