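import Pool.Agent.Helper138_LS.PosPlane

/-!
Inversive planes over finite fields: the elliptic quadric.
-/

set_option autoImplicit false

open Finset

namespace Pool.Agent.Helper138_LS

open Pool.Agent.H480R2.LS

/-- the quadratic form -/
def qf {K : Type} [Field K] (d : K) (x y : K) : K := x * x - x * y - d * (y * y)

/-- an anisotropic form exists -/
theorem exists_aniso (K : Type) [Field K] [Finite K] : ∃ d : K, ∀ x y : K, qf d x y = 0 → x = 0 ∧ y = 0 := by
  have hns : ¬ Function.Surjective fun x : K => x * x - x := by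
    intro hs
    have hi := (Finite.injective_iff_surjective (f := fun x : K => x * x - x)).mpr hs
    have : (0 : K) = 1 := hi (by simp)
    exact zero_ne_one this
  rw [Function.Surjective] at hns
  push Not at hns
  obtain ⟨d, hd⟩ := hns
  refine ⟨d, fun x y h => ?_⟩
  unfold qf at h
  by_cases hy : y = 0
  · subst hy
    refine ⟨?_, rfl⟩
    exact mul_self_eq_zero.mp (by linear_combination h)
  · exfalso
    apply hd (x / y)
    field_simp
    linear_combination h

section inv

variable {K : Type} [Field K] {d : K}

/-- the word of a sphere -/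
def evI (d : K) (u : (K × K × K) × K) : Option (K × K) → K
  | none => u.2
  | some p => evA u.1 p + u.2 * qf d p.1 p.2

theorem evI_sub (u v : (K × K × K) × K) (p : Option (K × K)) :
    evI d (u - v) p = evI d u p - evI d v p := by
  obtain ⟨⟨a, b, c⟩, e⟩ := u
  obtain ⟨⟨a', b', c'⟩, e'⟩ := v
  rcases p with _ | ⟨x, y⟩
  · rfl
  · simp only [evI, evA, Prod.mk_sub_mk]
    ring

/-- a line meets a circle in at most two points -/
theorem line_circle (hd : ∀ x y : K, qf d x y = 0 → x = 0 ∧ y = 0) {u : (K × K × K) × K} (hu : u.2 ≠ 0)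
    {w : K × K × K} (hw : w.2 ≠ 0) {p r s : K × K} (hpr : p ≠ r) (hps : p ≠ s) (hrs : r ≠ s)
    (u1 : evI d u (some p) = 0) (u2 : evI d u (some r) = 0) (u3 : evI d u (some s) = 0)
    (w1 : evA w p = 0) (w2 : evA w r = 0) (w3 : evA w s = 0) : False := by
  obtain ⟨⟨a, b, c⟩, e⟩ := u
  obtain ⟨α, β, γ⟩ := w
  obtain ⟨x, y⟩ := p
  obtain ⟨x2, y2⟩ := r
  obtain ⟨x3, y3⟩ := s
  simp only [evI, evA, qf] at *
  -- differences
  obtain ⟨X, rfl⟩ : ∃ X, x2 = x + X := ⟨x2 - x, by ring⟩
  obtain ⟨Y, rfl⟩ : ∃ Y, y2 = y + Y := ⟨y2 - y, by ring⟩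
  obtain ⟨Z, rfl⟩ : ∃ Z, x3 = x + Z := ⟨x3 - x, by ring⟩
  obtain ⟨W, rfl⟩ : ∃ W, y3 = y + W := ⟨y3 - y, by ring⟩
  have hXY : ¬ (X = 0 ∧ Y = 0) := by
    rintro ⟨rfl, rfl⟩
    apply hpr
    simp
  have hZW : ¬ (Z = 0 ∧ W = 0) := by
    rintro ⟨rfl, rfl⟩
    apply hps
    simp
  have q1 : β * X + γ * Y = 0 := by linear_combination w2 - w1
  have q2 : β * Z + γ * W = 0 := by linear_combination w3 - w1
  have par : X * W = Z * Y := by
    by_cases hβ : β = 0
    · have hγ : γ ≠ 0 := by
        rintro rfl
        apply hw
        rw [hβ]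
        rfl
      subst hβ
      have : Y = 0 := by
        rcases mul_eq_zero.mp (show γ * Y = 0 by linear_combination q1) with h | h
        · exact absurd h hγ
        · exact h
      have h' : W = 0 := by
        rcases mul_eq_zero.mp (show γ * W = 0 by linear_combination q2) with h | h
        · exact absurd h hγ
        · exact h
      rw [this, h']
      ring
    · rcases mul_eq_zero.mp (show β * (X * W - Z * Y) = 0 by linear_combination W * q1 - Y * q2) with h | h
      · exact absurd h hβ
      · linear_combination h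
  set B := b + e * (2 * x - y) with hB
  set C := c - e * (x + 2 * d * y) with hC
  have k1 : e * (X * X - X * Y - d * (Y * Y)) + (B * X + C * Y) = 0 := by
    rw [hB, hC]; linear_combination u2 - u1
  have k2 : e * (Z * Z - Z * W - d * (W * W)) + (B * Z + C * W) = 0 := by
    rw [hB, hC]; linear_combination u3 - u1
  clear_value B C
  -- along the line
  have m1 : Z * (X * X - X * Y - d * (Y * Y)) = X * (Z * Z - Z * W - d * (W * W)) := by
    rcases mul_eq_zero.mp (show e * (Z * (X * X - X * Y - d * (Y * Y)) -
        X * (Z * Z - Z * W - d * (W * W))) = 0 by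
      linear_combination Z * k1 - X * k2 + C * par) with h | h
    · exact absurd h hu
    · linear_combination h
  have m2 : W * (X * X - X * Y - d * (Y * Y)) = Y * (Z * Z - Z * W - d * (W * W)) := by
    rcases mul_eq_zero.mp (show e * (W * (X * X - X * Y - d * (Y * Y)) -
        Y * (Z * Z - Z * W - d * (W * W))) = 0 by
      linear_combination W * k1 - Y * k2 - B * par) with h | h
    · exact absurd h hu
    · linear_combination h
  by_cases hX : X = 0
  · subst hX
    have hY : Y ≠ 0 := fun h => hXY ⟨rfl, h⟩
    have hZ : Z = 0 := by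
      rcases mul_eq_zero.mp (show Y * Z = 0 by linear_combination -par) with h | h
      · exact absurd h hY
      · exact h
    subst hZ
    have hW : W ≠ 0 := fun h => hZW ⟨rfl, h⟩
    have hd0 : d ≠ 0 := by
      rintro rfl
      have := hd 0 1 (by ring)
      exact one_ne_zero this.2
    have : d * Y * W * (W - Y) = 0 := by linear_combination m2
    rcases mul_eq_zero.mp this with h | h
    · rcases mul_eq_zero.mp h with h | h
      · rcases mul_eq_zero.mp h with h | h
        · exact hd0 h
        · exact hY h
      · exact hW h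
    · apply hrs
      rw [sub_eq_zero.mp h]
  · have hQ : Z * (X - Z) * (X * X - X * Y - d * (Y * Y)) = 0 := by
      linear_combination X * m1 + (-(Z * X) - d * (X * W + Z * Y)) * par
    rcases mul_eq_zero.mp hQ with h | h
    · rcases mul_eq_zero.mp h with h | h
      · subst h
        have h2 : 0 * 0 - 0 * W - d * (W * W) = 0 := by
          rcases mul_eq_zero.mp (show X * (0 * 0 - 0 * W - d * (W * W)) = 0 by linear_combination -m1) with h' | h'
          · exact absurd h' hX
          · exact h'
        exact hZW (hd 0 W h2)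
      · have hXZ : X = Z := sub_eq_zero.mp h
        subst hXZ
        apply hrs
        have : X * (W - Y) = 0 := by linear_combination par
        rcases mul_eq_zero.mp this with h' | h'
        · exact absurd h' hX
        · rw [sub_eq_zero.mp h']
    · exact hXY (hd X Y h)

/-- circles and lines that share three points are equal -/
theorem evI_eq (hd : ∀ x y : K, qf d x y = 0 → x = 0 ∧ y = 0) {u v : (K × K × K) × K} (hu : u ≠ 0)
    (hv : v ≠ 0) {p r s : Option (K × K)} (hpr : p ≠ r) (hps : p ≠ s) (hrs : r ≠ s)
    (u1 : evI d u p = 0) (u2 : evI d u r = 0) (u3 : evI d u s = 0)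
    (v1 : evI d v p = 0) (v2 : evI d v r = 0) (v3 : evI d v s = 0) :
    ∀ t, evI d u t = 0 → evI d v t = 0 := by
  -- two affine points on a word with last coordinate zero
  have lin : ∀ {w : (K × K × K) × K}, w ≠ 0 → w.2 = 0 → ∀ {z : K × K}, evI d w (some z) = 0 →
      evA w.1 z = 0 ∧ w.1.2 ≠ 0 := by
    rintro ⟨⟨a, b, c⟩, e⟩ hw he ⟨x, y⟩ h
    simp only at he
    subst he
    simp only [evI, zero_mul, add_zero] at h
    refine ⟨h, ?_⟩
    intro h0
    apply hw
    rw [Prod.mk_eq_zero] at h0
    obtain ⟨rfl, rfl⟩ := h0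
    simp only [evA] at h
    have : a = 0 := by linear_combination h
    subst this
    rfl
  -- two words through infinity
  have case0 : ∀ {z z' : K × K}, z ≠ z' → u.2 = 0 → v.2 = 0 → evI d u (some z) = 0 →
      evI d u (some z') = 0 → evI d v (some z) = 0 → evI d v (some z') = 0 →
      ∀ t, evI d u t = 0 → evI d v t = 0 := by
    intro z z' hz hu2 hv2 a1 a2 a3 a4 t ht
    rcases t with _ | t
    · exact hv2
    · have := evA_eq (lin hu hu2 a1).2 hz (lin hu hu2 a1).1 (lin hu hu2 a2).1 (lin hv hv2 a3).1
        (lin hv hv2 a4).1 t (lin hu hu2 ht).1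
      simp only [evI, this, hv2]
      ring
  rcases p with _ | p
  · rcases r with _ | r
    · exact absurd rfl hpr
    rcases s with _ | s
    · exact absurd rfl hps
    exact case0 (fun h => hrs (by rw [h])) u1 v1 u2 u3 v2 v3
  rcases r with _ | r
  · rcases s with _ | s
    · exact absurd rfl hrs
    exact case0 (fun h => hps (by rw [h])) u2 v2 u1 u3 v1 v3
  rcases s with _ | s
  · exact case0 (fun h => hpr (by rw [h])) u3 v3 u1 u2 v1 v2
  replace hpr : p ≠ r := fun h => hpr (by rw [h])
  replace hps : p ≠ s := fun h => hps (by rw [h])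
  replace hrs : r ≠ s := fun h => hrs (by rw [h])
  by_cases hu2 : u.2 = 0
  · by_cases hv2 : v.2 = 0
    · exact case0 hpr hu2 hv2 u1 u2 v1 v2
    · exact (line_circle hd hv2 (lin hu hu2 u1).2 hpr hps hrs v1 v2 v3 (lin hu hu2 u1).1
        (lin hu hu2 u2).1 (lin hu hu2 u3).1).elim
  · by_cases hv2 : v.2 = 0
    · exact (line_circle hd hu2 (lin hv hv2 v1).2 hpr hps hrs u1 u2 u3 (lin hv hv2 v1).1
        (lin hv hv2 v2).1 (lin hv hv2 v3).1).elim
    · -- the radical axis
      set w : K × K × K := (v.2 * u.1.1 - u.2 * v.1.1, v.2 * u.1.2.1 - u.2 * v.1.2.1,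
        v.2 * u.1.2.2 - u.2 * v.1.2.2) with hw
      have hw' : ∀ z : K × K, evA w z = v.2 * evI d u (some z) - u.2 * evI d v (some z) := by
        intro z
        simp only [evA, evI, hw]
        ring
      have w1 : evA w p = 0 := by rw [hw', u1, v1]; ring
      have w2 : evA w r = 0 := by rw [hw', u2, v2]; ring
      have w3 : evA w s = 0 := by rw [hw', u3, v3]; ring
      by_cases h0 : w.2 = 0
      · have h00 : w.1 = 0 := by
          have := w1
          simp only [evA, h0, Prod.fst_zero, Prod.snd_zero, zero_mul, add_zero] at this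
          exact this
        have hz : ∀ z : K × K, v.2 * evI d u (some z) = u.2 * evI d v (some z) := by
          intro z
          have h1 := hw' z
          have h2 : evA w z = 0 := by
            simp only [evA, h0, h00, Prod.fst_zero, Prod.snd_zero, zero_mul, add_zero]
          rw [h2] at h1
          exact (sub_eq_zero.mp h1.symm)
        intro t ht
        rcases t with _ | t
        · exact absurd ht hu2
        · have h1 := hz t
          rw [ht, mul_zero] at h1
          rcases mul_eq_zero.mp h1.symm with h | h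
          · exact absurd h hu2
          · exact h
      · exact (line_circle hd hu2 h0 hpr hps hrs u1 u2 u3 w1 w2 w3).elim

variable [Fintype K] [DecidableEq K]

theorem card_filter_option {α : Type} [Fintype α] (P : Option α → Prop) [DecidablePred P] :
    (Finset.univ.filter P).card = (if P none then 1 else 0) +
      (Finset.univ.filter fun a => P (some a)).card := by
  simp only [Finset.card_filter]
  rw [Fintype.sum_option]

/-- the number of points of a circle -/
theorem evI_card (hd : ∀ x y : K, qf d x y = 0 → x = 0 ∧ y = 0) (u : (K × K × K) × K) (hu : u ≠ 0) :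
    (Finset.univ.filter fun p => evI d u p = 0).card ≤ 2 ∨
      (Finset.univ.filter fun p => evI d u p = 0).card = Fintype.card K + 1 := by
  rw [card_filter_option]
  by_cases he : u.2 = 0
  · have e0 : (Finset.univ.filter fun p => evI d u (some p) = 0) =
        Finset.univ.filter fun p => evA u.1 p = 0 := by
      apply Finset.filter_congr
      rintro ⟨x, y⟩ _
      simp only [evI, he, zero_mul, add_zero]
    rw [e0]
    have e1 : evI d u none = 0 := he
    rw [if_pos e1]
    by_cases h2 : u.1.2 = 0
    · left
      rw [evA_zero u.1 (by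
        intro h
        exact hu (Prod.ext h he)) h2]
      simp
    · right
      rw [evA_card u.1 h2]
      ring
  · have e1 : evI d u none ≠ 0 := he
    rw [if_neg e1, zero_add]
    by_cases hne : (Finset.univ.filter fun p => evI d u (some p) = 0) = ∅
    · left
      rw [hne]
      simp
    obtain ⟨⟨x0, y0⟩, h0⟩ := Finset.nonempty_iff_ne_empty.mpr hne
    rw [Finset.mem_filter] at h0
    replace h0 := h0.2
    obtain ⟨⟨a, b, c⟩, e⟩ := u
    simp only at he
    simp only [evI, evA, qf] at h0
    set B := b + e * (2 * x0 - y0) with hB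
    set C := c - e * (x0 + 2 * d * y0) with hC
    have hF : ∀ s t : K, evI d ((a, b, c), e) (some (x0 + s, y0 + t)) = e * qf d s t + (B * s + C * t) := by
      intro s t
      simp only [evI, evA, qf, hB, hC]
      linear_combination h0
    by_cases hBC : B = 0 ∧ C = 0
    · left
      have : (Finset.univ.filter fun p => evI d ((a, b, c), e) (some p) = 0) ⊆ {(x0, y0)} := by
        rintro ⟨x, y⟩ hp
        rw [Finset.mem_filter] at hp
        have h1 := hF (x - x0) (y - y0)
        rw [hBC.1, hBC.2] at h1
        have h2 : e * qf d (x - x0) (y - y0) = 0 := by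
          have h3 := hp.2
          rw [show x = x0 + (x - x0) by ring, show y = y0 + (y - y0) by ring, h1] at h3
          linear_combination h3
        rcases mul_eq_zero.mp h2 with h | h
        · exact absurd h he
        · obtain ⟨h3, h4⟩ := hd _ _ h
          rw [Finset.mem_singleton, sub_eq_zero.mp h3, sub_eq_zero.mp h4]
      calc _ ≤ _ := Finset.card_le_card this
        _ ≤ 2 := by simp
    · right
      have hmem0 : (x0, y0) ∈ Finset.univ.filter fun p => evI d ((a, b, c), e) (some p) = 0 := by
        rw [Finset.mem_filter]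
        refine ⟨Finset.mem_univ _, ?_⟩
        have := hF 0 0
        simp only [add_zero, qf] at this
        rw [this]
        ring
      rw [← Finset.card_erase_add_one hmem0]
      congr 1
      have hl := evA_card (K := K) (e, B, C) (by
        intro h
        exact hBC ⟨(Prod.mk_eq_zero.mp h).1, (Prod.mk_eq_zero.mp h).2⟩)
      rw [← hl]
      symm
      have hq0 : ∀ {s t : K}, ¬ (s = 0 ∧ t = 0) → qf d s t ≠ 0 := fun h h' => h (hd _ _ h')
      have hhom : ∀ m s t : K, qf d (m * s) (m * t) = m * m * qf d s t := by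
        intro m s t
        simp only [qf]
        ring
      have hne0 : ∀ {s t : K}, evA (e, B, C) (s, t) = 0 → ¬ (s = 0 ∧ t = 0) := by
        rintro s t h ⟨rfl, rfl⟩
        simp only [evA] at h
        exact he (by linear_combination h)
      apply Finset.card_bij (fun (z : K × K) _ =>
        ((x0 + (qf d z.1 z.2)⁻¹ * z.1, y0 + (qf d z.1 z.2)⁻¹ * z.2) : K × K))
      · rintro ⟨s, t⟩ hz
        rw [Finset.mem_filter] at hz
        have hst := hne0 hz.2
        have hQ := hq0 hst
        rw [Finset.mem_erase, Finset.mem_filter]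
        refine ⟨?_, Finset.mem_univ _, ?_⟩
        · intro h
          rw [Prod.mk.injEq] at h
          apply hst
          constructor
          · rcases mul_eq_zero.mp (show (qf d s t)⁻¹ * s = 0 by linear_combination h.1) with h' | h'
            · exact absurd (inv_eq_zero.mp h') hQ
            · exact h'
          · rcases mul_eq_zero.mp (show (qf d s t)⁻¹ * t = 0 by linear_combination h.2) with h' | h'
            · exact absurd (inv_eq_zero.mp h') hQ
            · exact h'
        · rw [hF, hhom]
          have hz2 := hz.2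
          simp only [evA] at hz2
          have : (qf d s t)⁻¹ * qf d s t = 1 := inv_mul_cancel₀ hQ
          linear_combination (qf d s t)⁻¹ * hz2 + e * (qf d s t)⁻¹ * this
      · rintro ⟨s, t⟩ hz ⟨s', t'⟩ hz' h
        rw [Finset.mem_filter] at hz hz'
        have hQ := hq0 (hne0 hz.2)
        have hQ' := hq0 (hne0 hz'.2)
        rw [Prod.mk.injEq] at h
        have h1 : (qf d s t)⁻¹ * s = (qf d s' t')⁻¹ * s' := by linear_combination h.1
        have h2 : (qf d s t)⁻¹ * t = (qf d s' t')⁻¹ * t' := by linear_combination h.2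
        have h3 := hhom (qf d s t)⁻¹ s t
        rw [h1, h2, hhom] at h3
        have h4 : (qf d s' t')⁻¹ = (qf d s t)⁻¹ := by
          field_simp at h3
          field_simp
          linear_combination h3
        rw [h4] at h1 h2
        have h5 : (qf d s t)⁻¹ ≠ 0 := inv_ne_zero hQ
        rw [mul_left_cancel₀ h5 h1, mul_left_cancel₀ h5 h2]
      · rintro ⟨x, y⟩ hz
        rw [Finset.mem_erase, Finset.mem_filter] at hz
        have hst : ¬ (x - x0 = 0 ∧ y - y0 = 0) := by
          rintro ⟨h1, h2⟩
          apply hz.1
          rw [sub_eq_zero.mp h1, sub_eq_zero.mp h2]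
        have hQ := hq0 hst
        have h1 := hF (x - x0) (y - y0)
        rw [show x0 + (x - x0) = x by ring, show y0 + (y - y0) = y by ring, hz.2.2] at h1
        set Q := qf d (x - x0) (y - y0) with hQdef
        have h2 : qf d (Q⁻¹ * (x - x0)) (Q⁻¹ * (y - y0)) = Q⁻¹ := by
          rw [hhom, ← hQdef]
          field_simp
        refine ⟨(Q⁻¹ * (x - x0), Q⁻¹ * (y - y0)), ?_, ?_⟩
        · rw [Finset.mem_filter]
          refine ⟨Finset.mem_univ _, ?_⟩
          simp only [evA]
          have : Q⁻¹ * Q = 1 := inv_mul_cancel₀ hQ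
          linear_combination -Q⁻¹ * h1 - e * this
        · simp only [h2, inv_inv]
          rw [Prod.mk.injEq]
          have : Q * Q⁻¹ = 1 := mul_inv_cancel₀ hQ
          constructor
          · linear_combination (x - x0) * this
          · linear_combination (y - y0) * this

end inv

/-- **Inversive planes.** -/
theorem invPos {q : ℕ} (hq : IsPrimePow q) :
    ∃ c : ℝ, 0 < c ∧ ∀ n : ℕ, q ^ 2 + 1 ≤ n → ∃ F : Finset (Finset (Fin n)),
      (∀ A ∈ F, A.card = q ^ 2 + 1) ∧
      (∀ A ∈ F, ∀ B ∈ F, A ≠ B → (A ∩ B).card ∈ ({0, 1, 2, q + 1} : Finset ℕ)) ∧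
      c * (n : ℝ) ^ 4 ≤ F.card := by
  obtain ⟨K, _, _, _, hK⟩ := exists_field hq
  have hq2 : 2 ≤ q := hq.two_le
  obtain ⟨d, hd⟩ := exists_aniso K
  apply of_geom (P := Option (K × K)) (K := K) (M := (K × K × K) × K) (q := q) (t := 2) (l := q + 1)
    ?_ hK ?_ hq2 ?_ ?_ ?_ (evI d) ?_ ?_ ?_
  · rw [Fintype.card_option, Fintype.card_prod, hK]; ring
  · rw [Fintype.card_prod, Fintype.card_prod, Fintype.card_prod, hK]; ring
  · nlinarith
  · nlinarith
  · intro i hi
    simp only [Finset.mem_insert, Finset.mem_singleton]
    omega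
  · exact evI_sub
  · intro u hu
    rw [← hK]
    exact evI_card hd u hu
  · intro u v hu hv hne
    by_contra hcon
    push Not at hcon
    obtain ⟨p, hp, r, hr, s, hs, hpr, hps, hrs⟩ := Finset.two_lt_card.mp hcon
    rw [Finset.mem_inter, Finset.mem_filter, Finset.mem_filter] at hp hr hs
    apply hne
    ext t
    rw [Finset.mem_filter, Finset.mem_filter]
    constructor
    · rintro ⟨_, h⟩
      exact ⟨Finset.mem_univ _, evI_eq hd hu hv hpr hps hrs hp.1.2 hr.1.2 hs.1.2 hp.2.2 hr.2.2 hs.2.2 t h⟩
    · rintro ⟨_, h⟩
      exact ⟨Finset.mem_univ _, evI_eq hd hv hu hpr hps hrs hp.2.2 hr.2.2 hs.2.2 hp.1.2 hr.1.2 hs.1.2 t h⟩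

end Pool.Agent.Helper138_LS
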