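import Pool.Agent.Helper138_LS.PosPlane

/-!
Projective planes and inversive planes over finite fields.
-/

set_option autoImplicit false

open Finset

namespace Pool.Agent.Helper138_LS

open Pool.Agent.H480R2.LS

section proj

variable {K : Type} [Field K]

/-- orthogonality to two independent vectors -/
theorem lin3 {u1 u2 u3 v1 v2 v3 p1 p2 p3 r1 r2 r3 s1 s2 s3 : K} (hu : ¬ (u1 = 0 ∧ u2 = 0 ∧ u3 = 0))
    (hn : ¬ (p2 * r3 - p3 * r2 = 0 ∧ p3 * r1 - p1 * r3 = 0 ∧ p1 * r2 - p2 * r1 = 0))
    (hup : u1 * p1 + u2 * p2 + u3 * p3 = 0) (hur : u1 * r1 + u2 * r2 + u3 * r3 = 0)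
    (hvp : v1 * p1 + v2 * p2 + v3 * p3 = 0) (hvr : v1 * r1 + v2 * r2 + v3 * r3 = 0)
    (hus : u1 * s1 + u2 * s2 + u3 * s3 = 0) : v1 * s1 + v2 * s2 + v3 * s3 = 0 := by
  set n1 := p2 * r3 - p3 * r2 with hn1
  set n2 := p3 * r1 - p1 * r3 with hn2
  set n3 := p1 * r2 - p2 * r1 with hn3
  have a1 : u2 * n3 - u3 * n2 = 0 := by rw [hn3, hn2]; linear_combination p1 * hur - r1 * hup
  have a2 : u3 * n1 - u1 * n3 = 0 := by rw [hn3, hn1]; linear_combination p2 * hur - r2 * hup
  have a3 : u1 * n2 - u2 * n1 = 0 := by rw [hn1, hn2]; linear_combination p3 * hur - r3 * hup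
  have b1 : v2 * n3 - v3 * n2 = 0 := by rw [hn3, hn2]; linear_combination p1 * hvr - r1 * hvp
  have b2 : v3 * n1 - v1 * n3 = 0 := by rw [hn3, hn1]; linear_combination p2 * hvr - r2 * hvp
  have b3 : v1 * n2 - v2 * n1 = 0 := by rw [hn1, hn2]; linear_combination p3 * hvr - r3 * hvp
  clear_value n1 n2 n3
  by_cases e1 : n1 = 0
  · by_cases e2 : n2 = 0
    · have e3 : n3 ≠ 0 := fun h => hn ⟨e1, e2, h⟩
      subst e1 e2
      have c1 : u1 = 0 := by
        rcases mul_eq_zero.mp (show n3 * u1 = 0 by linear_combination -a2) with h | h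
        · exact absurd h e3
        · exact h
      have c2 : u2 = 0 := by
        rcases mul_eq_zero.mp (show n3 * u2 = 0 by linear_combination a1) with h | h
        · exact absurd h e3
        · exact h
      have c3 : u3 ≠ 0 := fun h => hu ⟨c1, c2, h⟩
      have d1 : v1 = 0 := by
        rcases mul_eq_zero.mp (show n3 * v1 = 0 by linear_combination -b2) with h | h
        · exact absurd h e3
        · exact h
      have d2 : v2 = 0 := by
        rcases mul_eq_zero.mp (show n3 * v2 = 0 by linear_combination b1) with h | h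
        · exact absurd h e3
        · exact h
      subst c1 c2 d1 d2
      have : s3 = 0 := by
        rcases mul_eq_zero.mp (show u3 * s3 = 0 by linear_combination hus) with h | h
        · exact absurd h c3
        · exact h
      rw [this]
      ring
    · have c2 : u2 ≠ 0 := by
        intro h
        subst h
        apply hu
        refine ⟨?_, rfl, ?_⟩
        · rcases mul_eq_zero.mp (show n2 * u1 = 0 by linear_combination a3) with h | h
          · exact absurd h e2
          · exact h
        · rcases mul_eq_zero.mp (show n2 * u3 = 0 by linear_combination -a1) with h | h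
          · exact absurd h e2
          · exact h
      have c3 : n1 * s1 + n2 * s2 + n3 * s3 = 0 := by
        rcases mul_eq_zero.mp (show u2 * (n1 * s1 + n2 * s2 + n3 * s3) = 0 by
          linear_combination n2 * hus - s1 * a3 + s3 * a1) with h | h
        · exact absurd h c2
        · exact h
      rcases mul_eq_zero.mp (show n2 * (v1 * s1 + v2 * s2 + v3 * s3) = 0 by
          linear_combination v2 * c3 + s1 * b3 - s3 * b1) with h | h
      · exact absurd h e2
      · exact h
  · have c1 : u1 ≠ 0 := by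
      intro h
      subst h
      apply hu
      refine ⟨rfl, ?_, ?_⟩
      · rcases mul_eq_zero.mp (show n1 * u2 = 0 by linear_combination -a3) with h | h
        · exact absurd h e1
        · exact h
      · rcases mul_eq_zero.mp (show n1 * u3 = 0 by linear_combination a2) with h | h
        · exact absurd h e1
        · exact h
    have c3 : n1 * s1 + n2 * s2 + n3 * s3 = 0 := by
      rcases mul_eq_zero.mp (show u1 * (n1 * s1 + n2 * s2 + n3 * s3) = 0 by
        linear_combination n1 * hus + s2 * a3 - s3 * a2) with h | h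
      · exact absurd h c1
      · exact h
    rcases mul_eq_zero.mp (show n1 * (v1 * s1 + v2 * s2 + v3 * s3) = 0 by
        linear_combination v1 * c3 - s2 * b3 + s3 * b2) with h | h
    · exact absurd h e1
    · exact h

/-- the coordinates of the points of the projective plane -/
def wP : (K × K) ⊕ (K ⊕ Unit) → K × K × K
  | Sum.inl p => (1, p.1, p.2)
  | Sum.inr (Sum.inl x) => (0, 1, x)
  | Sum.inr (Sum.inr _) => (0, 0, 1)

def evP (u : K × K × K) (p : (K × K) ⊕ (K ⊕ Unit)) : K :=
  u.1 * (wP p).1 + u.2.1 * (wP p).2.1 + u.2.2 * (wP p).2.2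

theorem wP_indep {p r : (K × K) ⊕ (K ⊕ Unit)} (h : p ≠ r) :
    ¬ ((wP p).2.1 * (wP r).2.2 - (wP p).2.2 * (wP r).2.1 = 0 ∧
      (wP p).2.2 * (wP r).1 - (wP p).1 * (wP r).2.2 = 0 ∧
      (wP p).1 * (wP r).2.1 - (wP p).2.1 * (wP r).1 = 0) := by
  rintro ⟨h1, h2, h3⟩
  rcases p with ⟨x, y⟩ | x | _ <;> rcases r with ⟨x', y'⟩ | x' | _ <;> simp only [wP] at h1 h2 h3
  · apply h
    have e1 : x = x' := by linear_combination -h3
    have e2 : y = y' := by linear_combination h2
    rw [e1, e2]
  · exact one_ne_zero (show (1 : K) = 0 by linear_combination h3)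
  · exact one_ne_zero (show (1 : K) = 0 by linear_combination -h2)
  · exact one_ne_zero (show (1 : K) = 0 by linear_combination -h3)
  · apply h
    have e1 : x = x' := by linear_combination -h1
    rw [e1]
  · exact one_ne_zero (show (1 : K) = 0 by linear_combination h1)
  · exact one_ne_zero (show (1 : K) = 0 by linear_combination h2)
  · exact one_ne_zero (show (1 : K) = 0 by linear_combination -h1)
  · exact h rfl

theorem evP_eq {u v : K × K × K} (hu : u ≠ 0) {p r : (K × K) ⊕ (K ⊕ Unit)} (hpr : p ≠ r)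
    (h1 : evP u p = 0) (h2 : evP u r = 0) (h3 : evP v p = 0) (h4 : evP v r = 0) :
    ∀ s, evP u s = 0 → evP v s = 0 := by
  intro s hs
  refine lin3 ?_ (wP_indep hpr) h1 h2 h3 h4 hs
  rintro ⟨e1, e2, e3⟩
  exact hu (Prod.ext e1 (Prod.ext e2 e3))

variable [Fintype K] [DecidableEq K]

theorem card_filter_sum {α β : Type} [Fintype α] [Fintype β] (P : α ⊕ β → Prop) [DecidablePred P] :
    (Finset.univ.filter P).card = (Finset.univ.filter fun a => P (Sum.inl a)).card +
      (Finset.univ.filter fun b => P (Sum.inr b)).card := by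
  simp only [Finset.card_filter]
  rw [Fintype.sum_sum_type]

theorem evP_card (u : K × K × K) (hu : u ≠ 0) :
    (Finset.univ.filter fun p => evP u p = 0).card = Fintype.card K + 1 := by
  rw [card_filter_sum, card_filter_sum]
  have e0 : (Finset.univ.filter fun p => evP u (Sum.inl p) = 0) =
      Finset.univ.filter fun p => evA u p = 0 := by
    apply Finset.filter_congr
    rintro ⟨x, y⟩ _
    simp only [evP, evA, wP, mul_one]
  rw [e0]
  obtain ⟨a, b, c⟩ := u
  have e1 : (Finset.univ.filter fun x : K => evP (a, b, c) (Sum.inr (Sum.inl x)) = 0) =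
      Finset.univ.filter fun x => b + c * x = 0 := by
    apply Finset.filter_congr
    rintro x _
    simp only [evP, wP, mul_one, mul_zero, zero_add]
  have e2 : (Finset.univ.filter fun x : Unit => evP (a, b, c) (Sum.inr (Sum.inr x)) = 0) =
      Finset.univ.filter fun _ => c = 0 := by
    apply Finset.filter_congr
    rintro x _
    simp only [evP, wP, mul_one, mul_zero, zero_add]
  rw [e1, e2]
  by_cases h2 : b = 0 ∧ c = 0
  · obtain ⟨rfl, rfl⟩ := h2
    rw [evA_zero _ hu rfl]
    simp
  · rw [evA_card _ (by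
      intro h
      exact h2 ⟨(Prod.mk_eq_zero.mp h).1, (Prod.mk_eq_zero.mp h).2⟩)]
    congr 1
    by_cases hc : c = 0
    · subst hc
      have hb : b ≠ 0 := fun h => h2 ⟨h, rfl⟩
      simp [hb]
    · have : (Finset.univ.filter fun x : K => b + c * x = 0) = {-b / c} := by
        ext x
        rw [Finset.mem_filter, Finset.mem_singleton]
        constructor
        · rintro ⟨_, h⟩
          field_simp
          linear_combination h
        · rintro rfl
          refine ⟨Finset.mem_univ _, ?_⟩
          field_simp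
          ring
      rw [this]
      simp [hc]

end proj

/-- **Projective planes.** -/
theorem projPos {q : ℕ} (hq : IsPrimePow q) :
    ∃ c : ℝ, 0 < c ∧ ∀ n : ℕ, q ^ 2 + q + 1 ≤ n → ∃ F : Finset (Finset (Fin n)),
      (∀ A ∈ F, A.card = q ^ 2 + q + 1) ∧
      (∀ A ∈ F, ∀ B ∈ F, A ≠ B → (A ∩ B).card ∈ ({0, 1, q + 1} : Finset ℕ)) ∧
      c * (n : ℝ) ^ 3 ≤ F.card := by
  obtain ⟨K, _, _, _, hK⟩ := exists_field hq
  have hq2 : 2 ≤ q := hq.two_le
  apply of_geom (P := (K × K) ⊕ (K ⊕ Unit)) (K := K) (M := K × K × K) (q := q) (t := 1) (l := q + 1)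
    ?_ hK ?_ hq2 ?_ ?_ ?_ evP ?_ ?_ ?_
  · rw [Fintype.card_sum, Fintype.card_sum, Fintype.card_prod, hK, Fintype.card_unit]; ring
  · rw [Fintype.card_prod, Fintype.card_prod, hK]; ring
  · nlinarith
  · nlinarith
  · intro i hi
    simp only [Finset.mem_insert, Finset.mem_singleton]
    omega
  · rintro ⟨a, b, c⟩ ⟨a', b', c'⟩ p
    simp only [evP, Prod.mk_sub_mk]
    ring
  · intro u hu
    right
    rw [evP_card u hu, hK]
  · intro u v hu hv hne
    by_contra hcon
    push Not at hcon
    obtain ⟨p, hp, r, hr, hpr⟩ := Finset.one_lt_card.mp hcon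
    rw [Finset.mem_inter, Finset.mem_filter, Finset.mem_filter] at hp hr
    apply hne
    ext s
    rw [Finset.mem_filter, Finset.mem_filter]
    constructor
    · rintro ⟨_, h⟩
      exact ⟨Finset.mem_univ _, evP_eq hu hpr hp.1.2 hr.1.2 hp.2.2 hr.2.2 s h⟩
    · rintro ⟨_, h⟩
      exact ⟨Finset.mem_univ _, evP_eq hv hpr hp.2.2 hr.2.2 hp.1.2 hr.1.2 s h⟩

end Pool.Agent.Helper138_LS
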