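import Pool.Agent.Helper138_LS.Classify
import Pool.Agent.Helper138_LS.PosBin
import Pool.Agent.Helper138_LS.PosInv
import Pool.Agent.Helper138_LS.PosProj
import Pool.Agent.Helper138_LS.E11
import Pool.Agent.Helper138_LS.E12
import Pool.Agent.Helper138_LS.E19

/-!
The classification: the positive part, and the negative part for systems.
-/

set_option autoImplicit false

open Finset

namespace Pool.Agent.Helper138_LS

open Pool.Agent.H480R2.LS

theorem isPrimePow_four : IsPrimePow 4 := by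
  have h : IsPrimePow (2 ^ 2) := Nat.prime_two.isPrimePow.pow (by norm_num)
  norm_num at h
  exact h

theorem Base.att {k : ℕ} {L : Finset ℕ} (h : Base k L) (hne : L.Nonempty) : Att k L L.card := by
  rcases h with ⟨s, hs, rfl⟩ | ⟨rfl, rfl⟩ | ⟨rfl, rfl⟩ | ⟨rfl, rfl⟩ | ⟨rfl, rfl⟩ | ⟨rfl, rfl⟩ |
    ⟨rfl, rfl⟩ | ⟨rfl, rfl⟩ | ⟨rfl, rfl⟩ | ⟨rfl, rfl⟩ | ⟨rfl, rfl⟩ | ⟨rfl, rfl⟩ | ⟨rfl, rfl⟩ | ⟨rfl, rfl⟩ |
    ⟨rfl, rfl⟩
  · rw [Finset.card_range]
    have h1 := Finset.card_pos.mpr hne
    rw [Finset.card_range] at h1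
    exact fullPos h1 hs
  · exact projPos (q := 2) Nat.prime_two.isPrimePow
  · exact linPos' (m := 3) (by norm_num)
  · exact affPos (q := 3) Nat.prime_three.isPrimePow
  · exact invPos (q := 3) Nat.prime_three.isPrimePow
  · exact E11.attained
  · exact E12.attained
  · exact projPos (q := 3) Nat.prime_three.isPrimePow
  · exact linPos (m := 4) (by norm_num)
  · exact pos15
  · exact affPos (q := 4) isPrimePow_four
  · exact linPos' (m := 4) (by norm_num)
  · exact pos16
  · exact invPos (q := 4) isPrimePow_four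
  · exact E19.attained

theorem Yes.att {k : ℕ} {L : Finset ℕ} (hL : L ⊆ Finset.range k) (h : Yes k L) (hne : L.Nonempty) :
    Att k L L.card := by
  obtain ⟨a, g, k', L', hg, hB, rfl, rfl⟩ := h
  have hne' : L'.Nonempty := by
    rw [Finset.image_nonempty] at hne
    exact hne
  have hinj : Function.Injective fun i => a + g * i := by
    intro i j hij
    have h1 : a + g * i = a + g * j := hij
    exact Nat.eq_of_mul_eq_mul_left (show 0 < g by omega) (by omega)
  have hk : 1 ≤ k' := by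
    obtain ⟨i, hi⟩ := hne'
    have h1 := Finset.mem_range.mp (hL (Finset.mem_image_of_mem _ hi))
    by_contra hcon
    have h2 : k' = 0 := by omega
    rw [h2] at h1
    omega
  rw [Finset.card_image_of_injective _ hinj]
  exact (hB.att hne').scale a g hg hk

/-- from relations to systems -/
theorem RB.sys {k s : ℕ} {L : Finset ℕ} (hk : 1 ≤ k) (hL : L ⊆ Finset.range k) (h : RB k L s) :
    ∃ e : ℝ, 0 < e ∧ ∃ C : ℝ, ∀ (n : ℕ) (F : Finset (Finset (Fin n))), (∀ A ∈ F, A.card = k) →
      (∀ A ∈ F, ∀ B ∈ F, A ≠ B → (A ∩ B).card ∈ L) → (F.card : ℝ) ≤ C * (n : ℝ) ^ ((s : ℝ) - e) := by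
  obtain ⟨e, he, _, C, hC, h⟩ := h
  refine ⟨e, he, (k : ℝ) ^ k * ((Kc k (TL k L).card : ℝ) * C), ?_⟩
  intro n F h1 h2
  have hC0 : 0 ≤ C := by linarith
  rcases Nat.eq_zero_or_pos n with rfl | hn
  · have : F = ∅ := by
      rw [Finset.eq_empty_iff_forall_notMem]
      intro A hA
      have h3 := h1 A hA
      have h4 := Finset.card_le_univ A
      simp at h4
      rw [h4] at h3
      simp at h3
      omega
    rw [this]
    simp only [Finset.card_empty, Nat.cast_zero]
    positivity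
  · have h3 := sys_red (k := k) (L := L) (B := C * (n : ℝ) ^ ((s : ℝ) - e)) hk hL
      (fun T hT hI R hR => h n hn T R hI hT hR) (F := F) ⟨h1, h2⟩
    calc (F.card : ℝ) ≤ _ := h3
      _ = _ := by ring

end Pool.Agent.Helper138_LS
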