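import Pool.Agent.Helper138_LS.Code

/-!
The ternary `[11,5,6]` code (the even part of the Golay code) and the Steiner system `S(4,5,11)`.
-/

set_option autoImplicit false

open Finset

namespace Pool.Agent.Helper138_LS.G11

/-- the rows of a generator matrix -/
def G : Fin 5 → Fin 11 → ZMod 3 :=
  ![![1, 2, 2, 2, 1, 0, 1, 0, 0, 0, 0], ![0, 1, 2, 2, 2, 1, 0, 1, 0, 0, 0],
    ![0, 0, 1, 2, 2, 2, 1, 0, 1, 0, 0], ![0, 0, 0, 1, 2, 2, 2, 1, 0, 1, 0],
    ![0, 0, 0, 0, 1, 2, 2, 2, 1, 0, 1]]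

/-- the coordinates of the word with message `(a,b,c,d,e)` -/
def ev (a b c d e : ZMod 3) (i : Fin 11) : ZMod 3 :=
  a * G 0 i + b * G 1 i + c * G 2 i + d * G 3 i + e * G 4 i

/-- the zero set of a word, as a bit mask -/
def zmask (a b c d e : ZMod 3) : ℕ :=
  (if ev a b c d e 0 = 0 then 1 else 0) + (if ev a b c d e 1 = 0 then 2 else 0) +
  (if ev a b c d e 2 = 0 then 4 else 0) + (if ev a b c d e 3 = 0 then 8 else 0) +
  (if ev a b c d e 4 = 0 then 16 else 0) + (if ev a b c d e 5 = 0 then 32 else 0) +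
  (if ev a b c d e 6 = 0 then 64 else 0) + (if ev a b c d e 7 = 0 then 128 else 0) +
  (if ev a b c d e 8 = 0 then 256 else 0) + (if ev a b c d e 9 = 0 then 512 else 0) +
  (if ev a b c d e 10 = 0 then 1024 else 0)

/-- the blocks, as bit masks -/
def masks : List ℕ :=
  [527, 151, 103, 1287, 283, 171, 1099, 1075, 595, 803, 451,
   1667, 61, 333, 1165, 1109, 789, 421, 1573, 709, 217, 1561,
   617, 1321, 905, 369, 689, 1425, 1249, 1857, 1054, 302, 206,
   566, 342, 1190, 1606, 902, 122, 666, 1578, 842, 1418, 434,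
   1234, 1810, 738, 1378, 604, 412, 1132, 684, 1804, 244, 1332,
   1684, 868, 1476, 1208, 824, 1368, 488, 1736, 1648, 976, 1952]

/-- the set with a given bit mask -/
def ofMask (m : ℕ) : Finset (Fin 11) := Finset.univ.filter fun i => m.testBit i = true


theorem zeros_eq (a b c d e : ZMod 3) :
    (Finset.univ.filter fun i => ev a b c d e i = 0) = ofMask (zmask a b c d e) := by
  revert a b c d e
  decide +kernel

theorem word_cases (a b c d e : ZMod 3) : (a = 0 ∧ b = 0 ∧ c = 0 ∧ d = 0 ∧ e = 0) ∨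
    (ofMask (zmask a b c d e)).card ≤ 3 ∨ zmask a b c d e ∈ masks := by
  revert a b c d e
  decide +kernel

theorem blocks_inter : ∀ x ∈ masks, ∀ y ∈ masks, x = y ∨ (ofMask x ∩ ofMask y).card ≤ 3 := by
  decide +kernel

theorem blocks_card : ∀ x ∈ masks, (ofMask x).card = 5 := by
  decide +kernel

end Pool.Agent.Helper138_LS.G11
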