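import Pool.Agent.Helper138_LS.Code

/-!
The extended ternary Golay code and the Steiner system `S(5,6,12)`.
-/

set_option autoImplicit false

open Finset

namespace Pool.Agent.Helper138_LS.G12

/-- the rows of a generator matrix -/
def G : Fin 6 → Fin 12 → ZMod 3 :=
  ![![2, 0, 1, 2, 1, 1, 0, 0, 0, 0, 0, 2],
    ![0, 2, 0, 1, 2, 1, 1, 0, 0, 0, 0, 2],
    ![0, 0, 2, 0, 1, 2, 1, 1, 0, 0, 0, 2],
    ![0, 0, 0, 2, 0, 1, 2, 1, 1, 0, 0, 2],
    ![0, 0, 0, 0, 2, 0, 1, 2, 1, 1, 0, 2],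
    ![0, 0, 0, 0, 0, 2, 0, 1, 2, 1, 1, 2]]

/-- the coordinates of the word with message `(a,b,c,d,e,f)` -/
def ev (a b c d e f : ZMod 3) (i : Fin 12) : ZMod 3 :=
  a * G 0 i + b * G 1 i + c * G 2 i + d * G 3 i + e * G 4 i + f * G 5 i

/-- the zero set of a word, as a bit mask -/
def zmask (a b c d e f : ZMod 3) : ℕ :=
  (if ev a b c d e f 0 = 0 then 1 else 0) +
  (if ev a b c d e f 1 = 0 then 2 else 0) +
  (if ev a b c d e f 2 = 0 then 4 else 0) +
  (if ev a b c d e f 3 = 0 then 8 else 0) +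
  (if ev a b c d e f 4 = 0 then 16 else 0) +
  (if ev a b c d e f 5 = 0 then 32 else 0) +
  (if ev a b c d e f 6 = 0 then 64 else 0) +
  (if ev a b c d e f 7 = 0 then 128 else 0) +
  (if ev a b c d e f 8 = 0 then 256 else 0) +
  (if ev a b c d e f 9 = 0 then 512 else 0) +
  (if ev a b c d e f 10 = 0 then 1024 else 0) +
  (if ev a b c d e f 11 = 0 then 2048 else 0)

/-- the blocks, as bit masks -/
def masks : List ℕ :=
  [95, 1071, 399, 2575, 311, 2199, 1559, 2151, 679, 1223, 839,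
   3335, 571, 1179, 2331, 363, 2219, 715, 3147, 1803, 243, 3123,
   1363, 2643, 915, 1635, 1443, 2851, 2499, 3715, 2109, 669, 1309,
   237, 813, 2381, 1613, 3213, 629, 1205, 469, 3157, 2837, 1381,
   2469, 3621, 2757, 1925, 1145, 441, 2265, 857, 3609, 2665, 1705,
   3369, 1481, 2953, 2417, 2737, 1841, 1745, 3473, 993, 3297, 3905,
   190, 798, 3102, 622, 2350, 2254, 1358, 1678, 1142, 2614, 726,
   2390, 1430, 486, 3238, 1830, 3654, 2950, 2170, 1338, 474, 1626,
   2714, 1258, 938, 3626, 2890, 3466, 882, 2482, 1714, 3282, 3858,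
   2786, 3426, 1986, 380, 1596, 1244, 2652, 2460, 3180, 1452, 2732,
   972, 3852, 2292, 948, 3380, 1876, 3732, 1764, 2916, 3524, 760,
   3256, 2872, 3416, 1944, 2536, 1896, 3784, 1520, 3696, 3024, 4000]

/-- the set with a given bit mask -/
def ofMask (m : ℕ) : Finset (Fin 12) := Finset.univ.filter fun i => m.testBit i = true

theorem zeros_eq (a b c d e f : ZMod 3) :
    (Finset.univ.filter fun i => ev a b c d e f i = 0) = ofMask (zmask a b c d e f) := by
  revert a b c d e f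
  decide +kernel

theorem word_cases (a b c d e f : ZMod 3) :
    (a = 0 ∧ b = 0 ∧ c = 0 ∧ d = 0 ∧ e = 0 ∧ f = 0) ∨
    (ofMask (zmask a b c d e f)).card ≤ 4 ∨ zmask a b c d e f ∈ masks := by
  revert a b c d e f
  decide +kernel

theorem blocks_inter : ∀ x ∈ masks, ∀ y ∈ masks, x = y ∨ (ofMask x ∩ ofMask y).card ≤ 4 := by
  decide +kernel

theorem blocks_card : ∀ x ∈ masks, (ofMask x).card = 6 := by
  decide +kernel

end Pool.Agent.Helper138_LS.G12
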