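import Pool.Agent.H480R2.LS.Fam

/-!
A power saving for relations whose closure structure contains a Vamos type configuration
(four lines, five of the six pairs coplanar, no three coplanar): `|R| ^ 8 ≤ 114 n ^ 31`.
-/

set_option autoImplicit false

open Finset

namespace Pool.Agent.Helper138_LS

section pop

variable {ι W Z : Type*} [DecidableEq ι] [Fintype W] [DecidableEq W] [DecidableEq Z] {n : ℕ}

/-- values of `a` on the fibre `w = w0`, `z = z0` -/
def UU (Ω : Finset ι) (w : ι → W) (a : ι → Fin n) (z : ι → Z) (w0 : W) (z0 : Z) : Finset (Fin n) :=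
  (Ω.filter fun j => w j = w0 ∧ z j = z0).image a

theorem bad_card (Ω : Finset ι) (w : ι → W) (a b : ι → Fin n) (z : ι → Z)
    (hb : ∀ i ∈ Ω, ∀ j ∈ Ω, w i = w j → b i = b j → z i = z j)
    (hab : ∀ i ∈ Ω, ∀ j ∈ Ω, w i = w j → a i = a j → b i = b j → i = j) (θ : ℝ) (hθ : 0 ≤ θ) :
    ((Ω.filter fun i => ((UU Ω w a z (w i) (z i)).card : ℝ) < θ).card : ℝ)
      ≤ θ * (Fintype.card W * n) := by
  classical
  set B := Ω.filter fun i => ((UU Ω w a z (w i) (z i)).card : ℝ) < θ with hB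
  have h1 : B.card = ∑ p : W × Fin n, (B.filter fun i => (w i, b i) = p).card :=
    Finset.card_eq_sum_card_fiberwise (fun _ _ => Finset.mem_univ _)
  have h2 : ∀ p : W × Fin n, ((B.filter fun i => (w i, b i) = p).card : ℝ) ≤ θ := by
    intro p
    rcases Finset.eq_empty_or_nonempty (B.filter fun i => (w i, b i) = p) with he | ⟨i0, hi0⟩
    · rw [he]; simpa using hθ
    · rw [Finset.mem_filter, hB, Finset.mem_filter] at hi0
      have h3 : (B.filter fun i => (w i, b i) = p).card ≤ (UU Ω w a z (w i0) (z i0)).card := by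
        apply Finset.card_le_card_of_injOn a
        · intro i hi
          rw [Finset.mem_coe, Finset.mem_filter, hB, Finset.mem_filter] at hi
          rw [Finset.mem_coe, UU, Finset.mem_image]
          have h4 : (w i, b i) = (w i0, b i0) := hi.2.trans hi0.2.symm
          have h5 := Prod.ext_iff.mp h4
          refine ⟨i, ?_, rfl⟩
          rw [Finset.mem_filter]
          exact ⟨hi.1.1, h5.1, hb i hi.1.1 i0 hi0.1.1 h5.1 h5.2⟩
        · intro i hi j hj hij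
          rw [Finset.mem_coe, Finset.mem_filter, hB, Finset.mem_filter] at hi hj
          have h4 : (w i, b i) = (w j, b j) := hi.2.trans hj.2.symm
          have h5 := Prod.ext_iff.mp h4
          exact hab i hi.1.1 j hj.1.1 h5.1 hij h5.2
      calc ((B.filter fun i => (w i, b i) = p).card : ℝ) ≤ ((UU Ω w a z (w i0) (z i0)).card : ℝ) := by
            exact_mod_cast h3
        _ ≤ θ := hi0.1.2.le
  calc (B.card : ℝ) = ∑ p : W × Fin n, ((B.filter fun i => (w i, b i) = p).card : ℝ) := by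
        rw [h1]; push_cast; rfl
    _ ≤ ∑ p : W × Fin n, θ := Finset.sum_le_sum (fun p _ => h2 p)
    _ = θ * (Fintype.card W * n) := by
        rw [Finset.sum_const, Finset.card_univ, Fintype.card_prod, Fintype.card_fin, nsmul_eq_mul]
        push_cast
        ring

theorem pop_card [Fintype Z] (Ω : Finset ι) (w : ι → W) (a : ι → Fin n) (z : ι → Z)
    (ha : ∀ i ∈ Ω, ∀ j ∈ Ω, w i = w j → a i = a j → z i = z j) (θ : ℝ) (w0 : W) :
    θ * ((Finset.univ.filter fun z0 => θ ≤ ((UU Ω w a z w0 z0).card : ℝ)).card : ℝ) ≤ n := by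
  classical
  have h1 : ∑ z0 : Z, (UU Ω w a z w0 z0).card ≤ n := by
    rw [← Finset.card_biUnion]
    · calc _ ≤ (Finset.univ : Finset (Fin n)).card := Finset.card_le_univ _
        _ = n := by simp
    · intro x _ y _ hxy
      rw [Function.onFun, Finset.disjoint_left]
      intro t ht1 ht2
      rw [UU, Finset.mem_image] at ht1 ht2
      obtain ⟨i, hi, hi'⟩ := ht1
      obtain ⟨j, hj, hj'⟩ := ht2
      rw [Finset.mem_filter] at hi hj
      apply hxy
      rw [← hi.2.2, ← hj.2.2]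
      exact ha i hi.1 j hj.1 (hi.2.1.trans hj.2.1.symm) (hi'.trans hj'.symm)
  calc θ * ((Finset.univ.filter fun z0 => θ ≤ ((UU Ω w a z w0 z0).card : ℝ)).card : ℝ)
      = ∑ z0 ∈ Finset.univ.filter fun z0 => θ ≤ ((UU Ω w a z w0 z0).card : ℝ), θ := by
        rw [Finset.sum_const, nsmul_eq_mul]; ring
    _ ≤ ∑ z0 ∈ Finset.univ.filter fun z0 => θ ≤ ((UU Ω w a z w0 z0).card : ℝ),
          ((UU Ω w a z w0 z0).card : ℝ) := by
        apply Finset.sum_le_sum
        intro z0 hz0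
        exact (Finset.mem_filter.mp hz0).2
    _ ≤ ∑ z0 : Z, ((UU Ω w a z w0 z0).card : ℝ) := by
        apply Finset.sum_le_sum_of_subset_of_nonneg (Finset.subset_univ _)
        intro _ _ _
        positivity
    _ ≤ n := by exact_mod_cast h1

end pop

theorem sq_sum_le {ι : Type*} (s : Finset ι) (x u v : ι → ℝ) (M : ℝ) (hM : 0 ≤ M)
    (hu : ∀ i ∈ s, 0 ≤ u i) (hv : ∀ i ∈ s, 0 ≤ v i) (hx : ∀ i ∈ s, 0 ≤ x i)
    (h1 : ∀ i ∈ s, x i ≤ u i * v i) (h2 : ∀ i ∈ s, x i ≤ M) :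
    (∑ i ∈ s, x i) ^ 2 ≤ M * ((∑ i ∈ s, u i) * (∑ i ∈ s, v i)) := by
  have h3 : ∀ i ∈ s, x i ≤ Real.sqrt (M * u i) * Real.sqrt (v i) := by
    intro i hi
    rw [← Real.sqrt_mul (mul_nonneg hM (hu i hi))]
    apply Real.le_sqrt_of_sq_le
    calc x i ^ 2 = x i * x i := sq _
      _ ≤ M * (u i * v i) := mul_le_mul (h2 i hi) (h1 i hi) (hx i hi) hM
      _ = M * u i * v i := by ring
  have h4 : 0 ≤ ∑ i ∈ s, x i := Finset.sum_nonneg hx
  calc (∑ i ∈ s, x i) ^ 2 ≤ (∑ i ∈ s, Real.sqrt (M * u i) * Real.sqrt (v i)) ^ 2 :=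
        pow_le_pow_left₀ h4 (Finset.sum_le_sum h3) 2
    _ ≤ (∑ i ∈ s, Real.sqrt (M * u i) ^ 2) * (∑ i ∈ s, Real.sqrt (v i) ^ 2) :=
        Finset.sum_mul_sq_le_sq_mul_sq s _ _
    _ = (∑ i ∈ s, M * u i) * (∑ i ∈ s, v i) := by
        congr 1
        · exact Finset.sum_congr rfl fun i hi => Real.sq_sqrt (mul_nonneg hM (hu i hi))
        · exact Finset.sum_congr rfl fun i hi => Real.sq_sqrt (hv i hi)
    _ = M * ((∑ i ∈ s, u i) * (∑ i ∈ s, v i)) := by
        rw [← Finset.mul_sum]; ring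

/-- abstract counting lemma -/
theorem count_abs {ι γ δ : Type*} [DecidableEq ι] [Fintype γ] [DecidableEq γ] [Fintype δ] [DecidableEq δ]
    {n : ℕ} (hγ : Fintype.card γ = n ^ 2) (hδ : Fintype.card δ = n ^ 2)
    (Ω : Finset ι) (c : ι → γ) (d : ι → δ) (r z a b : ι → Fin n)
    (hca : ∀ i ∈ Ω, ∀ j ∈ Ω, c i = c j → r i = r j → a i = a j → z i = z j)
    (hcb : ∀ i ∈ Ω, ∀ j ∈ Ω, c i = c j → r i = r j → b i = b j → z i = z j)
    (hcab : ∀ i ∈ Ω, ∀ j ∈ Ω, c i = c j → r i = r j → a i = a j → b i = b j → i = j)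
    (hda : ∀ i ∈ Ω, ∀ j ∈ Ω, d i = d j → r i = r j → a i = a j → z i = z j)
    (hdb : ∀ i ∈ Ω, ∀ j ∈ Ω, d i = d j → r i = r j → b i = b j → z i = z j)
    (hdab : ∀ i ∈ Ω, ∀ j ∈ Ω, d i = d j → r i = r j → a i = a j → b i = b j → i = j)
    (hcd : ∀ i ∈ Ω, ∀ j ∈ Ω, c i = c j → d i = d j → r i = r j → i = j)
    (h4 : ∀ ρ ζ, (Ω.filter fun i => r i = ρ ∧ z i = ζ).card ≤ n ^ 3) :
    9 * (Ω.card : ℝ) ^ 4 ≤ 1024 * (n : ℝ) ^ 19 := by
  classical
  rcases Finset.eq_empty_or_nonempty Ω with he | hne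
  · subst he
    have h0 : 9 * (((∅ : Finset ι).card : ℕ) : ℝ) ^ 4 = 0 := by simp
    rw [h0]
    positivity
  have hnpos : 0 < n := by
    obtain ⟨i, _⟩ := hne
    exact (r i).pos
  have hn0 : (0:ℝ) < n := by exact_mod_cast hnpos
  set N : ℝ := (Ω.card : ℝ) with hN
  have hNpos : 0 < N := by
    rw [hN]
    exact_mod_cast Finset.card_pos.mpr hne
  set θ : ℝ := N / (8 * n ^ 4) with hθ
  have hθpos : 0 < θ := by rw [hθ]; positivity
  set wc : ι → γ × Fin n := fun i => (c i, r i) with hwc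
  set wd : ι → δ × Fin n := fun i => (d i, r i) with hwd
  have hWc : (Fintype.card (γ × Fin n) : ℝ) = n ^ 3 := by
    rw [Fintype.card_prod, hγ, Fintype.card_fin]; push_cast; ring
  have hWd : (Fintype.card (δ × Fin n) : ℝ) = n ^ 3 := by
    rw [Fintype.card_prod, hδ, Fintype.card_fin]; push_cast; ring
  have hbc := bad_card Ω wc a b z
    (fun i hi j hj h1 h2 => hcb i hi j hj (Prod.ext_iff.mp h1).1 (Prod.ext_iff.mp h1).2 h2)
    (fun i hi j hj h1 h2 h3 => hcab i hi j hj (Prod.ext_iff.mp h1).1 (Prod.ext_iff.mp h1).2 h2 h3)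
    θ hθpos.le
  have hbd := bad_card Ω wd a b z
    (fun i hi j hj h1 h2 => hdb i hi j hj (Prod.ext_iff.mp h1).1 (Prod.ext_iff.mp h1).2 h2)
    (fun i hi j hj h1 h2 h3 => hdab i hi j hj (Prod.ext_iff.mp h1).1 (Prod.ext_iff.mp h1).2 h2 h3)
    θ hθpos.le
  rw [hWc] at hbc
  rw [hWd] at hbd
  have hθn : θ * ((n:ℝ) ^ 3 * n) = N / 8 := by
    rw [hθ]; field_simp
  rw [hθn] at hbc hbd
  set G := Ω.filter fun i => θ ≤ ((UU Ω wc a z (wc i) (z i)).card : ℝ) ∧
    θ ≤ ((UU Ω wd a z (wd i) (z i)).card : ℝ) with hG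
  have hGcard : 3 / 4 * N ≤ (G.card : ℝ) := by
    have h1 : Ω ⊆ G ∪ ((Ω.filter fun i => ((UU Ω wc a z (wc i) (z i)).card : ℝ) < θ) ∪
        (Ω.filter fun i => ((UU Ω wd a z (wd i) (z i)).card : ℝ) < θ)) := by
      intro i hi
      rw [Finset.mem_union, Finset.mem_union, hG, Finset.mem_filter, Finset.mem_filter,
        Finset.mem_filter]
      by_cases h1 : θ ≤ ((UU Ω wc a z (wc i) (z i)).card : ℝ)
      · by_cases h2 : θ ≤ ((UU Ω wd a z (wd i) (z i)).card : ℝ)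
        · exact Or.inl ⟨hi, h1, h2⟩
        · exact Or.inr (Or.inr ⟨hi, not_le.mp h2⟩)
      · exact Or.inr (Or.inl ⟨hi, not_le.mp h1⟩)
    have h2 := (Finset.card_le_card h1).trans (Finset.card_union_le _ _)
    have h3 := Finset.card_union_le (Ω.filter fun i => ((UU Ω wc a z (wc i) (z i)).card : ℝ) < θ)
      (Ω.filter fun i => ((UU Ω wd a z (wd i) (z i)).card : ℝ) < θ)
    have h4 : (Ω.card : ℝ) ≤ (G.card : ℝ) +
        (((Ω.filter fun i => ((UU Ω wc a z (wc i) (z i)).card : ℝ) < θ).card : ℝ) +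
        ((Ω.filter fun i => ((UU Ω wd a z (wd i) (z i)).card : ℝ) < θ).card : ℝ)) := by
      exact_mod_cast h2.trans (Nat.add_le_add_left h3 _)
    rw [← hN] at h4
    linarith
  -- sums over the pairs (r,z)
  set CC : Fin n × Fin n → Finset γ := fun p =>
    Finset.univ.filter fun c0 => θ ≤ ((UU Ω wc a z (c0, p.1) p.2).card : ℝ) with hCC
  set DD : Fin n × Fin n → Finset δ := fun p =>
    Finset.univ.filter fun c0 => θ ≤ ((UU Ω wd a z (c0, p.1) p.2).card : ℝ) with hDD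
  set X : Fin n × Fin n → ℝ := fun p => ((G.filter fun i => (r i, z i) = p).card : ℝ) with hX
  have hXsum : ∑ p, X p = (G.card : ℝ) := by
    have : G.card = ∑ p : Fin n × Fin n, (G.filter fun i => (r i, z i) = p).card :=
      Finset.card_eq_sum_card_fiberwise (fun _ _ => Finset.mem_univ _)
    rw [this, hX]; push_cast; rfl
  have hCsum : θ * ∑ p, ((CC p).card : ℝ) ≤ n ^ 4 := by
    have h1 : ∑ p : Fin n × Fin n, ((CC p).card : ℝ) =
        ∑ q : γ × Fin n, ((Finset.univ.filter fun z0 => θ ≤ ((UU Ω wc a z q z0).card : ℝ)).card : ℝ) := by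
      have h2 : ∑ p : Fin n × Fin n, (CC p).card =
          ∑ q : γ × Fin n, (Finset.univ.filter fun z0 => θ ≤ ((UU Ω wc a z q z0).card : ℝ)).card := by
        simp_rw [hCC, Finset.card_filter]
        rw [Fintype.sum_prod_type, Fintype.sum_prod_type_right]
        apply Finset.sum_congr rfl
        intro ρ _
        rw [Finset.sum_comm]
      exact_mod_cast h2
    rw [h1, Finset.mul_sum]
    calc ∑ q : γ × Fin n, θ * ((Finset.univ.filter fun z0 =>
          θ ≤ ((UU Ω wc a z q z0).card : ℝ)).card : ℝ)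
        ≤ ∑ q : γ × Fin n, (n:ℝ) := Finset.sum_le_sum fun q _ => pop_card Ω wc a z
          (fun i hi j hj h1 h2 => hca i hi j hj (Prod.ext_iff.mp h1).1 (Prod.ext_iff.mp h1).2 h2) θ q
      _ = n ^ 4 := by
          rw [Finset.sum_const, Finset.card_univ, nsmul_eq_mul, hWc]; ring
  have hDsum : θ * ∑ p, ((DD p).card : ℝ) ≤ n ^ 4 := by
    have h1 : ∑ p : Fin n × Fin n, ((DD p).card : ℝ) =
        ∑ q : δ × Fin n, ((Finset.univ.filter fun z0 => θ ≤ ((UU Ω wd a z q z0).card : ℝ)).card : ℝ) := by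
      have h2 : ∑ p : Fin n × Fin n, (DD p).card =
          ∑ q : δ × Fin n, (Finset.univ.filter fun z0 => θ ≤ ((UU Ω wd a z q z0).card : ℝ)).card := by
        simp_rw [hDD, Finset.card_filter]
        rw [Fintype.sum_prod_type, Fintype.sum_prod_type_right]
        apply Finset.sum_congr rfl
        intro ρ _
        rw [Finset.sum_comm]
      exact_mod_cast h2
    rw [h1, Finset.mul_sum]
    calc ∑ q : δ × Fin n, θ * ((Finset.univ.filter fun z0 =>
          θ ≤ ((UU Ω wd a z q z0).card : ℝ)).card : ℝ)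
        ≤ ∑ q : δ × Fin n, (n:ℝ) := Finset.sum_le_sum fun q _ => pop_card Ω wd a z
          (fun i hi j hj h1 h2 => hda i hi j hj (Prod.ext_iff.mp h1).1 (Prod.ext_iff.mp h1).2 h2) θ q
      _ = n ^ 4 := by
          rw [Finset.sum_const, Finset.card_univ, nsmul_eq_mul, hWd]; ring
  have hmain := sq_sum_le Finset.univ X (fun p => ((CC p).card : ℝ)) (fun p => ((DD p).card : ℝ))
    ((n:ℝ) ^ 3) (by positivity) (fun _ _ => by positivity) (fun _ _ => by positivity)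
    (fun _ _ => by rw [hX]; positivity)
    (by
      intro p _
      have h5 : (G.filter fun i => (r i, z i) = p).card ≤ ((CC p) ×ˢ (DD p)).card := by
        apply Finset.card_le_card_of_injOn (fun i => (c i, d i))
        · intro i hi
          rw [Finset.mem_coe, Finset.mem_filter, hG, Finset.mem_filter] at hi
          obtain ⟨⟨hi1, hi2, hi3⟩, hi4⟩ := hi
          have h6 := Prod.ext_iff.mp hi4
          simp only at h6
          rw [Finset.mem_coe, Finset.mem_product]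
          refine ⟨?_, ?_⟩
          · rw [hCC]
            simp only [Finset.mem_filter, Finset.mem_univ, true_and]
            rw [← h6.1, ← h6.2]
            exact hi2
          · rw [hDD]
            simp only [Finset.mem_filter, Finset.mem_univ, true_and]
            rw [← h6.1, ← h6.2]
            exact hi3
        · intro i hi j hj hij
          rw [Finset.mem_coe, Finset.mem_filter, hG, Finset.mem_filter] at hi hj
          have h6 := Prod.ext_iff.mp hi.2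
          have h7 := Prod.ext_iff.mp hj.2
          have h8 := Prod.ext_iff.mp hij
          exact hcd i hi.1.1 j hj.1.1 h8.1 h8.2 (h6.1.trans h7.1.symm)
      rw [Finset.card_product] at h5
      show ((G.filter fun i => (r i, z i) = p).card : ℝ) ≤ ((CC p).card : ℝ) * ((DD p).card : ℝ)
      exact_mod_cast h5)
    (by
      intro p _
      have h5 : (G.filter fun i => (r i, z i) = p).card ≤
          (Ω.filter fun i => r i = p.1 ∧ z i = p.2).card := by
        apply Finset.card_le_card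
        intro i hi
        rw [Finset.mem_filter, hG, Finset.mem_filter] at hi
        rw [Finset.mem_filter]
        exact ⟨hi.1.1, (Prod.ext_iff.mp hi.2).1, (Prod.ext_iff.mp hi.2).2⟩
      have h6 := h5.trans (h4 p.1 p.2)
      show ((G.filter fun i => (r i, z i) = p).card : ℝ) ≤ ((n:ℝ) ^ 3)
      exact_mod_cast h6)
  rw [hXsum] at hmain
  have hSC0 : 0 ≤ ∑ p : Fin n × Fin n, ((CC p).card : ℝ) :=
    Finset.sum_nonneg fun p _ => Nat.cast_nonneg _
  have hSD0 : 0 ≤ ∑ p : Fin n × Fin n, ((DD p).card : ℝ) :=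
    Finset.sum_nonneg fun p _ => Nat.cast_nonneg _
  generalize (∑ p : Fin n × Fin n, ((CC p).card : ℝ)) = SC at *
  generalize (∑ p : Fin n × Fin n, ((DD p).card : ℝ)) = SD at *
  have h7 : (3 / 4 * N) ^ 2 ≤ (n:ℝ) ^ 3 * (SC * SD) :=
    (pow_le_pow_left₀ (by positivity) hGcard 2).trans hmain
  have h8 : θ ^ 2 * (SC * SD) ≤ (n:ℝ) ^ 8 := by
    calc θ ^ 2 * (SC * SD) = (θ * SC) * (θ * SD) := by ring
      _ ≤ n ^ 4 * n ^ 4 := mul_le_mul hCsum hDsum (by positivity) (by positivity)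
      _ = (n:ℝ) ^ 8 := by ring
  have h9 : θ ^ 2 * (3 / 4 * N) ^ 2 ≤ (n:ℝ) ^ 11 := by
    calc θ ^ 2 * (3 / 4 * N) ^ 2 ≤ θ ^ 2 * ((n:ℝ) ^ 3 * (SC * SD)) :=
          mul_le_mul_of_nonneg_left h7 (by positivity)
      _ = (n:ℝ) ^ 3 * (θ ^ 2 * (SC * SD)) := by ring
      _ ≤ (n:ℝ) ^ 3 * (n:ℝ) ^ 8 := mul_le_mul_of_nonneg_left h8 (by positivity)
      _ = (n:ℝ) ^ 11 := by ring
  have h10 : θ ^ 2 * (3 / 4 * N) ^ 2 = 9 * N ^ 4 / (1024 * (n:ℝ) ^ 8) := by
    rw [hθ]; field_simp; ring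
  rw [h10, div_le_iff₀ (by positivity)] at h9
  calc 9 * N ^ 4 ≤ (n:ℝ) ^ 11 * (1024 * (n:ℝ) ^ 8) := h9
    _ = 1024 * (n:ℝ) ^ 19 := by ring

open Pool.Agent.H480R2.LS

/-- A Vamos type configuration of positions for a family `T` of proper subsets of the set of
positions: the lines `a1a2`, `b1b2`, `c1c2`, `d1d2`, all pairs of lines coplanar except `c`, `d`,
the lines `a,b,c` not coplanar, the lines `a,b,d` not coplanar. -/
def Vam {k : ℕ} (T : Finset (Finset (Fin k))) (a1 a2 b1 b2 c1 c2 d1 d2 : Fin k) : Prop :=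
  (∀ A ∈ T, a1 ∈ A → a2 ∈ A → b1 ∈ A → b2 ∈ A) ∧
  (∀ A ∈ T, a1 ∈ A → a2 ∈ A → c1 ∈ A → c2 ∈ A) ∧
  (∀ A ∈ T, a1 ∈ A → c1 ∈ A → c2 ∈ A → a2 ∈ A) ∧
  (∀ A ∈ T, b1 ∈ A → b2 ∈ A → c1 ∈ A → c2 ∈ A) ∧
  (∀ A ∈ T, b1 ∈ A → c1 ∈ A → c2 ∈ A → b2 ∈ A) ∧
  (∀ A ∈ T, a1 ∈ A → d1 ∈ A → d2 ∈ A → a2 ∈ A) ∧
  (∀ A ∈ T, b1 ∈ A → d1 ∈ A → d2 ∈ A → b2 ∈ A) ∧
  (∀ A ∈ T, ¬ (a1 ∈ A ∧ a2 ∈ A ∧ b1 ∈ A ∧ c1 ∈ A)) ∧
  (∀ A ∈ T, ¬ (a1 ∈ A ∧ b1 ∈ A ∧ c1 ∈ A ∧ c2 ∈ A)) ∧
  (∀ A ∈ T, ¬ (a1 ∈ A ∧ b1 ∈ A ∧ d1 ∈ A ∧ d2 ∈ A)) ∧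
  (∀ A ∈ T, ¬ (c1 ∈ A ∧ c2 ∈ A ∧ d1 ∈ A ∧ d2 ∈ A))

section rel

variable {k n : ℕ} {T : Finset (Finset (Fin k))} {R : Finset (Fin k → Fin n)}

theorem det3 (hR : PatIn R T) {x y z w : Fin k} (h : ∀ A ∈ T, x ∈ A → y ∈ A → z ∈ A → w ∈ A)
    {f g : Fin k → Fin n} (hf : f ∈ R) (hg : g ∈ R) (hx : f x = g x) (hy : f y = g y)
    (hz : f z = g z) : f w = g w := by
  by_cases hfg : f = g
  · rw [hfg]
  · exact mem_agr.mp (h _ (hR f hf g hg hfg) (mem_agr.mpr hx) (mem_agr.mpr hy) (mem_agr.mpr hz))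

theorem det4 (hR : PatIn R T) {x y z w : Fin k} (h : ∀ A ∈ T, ¬ (x ∈ A ∧ y ∈ A ∧ z ∈ A ∧ w ∈ A))
    {f g : Fin k → Fin n} (hf : f ∈ R) (hg : g ∈ R) (hx : f x = g x) (hy : f y = g y)
    (hz : f z = g z) (hw : f w = g w) : f = g := by
  by_contra hfg
  exact h _ (hR f hf g hg hfg) ⟨mem_agr.mpr hx, mem_agr.mpr hy, mem_agr.mpr hz, mem_agr.mpr hw⟩

/-- **the power saving** -/
theorem vamos_rel (hR : PatIn R T) {a1 a2 b1 b2 c1 c2 d1 d2 : Fin k}
    (hV : Vam T a1 a2 b1 b2 c1 c2 d1 d2) :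
    9 * (R.card : ℝ) ^ 8 ≤ 1024 * (n : ℝ) ^ 31 := by
  classical
  obtain ⟨v1, v2, v3, v4, v5, v6, v7, v8, v9, v10, v11⟩ := hV
  set Ω : Finset ((Fin k → Fin n) × (Fin k → Fin n)) := (R ×ˢ R).filter fun p =>
    p.1 a1 = p.2 a1 ∧ p.1 a2 = p.2 a2 ∧ p.1 b1 = p.2 b1 with hΩ
  have hmem : ∀ p ∈ Ω, p.1 ∈ R ∧ p.2 ∈ R ∧ p.1 a1 = p.2 a1 ∧ p.1 a2 = p.2 a2 ∧ p.1 b1 = p.2 b1 ∧
      p.1 b2 = p.2 b2 := by
    intro p hp
    rw [hΩ, Finset.mem_filter, Finset.mem_product] at hp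
    exact ⟨hp.1.1, hp.1.2, hp.2.1, hp.2.2.1, hp.2.2.2,
      det3 hR v1 hp.1.1 hp.1.2 hp.2.1 hp.2.2.1 hp.2.2.2⟩
  have hcs : (R.card : ℝ) ^ 2 ≤ (n:ℝ) ^ 3 * (Ω.card : ℝ) := by
    set t : (Fin k → Fin n) → Fin n × Fin n × Fin n := fun f => (f a1, f a2, f b1) with ht
    have h1 : R.card = ∑ q : Fin n × Fin n × Fin n, (R.filter fun f => t f = q).card :=
      Finset.card_eq_sum_card_fiberwise (fun _ _ => Finset.mem_univ _)
    have h2 : Ω.card = ∑ q : Fin n × Fin n × Fin n, ((R.filter fun f => t f = q).card) ^ 2 := by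
      have h3 : Ω.card = ∑ q : Fin n × Fin n × Fin n, (Ω.filter fun p => t p.1 = q).card :=
        Finset.card_eq_sum_card_fiberwise (fun _ _ => Finset.mem_univ _)
      rw [h3]
      apply Finset.sum_congr rfl
      intro q _
      rw [sq, ← Finset.card_product]
      congr 1
      ext p
      rw [Finset.mem_filter, hΩ, Finset.mem_filter, Finset.mem_product, Finset.mem_product,
        Finset.mem_filter, Finset.mem_filter]
      constructor
      · rintro ⟨⟨⟨h4, h5⟩, h6, h7, h8⟩, h9⟩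
        refine ⟨⟨h4, h9⟩, h5, ?_⟩
        rw [← h9, ht]
        simp only [h6, h7, h8]
      · rintro ⟨⟨h4, h5⟩, h6, h7⟩
        have h8 : t p.1 = t p.2 := h5.trans h7.symm
        rw [ht] at h8
        simp only [Prod.mk.injEq] at h8
        exact ⟨⟨⟨h4, h6⟩, h8.1, h8.2.1, h8.2.2⟩, h5⟩
    have h3 := sq_sum_le_card_mul_sum_sq (s := (Finset.univ : Finset (Fin n × Fin n × Fin n)))
      (f := fun q => ((R.filter fun f => t f = q).card : ℝ))
    have h4 : (Finset.univ : Finset (Fin n × Fin n × Fin n)).card = n ^ 3 := by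
      simp [Finset.card_univ]; ring
    rw [h4] at h3
    have h5 : (R.card : ℝ) = ∑ q : Fin n × Fin n × Fin n, ((R.filter fun f => t f = q).card : ℝ) := by
      rw [h1]; push_cast; rfl
    have h6 : (Ω.card : ℝ) = ∑ q : Fin n × Fin n × Fin n, ((R.filter fun f => t f = q).card : ℝ) ^ 2 := by
      rw [h2]; push_cast; rfl
    rw [h5, h6]
    calc _ ≤ _ := h3
      _ = _ := by push_cast; rfl
  have hmain := count_abs (n := n) (γ := Fin n × Fin n) (δ := Fin n × Fin n)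
    (by simp [sq]) (by simp [sq]) Ω
    (fun p => (p.1 c1, p.1 c2)) (fun p => (p.1 d1, p.1 d2)) (fun p => p.2 c1) (fun p => p.2 c2)
    (fun p => p.1 a1) (fun p => p.1 b1)
    (by
      intro p hp q hq h1 h2 h3
      obtain ⟨p1, p2, p3, p4, p5, p6⟩ := hmem p hp
      obtain ⟨q1, q2, q3, q4, q5, q6⟩ := hmem q hq
      simp only [Prod.mk.injEq] at h1
      have h4 := det3 hR v3 p1 q1 h3 h1.1 h1.2
      exact det3 hR v2 p2 q2 (by rw [← p3, ← q3, h3]) (by rw [← p4, ← q4, h4]) h2)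
    (by
      intro p hp q hq h1 h2 h3
      obtain ⟨p1, p2, p3, p4, p5, p6⟩ := hmem p hp
      obtain ⟨q1, q2, q3, q4, q5, q6⟩ := hmem q hq
      simp only [Prod.mk.injEq] at h1
      have h4 := det3 hR v5 p1 q1 h3 h1.1 h1.2
      exact det3 hR v4 p2 q2 (by rw [← p5, ← q5, h3]) (by rw [← p6, ← q6, h4]) h2)
    (by
      intro p hp q hq h1 h2 h3 h3'
      obtain ⟨p1, p2, p3, p4, p5, p6⟩ := hmem p hp
      obtain ⟨q1, q2, q3, q4, q5, q6⟩ := hmem q hq
      simp only [Prod.mk.injEq] at h1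
      have h4 := det4 hR v9 p1 q1 h3 h3' h1.1 h1.2
      exact Prod.ext h4 (det4 hR v8 p2 q2 (by rw [← p3, ← q3, h4]) (by rw [← p4, ← q4, h4])
        (by rw [← p5, ← q5, h4]) h2))
    (by
      intro p hp q hq h1 h2 h3
      obtain ⟨p1, p2, p3, p4, p5, p6⟩ := hmem p hp
      obtain ⟨q1, q2, q3, q4, q5, q6⟩ := hmem q hq
      simp only [Prod.mk.injEq] at h1
      have h4 := det3 hR v6 p1 q1 h3 h1.1 h1.2
      exact det3 hR v2 p2 q2 (by rw [← p3, ← q3, h3]) (by rw [← p4, ← q4, h4]) h2)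
    (by
      intro p hp q hq h1 h2 h3
      obtain ⟨p1, p2, p3, p4, p5, p6⟩ := hmem p hp
      obtain ⟨q1, q2, q3, q4, q5, q6⟩ := hmem q hq
      simp only [Prod.mk.injEq] at h1
      have h4 := det3 hR v7 p1 q1 h3 h1.1 h1.2
      exact det3 hR v4 p2 q2 (by rw [← p5, ← q5, h3]) (by rw [← p6, ← q6, h4]) h2)
    (by
      intro p hp q hq h1 h2 h3 h3'
      obtain ⟨p1, p2, p3, p4, p5, p6⟩ := hmem p hp
      obtain ⟨q1, q2, q3, q4, q5, q6⟩ := hmem q hq
      simp only [Prod.mk.injEq] at h1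
      have h4 := det4 hR v10 p1 q1 h3 h3' h1.1 h1.2
      exact Prod.ext h4 (det4 hR v8 p2 q2 (by rw [← p3, ← q3, h4]) (by rw [← p4, ← q4, h4])
        (by rw [← p5, ← q5, h4]) h2))
    (by
      intro p hp q hq h1 h1' h2
      obtain ⟨p1, p2, p3, p4, p5, p6⟩ := hmem p hp
      obtain ⟨q1, q2, q3, q4, q5, q6⟩ := hmem q hq
      simp only [Prod.mk.injEq] at h1 h1'
      have h4 := det4 hR v11 p1 q1 h1.1 h1.2 h1'.1 h1'.2
      exact Prod.ext h4 (det4 hR v8 p2 q2 (by rw [← p3, ← q3, h4]) (by rw [← p4, ← q4, h4])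
        (by rw [← p5, ← q5, h4]) h2))
    (by
      intro ρ ζ
      have h1 : (Ω.filter fun p => p.2 c1 = ρ ∧ p.2 c2 = ζ).card ≤
          (Finset.univ : Finset (Fin n × Fin n × Fin n)).card := by
        apply Finset.card_le_card_of_injOn (fun p => (p.1 a1, p.1 b1, p.1 c1))
        · intro _ _
          simp
        · intro p hp q hq hpq
          rw [Finset.mem_coe, Finset.mem_filter] at hp hq
          obtain ⟨p1, p2, p3, p4, p5, p6⟩ := hmem p hp.1
          obtain ⟨q1, q2, q3, q4, q5, q6⟩ := hmem q hq.1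
          simp only [Prod.mk.injEq] at hpq
          have h4 := det4 hR v9 p2 q2 (by rw [← p3, ← q3, hpq.1]) (by rw [← p5, ← q5, hpq.2.1])
            (hp.2.1.trans hq.2.1.symm) (hp.2.2.trans hq.2.2.symm)
          exact Prod.ext (det4 hR v8 p1 q1 (by rw [p3, q3, h4]) (by rw [p4, q4, h4])
            (by rw [p5, q5, h4]) hpq.2.2) h4
      calc _ ≤ _ := h1
        _ = n ^ 3 := by simp [Finset.card_univ]; ring)
  calc 9 * (R.card : ℝ) ^ 8 = 9 * ((R.card : ℝ) ^ 2) ^ 4 := by ring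
    _ ≤ 9 * ((n:ℝ) ^ 3 * (Ω.card : ℝ)) ^ 4 := by
        apply mul_le_mul_of_nonneg_left _ (by norm_num)
        exact pow_le_pow_left₀ (by positivity) hcs 4
    _ = (n:ℝ) ^ 12 * (9 * (Ω.card : ℝ) ^ 4) := by ring
    _ ≤ (n:ℝ) ^ 12 * (1024 * (n:ℝ) ^ 19) := mul_le_mul_of_nonneg_left hmain (by positivity)
    _ = 1024 * (n:ℝ) ^ 31 := by ring

end rel

end Pool.Agent.Helper138_LS
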