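import Pool.Agent.Helper138_LS.RelC
import Pool.Agent.Helper138_LS.Vamos

/-!
Geometries of rank four whose planes through a point form a projective plane of order `m` (locally projective
spaces) and that contain no Vamos type configuration: the lines have `m` or `m + 1` points.
-/

set_option autoImplicit false

open Finset

namespace Pool.Agent.Helper138_LS

open Pool.Agent.H480R2.LS

/-- an intersection closed family of rank four with lines of `b` points and planes of `c` points -/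
structure LPS {k : ℕ} (T : Finset (Finset (Fin k))) (b c : ℕ) : Prop where
  ic : IC T
  sz : ∀ A ∈ T, A.card = 0 ∨ A.card = 1 ∨ A.card = b ∨ A.card = c
  cov : ∀ X : Finset (Fin k), X.card ≤ 3 → ∃ A ∈ T, X ⊆ A
  hb : 2 ≤ b
  hbc : b < c
  hck : c < k

namespace LPS

variable {k b c : ℕ} {T : Finset (Finset (Fin k))}

theorem sub_pair {x y : Fin k} {A : Finset (Fin k)} (h : ({x, y} : Finset (Fin k)) ⊆ A) :
    x ∈ A ∧ y ∈ A :=
  ⟨h (Finset.mem_insert_self _ _), h (Finset.mem_insert_of_mem (Finset.mem_singleton_self _))⟩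

theorem two_le {x y : Fin k} {A : Finset (Fin k)} (hxy : x ≠ y) (hx : x ∈ A) (hy : y ∈ A) :
    2 ≤ A.card := Finset.one_lt_card.mpr ⟨x, hx, y, hy, hxy⟩

theorem line_sub (h : LPS T b c) {A B : Finset (Fin k)} (hA : A ∈ T) (hAb : A.card = b) (hB : B ∈ T)
    {x y : Fin k} (hxy : x ≠ y) (hx : x ∈ A) (hy : y ∈ A) (hx' : x ∈ B) (hy' : y ∈ B) : A ⊆ B := by
  have h1 := h.sz _ (h.ic A hA B hB)
  have h2 := two_le hxy (Finset.mem_inter.mpr ⟨hx, hx'⟩) (Finset.mem_inter.mpr ⟨hy, hy'⟩)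
  have h3 := Finset.card_le_card (Finset.inter_subset_left : A ∩ B ⊆ A)
  have h4 := h.hbc
  have h5 : A ∩ B = A := Finset.eq_of_subset_of_card_le Finset.inter_subset_left (by omega)
  rw [← h5]
  exact Finset.inter_subset_right

theorem lineEx (h : LPS T b c) {x y : Fin k} (hxy : x ≠ y) : ∃ A ∈ T, A.card = b ∧ x ∈ A ∧ y ∈ A := by
  obtain ⟨C, hC, h1, h2⟩ := cl_exists h.ic {x, y} (h.cov {x, y} ((Finset.card_pair hxy).le.trans (by norm_num)))
  obtain ⟨hx, hy⟩ := sub_pair h1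
  have h3 := h.sz C hC
  have h4 := two_le hxy hx hy
  rcases h3 with h3 | h3 | h3 | h3
  · omega
  · omega
  · exact ⟨C, hC, h3, hx, hy⟩
  · exfalso
    obtain ⟨z, hz⟩ : ∃ z, z ∉ C := by
      by_contra hcon
      push Not at hcon
      have := Finset.eq_univ_iff_forall.mpr hcon
      rw [this, Finset.card_univ, Fintype.card_fin] at h3
      have := h.hck
      omega
    obtain ⟨B, hB, h5⟩ := h.cov {x, y, z} Finset.card_le_three
    have h6 : C ⊆ B := h2 B hB (by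
      intro t ht
      apply h5
      simp only [Finset.mem_insert, Finset.mem_singleton] at ht ⊢
      tauto)
    have h7 : insert z C ⊆ B := Finset.insert_subset (h5 (by simp)) h6
    have h8 := Finset.card_le_card h7
    rw [Finset.card_insert_of_notMem hz] at h8
    have h9 := h.sz B hB
    have := h.hbc
    omega

theorem two_pts (h : LPS T b c) {A : Finset (Fin k)} (hAb : A.card = b) : ∃ x ∈ A, ∃ y ∈ A, x ≠ y := by
  have := h.hb
  exact Finset.one_lt_card.mp (by omega)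

/-- a member that contains a line and a further point is a plane -/
theorem isPl (h : LPS T b c) {A B : Finset (Fin k)} (hAb : A.card = b) (hB : B ∈ T) (hAB : A ⊆ B)
    {z : Fin k} (hz : z ∈ B) (hzA : z ∉ A) : B.card = c := by
  have h1 := Finset.card_le_card (Finset.insert_subset hz hAB)
  rw [Finset.card_insert_of_notMem hzA] at h1
  have h2 := h.sz B hB
  have := h.hb
  omega

theorem plEx (h : LPS T b c) {A : Finset (Fin k)} (hA : A ∈ T) (hAb : A.card = b) {z : Fin k} (hz : z ∉ A) :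
    ∃ P ∈ T, P.card = c ∧ A ⊆ P ∧ z ∈ P := by
  obtain ⟨x, hx, y, hy, hxy⟩ := h.two_pts hAb
  obtain ⟨B, hB, h5⟩ := h.cov {x, y, z} Finset.card_le_three
  have h6 : A ⊆ B := h.line_sub hA hAb hB hxy hx hy (h5 (by simp)) (h5 (by simp))
  exact ⟨B, hB, h.isPl hAb hB h6 (h5 (by simp)) hz, h6, h5 (by simp)⟩

theorem plUniq (h : LPS T b c) {A P Q : Finset (Fin k)} (hAb : A.card = b) (hP : P ∈ T)
    (hQ : Q ∈ T) (hPc : P.card = c) (hQc : Q.card = c) (hAP : A ⊆ P) (hAQ : A ⊆ Q) {z : Fin k} (hz : z ∉ A)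
    (hzP : z ∈ P) (hzQ : z ∈ Q) : P = Q := by
  have h1 := h.isPl hAb (h.ic P hP Q hQ) (Finset.subset_inter hAP hAQ) (Finset.mem_inter.mpr ⟨hzP, hzQ⟩) hz
  have h2 : P ∩ Q = P := Finset.eq_of_subset_of_card_le Finset.inter_subset_left (by omega)
  have h3 : P ∩ Q = Q := Finset.eq_of_subset_of_card_le Finset.inter_subset_right (by omega)
  exact h2.symm.trans h3

/-- two distinct lines lie in at most one plane -/
theorem plUniq2 (h : LPS T b c) {A B P Q : Finset (Fin k)} (hAb : A.card = b) (hBb : B.card = b)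
    (hAB : A ≠ B) (hP : P ∈ T) (hQ : Q ∈ T) (hPc : P.card = c) (hQc : Q.card = c) (hAP : A ⊆ P)
    (hAQ : A ⊆ Q) (hBP : B ⊆ P) (hBQ : B ⊆ Q) : P = Q := by
  obtain ⟨z, hz⟩ : (B \ A).Nonempty := by
    rw [Finset.nonempty_iff_ne_empty]
    intro he
    rw [Finset.sdiff_eq_empty_iff_subset] at he
    exact hAB (Finset.eq_of_subset_of_card_le he (by omega)).symm
  rw [Finset.mem_sdiff] at hz
  exact h.plUniq hAb hP hQ hPc hQc hAP hAQ hz.2 (hBP hz.1) (hBQ hz.1)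

theorem inter_le (h : LPS T b c) {P Q : Finset (Fin k)} (hP : P ∈ T) (hQ : Q ∈ T) (hPc : P.card = c)
    (hQc : Q.card = c) (hPQ : P ≠ Q) : (P ∩ Q).card ≤ b := by
  have h1 := h.sz _ (h.ic P hP Q hQ)
  have := h.hb
  have h2 : (P ∩ Q).card ≠ c := by
    intro h2
    have h3 : P ∩ Q = P := Finset.eq_of_subset_of_card_le Finset.inter_subset_left (by omega)
    have h4 : P ∩ Q = Q := Finset.eq_of_subset_of_card_le Finset.inter_subset_right (by omega)
    exact hPQ (h3.symm.trans h4)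
  omega

/-- the number of planes through a line -/
theorem planes_le (h : LPS T b c) {A : Finset (Fin k)} (hAb : A.card = b) (D : Finset (Finset (Fin k)))
    (hD : ∀ P ∈ D, P ∈ T ∧ P.card = c ∧ A ⊆ P) : D.card * (c - b) ≤ k - b := by
  classical
  have h1 : ∑ P ∈ D, (P \ A).card ≤ k - b := by
    rw [← Finset.card_biUnion]
    · have h2 : D.biUnion (fun P => P \ A) ⊆ Finset.univ \ A := by
        intro t ht
        rw [Finset.mem_biUnion] at ht
        obtain ⟨P, _, hP⟩ := ht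
        rw [Finset.mem_sdiff] at hP ⊢
        exact ⟨Finset.mem_univ _, hP.2⟩
      have h3 := Finset.card_le_card h2
      rw [Finset.card_sdiff_of_subset (Finset.subset_univ _), Finset.card_univ, Fintype.card_fin, hAb] at h3
      exact h3
    · intro P hP Q hQ hPQ
      rw [Function.onFun, Finset.disjoint_left]
      intro t ht1 ht2
      rw [Finset.mem_sdiff] at ht1 ht2
      obtain ⟨p1, p2, p3⟩ := hD P hP
      obtain ⟨q1, q2, q3⟩ := hD Q hQ
      exact hPQ (h.plUniq hAb p1 q1 p2 q2 p3 q3 ht1.2 ht1.1 ht2.1)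
  have h4 : ∀ P ∈ D, (P \ A).card = c - b := by
    intro P hP
    obtain ⟨p1, p2, p3⟩ := hD P hP
    rw [Finset.card_sdiff_of_subset p3, p2, hAb]
  rw [Finset.sum_congr rfl h4, Finset.sum_const, smul_eq_mul] at h1
  exact h1

/-- two planes with a common point have a common line -/
theorem meet {β m : ℕ} (h : LPS T (β + 1) (1 + β * (m + 1))) (hk : k = 1 + β * (m ^ 2 + m + 1)) (hm : 1 ≤ m)
    {P Q : Finset (Fin k)} (hP : P ∈ T) (hQ : Q ∈ T) (hPc : P.card = 1 + β * (m + 1))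
    (hQc : Q.card = 1 + β * (m + 1)) (hPQ : P ≠ Q) {x : Fin k} (hxP : x ∈ P) (hxQ : x ∈ Q) :
    (P ∩ Q).card = β + 1 := by
  classical
  have hb := h.hb
  have hbc := h.hbc
  by_contra hcon
  have h1 : (P ∩ Q).card = 1 := by
    have h2 := h.sz _ (h.ic P hP Q hQ)
    have h3 := h.inter_le hP hQ hPc hQc hPQ
    have h4 : 0 < (P ∩ Q).card := Finset.card_pos.mpr ⟨x, Finset.mem_inter.mpr ⟨hxP, hxQ⟩⟩
    omega
  have hint : ∀ y, y ∈ P → y ∈ Q → y = x := by
    intro y hy1 hy2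
    exact Finset.card_le_one.mp h1.le y (Finset.mem_inter.mpr ⟨hy1, hy2⟩) x (Finset.mem_inter.mpr ⟨hxP, hxQ⟩)
  obtain ⟨y, hyQ, hyx⟩ : ∃ y ∈ Q, y ≠ x := Finset.exists_mem_ne (by omega) x
  have hyP : y ∉ P := fun hy => hyx (hint y hy hyQ)
  obtain ⟨A, hA, hAb, hxA, hyA⟩ := h.lineEx hyx.symm
  have hAQ : A ⊆ Q := h.line_sub hA hAb hQ hyx.symm hxA hyA hxQ hyQ
  have hzA : ∀ z ∈ P.erase x, z ∉ A := by
    intro z hz hzA
    rw [Finset.mem_erase] at hz
    exact hz.1 (hint z hz.2 (hAQ hzA))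
  have hex : ∀ z ∈ P.erase x, ∃ D ∈ T, D.card = 1 + β * (m + 1) ∧ A ⊆ D ∧ z ∈ D := fun z hz =>
    h.plEx hA hAb (hzA z hz)
  choose! D hD1 hD2 hD3 hD4 using hex
  have hPD : ∀ z ∈ P.erase x, P ≠ D z := by
    intro z hz he
    exact hyP (he ▸ hD3 z hz hyA)
  have h5 : (P.erase x).card ≤ β * ((P.erase x).image D).card := by
    apply Finset.card_le_mul_card_image
    intro E hE
    rw [Finset.mem_image] at hE
    obtain ⟨w, hw, rfl⟩ := hE
    have h6 : ((P.erase x).filter fun z => D z = D w) ⊆ (P ∩ D w).erase x := by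
      intro z hz
      rw [Finset.mem_filter] at hz
      rw [Finset.mem_erase, Finset.mem_inter]
      have h7 := Finset.mem_erase.mp hz.1
      exact ⟨h7.1, h7.2, hz.2 ▸ hD4 z hz.1⟩
    have h7 := Finset.card_le_card h6
    rw [Finset.card_erase_of_mem (Finset.mem_inter.mpr ⟨hxP, hD3 w hw hxA⟩)] at h7
    have h8 := h.inter_le hP (hD1 w hw) hPc (hD2 w hw) (hPD w hw)
    omega
  rw [Finset.card_erase_of_mem hxP, hPc, Nat.add_sub_cancel_left] at h5
  have hβ : 0 < β := by omega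
  have h9 : m + 1 ≤ ((P.erase x).image D).card := Nat.le_of_mul_le_mul_left h5 hβ
  have hQD : Q ∉ (P.erase x).image D := by
    intro hq
    rw [Finset.mem_image] at hq
    obtain ⟨z, hz, he⟩ := hq
    have h7 := Finset.mem_erase.mp hz
    exact h7.1 (hint z h7.2 (he ▸ hD4 z hz))
  have h10 := h.planes_le hAb (insert Q ((P.erase x).image D)) (by
    intro E hE
    rw [Finset.mem_insert, Finset.mem_image] at hE
    rcases hE with rfl | ⟨z, hz, rfl⟩
    · exact ⟨hQ, hQc, hAQ⟩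
    · exact ⟨hD1 z hz, hD2 z hz, hD3 z hz⟩)
  rw [Finset.card_insert_of_notMem hQD] at h10
  have h11 : 1 + β * (m + 1) - (β + 1) = β * m := by
    have : 1 + β * (m + 1) = β * m + (β + 1) := by ring
    omega
  have h12 : k - (β + 1) = (m + 1) * (β * m) := by
    have : 1 + β * (m ^ 2 + m + 1) = (m + 1) * (β * m) + (β + 1) := by ring
    omega
  rw [h11, h12] at h10
  have h13 := Nat.le_of_mul_le_mul_right h10 (Nat.mul_pos hβ (by omega))
  omega

/-- coplanar -/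
def Cop (T : Finset (Finset (Fin k))) (c : ℕ) (A B : Finset (Fin k)) : Prop :=
  ∃ P ∈ T, P.card = c ∧ A ⊆ P ∧ B ⊆ P

theorem Cop.symm {A B : Finset (Fin k)} (h : Cop T c A B) : Cop T c B A := by
  obtain ⟨P, h1, h2, h3, h4⟩ := h
  exact ⟨P, h1, h2, h4, h3⟩

theorem ext (h : LPS T b c) {A B K : Finset (Fin k)} (hAb : A.card = b) (hAB : Cop T c A B) (hK : K ∈ T)
    (hAK : A ⊆ K) {y : Fin k} (hyK : y ∈ K) (hyB : y ∈ B) (hyA : y ∉ A) : B ⊆ K := by
  obtain ⟨P, h1, h2, h3, h4⟩ := hAB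
  have h5 := h.isPl hAb hK hAK hyK hyA
  rw [h.plUniq hAb hK h1 h5 h2 hAK h3 hyA hyK (h4 hyB)]
  exact h4

/-- the bundle theorem -/
theorem bundle (h : LPS T b c) (hV : ∀ a1 a2 b1 b2 c1 c2 d1 d2, ¬ Vam T a1 a2 b1 b2 c1 c2 d1 d2)
    {A B C D : Finset (Fin k)} (hA : A ∈ T) (hB : B ∈ T) (hC : C ∈ T) (hD : D ∈ T)
    (hAb : A.card = b) (hBb : B.card = b) (hCb : C.card = b) (hDb : D.card = b)
    (dAB : Disjoint A B) (dAC : Disjoint A C) (dBC : Disjoint B C) (dAD : Disjoint A D) (dBD : Disjoint B D)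
    (AB : Cop T c A B) (AC : Cop T c A C) (BC : Cop T c B C) (AD : Cop T c A D) (BD : Cop T c B D)
    (nC : ∀ P ∈ T, P.card = c → A ⊆ P → B ⊆ P → ¬ C ⊆ P)
    (nD : ∀ P ∈ T, P.card = c → A ⊆ P → B ⊆ P → ¬ D ⊆ P) : Cop T c C D := by
  rw [Finset.disjoint_left] at dAB dAC dBC dAD dBD
  obtain ⟨a1, ha1, a2, ha2, ha⟩ := h.two_pts hAb
  obtain ⟨b1, hb1, b2, hb2, hb⟩ := h.two_pts hBb
  obtain ⟨c1, hc1, c2, hc2, hc⟩ := h.two_pts hCb
  obtain ⟨d1, hd1, d2, hd2, hd⟩ := h.two_pts hDb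
  by_contra hcon
  have hCD : C ≠ D := by
    rintro rfl
    obtain ⟨z, hz⟩ : ∃ z, z ∉ C := by
      by_contra hcon'
      push Not at hcon'
      have := Finset.eq_univ_iff_forall.mpr hcon'
      rw [this, Finset.card_univ, Fintype.card_fin] at hCb
      have := h.hck
      have := h.hbc
      omega
    obtain ⟨P, h1, h2, h3, _⟩ := h.plEx hC hCb hz
    exact hcon ⟨P, h1, h2, h3, h3⟩
  apply hV a1 a2 b1 b2 c1 c2 d1 d2
  have sA : ∀ K ∈ T, a1 ∈ K → a2 ∈ K → A ⊆ K := fun K hK e1 e2 => h.line_sub hA hAb hK ha ha1 ha2 e1 e2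
  have sB : ∀ K ∈ T, b1 ∈ K → b2 ∈ K → B ⊆ K := fun K hK e1 e2 => h.line_sub hB hBb hK hb hb1 hb2 e1 e2
  have sC : ∀ K ∈ T, c1 ∈ K → c2 ∈ K → C ⊆ K := fun K hK e1 e2 => h.line_sub hC hCb hK hc hc1 hc2 e1 e2
  have sD : ∀ K ∈ T, d1 ∈ K → d2 ∈ K → D ⊆ K := fun K hK e1 e2 => h.line_sub hD hDb hK hd hd1 hd2 e1 e2
  refine ⟨?_, ?_, ?_, ?_, ?_, ?_, ?_, ?_, ?_, ?_, ?_⟩
  · intro K hK e1 e2 e3
    exact h.ext hAb AB hK (sA K hK e1 e2) e3 hb1 (fun hh => dAB hh hb1) hb2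
  · intro K hK e1 e2 e3
    exact h.ext hAb AC hK (sA K hK e1 e2) e3 hc1 (fun hh => dAC hh hc1) hc2
  · intro K hK e1 e2 e3
    exact h.ext hCb AC.symm hK (sC K hK e2 e3) e1 ha1 (fun hh => dAC ha1 hh) ha2
  · intro K hK e1 e2 e3
    exact h.ext hBb BC hK (sB K hK e1 e2) e3 hc1 (fun hh => dBC hh hc1) hc2
  · intro K hK e1 e2 e3
    exact h.ext hCb BC.symm hK (sC K hK e2 e3) e1 hb1 (fun hh => dBC hb1 hh) hb2
  · intro K hK e1 e2 e3
    exact h.ext hDb AD.symm hK (sD K hK e2 e3) e1 ha1 (fun hh => dAD ha1 hh) ha2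
  · intro K hK e1 e2 e3
    exact h.ext hDb BD.symm hK (sD K hK e2 e3) e1 hb1 (fun hh => dBD hb1 hh) hb2
  · rintro K hK ⟨e1, e2, e3, e4⟩
    have f1 := sA K hK e1 e2
    have f2 := h.ext hAb AB hK f1 e3 hb1 (fun hh => dAB hh hb1)
    have f3 := h.ext hAb AC hK f1 e4 hc1 (fun hh => dAC hh hc1)
    exact nC K hK (h.isPl hAb hK f1 e3 (fun hh => dAB hh hb1)) f1 f2 f3
  · rintro K hK ⟨e1, e2, e3, e4⟩
    have f1 := sC K hK e3 e4
    have f2 := h.ext hCb AC.symm hK f1 e1 ha1 (fun hh => dAC ha1 hh)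
    have f3 := h.ext hCb BC.symm hK f1 e2 hb1 (fun hh => dBC hb1 hh)
    exact nC K hK (h.isPl hCb hK f1 e1 (fun hh => dAC ha1 hh)) f2 f3 f1
  · rintro K hK ⟨e1, e2, e3, e4⟩
    have f1 := sD K hK e3 e4
    have f2 := h.ext hDb AD.symm hK f1 e1 ha1 (fun hh => dAD ha1 hh)
    have f3 := h.ext hDb BD.symm hK f1 e2 hb1 (fun hh => dBD hb1 hh)
    exact nD K hK (h.isPl hDb hK f1 e1 (fun hh => dAD ha1 hh)) f2 f3 f1
  · rintro K hK ⟨e1, e2, e3, e4⟩
    have f1 := sC K hK e1 e2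
    have f2 := sD K hK e3 e4
    obtain ⟨z, hz⟩ : (D \ C).Nonempty := by
      rw [Finset.nonempty_iff_ne_empty]
      intro he
      rw [Finset.sdiff_eq_empty_iff_subset] at he
      exact hCD (Finset.eq_of_subset_of_card_le he (by omega)).symm
    rw [Finset.mem_sdiff] at hz
    exact hcon ⟨K, hK, h.isPl hCb hK f1 (f2 hz.1) hz.2, f1, f2⟩

end LPS

end Pool.Agent.Helper138_LS
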