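import Pool.Agent.Helper138_LS.LP

/-!
Locally projective spaces: spreads of lines outside a plane.
-/

set_option autoImplicit false

open Finset

namespace Pool.Agent.Helper138_LS

open Pool.Agent.H480R2.LS

namespace LPS

variable {k b c : ℕ} {T : Finset (Finset (Fin k))}

/-- the line `X` is disjoint from the plane `π` and coplanar with the lines `A` and `B` -/
def Sp (T : Finset (Finset (Fin k))) (b c : ℕ) (π A B X : Finset (Fin k)) : Prop :=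
  X ∈ T ∧ X.card = b ∧ Disjoint X π ∧ Cop T c A X ∧ Cop T c B X

/-- two disjoint lines of the plane `π` -/
def Two (T : Finset (Finset (Fin k))) (b c : ℕ) (π A B : Finset (Fin k)) : Prop :=
  π ∈ T ∧ π.card = c ∧ A ∈ T ∧ B ∈ T ∧ A.card = b ∧ B.card = b ∧ A ⊆ π ∧ B ⊆ π ∧ Disjoint A B

theorem not_both (h : LPS T b c) {π A B X : Finset (Fin k)} (hT : Two T b c π A B) (hX : X.card = b)
    (hXπ : Disjoint X π) : ∀ P ∈ T, P.card = c → A ⊆ P → B ⊆ P → ¬ X ⊆ P := by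
  obtain ⟨t1, t2, t3, t4, t5, t6, t7, t8, t9⟩ := hT
  intro P hP hPc hAP hBP hXP
  have hAB : A ≠ B := by
    rintro rfl
    have := Finset.disjoint_self_iff_empty _ |>.mp t9
    rw [this] at t5
    have := h.hb
    simp at t5
    omega
  have h1 := h.plUniq2 t5 t6 hAB hP t1 hPc t2 hAP t7 hBP t8
  subst h1
  obtain ⟨x, hx, _⟩ := h.two_pts hX
  exact Finset.disjoint_left.mp hXπ hx (hXP hx)

theorem uniqX (h : LPS T b c) {π A B X X' : Finset (Fin k)} (hT : Two T b c π A B) (hX : Sp T b c π A B X)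
    (hX' : Sp T b c π A B X') {p : Fin k} (hp : p ∈ X) (hp' : p ∈ X') : X = X' := by
  have hnb := h.not_both hT hX.2.1 hX.2.2.1
  obtain ⟨t1, t2, t3, t4, t5, t6, t7, t8, t9⟩ := hT
  obtain ⟨x1, x2, x3, ⟨P1, p1, p2, p3, p4⟩, ⟨P2, q1, q2, q3, q4⟩⟩ := hX
  obtain ⟨y1, y2, y3, ⟨Q1, r1, r2, r3, r4⟩, ⟨Q2, s1, s2, s3, s4⟩⟩ := hX'
  have hpπ : p ∉ π := Finset.disjoint_left.mp x3 hp
  have e1 : P1 = Q1 := h.plUniq t5 p1 r1 p2 r2 p3 r3 (fun hh => hpπ (t7 hh)) (p4 hp) (r4 hp')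
  have e2 : P2 = Q2 := h.plUniq t6 q1 s1 q2 s2 q3 s3 (fun hh => hpπ (t8 hh)) (q4 hp) (s4 hp')
  subst e1 e2
  have hne : P1 ≠ P2 := by
    rintro rfl
    exact hnb P1 p1 p2 p3 q3 p4
  have h1 := h.inter_le p1 q1 p2 q2 hne
  have h2 : X = P1 ∩ P2 := Finset.eq_of_subset_of_card_le (Finset.subset_inter p4 q4) (by omega)
  have h3 : X' = P1 ∩ P2 := Finset.eq_of_subset_of_card_le (Finset.subset_inter r4 s4) (by omega)
  rw [h2, h3]

/-- two lines of the spread are coplanar -/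
theorem spU (h : LPS T b c) (hV : ∀ a1 a2 b1 b2 c1 c2 d1 d2, ¬ Vam T a1 a2 b1 b2 c1 c2 d1 d2)
    {π A B X X' : Finset (Fin k)} (hT : Two T b c π A B) (hX : Sp T b c π A B X)
    (hX' : Sp T b c π A B X') : Cop T c X X' := by
  have n1 := h.not_both hT hX.2.1 hX.2.2.1
  have n2 := h.not_both hT hX'.2.1 hX'.2.2.1
  obtain ⟨t1, t2, t3, t4, t5, t6, t7, t8, t9⟩ := hT
  obtain ⟨x1, x2, x3, x4, x5⟩ := hX
  obtain ⟨y1, y2, y3, y4, y5⟩ := hX'
  exact h.bundle hV t3 t4 x1 y1 t5 t6 x2 y2 t9 (x3.symm.mono_left t7) (x3.symm.mono_left t8)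
    (y3.symm.mono_left t7) (y3.symm.mono_left t8) ⟨π, t1, t2, t7, t8⟩ x4 x5 y4 y5 n1 n2

/-- transfer -/
theorem spT (h : LPS T b c) (hV : ∀ a1 a2 b1 b2 c1 c2 d1 d2, ¬ Vam T a1 a2 b1 b2 c1 c2 d1 d2)
    {π A B X X' C : Finset (Fin k)} (hT : Two T b c π A B) (hX : Sp T b c π A B X)
    (hX' : Sp T b c π A B X') (hC : C ∈ T) (hCb : C.card = b) (hCπ : C ⊆ π) (hCX : Cop T c C X) :
    Cop T c C X' := by
  have hXX := h.spU hV hT hX hX'
  by_cases hne : X = X'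
  · subst hne
    exact hCX
  have hdX : Disjoint X X' := by
    rw [Finset.disjoint_left]
    intro p hp hp'
    exact hne (h.uniqX hT hX hX' hp hp')
  have nb := fun (Z : Finset (Fin k)) (hZ : Z.card = b) (hZπ : Disjoint Z π) => h.not_both hT hZ hZπ
  obtain ⟨t1, t2, t3, t4, t5, t6, t7, t8, t9⟩ := hT
  obtain ⟨x1, x2, x3, x4, x5⟩ := hX
  obtain ⟨y1, y2, y3, y4, y5⟩ := hX'
  by_cases hCA : C = A
  · subst hCA
    exact y4
  by_cases hCB : C = B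
  · subst hCB
    exact y5
  -- a plane that contains two distinct lines of `π` does not contain `X`
  have key : ∀ Z ∈ T, Z.card = b → Z ⊆ π → C ≠ Z → ∀ P ∈ T, P.card = c → C ⊆ P → Z ⊆ P → ¬ X ⊆ P := by
    intro Z hZ hZb hZπ hCZ P hP hPc hCP hZP hXP
    have e1 := h.plUniq2 hCb hZb hCZ hP t1 hPc t2 hCP hCπ hZP hZπ
    subst e1
    obtain ⟨x, hx, _⟩ := h.two_pts x2
    exact Finset.disjoint_left.mp x3 hx (hXP hx)
  have dis : ∀ Z ∈ T, Z.card = b → Z ⊆ π → C ≠ Z → Cop T c Z X → Disjoint Z C := by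
    intro Z hZ hZb hZπ hCZ hZX
    rw [Finset.disjoint_left]
    intro r hr hr'
    obtain ⟨P1, p1, p2, p3, p4⟩ := hCX
    obtain ⟨P2, q1, q2, q3, q4⟩ := hZX
    have e1 : P1 = P2 := h.plUniq x2 p1 q1 p2 q2 p4 q4
      (fun hh => Finset.disjoint_left.mp x3 hh (hZπ hr)) (p3 hr') (q3 hr)
    subst e1
    exact key Z hZ hZb hZπ hCZ P1 p1 p2 p3 q3 p4
  have dAC := dis A t3 t5 t7 hCA x4
  have dBC := dis B t4 t6 t8 hCB x5
  have dXC : Disjoint X C := x3.mono_right hCπ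
  by_cases hc1 : ∃ P ∈ T, P.card = c ∧ A ⊆ P ∧ X ⊆ P ∧ X' ⊆ P
  · obtain ⟨P1, p1, p2, p3, p4, p5⟩ := hc1
    apply h.bundle hV t4 x1 hC y1 t6 x2 hCb y2 (x3.symm.mono_left t8) dBC dXC (y3.symm.mono_left t8)
      hdX x5 ⟨π, t1, t2, t8, hCπ⟩ hCX.symm y5 hXX
    · intro P hP hPc e1 e2 e3
      exact key B t4 t6 t8 hCB P hP hPc e3 e1 e2
    · intro P hP hPc e1 e2 e3
      have e4 := h.plUniq2 x2 y2 hne hP p1 hPc p2 e2 p4 e3 p5
      subst e4
      exact nb X x2 x3 P hP hPc p3 e1 e2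
  · push Not at hc1
    apply h.bundle hV t3 x1 hC y1 t5 x2 hCb y2 (x3.symm.mono_left t7) dAC dXC (y3.symm.mono_left t7)
      hdX x4 ⟨π, t1, t2, t7, hCπ⟩ hCX.symm y4 hXX
    · intro P hP hPc e1 e2 e3
      exact key A t3 t5 t7 hCA P hP hPc e3 e1 e2
    · intro P hP hPc e1 e2 e3
      exact hc1 P hP hPc e1 e2 e3

section proj

variable {β m : ℕ}

/-- the line of the spread through a point -/
theorem exX (h : LPS T (β + 1) (1 + β * (m + 1))) (hk : k = 1 + β * (m ^ 2 + m + 1)) (hm : 1 ≤ m)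
    {π A B : Finset (Fin k)} (hT : Two T (β + 1) (1 + β * (m + 1)) π A B) {p : Fin k} (hp : p ∉ π) :
    ∃ X, Sp T (β + 1) (1 + β * (m + 1)) π A B X ∧ p ∈ X := by
  obtain ⟨t1, t2, t3, t4, t5, t6, t7, t8, t9⟩ := hT
  obtain ⟨P1, p1, p2, p3, p4⟩ := h.plEx t3 t5 (fun hh => hp (t7 hh))
  obtain ⟨P2, q1, q2, q3, q4⟩ := h.plEx t4 t6 (fun hh => hp (t8 hh))
  have hAB : A ≠ B := by
    rintro rfl
    have := Finset.disjoint_self_iff_empty _ |>.mp t9
    rw [this] at t5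
    have := h.hb
    simp at t5
  have e1 : P1 ≠ π := fun hh => hp (hh ▸ p4)
  have e2 : P2 ≠ π := fun hh => hp (hh ▸ q4)
  have hne : P1 ≠ P2 := by
    rintro rfl
    exact e1 (h.plUniq2 t5 t6 hAB p1 t1 p2 t2 p3 t7 q3 t8)
  refine ⟨P1 ∩ P2, ⟨h.ic _ p1 _ q1, h.meet hk hm p1 q1 p2 q2 hne p4 q4, ?_,
    ⟨P1, p1, p2, p3, Finset.inter_subset_left⟩, ⟨P2, q1, q2, q3, Finset.inter_subset_right⟩⟩,
    Finset.mem_inter.mpr ⟨p4, q4⟩⟩
  rw [Finset.disjoint_left]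
  intro r hr hrπ
  rw [Finset.mem_inter] at hr
  have f1 : r ∈ A := by
    by_contra hh
    exact e1 (h.plUniq t5 p1 t1 p2 t2 p3 t7 hh hr.1 hrπ)
  have f2 : r ∈ B := by
    by_contra hh
    exact e2 (h.plUniq t6 q1 t1 q2 t2 q3 t8 hh hr.2 hrπ)
  exact Finset.disjoint_left.mp t9 f1 f2

/-- a line outside `π` belongs to a spread -/
theorem exTwo (h : LPS T (β + 1) (1 + β * (m + 1))) (hk : k = 1 + β * (m ^ 2 + m + 1)) (hm : 1 ≤ m)
    {π X : Finset (Fin k)} (hπ : π ∈ T) (hπc : π.card = 1 + β * (m + 1)) (hX : X ∈ T) (hXb : X.card = β + 1)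
    (hXπ : Disjoint X π) : ∃ A B, Two T (β + 1) (1 + β * (m + 1)) π A B ∧
      Sp T (β + 1) (1 + β * (m + 1)) π A B X := by
  have hbc := h.hbc
  obtain ⟨r, hr⟩ : π.Nonempty := by
    rw [← Finset.card_pos]
    omega
  have hrX : r ∉ X := fun hh => Finset.disjoint_left.mp hXπ hh hr
  obtain ⟨P1, p1, p2, p3, p4⟩ := h.plEx hX hXb hrX
  obtain ⟨x, hx, _⟩ := h.two_pts hXb
  have hxπ : x ∉ π := Finset.disjoint_left.mp hXπ hx
  have e1 : P1 ≠ π := fun hh => hxπ (hh ▸ p3 hx)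
  have m1 := h.meet hk hm p1 hπ p2 hπc e1 p4 hr
  obtain ⟨s, hs⟩ : (π \ P1).Nonempty := by
    rw [Finset.nonempty_iff_ne_empty]
    intro he
    rw [Finset.sdiff_eq_empty_iff_subset] at he
    exact e1 (Finset.eq_of_subset_of_card_le he (by omega)).symm
  rw [Finset.mem_sdiff] at hs
  have hsX : s ∉ X := fun hh => Finset.disjoint_left.mp hXπ hh hs.1
  obtain ⟨P2, q1, q2, q3, q4⟩ := h.plEx hX hXb hsX
  have e2 : P2 ≠ π := fun hh => hxπ (hh ▸ q3 hx)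
  have m2 := h.meet hk hm q1 hπ q2 hπc e2 q4 hs.1
  have e3 : P1 ≠ P2 := fun hh => hs.2 (hh ▸ q4)
  refine ⟨P1 ∩ π, P2 ∩ π, ⟨hπ, hπc, h.ic _ p1 _ hπ, h.ic _ q1 _ hπ, m1, m2, Finset.inter_subset_right,
    Finset.inter_subset_right, ?_⟩, hX, hXb, hXπ, ⟨P1, p1, p2, Finset.inter_subset_left, p3⟩,
    ⟨P2, q1, q2, Finset.inter_subset_left, q3⟩⟩
  rw [Finset.disjoint_left]
  intro t ht1 ht2
  rw [Finset.mem_inter] at ht1 ht2
  exact e3 (h.plUniq hXb p1 q1 p2 q2 p3 q3 (fun hh => Finset.disjoint_left.mp hXπ hh ht1.2) ht1.1 ht2.1)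

/-- a line outside `π` through a given point -/
theorem exLine (h : LPS T (β + 1) (1 + β * (m + 1))) (hk : k = 1 + β * (m ^ 2 + m + 1)) (hβm : β + 1 ≤ m)
    {π : Finset (Fin k)} (hπ : π ∈ T) (hπc : π.card = 1 + β * (m + 1)) {p : Fin k} (hp : p ∉ π) :
    ∃ X ∈ T, X.card = β + 1 ∧ p ∈ X ∧ Disjoint X π := by
  classical
  by_contra hcon
  push Not at hcon
  have hb := h.hb
  have hex : ∀ q ∈ Finset.univ.erase p, ∃ X ∈ T, X.card = β + 1 ∧ p ∈ X ∧ q ∈ X := fun q hq =>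
    h.lineEx (Finset.mem_erase.mp hq).1.symm
  choose! X hX1 hX2 hX3 hX4 using hex
  have hex2 : ∀ q ∈ Finset.univ.erase p, ∃ r, r ∈ X q ∧ r ∈ π := by
    intro q hq
    have := hcon (X q) (hX1 q hq) (hX2 q hq) (hX3 q hq)
    rw [Finset.not_disjoint_iff] at this
    exact this
  choose! R hR1 hR2 using hex2
  have h1 : ((Finset.univ : Finset (Fin k)).erase p).card ≤ β * ((Finset.univ.erase p).image R).card := by
    apply Finset.card_le_mul_card_image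
    intro r hr
    rw [Finset.mem_image] at hr
    obtain ⟨w, hw, rfl⟩ := hr
    have h6 : ((Finset.univ.erase p).filter fun z => R z = R w) ⊆ (X w).erase p := by
      intro z hz
      rw [Finset.mem_filter] at hz
      rw [Finset.mem_erase]
      refine ⟨(Finset.mem_erase.mp hz.1).1, ?_⟩
      have hpr : p ≠ R w := fun hh => hp (hh ▸ hR2 w hw)
      have h7 : X z ⊆ X w := h.line_sub (hX1 z hz.1) (hX2 z hz.1) (hX1 w hw) hpr (hX3 z hz.1)
        (hz.2 ▸ hR1 z hz.1) (hX3 w hw) (hR1 w hw)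
      exact h7 (hX4 z hz.1)
    have h7 := Finset.card_le_card h6
    rw [Finset.card_erase_of_mem (hX3 w hw), hX2 w hw, Nat.add_sub_cancel] at h7
    exact h7
  have h2 : ((Finset.univ.erase p).image R).card ≤ π.card := by
    apply Finset.card_le_card
    intro r hr
    rw [Finset.mem_image] at hr
    obtain ⟨w, hw, rfl⟩ := hr
    exact hR2 w hw
  rw [Finset.card_erase_of_mem (Finset.mem_univ _), Finset.card_univ, Fintype.card_fin] at h1
  have hk1 : k - 1 = β * (m ^ 2 + m + 1) := by omega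
  have h3 : β * (m ^ 2 + m + 1) ≤ β * (1 + β * (m + 1)) := by
    rw [← hk1, ← hπc]
    exact h1.trans (Nat.mul_le_mul_left _ h2)
  have h4 := Nat.le_of_mul_le_mul_left h3 (by omega)
  have h5 : β * (m + 1) ≤ (m - 1) * (m + 1) := Nat.mul_le_mul_right _ (by omega)
  obtain ⟨j, rfl⟩ : ∃ j, m = j + 1 := ⟨m - 1, by omega⟩
  rw [Nat.add_sub_cancel] at h5
  nlinarith

/-- a plane outside `π` through a given line -/
theorem exPlane (h : LPS T (β + 1) (1 + β * (m + 1))) (hk : k = 1 + β * (m ^ 2 + m + 1)) (hm : 1 ≤ m)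
    {π X : Finset (Fin k)} (hπ : π ∈ T) (hπc : π.card = 1 + β * (m + 1)) (hX : X ∈ T) (hXb : X.card = β + 1)
    (hXπ : Disjoint X π) : ∃ σ ∈ T, σ.card = 1 + β * (m + 1) ∧ X ⊆ σ ∧ Disjoint σ π := by
  classical
  by_contra hcon
  push Not at hcon
  have hb := h.hb
  have hex : ∀ q ∈ Finset.univ \ X, ∃ D ∈ T, D.card = 1 + β * (m + 1) ∧ X ⊆ D ∧ q ∈ D := fun q hq =>
    h.plEx hX hXb (Finset.mem_sdiff.mp hq).2
  choose! D hD1 hD2 hD3 hD4 using hex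
  have hk2 : k - (β + 1) = (β * m) * (m + 1) := by
    have : 1 + β * (m ^ 2 + m + 1) = (β * m) * (m + 1) + (β + 1) := by ring
    omega
  have h1 : ((Finset.univ : Finset (Fin k)) \ X).card ≤ (β * m) * ((Finset.univ \ X).image D).card := by
    apply Finset.card_le_mul_card_image
    intro E hE
    rw [Finset.mem_image] at hE
    obtain ⟨w, hw, rfl⟩ := hE
    have h6 : ((Finset.univ \ X).filter fun z => D z = D w) ⊆ (D w) \ X := by
      intro z hz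
      rw [Finset.mem_filter] at hz
      rw [Finset.mem_sdiff]
      exact ⟨hz.2 ▸ hD4 z hz.1, (Finset.mem_sdiff.mp hz.1).2⟩
    have h7 := Finset.card_le_card h6
    rw [Finset.card_sdiff_of_subset (hD3 w hw), hD2 w hw, hXb] at h7
    have : 1 + β * (m + 1) = β * m + (β + 1) := by ring
    omega
  rw [Finset.card_sdiff_of_subset (Finset.subset_univ _), Finset.card_univ, Fintype.card_fin, hXb, hk2] at h1
  have h2 := Nat.le_of_mul_le_mul_left h1 (Nat.mul_pos (by omega) (by omega))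
  set 𝒟 := (Finset.univ \ X).image D with h𝒟
  have h𝒟' : ∀ E ∈ 𝒟, E ∈ T ∧ E.card = 1 + β * (m + 1) ∧ X ⊆ E ∧ (E ∩ π).card = β + 1 := by
    intro E hE
    rw [h𝒟, Finset.mem_image] at hE
    obtain ⟨w, hw, rfl⟩ := hE
    refine ⟨hD1 w hw, hD2 w hw, hD3 w hw, ?_⟩
    have h3 := hcon (D w) (hD1 w hw) (hD2 w hw) (hD3 w hw)
    rw [Finset.not_disjoint_iff] at h3
    obtain ⟨r, hr1, hr2⟩ := h3
    apply h.meet hk hm (hD1 w hw) hπ (hD2 w hw) hπc _ hr1 hr2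
    intro he
    obtain ⟨x, hx, _⟩ := h.two_pts hXb
    exact Finset.disjoint_left.mp hXπ hx (he ▸ hD3 w hw hx)
  have h3 : ∑ E ∈ 𝒟, (E ∩ π).card ≤ π.card := by
    rw [← Finset.card_biUnion]
    · apply Finset.card_le_card
      intro t ht
      rw [Finset.mem_biUnion] at ht
      obtain ⟨E, _, hE⟩ := ht
      exact (Finset.mem_inter.mp hE).2
    · intro E hE F hF hEF
      rw [Function.onFun, Finset.disjoint_left]
      intro t ht1 ht2
      rw [Finset.mem_inter] at ht1 ht2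
      obtain ⟨e1, e2, e3, _⟩ := h𝒟' E hE
      obtain ⟨f1, f2, f3, _⟩ := h𝒟' F hF
      exact hEF (h.plUniq hXb e1 f1 e2 f2 e3 f3 (fun hh => Finset.disjoint_left.mp hXπ hh ht1.2) ht1.1 ht2.1)
  rw [Finset.sum_congr rfl fun E hE => (h𝒟' E hE).2.2.2, Finset.sum_const, smul_eq_mul, hπc] at h3
  have h4 : (m + 1) * (β + 1) ≤ 𝒟.card * (β + 1) := Nat.mul_le_mul_right _ h2
  nlinarith

/-- **the planes outside `π` that form a parallel class** -/
theorem dvd_of_bundle (h : LPS T (β + 1) (1 + β * (m + 1))) (hk : k = 1 + β * (m ^ 2 + m + 1))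
    (hβm : β + 1 ≤ m) (hV : ∀ a1 a2 b1 b2 c1 c2 d1 d2, ¬ Vam T a1 a2 b1 b2 c1 c2 d1 d2) :
    1 + β * (m + 1) ∣ β * m ^ 2 := by
  classical
  have hm : 1 ≤ m := by omega
  have hb := h.hb
  have hbc := h.hbc
  have hck := h.hck
  -- a plane and a point outside
  obtain ⟨L0, hL0, hL0b, _, _⟩ := h.lineEx (x := ⟨0, by omega⟩) (y := ⟨1, by omega⟩) (by simp)
  obtain ⟨z0, hz0⟩ : ∃ z, z ∉ L0 := by
    by_contra hcon
    push Not at hcon
    have := Finset.eq_univ_iff_forall.mpr hcon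
    rw [this, Finset.card_univ, Fintype.card_fin] at hL0b
    omega
  obtain ⟨π, hπ, hπc, _, _⟩ := h.plEx hL0 hL0b hz0
  obtain ⟨p0, hp0⟩ : ∃ z, z ∉ π := by
    by_contra hcon
    push Not at hcon
    have := Finset.eq_univ_iff_forall.mpr hcon
    rw [this, Finset.card_univ, Fintype.card_fin] at hπc
    omega
  obtain ⟨X0, hX0, hX0b, hpX0, hX0π⟩ := h.exLine hk hβm hπ hπc hp0
  obtain ⟨σ, hσ, hσc, hX0σ, hσπ⟩ := h.exPlane hk hm hπ hπc hX0 hX0b hX0π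
  obtain ⟨q, hq⟩ : (σ \ X0).Nonempty := by
    rw [← Finset.card_pos, Finset.card_sdiff_of_subset hX0σ]
    omega
  rw [Finset.mem_sdiff] at hq
  have hpq : p0 ≠ q := fun hh => hq.2 (hh ▸ hpX0)
  obtain ⟨Y0, hY0, hY0b, hpY0, hqY0⟩ := h.lineEx hpq
  have hY0σ : Y0 ⊆ σ := h.line_sub hY0 hY0b hσ hpq hpY0 hqY0 (hX0σ hpX0) hq.1
  have hXY0 : X0 ≠ Y0 := fun hh => hq.2 (hh ▸ hqY0)
  have hY0π : Disjoint Y0 π := hσπ.mono_left hY0σ
  obtain ⟨A, B, hAB, sX0⟩ := h.exTwo hk hm hπ hπc hX0 hX0b hX0π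
  obtain ⟨A', B', hAB', sY0⟩ := h.exTwo hk hm hπ hπc hY0 hY0b hY0π
  -- the two spreads
  have exX : ∀ p, p ∉ π → ∃ X, Sp T (β + 1) (1 + β * (m + 1)) π A B X ∧ p ∈ X := fun p hp =>
    h.exX hk hm hAB hp
  have exY : ∀ p, p ∉ π → ∃ X, Sp T (β + 1) (1 + β * (m + 1)) π A' B' X ∧ p ∈ X := fun p hp =>
    h.exX hk hm hAB' hp
  choose! X hXs hXp using exX
  choose! Y hYs hYp using exY
  have claim1 : ∀ p, p ∉ π → X p ≠ Y p := by
    intro p hp he
    have s1 := hXs p hp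
    have s2 := hYs p hp
    rw [← he] at s2
    obtain ⟨t1, t2, t3, t4, t5, t6, t7, t8, t9⟩ := hAB'
    have c1 : Cop T (1 + β * (m + 1)) A' X0 := h.spT hV hAB s1 sX0 t3 t5 t7 s2.2.2.2.1
    have c2 : Cop T (1 + β * (m + 1)) B' X0 := h.spT hV hAB s1 sX0 t4 t6 t8 s2.2.2.2.2
    exact hXY0 (h.uniqX ⟨t1, t2, t3, t4, t5, t6, t7, t8, t9⟩ ⟨hX0, hX0b, hX0π, c1, c2⟩ sY0 hpX0 hpY0)
  have claim2 : ∀ p, p ∉ π → ∀ τ ∈ T, τ.card = 1 + β * (m + 1) → X p ⊆ τ → Y p ⊆ τ → Disjoint τ π := by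
    intro p hp τ hτ hτc hXτ hYτ
    rw [Finset.disjoint_left]
    intro r hr hrπ
    have hne : τ ≠ π := fun hh => hp (hh ▸ hXτ (hXp p hp))
    have hD := h.meet hk hm hτ hπ hτc hπc hne hr hrπ
    have hDT := h.ic τ hτ π hπ
    have c1 : Cop T (1 + β * (m + 1)) (τ ∩ π) X0 := h.spT hV hAB (hXs p hp) sX0 hDT hD
      Finset.inter_subset_right ⟨τ, hτ, hτc, Finset.inter_subset_left, hXτ⟩
    have c2 : Cop T (1 + β * (m + 1)) (τ ∩ π) Y0 := h.spT hV hAB' (hYs p hp) sY0 hDT hD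
      Finset.inter_subset_right ⟨τ, hτ, hτc, Finset.inter_subset_left, hYτ⟩
    obtain ⟨E1, e1, e2, e3, e4⟩ := c1
    obtain ⟨E2, f1, f2, f3, f4⟩ := c2
    have g1 : E1 = E2 := h.plUniq hD e1 f1 e2 f2 e3 f3
      (fun hh => hp0 (Finset.mem_inter.mp hh).2) (e4 hpX0) (f4 hpY0)
    subst g1
    have g2 : E1 = σ := h.plUniq2 hX0b hY0b hXY0 e1 hσ e2 hσc e4 hX0σ f4 hY0σ
    subst g2
    exact Finset.disjoint_left.mp hσπ (e3 (Finset.mem_inter.mpr ⟨hr, hrπ⟩)) hrπ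
  have exτ : ∀ p, p ∉ π → ∃ τ ∈ T, τ.card = 1 + β * (m + 1) ∧ X p ⊆ τ ∧ Y p ⊆ τ := by
    intro p hp
    obtain ⟨x1, x2, x3, x4, x5⟩ := hXs p hp
    obtain ⟨y1, y2, y3, y4, y5⟩ := hYs p hp
    obtain ⟨z, hz⟩ : (Y p \ X p).Nonempty := by
      rw [Finset.nonempty_iff_ne_empty]
      intro he
      rw [Finset.sdiff_eq_empty_iff_subset] at he
      exact claim1 p hp (Finset.eq_of_subset_of_card_le he (by omega)).symm
    rw [Finset.mem_sdiff] at hz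
    obtain ⟨τ, w1, w2, w3, w4⟩ := h.plEx x1 x2 hz.2
    have hpz : p ≠ z := fun hh => hz.2 (hh ▸ hXp p hp)
    exact ⟨τ, w1, w2, w3, h.line_sub y1 y2 w1 hpz (hYp p hp) hz.1 (w3 (hXp p hp)) w4⟩
  choose! τ hτ1 hτ2 hτ3 hτ4 using exτ
  -- a plane of the class contains the spread lines of its points
  have claim3 : ∀ p, p ∉ π → ∀ q ∈ τ p, X q ⊆ τ p ∧ Y q ⊆ τ p := by
    intro p hp q hq
    have hqπ : q ∉ π := Finset.disjoint_left.mp (claim2 p hp (τ p) (hτ1 p hp) (hτ2 p hp) (hτ3 p hp) (hτ4 p hp)) hq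
    have aux : ∀ {A B : Finset (Fin k)} {U V : Finset (Fin k)}, Two T (β + 1) (1 + β * (m + 1)) π A B →
        Sp T (β + 1) (1 + β * (m + 1)) π A B U → Sp T (β + 1) (1 + β * (m + 1)) π A B V →
        U ⊆ τ p → q ∈ V → V ⊆ τ p := by
      intro A B U V hT hU hV' hUτ hqV
      by_cases hqU : q ∈ U
      · rw [← h.uniqX hT hU hV' hqU hqV]
        exact hUτ
      · obtain ⟨E, e1, e2, e3, e4⟩ := h.spU hV hT hU hV'
        have g1 : E = τ p := h.plUniq hU.2.1 e1 (hτ1 p hp) e2 (hτ2 p hp) e3 hUτ hqU (e4 hqV) hq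
        rw [← g1]
        exact e4
    exact ⟨aux hAB (hXs p hp) (hXs q hqπ) (hτ3 p hp) (hXp q hqπ),
      aux hAB' (hYs p hp) (hYs q hqπ) (hτ4 p hp) (hYp q hqπ)⟩
  -- count
  set 𝒞 := (Finset.univ \ π).image τ with h𝒞
  have h1 : Finset.univ \ π = 𝒞.biUnion id := by
    ext t
    rw [Finset.mem_biUnion]
    constructor
    · intro ht
      have ht' := (Finset.mem_sdiff.mp ht).2
      exact ⟨τ t, Finset.mem_image_of_mem _ ht, hτ3 t ht' (hXp t ht')⟩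
    · rintro ⟨E, hE, htE⟩
      rw [h𝒞, Finset.mem_image] at hE
      obtain ⟨p, hp, rfl⟩ := hE
      have hp' := (Finset.mem_sdiff.mp hp).2
      rw [Finset.mem_sdiff]
      exact ⟨Finset.mem_univ _, Finset.disjoint_left.mp
        (claim2 p hp' (τ p) (hτ1 p hp') (hτ2 p hp') (hτ3 p hp') (hτ4 p hp')) htE⟩
  have h2 : (Finset.univ \ π).card = ∑ E ∈ 𝒞, E.card := by
    rw [h1, Finset.card_biUnion]
    · rfl
    · intro E hE F hF hEF
      rw [Function.onFun, Finset.disjoint_left]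
      intro t ht1 ht2
      rw [Finset.mem_coe, h𝒞, Finset.mem_image] at hE hF
      obtain ⟨p, hp, rfl⟩ := hE
      obtain ⟨q, hq, rfl⟩ := hF
      have hp' := (Finset.mem_sdiff.mp hp).2
      have hq' := (Finset.mem_sdiff.mp hq).2
      have ht' : t ∉ π := Finset.disjoint_left.mp
        (claim2 p hp' (τ p) (hτ1 p hp') (hτ2 p hp') (hτ3 p hp') (hτ4 p hp')) ht1
      obtain ⟨e1, e2⟩ := claim3 p hp' t ht1
      obtain ⟨f1, f2⟩ := claim3 q hq' t ht2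
      exact hEF (h.plUniq2 (hXs t ht').2.1 (hYs t ht').2.1 (claim1 t ht') (hτ1 p hp') (hτ1 q hq')
        (hτ2 p hp') (hτ2 q hq') e1 f1 e2 f2)
  have h3 : ∀ E ∈ 𝒞, E.card = 1 + β * (m + 1) := by
    intro E hE
    rw [h𝒞, Finset.mem_image] at hE
    obtain ⟨p, hp, rfl⟩ := hE
    exact hτ2 p (Finset.mem_sdiff.mp hp).2
  rw [Finset.sum_congr rfl h3, Finset.sum_const, smul_eq_mul,
    Finset.card_sdiff_of_subset (Finset.subset_univ _), Finset.card_univ, Fintype.card_fin, hπc] at h2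
  have h4 : β * m ^ 2 = 𝒞.card * (1 + β * (m + 1)) := by
    rw [← h2]
    have : k = β * m ^ 2 + (1 + β * (m + 1)) := by rw [hk]; ring
    omega
  rw [h4]
  exact dvd_mul_left _ _

/-- **locally projective spaces with the bundle theorem** -/
theorem not_small (h : LPS T (β + 1) (1 + β * (m + 1))) (hk : k = 1 + β * (m ^ 2 + m + 1))
    (hβm : β + 1 < m) (hV : ∀ a1 a2 b1 b2 c1 c2 d1 d2, ¬ Vam T a1 a2 b1 b2 c1 c2 d1 d2) : False := by
  have h1 := h.dvd_of_bundle hk hβm.le hV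
  obtain ⟨d, rfl⟩ : ∃ d, m = β + 1 + (d + 1) := ⟨m - (β + 1) - 1, by omega⟩
  set m := β + 1 + (d + 1) with hm
  have h2 : (1 + β * (m + 1)) ∣ m * (1 + β * (m + 1)) - β * m ^ 2 := Nat.dvd_sub (dvd_mul_left _ _) h1
  have h3 : m * (1 + β * (m + 1)) - β * m ^ 2 = (1 + β * (m + 1)) + (d + 1) := by
    have : m * (1 + β * (m + 1)) = (1 + β * (m + 1)) + (d + 1) + β * m ^ 2 := by
      rw [hm]
      ring
    omega
  rw [h3] at h2
  have h4 := (Nat.dvd_add_right (dvd_refl _)).mp h2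
  have h5 := Nat.le_of_dvd (by omega) h4
  have hb := h.hb
  have h6 : 1 * (m + 1) ≤ β * (m + 1) := Nat.mul_le_mul_right _ (by omega)
  omega

end proj

end LPS

end Pool.Agent.Helper138_LS
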