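import Pool.Agent.Helper138_LS.RelH
import Pool.Agent.Helper138_LS.FinalPos

/-!
The negative results for extensions of planes.
-/

set_option autoImplicit false

open Finset

namespace Pool.Agent.Helper138_LS

open Pool.Agent.H480R2.LS

theorem not_pp {a b n : ℕ} (ha : a.Prime) (hb : b.Prime) (hab : a ≠ b) (h1 : a ∣ n) (h2 : b ∣ n) :
    ¬ IsPrimePow n := by
  rintro ⟨p, k, hp, _, rfl⟩
  have hp' : p.Prime := hp.nat_prime
  have e1 := (Nat.prime_dvd_prime_iff_eq ha hp').mp (ha.dvd_of_dvd_pow h1)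
  have e2 := (Nat.prime_dvd_prime_iff_eq hb hp').mp (hb.dvd_of_dvd_pow h2)
  exact hab (e1.trans e2.symm)

theorem div_sixty {q : ℕ} (h5 : 5 ≤ q) (h8 : q ≠ 8) (h13 : q ≠ 13) (h : q + 2 ∣ 60) :
    ¬ IsPrimePow q := by
  have hle := Nat.le_of_dvd (by norm_num) h
  obtain ⟨c, hc⟩ := h
  have hc9 : c < 9 := by
    by_contra hcon
    have : (q + 2) * 9 ≤ (q + 2) * c := Nat.mul_le_mul_left _ (by omega)
    omega
  interval_cases c
  · omega
  · have : q = 58 := by omega
    subst this
    exact not_pp (a := 2) (b := 29) (by norm_num) (by norm_num) (by norm_num) (by norm_num) (by norm_num)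
  · have : q = 28 := by omega
    subst this
    exact not_pp (a := 2) (b := 7) (by norm_num) (by norm_num) (by norm_num) (by norm_num) (by norm_num)
  · have : q = 18 := by omega
    subst this
    exact not_pp (a := 2) (b := 3) (by norm_num) (by norm_num) (by norm_num) (by norm_num) (by norm_num)
  · omega
  · have : q = 10 := by omega
    subst this
    exact not_pp (a := 2) (b := 5) (by norm_num) (by norm_num) (by norm_num) (by norm_num) (by norm_num)
  · omega
  · omega
  · omega

theorem steinerSL {k t l : ℕ} (hl : 2 ≤ l) (h : ¬ (t + l).choose (t + 2) ∣ k.choose (t + 2)) :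
    RB k (SL t l) (t + 3) := by
  exact RB.steiner (by omega) h

/-- twofold and higher extensions of affine planes -/
theorem affNo {l t : ℕ} (hl : 3 ≤ l) (ht : 2 ≤ t) (h3 : l = 3 → 4 ≤ t) (h8 : l ≠ 8) (h13 : l ≠ 13) :
    RB (l ^ 2 + t) (SL t l) (t + 3) := by
  rcases Nat.lt_or_ge l 5 with h5 | h5
  · have : l = 3 ∨ l = 4 := by omega
    rcases this with rfl | rfl
    · obtain ⟨j, rfl⟩ : ∃ j, t = 4 + j := ⟨t - 4, by have := h3 rfl; omega⟩
      have h1 : RB (9 + 4) (SL 4 3) (4 + 3) := steinerSL (by norm_num) (by decide)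
      exact RB.up h1 j
    · obtain ⟨j, rfl⟩ : ∃ j, t = 2 + j := ⟨t - 2, by omega⟩
      have h1 : SL 2 4 = {0, 1, 2, 3, 6} := by decide
      have h2 : RB (16 + 2) (SL 2 4) (2 + 3) := by
        rw [h1]
        exact RB_eighteen
      exact RB.up h2 j
  · by_cases hd : (2 + l).choose (2 + 2) ∣ (l ^ 2 + 2).choose (2 + 2)
    · rw [add_comm 2 l] at hd
      have h1 := div_sixty h5 h8 h13 (aff_dvd (by omega) hd)
      have h2 : RB (l ^ 2 + 0) (SL 0 l) (0 + 3) := by
        rw [SL_zero]
        exact RB.aff (by omega) h1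
      have h3 := RB.up h2 t
      rwa [zero_add] at h3
    · obtain ⟨j, rfl⟩ : ∃ j, t = 2 + j := ⟨t - 2, by omega⟩
      exact RB.up (steinerSL (by omega) hd) j

/-- extensions of projective planes of order at least three, except for the order four -/
theorem projNo {q t : ℕ} (hq : 3 ≤ q) (hq4 : q ≠ 4) (ht : 1 ≤ t) :
    RB (q ^ 2 + q + 1 + t) (SL t (q + 1)) (t + 3) := by
  obtain ⟨j, rfl⟩ : ∃ j, t = 1 + j := ⟨t - 1, by omega⟩
  by_cases hd : (1 + (q + 1)).choose (1 + 2) ∣ (q ^ 2 + q + 1 + 1).choose (1 + 2)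
  · have e1 : 1 + (q + 1) = q + 2 := by ring
    rw [e1] at hd
    have h1 := proj_dvd (by omega) hd
    have hle := Nat.le_of_dvd (by norm_num) h1
    have hq10 : q = 10 := by
      obtain ⟨c, hc⟩ := h1
      have hc3 : c < 3 := by
        by_contra hcon
        have : (q + 2) * 3 ≤ (q + 2) * c := Nat.mul_le_mul_left _ (by omega)
        omega
      interval_cases c <;> omega
    subst hq10
    have h2 : RB (10 ^ 2 + 10 + 1 + 0) (SL 0 (10 + 1)) (0 + 3) := by
      rw [SL_zero]
      exact RB.proj (by norm_num) (not_pp (a := 2) (b := 5) (by norm_num) (by norm_num) (by norm_num)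
        (by norm_num) (by norm_num))
    have h3 := RB.up h2 (1 + j)
    rwa [zero_add] at h3
  · exact RB.up (steinerSL (by omega) hd) j

/-- the pairs close to the parameters of a plane -/
theorem nearNo {l m t : ℕ} (hl : 3 ≤ l) (hlm : l < m) (hm : m + 2 < l ^ 2 + 2 * l)
    (h1 : m ≠ l ^ 2) (h2 : m + l ≠ l ^ 2 + 1) : RB (m + t) (SL t l) (t + 3) := by
  have h3 : RB (m + 0) (SL 0 l) (0 + 3) := by
    rw [SL_zero]
    exact RB.near_plane hl hlm hm h1 h2
  have h4 := RB.up h3 t
  rwa [zero_add] at h4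

end Pool.Agent.Helper138_LS
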