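import Pool.Agent.Helper138_LS.LQ
import Pool.Agent.Helper138_LS.RelI

/-!
Power savings for locally projective spaces; divisibility by the number of flags.
-/

set_option autoImplicit false

open Finset

namespace Pool.Agent.Helper138_LS

open Pool.Agent.H480R2.LS

/-- it suffices to treat families of rank four without Vamos type configurations -/
theorem RB.of_vamos {k : ℕ} {L : Finset ℕ}
    (h : ∀ T : Finset (Finset (Fin k)), IC T → (∀ A ∈ T, A.card ∈ L) →
      (∀ X : Finset (Fin k), X.card ≤ 3 → ∃ A ∈ T, X ⊆ A) →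
      (∀ a1 a2 b1 b2 c1 c2 d1 d2, ¬ Vam T a1 a2 b1 b2 c1 c2 d1 d2) → False) : RB k L 4 := by
  refine ⟨1 / 8, by norm_num, by norm_num, 2, by norm_num, fun n hn T R hI hT hR => ?_⟩
  have hn' : (1 : ℝ) ≤ n := by exact_mod_cast hn
  have hn0 : (0 : ℝ) < n := by linarith
  by_cases hV : ∃ a1 a2 b1 b2 c1 c2 d1 d2, Vam T a1 a2 b1 b2 c1 c2 d1 d2
  · obtain ⟨a1, a2, b1, b2, c1, c2, d1, d2, hV⟩ := hV
    have h1 := vamos_rel hR hV
    have h2 : (R.card : ℝ) ^ 8 ≤ (2 * (n : ℝ) ^ (((4 : ℕ) : ℝ) - 1 / 8)) ^ 8 := by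
      have h3 : (2 * (n : ℝ) ^ (((4 : ℕ) : ℝ) - 1 / 8)) ^ 8 = 256 * (n : ℝ) ^ 31 := by
        rw [mul_pow, ← Real.rpow_natCast (((n : ℝ) ^ (((4 : ℕ) : ℝ) - 1 / 8))), ← Real.rpow_mul hn0.le]
        have e1 : (((4 : ℕ) : ℝ) - 1 / 8) * ((8 : ℕ) : ℝ) = ((31 : ℕ) : ℝ) := by norm_num
        rw [e1, Real.rpow_natCast]
        norm_num
      rw [h3]
      have h4 : (0 : ℝ) ≤ (n : ℝ) ^ 31 := by positivity
      nlinarith
    exact le_of_pow_le_pow_left₀ (by norm_num) (by positivity) h2
  · push Not at hV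
    by_cases hc : ∀ X : Finset (Fin k), X.card ≤ 3 → ∃ A ∈ T, X ⊆ A
    · exact (h T hI hT hc hV).elim
    · push Not at hc
      obtain ⟨X, hX, hX'⟩ := hc
      exact nat_le_rpow hn (by norm_num) (cover_bound hn hR hX hX') (by norm_num) (by norm_num)

theorem RB.locProj {β m : ℕ} (hβ : 1 ≤ β) (hβm : β + 1 < m) :
    RB (1 + β * (m ^ 2 + m + 1)) {0, 1, β + 1, 1 + β * (m + 1)} 4 := by
  apply RB.of_vamos
  intro T hI hT hcov hV
  have hLPS : LPS T (β + 1) (1 + β * (m + 1)) := by
    refine ⟨hI, ?_, hcov, by omega, ?_, ?_⟩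
    · intro A hA
      have := hT A hA
      simpa only [Finset.mem_insert, Finset.mem_singleton] using this
    · have : β * 1 < β * (m + 1) := Nat.mul_lt_mul_of_pos_left (by omega) (by omega)
      omega
    · have h1 : m + 1 < m ^ 2 + m + 1 := by
        have h0 : 0 < m := by omega
        have : 0 < m ^ 2 := by positivity
        omega
      have : β * (m + 1) < β * (m ^ 2 + m + 1) := Nat.mul_lt_mul_of_pos_left h1 (by omega)
      omega
  exact hLPS.not_small rfl hβm hV

/-- restriction to a flat -/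
theorem RB.restrict_to : ∀ (N : ℕ) {k v : ℕ} {L : Finset ℕ}, L.card = N → L ⊆ Finset.range k → v ∈ L →
    (L.filter (· < v)).Nonempty → RB v (L.filter (· < v)) (L.filter (· < v)).card → RB k L L.card := by
  classical
  intro N
  induction N with
  | zero =>
    intro k v L hN _ hv _ _
    rw [Finset.card_eq_zero] at hN
    subst hN
    simp at hv
  | succ N ih =>
    intro k v L hN hL hv hne h
    have hLne : L.Nonempty := ⟨v, hv⟩
    obtain ⟨l, hl, hmax⟩ := Finset.exists_max_image L id hLne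
    simp only [id] at hmax
    have hcl : (L.erase l).card = N := by
      rw [Finset.card_erase_of_mem hl, hN]
      rfl
    have hN1 : 1 ≤ N := by
      rw [← hcl]
      obtain ⟨u, hu⟩ := hne
      rw [Finset.mem_filter] at hu
      apply Finset.card_pos.mpr
      refine ⟨u, Finset.mem_erase.mpr ⟨?_, hu.1⟩⟩
      have := hmax v hv
      omega
    rw [hN]
    apply RB.restrict (l := l) hL hl hmax hN hN1
    rcases eq_or_ne v l with rfl | hvl
    · have e1 : L.filter (· < v) = L.erase v := by
        ext i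
        rw [Finset.mem_filter, Finset.mem_erase]
        constructor
        · rintro ⟨h1, h2⟩
          exact ⟨by omega, h1⟩
        · rintro ⟨h1, h2⟩
          have := hmax i h2
          exact ⟨h2, by omega⟩
      rw [e1, hcl] at h
      exact h
    · have hvl' : v < l := lt_of_le_of_ne (hmax v hv) hvl
      have e1 : (L.erase l).filter (· < v) = L.filter (· < v) := by
        ext i
        rw [Finset.mem_filter, Finset.mem_filter, Finset.mem_erase]
        constructor
        · rintro ⟨⟨h1, h2⟩, h3⟩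
          exact ⟨h2, h3⟩
        · rintro ⟨h1, h2⟩
          exact ⟨⟨by omega, h1⟩, h2⟩
      rw [← hcl]
      apply ih (v := v) hcl
      · intro i hi
        rw [Finset.mem_erase] at hi
        rw [Finset.mem_range]
        exact lt_of_le_of_ne (hmax i hi.2) hi.1
      · exact Finset.mem_erase.mpr ⟨hvl, hv⟩
      · rw [e1]
        exact hne
      · rw [e1]
        exact h

section flags

variable {k s : ℕ} {T : Finset (Finset (Fin k))} {ℓ : ℕ → ℕ}

/-- **number of hyperplanes** -/
theorem flags_count (hs : 1 ≤ s) (hℓ : ∀ i j, i < j → j < s → ℓ i < ℓ j) (hk : ∀ i, i < s → ℓ i < k)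
    (hI : IC T) (hT : ∀ A ∈ T, ∃ i, i < s ∧ A.card = ℓ i)
    (hcov : ∀ X : Finset (Fin k), X.card ≤ s - 1 → ∃ A ∈ T, X ⊆ A) :
    (∏ t ∈ Finset.range (s - 1), (ℓ (s - 1) - ℓ t)) ∣ ∏ t ∈ Finset.range (s - 1), (k - ℓ t) := by
  classical
  have hcl : ∀ X : Finset (Fin k), X.card ≤ s - 1 → ∃ C ∈ T, X ⊆ C ∧ ∀ A ∈ T, X ⊆ A → C ⊆ A :=
    fun X hX => cl_exists hI X (hcov X hX)
  choose! cl cl1 cl2 cl3 using hcl
  have hmono : ∀ i j, i < s → j < s → ℓ i < ℓ j → i < j := by
    intro i j hi hj h
    by_contra hcon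
    rcases Nat.lt_or_ge j i with h1 | h1
    · have := hℓ j i h1 hi
      omega
    · have : i = j := by omega
      subst this
      omega
  have hinj : ∀ i j, i < s → j < s → ℓ i = ℓ j → i = j := by
    intro i j hi hj h
    rcases Nat.lt_trichotomy i j with h1 | h1 | h1
    · have := hℓ i j h1 hj
      omega
    · exact h1
    · have := hℓ j i h1 hi
      omega
  -- small sets have small closure
  have hrank : ∀ d i, i + d = s - 1 → ∀ X : Finset (Fin k), X.card ≤ i → ∀ j, j < s →
      (cl X).card = ℓ j → j ≤ i := by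
    intro d
    induction d with
    | zero =>
      intro i hi X _ j hj _
      omega
    | succ d ih =>
      intro i hi X hX j hj hXj
      have hXs : X.card ≤ s - 1 := by omega
      obtain ⟨z, hz⟩ : ∃ z, z ∉ cl X := by
        by_contra hcon
        push Not at hcon
        have := Finset.eq_univ_iff_forall.mpr hcon
        rw [this, Finset.card_univ, Fintype.card_fin] at hXj
        have := hk j hj
        omega
      have hX' : (insert z X).card ≤ i + 1 := (Finset.card_insert_le _ _).trans (by omega)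
      have hX's : (insert z X).card ≤ s - 1 := by omega
      obtain ⟨j', hj', hXj'⟩ := hT _ (cl1 _ hX's)
      have h1 := ih (i + 1) (by omega) (insert z X) hX' j' hj' hXj'
      have h2 : cl X ⊂ cl (insert z X) := by
        refine ⟨cl3 X hXs _ (cl1 _ hX's) ((Finset.subset_insert _ _).trans (cl2 _ hX's)), fun h => ?_⟩
        exact hz (h (cl2 _ hX's (Finset.mem_insert_self _ _)))
      have h3 := Finset.card_lt_card h2
      rw [hXj, hXj'] at h3
      have := hmono j j' hj hj' h3
      omega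
  -- independent sets
  set I : ℕ → Finset (Fin k) → Prop := fun i X => X.card ≤ i ∧ (cl X).card = ℓ i with hIdef
  have hstep : ∀ i X, I i X → i + 1 ≤ s - 1 → ∀ x, x ∉ cl X → I (i + 1) (insert x X) := by
    intro i X hX hi x hx
    have hX' : (insert x X).card ≤ i + 1 := (Finset.card_insert_le _ _).trans (by have := hX.1; omega)
    refine ⟨hX', ?_⟩
    have hXs : X.card ≤ s - 1 := by have := hX.1; omega
    have hX's : (insert x X).card ≤ s - 1 := by omega
    obtain ⟨j', hj', hXj'⟩ := hT _ (cl1 _ hX's)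
    have h1 := hrank (s - 1 - (i + 1)) (i + 1) (by omega) (insert x X) hX' j' hj' hXj'
    have h2 : cl X ⊂ cl (insert x X) := by
      refine ⟨cl3 X hXs _ (cl1 _ hX's) ((Finset.subset_insert _ _).trans (cl2 _ hX's)), fun h => ?_⟩
      exact hx (h (cl2 _ hX's (Finset.mem_insert_self _ _)))
    have h3 := Finset.card_lt_card h2
    rw [hX.2, hXj'] at h3
    have h4 := hmono i j' (by omega) hj' h3
    rw [hXj']
    congr 1
    omega
  have hzero : I 0 ∅ := by
    refine ⟨by simp, ?_⟩
    obtain ⟨j, hj, hXj⟩ := hT _ (cl1 ∅ (by simp))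
    have h1 := hrank (s - 1) 0 (by omega) ∅ (by simp) j hj hXj
    rw [hXj]
    congr 1
    omega
  -- counting
  let N : ℕ → Finset (Fin k) → Finset (Fin k) → ℕ := fun j =>
    Nat.rec (motive := fun _ => Finset (Fin k) → Finset (Fin k) → ℕ) (fun _ _ => 1)
      (fun _ f X A => ∑ x ∈ A \ cl X, f (insert x X) A) j
  have N0 : ∀ X A, N 0 X A = 1 := fun _ _ => rfl
  have NS : ∀ j X A, N (j + 1) X A = ∑ x ∈ A \ cl X, N j (insert x X) A := fun _ _ _ => rfl
  clear_value N
  have N_eq : ∀ j i X A, I i X → X ⊆ A → (∀ Y : Finset (Fin k), Y.card ≤ s - 1 → Y ⊆ A → cl Y ⊆ A) →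
      i + j ≤ s - 1 → N j X A = ∏ t ∈ Finset.range j, (A.card - ℓ (i + t)) := by
    intro j
    induction j with
    | zero =>
      intro i X A _ _ _ _
      rw [N0]
      simp
    | succ j ih =>
      intro i X A hX hXA hA hij
      rw [NS, Finset.sum_congr rfl fun x hx => ih (i + 1) (insert x X) A
        (hstep i X hX (by omega) x (Finset.mem_sdiff.mp hx).2)
        (Finset.insert_subset (Finset.mem_sdiff.mp hx).1 hXA) hA (by omega)]
      rw [Finset.sum_const, smul_eq_mul, Finset.card_sdiff_of_subset (hA X (by have := hX.1; omega) hXA), hX.2,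
        Finset.prod_range_succ' (fun t => A.card - ℓ (i + t)), mul_comm]
      congr 1
      apply Finset.prod_congr rfl
      intro t _
      congr 2
      ring
  set 𝓗 := T.filter fun H => H.card = ℓ (s - 1) with h𝓗
  have N_sum : ∀ j i X, I i X → i + j = s - 1 →
      ∑ H ∈ 𝓗.filter (X ⊆ ·), N j X H = N j X Finset.univ := by
    intro j
    induction j with
    | zero =>
      intro i X hX hij
      have hi : i = s - 1 := by omega
      subst hi
      have h1 : 𝓗.filter (X ⊆ ·) = {cl X} := by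
        ext H
        rw [Finset.mem_filter, h𝓗, Finset.mem_filter, Finset.mem_singleton]
        constructor
        · rintro ⟨⟨h1, h2⟩, h3⟩
          exact (Finset.eq_of_subset_of_card_le (cl3 X hX.1 H h1 h3) (by rw [h2, hX.2])).symm
        · rintro rfl
          exact ⟨⟨cl1 X hX.1, hX.2⟩, cl2 X hX.1⟩
      rw [h1, Finset.sum_singleton, N0, N0]
    | succ j ih =>
      intro i X hX hij
      have hXs : X.card ≤ s - 1 := by have := hX.1; omega
      rw [NS, Finset.sum_congr rfl fun H _ => NS j X H]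
      have h1 : ∀ x ∈ Finset.univ \ cl X, N j (insert x X) Finset.univ =
          ∑ H ∈ 𝓗.filter (insert x X ⊆ ·), N j (insert x X) H := fun x hx =>
        (ih (i + 1) (insert x X) (hstep i X hX (by omega) x (Finset.mem_sdiff.mp hx).2) (by omega)).symm
      rw [Finset.sum_congr rfl h1]
      apply Finset.sum_comm'
      intro H x
      simp only [Finset.mem_filter, Finset.mem_sdiff, Finset.mem_univ, true_and]
      constructor
      · rintro ⟨⟨h2, h3⟩, h4, h5⟩
        exact ⟨⟨h2, Finset.insert_subset h4 h3⟩, h5⟩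
      · rintro ⟨⟨h2, h3⟩, h4⟩
        exact ⟨⟨h2, (Finset.subset_insert _ _).trans h3⟩, h3 (Finset.mem_insert_self _ _), h4⟩
  have h1 := N_sum (s - 1) 0 ∅ hzero (by omega)
  have h2 := N_eq (s - 1) 0 ∅ Finset.univ hzero (Finset.subset_univ _) (fun Y _ _ => Finset.subset_univ _)
    (by omega)
  rw [h2, Finset.card_univ, Fintype.card_fin] at h1
  simp only [Nat.zero_add] at h1
  rw [← h1]
  apply Finset.dvd_sum
  intro H hH
  rw [Finset.mem_filter, h𝓗, Finset.mem_filter] at hH
  have h3 := N_eq (s - 1) 0 ∅ H hzero (Finset.empty_subset _)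
    (fun Y hY hYH => cl3 Y hY H hH.1.1 hYH) (by omega)
  rw [h3, hH.1.2]
  simp only [Nat.zero_add]
  exact dvd_refl _

theorem RB.flags {k s : ℕ} {ℓ : ℕ → ℕ} (hs : 1 ≤ s) (hℓ : ∀ i j, i < j → j < s → ℓ i < ℓ j)
    (hk : ∀ i, i < s → ℓ i < k)
    (h : ¬ (∏ t ∈ Finset.range (s - 1), (ℓ (s - 1) - ℓ t)) ∣ ∏ t ∈ Finset.range (s - 1), (k - ℓ t)) :
    RB k ((Finset.range s).image ℓ) s := by
  apply RB.of_cover hs
  intro T hI hT hcov
  apply h
  apply flags_count hs hℓ hk hI _ hcov
  intro A hA
  have h1 := hT A hA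
  rw [Finset.mem_image] at h1
  obtain ⟨i, hi, h2⟩ := h1
  exact ⟨i, Finset.mem_range.mp hi, h2.symm⟩

end flags

end Pool.Agent.Helper138_LS
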