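import Pool.Agent.Helper138_LS.PosGeom

/-!
Affine and projective planes over finite fields.
-/

set_option autoImplicit false

open Finset

namespace Pool.Agent.Helper138_LS

open Pool.Agent.H480R2.LS

/-- there is a field with `q` elements -/
theorem exists_field {q : ℕ} (hq : IsPrimePow q) :
    ∃ (K : Type) (_ : Field K) (_ : Fintype K) (_ : DecidableEq K), Fintype.card K = q := by
  classical
  obtain ⟨p, m, hp, hm, rfl⟩ := (isPrimePow_nat_iff q).mp hq
  have : Fact p.Prime := ⟨hp⟩
  let _ : Fintype (GaloisField p m) := Fintype.ofFinite _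
  refine ⟨GaloisField p m, inferInstance, inferInstance, inferInstance, ?_⟩
  rw [← Nat.card_eq_fintype_card]
  exact GaloisField.card p m (by omega)

section plane

variable {K : Type} [Field K] [Fintype K] [DecidableEq K]

/-- affine functions of two variables -/
def evA (u : K × K × K) (p : K × K) : K := u.1 + u.2.1 * p.1 + u.2.2 * p.2

theorem evA_card (u : K × K × K) (hu : u.2 ≠ 0) :
    (Finset.univ.filter fun p => evA u p = 0).card = Fintype.card K := by
  obtain ⟨a, b, c⟩ := u
  by_cases hc : c = 0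
  · subst hc
    have hb : b ≠ 0 := by
      rintro rfl
      exact hu rfl
    rw [← Finset.card_univ]
    symm
    apply Finset.card_bij (fun (y : K) _ => ((-a / b, y) : K × K))
    · intro y _
      rw [Finset.mem_filter]
      refine ⟨Finset.mem_univ _, ?_⟩
      simp only [evA]
      field_simp
      ring
    · intro y _ z _ h
      simpa using h
    · rintro ⟨x, y⟩ h
      rw [Finset.mem_filter] at h
      have h' := h.2
      simp only [evA] at h'
      refine ⟨y, Finset.mem_univ _, ?_⟩
      rw [Prod.mk.injEq]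
      refine ⟨?_, rfl⟩
      field_simp
      linear_combination -h'
  · rw [← Finset.card_univ]
    symm
    apply Finset.card_bij (fun (x : K) _ => ((x, -(a + b * x) / c) : K × K))
    · intro y _
      rw [Finset.mem_filter]
      refine ⟨Finset.mem_univ _, ?_⟩
      simp only [evA]
      field_simp
      ring
    · intro y _ z _ h
      rw [Prod.mk.injEq] at h
      exact h.1
    · rintro ⟨x, y⟩ h
      rw [Finset.mem_filter] at h
      have h' := h.2
      simp only [evA] at h'
      refine ⟨x, Finset.mem_univ _, ?_⟩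
      rw [Prod.mk.injEq]
      refine ⟨rfl, ?_⟩
      field_simp
      linear_combination -h'

omit [Fintype K] [DecidableEq K] in
theorem evA_eq {u v : K × K × K} (hu : u.2 ≠ 0) {p r : K × K} (hpr : p ≠ r)
    (h1 : evA u p = 0) (h2 : evA u r = 0) (h3 : evA v p = 0) (h4 : evA v r = 0) :
    ∀ s, evA u s = 0 → evA v s = 0 := by
  obtain ⟨a, b, c⟩ := u
  obtain ⟨a', b', c'⟩ := v
  obtain ⟨x1, y1⟩ := p
  obtain ⟨x2, y2⟩ := r
  rintro ⟨x, y⟩ h5
  simp only [evA] at *
  have e1 : (b * c' - b' * c) * (x1 - x2) = 0 := by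
    linear_combination c' * (h1 - h2) - c * (h3 - h4)
  have e2 : (b * c' - b' * c) * (y1 - y2) = 0 := by
    linear_combination b * (h3 - h4) - b' * (h1 - h2)
  have e3 : b * c' - b' * c = 0 := by
    rcases mul_eq_zero.mp e1 with e | e
    · exact e
    · rcases mul_eq_zero.mp e2 with e' | e'
      · exact e'
      · exfalso
        apply hpr
        rw [sub_eq_zero.mp e, sub_eq_zero.mp e']
  have e4 : c * (a' + b' * x + c' * y) = 0 := by
    linear_combination c * h3 + c' * (h5 - h1) - (x - x1) * e3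
  have e5 : b * (a' + b' * x + c' * y) = 0 := by
    linear_combination b * h3 + b' * (h5 - h1) + (y - y1) * e3
  rcases mul_eq_zero.mp e4 with e | e
  · rcases mul_eq_zero.mp e5 with e' | e'
    · exfalso
      apply hu
      rw [e, e']
      rfl
    · exact e'
  · exact e

theorem evA_inter (u v : K × K × K) (hu : u.2 ≠ 0) (hv : v.2 ≠ 0)
    (hne : (Finset.univ.filter fun p => evA u p = 0) ≠ (Finset.univ.filter fun p => evA v p = 0)) :
    ((Finset.univ.filter fun p => evA u p = 0) ∩ (Finset.univ.filter fun p => evA v p = 0)).card ≤ 1 := by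
  by_contra hcon
  push Not at hcon
  obtain ⟨p, hp, r, hr, hpr⟩ := Finset.one_lt_card.mp hcon
  rw [Finset.mem_inter, Finset.mem_filter, Finset.mem_filter] at hp hr
  apply hne
  ext s
  rw [Finset.mem_filter, Finset.mem_filter]
  constructor
  · rintro ⟨_, h⟩
    exact ⟨Finset.mem_univ _, evA_eq hu hpr hp.1.2 hr.1.2 hp.2.2 hr.2.2 s h⟩
  · rintro ⟨_, h⟩
    exact ⟨Finset.mem_univ _, evA_eq hv hpr hp.2.2 hr.2.2 hp.1.2 hr.1.2 s h⟩

theorem evA_zero (u : K × K × K) (hu : u ≠ 0) (h2 : u.2 = 0) :
    (Finset.univ.filter fun p => evA u p = 0) = ∅ := by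
  obtain ⟨a, b, c⟩ := u
  rw [Finset.eq_empty_iff_forall_notMem]
  rintro ⟨x, y⟩ h
  rw [Finset.mem_filter] at h
  have h' := h.2
  simp only [evA] at h'
  rw [Prod.mk_eq_zero] at h2
  obtain ⟨rfl, rfl⟩ := h2
  apply hu
  have : a = 0 := by linear_combination h'
  rw [this]
  rfl

end plane

/-- **Affine planes.** -/
theorem affPos {q : ℕ} (hq : IsPrimePow q) :
    ∃ c : ℝ, 0 < c ∧ ∀ n : ℕ, q ^ 2 ≤ n → ∃ F : Finset (Finset (Fin n)),
      (∀ A ∈ F, A.card = q ^ 2) ∧ (∀ A ∈ F, ∀ B ∈ F, A ≠ B → (A ∩ B).card ∈ ({0, 1, q} : Finset ℕ)) ∧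
      c * (n : ℝ) ^ 3 ≤ F.card := by
  obtain ⟨K, _, _, _, hK⟩ := exists_field hq
  have hq2 : 2 ≤ q := hq.two_le
  apply of_geom (P := K × K) (K := K) (M := K × K × K) (q := q) (t := 1) (l := q) ?_ hK ?_ hq2 ?_ ?_ ?_
    evA ?_ ?_ ?_
  · rw [Fintype.card_prod, hK]; ring
  · rw [Fintype.card_prod, Fintype.card_prod, hK]; ring
  · nlinarith
  · nlinarith
  · intro i hi
    simp only [Finset.mem_insert, Finset.mem_singleton]
    omega
  · rintro ⟨a, b, c⟩ ⟨a', b', c'⟩ ⟨x, y⟩
    simp only [evA, Prod.mk_sub_mk]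
    ring
  · intro u hu
    by_cases h2 : u.2 = 0
    · left
      rw [evA_zero u hu h2]
      simp
    · right
      rw [evA_card u h2, hK]
  · intro u v hu hv hne
    by_cases h2 : u.2 = 0
    · rw [evA_zero u hu h2]
      simp
    · by_cases h3 : v.2 = 0
      · rw [evA_zero v hv h3]
        simp
      · exact evA_inter u v h2 h3 hne

end Pool.Agent.Helper138_LS
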