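import Pool.Agent.Helper138_LS.PosBin
import Pool.Agent.Helper138_LS.PosPlane
import Mathlib.LinearAlgebra.Projectivization.Cardinality

/-!
Projective and affine spaces of arbitrary dimension over finite fields.
-/

set_option autoImplicit false

open Finset

namespace Pool.Agent.Helper138_LS

open Pool.Agent.H480R2.LS
open scoped LinearAlgebra.Projectivization

/-- vectors over a finite field such that every proper subspace contains `l` of them with `l ∈ L` -/
theorem repr_att {K P : Type} [Field K] [Fintype K] [DecidableEq K] [Fintype P] [DecidableEq P] {s k : ℕ}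
    {L : Finset ℕ} (hP : Fintype.card P = k) (hk : 1 ≤ k) (hkL : k ∉ L) (v : P → (Fin s → K))
    (hL : ∀ W : Submodule K (Fin s → K), W ≠ ⊤ → Nat.card {p // v p ∈ W} ∈ L) : Att k L s := by
  classical
  have hc : ∀ (A : Finset P) (W : Submodule K (Fin s → K)), (∀ p, p ∈ A ↔ v p ∈ W) →
      A.card = Nat.card {p // v p ∈ W} := by
    intro A W h
    rw [Nat.card_eq_fintype_card, Fintype.card_subtype]
    congr 1
    ext p
    rw [h, Finset.mem_filter]
    simp
  apply of_geom2 (P := P) (K := K) (M := Fin s → K) (q := Fintype.card K) hP rfl (by simp)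
    Fintype.one_lt_card hk
    (fun A => ∃ W : Submodule K (Fin s → K), W ≠ ⊤ ∧ ∀ p, p ∈ A ↔ v p ∈ W) ?_ ?_ ?_
    (fun u p => ∑ i, u i * v p i) ?_ ?_
  · rintro A B ⟨W, hW, h1⟩ ⟨W', _, h2⟩
    refine ⟨W ⊓ W', ?_, fun p => by rw [Finset.mem_inter, h1, h2, Submodule.mem_inf]⟩
    intro h
    exact hW (top_le_iff.mp (h ▸ inf_le_left))
  · rintro A ⟨W, hW, h1⟩
    rw [hc A W h1]
    exact hL W hW
  · rintro ⟨W, hW, h1⟩
    apply hkL
    have h2 := hc _ W h1
    rw [Finset.card_univ, hP] at h2
    rw [h2]
    exact hL W hW
  · intro u w p
    simp only [Pi.sub_apply, sub_mul, Finset.sum_sub_distrib]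
  · intro u hu
    let φ : (Fin s → K) →ₗ[K] K := ∑ i, u i • LinearMap.proj i
    have hφ : ∀ x, φ x = ∑ i, u i * x i := by
      intro x
      simp [φ, LinearMap.sum_apply]
    refine ⟨LinearMap.ker φ, ?_, ?_⟩
    · intro h
      rw [LinearMap.ker_eq_top] at h
      apply hu
      funext j
      have h1 := hφ (Pi.single j 1)
      rw [h] at h1
      simpa [Pi.single_apply] using h1.symm
    · intro p
      rw [Finset.mem_filter, LinearMap.mem_ker, hφ]
      simp

/-- the number of points of a projective space -/
def pgp (m i : ℕ) : ℕ := ∑ j ∈ Finset.range i, m ^ j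

theorem pgp_succ (m i : ℕ) : pgp m (i + 1) = 1 + m * pgp m i := by
  rw [pgp, pgp, Finset.sum_range_succ', Finset.mul_sum, pow_zero, add_comm]
  congr 1
  apply Finset.sum_congr rfl
  intro j _
  ring

theorem pgp_zero (m : ℕ) : pgp m 0 = 0 := rfl

theorem pgp_lt {m i j : ℕ} (hm : 1 ≤ m) (h : i < j) : pgp m i < pgp m j := by
  rw [pgp, pgp]
  apply Finset.sum_lt_sum_of_subset (Finset.range_subset_range.mpr h.le) (Finset.mem_range.mpr h) (by simp)
  · positivity
  · intros
    positivity

theorem pgPos {q s : ℕ} (hq : IsPrimePow q) (hs : 1 ≤ s) :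
    Att (pgp q s) ((Finset.range s).image (pgp q)) s := by
  classical
  obtain ⟨K, _, _, _, hK⟩ := exists_field hq
  have hq2 : 2 ≤ q := hq.two_le
  let _ : Fintype (ℙ K (Fin s → K)) := Fintype.ofFinite _
  apply repr_att (K := K) (P := ℙ K (Fin s → K)) (v := fun p => p.rep)
  · rw [← Nat.card_eq_fintype_card, Projectivization.card_of_finrank K _ (Module.finrank_fin_fun K), pgp,
      Nat.card_eq_fintype_card, hK]
  · have := pgp_lt (m := q) (by omega) (show 0 < s by omega)
    rw [pgp_zero] at this
    exact this
  · intro h
    rw [Finset.mem_image] at h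
    obtain ⟨i, hi, h⟩ := h
    have := pgp_lt (m := q) (by omega) (Finset.mem_range.mp hi)
    omega
  · intro W hW
    rw [Finset.mem_image]
    refine ⟨Module.finrank K W, Finset.mem_range.mpr ?_, ?_⟩
    · have := Submodule.finrank_lt hW
      rwa [Module.finrank_fin_fun] at this
    · rw [pgp, ← hK, ← Nat.card_eq_fintype_card, ← Projectivization.card_of_finrank K W rfl]
      apply Nat.card_congr
      have hinj : Function.Injective W.subtype := Subtype.val_injective
      refine Equiv.ofBijective (fun x => ⟨Projectivization.map W.subtype hinj x, ?_⟩) ⟨?_, ?_⟩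
      · induction x using Projectivization.ind with
        | h w hw =>
          rw [Projectivization.map_mk]
          obtain ⟨a, ha⟩ := Projectivization.exists_smul_eq_mk_rep K (W.subtype w)
            (map_zero W.subtype ▸ hinj.ne hw)
          rw [← ha]
          exact W.smul_mem _ w.2
      · intro x y hxy
        exact Projectivization.map_injective W.subtype hinj (congrArg Subtype.val hxy)
      · rintro ⟨p, hp⟩
        have h0 : (⟨p.rep, hp⟩ : W) ≠ 0 := by
          intro h
          exact p.rep_nonzero (congrArg Subtype.val h)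
        refine ⟨Projectivization.mk K ⟨p.rep, hp⟩ h0, ?_⟩
        apply Subtype.ext
        show Projectivization.map W.subtype hinj (Projectivization.mk K ⟨p.rep, hp⟩ h0) = p
        rw [Projectivization.map_mk]
        exact p.mk_rep

theorem agPos {q d : ℕ} (hq : IsPrimePow q) (hd : 1 ≤ d) :
    Att (q ^ d) (insert 0 ((Finset.range d).image (q ^ ·))) (d + 1) := by
  classical
  obtain ⟨K, _, _, _, hK⟩ := exists_field hq
  have hq2 : 2 ≤ q := hq.two_le
  have hlt : ∀ {i j : ℕ}, i < j → q ^ i < q ^ j := fun h => Nat.pow_lt_pow_right (by omega) h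
  apply repr_att (K := K) (P := Fin d → K) (v := fun x => Fin.cons 1 x)
  · rw [Fintype.card_fun, hK, Fintype.card_fin]
  · exact Nat.one_le_pow _ _ (by omega)
  · intro h
    rw [Finset.mem_insert, Finset.mem_image] at h
    rcases h with h | ⟨i, hi, h⟩
    · have : 0 < q ^ d := by positivity
      omega
    · have := hlt (Finset.mem_range.mp hi)
      omega
  · intro W hW
    rw [Finset.mem_insert]
    rcases isEmpty_or_nonempty {x : Fin d → K // (Fin.cons 1 x : Fin (d + 1) → K) ∈ W} with he | ⟨⟨x0, hx0⟩⟩
    · left
      exact Nat.card_of_isEmpty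
    · right
      let φ : (Fin d → K) →ₗ[K] (Fin (d + 1) → K) :=
        { toFun := fun x => Fin.cons 0 x
          map_add' := by
            intro x y
            funext i
            refine Fin.cases ?_ (fun j => ?_) i <;> simp
          map_smul' := by
            intro a x
            funext i
            refine Fin.cases ?_ (fun j => ?_) i <;> simp }
      have hφ : ∀ x, φ x = Fin.cons 0 x := fun _ => rfl
      have hadd : ∀ x : Fin d → K, (Fin.cons 1 (x0 + x) : Fin (d + 1) → K) = Fin.cons 1 x0 + φ x := by
        intro x
        rw [hφ]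
        funext i
        refine Fin.cases ?_ (fun j => ?_) i <;> simp
      set U : Submodule K (Fin d → K) := W.comap φ with hU
      rw [Finset.mem_image]
      refine ⟨Module.finrank K U, Finset.mem_range.mpr ?_, ?_⟩
      · have hUt : U ≠ ⊤ := by
          intro h
          apply hW
          rw [eq_top_iff]
          intro y _
          have h1 : y = y 0 • (Fin.cons 1 x0 : Fin (d + 1) → K) + φ (fun j => y j.succ - y 0 * x0 j) := by
            rw [hφ]
            funext i
            refine Fin.cases ?_ (fun j => ?_) i <;> simp
          rw [h1]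
          apply W.add_mem (W.smul_mem _ hx0)
          have h2 : (fun j => y j.succ - y 0 * x0 j) ∈ U := by
            rw [h]
            exact Submodule.mem_top
          exact h2
        have := Submodule.finrank_lt hUt
        rwa [Module.finrank_fin_fun] at this
      · have h1 : Nat.card U = Nat.card K ^ Module.finrank K U := Module.natCard_eq_pow_finrank
        show q ^ Module.finrank K U = _
        rw [← hK, ← Nat.card_eq_fintype_card, ← h1]
        apply Nat.card_congr
        refine Equiv.ofBijective (fun x => ⟨x0 + x.1, ?_⟩) ⟨?_, ?_⟩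
        · rw [hadd]
          exact W.add_mem hx0 x.2
        · intro x y hxy
          have := congrArg Subtype.val hxy
          exact Subtype.ext (add_left_cancel this)
        · rintro ⟨y, hy⟩
          refine ⟨⟨y - x0, ?_⟩, ?_⟩
          · have h2 := hadd (y - x0)
            rw [add_sub_cancel] at h2
            rw [h2] at hy
            exact (W.add_mem_iff_right hx0).mp hy
          · apply Subtype.ext
            show x0 + (y - x0) = y
            rw [add_sub_cancel]

end Pool.Agent.Helper138_LS
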