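import Pool.Agent.Helper138_LS.LR
import Pool.Agent.Helper138_LS.PosPG

/-!
The pairs whose last three steps are `g`, `g m`, `g m²`.
-/

set_option autoImplicit false

open Finset

namespace Pool.Agent.Helper138_LS

open Pool.Agent.H480R2.LS

theorem card_four {a b c d : ℕ} (h1 : a < b) (h2 : b < c) (h3 : c < d) :
    ({a, b, c, d} : Finset ℕ).card = 4 := by
  rw [Finset.card_insert_of_notMem, Finset.card_eq_three.mpr ⟨b, c, d, by omega, by omega, by omega, rfl⟩]
  simp only [Finset.mem_insert, Finset.mem_singleton]
  omega

/-- planes that violate the inequality of Fisher -/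
theorem rbFisher4 {h m K : ℕ} (hh : 1 ≤ h) (hm : 1 ≤ m) (hmh : m < h + 1) (hK : 1 + h * m < K)
    (hm2 : 2 ≤ m) : RB K {0, 1, 1 + h, 1 + h * m} 4 := by
  have e1 : 1 + h < 1 + h * m := by
    have : h * 2 ≤ h * m := Nat.mul_le_mul_left _ hm2
    omega
  have e2 : ({0, 1, 1 + h, 1 + h * m} : Finset ℕ) ⊆ Finset.range K := by
    intro i hi
    simp only [Finset.mem_insert, Finset.mem_singleton] at hi
    rw [Finset.mem_range]
    omega
  have e3 : ({0, 1, 1 + h, 1 + h * m} : Finset ℕ).erase (1 + h * m) = {0, 1, 1 + h} := by
    ext i
    simp only [Finset.mem_erase, Finset.mem_insert, Finset.mem_singleton]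
    omega
  apply RB.restrict (l := 1 + h * m) (s := 3) e2 (by simp) _ (card_four (by omega) (by omega) e1) (by norm_num)
  · rw [e3]
    apply RB.fisher (by omega) e1
    rw [Nat.add_sub_cancel_left, Nat.add_sub_cancel_left, mul_comm]
    have : m * h < (1 + h) * h := Nat.mul_lt_mul_of_pos_right (by omega) (by omega)
    exact this
  · intro i hi
    simp only [Finset.mem_insert, Finset.mem_singleton] at hi
    omega

theorem rbProj4 {h m : ℕ} (hh : 1 ≤ h) (hm : 2 ≤ m) (h1 : h ≠ m) (h2 : h + 1 ≠ m) :
    RB (1 + h * (m ^ 2 + m + 1)) {0, 1, 1 + h, 1 + h * (m + 1)} 4 := by
  rcases Nat.lt_or_ge (h + 1) m with h3 | h3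
  · have := RB.locProj hh h3
    rw [add_comm h 1] at this
    exact this
  · have h4 : m < h := by omega
    apply rbFisher4 hh (by omega) (by omega) _ (by omega)
    have : h * (m + 1) < h * (m ^ 2 + m + 1) := by
      apply Nat.mul_lt_mul_of_pos_left _ (by omega)
      have : 0 < m ^ 2 := by positivity
      omega
    omega

theorem rbAff4 {h m : ℕ} (hh : 2 ≤ h) (hm : 2 ≤ m) : RB (1 + h * m ^ 2) {0, 1, 1 + h, 1 + h * m} 4 := by
  rcases Nat.lt_or_ge m (h + 1) with h1 | h1
  · apply rbFisher4 (by omega) (by omega) h1 _ hm
    have : h * m < h * m ^ 2 := by
      apply Nat.mul_lt_mul_of_pos_left _ (by omega)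
      nlinarith
    omega
  · obtain ⟨p, rfl⟩ : ∃ p, m = p + 1 := ⟨m - 1, by omega⟩
    set m := p + 1 with hmdef
    set ℓ : ℕ → ℕ := fun i => if i = 0 then 0 else if i = 1 then 1 else if i = 2 then 1 + h else 1 + h * m
      with hℓ
    have e1 : ({0, 1, 1 + h, 1 + h * m} : Finset ℕ) = (Finset.range 4).image ℓ := by
      have : Finset.range 4 = {0, 1, 2, 3} := by decide
      rw [this]
      simp [hℓ]
    have e0 : h < h * m := by
      have : h * 2 ≤ h * m := Nat.mul_le_mul_left _ hm
      omega
    have e0' : h * m < h * m ^ 2 := by
      apply Nat.mul_lt_mul_of_pos_left _ (by omega)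
      nlinarith
    rw [e1]
    apply RB.flags (by norm_num)
    · intro i j hij hj
      interval_cases j <;> interval_cases i <;> simp [hℓ] <;> omega
    · intro i hi
      have hv : ∀ i, ℓ i ≤ 1 + h * m := by
        intro i
        simp only [hℓ]
        split_ifs <;> omega
      exact lt_of_le_of_lt (hv i) (by omega)
    · have f1 : ∏ t ∈ Finset.range (4 - 1), (ℓ (4 - 1) - ℓ t) = (1 + h * m) * ((h * m) * (h * p)) := by
        have g1 : 1 + h * m - (1 + h) = h * p := by
          have : h * m = h * p + h := by rw [hmdef]; ring
          omega
        simp only [Finset.prod_range_succ, Finset.prod_range_zero, hℓ]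
        norm_num
        rw [g1]
        ring
      have f2 : ∏ t ∈ Finset.range (4 - 1), (1 + h * m ^ 2 - ℓ t) =
          (1 + h * m ^ 2) * ((h * m ^ 2) * (h * (p * (m + 1)))) := by
        have g1 : 1 + h * m ^ 2 - (1 + h) = h * (p * (m + 1)) :=
          Nat.sub_eq_of_eq_add (by rw [hmdef]; ring)
        simp only [Finset.prod_range_succ, Finset.prod_range_zero, hℓ]
        norm_num
        rw [g1]
        ring
      rw [f1, f2]
      intro hd
      have hpos : 0 < (h * m) * (h * p) := by
        have : 0 < p := by omega
        positivity
      have g2 : (h * m) * (h * p) * (1 + h * m) ∣ (h * m) * (h * p) * ((1 + h * m ^ 2) * (m + 1) * m) := by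
        convert hd using 1 <;> ring
      have g3 := Nat.dvd_of_mul_dvd_mul_left hpos g2
      have g4 : Nat.Coprime (1 + h * m) m := by
        rw [Nat.coprime_add_mul_right_left]
        exact Nat.coprime_one_left m
      have g5 := g4.dvd_of_dvd_mul_right g3
      have g6 : (1 + h * m) * (m * (m + 1)) = (1 + h * m ^ 2) * (m + 1) + p * (m + 1) := by
        rw [hmdef]
        ring
      have g7 : (1 + h * m) ∣ p * (m + 1) :=
        (Nat.dvd_add_right g5).mp (g6 ▸ dvd_mul_right _ _)
      have g8 : h ^ 2 * (p * (m + 1)) + (h ^ 2 - 1) = (1 + h * m) * (h * m - 1) := by
        have a1 : 1 ≤ h ^ 2 := Nat.one_le_pow _ _ (by omega)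
        have a2 : 1 ≤ h * m := by
          have : 0 < h * m := by positivity
          omega
        zify [a1, a2]
        rw [hmdef]
        push_cast
        ring
      have g9 : (1 + h * m) ∣ h ^ 2 - 1 :=
        (Nat.dvd_add_right (dvd_mul_of_dvd_right g7 _)).mp (g8 ▸ dvd_mul_right _ _)
      have g10 : 0 < h ^ 2 - 1 := by
        have : 2 ^ 2 ≤ h ^ 2 := Nat.pow_le_pow_left hh 2
        omega
      have g11 := Nat.le_of_dvd g10 g9
      have g12 : h * h ≤ h * m := Nat.mul_le_mul_left _ (by omega)
      have g13 : h ^ 2 = h * h := by ring
      omega

theorem rbAff5 {m : ℕ} (hm : 2 ≤ m) : RB (1 + m ^ 3) {0, 1, 2, 1 + m, 1 + m ^ 2} 5 := by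
  obtain ⟨p, rfl⟩ : ∃ p, m = p + 1 := ⟨m - 1, by omega⟩
  set m := p + 1 with hmdef
  set ℓ : ℕ → ℕ := fun i => if i = 0 then 0 else if i = 1 then 1 else if i = 2 then 2 else
    if i = 3 then 1 + m else 1 + m ^ 2 with hℓ
  have e1 : ({0, 1, 2, 1 + m, 1 + m ^ 2} : Finset ℕ) = (Finset.range 5).image ℓ := by
    have : Finset.range 5 = {0, 1, 2, 3, 4} := by decide
    rw [this]
    simp [hℓ]
  have a1 : m < m ^ 2 := by nlinarith
  have a2 : m ^ 2 < m ^ 3 := Nat.pow_lt_pow_right (by omega) (by norm_num)
  rw [e1]
  apply RB.flags (by norm_num)
  · intro i j hij hj
    interval_cases j <;> interval_cases i <;> simp [hℓ] <;> omega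
  · intro i hi
    interval_cases i <;> simp [hℓ] <;> omega
  · have f1 : ∏ t ∈ Finset.range (5 - 1), (ℓ (5 - 1) - ℓ t) =
        (1 + m ^ 2) * (m ^ 2 * ((p * (m + 1)) * (m * p))) := by
      have g1 : 1 + m ^ 2 - 2 = p * (m + 1) := by
        have : 1 + m ^ 2 = p * (m + 1) + 2 := by rw [hmdef]; ring
        omega
      have g2 : 1 + m ^ 2 - (1 + m) = m * p := by
        have : m ^ 2 = m * p + m := by rw [hmdef]; ring
        omega
      simp only [Finset.prod_range_succ, Finset.prod_range_zero, hℓ]
      norm_num
      rw [g1, g2]
      ring
    have f2 : ∏ t ∈ Finset.range (5 - 1), (1 + m ^ 3 - ℓ t) =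
        (1 + m ^ 3) * (m ^ 3 * ((p * (m ^ 2 + m + 1)) * (m * (p * (m + 1))))) := by
      have g1 : 1 + m ^ 3 - 2 = p * (m ^ 2 + m + 1) := by
        have : 1 + m ^ 3 = p * (m ^ 2 + m + 1) + 2 := by rw [hmdef]; ring
        omega
      have g2 : 1 + m ^ 3 - (1 + m) = m * (p * (m + 1)) := by
        have : m ^ 3 = m * (p * (m + 1)) + m := by rw [hmdef]; ring
        omega
      simp only [Finset.prod_range_succ, Finset.prod_range_zero, hℓ]
      norm_num
      rw [g1, g2]
      ring
    rw [f1, f2]
    intro hd
    have hpos : 0 < m ^ 3 * p ^ 2 * (m + 1) := by
      have : 0 < p := by omega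
      positivity
    have g2 : m ^ 3 * p ^ 2 * (m + 1) * (1 + m ^ 2) ∣
        m ^ 3 * p ^ 2 * (m + 1) * ((1 + m ^ 3) * (m * (m ^ 2 + m + 1))) := by
      convert hd using 1 <;> ring
    have g3 := Nat.dvd_of_mul_dvd_mul_left hpos g2
    have g4 : (1 + m ^ 3) * (m * (m ^ 2 + m + 1)) = (1 + m ^ 2) * (m ^ 4 + m ^ 3 + 1) + p := by
      rw [hmdef]
      ring
    rw [g4] at g3
    have g5 := (Nat.dvd_add_right (dvd_mul_right _ _)).mp g3
    have g6 := Nat.le_of_dvd (by omega) g5
    omega

/-- the last three steps are `g`, `g m` and `g m²` -/
def TopP (m k : ℕ) (L : Finset ℕ) : Prop :=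
  ∃ x g, 1 ≤ g ∧ x ∈ L ∧ x + g ∈ L ∧ x + g * (m + 1) ∈ L ∧ k = x + g * (m ^ 2 + m + 1) ∧
    ∀ i ∈ L, i < x ∨ i = x ∨ i = x + g ∨ i = x + g * (m + 1)

/-- the sizes of the subspaces of a projective or an affine space over a field with `m` elements, up to
multiplication by `h` and addition of `a` -/
def Geo (m k : ℕ) (L : Finset ℕ) : Prop :=
  ∃ a h s, 1 ≤ h ∧ ((k = a + h * pgp m s ∧ L = (Finset.range s).image fun i => a + h * pgp m i) ∨
    (k = a + h * m ^ s ∧ L = insert a ((Finset.range s).image fun i => a + h * m ^ i)))

theorem topP_ineq {m g : ℕ} (hm : 2 ≤ m) (hg : 1 ≤ g) : g < g * (m + 1) ∧ g * (m + 1) < g * (m ^ 2 + m + 1) := by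
  have h0 : 0 < m ^ 2 := by positivity
  constructor
  · have : g * 1 < g * (m + 1) := Nat.mul_lt_mul_of_pos_left (by omega) (by omega)
    omega
  · exact Nat.mul_lt_mul_of_pos_left (by omega) (by omega)

theorem TopP.sub {m k : ℕ} {L : Finset ℕ} (hm : 2 ≤ m) (h : TopP m k L) : L ⊆ Finset.range k := by
  obtain ⟨x, g, hg, h1, h2, h3, h4, h5⟩ := h
  intro i hi
  have := topP_ineq hm hg
  have := h5 i hi
  rw [Finset.mem_range]
  omega

theorem geo_shift {m k : ℕ} {L : Finset ℕ} (h0 : 0 ∉ L) (h : Geo m k (dn L)) : Geo m (k + 1) L := by
  have key : ∀ L' : Finset ℕ, dn L = L' → L = L'.image fun i => i + 1 := by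
    intro L' h
    subst h
    ext i
    rw [Finset.mem_image]
    constructor
    · intro hi
      have hi0 : i ≠ 0 := by rintro rfl; exact h0 hi
      refine ⟨i - 1, ?_, by omega⟩
      rw [mem_dn, Nat.sub_add_cancel (by omega)]
      exact hi
    · rintro ⟨j, hj, rfl⟩
      exact mem_dn.mp hj
  obtain ⟨a, h, s, hh, ⟨h1, h2⟩ | ⟨h1, h2⟩⟩ := h
  · refine ⟨a + 1, h, s, hh, Or.inl ⟨by omega, ?_⟩⟩
    rw [key _ h2, Finset.image_image]
    apply Finset.image_congr
    intro i _
    simp only [Function.comp]
    ring
  · refine ⟨a + 1, h, s, hh, Or.inr ⟨by omega, ?_⟩⟩
    rw [key _ h2, Finset.image_insert, Finset.image_image]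
    congr 1
    apply Finset.image_congr
    intro i _
    simp only [Function.comp]
    ring

theorem geo_scale {m k g : ℕ} {L : Finset ℕ} (hg : 1 ≤ g) (hk : g ∣ k) (hL : ∀ l ∈ L, g ∣ l)
    (h : Geo m (k / g) (sc g L)) : Geo m k L := by
  have key : ∀ L' : Finset ℕ, sc g L = L' → L = L'.image fun i => g * i := by
    intro L' h
    subst h
    ext i
    rw [Finset.mem_image]
    constructor
    · intro hi
      obtain ⟨j, rfl⟩ := hL i hi
      exact ⟨j, (mem_sc hg).mpr hi, rfl⟩
    · rintro ⟨j, hj, rfl⟩
      exact (mem_sc hg).mp hj
  have hkg := Nat.mul_div_cancel' hk
  obtain ⟨a, h, s, hh, ⟨h1, h2⟩ | ⟨h1, h2⟩⟩ := h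
  · refine ⟨g * a, g * h, s, Nat.one_le_iff_ne_zero.mpr (by positivity), Or.inl ⟨?_, ?_⟩⟩
    · rw [← hkg, h1]
      ring
    · rw [key _ h2, Finset.image_image]
      apply Finset.image_congr
      intro i _
      simp only [Function.comp]
      ring
  · refine ⟨g * a, g * h, s, Nat.one_le_iff_ne_zero.mpr (by positivity), Or.inr ⟨?_, ?_⟩⟩
    · rw [← hkg, h1]
      ring
    · rw [key _ h2, Finset.image_insert, Finset.image_image]
      congr 1
      apply Finset.image_congr
      intro i _
      simp only [Function.comp]
      ring

theorem topP_dn {m k : ℕ} {L : Finset ℕ} {x g : ℕ} (hx : 1 ≤ x) (hg : 1 ≤ g) (h1 : x ∈ L)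
    (h2 : x + g ∈ L) (h3 : x + g * (m + 1) ∈ L) (h4 : k + 1 = x + g * (m ^ 2 + m + 1))
    (h5 : ∀ i ∈ L, i < x ∨ i = x ∨ i = x + g ∨ i = x + g * (m + 1)) : TopP m k (dn L) := by
  obtain ⟨x, rfl⟩ : ∃ y, x = y + 1 := ⟨x - 1, by omega⟩
  refine ⟨x, g, hg, mem_dn.mpr h1, ?_, ?_, by omega, ?_⟩
  · rw [mem_dn]
    convert h2 using 1
    ring
  · rw [mem_dn]
    convert h3 using 1
    ring
  · intro i hi
    have := h5 _ (mem_dn.mp hi)
    omega

/-- **the negative part** -/
theorem topP_neg {m : ℕ} (hm : 2 ≤ m) : ∀ k : ℕ, ∀ L : Finset ℕ, TopP m k L →
    ¬ (IsPrimePow m ∧ Geo m k L) → RB k L L.card := by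
  classical
  intro k
  induction k using Nat.strong_induction_on with
  | _ k ih =>
    intro L hT hY
    have hL := hT.sub hm
    have hT' := hT
    obtain ⟨x, g, hg, h1, h2, h3, h4, h5⟩ := hT'
    have hineq := topP_ineq hm hg
    obtain ⟨k0, rfl⟩ : ∃ k0, k = k0 + 1 := ⟨k - 1, by omega⟩
    by_cases h0 : 0 ∈ L
    · by_cases h01 : 1 ∈ L
      · have h0' : 0 ∈ dn L := mem_dn.mpr h01
        have hcard : L.card = (dn L).card + 1 := by
          rw [card_dn, Finset.card_erase_of_mem h0]
          have : 1 ≤ L.card := Finset.card_pos.mpr ⟨0, h0⟩
          omega
        rcases Nat.eq_zero_or_pos x with hx | hx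
        · -- rank three
          subst hx
          have hg1 : g = 1 := by
            have := h5 1 h01
            omega
          subst hg1
          have e1 : L = {0, 1, m + 1} := by
            ext i
            simp only [Finset.mem_insert, Finset.mem_singleton]
            constructor
            · intro hi
              have := h5 i hi
              omega
            · rintro (rfl | rfl | rfl)
              · exact h0
              · exact h01
              · convert h3 using 1
                ring
          have e2 : k0 + 1 = m ^ 2 + m + 1 := by rw [h4]; ring
          have e3 : L.card = 3 := by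
            rw [e1, Finset.card_eq_three]
            exact ⟨0, 1, m + 1, by omega, by omega, by omega, rfl⟩
          rw [e3, e2, e1]
          apply RB.proj hm
          intro hpp
          apply hY
          refine ⟨hpp, 0, 1, 3, le_rfl, Or.inl ⟨?_, ?_⟩⟩
          · rw [e2]
            simp [pgp, Finset.sum_range_succ]
            ring
          · have e4 : Finset.range 3 = {0, 1, 2} := by decide
            rw [e1, e4]
            simp [pgp, Finset.sum_range_succ, add_comm]
        · have hTd := topP_dn hx hg h1 h2 h3 h4 h5
          by_cases hY' : IsPrimePow m ∧ Geo m k0 (dn L)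
          swap
          · rw [hcard]
            exact RB.link (ih k0 (by omega) (dn L) hTd hY')
          obtain ⟨hpp, a, h, s, hh, hG⟩ := hY'
          have hG' : ¬ Geo m (k0 + 1) L := fun hg => hY ⟨hpp, hg⟩
          have lift : ∀ L' : Finset ℕ, dn L = L' → L = insert 0 (L'.image fun i => 1 + i) := by
            intro L' hdL
            ext i
            rw [Finset.mem_insert, Finset.mem_image]
            constructor
            · intro hi
              rcases Nat.eq_zero_or_pos i with rfl | hi0
              · exact Or.inl rfl
              · right
                obtain ⟨j, rfl⟩ : ∃ j, i = j + 1 := ⟨i - 1, by omega⟩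
                rw [← mem_dn, hdL] at hi
                exact ⟨j, hi, by ring⟩
            · rintro (rfl | ⟨t, ht, rfl⟩)
              · exact h0
              · rw [← hdL, mem_dn] at ht
                convert ht using 1
                ring
          rcases hG with ⟨hk, hdL⟩ | ⟨hk, hdL⟩
          · -- the link is a projective space
            have ha : a = 0 := by
              rw [hdL, Finset.mem_image] at h0'
              obtain ⟨i, _, h⟩ := h0'
              omega
            subst ha
            simp only [Nat.zero_add] at hk hdL
            have hLL := lift _ hdL
            rw [Finset.image_image] at hLL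
            have hmemL : ∀ i, i < s → 1 + h * pgp m i ∈ L := by
              intro i hi
              rw [hLL, Finset.mem_insert, Finset.mem_image]
              exact Or.inr ⟨i, Finset.mem_range.mpr hi, rfl⟩
            by_cases hhm : h = m
            · exfalso
              apply hG'
              refine ⟨0, 1, s + 1, le_rfl, Or.inl ⟨?_, ?_⟩⟩
              · rw [pgp_succ, hk, hhm]
                ring
              · rw [hLL]
                ext i
                simp only [Finset.mem_insert, Finset.mem_image, Finset.mem_range, Function.comp]
                constructor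
                · rintro (rfl | ⟨t, ht, rfl⟩)
                  · exact ⟨0, by omega, by simp [pgp_zero]⟩
                  · exact ⟨t + 1, by omega, by rw [pgp_succ, hhm]; ring⟩
                · rintro ⟨t, ht, rfl⟩
                  rcases Nat.eq_zero_or_pos t with rfl | ht0
                  · left
                    simp [pgp_zero]
                  · right
                    refine ⟨t - 1, by omega, ?_⟩
                    have : pgp m t = 1 + m * pgp m (t - 1) := by
                      rw [← pgp_succ, Nat.sub_add_cancel ht0]
                    rw [this, hhm]
                    ring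
            by_cases hhm' : h + 1 = m
            · exfalso
              apply hG'
              have e1 : ∀ i, 1 + h * pgp m i = m ^ i := by
                intro i
                induction i with
                | zero => simp [pgp_zero]
                | succ i ih' =>
                  rw [pgp_succ, pow_succ, ← ih', ← hhm']
                  ring
              refine ⟨0, 1, s, le_rfl, Or.inr ⟨?_, ?_⟩⟩
              · rw [← e1, hk]
                ring
              · rw [hLL]
                congr 1
                apply Finset.image_congr
                intro i _
                simp only [Function.comp]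
                rw [e1]
                ring
            have hs3 : 3 ≤ s := by
              have e1 : 3 ≤ (dn L).card := by
                obtain ⟨x', g', hg', d1, d2, d3, d4, d5⟩ := hTd
                have hineq' := topP_ineq hm hg'
                have e2 : ({x', x' + g', x' + g' * (m + 1)} : Finset ℕ) ⊆ dn L := by
                  intro i hi
                  simp only [Finset.mem_insert, Finset.mem_singleton] at hi
                  rcases hi with rfl | rfl | rfl <;> assumption
                have e3 : ({x', x' + g', x' + g' * (m + 1)} : Finset ℕ).card = 3 :=
                  Finset.card_eq_three.mpr ⟨_, _, _, by omega, by omega, by omega, rfl⟩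
                rw [← e3]
                exact Finset.card_le_card e2
              rw [hdL] at e1
              exact e1.trans (Finset.card_image_le.trans (by rw [Finset.card_range]))
            have p3 : pgp m 3 = m ^ 2 + m + 1 := by
              simp [pgp, Finset.sum_range_succ]
              ring
            have p2 : pgp m 2 = m + 1 := by
              simp [pgp, Finset.sum_range_succ]
              ring
            have p1 : pgp m 1 = 1 := by simp [pgp]
            have r4 := rbProj4 hh hm hhm hhm'
            have hpm : ∀ i j, i < j → 1 + h * pgp m i < 1 + h * pgp m j := by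
              intro i j hij
              have := Nat.mul_lt_mul_of_pos_left (pgp_lt (m := m) (by omega) hij) (show 0 < h by omega)
              omega
            have hfil : ∀ s', 3 ≤ s' → s' ≤ s → L.filter (· < 1 + h * pgp m 3) = {0, 1, 1 + h, 1 + h * (m + 1)} := by
              intro s' _ _
              ext i
              rw [Finset.mem_filter, hLL]
              simp only [Finset.mem_insert, Finset.mem_image, Finset.mem_range, Finset.mem_singleton,
                Function.comp]
              constructor
              · rintro ⟨rfl | ⟨t, ht, rfl⟩, hlt⟩
                · exact Or.inl rfl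
                · have ht3 : t < 3 := by
                    by_contra hcon
                    rcases Nat.eq_or_lt_of_le (show 3 ≤ t by omega) with e | e
                    · subst e
                      omega
                    · have := hpm 3 t e
                      omega
                  interval_cases t
                  · right; left
                    rw [pgp_zero]
                    ring
                  · right; right; left
                    rw [p1]
                    ring
                  · right; right; right
                    rw [p2]
              · have q1 := hpm 0 3 (by norm_num)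
                have q2 := hpm 1 3 (by norm_num)
                have q3 := hpm 2 3 (by norm_num)
                rw [pgp_zero] at q1
                rw [p1] at q2
                rw [p2] at q3
                rintro (rfl | rfl | rfl | rfl)
                · exact ⟨Or.inl rfl, by omega⟩
                · exact ⟨Or.inr ⟨0, by omega, by rw [pgp_zero]; ring⟩, by omega⟩
                · exact ⟨Or.inr ⟨1, by omega, by rw [p1]; ring⟩, by omega⟩
                · exact ⟨Or.inr ⟨2, by omega, by rw [p2]⟩, by omega⟩
            have hf := hfil 3 le_rfl hs3
            have hc4 : ({0, 1, 1 + h, 1 + h * (m + 1)} : Finset ℕ).card = 4 := by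
              have : h * 1 < h * (m + 1) := Nat.mul_lt_mul_of_pos_left (by omega) (by omega)
              exact card_four (by omega) (by omega) (by omega)
            rcases Nat.eq_or_lt_of_le hs3 with e | e
            · subst e
              have e1 : L = {0, 1, 1 + h, 1 + h * (m + 1)} := by
                rw [← hf, Finset.filter_true_of_mem]
                intro i hi
                have := Finset.mem_range.mp (hL hi)
                omega
              have e2 : k0 + 1 = 1 + h * (m ^ 2 + m + 1) := by
                rw [hk, p3]
                ring
              rw [e2, e1, hc4]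
              exact r4
            · apply RB.restrict_to L.card (v := 1 + h * pgp m 3) rfl hL (hmemL 3 e)
              · rw [hf]
                exact ⟨0, by simp⟩
              · rw [hf, hc4, p3]
                exact r4
          · -- the link is an affine space
            have ha : a = 0 := by
              rw [hdL, Finset.mem_insert, Finset.mem_image] at h0'
              rcases h0' with h | ⟨i, _, h⟩ <;> omega
            subst ha
            simp only [Nat.zero_add] at hk hdL
            have hLL := lift _ hdL
            rw [Finset.image_insert, Finset.image_image] at hLL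
            have hpm : ∀ i j, i < j → h * m ^ i < h * m ^ j := by
              intro i j hij
              exact Nat.mul_lt_mul_of_pos_left (Nat.pow_lt_pow_right (by omega) hij) (by omega)
            have hs3 : 3 ≤ s := by
              by_contra hcon
              obtain ⟨x', g', hg', d1, d2, d3, d4, d5⟩ := hTd
              have hineq' := topP_ineq hm hg'
              rw [hdL] at d1 d2 d3 d5
              simp only [Finset.mem_insert, Finset.mem_image, Finset.mem_range] at d1 d2 d3 d5
              have e0 := d5 0 (Or.inl rfl)
              have hx0 : x' = 0 := by
                by_contra hx0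
                rcases d1 with d1 | ⟨t1, ht1, d1⟩
                · exact hx0 d1
                rcases d2 with d2 | ⟨t2, ht2, d2⟩
                · omega
                rcases d3 with d3 | ⟨t3, ht3, d3⟩
                · omega
                have i1 : t1 < t2 := by
                  by_contra hc
                  rcases Nat.eq_or_lt_of_le (Nat.le_of_not_lt hc) with e | e
                  · rw [e] at d2; omega
                  · have := hpm _ _ e; omega
                have i2 : t2 < t3 := by
                  by_contra hc
                  rcases Nat.eq_or_lt_of_le (Nat.le_of_not_lt hc) with e | e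
                  · rw [e] at d3; omega
                  · have := hpm _ _ e; omega
                omega
              subst hx0
              simp only [Nat.zero_add] at d2 d3 d4 d5
              rcases d2 with d2 | ⟨t2, ht2, d2⟩
              · omega
              rcases d3 with d3 | ⟨t3, ht3, d3⟩
              · omega
              have i2 : t2 < t3 := by
                by_contra hc
                rcases Nat.eq_or_lt_of_le (Nat.le_of_not_lt hc) with e | e
                · rw [e] at d3; omega
                · have := hpm _ _ e; omega
              have i3 : t2 = 0 ∧ t3 = 1 := by omega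
              obtain ⟨rfl, rfl⟩ := i3
              have i4 : h = g' := by rw [← d2]; ring
              subst i4
              have i5 : h * m ^ 1 = h * m := by ring
              rw [i5] at d3
              have : h * m < h * (m + 1) := Nat.mul_lt_mul_of_pos_left (by omega) (by omega)
              omega
            have hmemL : ∀ i, i < s → 1 + h * m ^ i ∈ L := by
              intro i hi
              rw [hLL]
              simp only [Finset.mem_insert, Finset.mem_image, Finset.mem_range, Function.comp]
              exact Or.inr (Or.inr ⟨i, hi, rfl⟩)
            have hmem : ∀ i, i ∈ L ↔ (i = 0 ∨ i = 1 ∨ ∃ t, t < s ∧ i = 1 + h * m ^ t) := by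
              intro i
              rw [hLL]
              simp only [Finset.mem_insert, Finset.mem_image, Finset.mem_range, Function.comp]
              constructor
              · rintro (rfl | rfl | ⟨t, ht, rfl⟩)
                · exact Or.inl rfl
                · exact Or.inr (Or.inl (by ring))
                · exact Or.inr (Or.inr ⟨t, ht, rfl⟩)
              · rintro (rfl | rfl | ⟨t, ht, rfl⟩)
                · exact Or.inl rfl
                · exact Or.inr (Or.inl (by ring))
                · exact Or.inr (Or.inr ⟨t, ht, rfl⟩)
            rcases Nat.lt_or_ge h 2 with hh2 | hh2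
            · have hh1 : h = 1 := by omega
              subst hh1
              have hf : L.filter (· < 1 + 1 * m ^ 3) = {0, 1, 2, 1 + m, 1 + m ^ 2} := by
                have q1 := hpm 0 3 (by norm_num)
                have q2 := hpm 1 3 (by norm_num)
                have q3 := hpm 2 3 (by norm_num)
                simp only [one_mul, pow_zero, pow_one] at q1 q2 q3
                ext i
                rw [Finset.mem_filter, hmem]
                simp only [Finset.mem_insert, Finset.mem_singleton, one_mul]
                constructor
                · rintro ⟨rfl | rfl | ⟨t, ht, rfl⟩, hlt⟩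
                  · exact Or.inl rfl
                  · exact Or.inr (Or.inl rfl)
                  · have ht3 : t < 3 := by
                      by_contra hcon
                      rcases Nat.eq_or_lt_of_le (show 3 ≤ t by omega) with e | e
                      · subst e
                        omega
                      · have := hpm 3 t e
                        simp only [one_mul] at this
                        omega
                    interval_cases t
                    · right; right; left
                      simp
                    · right; right; right; left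
                      simp
                    · right; right; right; right
                      rfl
                · rintro (rfl | rfl | rfl | rfl | rfl)
                  · exact ⟨Or.inl rfl, by omega⟩
                  · exact ⟨Or.inr (Or.inl rfl), by omega⟩
                  · exact ⟨Or.inr (Or.inr ⟨0, by omega, by simp⟩), by omega⟩
                  · exact ⟨Or.inr (Or.inr ⟨1, by omega, by simp⟩), by omega⟩
                  · exact ⟨Or.inr (Or.inr ⟨2, by omega, rfl⟩), by omega⟩
              have hc5 : ({0, 1, 2, 1 + m, 1 + m ^ 2} : Finset ℕ).card = 5 := by
                have : m < m ^ 2 := by nlinarith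
                rw [Finset.card_insert_of_notMem, card_four (by omega) (by omega) (by omega)]
                simp only [Finset.mem_insert, Finset.mem_singleton]
                omega
              rcases Nat.eq_or_lt_of_le hs3 with e | e
              · subst e
                have e1 : L = {0, 1, 2, 1 + m, 1 + m ^ 2} := by
                  rw [← hf, Finset.filter_true_of_mem]
                  intro i hi
                  have := Finset.mem_range.mp (hL hi)
                  omega
                have e2 : k0 + 1 = 1 + m ^ 3 := by omega
                rw [e2, e1, hc5]
                exact rbAff5 hm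
              · apply RB.restrict_to L.card (v := 1 + 1 * m ^ 3) rfl hL (hmemL 3 e)
                · rw [hf]
                  exact ⟨0, by simp⟩
                · rw [hf, hc5, one_mul]
                  exact rbAff5 hm
            · have hf : L.filter (· < 1 + h * m ^ 2) = {0, 1, 1 + h, 1 + h * m} := by
                have q1 := hpm 0 2 (by norm_num)
                have q2 := hpm 1 2 (by norm_num)
                simp only [pow_zero, pow_one, mul_one] at q1 q2
                ext i
                rw [Finset.mem_filter, hmem]
                simp only [Finset.mem_insert, Finset.mem_singleton]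
                constructor
                · rintro ⟨rfl | rfl | ⟨t, ht, rfl⟩, hlt⟩
                  · exact Or.inl rfl
                  · exact Or.inr (Or.inl rfl)
                  · have ht3 : t < 2 := by
                      by_contra hcon
                      rcases Nat.eq_or_lt_of_le (show 2 ≤ t by omega) with e | e
                      · subst e
                        omega
                      · have := hpm 2 t e
                        omega
                    interval_cases t
                    · right; right; left
                      simp
                    · right; right; right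
                      simp
                · rintro (rfl | rfl | rfl | rfl)
                  · exact ⟨Or.inl rfl, by omega⟩
                  · exact ⟨Or.inr (Or.inl rfl), by omega⟩
                  · exact ⟨Or.inr (Or.inr ⟨0, by omega, by simp⟩), by omega⟩
                  · exact ⟨Or.inr (Or.inr ⟨1, by omega, by simp⟩), by omega⟩
              have hc4 : ({0, 1, 1 + h, 1 + h * m} : Finset ℕ).card = 4 := by
                have : h * 1 < h * m := Nat.mul_lt_mul_of_pos_left (by omega) (by omega)
                exact card_four (by omega) (by omega) (by omega)
              apply RB.restrict_to L.card (v := 1 + h * m ^ 2) rfl hL (hmemL 2 (by omega))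
              · rw [hf]
                exact ⟨0, by simp⟩
              · rw [hf, hc4]
                exact rbAff4 hh2 hm
      · -- the smallest positive size is at least two
        have hne : (L.erase 0).Nonempty := ⟨x + g, Finset.mem_erase.mpr ⟨by omega, h2⟩⟩
        obtain ⟨g0, hg0, hmin⟩ := Finset.exists_min_image (L.erase 0) id hne
        rw [Finset.mem_erase] at hg0
        have hg2 : 2 ≤ g0 := by
          have : g0 ≠ 1 := by rintro rfl; exact h01 hg0.2
          omega
        apply RB.scale hg2 h0 hg0.2 (fun l hl hl0 => hmin l (Finset.mem_erase.mpr ⟨hl0, hl⟩)) rfl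
        intro hgk hgl
        have e1 : (sc g0 L).card = L.card := by
          rw [sc, Finset.filter_true_of_mem hgl]
          apply Finset.card_image_of_injOn
          intro i hi j hj hij
          have e1 := Nat.mul_div_cancel' (hgl i hi)
          have e2 := Nat.mul_div_cancel' (hgl j hj)
          have hij' : i / g0 = j / g0 := hij
          rw [← e1, ← e2, hij']
        rw [← e1]
        apply ih ((k0 + 1) / g0) (Nat.div_lt_self (by omega) (by omega)) (sc g0 L)
        · obtain ⟨x', rfl⟩ := hgl x h1
          have hgg : g0 ∣ g := (Nat.dvd_add_right (dvd_mul_right _ _)).mp (hgl _ h2)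
          obtain ⟨g', rfl⟩ := hgg
          have hg' : 1 ≤ g' := by
            by_contra hcon
            have : g' = 0 := by omega
            subst this
            omega
          refine ⟨x', g', hg', (mem_sc (by omega)).mpr h1, (mem_sc (by omega)).mpr ?_,
            (mem_sc (by omega)).mpr ?_, ?_, ?_⟩
          · convert h2 using 1
            ring
          · convert h3 using 1
            ring
          · rw [h4]
            have : g0 * x' + g0 * g' * (m ^ 2 + m + 1) = g0 * (x' + g' * (m ^ 2 + m + 1)) := by ring
            rw [this, Nat.mul_div_cancel_left _ (by omega)]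
          · intro i hi
            have h6 := h5 _ ((mem_sc (by omega)).mp hi)
            have hg00 : 0 < g0 := by omega
            rcases h6 with h6 | h6 | h6 | h6
            · exact Or.inl (Nat.lt_of_mul_lt_mul_left h6)
            · exact Or.inr (Or.inl (Nat.eq_of_mul_eq_mul_left hg00 h6))
            · refine Or.inr (Or.inr (Or.inl (Nat.eq_of_mul_eq_mul_left hg00 ?_)))
              rw [h6]
              ring
            · refine Or.inr (Or.inr (Or.inr (Nat.eq_of_mul_eq_mul_left hg00 ?_)))
              rw [h6]
              ring
        · rintro ⟨hpp, hG⟩
          exact hY ⟨hpp, geo_scale (by omega) hgk hgl hG⟩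
    · -- a common point
      have hcard : (dn L).card = L.card := by
        rw [card_dn, Finset.erase_eq_of_notMem h0]
      have hl1 : 1 ≤ L.card := Finset.card_pos.mpr ⟨x, h1⟩
      have hx : 1 ≤ x := by
        rcases Nat.eq_zero_or_pos x with rfl | hx
        · exact absurd h1 h0
        · exact hx
      apply RB.shift hl1 h0
      rw [← hcard]
      apply ih k0 (by omega) (dn L) (topP_dn hx hg h1 h2 h3 h4 h5)
      rintro ⟨hpp, hG⟩
      exact hY ⟨hpp, geo_shift h0 hG⟩

end Pool.Agent.Helper138_LS
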