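import Pool.Agent.Helper138_LS.LT

/-!
The pairs whose last three steps are `g`, `g (l - 1)`, `g (K - l)` with `K` at most about `l² + l ^ (3/2)`, the
parameters of projective planes excluded.
-/

set_option autoImplicit false

open Finset

namespace Pool.Agent.Helper138_LS

open Pool.Agent.H480R2.LS

/-- the divisibility condition for Steiner systems -/
theorem RB.near_j {l j : ℕ} (hl : 3 ≤ l) (hj : 1 ≤ j) (h : ¬ l ∣ j * (j - 1)) :
    RB ((l - 1) * (l + j) + 1) {0, 1, l} 3 := by
  obtain ⟨p, rfl⟩ : ∃ p, l = p + 1 := ⟨l - 1, by omega⟩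
  rw [Nat.add_sub_cancel]
  have h3 : insert (p + 1) (Finset.range 2) = ({0, 1, p + 1} : Finset ℕ) := by
    ext i
    simp only [Finset.mem_insert, Finset.mem_range, Finset.mem_singleton]
    omega
  rw [← h3]
  apply RB.steiner (by omega)
  rintro ⟨c, hc⟩
  set r := p + 1 + j with hrdef
  have e1 : 2 * (p * r + 1).choose 2 = (p * r + 1) * (p * r) := by
    rw [Nat.choose_two_right, Nat.add_sub_cancel]
    exact Nat.mul_div_cancel' (by
      have := (Nat.even_mul_succ_self (p * r)).two_dvd
      rwa [mul_comm] at this)
  have e2 : 2 * (p + 1).choose 2 = (p + 1) * p := by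
    rw [Nat.choose_two_right, Nat.add_sub_cancel]
    exact Nat.mul_div_cancel' (by
      have := (Nat.even_mul_succ_self p).two_dvd
      rwa [mul_comm] at this)
  rw [hc] at e1
  have e3 : p * ((p + 1) * c) = p * ((p * r + 1) * r) := by
    calc p * ((p + 1) * c) = (2 * (p + 1).choose 2) * c := by rw [e2]; ring
      _ = 2 * ((p + 1).choose 2 * c) := by ring
      _ = (p * r + 1) * (p * r) := e1
      _ = _ := by ring
  have e4 : (p + 1) * c = (p * r + 1) * r := Nat.eq_of_mul_eq_mul_left (by omega) e3
  have e5 : (p * r + 1) * r + j * (j - 1) = (p + 1) * (r * r - (p + 2 * j)) := by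
    have a1 : p + 2 * j ≤ r * r := by
      have : r * 2 ≤ r * r := Nat.mul_le_mul_left _ (by omega)
      omega
    zify [a1, hj]
    rw [hrdef]
    push_cast
    ring
  rw [← e4] at e5
  exact h ((Nat.dvd_add_right (dvd_mul_right _ _)).mp (e5 ▸ dvd_mul_right _ _))

/-- reduction to the divisibility condition -/
theorem RB.near_of {K l : ℕ} (hl : 3 ≤ l) (hlK : l ^ 2 < K)
    (h : ∀ j, 2 ≤ j → K = (l - 1) * (l + j) + 1 → ¬ l ∣ j * (j - 1)) : RB K {0, 1, l} 3 := by
  obtain ⟨K, rfl⟩ : ∃ y, K = y + 1 := ⟨K - 1, by omega⟩
  by_cases hdiv : (l - 1) ∣ K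
  swap
  · exact RB.div_point hl hdiv
  obtain ⟨r, rfl⟩ := hdiv
  have hr : l + 1 < r := by
    by_contra hcon
    have h1 : (l - 1) * r ≤ (l - 1) * (l + 1) := Nat.mul_le_mul_left _ (by omega)
    have h2 : l ^ 2 = (l - 1) * (l + 1) + 1 := by
      obtain ⟨p, rfl⟩ : ∃ p, l = p + 1 := ⟨l - 1, by omega⟩
      rw [Nat.add_sub_cancel]
      ring
    omega
  obtain ⟨j, rfl⟩ : ∃ j, r = l + j := ⟨r - l, by omega⟩
  exact RB.near_j hl (by omega) (h j (by omega) rfl)

/-- pairs `(K, {0,1,l})` with `l² < K ≤ l² - l + l ^ (3/2)` -/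
theorem RB.near_plane2 {K l : ℕ} (hl : 3 ≤ l) (hlK : l ^ 2 < K) (hK : (K + l - l ^ 2) ^ 2 ≤ l ^ 3) :
    RB K {0, 1, l} 3 := by
  apply RB.near_of hl hlK
  rintro j hj rfl hd
  obtain ⟨p, rfl⟩ : ∃ p, l = p + 1 := ⟨l - 1, by omega⟩
  rw [Nat.add_sub_cancel] at *
  have h3 : p * (p + 1 + j) + 1 + (p + 1) - (p + 1) ^ 2 = j * p + 1 := by
    have : p * (p + 1 + j) + 1 + (p + 1) = j * p + 1 + (p + 1) ^ 2 := by ring
    omega
  rw [h3] at hK
  have hjl : j * (j - 1) < p + 1 := by
    by_contra hcon
    obtain ⟨i, rfl⟩ : ∃ i, j = i + 2 := ⟨j - 2, by omega⟩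
    have e1 : i + 2 - 1 = i + 1 := by omega
    rw [e1] at hcon
    push Not at hcon
    have h4 : (p + 1) * p ^ 2 ≤ (i + 2) * (i + 1) * p ^ 2 := Nat.mul_le_mul_right _ hcon
    have h5 : ((i + 2) * p + 1) ^ 2 = (i + 2) * (i + 1) * p ^ 2 + (i + 2) * p ^ 2 + 2 * (i + 2) * p + 1 := by ring
    have h6 : (p + 1) ^ 3 = (p + 1) * p ^ 2 + 2 * p ^ 2 + 3 * p + 1 := by ring
    have h7 : 2 * p ^ 2 ≤ (i + 2) * p ^ 2 := Nat.mul_le_mul_right _ (by omega)
    have h8 : 2 * 2 * p ≤ 2 * (i + 2) * p := Nat.mul_le_mul_right _ (Nat.mul_le_mul_left _ (by omega))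
    have h9 : 1 ≤ p := by omega
    omega
  have e7 := Nat.le_of_dvd (Nat.mul_pos (by omega) (by omega)) hd
  omega

/-- pairs `(K, {0,1,l})` with `l² < K ≤ 2 l² - 2 l` and a prime power `l` -/
theorem RB.near_plane3 {K l : ℕ} (hl : 3 ≤ l) (hlK : l ^ 2 < K) (hpp : IsPrimePow l)
    (hK : K + 2 * l ≤ 2 * l ^ 2) : RB K {0, 1, l} 3 := by
  apply RB.near_of hl hlK
  rintro j hj rfl hd
  have hc : Nat.Coprime j (j - 1) := by
    obtain ⟨i, rfl⟩ : ∃ i, j = i + 1 := ⟨j - 1, by omega⟩
    rw [Nat.add_sub_cancel]
    exact (Nat.coprime_self_add_left).mpr (Nat.coprime_one_left i)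
  have hjl : j < l := by
    by_contra hcon
    obtain ⟨p, rfl⟩ : ∃ p, l = p + 1 := ⟨l - 1, by omega⟩
    rw [Nat.add_sub_cancel] at *
    have h1 : p * (p + 1 + (p + 1)) ≤ p * (p + 1 + j) := Nat.mul_le_mul_left _ (by omega)
    have h2 : 2 * (p + 1) ^ 2 = p * (p + 1 + (p + 1)) + 2 * (p + 1) := by ring
    omega
  rcases (Nat.Coprime.isPrimePow_dvd_mul hc hpp).mp hd with h | h
  · have := Nat.le_of_dvd (by omega) h
    omega
  · have := Nat.le_of_dvd (by omega) h
    omega

/-- the region -/
def Reg (l K : ℕ) : Prop := l < K ∧ K + l ≠ l ^ 2 + 1 ∧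
  (K + 2 < l ^ 2 + 2 * l ∨ (K + l - l ^ 2) ^ 2 ≤ l ^ 3 ∨ (IsPrimePow l ∧ K + 2 * l ≤ 2 * l ^ 2))

theorem RB.near {K l : ℕ} (hl : 3 ≤ l) (hR : Reg l K) (h1 : K ≠ l ^ 2) : RB K {0, 1, l} 3 := by
  obtain ⟨h2, h4, h3⟩ := hR
  rcases Nat.lt_or_ge (l ^ 2) K with h5 | h5
  · rcases h3 with h3 | h3 | ⟨h3, h6⟩
    · exact RB.near_plane hl h2 h3 h1 h4
    · exact RB.near_plane2 hl h5 h3
    · exact RB.near_plane3 hl h5 h3 h6
  · exact RB.near_plane hl h2 (by nlinarith) h1 h4

/-- the last three steps are `g`, `g (l - 1)` and `g (K - l)` -/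
def TopA (l K k : ℕ) (L : Finset ℕ) : Prop :=
  ∃ x g, 1 ≤ g ∧ x ∈ L ∧ x + g ∈ L ∧ x + g * l ∈ L ∧ k = x + g * K ∧
    ∀ i ∈ L, i < x ∨ i = x ∨ i = x + g ∨ i = x + g * l

/-- the parameters of a `t`-fold extension of an affine plane -/
def ExtA (l t k : ℕ) (L : Finset ℕ) : Prop :=
  ∃ a g, 1 ≤ g ∧ k = a + g * (l ^ 2 + t) ∧ L = (SL t l).image fun i => a + g * i

/-- the good extensions -/
def GoodA (l t : ℕ) : Prop := IsPrimePow l ∧ (t ≤ 1 ∨ (l = 3 ∧ t ≤ 3))

theorem topA_ineq {l K g : ℕ} (hl : 3 ≤ l) (hK : l < K) (hg : 1 ≤ g) : g < g * l ∧ g * l < g * K := by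
  constructor
  · have : g * 1 < g * l := Nat.mul_lt_mul_of_pos_left (by omega) (by omega)
    omega
  · exact Nat.mul_lt_mul_of_pos_left hK (by omega)

theorem TopA.sub {l K k : ℕ} {L : Finset ℕ} (hl : 3 ≤ l) (hK : l < K) (h : TopA l K k L) :
    L ⊆ Finset.range k := by
  obtain ⟨x, g, hg, h1, h2, h3, h4, h5⟩ := h
  intro i hi
  have := topA_ineq hl hK hg
  have := h5 i hi
  rw [Finset.mem_range]
  omega

theorem extA_shift {l t k : ℕ} {L : Finset ℕ} (h0 : 0 ∉ L) (h : ExtA l t k (dn L)) : ExtA l t (k + 1) L := by
  obtain ⟨a, g, hg, hk, hL⟩ := h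
  refine ⟨a + 1, g, hg, by omega, ?_⟩
  ext i
  rw [Finset.mem_image]
  constructor
  · intro hi
    have hi0 : i ≠ 0 := by rintro rfl; exact h0 hi
    obtain ⟨j, rfl⟩ : ∃ j, i = j + 1 := ⟨i - 1, by omega⟩
    rw [← mem_dn, hL, Finset.mem_image] at hi
    obtain ⟨t, ht, rfl⟩ := hi
    exact ⟨t, ht, by ring⟩
  · rintro ⟨t, ht, rfl⟩
    have : a + g * t ∈ dn L := by
      rw [hL, Finset.mem_image]
      exact ⟨t, ht, rfl⟩
    rw [mem_dn] at this
    convert this using 1
    ring

theorem extA_scale {l t k g : ℕ} {L : Finset ℕ} (hg : 1 ≤ g) (hk : g ∣ k) (hL : ∀ l ∈ L, g ∣ l)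
    (h : ExtA l t (k / g) (sc g L)) : ExtA l t k L := by
  obtain ⟨a, g', hg', hk', hL'⟩ := h
  refine ⟨g * a, g * g', Nat.one_le_iff_ne_zero.mpr (by positivity), ?_, ?_⟩
  · rw [← Nat.mul_div_cancel' hk, hk']
    ring
  · ext i
    rw [Finset.mem_image]
    constructor
    · intro hi
      obtain ⟨j, rfl⟩ := hL i hi
      rw [← mem_sc (by omega), hL', Finset.mem_image] at hi
      obtain ⟨t, ht, rfl⟩ := hi
      exact ⟨t, ht, by ring⟩
    · rintro ⟨t, ht, rfl⟩
      have : a + g' * t ∈ sc g L := by
        rw [hL', Finset.mem_image]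
        exact ⟨t, ht, rfl⟩
      rw [mem_sc (by omega)] at this
      convert this using 1
      ring

theorem mem_SL {t l i : ℕ} : i ∈ SL t l ↔ i = t + l ∨ i < t + 2 := by
  rw [SL, Finset.mem_insert, Finset.mem_range]

theorem card_SL {t l : ℕ} (hl : 2 ≤ l) : (SL t l).card = t + 3 := by
  rw [SL, Finset.card_insert_of_notMem, Finset.card_range]
  rw [Finset.mem_range]
  omega

/-- extensions of affine planes that are not good -/
theorem rbExtA {l t : ℕ} (hl : 3 ≤ l) (hg : ¬ GoodA l t) (hx : ¬ ((l = 8 ∨ l = 13) ∧ 2 ≤ t)) :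
    RB (l ^ 2 + t) (SL t l) (t + 3) := by
  rcases Nat.lt_or_ge t 2 with ht | ht
  · have h2 : ¬ IsPrimePow l := fun hpp => hg ⟨hpp, Or.inl (by omega)⟩
    have h3 : RB (l ^ 2 + 0) (SL 0 l) (0 + 3) := by
      rw [SL_zero]
      exact RB.aff (by omega) h2
    have h4 := RB.up h3 t
    rwa [zero_add] at h4
  · apply affNo hl ht
    · rintro rfl
      by_contra hcon
      exact hg ⟨Nat.prime_three.isPrimePow, Or.inr ⟨rfl, by omega⟩⟩
    · intro h8
      exact hx ⟨Or.inl h8, ht⟩
    · intro h13
      exact hx ⟨Or.inr h13, ht⟩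

theorem topA_dn {l K k : ℕ} {L : Finset ℕ} {x g : ℕ} (hx : 1 ≤ x) (hg : 1 ≤ g) (h1 : x ∈ L)
    (h2 : x + g ∈ L) (h3 : x + g * l ∈ L) (h4 : k + 1 = x + g * K)
    (h5 : ∀ i ∈ L, i < x ∨ i = x ∨ i = x + g ∨ i = x + g * l) : TopA l K k (dn L) := by
  obtain ⟨x, rfl⟩ : ∃ y, x = y + 1 := ⟨x - 1, by omega⟩
  refine ⟨x, g, hg, mem_dn.mpr h1, ?_, ?_, by omega, ?_⟩
  · rw [mem_dn]
    convert h2 using 1
    ring
  · rw [mem_dn]
    convert h3 using 1
    ring
  · intro i hi
    have := h5 _ (mem_dn.mp hi)
    omega

/-- **the negative part** -/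
theorem topA_neg {l K : ℕ} (hl : 3 ≤ l) (hR : Reg l K) : ∀ k : ℕ, ∀ L : Finset ℕ, TopA l K k L →
    (¬ ∃ t, GoodA l t ∧ ExtA l t k L) → (¬ ∃ t, ((l = 8 ∨ l = 13) ∧ 2 ≤ t) ∧ ExtA l t k L) →
    RB k L L.card := by
  classical
  intro k
  induction k using Nat.strong_induction_on with
  | _ k ih =>
    intro L hT hY hX
    have hL := hT.sub hl hR.1
    have hT' := hT
    obtain ⟨x, g, hg, h1, h2, h3, h4, h5⟩ := hT'
    have hineq := topA_ineq hl hR.1 hg
    obtain ⟨k0, rfl⟩ : ∃ k0, k = k0 + 1 := ⟨k - 1, by omega⟩
    by_cases h0 : 0 ∈ L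
    · by_cases h01 : 1 ∈ L
      · have h0' : 0 ∈ dn L := mem_dn.mpr h01
        have hcard : L.card = (dn L).card + 1 := by
          rw [card_dn, Finset.card_erase_of_mem h0]
          have : 1 ≤ L.card := Finset.card_pos.mpr ⟨0, h0⟩
          omega
        rcases Nat.eq_zero_or_pos x with hx | hx
        · -- rank three
          subst hx
          have hg1 : g = 1 := by
            have := h5 1 h01
            omega
          subst hg1
          have e1 : L = {0, 1, l} := by
            ext i
            simp only [Finset.mem_insert, Finset.mem_singleton]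
            constructor
            · intro hi
              have := h5 i hi
              omega
            · rintro (rfl | rfl | rfl)
              · exact h0
              · exact h01
              · convert h3 using 1
                ring
          have e2 : k0 + 1 = K := by rw [h4]; ring
          have e3 : L.card = 3 := by
            rw [e1, Finset.card_eq_three]
            exact ⟨0, 1, l, by omega, by omega, by omega, rfl⟩
          by_cases hKl : K = l ^ 2
          · have hE : ExtA l 0 (k0 + 1) L := by
              refine ⟨0, 1, le_rfl, by rw [e2, hKl]; ring, ?_⟩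
              rw [e1, SL_zero]
              simp
            have h6 := rbExtA (t := 0) hl (fun hgood => hY ⟨0, hgood, hE⟩) (by omega)
            rw [e3, e2, e1, hKl]
            rwa [SL_zero, add_zero, zero_add] at h6
          · rw [e3, e2, e1]
            exact RB.near hl hR hKl
        · have hTd := topA_dn hx hg h1 h2 h3 h4 h5
          by_cases hE : ∃ t, ExtA l t k0 (dn L)
          · obtain ⟨t, a, h, hh, hk, hdL⟩ := hE
            have ha : a = 0 := by
              rw [hdL, Finset.mem_image] at h0'
              obtain ⟨i, _, h⟩ := h0'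
              omega
            subst ha
            simp only [Nat.zero_add] at hk hdL
            have hmem : ∀ i, i ∈ L ↔ (i = 0 ∨ ∃ j, j ∈ SL t l ∧ i = 1 + h * j) := by
              intro i
              constructor
              · intro hi
                rcases Nat.eq_zero_or_pos i with rfl | hi0
                · exact Or.inl rfl
                · right
                  obtain ⟨j, rfl⟩ : ∃ j, i = j + 1 := ⟨i - 1, by omega⟩
                  rw [← mem_dn, hdL, Finset.mem_image] at hi
                  obtain ⟨u, hu, hu'⟩ := hi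
                  exact ⟨u, hu, by omega⟩
              · rintro (rfl | ⟨j, hj, rfl⟩)
                · exact h0
                · have : h * j ∈ dn L := by
                    rw [hdL, Finset.mem_image]
                    exact ⟨j, hj, rfl⟩
                  rw [mem_dn] at this
                  convert this using 1
                  ring
            rcases Nat.lt_or_ge h 2 with hh2 | hh2
            · have hh1 : h = 1 := by omega
              subst hh1
              have e1 : L = SL (t + 1) l := by
                ext i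
                rw [hmem, mem_SL]
                constructor
                · rintro (rfl | ⟨j, hj, rfl⟩)
                  · right; omega
                  · rw [mem_SL] at hj
                    omega
                · intro hi
                  rcases Nat.eq_zero_or_pos i with hi0 | hi0
                  · exact Or.inl hi0
                  · right
                    exact ⟨i - 1, mem_SL.mpr (by omega), by omega⟩
              have e2 : k0 + 1 = l ^ 2 + (t + 1) := by omega
              have hE : ExtA l (t + 1) (k0 + 1) L := by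
                refine ⟨0, 1, le_rfl, by rw [e2]; ring, ?_⟩
                rw [e1]
                simp
              have h6 := rbExtA (t := t + 1) hl (fun hgood => hY ⟨t + 1, hgood, hE⟩)
                (fun hx => hX ⟨t + 1, hx, hE⟩)
              rw [e2, e1, card_SL (by omega)]
              exact h6
            · rcases Nat.eq_zero_or_pos t with rfl | ht
              · have e1 : L = {0, 1, 1 + h, 1 + h * l} := by
                  ext i
                  rw [hmem]
                  simp only [Finset.mem_insert, Finset.mem_singleton]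
                  constructor
                  · rintro (rfl | ⟨j, hj, rfl⟩)
                    · exact Or.inl rfl
                    · rw [mem_SL] at hj
                      have : j = 0 ∨ j = 1 ∨ j = l := by omega
                      rcases this with rfl | rfl | rfl
                      · right; left; ring
                      · right; right; left; ring
                      · right; right; right; rfl
                  · rintro (rfl | rfl | rfl | rfl)
                    · exact Or.inl rfl
                    · exact Or.inr ⟨0, mem_SL.mpr (by omega), by ring⟩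
                    · exact Or.inr ⟨1, mem_SL.mpr (by omega), by ring⟩
                    · exact Or.inr ⟨l, mem_SL.mpr (by omega), rfl⟩
                have e2 : k0 + 1 = 1 + h * l ^ 2 := by
                  rw [hk]
                  ring
                have e3 : h * 1 < h * l := Nat.mul_lt_mul_of_pos_left (by omega) (by omega)
                rw [e2, e1, card_four (by omega) (by omega) (by omega)]
                exact rbAff4 hh2 (by omega)
              · have e1 : L.filter (· < 1 + h * 2) = {0, 1, 1 + h} := by
                  ext i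
                  rw [Finset.mem_filter, hmem]
                  simp only [Finset.mem_insert, Finset.mem_singleton]
                  constructor
                  · rintro ⟨rfl | ⟨j, hj, rfl⟩, hlt⟩
                    · exact Or.inl rfl
                    · have hj2 : j < 2 := by
                        by_contra hcon
                        have : h * 2 ≤ h * j := Nat.mul_le_mul_left _ (by omega)
                        omega
                      interval_cases j
                      · right; left; ring
                      · right; right; ring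
                  · rintro (rfl | rfl | rfl)
                    · exact ⟨Or.inl rfl, by omega⟩
                    · exact ⟨Or.inr ⟨0, mem_SL.mpr (by omega), by ring⟩, by omega⟩
                    · exact ⟨Or.inr ⟨1, mem_SL.mpr (by omega), by ring⟩, by omega⟩
                have e2 : ({0, 1, 1 + h} : Finset ℕ).card = 3 :=
                  Finset.card_eq_three.mpr ⟨0, 1, 1 + h, by omega, by omega, by omega, rfl⟩
                apply RB.restrict_to L.card (v := 1 + h * 2) rfl hL
                  ((hmem _).mpr (Or.inr ⟨2, mem_SL.mpr (by omega), rfl⟩))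
                · rw [e1]
                  exact ⟨0, by simp⟩
                · rw [e1, e2]
                  apply RB.fisher (by omega) (by omega)
                  rw [Nat.add_sub_cancel_left, Nat.add_sub_cancel_left, mul_comm]
                  exact Nat.mul_lt_mul_of_pos_right (by omega) (by omega)
          · rw [hcard]
            exact RB.link (ih k0 (by omega) (dn L) hTd (fun ⟨t, _, h⟩ => hE ⟨t, h⟩)
              (fun ⟨t, _, h⟩ => hE ⟨t, h⟩))
      · -- the smallest positive size is at least two
        have hne : (L.erase 0).Nonempty := ⟨x + g, Finset.mem_erase.mpr ⟨by omega, h2⟩⟩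
        obtain ⟨g0, hg0, hmin⟩ := Finset.exists_min_image (L.erase 0) id hne
        rw [Finset.mem_erase] at hg0
        have hg2 : 2 ≤ g0 := by
          have : g0 ≠ 1 := by rintro rfl; exact h01 hg0.2
          omega
        apply RB.scale hg2 h0 hg0.2 (fun l hl hl0 => hmin l (Finset.mem_erase.mpr ⟨hl0, hl⟩)) rfl
        intro hgk hgl
        have e1 : (sc g0 L).card = L.card := by
          rw [sc, Finset.filter_true_of_mem hgl]
          apply Finset.card_image_of_injOn
          intro i hi j hj hij
          have e1 := Nat.mul_div_cancel' (hgl i hi)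
          have e2 := Nat.mul_div_cancel' (hgl j hj)
          have hij' : i / g0 = j / g0 := hij
          rw [← e1, ← e2, hij']
        rw [← e1]
        apply ih ((k0 + 1) / g0) (Nat.div_lt_self (by omega) (by omega)) (sc g0 L)
        · obtain ⟨x', rfl⟩ := hgl x h1
          have hgg : g0 ∣ g := (Nat.dvd_add_right (dvd_mul_right _ _)).mp (hgl _ h2)
          obtain ⟨g', rfl⟩ := hgg
          have hg' : 1 ≤ g' := by
            by_contra hcon
            have : g' = 0 := by omega
            subst this
            omega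
          refine ⟨x', g', hg', (mem_sc (by omega)).mpr h1, (mem_sc (by omega)).mpr ?_,
            (mem_sc (by omega)).mpr ?_, ?_, ?_⟩
          · convert h2 using 1
            ring
          · convert h3 using 1
            ring
          · rw [h4]
            have : g0 * x' + g0 * g' * K = g0 * (x' + g' * K) := by ring
            rw [this, Nat.mul_div_cancel_left _ (by omega)]
          · intro i hi
            have h6 := h5 _ ((mem_sc (by omega)).mp hi)
            have hg00 : 0 < g0 := by omega
            rcases h6 with h6 | h6 | h6 | h6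
            · exact Or.inl (Nat.lt_of_mul_lt_mul_left h6)
            · exact Or.inr (Or.inl (Nat.eq_of_mul_eq_mul_left hg00 h6))
            · refine Or.inr (Or.inr (Or.inl (Nat.eq_of_mul_eq_mul_left hg00 ?_)))
              rw [h6]
              ring
            · refine Or.inr (Or.inr (Or.inr (Nat.eq_of_mul_eq_mul_left hg00 ?_)))
              rw [h6]
              ring
        · rintro ⟨t, hgood, hE⟩
          exact hY ⟨t, hgood, extA_scale (by omega) hgk hgl hE⟩
        · rintro ⟨t, hx, hE⟩
          exact hX ⟨t, hx, extA_scale (by omega) hgk hgl hE⟩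
    · -- a common point
      have hcard : (dn L).card = L.card := by
        rw [card_dn, Finset.erase_eq_of_notMem h0]
      have hl1 : 1 ≤ L.card := Finset.card_pos.mpr ⟨x, h1⟩
      have hx : 1 ≤ x := by
        rcases Nat.eq_zero_or_pos x with rfl | hx
        · exact absurd h1 h0
        · exact hx
      apply RB.shift hl1 h0
      rw [← hcard]
      apply ih k0 (by omega) (dn L) (topA_dn hx hg h1 h2 h3 h4 h5)
      · rintro ⟨t, hgood, hE⟩
        exact hY ⟨t, hgood, extA_shift h0 hE⟩
      · rintro ⟨t, hx, hE⟩
        exact hX ⟨t, hx, extA_shift h0 hE⟩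

end Pool.Agent.Helper138_LS
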