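import Pool.Agent.Helper138_LS.LT

/-!
The pairs for which the last three steps inside `L` are `g`, `g m`, `g m²`, with arbitrary `k`.
-/

set_option autoImplicit false

open Finset

namespace Pool.Agent.Helper138_LS

open Pool.Agent.H480R2.LS

/-- linear spaces whose planes are projective planes (Veblen, Young) -/
theorem vy_count {k m : ℕ} (hm : 1 ≤ m) {T : Finset (Finset (Fin k))} (hI : IC T)
    (hbig : ∀ A ∈ T, 2 ≤ A.card → m + 1 ≤ A.card)
    (hline : ∀ x y : Fin k, x ≠ y → ∃ A ∈ T, x ∈ A ∧ y ∈ A ∧ A.card = m + 1)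
    (hplane : ∀ x y z : Fin k, ∃ A ∈ T, x ∈ A ∧ y ∈ A ∧ z ∈ A ∧ A.card ≤ m ^ 2 + m + 1) :
    ∃ d, k = pgp m d := by
  classical
  have hsub : ∀ {A B : Finset (Fin k)} {x y : Fin k}, A ∈ T → A.card = m + 1 → B ∈ T → x ≠ y → x ∈ A →
      y ∈ A → x ∈ B → y ∈ B → A ⊆ B := by
    intro A B x y hA hAc hB hxy h1 h2 h3 h4
    have h5 := hbig _ (hI A hA B hB) (Finset.one_lt_card.mpr ⟨x, Finset.mem_inter.mpr ⟨h1, h3⟩, y,
      Finset.mem_inter.mpr ⟨h2, h4⟩, hxy⟩)
    have h6 : A ∩ B = A := Finset.eq_of_subset_of_card_le Finset.inter_subset_left (by omega)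
    rw [← h6]
    exact Finset.inter_subset_right
  choose! ln ln1 ln2 ln3 ln4 using hline
  have leq : ∀ {A : Finset (Fin k)} {x y : Fin k}, A ∈ T → A.card = m + 1 → x ≠ y → x ∈ A → y ∈ A →
      ln x y = A := by
    intro A x y hA hAc hxy h1 h2
    exact Finset.eq_of_subset_of_card_le (hsub (ln1 x y hxy) (ln4 x y hxy) hA hxy (ln2 x y hxy) (ln3 x y hxy) h1 h2)
      (by rw [hAc, ln4 x y hxy])
  -- lines of a plane meet
  have key : ∀ {P A : Finset (Fin k)} {x w : Fin k}, P ∈ T → P.card ≤ m ^ 2 + m + 1 → A ∈ T → A.card = m + 1 →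
      A ⊆ P → x ∈ P → x ∉ A → w ∈ P → w ≠ x → ∃ a ∈ A, w ∈ ln x a := by
    intro P A x w hP hPc hA hAc hAP hxP hxA hwP hwx
    have hne : ∀ a ∈ A, x ≠ a := fun a ha h => hxA (h ▸ ha)
    have h1 : (A.biUnion fun a => (ln x a).erase x).card = (m + 1) * m := by
      rw [Finset.card_biUnion]
      · rw [Finset.sum_congr rfl (fun a ha => by
          rw [Finset.card_erase_of_mem (ln2 x a (hne a ha)), ln4 x a (hne a ha), Nat.add_sub_cancel]),
          Finset.sum_const, smul_eq_mul, hAc]
      · intro a ha a' ha' haa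
        rw [Function.onFun, Finset.disjoint_left]
        intro t ht ht'
        rw [Finset.mem_erase] at ht ht'
        have e1 := leq (ln1 x a (hne a ha)) (ln4 x a (hne a ha)) (Ne.symm ht.1) (ln2 x a (hne a ha)) ht.2
        have e2 := leq (ln1 x a' (hne a' ha')) (ln4 x a' (hne a' ha')) (Ne.symm ht'.1) (ln2 x a' (hne a' ha')) ht'.2
        have e3 : ln x a = ln x a' := e1.symm.trans e2
        have e4 : A = ln x a := by
          have e5 := leq hA hAc haa ha ha'
          have e6 := leq (ln1 x a (hne a ha)) (ln4 x a (hne a ha)) haa (ln3 x a (hne a ha))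
            (e3 ▸ ln3 x a' (hne a' ha'))
          exact e5.symm.trans e6
        exact hxA (e4 ▸ ln2 x a (hne a ha))
    have h2 : (A.biUnion fun a => (ln x a).erase x) ⊆ P.erase x := by
      intro t ht
      rw [Finset.mem_biUnion] at ht
      obtain ⟨a, ha, ht⟩ := ht
      rw [Finset.mem_erase] at ht ⊢
      exact ⟨ht.1, hsub (ln1 x a (hne a ha)) (ln4 x a (hne a ha)) hP (hne a ha) (ln2 x a (hne a ha))
        (ln3 x a (hne a ha)) hxP (hAP ha) ht.2⟩
    have h3 : (A.biUnion fun a => (ln x a).erase x) = P.erase x := by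
      apply Finset.eq_of_subset_of_card_le h2
      rw [h1, Finset.card_erase_of_mem hxP]
      have : (m + 1) * m = m ^ 2 + m := by ring
      omega
    have h4 : w ∈ A.biUnion fun a => (ln x a).erase x := by
      rw [h3]
      exact Finset.mem_erase.mpr ⟨hwx, hwP⟩
    rw [Finset.mem_biUnion] at h4
    obtain ⟨a, ha, hw⟩ := h4
    exact ⟨a, ha, (Finset.mem_erase.mp hw).2⟩
  -- growth
  have grow : ∀ U : Finset (Fin k), (∀ u ∈ U, ∀ v ∈ U, u ≠ v → ln u v ⊆ U) → ∀ x, x ∉ U →
      ∃ V : Finset (Fin k), (∀ u ∈ V, ∀ v ∈ V, u ≠ v → ln u v ⊆ V) ∧ V.card = 1 + m * U.card := by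
    intro U hU x hx
    have hne : ∀ u ∈ U, x ≠ u := fun u hu h => hx (h ▸ hu)
    set V := insert x (U.biUnion fun u => (ln x u).erase x) with hV
    have mV : ∀ w, w ∈ V ↔ (w = x ∨ ∃ u ∈ U, w ∈ ln x u) := by
      intro w
      rw [hV, Finset.mem_insert, Finset.mem_biUnion]
      constructor
      · rintro (h | ⟨u, hu, h⟩)
        · exact Or.inl h
        · exact Or.inr ⟨u, hu, (Finset.mem_erase.mp h).2⟩
      · rintro (h | ⟨u, hu, h⟩)
        · exact Or.inl h
        · by_cases hwx : w = x
          · exact Or.inl hwx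
          · exact Or.inr ⟨u, hu, Finset.mem_erase.mpr ⟨hwx, h⟩⟩
    refine ⟨V, ?_, ?_⟩
    · intro y hy z hz hyz w hw
      rw [mV] at hy hz ⊢
      by_cases hwx : w = x
      · exact Or.inl hwx
      right
      rcases hy with rfl | ⟨u1, hu1, hy⟩
      · rcases hz with rfl | ⟨u2, hu2, hz⟩
        · exact absurd rfl hyz
        · refine ⟨u2, hu2, ?_⟩
          rw [leq (ln1 y u2 (hne u2 hu2)) (ln4 y u2 (hne u2 hu2)) hyz (ln2 y u2 (hne u2 hu2)) hz] at hw
          exact hw
      · rcases hz with rfl | ⟨u2, hu2, hz⟩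
        · refine ⟨u1, hu1, ?_⟩
          rw [leq (ln1 z u1 (hne u1 hu1)) (ln4 z u1 (hne u1 hu1)) hyz hy (ln2 z u1 (hne u1 hu1))] at hw
          exact hw
        · by_cases h12 : u1 = u2
          · subst h12
            refine ⟨u1, hu1, ?_⟩
            rw [leq (ln1 x u1 (hne u1 hu1)) (ln4 x u1 (hne u1 hu1)) hyz hy hz] at hw
            exact hw
          · obtain ⟨P, hP, p1, p2, p3, p4⟩ := hplane x u1 u2
            have hAU := hU u1 hu1 u2 hu2 h12
            have hAP : ln u1 u2 ⊆ P := hsub (ln1 u1 u2 h12) (ln4 u1 u2 h12) hP h12 (ln2 u1 u2 h12)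
              (ln3 u1 u2 h12) p2 p3
            have hyP : y ∈ P := hsub (ln1 x u1 (hne u1 hu1)) (ln4 x u1 (hne u1 hu1)) hP (hne u1 hu1)
              (ln2 x u1 (hne u1 hu1)) (ln3 x u1 (hne u1 hu1)) p1 p2 hy
            have hzP : z ∈ P := hsub (ln1 x u2 (hne u2 hu2)) (ln4 x u2 (hne u2 hu2)) hP (hne u2 hu2)
              (ln2 x u2 (hne u2 hu2)) (ln3 x u2 (hne u2 hu2)) p1 p3 hz
            have hwP : w ∈ P := hsub (ln1 y z hyz) (ln4 y z hyz) hP hyz (ln2 y z hyz) (ln3 y z hyz) hyP hzP hw
            obtain ⟨a, ha, hwa⟩ := key hP p4 (ln1 u1 u2 h12) (ln4 u1 u2 h12) hAP p1 (fun h => hx (hAU h)) hwP hwx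
            exact ⟨a, hAU ha, hwa⟩
    · rw [hV, Finset.card_insert_of_notMem, Finset.card_biUnion]
      · rw [Finset.sum_congr rfl (fun u hu => by
          rw [Finset.card_erase_of_mem (ln2 x u (hne u hu)), ln4 x u (hne u hu), Nat.add_sub_cancel]),
          Finset.sum_const, smul_eq_mul]
        ring
      · intro a ha a' ha' haa
        rw [Function.onFun, Finset.disjoint_left]
        intro t ht ht'
        rw [Finset.mem_erase] at ht ht'
        have e1 := leq (ln1 x a (hne a ha)) (ln4 x a (hne a ha)) (Ne.symm ht.1) (ln2 x a (hne a ha)) ht.2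
        have e2 := leq (ln1 x a' (hne a' ha')) (ln4 x a' (hne a' ha')) (Ne.symm ht'.1) (ln2 x a' (hne a' ha')) ht'.2
        have e3 : ln x a = ln x a' := e1.symm.trans e2
        have e6 := leq (ln1 x a (hne a ha)) (ln4 x a (hne a ha)) haa (ln3 x a (hne a ha))
            (e3 ▸ ln3 x a' (hne a' ha'))
        exact hx (hU a ha a' ha' haa (e6 ▸ ln2 x a (hne a ha)))
      · rw [Finset.mem_biUnion]
        rintro ⟨u, _, h⟩
        exact (Finset.mem_erase.mp h).1 rfl
  have fin : ∀ N : ℕ, ∀ U : Finset (Fin k), (∀ u ∈ U, ∀ v ∈ U, u ≠ v → ln u v ⊆ U) →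
      (∃ i, U.card = pgp m i) → k ≤ U.card + N → ∃ d, k = pgp m d := by
    intro N
    induction N with
    | zero =>
      intro U _ hi hk
      obtain ⟨i, hi⟩ := hi
      have := Finset.card_le_univ U
      rw [Fintype.card_fin] at this
      exact ⟨i, by omega⟩
    | succ N ih =>
      intro U hU hi hk
      by_cases h : ∃ x, x ∉ U
      · obtain ⟨x, hx⟩ := h
        obtain ⟨V, hV, hVc⟩ := grow U hU x hx
        obtain ⟨i, hi⟩ := hi
        apply ih V hV ⟨i + 1, by rw [hVc, hi, pgp_succ]⟩
        have : 1 * U.card ≤ m * U.card := Nat.mul_le_mul_right _ hm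
        omega
      · push Not at h
        obtain ⟨i, hi⟩ := hi
        refine ⟨i, ?_⟩
        rw [← hi, Finset.eq_univ_iff_forall.mpr h, Finset.card_univ, Fintype.card_fin]
  exact fin k ∅ (by simp) ⟨0, rfl⟩ (by simp)

/-- small sets have small closure -/
theorem rank_le {k s : ℕ} {T : Finset (Finset (Fin k))} {ℓ : ℕ → ℕ} (hℓ : ∀ i j, i < j → j < s → ℓ i < ℓ j)
    (hk : ∀ i, i < s → ℓ i < k) (hI : IC T) (hT : ∀ A ∈ T, ∃ i, i < s ∧ A.card = ℓ i)
    (hcov : ∀ X : Finset (Fin k), X.card ≤ s - 1 → ∃ A ∈ T, X ⊆ A) :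
    ∀ d i, i + d = s - 1 → ∀ X : Finset (Fin k), X.card ≤ i → ∃ C ∈ T, X ⊆ C ∧ ∃ j ≤ i, C.card = ℓ j := by
  classical
  have hcl : ∀ X : Finset (Fin k), X.card ≤ s - 1 → ∃ C ∈ T, X ⊆ C ∧ ∀ A ∈ T, X ⊆ A → C ⊆ A :=
    fun X hX => cl_exists hI X (hcov X hX)
  choose! cl cl1 cl2 cl3 using hcl
  have hmono : ∀ i j, i < s → j < s → ℓ i < ℓ j → i < j := by
    intro i j hi hj h
    by_contra hcon
    rcases Nat.lt_or_ge j i with h1 | h1
    · have := hℓ j i h1 hi
      omega
    · have : i = j := by omega
      subst this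
      omega
  have hrank : ∀ d i, i + d = s - 1 → ∀ X : Finset (Fin k), X.card ≤ i → ∀ j, j < s →
      (cl X).card = ℓ j → j ≤ i := by
    intro d
    induction d with
    | zero =>
      intro i hi X _ j hj _
      omega
    | succ d ih =>
      intro i hi X hX j hj hXj
      have hXs : X.card ≤ s - 1 := by omega
      obtain ⟨z, hz⟩ : ∃ z, z ∉ cl X := by
        by_contra hcon
        push Not at hcon
        have := Finset.eq_univ_iff_forall.mpr hcon
        rw [this, Finset.card_univ, Fintype.card_fin] at hXj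
        have := hk j hj
        omega
      have hX' : (insert z X).card ≤ i + 1 := (Finset.card_insert_le _ _).trans (by omega)
      have hX's : (insert z X).card ≤ s - 1 := by omega
      obtain ⟨j', hj', hXj'⟩ := hT _ (cl1 _ hX's)
      have h1 := ih (i + 1) (by omega) (insert z X) hX' j' hj' hXj'
      have h2 : cl X ⊂ cl (insert z X) := by
        refine ⟨cl3 X hXs _ (cl1 _ hX's) ((Finset.subset_insert _ _).trans (cl2 _ hX's)), fun h => ?_⟩
        exact hz (h (cl2 _ hX's (Finset.mem_insert_self _ _)))
      have h3 := Finset.card_lt_card h2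
      rw [hXj, hXj'] at h3
      have := hmono j j' hj hj' h3
      omega
  intro d i hid X hX
  obtain ⟨j, hj, hXj⟩ := hT _ (cl1 X (by omega))
  exact ⟨cl X, cl1 X (by omega), cl2 X (by omega), j, hrank d i hid X hX j hj hXj, hXj⟩

/-- sizes of subspaces of projective spaces -/
theorem RB.vy {K m s : ℕ} (hm : 2 ≤ m) (hs : 4 ≤ s) (hk : ∀ i, i < s → pgp m i < K)
    (h : ¬ ∃ d, K = pgp m d) : RB K ((Finset.range s).image (pgp m)) s := by
  classical
  apply RB.of_cover (by omega)
  intro T hI hT hcov
  apply h
  have hT' : ∀ A ∈ T, ∃ i, i < s ∧ A.card = pgp m i := by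
    intro A hA
    have h1 := hT A hA
    rw [Finset.mem_image] at h1
    obtain ⟨i, hi, h2⟩ := h1
    exact ⟨i, Finset.mem_range.mp hi, h2.symm⟩
  have hr := rank_le (ℓ := pgp m) (fun i j hij _ => pgp_lt (by omega) hij) hk hI hT' hcov
  have p0 : pgp m 0 = 0 := rfl
  have p1 : pgp m 1 = 1 := by simp [pgp]
  have p2 : pgp m 2 = m + 1 := by
    simp [pgp, Finset.sum_range_succ]
    ring
  have p3 : pgp m 3 = m ^ 2 + m + 1 := by
    simp [pgp, Finset.sum_range_succ]
    ring
  have pmono : ∀ {i j : ℕ}, i ≤ j → pgp m i ≤ pgp m j := by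
    intro i j hij
    rcases Nat.eq_or_lt_of_le hij with e | e
    · rw [e]
    · exact (pgp_lt (by omega) e).le
  apply vy_count (m := m) (by omega) hI
  · intro A hA hA2
    obtain ⟨i, _, hi⟩ := hT' A hA
    have hi2 : 2 ≤ i := by
      by_contra hcon
      have := pmono (show i ≤ 1 by omega)
      omega
    have := pmono hi2
    omega
  · intro x y hxy
    obtain ⟨C, hC, h1, j, hj, h2⟩ := hr (s - 1 - 2) 2 (by omega) {x, y} (by rw [Finset.card_pair hxy])
    have hx : x ∈ C := h1 (Finset.mem_insert_self _ _)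
    have hy : y ∈ C := h1 (Finset.mem_insert_of_mem (Finset.mem_singleton_self _))
    refine ⟨C, hC, hx, hy, ?_⟩
    have h3 : 2 ≤ C.card := Finset.one_lt_card.mpr ⟨x, hx, y, hy, hxy⟩
    have hj2 : 2 ≤ j := by
      by_contra hcon
      have := pmono (show j ≤ 1 by omega)
      omega
    have : j = 2 := by omega
    subst this
    omega
  · intro x y z
    obtain ⟨C, hC, h1, j, hj, h2⟩ := hr (s - 1 - 3) 3 (by omega) {x, y, z} Finset.card_le_three
    refine ⟨C, hC, h1 (by simp), h1 (by simp), h1 (by simp), ?_⟩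
    rw [h2, ← p3]
    exact pmono hj

/-- adding a constant to all sizes and multiplying them -/
theorem RB.affine {L' : Finset ℕ} {s h : ℕ} (hh : 1 ≤ h) (h0 : 0 ∈ L') (h1 : 1 ∈ L')
    (hcard : L'.card = s) : ∀ a k : ℕ, (∀ K, k = a + h * K → RB K L' s) →
      RB k (L'.image fun i => a + h * i) s := by
  classical
  have hs : 1 ≤ s := by
    rw [← hcard]
    exact Finset.card_pos.mpr ⟨0, h0⟩
  intro a
  induction a with
  | zero =>
    intro k H
    have e0 : (L'.image fun i => 0 + h * i) = L'.image fun i => h * i := by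
      apply Finset.image_congr
      intro i _
      simp
    rw [e0]
    rcases Nat.lt_or_ge h 2 with hh2 | hh2
    · have : h = 1 := by omega
      subst this
      simp only [one_mul, Finset.image_id']
      exact H k (by omega)
    · have hcard' : (L'.image fun i => h * i).card = s := by
        rw [Finset.card_image_of_injective _ (fun i j hij => Nat.eq_of_mul_eq_mul_left (by omega) hij), hcard]
      apply RB.scale hh2 (Finset.mem_image.mpr ⟨0, h0, by ring⟩) (Finset.mem_image.mpr ⟨1, h1, by ring⟩) _ hcard'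
      · intro hk _
        have e1 : sc h (L'.image fun i => h * i) = L' := by
          ext i
          rw [mem_sc (by omega), Finset.mem_image]
          constructor
          · rintro ⟨j, hj, hij⟩
            rwa [← Nat.eq_of_mul_eq_mul_left (show 0 < h by omega) hij]
          · intro hi
            exact ⟨i, hi, rfl⟩
        rw [e1]
        exact H _ (by rw [Nat.mul_div_cancel' hk]; omega)
      · intro l hl hl0
        rw [Finset.mem_image] at hl
        obtain ⟨i, _, rfl⟩ := hl
        have hi : i ≠ 0 := by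
          rintro rfl
          exact hl0 (by ring)
        calc h = h * 1 := by ring
          _ ≤ h * i := Nat.mul_le_mul_left _ (by omega)
  | succ a ih =>
    intro k H
    rcases Nat.eq_zero_or_pos k with rfl | hk
    · apply RB.of_nat hs
      intro n hn T R _ _ _
      have : R.card ≤ 1 := Finset.card_le_one.mpr fun f _ g _ => Subsingleton.elim f g
      exact this.trans (Nat.one_le_pow _ _ hn)
    · obtain ⟨k, rfl⟩ : ∃ k0, k = k0 + 1 := ⟨k - 1, by omega⟩
      apply RB.shift hs
      · rw [Finset.mem_image]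
        rintro ⟨i, _, hi⟩
        omega
      · have e1 : dn (L'.image fun i => a + 1 + h * i) = L'.image fun i => a + h * i := by
          ext i
          rw [mem_dn, Finset.mem_image, Finset.mem_image]
          constructor
          · rintro ⟨j, hj, hij⟩
            exact ⟨j, hj, by omega⟩
          · rintro ⟨j, hj, hij⟩
            exact ⟨j, hj, by omega⟩
        rw [e1]
        exact ih k (fun K hK => H K (by omega))

/-- the sizes of the subspaces of rank less than `s` of a projective or an affine space over a field with `m`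
elements, up to multiplication by `h` and addition of `a` -/
def GeoT (m k : ℕ) (L : Finset ℕ) : Prop :=
  ∃ a h s d, 1 ≤ h ∧ s ≤ d ∧ ((k = a + h * pgp m d ∧ L = (Finset.range s).image fun i => a + h * pgp m i) ∨
    (k = a + h * m ^ d ∧ L = insert a ((Finset.range s).image fun i => a + h * m ^ i)))

theorem pgp_pow {m : ℕ} (hm : 1 ≤ m) (i : ℕ) : 1 + (m - 1) * pgp m i = m ^ i := by
  induction i with
  | zero => simp [pgp_zero]
  | succ i ih =>
    rw [pgp_succ, pow_succ, ← ih]
    obtain ⟨p, rfl⟩ : ∃ p, m = p + 1 := ⟨m - 1, by omega⟩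
    rw [Nat.add_sub_cancel]
    ring

/-- **the negative part** -/
theorem inner_neg {m k l : ℕ} {L : Finset ℕ} (hm : 2 ≤ m) (hl : l ∈ L) (hmax : ∀ i ∈ L, i ≤ l) (hlk : l < k)
    (hT : TopP m l (L.erase l)) (hY : ¬ (IsPrimePow m ∧ GeoT m k L)) : RB k L L.card := by
  classical
  have hL : L ⊆ Finset.range k := by
    intro i hi
    rw [Finset.mem_range]
    exact lt_of_le_of_lt (hmax i hi) hlk
  have hc3 : 3 ≤ (L.erase l).card := by
    obtain ⟨x', g', hg', d1, d2, d3, d4, d5⟩ := hT
    have hineq' := topP_ineq hm hg'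
    have e2 : ({x', x' + g', x' + g' * (m + 1)} : Finset ℕ) ⊆ L.erase l := by
      intro i hi
      simp only [Finset.mem_insert, Finset.mem_singleton] at hi
      rcases hi with rfl | rfl | rfl <;> assumption
    have e3 : ({x', x' + g', x' + g' * (m + 1)} : Finset ℕ).card = 3 :=
      Finset.card_eq_three.mpr ⟨_, _, _, by omega, by omega, by omega, rfl⟩
    rw [← e3]
    exact Finset.card_le_card e2
  have hcard : L.card = (L.erase l).card + 1 := by
    rw [Finset.card_erase_of_mem hl]
    have := Finset.card_pos.mpr ⟨l, hl⟩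
    omega
  by_cases hG : IsPrimePow m ∧ Geo m l (L.erase l)
  swap
  · have h1 := topP_neg hm l (L.erase l) hT hG
    have h2 := RB.restrict hL hl hmax hcard (by omega) h1
    rw [← hcard] at h2
    exact h2
  obtain ⟨hpp, a, h, s, hh, ⟨e1, e2⟩ | ⟨e1, e2⟩⟩ := hG
  · -- projective spaces
    have hinj : Function.Injective fun i => a + h * pgp m i := by
      intro i j hij
      have h1 : a + h * pgp m i = a + h * pgp m j := hij
      have h2 : pgp m i = pgp m j := Nat.eq_of_mul_eq_mul_left (show 0 < h by omega) (by omega)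
      rcases Nat.lt_trichotomy i j with h3 | h3 | h3
      · have h4 := pgp_lt (m := m) (by omega) h3
        omega
      · exact h3
      · have h4 := pgp_lt (m := m) (by omega) h3
        omega
    have hs : (L.erase l).card = s := by
      rw [e2, Finset.card_image_of_injective _ hinj, Finset.card_range]
    have hLL : L = ((Finset.range (s + 1)).image (pgp m)).image fun i => a + h * i := by
      rw [← Finset.insert_erase hl, e2, e1, Finset.image_image, Finset.range_add_one, Finset.image_insert]
      rfl
    have hcs : ((Finset.range (s + 1)).image (pgp m)).card = s + 1 := by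
      rw [Finset.card_image_of_injective, Finset.card_range]
      intro i j hij
      exact hinj (by simp only [hij])
    rw [hcard, hs, hLL]
    apply RB.affine hh (Finset.mem_image.mpr ⟨0, Finset.mem_range.mpr (by omega), rfl⟩)
      (Finset.mem_image.mpr ⟨1, Finset.mem_range.mpr (by omega), by simp [pgp]⟩) hcs
    intro K hK
    have hlt : ∀ i, i < s + 1 → pgp m i < K := by
      intro i hi
      have h1 : pgp m s < K := by
        have : h * pgp m s < h * K := by omega
        exact Nat.lt_of_mul_lt_mul_left this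
      rcases Nat.eq_or_lt_of_le (show i ≤ s by omega) with e | e
      · rw [e]
        exact h1
      · exact (pgp_lt (by omega) e).trans h1
    apply RB.vy hm (by omega) hlt
    rintro ⟨d, rfl⟩
    apply hY
    refine ⟨hpp, a, h, s + 1, d, hh, ?_, Or.inl ⟨hK, ?_⟩⟩
    · by_contra hcon
      have := hlt d (by omega)
      omega
    · rw [hLL, Finset.image_image]
      rfl
  · -- affine spaces
    have hinj : Function.Injective fun i => a + h * m ^ i := by
      intro i j hij
      have h1 : a + h * m ^ i = a + h * m ^ j := hij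
      have h2 : m ^ i = m ^ j := Nat.eq_of_mul_eq_mul_left (show 0 < h by omega) (by omega)
      exact Nat.pow_right_injective hm h2
    have hni : ∀ t, a ∉ (Finset.range t).image fun i => a + h * m ^ i := by
      intro t
      rw [Finset.mem_image]
      rintro ⟨i, _, hi⟩
      have : 0 < h * m ^ i := by positivity
      omega
    have hs : (L.erase l).card = s + 1 := by
      rw [e2, Finset.card_insert_of_notMem (hni s), Finset.card_image_of_injective _ hinj, Finset.card_range]
    have hs3 : 3 ≤ s := by
      by_contra hcon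
      have hs2 : s = 2 := by omega
      subst hs2
      obtain ⟨x', g', hg', d1, d2, d3, d4, d5⟩ := hT
      have hineq' := topP_ineq hm hg'
      have e3 : L.erase l = {a, a + h, a + h * m} := by
        rw [e2]
        have : Finset.range 2 = {0, 1} := by decide
        rw [this]
        simp
      rw [e3] at d1 d2 d3 d5
      simp only [Finset.mem_insert, Finset.mem_singleton] at d1 d2 d3 d5
      have f1 : h * 1 < h * m := Nat.mul_lt_mul_of_pos_left (by omega) (by omega)
      have f2 := d5 a (Or.inl rfl)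
      have f3 := d5 (a + h) (Or.inr (Or.inl rfl))
      have f4 := d5 (a + h * m) (Or.inr (Or.inr rfl))
      have f5 : x' = a ∧ g' = h ∧ g' * (m + 1) = h * m := by omega
      obtain ⟨rfl, rfl, f6⟩ := f5
      have : g' * m < g' * (m + 1) := Nat.mul_lt_mul_of_pos_left (by omega) (by omega)
      omega
    have hLL : L = (insert 0 ((Finset.range (s + 1)).image (m ^ ·))).image fun i => a + h * i := by
      rw [← Finset.insert_erase hl, e2, e1, Finset.image_insert, Finset.image_image, Finset.range_add_one,
        Finset.image_insert, Finset.insert_comm]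
      congr 1
    have hinj' : Function.Injective fun i : ℕ => m ^ i := Nat.pow_right_injective hm
    have hni' : ∀ t, 0 ∉ (Finset.range t).image (m ^ ·) := by
      intro t
      rw [Finset.mem_image]
      rintro ⟨i, _, hi⟩
      have : 0 < m ^ i := by positivity
      omega
    have hcs : (insert 0 ((Finset.range (s + 1)).image (m ^ ·))).card = s + 2 := by
      rw [Finset.card_insert_of_notMem (hni' _), Finset.card_image_of_injective _ hinj', Finset.card_range]
    have h1 : L.card = s + 2 := by omega
    rw [h1, hLL]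
    apply RB.affine hh (Finset.mem_insert_self _ _)
      (Finset.mem_insert_of_mem (Finset.mem_image.mpr ⟨0, Finset.mem_range.mpr (by omega), by simp⟩)) hcs
    intro K hK
    have hKs : m ^ s < K := by
      have : h * m ^ s < h * K := by omega
      exact Nat.lt_of_mul_lt_mul_left this
    obtain ⟨K, rfl⟩ : ∃ K0, K = K0 + 1 := ⟨K - 1, by omega⟩
    apply RB.link
    have e3 : dn (insert 0 ((Finset.range (s + 1)).image (m ^ ·))) =
        ((Finset.range (s + 1)).image (pgp m)).image fun i => 0 + (m - 1) * i := by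
      ext i
      rw [mem_dn, Finset.mem_insert, Finset.mem_image, Finset.image_image, Finset.mem_image]
      constructor
      · rintro (h | ⟨j, hj, hij⟩)
        · omega
        · refine ⟨j, hj, ?_⟩
          have := pgp_pow (m := m) (by omega) j
          simp only [Function.comp]
          omega
      · rintro ⟨j, hj, hij⟩
        right
        refine ⟨j, hj, ?_⟩
        have := pgp_pow (m := m) (by omega) j
        simp only [Function.comp] at hij
        omega
    rw [e3]
    have hcs' : ((Finset.range (s + 1)).image (pgp m)).card = s + 1 := by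
      rw [Finset.card_image_of_injective, Finset.card_range]
      intro i j hij
      have h3 := pgp_pow (m := m) (by omega) i
      have h4 := pgp_pow (m := m) (by omega) j
      rw [hij] at h3
      exact Nat.pow_right_injective hm (h3.symm.trans h4)
    apply RB.affine (by omega) (Finset.mem_image.mpr ⟨0, Finset.mem_range.mpr (by omega), rfl⟩)
      (Finset.mem_image.mpr ⟨1, Finset.mem_range.mpr (by omega), by simp [pgp]⟩) hcs'
    intro K1 hK1
    have hlt : ∀ i, i < s + 1 → pgp m i < K1 := by
      intro i hi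
      have h2 : pgp m s < K1 := by
        have h3 := pgp_pow (m := m) (by omega) s
        have : (m - 1) * pgp m s < (m - 1) * K1 := by omega
        exact Nat.lt_of_mul_lt_mul_left this
      rcases Nat.eq_or_lt_of_le (show i ≤ s by omega) with e | e
      · rw [e]
        exact h2
      · exact (pgp_lt (by omega) e).trans h2
    apply RB.vy hm (by omega) hlt
    rintro ⟨d, rfl⟩
    apply hY
    refine ⟨hpp, a, h, s + 1, d, hh, ?_, Or.inr ⟨?_, ?_⟩⟩
    · by_contra hcon
      have := hlt d (by omega)
      omega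
    · have := pgp_pow (m := m) (by omega) d
      rw [hK]
      congr 2
      omega
    · rw [hLL, Finset.image_insert, Finset.image_image]
      congr 1

end Pool.Agent.Helper138_LS
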