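import Pool.Agent.Helper138_LS.Desargues

/-!
Two configurations that cannot occur in dense relations of rank three.
-/

set_option autoImplicit false

open Finset

namespace Pool.Agent.Helper138_LS

theorem Inj3.mono {κ α β γ : Type*} {S S' : Finset κ} (hS : S' ⊆ S) {x : κ → α} {y : κ → β}
    {z : κ → γ} (h : Inj3 S x y z) : Inj3 S' x y z :=
  fun s hs t ht => h s (hS hs) t (hS ht)

/-- the loss of the first configuration -/
noncomputable def gC (c : ℝ) : ℝ := fD (fD (dz (dz c)))

theorem mono_gC : Mono gC := mono_fD.comp (mono_fD.comp (mono_dz.comp mono_dz))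

theorem patC {ι : Type*} {n : ℕ} (hn : 0 < n) {S : Finset ι}
    {p1 p3 p4 p5 p6 p7 p9 p10 p11 p12 : ι → Fin n}
    (b1 : Col S p1 p10 p11) (b2 : Col S p1 p6 p12) (b3 : Col S p1 p7 p9) (b4 : Col S p4 p10 p12)
    (b5 : Col S p4 p6 p11) (b6 : Col S p5 p7 p12) (b7 : Col S p5 p6 p9) (b8 : Col S p3 p5 p10)
    (b9 : Col S p3 p4 p7) (b10 : Col S p6 p7 p10) (b11 : Col S p3 p9 p11)
    (i1 : Inj3 S p1 p10 p12) (i2 : Inj3 S p1 p7 p10) (i3 : Inj3 S p1 p7 p12) (i4 : Inj3 S p7 p10 p12)
    (i5 : Inj3 S p1 p5 p12) (i6 : Inj3 S p5 p10 p12) (i7 : Inj3 S p1 p5 p10)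
    (i8 : Inj3 S p1 p4 p5) (i9 : Inj3 S p5 p6 p7) (i10 : Inj3 S p7 p10 p11)
    {c : ℝ} (hc : 0 ≤ c) (hS : c * (n : ℝ) ^ 3 ≤ S.card) : gC c * (n : ℝ) ^ 3 ≤ (n : ℝ) ^ 2 := by
  obtain ⟨S1, hS1, X, x1, x2, x3, s1⟩ := desargues (o := p1) (a1 := p10) (b1 := p11) (a2 := p12)
    (b2 := p6) (a3 := p7) (b3 := p9) (c1 := p5) (c3 := p4) hn
    (by simp only [Col, Det2] at *; grind) (by simp only [Col, Det2] at *; grind)
    (by simp only [Col, Det2] at *; grind) (by simp only [Col, Det2] at *; grind)
    (by simp only [Col, Det2] at *; grind) (by simp only [Col, Det2] at *; grind)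
    (by simp only [Col, Det2] at *; grind)
    (by simp only [Inj3] at *; grind) (by simp only [Inj3] at *; grind)
    (by simp only [Inj3] at *; grind) (by simp only [Inj3] at *; grind) hc hS
  have m1 := dz_nonneg hc
  replace b1 := b1.mono hS1
  replace b2 := b2.mono hS1
  replace b4 := b4.mono hS1
  replace b5 := b5.mono hS1
  replace b6 := b6.mono hS1
  replace b8 := b8.mono hS1
  replace b9 := b9.mono hS1
  replace b10 := b10.mono hS1
  replace b11 := b11.mono hS1
  replace i1 := i1.mono hS1
  replace i5 := i5.mono hS1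
  replace i6 := i6.mono hS1
  replace i7 := i7.mono hS1
  replace i8 := i8.mono hS1
  replace i9 := i9.mono hS1
  replace i10 := i10.mono hS1
  obtain ⟨S2, hS2, Y, y1, y2, y3, s2⟩ := desargues (o := p12) (a1 := p1) (b1 := p6) (a2 := p10)
    (b2 := p4) (a3 := p5) (b3 := p7) (c1 := p3) (c3 := p11) hn
    (by simp only [Col, Det2] at *; grind) (by simp only [Col, Det2] at *; grind)
    (by simp only [Col, Det2] at *; grind) (by simp only [Col, Det2] at *; grind)
    (by simp only [Col, Det2] at *; grind) (by simp only [Col, Det2] at *; grind)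
    (by simp only [Col, Det2] at *; grind)
    (by simp only [Inj3] at *; grind) (by simp only [Inj3] at *; grind)
    (by simp only [Inj3] at *; grind) (by simp only [Inj3] at *; grind) m1 s1
  have m2 := dz_nonneg m1
  replace b10 := b10.mono hS2
  replace b11 := b11.mono hS2
  replace i8 := i8.mono hS2
  replace i9 := i9.mono hS2
  replace i10 := i10.mono hS2
  replace x1 := x1.mono hS2
  replace x2 := x2.mono hS2
  replace x3 := x3.mono hS2
  obtain ⟨S3, hS3, z1, s3⟩ := dd3 (D := X) (a := p7) (b := p9) (l := Y) hn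
    (by simp only [Col, Det2] at *; grind) (by simp only [Col, Det2] at *; grind)
    (by simp only [Col, Det2, Inj3] at *; grind) m2 s2
  have m3 := fD_nonneg m2
  obtain ⟨S4, hS4, z2, s4⟩ := dd3 (S := S3) (D := p5) (a := p4) (b := p1) (l := Y) hn
    (by simp only [Col, Det2] at *; grind) (by simp only [Col, Det2] at *; grind)
    (by simp only [Col, Det2, Inj3] at *; grind) m3 s3
  have h : S4.card ≤ n ^ 2 := by
    apply card_le_sq S4 p5 p6
    simp only [Col, Det2, Inj3] at *
    grind
  have h' : (S4.card : ℝ) ≤ (n : ℝ) ^ 2 := by exact_mod_cast h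
  exact s4.trans h'

/-- the loss of the second configuration -/
noncomputable def gD (c : ℝ) : ℝ := fD (dz (fD (fD (fD (dz (fD (fD (dz c))))))))

theorem mono_gD : Mono gD :=
  mono_fD.comp (mono_dz.comp (mono_fD.comp (mono_fD.comp (mono_fD.comp (mono_dz.comp (mono_fD.comp
    (mono_fD.comp mono_dz)))))))

theorem patD {ι : Type*} {n : ℕ} (hn : 0 < n) {S : Finset ι}
    {p0 p1 p2 p3 p4 p5 p6 p7 p8 p9 p10 p11 p12 : ι → Fin n}
    (b1 : Col S p2 p3 p6) (b2 : Col S p3 p9 p11) (b3 : Col S p3 p5 p10) (b4 : Col S p2 p4 p9)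
    (b5 : Col S p4 p6 p11) (b6 : Col S p0 p9 p10) (b7 : Col S p0 p5 p11) (b8 : Col S p2 p8 p10)
    (b9 : Col S p5 p6 p12) (b10 : Col S p0 p1 p4) (b11 : Col S p4 p5 p8) (b12 : Col S p0 p6 p8)
    (b13 : Col S p1 p2 p5) (b14 : Col S p0 p2 p7) (b15 : Col S p1 p10 p11) (b16 : Col S p1 p7
    p12) (b17 : Col S p1 p3 p8) (b18 : Col S p7 p8 p11)
    (i1 : Inj3 S p2 p3 p9) (i2 : Inj3 S p2 p3 p10) (i3 : Inj3 S p3 p9 p10) (i4 : Inj3 S p2 p9
    p10) (i5 : Inj3 S p2 p4 p8) (i6 : Inj3 S p2 p6 p8) (i7 : Inj3 S p4 p6 p8) (i8 : Inj3 S p0 p4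
    p6) (i9 : Inj3 S p1 p5 p12) (i10 : Inj3 S p1 p3 p12) (i11 : Inj3 S p1 p3 p5) (i12 : Inj3 S
    p3 p5 p12) (i13 : Inj3 S p5 p6 p8) (i14 : Inj3 S p1 p2 p10) (i15 : Inj3 S p0 p2 p12) (i16 :
    Inj3 S p0 p2 p5) (i17 : Inj3 S p1 p7 p11) (i18 : Inj3 S p7 p10 p11) (i19 : Inj3 S p3 p11
    p12)
    {c : ℝ} (hc : 0 ≤ c) (hS : c * (n : ℝ) ^ 3 ≤ S.card) : gD c * (n : ℝ) ^ 3 ≤ (n : ℝ) ^ 2 := by
  obtain ⟨S1, hS1, X, x1, x2, x3, s1⟩ := desargues (o := p3) (a1 := p2) (b1 := p6) (a2 := p9)
    (b2 := p11) (a3 := p10) (b3 := p5) (c1 := p0) (c3 := p4) hn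
    (by simp only [Col, Det2] at *; grind) (by simp only [Col, Det2] at *; grind)
    (by simp only [Col, Det2] at *; grind) (by simp only [Col, Det2] at *; grind)
    (by simp only [Col, Det2] at *; grind) (by simp only [Col, Det2] at *; grind)
    (by simp only [Col, Det2] at *; grind)
    (by simp only [Col, Det2, Inj3] at *; grind) (by simp only [Col, Det2, Inj3] at *; grind)
    (by simp only [Col, Det2, Inj3] at *; grind) (by simp only [Col, Det2, Inj3] at *; grind)
    hc hS
  have m1 := dz_nonneg hc
  replace b1 := b1.mono hS1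
  replace b2 := b2.mono hS1
  replace b3 := b3.mono hS1
  replace b4 := b4.mono hS1
  replace b5 := b5.mono hS1
  replace b6 := b6.mono hS1
  replace b7 := b7.mono hS1
  replace b8 := b8.mono hS1
  replace b9 := b9.mono hS1
  replace b10 := b10.mono hS1
  replace b11 := b11.mono hS1
  replace b12 := b12.mono hS1
  replace b13 := b13.mono hS1
  replace b14 := b14.mono hS1
  replace b15 := b15.mono hS1
  replace b16 := b16.mono hS1
  replace b17 := b17.mono hS1
  replace b18 := b18.mono hS1
  replace i1 := i1.mono hS1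
  replace i2 := i2.mono hS1
  replace i3 := i3.mono hS1
  replace i4 := i4.mono hS1
  replace i5 := i5.mono hS1
  replace i6 := i6.mono hS1
  replace i7 := i7.mono hS1
  replace i8 := i8.mono hS1
  replace i9 := i9.mono hS1
  replace i10 := i10.mono hS1
  replace i11 := i11.mono hS1
  replace i12 := i12.mono hS1
  replace i13 := i13.mono hS1
  replace i14 := i14.mono hS1
  replace i15 := i15.mono hS1
  replace i16 := i16.mono hS1
  replace i17 := i17.mono hS1
  replace i18 := i18.mono hS1
  replace i19 := i19.mono hS1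
  obtain ⟨S2, hS2, u1, s2⟩ := uniq3 (x := p8) (y := p2) (z := X) (e := p5) hn
    (by simp only [Col, Det2] at *; grind) (by simp only [Col, Det2, Inj3] at *; grind) m1 s1
  have m2 := fD_nonneg m1
  replace b1 := b1.mono hS2
  replace b2 := b2.mono hS2
  replace b3 := b3.mono hS2
  replace b4 := b4.mono hS2
  replace b5 := b5.mono hS2
  replace b6 := b6.mono hS2
  replace b7 := b7.mono hS2
  replace b8 := b8.mono hS2
  replace b9 := b9.mono hS2
  replace b10 := b10.mono hS2
  replace b11 := b11.mono hS2
  replace b12 := b12.mono hS2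
  replace b13 := b13.mono hS2
  replace b14 := b14.mono hS2
  replace b15 := b15.mono hS2
  replace b16 := b16.mono hS2
  replace b17 := b17.mono hS2
  replace b18 := b18.mono hS2
  replace i1 := i1.mono hS2
  replace i2 := i2.mono hS2
  replace i3 := i3.mono hS2
  replace i4 := i4.mono hS2
  replace i5 := i5.mono hS2
  replace i6 := i6.mono hS2
  replace i7 := i7.mono hS2
  replace i8 := i8.mono hS2
  replace i9 := i9.mono hS2
  replace i10 := i10.mono hS2
  replace i11 := i11.mono hS2
  replace i12 := i12.mono hS2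
  replace i13 := i13.mono hS2
  replace i14 := i14.mono hS2
  replace i15 := i15.mono hS2
  replace i16 := i16.mono hS2
  replace i17 := i17.mono hS2
  replace i18 := i18.mono hS2
  replace i19 := i19.mono hS2
  replace x1 := x1.mono hS2
  replace x2 := x2.mono hS2
  replace x3 := x3.mono hS2
  obtain ⟨S3, hS3, u2, s3⟩ := uniq3 (x := p1) (y := p4) (z := X) (e := p2) hn
    (by simp only [Col, Det2] at *; grind) (by simp only [Col, Det2, Inj3] at *; grind) m2 s2
  have m3 := fD_nonneg m2
  replace b1 := b1.mono hS3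
  replace b2 := b2.mono hS3
  replace b3 := b3.mono hS3
  replace b4 := b4.mono hS3
  replace b5 := b5.mono hS3
  replace b6 := b6.mono hS3
  replace b7 := b7.mono hS3
  replace b8 := b8.mono hS3
  replace b9 := b9.mono hS3
  replace b10 := b10.mono hS3
  replace b11 := b11.mono hS3
  replace b12 := b12.mono hS3
  replace b13 := b13.mono hS3
  replace b14 := b14.mono hS3
  replace b15 := b15.mono hS3
  replace b16 := b16.mono hS3
  replace b17 := b17.mono hS3
  replace b18 := b18.mono hS3
  replace i1 := i1.mono hS3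
  replace i2 := i2.mono hS3
  replace i3 := i3.mono hS3
  replace i4 := i4.mono hS3
  replace i5 := i5.mono hS3
  replace i6 := i6.mono hS3
  replace i7 := i7.mono hS3
  replace i8 := i8.mono hS3
  replace i9 := i9.mono hS3
  replace i10 := i10.mono hS3
  replace i11 := i11.mono hS3
  replace i12 := i12.mono hS3
  replace i13 := i13.mono hS3
  replace i14 := i14.mono hS3
  replace i15 := i15.mono hS3
  replace i16 := i16.mono hS3
  replace i17 := i17.mono hS3
  replace i18 := i18.mono hS3
  replace i19 := i19.mono hS3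
  replace x1 := x1.mono hS3
  replace x2 := x2.mono hS3
  replace x3 := x3.mono hS3
  replace u1 := u1.mono hS3
  obtain ⟨S4, hS4, Y, y1, y2, y3, s4⟩ := desargues (o := p8) (a1 := X) (b1 := p2) (a2 := p4)
    (b2 := p5) (a3 := p6) (b3 := p0) (c1 := p11) (c3 := p1) hn
    (by simp only [Col, Det2] at *; grind) (by simp only [Col, Det2] at *; grind)
    (by simp only [Col, Det2] at *; grind) (by simp only [Col, Det2] at *; grind)
    (by simp only [Col, Det2] at *; grind) (by simp only [Col, Det2] at *; grind)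
    (by simp only [Col, Det2] at *; grind)
    (by simp only [Col, Det2, Inj3] at *; grind) (by simp only [Col, Det2, Inj3] at *; grind)
    (by simp only [Col, Det2, Inj3] at *; grind) (by simp only [Col, Det2, Inj3] at *; grind)
    m3 s3
  have m4 := dz_nonneg m3
  replace b1 := b1.mono hS4
  replace b2 := b2.mono hS4
  replace b3 := b3.mono hS4
  replace b4 := b4.mono hS4
  replace b5 := b5.mono hS4
  replace b6 := b6.mono hS4
  replace b7 := b7.mono hS4
  replace b8 := b8.mono hS4
  replace b9 := b9.mono hS4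
  replace b10 := b10.mono hS4
  replace b11 := b11.mono hS4
  replace b12 := b12.mono hS4
  replace b13 := b13.mono hS4
  replace b14 := b14.mono hS4
  replace b15 := b15.mono hS4
  replace b16 := b16.mono hS4
  replace b17 := b17.mono hS4
  replace b18 := b18.mono hS4
  replace i1 := i1.mono hS4
  replace i2 := i2.mono hS4
  replace i3 := i3.mono hS4
  replace i4 := i4.mono hS4
  replace i5 := i5.mono hS4
  replace i6 := i6.mono hS4
  replace i7 := i7.mono hS4
  replace i8 := i8.mono hS4
  replace i9 := i9.mono hS4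
  replace i10 := i10.mono hS4
  replace i11 := i11.mono hS4
  replace i12 := i12.mono hS4
  replace i13 := i13.mono hS4
  replace i14 := i14.mono hS4
  replace i15 := i15.mono hS4
  replace i16 := i16.mono hS4
  replace i17 := i17.mono hS4
  replace i18 := i18.mono hS4
  replace i19 := i19.mono hS4
  replace x1 := x1.mono hS4
  replace x2 := x2.mono hS4
  replace x3 := x3.mono hS4
  replace u1 := u1.mono hS4
  replace u2 := u2.mono hS4
  obtain ⟨S5, hS5, u3, s5⟩ := uniq3 (x := p12) (y := p5) (z := Y) (e := p2) hn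
    (by simp only [Col, Det2] at *; grind) (by simp only [Col, Det2, Inj3] at *; grind) m4 s4
  have m5 := fD_nonneg m4
  replace b1 := b1.mono hS5
  replace b2 := b2.mono hS5
  replace b3 := b3.mono hS5
  replace b4 := b4.mono hS5
  replace b5 := b5.mono hS5
  replace b6 := b6.mono hS5
  replace b7 := b7.mono hS5
  replace b8 := b8.mono hS5
  replace b9 := b9.mono hS5
  replace b10 := b10.mono hS5
  replace b11 := b11.mono hS5
  replace b12 := b12.mono hS5
  replace b13 := b13.mono hS5
  replace b14 := b14.mono hS5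
  replace b15 := b15.mono hS5
  replace b16 := b16.mono hS5
  replace b17 := b17.mono hS5
  replace b18 := b18.mono hS5
  replace i1 := i1.mono hS5
  replace i2 := i2.mono hS5
  replace i3 := i3.mono hS5
  replace i4 := i4.mono hS5
  replace i5 := i5.mono hS5
  replace i6 := i6.mono hS5
  replace i7 := i7.mono hS5
  replace i8 := i8.mono hS5
  replace i9 := i9.mono hS5
  replace i10 := i10.mono hS5
  replace i11 := i11.mono hS5
  replace i12 := i12.mono hS5
  replace i13 := i13.mono hS5
  replace i14 := i14.mono hS5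
  replace i15 := i15.mono hS5
  replace i16 := i16.mono hS5
  replace i17 := i17.mono hS5
  replace i18 := i18.mono hS5
  replace i19 := i19.mono hS5
  replace x1 := x1.mono hS5
  replace x2 := x2.mono hS5
  replace x3 := x3.mono hS5
  replace u1 := u1.mono hS5
  replace u2 := u2.mono hS5
  replace y1 := y1.mono hS5
  replace y2 := y2.mono hS5
  replace y3 := y3.mono hS5
  obtain ⟨S6, hS6, u4, s6⟩ := uniq3 (x := p5) (y := p12) (z := Y) (e := p2) hn
    (by simp only [Col, Det2] at *; grind) (by simp only [Col, Det2, Inj3] at *; grind) m5 s5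
  have m6 := fD_nonneg m5
  replace b1 := b1.mono hS6
  replace b2 := b2.mono hS6
  replace b3 := b3.mono hS6
  replace b4 := b4.mono hS6
  replace b5 := b5.mono hS6
  replace b6 := b6.mono hS6
  replace b7 := b7.mono hS6
  replace b8 := b8.mono hS6
  replace b9 := b9.mono hS6
  replace b10 := b10.mono hS6
  replace b11 := b11.mono hS6
  replace b12 := b12.mono hS6
  replace b13 := b13.mono hS6
  replace b14 := b14.mono hS6
  replace b15 := b15.mono hS6
  replace b16 := b16.mono hS6
  replace b17 := b17.mono hS6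
  replace b18 := b18.mono hS6
  replace i1 := i1.mono hS6
  replace i2 := i2.mono hS6
  replace i3 := i3.mono hS6
  replace i4 := i4.mono hS6
  replace i5 := i5.mono hS6
  replace i6 := i6.mono hS6
  replace i7 := i7.mono hS6
  replace i8 := i8.mono hS6
  replace i9 := i9.mono hS6
  replace i10 := i10.mono hS6
  replace i11 := i11.mono hS6
  replace i12 := i12.mono hS6
  replace i13 := i13.mono hS6
  replace i14 := i14.mono hS6
  replace i15 := i15.mono hS6
  replace i16 := i16.mono hS6
  replace i17 := i17.mono hS6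
  replace i18 := i18.mono hS6
  replace i19 := i19.mono hS6
  replace x1 := x1.mono hS6
  replace x2 := x2.mono hS6
  replace x3 := x3.mono hS6
  replace u1 := u1.mono hS6
  replace u2 := u2.mono hS6
  replace y1 := y1.mono hS6
  replace y2 := y2.mono hS6
  replace y3 := y3.mono hS6
  replace u3 := u3.mono hS6
  obtain ⟨S7, hS7, u5, s7⟩ := uniq3 (x := p7) (y := p2) (z := Y) (e := p11) hn
    (by simp only [Col, Det2] at *; grind) (by simp only [Col, Det2, Inj3] at *; grind) m6 s6
  have m7 := fD_nonneg m6
  replace b1 := b1.mono hS7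
  replace b2 := b2.mono hS7
  replace b3 := b3.mono hS7
  replace b4 := b4.mono hS7
  replace b5 := b5.mono hS7
  replace b6 := b6.mono hS7
  replace b7 := b7.mono hS7
  replace b8 := b8.mono hS7
  replace b9 := b9.mono hS7
  replace b10 := b10.mono hS7
  replace b11 := b11.mono hS7
  replace b12 := b12.mono hS7
  replace b13 := b13.mono hS7
  replace b14 := b14.mono hS7
  replace b15 := b15.mono hS7
  replace b16 := b16.mono hS7
  replace b17 := b17.mono hS7
  replace b18 := b18.mono hS7
  replace i1 := i1.mono hS7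
  replace i2 := i2.mono hS7
  replace i3 := i3.mono hS7
  replace i4 := i4.mono hS7
  replace i5 := i5.mono hS7
  replace i6 := i6.mono hS7
  replace i7 := i7.mono hS7
  replace i8 := i8.mono hS7
  replace i9 := i9.mono hS7
  replace i10 := i10.mono hS7
  replace i11 := i11.mono hS7
  replace i12 := i12.mono hS7
  replace i13 := i13.mono hS7
  replace i14 := i14.mono hS7
  replace i15 := i15.mono hS7
  replace i16 := i16.mono hS7
  replace i17 := i17.mono hS7
  replace i18 := i18.mono hS7
  replace i19 := i19.mono hS7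
  replace x1 := x1.mono hS7
  replace x2 := x2.mono hS7
  replace x3 := x3.mono hS7
  replace u1 := u1.mono hS7
  replace u2 := u2.mono hS7
  replace y1 := y1.mono hS7
  replace y2 := y2.mono hS7
  replace y3 := y3.mono hS7
  replace u3 := u3.mono hS7
  replace u4 := u4.mono hS7
  obtain ⟨S8, hS8, Z, z1, z2, z3, s8⟩ := desargues (o := p1) (a1 := p12) (b1 := p7) (a2 := p5)
    (b2 := p2) (a3 := p3) (b3 := p8) (c1 := p10) (c3 := Y) hn
    (by simp only [Col, Det2] at *; grind) (by simp only [Col, Det2] at *; grind)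
    (by simp only [Col, Det2] at *; grind) (by simp only [Col, Det2] at *; grind)
    (by simp only [Col, Det2] at *; grind) (by simp only [Col, Det2] at *; grind)
    (by simp only [Col, Det2] at *; grind)
    (by simp only [Col, Det2, Inj3] at *; grind) (by simp only [Col, Det2, Inj3] at *; grind)
    (by simp only [Col, Det2, Inj3] at *; grind) (by simp only [Col, Det2, Inj3] at *; grind)
    m7 s7
  have m8 := dz_nonneg m7
  replace b1 := b1.mono hS8
  replace b2 := b2.mono hS8
  replace b3 := b3.mono hS8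
  replace b4 := b4.mono hS8
  replace b5 := b5.mono hS8
  replace b6 := b6.mono hS8
  replace b7 := b7.mono hS8
  replace b8 := b8.mono hS8
  replace b9 := b9.mono hS8
  replace b10 := b10.mono hS8
  replace b11 := b11.mono hS8
  replace b12 := b12.mono hS8
  replace b13 := b13.mono hS8
  replace b14 := b14.mono hS8
  replace b15 := b15.mono hS8
  replace b16 := b16.mono hS8
  replace b17 := b17.mono hS8
  replace b18 := b18.mono hS8
  replace i1 := i1.mono hS8
  replace i2 := i2.mono hS8
  replace i3 := i3.mono hS8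
  replace i4 := i4.mono hS8
  replace i5 := i5.mono hS8
  replace i6 := i6.mono hS8
  replace i7 := i7.mono hS8
  replace i8 := i8.mono hS8
  replace i9 := i9.mono hS8
  replace i10 := i10.mono hS8
  replace i11 := i11.mono hS8
  replace i12 := i12.mono hS8
  replace i13 := i13.mono hS8
  replace i14 := i14.mono hS8
  replace i15 := i15.mono hS8
  replace i16 := i16.mono hS8
  replace i17 := i17.mono hS8
  replace i18 := i18.mono hS8
  replace i19 := i19.mono hS8
  replace x1 := x1.mono hS8
  replace x2 := x2.mono hS8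
  replace x3 := x3.mono hS8
  replace u1 := u1.mono hS8
  replace u2 := u2.mono hS8
  replace y1 := y1.mono hS8
  replace y2 := y2.mono hS8
  replace y3 := y3.mono hS8
  replace u3 := u3.mono hS8
  replace u4 := u4.mono hS8
  replace u5 := u5.mono hS8
  obtain ⟨S9, hS9, v1, s9⟩ := dd3 (D := p11) (a := p7) (b := p10) (l := Z) hn
    (by simp only [Col, Det2] at *; grind) (by simp only [Col, Det2] at *; grind)
    (by simp only [Col, Det2, Inj3] at *; grind) m8 s8
  have h : S9.card ≤ n ^ 2 := by
    apply card_le_sq S9 p11 p12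
    simp only [Col, Det2, Inj3] at *
    grind
  have h' : (S9.card : ℝ) ≤ (n : ℝ) ^ 2 := by exact_mod_cast h
  exact s9.trans h'

end Pool.Agent.Helper138_LS
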