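import Pool.Agent.H480R2.LS.Fam
import Pool.Agent.Helper138_LS.Patterns

/-!
Relations whose patterns form a linear space in which the theorem of Desargues fails are sparse.
-/

set_option autoImplicit false

open Finset

namespace Pool.Agent.Helper138_LS

open Pool.Agent.H480R2.LS

/-- the loss for a configuration that does not close -/
noncomputable def gN (c : ℝ) : ℝ := fD (dz c)

theorem mono_gN : Mono gN := mono_fD.comp mono_dz

theorem nonDes {ι : Type*} {n : ℕ} (hn : 0 < n) {S : Finset ι}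
    {o a1 b1 a2 b2 a3 b3 c1 c2 c3 : ι → Fin n}
    (h1 : Col S o a1 b1) (h2 : Col S o a2 b2) (h3 : Col S o a3 b3)
    (k12 : Col S a1 a2 c3) (m12 : Col S b1 b2 c3) (k23 : Col S a2 a3 c1) (m23 : Col S b2 b3 c1)
    (k13 : Col S a1 a3 c2) (m13 : Col S b1 b3 c2)
    (i012 : Inj3 S o a1 a2) (i013 : Inj3 S o a1 a3) (i023 : Inj3 S o a2 a3) (i123 : Inj3 S a1 a2 a3)
    (j1 : Inj3 S c2 a1 b1) (j2 : Inj3 S c1 c2 c3)
    {c : ℝ} (hc : 0 ≤ c) (hS : c * (n : ℝ) ^ 3 ≤ S.card) : gN c * (n : ℝ) ^ 3 ≤ (n : ℝ) ^ 2 := by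
  obtain ⟨S1, hS1, X, x1, x2, x3, s1⟩ := desargues hn h1 h2 h3 k12 m12 k23 m23 i012 i013 i023 i123 hc hS
  have m1 := dz_nonneg hc
  replace k13 := k13.mono hS1
  replace m13 := m13.mono hS1
  replace j1 := j1.mono hS1
  replace j2 := j2.mono hS1
  obtain ⟨S2, hS2, z1, s2⟩ := dd3 (D := X) (a := a1) (b := b1) (l := c2) hn
    (by simp only [Col, Det2] at *; grind) (by simp only [Col, Det2] at *; grind)
    (by simp only [Col, Det2, Inj3] at *; grind) m1 s1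
  have h : S2.card ≤ n ^ 2 := by
    apply card_le_sq S2 c1 c3
    simp only [Col, Det2, Inj3] at *
    grind
  have h' : (S2.card : ℝ) ≤ (n : ℝ) ^ 2 := by exact_mod_cast h
  exact s2.trans h'

variable {k l : ℕ} {T : Finset (Finset (Fin k))}

/-- three distinct points of a member of `T` -/
def BlkT (T : Finset (Finset (Fin k))) (x y z : Fin k) : Prop :=
  x ≠ y ∧ x ≠ z ∧ y ≠ z ∧ ∃ A ∈ T, x ∈ A ∧ y ∈ A ∧ z ∈ A

/-- three distinct points not on a member of `T` -/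
def NBlT (T : Finset (Finset (Fin k))) (x y z : Fin k) : Prop :=
  x ≠ y ∧ x ≠ z ∧ y ≠ z ∧ ∀ A ∈ T, ¬ (x ∈ A ∧ y ∈ A ∧ z ∈ A)

theorem cardT (hT : ∀ A ∈ T, A.card ∈ ({0, 1, l} : Finset ℕ)) {A : Finset (Fin k)} (hA : A ∈ T)
    {x y : Fin k} (hxy : x ≠ y) (hx : x ∈ A) (hy : y ∈ A) : A.card = l := by
  have h1 : 1 < A.card := Finset.one_lt_card.mpr ⟨x, hx, y, hy, hxy⟩
  have h2 := hT A hA
  simp only [Finset.mem_insert, Finset.mem_singleton] at h2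
  omega

theorem sameT (hI : IC T) (hT : ∀ A ∈ T, A.card ∈ ({0, 1, l} : Finset ℕ)) {A B : Finset (Fin k)}
    (hA : A ∈ T) (hB : B ∈ T) {x y : Fin k} (hxy : x ≠ y) (hx : x ∈ A) (hy : y ∈ A) (hx' : x ∈ B)
    (hy' : y ∈ B) : A = B := by
  have h1 := hI A hA B hB
  have h2 := cardT hT h1 hxy (Finset.mem_inter.mpr ⟨hx, hx'⟩) (Finset.mem_inter.mpr ⟨hy, hy'⟩)
  have h3 := cardT hT hA hxy hx hy
  have h4 := cardT hT hB hxy hx' hy'
  have h5 : A ∩ B = A := Finset.eq_of_subset_of_card_le Finset.inter_subset_left (by omega)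
  have h6 : A ∩ B = B := Finset.eq_of_subset_of_card_le Finset.inter_subset_right (by omega)
  rw [← h5, h6]

section rel

variable {n : ℕ} {R : Finset (Fin k → Fin n)}

theorem blkT_det (hI : IC T) (hT : ∀ A ∈ T, A.card ∈ ({0, 1, l} : Finset ℕ)) (hR : PatIn R T)
    {x y z : Fin k} (h : BlkT T x y z) :
    Det2 R (fun f => f x) (fun f => f y) (fun f => f z) := by
  intro f hf g hg h1 h2
  by_cases hfg : f = g
  · rw [hfg]
  obtain ⟨hxy, _, _, A, hA, hx, hy, hz⟩ := h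
  have h3 := sameT hI hT hA (hR f hf g hg hfg) hxy hx hy (mem_agr.mpr h1) (mem_agr.mpr h2)
  rw [h3] at hz
  exact mem_agr.mp hz

theorem blkT_col (hI : IC T) (hT : ∀ A ∈ T, A.card ∈ ({0, 1, l} : Finset ℕ)) (hR : PatIn R T)
    {x y z : Fin k} (h : BlkT T x y z) :
    Col R (fun f => f x) (fun f => f y) (fun f => f z) := by
  obtain ⟨h1, h2, h3, A, hA, hx, hy, hz⟩ := h
  exact ⟨blkT_det hI hT hR ⟨h1, h2, h3, A, hA, hx, hy, hz⟩,
    blkT_det hI hT hR ⟨h2, h1, h3.symm, A, hA, hx, hz, hy⟩,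
    blkT_det hI hT hR ⟨h3, h1.symm, h2.symm, A, hA, hy, hz, hx⟩⟩

theorem nblT_inj (hR : PatIn R T) {x y z : Fin k} (h : NBlT T x y z) :
    Inj3 R (fun f => f x) (fun f => f y) (fun f => f z) := by
  intro f hf g hg h1 h2 h3
  by_contra hfg
  exact h.2.2.2 (agr f g) (hR f hf g hg hfg) ⟨mem_agr.mpr h1, mem_agr.mpr h2, mem_agr.mpr h3⟩

end rel

/-- a configuration of Desargues that does not close -/
def BadDes (T : Finset (Finset (Fin k))) : Prop :=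
  ∃ o a1 b1 a2 b2 a3 b3 c1 c2 c3 : Fin k,
    BlkT T o a1 b1 ∧ BlkT T o a2 b2 ∧ BlkT T o a3 b3 ∧ BlkT T a1 a2 c3 ∧ BlkT T b1 b2 c3 ∧
    BlkT T a2 a3 c1 ∧ BlkT T b2 b3 c1 ∧ BlkT T a1 a3 c2 ∧ BlkT T b1 b3 c2 ∧
    NBlT T o a1 a2 ∧ NBlT T o a1 a3 ∧ NBlT T o a2 a3 ∧ NBlT T a1 a2 a3 ∧ NBlT T c2 a1 b1 ∧
    NBlT T c1 c2 c3

theorem badDes_bound {n : ℕ} (hn : 0 < n) {R : Finset (Fin k → Fin n)} (hI : IC T)
    (hT : ∀ A ∈ T, A.card ∈ ({0, 1, l} : Finset ℕ)) (hR : PatIn R T) (hB : BadDes T) {c : ℝ}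
    (hc : 0 ≤ c) (hS : c * (n : ℝ) ^ 3 ≤ R.card) : gN c * (n : ℝ) ^ 3 ≤ (n : ℝ) ^ 2 := by
  obtain ⟨o, a1, b1, a2, b2, a3, b3, c1, c2, c3, e1, e2, e3, e4, e5, e6, e7, e8, e9, i1, i2, i3, i4,
    i5, i6⟩ := hB
  exact nonDes hn (blkT_col hI hT hR e1) (blkT_col hI hT hR e2) (blkT_col hI hT hR e3)
    (blkT_col hI hT hR e4) (blkT_col hI hT hR e5) (blkT_col hI hT hR e6) (blkT_col hI hT hR e7)
    (blkT_col hI hT hR e8) (blkT_col hI hT hR e9) (nblT_inj hR i1) (nblT_inj hR i2) (nblT_inj hR i3)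
    (nblT_inj hR i4) (nblT_inj hR i5) (nblT_inj hR i6) hc hS

end Pool.Agent.Helper138_LS
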