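import Pool.Agent.Helper138_LS.PosPlane

/-!
Linearized polynomials of 2-degree at most two over a field with `2 ^ m` elements: the pairs
`(2 ^ m - 1, {0,1,3})` and `(2 ^ m, {0,1,2,4})` have the maximal order of growth.
-/

set_option autoImplicit false

open Finset

namespace Pool.Agent.Helper138_LS

open Pool.Agent.H480R2.LS Polynomial

section lin

variable {K : Type} [Field K]

/-- `a x + b x² + c x⁴` -/
def lp (u : K × K × K) (x : K) : K := u.1 * x + u.2.1 * x ^ 2 + u.2.2 * x ^ 4

theorem lp_add [CharP K 2] (u : K × K × K) (x y : K) : lp u (x + y) = lp u x + lp u y := by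
  have h2 : (2 : K) = 0 := CharTwo.two_eq_zero
  simp only [lp]
  linear_combination (u.2.1 * x * y + u.2.2 * (2 * x ^ 3 * y + 3 * x ^ 2 * y ^ 2 + 2 * x * y ^ 3)) * h2

variable [Fintype K] [DecidableEq K]

/-- at most four zeros -/
theorem lp_card (u : K × K × K) (e : K) (hu : u ≠ 0) :
    (Finset.univ.filter fun x => lp u x = e).card ≤ 4 := by
  classical
  obtain ⟨a, b, c⟩ := u
  set f : K[X] := C a * X + C b * X ^ 2 + C c * X ^ 4 - C e with hf
  have h1 : f.coeff 1 = a := by
    rw [hf]
    simp [coeff_X_pow, coeff_C]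
  have h2 : f.coeff 2 = b := by
    rw [hf]
    simp [coeff_X, coeff_X_pow]
  have h4 : f.coeff 4 = c := by
    rw [hf]
    simp [coeff_X, coeff_X_pow]
  have hf0 : f ≠ 0 := by
    intro h
    rw [h] at h1 h2 h4
    simp only [coeff_zero] at h1 h2 h4
    apply hu
    rw [← h1, ← h2, ← h4]
    rfl
  have hdeg : f.natDegree ≤ 4 := by
    rw [hf]
    compute_degree
  have hsub : (Finset.univ.filter fun x => lp (a, b, c) x = e) ⊆ f.roots.toFinset := by
    intro x hx
    rw [Finset.mem_filter] at hx
    rw [Multiset.mem_toFinset, mem_roots hf0, IsRoot.def, hf]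
    have := hx.2
    simp only [lp] at this
    simp only [eval_sub, eval_add, eval_mul, eval_C, eval_X, eval_pow]
    linear_combination this
  calc _ ≤ f.roots.toFinset.card := Finset.card_le_card hsub
    _ ≤ Multiset.card f.roots := Multiset.toFinset_card_le _
    _ ≤ f.natDegree := card_roots' f
    _ ≤ 4 := hdeg

end lin

/-- a field with `2 ^ m` elements -/
theorem exists_field_two {m : ℕ} (hm : 1 ≤ m) :
    ∃ (K : Type) (_ : Field K) (_ : Fintype K) (_ : DecidableEq K) (_ : CharP K 2),
      Fintype.card K = 2 ^ m := by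
  classical
  have : Fact (Nat.Prime 2) := ⟨Nat.prime_two⟩
  let _ : Fintype (GaloisField 2 m) := Fintype.ofFinite _
  refine ⟨GaloisField 2 m, inferInstance, inferInstance, inferInstance, inferInstance, ?_⟩
  rw [← Nat.card_eq_fintype_card]
  exact GaloisField.card 2 m (by omega)

theorem linPos {m : ℕ} (hm : 3 ≤ m) :
    ∃ c : ℝ, 0 < c ∧ ∀ n : ℕ, 2 ^ m - 1 ≤ n → ∃ F : Finset (Finset (Fin n)),
      (∀ A ∈ F, A.card = 2 ^ m - 1) ∧
      (∀ A ∈ F, ∀ B ∈ F, A ≠ B → (A ∩ B).card ∈ ({0, 1, 3} : Finset ℕ)) ∧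
      c * (n : ℝ) ^ 3 ≤ F.card := by
  classical
  obtain ⟨K, _, _, _, _, hK⟩ := exists_field_two (show 1 ≤ m by omega)
  have h8 : 8 ≤ 2 ^ m := by
    calc 8 = 2 ^ 3 := by norm_num
      _ ≤ 2 ^ m := Nat.pow_le_pow_right (by norm_num) hm
  have hxx : ∀ x : K, x + x = 0 := fun x => CharTwo.add_self_eq_zero x
  have hne : ∀ {x y : K}, x ≠ y → x + y ≠ 0 := by
    intro x y h h'
    apply h
    linear_combination h' - hxx y
  set Z : K × K × K → Finset {x : K // x ≠ 0} := fun u => Finset.univ.filter fun p => lp u p.1 = 0 with hZ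
  have hmem : ∀ u (p : {x : K // x ≠ 0}), p ∈ Z u ↔ lp u p.1 = 0 := by
    intro u p
    simp [hZ]
  have hsum : ∀ {u} {x y : {x : K // x ≠ 0}} (hxy : x ≠ y), x ∈ Z u → y ∈ Z u →
      (⟨x.1 + y.1, hne fun h => hxy (Subtype.ext h)⟩ : {x : K // x ≠ 0}) ∈ Z u := by
    intro u x y hxy hx hy
    rw [hmem] at hx hy ⊢
    simp only [lp_add, hx, hy, add_zero]
  have hcard : ∀ u, u ≠ 0 → (Z u).card ≤ 3 := by
    intro u hu
    have h1 := lp_card u 0 hu
    have h2 : ((Z u).image Subtype.val ∪ {0}).card ≤ 4 := by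
      refine le_trans (Finset.card_le_card ?_) h1
      intro x hx
      rw [Finset.mem_union, Finset.mem_image, Finset.mem_singleton] at hx
      rw [Finset.mem_filter]
      refine ⟨Finset.mem_univ _, ?_⟩
      rcases hx with ⟨p, hp, rfl⟩ | rfl
      · exact (hmem u p).mp hp
      · simp [lp]
    rw [Finset.card_union_of_disjoint, Finset.card_image_of_injective _ Subtype.val_injective,
      Finset.card_singleton] at h2
    · omega
    · rw [Finset.disjoint_singleton_right, Finset.mem_image]
      rintro ⟨p, _, h⟩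
      exact p.2 h
  have htwo : ∀ (A : Finset {x : K // x ≠ 0}), (∀ x y : {x : K // x ≠ 0}, ∀ hxy : x ≠ y, x ∈ A → y ∈ A →
      (⟨x.1 + y.1, hne fun h => hxy (Subtype.ext h)⟩ : {x : K // x ≠ 0}) ∈ A) → 1 < A.card → 3 ≤ A.card := by
    intro A hA h1
    obtain ⟨x, hx, y, hy, hxy⟩ := Finset.one_lt_card.mp h1
    have h2 : 2 < A.card := Finset.two_lt_card.mpr ⟨x, hx, y, hy, _, hA x y hxy hx hy, hxy, by
      intro h
      have := congrArg Subtype.val h
      simp only at this
      exact y.2 (by linear_combination -this), by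
      intro h
      have := congrArg Subtype.val h
      simp only at this
      exact x.2 (by linear_combination -this)⟩
    omega
  apply of_geom (P := {x : K // x ≠ 0}) (K := K) (M := K × K × K) (q := 2 ^ m) (t := 1) (l := 3)
    ?_ hK ?_ (by omega) (by omega) (by omega) ?_ (fun u p => lp u p.1) ?_ ?_ ?_
  · rw [Fintype.card_subtype_compl, hK]
    simp
  · rw [Fintype.card_prod, Fintype.card_prod, hK]; ring
  · intro i hi
    simp only [Finset.mem_insert, Finset.mem_singleton]
    omega
  · rintro ⟨a, b, c⟩ ⟨a', b', c'⟩ p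
    simp only [lp, Prod.mk_sub_mk]
    ring
  · intro u hu
    have h1 := hcard u hu
    by_cases h2 : 1 < (Z u).card
    · right
      have h3 := htwo (Z u) (fun x y hxy hx hy => hsum hxy hx hy) h2
      show (Z u).card = 3
      omega
    · left
      show (Z u).card ≤ 1
      omega
  · intro u v hu hv hne'
    by_contra hcon
    push Not at hcon
    have h3 := htwo (Z u ∩ Z v) (fun x y hxy hx hy => by
      rw [Finset.mem_inter] at hx hy ⊢
      exact ⟨hsum hxy hx.1 hy.1, hsum hxy hx.2 hy.2⟩) hcon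
    have h4 := hcard u hu
    have h5 := hcard v hv
    have e1 : Z u ∩ Z v = Z u := Finset.eq_of_subset_of_card_le Finset.inter_subset_left (by omega)
    have e2 : Z u ∩ Z v = Z v := Finset.eq_of_subset_of_card_le Finset.inter_subset_right (by omega)
    exact hne' (e1.symm.trans e2)

theorem linPos' {m : ℕ} (hm : 3 ≤ m) :
    ∃ c : ℝ, 0 < c ∧ ∀ n : ℕ, 2 ^ m ≤ n → ∃ F : Finset (Finset (Fin n)),
      (∀ A ∈ F, A.card = 2 ^ m) ∧
      (∀ A ∈ F, ∀ B ∈ F, A ≠ B → (A ∩ B).card ∈ ({0, 1, 2, 4} : Finset ℕ)) ∧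
      c * (n : ℝ) ^ 4 ≤ F.card := by
  classical
  obtain ⟨K, _, _, _, _, hK⟩ := exists_field_two (show 1 ≤ m by omega)
  have h8 : 8 ≤ 2 ^ m := by
    calc 8 = 2 ^ 3 := by norm_num
      _ ≤ 2 ^ m := Nat.pow_le_pow_right (by norm_num) hm
  have hxx : ∀ x : K, x + x = 0 := fun x => CharTwo.add_self_eq_zero x
  set Z : (K × K × K) × K → Finset K := fun u => Finset.univ.filter fun x => lp u.1 x + u.2 = 0 with hZ
  have hmem : ∀ u x, x ∈ Z u ↔ lp u.1 x + u.2 = 0 := by
    intro u p
    simp [hZ]
  have hsum : ∀ {u x y z}, x ∈ Z u → y ∈ Z u → z ∈ Z u → x + y + z ∈ Z u := by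
    intro u x y z hx hy hz
    rw [hmem] at hx hy hz ⊢
    rw [lp_add, lp_add]
    linear_combination hx + hy + hz - hxx u.2
  have hcard : ∀ u, u ≠ 0 → (Z u).card ≤ 4 := by
    intro u hu
    by_cases h0 : u.1 = 0
    · have : Z u = ∅ := by
        rw [Finset.eq_empty_iff_forall_notMem]
        intro x hx
        rw [hmem, h0] at hx
        apply hu
        refine Prod.ext h0 ?_
        simpa [lp] using hx
      rw [this]
      simp
    · refine le_trans (Finset.card_le_card ?_) (lp_card u.1 (-u.2) h0)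
      intro x hx
      rw [hmem] at hx
      rw [Finset.mem_filter]
      exact ⟨Finset.mem_univ _, by linear_combination hx⟩
  have hthree : ∀ (A : Finset K), (∀ x y z : K, x ∈ A → y ∈ A → z ∈ A → x + y + z ∈ A) → 2 < A.card →
      4 ≤ A.card := by
    intro A hA h1
    obtain ⟨x, hx, y, hy, z, hz, hxy, hxz, hyz⟩ := Finset.two_lt_card.mp h1
    have h2 := hA x y z hx hy hz
    have h3 : ({x, y, z, x + y + z} : Finset K) ⊆ A := by
      intro w hw
      simp only [Finset.mem_insert, Finset.mem_singleton] at hw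
      rcases hw with rfl | rfl | rfl | rfl
      · exact hx
      · exact hy
      · exact hz
      · exact h2
    have h4 : ({x, y, z, x + y + z} : Finset K).card = 4 := by
      rw [Finset.card_insert_of_notMem, Finset.card_insert_of_notMem, Finset.card_insert_of_notMem,
        Finset.card_singleton]
      · rw [Finset.mem_singleton]
        intro h
        exact hxy (by linear_combination -h - hxx y)
      · simp only [Finset.mem_insert, Finset.mem_singleton, not_or]
        exact ⟨hyz, fun h => hxz (by linear_combination -h - hxx z)⟩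
      · simp only [Finset.mem_insert, Finset.mem_singleton, not_or]
        exact ⟨hxy, hxz, fun h => hyz (by linear_combination -h - hxx z)⟩
    rw [← h4]
    exact Finset.card_le_card h3
  apply of_geom (P := K) (K := K) (M := (K × K × K) × K) (q := 2 ^ m) (t := 2) (l := 4)
    hK hK ?_ (by omega) (by omega) (by omega) ?_ (fun u x => lp u.1 x + u.2) ?_ ?_ ?_
  · rw [Fintype.card_prod, Fintype.card_prod, Fintype.card_prod, hK]; ring
  · intro i hi
    simp only [Finset.mem_insert, Finset.mem_singleton]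
    omega
  · rintro ⟨⟨a, b, c⟩, e⟩ ⟨⟨a', b', c'⟩, e'⟩ p
    simp only [lp, Prod.mk_sub_mk]
    ring
  · intro u hu
    have h1 := hcard u hu
    by_cases h2 : 2 < (Z u).card
    · right
      have h3 := hthree (Z u) (fun x y z hx hy hz => hsum hx hy hz) h2
      show (Z u).card = 4
      omega
    · left
      show (Z u).card ≤ 2
      omega
  · intro u v hu hv hne'
    by_contra hcon
    push Not at hcon
    have h3 := hthree (Z u ∩ Z v) (fun x y z hx hy hz => by
      rw [Finset.mem_inter] at hx hy hz ⊢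
      exact ⟨hsum hx.1 hy.1 hz.1, hsum hx.2 hy.2 hz.2⟩) hcon
    have h4 := hcard u hu
    have h5 := hcard v hv
    have e1 : Z u ∩ Z v = Z u := Finset.eq_of_subset_of_card_le Finset.inter_subset_left (by omega)
    have e2 : Z u ∩ Z v = Z v := Finset.eq_of_subset_of_card_le Finset.inter_subset_right (by omega)
    exact hne' (e1.symm.trans e2)

end Pool.Agent.Helper138_LS
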