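import Pool.Agent.Helper138_LS.PosGeom
import Pool.Agent.Helper138_LS.PosLin

/-!
The positive part of the classification: full sets, blowing up, and two binary codes.
-/

set_option autoImplicit false

open Finset

namespace Pool.Agent.Helper138_LS

open Pool.Agent.H480R2.LS

/-- every `n ≥ k` has a family of at least `c n ^ s` sets with `k` elements each of which any two distinct
members meet in a number of elements from `L`, for some constant `c > 0` -/
def Att (k : ℕ) (L : Finset ℕ) (s : ℕ) : Prop :=
  ∃ c : ℝ, 0 < c ∧ ∀ n : ℕ, k ≤ n → ∃ F : Finset (Finset (Fin n)),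
    (∀ A ∈ F, A.card = k) ∧ (∀ A ∈ F, ∀ B ∈ F, A ≠ B → (A ∩ B).card ∈ L) ∧ c * (n : ℝ) ^ s ≤ F.card

/-- the blow-up of the points -/
def blow (a g m n : ℕ) (h : a + g * m ≤ n) : Fin a ⊕ (Fin m × Fin g) ↪ Fin n where
  toFun := fun x => match x with
    | Sum.inl i => ⟨i.1, by have := i.2; omega⟩
    | Sum.inr (j, i) => ⟨a + g * j.1 + i.1, by
        have h1 := i.2
        have h2 : g * (j.1 + 1) ≤ g * m := Nat.mul_le_mul_left _ j.2
        have h3 : g * (j.1 + 1) = g * j.1 + g := by ring
        omega⟩
  inj' := by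
    rintro (i | ⟨j, i⟩) (i' | ⟨j', i'⟩) h'
    · simp only [Fin.mk.injEq] at h'
      exact congrArg Sum.inl (Fin.ext h')
    · simp only [Fin.mk.injEq] at h'
      have := i.2
      omega
    · simp only [Fin.mk.injEq] at h'
      have := i'.2
      omega
    · simp only [Fin.mk.injEq] at h'
      have h1 := i.2
      have h2 := i'.2
      have h3 : g * j.1 + i.1 = g * j'.1 + i'.1 := by omega
      have h4 : j.1 = j'.1 := by
        have e1 : (g * j.1 + i.1) / g = j.1 := by
          rw [Nat.mul_add_div (by omega), Nat.div_eq_of_lt h1, add_zero]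
        have e2 : (g * j'.1 + i'.1) / g = j'.1 := by
          rw [Nat.mul_add_div (by omega), Nat.div_eq_of_lt h2, add_zero]
        rw [← e1, ← e2, h3]
      have h5 : i.1 = i'.1 := by
        rw [h4] at h3
        omega
      rw [Fin.ext h4, Fin.ext h5]

theorem Att.scale {k s : ℕ} {L : Finset ℕ} (h : Att k L s) (a g : ℕ) (hg : 1 ≤ g) (hk : 1 ≤ k) :
    Att (a + g * k) (L.image fun i => a + g * i) s := by
  classical
  obtain ⟨c, hc, h⟩ := h
  refine ⟨c / ((a : ℝ) + 2 * g) ^ s, by positivity, fun n hn => ?_⟩
  set m := (n - a) / g with hm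
  have hgk : g * k ≤ n - a := by omega
  have hkm : k ≤ m := by
    rw [hm, Nat.le_div_iff_mul_le (by omega)]
    have : k * g = g * k := mul_comm _ _
    omega
  have hmn : a + g * m ≤ n := by
    have h1 : g * m ≤ n - a := Nat.mul_div_le _ _
    omega
  have hnm : n ≤ (a + 2 * g) * m := by
    have h1 := Nat.lt_mul_div_succ (n - a) (show 0 < g by omega)
    rw [← hm] at h1
    have h2 : a * 1 ≤ a * m := Nat.mul_le_mul_left _ (by omega)
    have h3 : g * 1 ≤ g * m := Nat.mul_le_mul_left _ (by omega)
    have h4 : g * (m + 1) = g * m + g := by ring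
    have h5 : (a + 2 * g) * m = a * m + 2 * (g * m) := by ring
    omega
  obtain ⟨F, hF1, hF2, hF3⟩ := h m hkm
  let e := blow a g m n hmn
  let Φ : Finset (Fin m) → Finset (Fin n) := fun A =>
    ((Finset.univ : Finset (Fin a)).disjSum (A ×ˢ (Finset.univ : Finset (Fin g)))).map e
  have hcard : ∀ A, (Φ A).card = a + g * A.card := by
    intro A
    simp only [Φ, Finset.card_map, Finset.card_disjSum, Finset.card_product, Finset.card_univ,
      Fintype.card_fin]
    ring
  have hinter : ∀ A B, Φ A ∩ Φ B = Φ (A ∩ B) := by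
    intro A B
    simp only [Φ]
    rw [← Finset.map_inter]
    congr 1
    ext x
    rcases x with i | ⟨j, i⟩
    · simp
    · simp
  have hinj : Function.Injective Φ := by
    intro A B hAB
    have h1 := hinter A B
    rw [hAB, Finset.inter_self] at h1
    have h2 := hinter A B
    rw [← hAB, Finset.inter_self] at h2
    have e1 : B.card = (A ∩ B).card := by
      have := congrArg Finset.card h1
      rw [hcard, hcard] at this
      exact Nat.eq_of_mul_eq_mul_left (show 0 < g by omega) (by omega)
    have e2 : A.card = (A ∩ B).card := by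
      have := congrArg Finset.card h2
      rw [hcard, hcard] at this
      exact Nat.eq_of_mul_eq_mul_left (show 0 < g by omega) (by omega)
    have e3 : A ∩ B = A := Finset.eq_of_subset_of_card_le Finset.inter_subset_left (by omega)
    have e4 : A ∩ B = B := Finset.eq_of_subset_of_card_le Finset.inter_subset_right (by omega)
    rw [← e3, e4]
  refine ⟨F.image Φ, ?_, ?_, ?_⟩
  · intro A hA
    rw [Finset.mem_image] at hA
    obtain ⟨A, hA, rfl⟩ := hA
    rw [hcard, hF1 A hA]
  · intro A hA B hB hAB
    rw [Finset.mem_image] at hA hB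
    obtain ⟨A, hA, rfl⟩ := hA
    obtain ⟨B, hB, rfl⟩ := hB
    rw [hinter, hcard, Finset.mem_image]
    exact ⟨_, hF2 A hA B hB (fun h => hAB (by rw [h])), rfl⟩
  · rw [Finset.card_image_of_injective _ hinj]
    have h1 : (n : ℝ) ≤ ((a : ℝ) + 2 * g) * m := by exact_mod_cast hnm
    have h2 : (n : ℝ) ^ s ≤ (((a : ℝ) + 2 * g) * m) ^ s := pow_le_pow_left₀ (by positivity) h1 s
    have h3 : (0 : ℝ) < ((a : ℝ) + 2 * g) ^ s := by positivity
    calc c / ((a : ℝ) + 2 * g) ^ s * (n : ℝ) ^ s
        ≤ c / ((a : ℝ) + 2 * g) ^ s * (((a : ℝ) + 2 * g) * m) ^ s := by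
          apply mul_le_mul_of_nonneg_left h2
          positivity
      _ = c * (m : ℝ) ^ s := by
        rw [mul_pow]
        field_simp
      _ ≤ _ := hF3

/-- **Full sets.** -/
theorem fullPos {k s : ℕ} (hs : 1 ≤ s) (hsk : s ≤ k) : Att k (Finset.range s) s := by
  classical
  obtain ⟨p, hp1, hp⟩ := Nat.exists_infinite_primes (k + 1)
  have : Fact p.Prime := ⟨hp⟩
  have hp2 := hp.two_le
  let pt : Fin k → ZMod p := fun i => (i.1 : ZMod p)
  have hpt : Function.Injective pt := by
    intro i j hij
    have h1 : ((i.1 : ℕ) : ZMod p) = ((j.1 : ℕ) : ZMod p) := hij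
    rw [ZMod.natCast_eq_natCast_iff'] at h1
    rw [Nat.mod_eq_of_lt (by omega), Nat.mod_eq_of_lt (by omega)] at h1
    exact Fin.ext h1
  let ev : (Fin s → ZMod p) → Fin k → ZMod p := fun u i => ∑ j, u j * pt i ^ j.1
  have hz : ∀ u, u ≠ 0 → (Finset.univ.filter fun i => ev u i = 0).card ≤ s - 1 := by
    intro u hu
    set f : Polynomial (ZMod p) := ∑ j : Fin s, Polynomial.C (u j) * Polynomial.X ^ j.1 with hf
    have hcoeff : ∀ j : Fin s, f.coeff j.1 = u j := by
      intro j
      rw [hf, Polynomial.finsetSum_coeff]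
      rw [Finset.sum_eq_single j]
      · simp
      · intro i _ hij
        rw [Polynomial.coeff_C_mul, Polynomial.coeff_X_pow, if_neg, mul_zero]
        intro h
        exact hij (Fin.ext h.symm)
      · simp
    have hf0 : f ≠ 0 := by
      intro h
      apply hu
      funext j
      rw [← hcoeff j, h]
      simp
    have hdeg : f.natDegree ≤ s - 1 := by
      rw [hf]
      apply Polynomial.natDegree_sum_le_of_forall_le
      intro j _
      have := j.2
      exact (Polynomial.natDegree_C_mul_X_pow_le _ _).trans (by omega)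
    have hsub : (Finset.univ.filter fun i => ev u i = 0).image pt ⊆ f.roots.toFinset := by
      intro x hx
      rw [Finset.mem_image] at hx
      obtain ⟨i, hi, rfl⟩ := hx
      rw [Finset.mem_filter] at hi
      rw [Multiset.mem_toFinset, Polynomial.mem_roots hf0, Polynomial.IsRoot.def, hf,
        Polynomial.eval_finsetSum]
      simpa using hi.2
    calc _ = ((Finset.univ.filter fun i => ev u i = 0).image pt).card :=
          (Finset.card_image_of_injective _ hpt).symm
      _ ≤ f.roots.toFinset.card := Finset.card_le_card hsub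
      _ ≤ Multiset.card f.roots := Multiset.toFinset_card_le _
      _ ≤ f.natDegree := Polynomial.card_roots' f
      _ ≤ s - 1 := hdeg
  exact of_geom (P := Fin k) (K := ZMod p) (M := Fin s → ZMod p) (q := p) (t := s - 1) (l := 0)
    (Fintype.card_fin _) (ZMod.card p) (by simp [ZMod.card]) hp2 (by omega) (by omega)
    (fun i hi => Finset.mem_range.mpr (by omega)) ev
    (fun u v i => by simp only [ev, Pi.sub_apply, sub_mul, Finset.sum_sub_distrib])
    (fun u hu => Or.inl (hz u hu))
    (fun u v hu _ _ => (Finset.card_le_card Finset.inter_subset_left).trans (hz u hu))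

end Pool.Agent.Helper138_LS
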