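import Pool.Agent.Helper138_LS.Code

/-!
Linear codes whose words have few zeros or exactly `l` zeros give `(n,k,{0,…,t,l})`-systems.
-/

set_option autoImplicit false

open Finset

namespace Pool.Agent.Helper138_LS

open Pool.Agent.H480R2.LS

theorem of_geom {P K M : Type} [Fintype P] [DecidableEq P] [Fintype K] [DecidableEq K] [Fintype M]
    [AddCommGroup K] [AddCommGroup M] {k s q t l : ℕ} {L : Finset ℕ} (hP : Fintype.card P = k)
    (hK : Fintype.card K = q) (hM : Fintype.card M = q ^ s) (hq : 2 ≤ q) (htk : t < k) (hlk : l < k)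
    (hL : ∀ i, (i ≤ t ∨ i = l) → i ∈ L) (ev : M → P → K)
    (hsub : ∀ u v p, ev (u - v) p = ev u p - ev v p)
    (h1 : ∀ u, u ≠ 0 → (Finset.univ.filter fun p => ev u p = 0).card ≤ t ∨
      (Finset.univ.filter fun p => ev u p = 0).card = l)
    (h2 : ∀ u v, u ≠ 0 → v ≠ 0 →
      (Finset.univ.filter fun p => ev u p = 0) ≠ (Finset.univ.filter fun p => ev v p = 0) →
      ((Finset.univ.filter fun p => ev u p = 0) ∩ (Finset.univ.filter fun p => ev v p = 0)).card ≤ t) :
    ∃ c : ℝ, 0 < c ∧ ∀ n : ℕ, k ≤ n → ∃ F : Finset (Finset (Fin n)),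
      (∀ A ∈ F, A.card = k) ∧ (∀ A ∈ F, ∀ B ∈ F, A ≠ B → (A ∩ B).card ∈ L) ∧
      c * (n : ℝ) ^ s ≤ F.card := by
  classical
  set Z : M → Finset P := fun u => Finset.univ.filter fun p => ev u p = 0 with hZ
  let eP : Fin k ≃ P := (Fintype.equivFinOfCardEq hP).symm
  let eK : K ≃ Fin q := Fintype.equivFinOfCardEq hK
  let word : M → Fin k → Fin q := fun u i => eK (ev u (eP i))
  let 𝒯 : Finset P → Prop := fun A => A.card ≤ t ∨ (A.card = l ∧ ∃ u, u ≠ 0 ∧ A = Z u)
  let T : Finset (Finset (Fin k)) := Finset.univ.filter fun A => 𝒯 (A.map eP.toEmbedding)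
  have hcl : ∀ A B, 𝒯 A → 𝒯 B → 𝒯 (A ∩ B) := by
    rintro A B (hA | ⟨hA, u, hu, rfl⟩) hB
    · exact Or.inl ((Finset.card_le_card Finset.inter_subset_left).trans hA)
    · rcases hB with hB | ⟨hB, v, hv, rfl⟩
      · exact Or.inl ((Finset.card_le_card Finset.inter_subset_right).trans hB)
      · by_cases huv : Z u = Z v
        · right
          rw [← huv, Finset.inter_self]
          exact ⟨hA, u, hu, rfl⟩
        · exact Or.inl (h2 u v hu hv huv)
  have hagr : ∀ u v, (agr (word u) (word v)).map eP.toEmbedding = Z (u - v) := by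
    intro u v
    ext p
    rw [Finset.mem_map]
    constructor
    · rintro ⟨i, hi, rfl⟩
      rw [mem_agr] at hi
      have := eK.injective hi
      simp only [hZ, Finset.mem_filter, Finset.mem_univ, true_and, hsub, sub_eq_zero]
      exact this
    · intro hp
      simp only [hZ, Finset.mem_filter, Finset.mem_univ, true_and, hsub, sub_eq_zero] at hp
      refine ⟨eP.symm p, ?_, by simp⟩
      rw [mem_agr]
      show eK (ev u (eP (eP.symm p))) = eK (ev v (eP (eP.symm p)))
      rw [eP.apply_symm_apply, hp]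
  have hword : ∀ u v, u ≠ v → 𝒯 ((agr (word u) (word v)).map eP.toEmbedding) := by
    intro u v huv
    have hne : u - v ≠ 0 := sub_ne_zero.mpr huv
    rw [hagr]
    rcases h1 _ hne with hh | hh
    · exact Or.inl hh
    · exact Or.inr ⟨hh, _, hne, rfl⟩
  have hinj : Function.Injective word := by
    intro u v huv
    by_contra hne
    have h3 := hword u v hne
    have h4 : agr (word u) (word v) = Finset.univ := by
      ext i
      simp [mem_agr, huv]
    rw [h4] at h3
    have h5 : ((Finset.univ : Finset (Fin k)).map eP.toEmbedding).card = k := by simp [hP]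
    rcases h3 with h3 | h3
    · omega
    · omega
  refine of_code (q := q) (s := s) (by omega) hq (Finset.univ.image word) T ?_ ?_ ?_ ?_
  · intro A hA B hB
    simp only [T, Finset.mem_filter, Finset.mem_univ, true_and] at hA hB ⊢
    rw [Finset.map_inter]
    exact hcl _ _ hA hB
  · intro A hA
    simp only [T, Finset.mem_filter, Finset.mem_univ, true_and] at hA
    apply hL
    rcases hA with hA | ⟨hA, _⟩
    · rw [Finset.card_map] at hA
      exact Or.inl hA
    · rw [Finset.card_map] at hA
      exact Or.inr hA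
  · intro f hf g hg hfg
    rw [Finset.mem_image] at hf hg
    obtain ⟨u, _, rfl⟩ := hf
    obtain ⟨v, _, rfl⟩ := hg
    simp only [T, Finset.mem_filter, Finset.mem_univ, true_and]
    exact hword u v (fun h => hfg (by rw [h]))
  · rw [Finset.card_image_of_injective _ hinj, Finset.card_univ, hM]

end Pool.Agent.Helper138_LS
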