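import Pool.Agent.Helper138_LS.PosPG
import Mathlib.FieldTheory.Finite.Extension

/-!
Truncations of projective and affine spaces over finite fields.
-/

set_option autoImplicit false

open Finset

namespace Pool.Agent.Helper138_LS

open Pool.Agent.H480R2.LS
open scoped LinearAlgebra.Projectivization

theorem roots_le {E : Type} [Field E] [Fintype E] {s N : ℕ} (e : Fin s → ℕ)
    (he : Function.Injective e) (hN : ∀ i, e i ≤ N) (u : Fin s → E) (hu : u ≠ 0) (A : Finset E)
    (hA : ∀ x ∈ A, ∑ i, u i * x ^ e i = 0) : A.card ≤ N := by
  classical
  set P : Polynomial E := ∑ i, Polynomial.C (u i) * Polynomial.X ^ e i with hP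
  have hcoeff : ∀ j, P.coeff (e j) = u j := by
    intro j
    rw [hP, Polynomial.finsetSum_coeff, Finset.sum_eq_single j]
    · rw [Polynomial.coeff_C_mul_X_pow, if_pos rfl]
    · intro i _ hij
      rw [Polynomial.coeff_C_mul_X_pow, if_neg (fun h => hij (he h).symm)]
    · intro h
      exact absurd (Finset.mem_univ j) h
  have hP0 : P ≠ 0 := by
    intro h
    apply hu
    funext j
    rw [← hcoeff j, h]
    simp
  have hdeg : P.natDegree ≤ N := by
    rw [hP]
    apply Polynomial.natDegree_sum_le_of_forall_le
    intro i _
    exact (Polynomial.natDegree_C_mul_X_pow_le _ _).trans (hN i)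
  have hsub : A ⊆ P.roots.toFinset := by
    intro x hx
    rw [Multiset.mem_toFinset, Polynomial.mem_roots hP0, Polynomial.IsRoot, hP,
      Polynomial.eval_finsetSum]
    rw [← hA x hx]
    apply Finset.sum_congr rfl
    intro i _
    simp
  calc A.card ≤ P.roots.toFinset.card := Finset.card_le_card hsub
    _ ≤ Multiset.card P.roots := Multiset.toFinset_card_le _
    _ ≤ P.natDegree := Polynomial.card_roots' P
    _ ≤ N := hdeg

/-- a proper subspace lies in a hyperplane -/
theorem exists_hyper {E : Type} [Field E] {s : ℕ} {W : Submodule E (Fin s → E)} (hW : W ≠ ⊤) :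
    ∃ u : Fin s → E, u ≠ 0 ∧ ∀ x ∈ W, ∑ i, u i * x i = 0 := by
  obtain ⟨f, hf, hf'⟩ := Submodule.exists_le_ker_of_lt_top W (lt_top_iff_ne_top.mpr hW)
  have h1 : ∀ x, f x = ∑ i, f (fun j => if i = j then 1 else 0) * x i := by
    intro x
    rw [LinearMap.pi_apply_eq_sum_univ f x]
    apply Finset.sum_congr rfl
    intro i _
    rw [smul_eq_mul, mul_comm]
  refine ⟨fun i => f (fun j => if i = j then 1 else 0), ?_, ?_⟩
  · intro h
    apply hf
    apply LinearMap.ext
    intro x
    rw [h1 x]
    simp only [LinearMap.zero_apply]
    apply Finset.sum_eq_zero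
    intro i _
    have := congrFun h i
    simp only [Pi.zero_apply] at this
    rw [this, zero_mul]
  · intro x hx
    rw [← h1 x]
    exact hf' hx

theorem proj_count {K V : Type} [Field K] [AddCommGroup V] [Module K V] (W : Submodule K V) :
    Nat.card {p : ℙ K V // p.rep ∈ W} = Nat.card (ℙ K W) := by
  symm
  apply Nat.card_congr
  have hinj : Function.Injective W.subtype := Subtype.val_injective
  refine Equiv.ofBijective (fun x => ⟨Projectivization.map W.subtype hinj x, ?_⟩) ⟨?_, ?_⟩
  · induction x using Projectivization.ind with
    | h w hw =>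
      rw [Projectivization.map_mk]
      obtain ⟨a, ha⟩ := Projectivization.exists_smul_eq_mk_rep K (W.subtype w)
        (map_zero W.subtype ▸ hinj.ne hw)
      rw [← ha]
      exact W.smul_mem _ w.2
  · intro x y hxy
    exact Projectivization.map_injective W.subtype hinj (congrArg Subtype.val hxy)
  · rintro ⟨p, hp⟩
    have h0 : (⟨p.rep, hp⟩ : W) ≠ 0 := by
      intro h
      exact p.rep_nonzero (congrArg Subtype.val h)
    refine ⟨Projectivization.mk K ⟨p.rep, hp⟩ h0, ?_⟩
    apply Subtype.ext
    show Projectivization.map W.subtype hinj (Projectivization.mk K ⟨p.rep, hp⟩ h0) = p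
    rw [Projectivization.map_mk]
    exact p.mk_rep

/-- a field with `q` elements and an extension of degree `d` -/
theorem exists_ext {q d : ℕ} (hq : IsPrimePow q) (hd : 1 ≤ d) :
    ∃ (F E : Type) (_ : Field F) (_ : Fintype F) (_ : Field E) (_ : Fintype E) (_ : Algebra F E),
      Fintype.card F = q ∧ Module.finrank F E = d ∧
      (∀ (i : ℕ) (x y : E), (x + y) ^ q ^ i = x ^ q ^ i + y ^ q ^ i) ∧
      (∀ (i : ℕ) (c : F), algebraMap F E c ^ q ^ i = algebraMap F E c) := by
  classical
  obtain ⟨p, m, hp, hm, rfl⟩ := (isPrimePow_nat_iff q).mp hq
  have : Fact p.Prime := ⟨hp⟩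
  have : NeZero d := ⟨by omega⟩
  let _ : Fintype (GaloisField p m) := Fintype.ofFinite _
  let _ : Fintype (FiniteField.Extension (GaloisField p m) p d) := Fintype.ofFinite _
  have hcard : Fintype.card (GaloisField p m) = p ^ m := by
    rw [← Nat.card_eq_fintype_card]
    exact GaloisField.card p m (by omega)
  have hchar : CharP (FiniteField.Extension (GaloisField p m) p d) p :=
    charP_of_injective_algebraMap (algebraMap (GaloisField p m)
      (FiniteField.Extension (GaloisField p m) p d)).injective p
  refine ⟨GaloisField p m, FiniteField.Extension (GaloisField p m) p d, inferInstance, inferInstance,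
    inferInstance, inferInstance, inferInstance, hcard, FiniteField.finrank_extension _ _ _, ?_, ?_⟩
  · intro i x y
    rw [← pow_mul]
    exact add_pow_char_pow ..
  · intro i c
    rw [← map_pow, ← hcard, FiniteField.pow_card_pow]

theorem pgTr {q s d : ℕ} (hq : IsPrimePow q) (hs : 1 ≤ s) (hsd : s ≤ d) :
    Att (pgp q d) ((Finset.range s).image (pgp q)) s := by
  classical
  obtain ⟨F, E, _, _, _, _, _, hF, hE, hadd, hfix⟩ := exists_ext hq (show 1 ≤ d by omega)
  have hq2 : 2 ≤ q := hq.two_le
  let _ : Fintype (ℙ F E) := Fintype.ofFinite _
  apply repr_att (K := E) (P := ℙ F E) (v := fun p => fun i : Fin s => p.rep ^ q ^ (i : ℕ))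
  · rw [← Nat.card_eq_fintype_card, Projectivization.card_of_finrank F _ hE, pgp,
      Nat.card_eq_fintype_card, hF]
  · have := pgp_lt (m := q) (by omega) (show 0 < d by omega)
    rw [pgp_zero] at this
    exact this
  · intro h
    rw [Finset.mem_image] at h
    obtain ⟨i, hi, h⟩ := h
    have := pgp_lt (m := q) (by omega) (show i < d by have := Finset.mem_range.mp hi; omega)
    omega
  · intro W hW
    let U : Submodule F E :=
      { carrier := {x | (fun i : Fin s => x ^ q ^ (i : ℕ)) ∈ W}
        add_mem' := by
          intro x y hx hy
          have : (fun i : Fin s => (x + y) ^ q ^ (i : ℕ)) =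
              (fun i : Fin s => x ^ q ^ (i : ℕ)) + (fun i : Fin s => y ^ q ^ (i : ℕ)) := by
            funext i
            exact hadd _ x y
          show (fun i : Fin s => (x + y) ^ q ^ (i : ℕ)) ∈ W
          rw [this]
          exact W.add_mem hx hy
        zero_mem' := by
          show (fun i : Fin s => (0 : E) ^ q ^ (i : ℕ)) ∈ W
          have : (fun i : Fin s => (0 : E) ^ q ^ (i : ℕ)) = 0 := by
            funext i
            exact zero_pow (by positivity)
          rw [this]
          exact W.zero_mem
        smul_mem' := by
          intro c x hx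
          have : (fun i : Fin s => (c • x) ^ q ^ (i : ℕ)) =
              algebraMap F E c • (fun i : Fin s => x ^ q ^ (i : ℕ)) := by
            funext i
            rw [Algebra.smul_def, mul_pow, hfix, Pi.smul_apply, smul_eq_mul]
          show (fun i : Fin s => (c • x) ^ q ^ (i : ℕ)) ∈ W
          rw [this]
          exact W.smul_mem _ hx }
    have hU : ∀ x, x ∈ U ↔ (fun i : Fin s => x ^ q ^ (i : ℕ)) ∈ W := fun _ => Iff.rfl
    obtain ⟨u, hu, hu'⟩ := exists_hyper hW
    have hcard : Nat.card U ≤ q ^ (s - 1) := by
      rw [Nat.card_eq_fintype_card, Fintype.card_subtype]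
      apply roots_le (fun i : Fin s => q ^ (i : ℕ)) _ _ u hu
      · intro x hx
        rw [Finset.mem_filter] at hx
        exact hu' _ ((hU x).mp hx.2)
      · intro i j hij
        exact Fin.ext (Nat.pow_right_injective hq2 hij)
      · intro i
        exact Nat.pow_le_pow_right (by omega) (by omega)
    have hpow : Nat.card U = q ^ Module.finrank F U := by
      rw [Module.natCard_eq_pow_finrank (K := F), Nat.card_eq_fintype_card, hF]
    rw [hpow] at hcard
    have hlt : Module.finrank F U < s := by
      have := (Nat.pow_le_pow_iff_right (show 1 < q by omega)).mp hcard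
      omega
    rw [Finset.mem_image]
    refine ⟨Module.finrank F U, Finset.mem_range.mpr hlt, ?_⟩
    have h1 := proj_count U
    have h2 := Projectivization.card_of_finrank F U rfl
    rw [Nat.card_eq_fintype_card (α := F), hF] at h2
    rw [pgp, ← h2, ← h1]
    rfl

theorem agTr {q r d : ℕ} (hq : IsPrimePow q) (hd : 1 ≤ d) (hrd : r ≤ d) :
    Att (q ^ d) (insert 0 ((Finset.range r).image (q ^ ·))) (r + 1) := by
  classical
  obtain ⟨F, E, _, _, _, _, _, hF, hE, hadd, hfix⟩ := exists_ext hq hd
  have hq2 : 2 ≤ q := hq.two_le
  have hlt : ∀ {i j : ℕ}, i < j → q ^ i < q ^ j := fun h => Nat.pow_lt_pow_right (by omega) h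
  have hcE : Fintype.card E = q ^ d := by
    rw [← Nat.card_eq_fintype_card, Module.natCard_eq_pow_finrank (K := F), Nat.card_eq_fintype_card, hF, hE]
  apply repr_att (K := E) (P := E) (v := fun x => (Fin.cons 1 (fun i : Fin r => x ^ q ^ (i : ℕ)) : Fin (r + 1) → E))
    hcE
  · exact Nat.one_le_pow _ _ (by omega)
  · intro h
    rw [Finset.mem_insert, Finset.mem_image] at h
    rcases h with h | ⟨i, hi, h⟩
    · have : 0 < q ^ d := by positivity
      omega
    · have := hlt (show i < d by have := Finset.mem_range.mp hi; omega)
      omega
  · intro W hW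
    rw [Finset.mem_insert]
    set v : E → (Fin (r + 1) → E) := fun x => Fin.cons 1 (fun i : Fin r => x ^ q ^ (i : ℕ)) with hv
    set w : E → (Fin (r + 1) → E) := fun x => Fin.cons 0 (fun i : Fin r => x ^ q ^ (i : ℕ)) with hw
    have hvw : ∀ x y, v (x + y) = v x + w y := by
      intro x y
      funext i
      refine Fin.cases ?_ (fun j => ?_) i
      · simp [hv, hw]
      · simp only [hv, hw, Fin.cons_succ, Pi.add_apply]
        exact hadd _ x y
    have hww : ∀ x y, w (x + y) = w x + w y := by
      intro x y
      funext i
      refine Fin.cases ?_ (fun j => ?_) i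
      · simp [hw]
      · simp only [hw, Fin.cons_succ, Pi.add_apply]
        exact hadd _ x y
    have hw0 : w 0 = 0 := by
      funext i
      refine Fin.cases ?_ (fun j => ?_) i
      · simp [hw]
      · simp only [hw, Fin.cons_succ, Pi.zero_apply]
        exact zero_pow (by positivity)
    have hws : ∀ (c : F) x, w (c • x) = algebraMap F E c • w x := by
      intro c x
      funext i
      refine Fin.cases ?_ (fun j => ?_) i
      · simp [hw]
      · simp only [hw, Fin.cons_succ, Pi.smul_apply, smul_eq_mul]
        rw [Algebra.smul_def, mul_pow, hfix]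
    rcases isEmpty_or_nonempty {x : E // v x ∈ W} with he | ⟨⟨x0, hx0⟩⟩
    · left
      exact Nat.card_of_isEmpty
    · right
      let U : Submodule F E :=
        { carrier := {x | w x ∈ W}
          add_mem' := by
            intro x y hx hy
            show w (x + y) ∈ W
            rw [hww]
            exact W.add_mem hx hy
          zero_mem' := by
            show w 0 ∈ W
            rw [hw0]
            exact W.zero_mem
          smul_mem' := by
            intro c x hx
            show w (c • x) ∈ W
            rw [hws]
            exact W.smul_mem _ hx }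
      have hU : ∀ x, x ∈ U ↔ w x ∈ W := fun _ => Iff.rfl
      have hcardUV : Nat.card U = Nat.card {x : E // v x ∈ W} := by
        apply Nat.card_congr
        refine Equiv.ofBijective (fun x => ⟨x0 + x.1, ?_⟩) ⟨?_, ?_⟩
        · rw [hvw]
          exact W.add_mem hx0 ((hU _).mp x.2)
        · intro x y hxy
          have := congrArg Subtype.val hxy
          exact Subtype.ext (add_left_cancel this)
        · rintro ⟨y, hy⟩
          refine ⟨⟨y - x0, ?_⟩, ?_⟩
          · rw [hU]
            have h2 := hvw x0 (y - x0)
            rw [add_sub_cancel] at h2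
            rw [h2] at hy
            exact (W.add_mem_iff_right hx0).mp hy
          · apply Subtype.ext
            show x0 + (y - x0) = y
            rw [add_sub_cancel]
      obtain ⟨u, hu, hu'⟩ := exists_hyper hW
      have hr0 : 0 < r := by
        by_contra hcon
        have hr : r = 0 := by omega
        subst hr
        apply hu
        funext i
        have h1 := hu' _ hx0
        rw [Fin.sum_univ_succ] at h1
        simp only [hv, Fin.cons_zero, mul_one, Finset.univ_eq_empty, Finset.sum_empty, add_zero] at h1
        have : i = 0 := Fin.ext (by have := i.2; simp only [Fin.val_zero]; omega)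
        rw [this, h1]
        rfl
      have hcard : Nat.card U ≤ q ^ (r - 1) := by
        rw [hcardUV, Nat.card_eq_fintype_card, Fintype.card_subtype]
        have hve : ∀ x : E, v x = fun i => x ^ (Fin.cons 0 (fun i : Fin r => q ^ (i : ℕ)) : Fin (r + 1) → ℕ) i := by
          intro x
          funext i
          refine Fin.cases ?_ (fun j => ?_) i <;> simp [hv]
        apply roots_le (Fin.cons 0 (fun i : Fin r => q ^ (i : ℕ)) : Fin (r + 1) → ℕ) _ _ u hu
        · intro x hx
          rw [Finset.mem_filter] at hx
          have h1 := hu' _ hx.2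
          rw [hve] at h1
          exact h1
        · intro i j
          refine Fin.cases ?_ (fun i => ?_) i <;> refine Fin.cases ?_ (fun j => ?_) j
          · intro _
            rfl
          · intro h
            simp only [Fin.cons_zero, Fin.cons_succ] at h
            have : 0 < q ^ (j : ℕ) := by positivity
            omega
          · intro h
            simp only [Fin.cons_zero, Fin.cons_succ] at h
            have : 0 < q ^ (i : ℕ) := by positivity
            omega
          · intro h
            simp only [Fin.cons_succ] at h
            rw [Fin.ext (Nat.pow_right_injective hq2 h)]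
        · intro i
          refine Fin.cases ?_ (fun j => ?_) i
          · simp
          · simp only [Fin.cons_succ]
            exact Nat.pow_le_pow_right (by omega) (by omega)
      have hpow : Nat.card U = q ^ Module.finrank F U := by
        rw [Module.natCard_eq_pow_finrank (K := F), Nat.card_eq_fintype_card, hF]
      have hcard' := hcard
      rw [hpow] at hcard'
      have hlt' : Module.finrank F U < r := by
        have := (Nat.pow_le_pow_iff_right (show 1 < q by omega)).mp hcard'
        omega
      rw [Finset.mem_image]
      refine ⟨Module.finrank F U, Finset.mem_range.mpr hlt', ?_⟩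
      show q ^ Module.finrank F U = _
      rw [← hpow, hcardUV]

end Pool.Agent.Helper138_LS
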