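import Pool.Agent.Helper138_LS.Vamos

/-!
From relations to `(n,k,L)`-systems: the power saving for `|L| = 4`, and links.
-/

set_option autoImplicit false

open Finset

namespace Pool.Agent.Helper138_LS

open Pool.Agent.H480R2.LS

theorem rel_card_det3 {k n : ℕ} {T : Finset (Finset (Fin k))} {R : Finset (Fin k → Fin n)}
    (hR : PatIn R T) {x y z : Fin k} (h : ∀ A ∈ T, ¬ (x ∈ A ∧ y ∈ A ∧ z ∈ A)) : R.card ≤ n ^ 3 := by
  classical
  have h1 : R.card ≤ (Finset.univ : Finset (Fin n × Fin n × Fin n)).card := by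
    apply Finset.card_le_card_of_injOn (fun f => (f x, f y, f z))
    · intro _ _
      simp
    · intro f hf g hg hfg
      simp only [Prod.mk.injEq] at hfg
      by_contra hne
      exact h _ (hR f hf g hg hne) ⟨mem_agr.mpr hfg.1, mem_agr.mpr hfg.2.1, mem_agr.mpr hfg.2.2⟩
  calc _ ≤ _ := h1
    _ = n ^ 3 := by simp [Finset.card_univ]; ring

theorem pow8_le {x : ℝ} {n : ℕ} (hx : 0 ≤ x) (h : 9 * x ^ 8 ≤ 1024 * (n : ℝ) ^ 31) :
    x ≤ 2 * (n : ℝ) ^ (31 / 8 : ℝ) := by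
  have hn : (0:ℝ) ≤ n := Nat.cast_nonneg n
  have h1 : (2 * (n : ℝ) ^ (31 / 8 : ℝ)) ^ 8 = 256 * (n:ℝ) ^ 31 := by
    rw [mul_pow, ← Real.rpow_natCast ((n:ℝ) ^ (31 / 8 : ℝ)) 8, ← Real.rpow_mul hn]
    norm_num
  have h2 : x ^ 8 ≤ (2 * (n : ℝ) ^ (31 / 8 : ℝ)) ^ 8 := by
    rw [h1]
    have : (0:ℝ) ≤ (n:ℝ) ^ 31 := by positivity
    linarith
  exact le_of_pow_le_pow_left₀ (by norm_num) (by positivity) h2

/-- the power saving for systems -/
theorem sys_bound {k : ℕ} {L : Finset ℕ} (hk : 1 ≤ k) (hL : L ⊆ Finset.range k)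
    (H : ∀ T : Finset (Finset (Fin k)), (∀ A ∈ T, A.card ∈ L) → IC T →
      (∃ x y z : Fin k, ∀ A ∈ T, ¬ (x ∈ A ∧ y ∈ A ∧ z ∈ A)) ∨
      ∃ a1 a2 b1 b2 c1 c2 d1 d2, Vam T a1 a2 b1 b2 c1 c2 d1 d2) :
    ∃ C : ℝ, 0 < C ∧ ∀ (n : ℕ) (F : Finset (Finset (Fin n))), Sys n k L F →
      (F.card : ℝ) ≤ C * (n : ℝ) ^ (31 / 8 : ℝ) := by
  classical
  refine ⟨(k:ℝ) ^ k * (Kc k (TL k L).card : ℝ) * 2 + 1, by positivity, ?_⟩
  intro n F hF
  have hn0 : (0:ℝ) ≤ n := Nat.cast_nonneg n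
  have hpow : (0:ℝ) ≤ (n:ℝ) ^ (31 / 8 : ℝ) := by positivity
  rcases Nat.eq_zero_or_pos n with rfl | hn
  · have : F = ∅ := by
      rw [Finset.eq_empty_iff_forall_notMem]
      intro A hA
      have h1 := hF.1 A hA
      have h2 := Finset.card_le_univ A
      simp at h2
      rw [h2] at h1
      simp at h1
      omega
    rw [this]
    simp only [Finset.card_empty, Nat.cast_zero]
    positivity
  obtain ⟨R, hR, hFR⟩ := rainbow hk hF
  obtain ⟨S, hS, hRS, T, hT, hI, hP⟩ := furedi (TL k L) (univ_notMem_TL hL) R hR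
  have hTL : ∀ A ∈ T, A.card ∈ L := by
    intro A hA
    have := hT hA
    rw [TL, Finset.mem_filter] at this
    exact this.2
  have hSb : (S.card : ℝ) ≤ 2 * (n:ℝ) ^ (31 / 8 : ℝ) := by
    rcases H T hTL hI with ⟨x, y, z, h⟩ | ⟨a1, a2, b1, b2, c1, c2, d1, d2, hV⟩
    · have h1 := rel_card_det3 hP h
      have h2 : (S.card : ℝ) ≤ (n:ℝ) ^ 3 := by exact_mod_cast h1
      have h3 : (n:ℝ) ^ 3 ≤ (n:ℝ) ^ (31 / 8 : ℝ) := by
        rw [← Real.rpow_natCast]
        apply Real.rpow_le_rpow_of_exponent_le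
        · exact_mod_cast hn
        · norm_num
      linarith
    · exact pow8_le (Nat.cast_nonneg _) (vamos_rel hP hV)
  have h1 : (F.card : ℝ) ≤ (k:ℝ) ^ k * ((Kc k (TL k L).card : ℝ) * (S.card : ℝ)) := by
    have h2 : F.card ≤ k ^ k * (Kc k (TL k L).card * S.card) :=
      hFR.trans (Nat.mul_le_mul_left _ hRS)
    exact_mod_cast h2
  calc (F.card : ℝ) ≤ (k:ℝ) ^ k * ((Kc k (TL k L).card : ℝ) * (S.card : ℝ)) := h1
    _ ≤ (k:ℝ) ^ k * ((Kc k (TL k L).card : ℝ) * (2 * (n:ℝ) ^ (31 / 8 : ℝ))) := by gcongr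
    _ = ((k:ℝ) ^ k * (Kc k (TL k L).card : ℝ) * 2) * (n:ℝ) ^ (31 / 8 : ℝ) := by ring
    _ ≤ ((k:ℝ) ^ k * (Kc k (TL k L).card : ℝ) * 2 + 1) * (n:ℝ) ^ (31 / 8 : ℝ) := by
        apply mul_le_mul_of_nonneg_right _ hpow
        linarith

/-- links: `(k+1) m(n,k+1,L) ≤ n m(n,k,L')`, where `L'` contains all `l` with `l + 1 ∈ L` -/
theorem link_bound {n k : ℕ} {L L' : Finset ℕ} (hL : ∀ l, l + 1 ∈ L → l ∈ L')
    {F : Finset (Finset (Fin n))} (hF : Sys n (k + 1) L F) {B : ℝ}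
    (hB : ∀ G : Finset (Finset (Fin n)), Sys n k L' G → (G.card : ℝ) ≤ B) :
    ((k:ℝ) + 1) * (F.card : ℝ) ≤ n * B := by
  classical
  have h1 : ∀ x : Fin n, ((F.filter fun A => x ∈ A).card : ℝ) ≤ B := by
    intro x
    have hinj : Set.InjOn (fun A : Finset (Fin n) => A.erase x) (F.filter fun A => x ∈ A) := by
      intro A hA B hB hAB
      rw [Finset.mem_coe, Finset.mem_filter] at hA hB
      simp only at hAB
      rw [← Finset.insert_erase hA.2, ← Finset.insert_erase hB.2, hAB]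
    have h2 := hB ((F.filter fun A => x ∈ A).image fun A => A.erase x) ⟨?_, ?_⟩
    · rw [Finset.card_image_of_injOn hinj] at h2
      exact h2
    · intro A hA
      rw [Finset.mem_image] at hA
      obtain ⟨A', hA', rfl⟩ := hA
      rw [Finset.mem_filter] at hA'
      rw [Finset.card_erase_of_mem hA'.2, hF.1 A' hA'.1]
      rfl
    · intro A hA B hB hAB
      rw [Finset.mem_image] at hA hB
      obtain ⟨A', hA', rfl⟩ := hA
      obtain ⟨B', hB', rfl⟩ := hB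
      rw [Finset.mem_filter] at hA' hB'
      have hne : A' ≠ B' := fun h => hAB (by rw [h])
      have h3 := hF.2 A' hA'.1 B' hB'.1 hne
      have h4 : A'.erase x ∩ B'.erase x = (A' ∩ B').erase x := by
        ext t
        simp only [Finset.mem_inter, Finset.mem_erase]
        tauto
      have hx : x ∈ A' ∩ B' := Finset.mem_inter.mpr ⟨hA'.2, hB'.2⟩
      rw [h4, Finset.card_erase_of_mem hx]
      apply hL
      rw [Nat.sub_add_cancel (Finset.card_pos.mpr ⟨x, hx⟩)]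
      exact h3
  have h2 : ∑ x : Fin n, (F.filter fun A => x ∈ A).card = ∑ A ∈ F, A.card := by
    simp_rw [Finset.card_filter]
    rw [Finset.sum_comm]
    apply Finset.sum_congr rfl
    intro A _
    rw [← Finset.card_filter]
    congr 1
    ext x
    simp
  have h3 : ∑ A ∈ F, A.card = F.card * (k + 1) := by
    rw [Finset.sum_congr rfl (fun A hA => hF.1 A hA), Finset.sum_const, smul_eq_mul]
  have h4 : ((k:ℝ) + 1) * (F.card : ℝ) = ∑ x : Fin n, ((F.filter fun A => x ∈ A).card : ℝ) := by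
    have h5 : ((F.card * (k + 1) : ℕ) : ℝ) = ((∑ x : Fin n, (F.filter fun A => x ∈ A).card : ℕ) : ℝ) := by
      rw [h2, h3]
    push_cast at h5
    rw [← h5]; ring
  rw [h4]
  calc ∑ x : Fin n, ((F.filter fun A => x ∈ A).card : ℝ) ≤ ∑ x : Fin n, B :=
        Finset.sum_le_sum fun x _ => h1 x
    _ = n * B := by rw [Finset.sum_const, Finset.card_univ, Fintype.card_fin, nsmul_eq_mul]

end Pool.Agent.Helper138_LS
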