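import Pool.Agent.Helper138_LS.RelR

/-!
Power savings for relations: counting arguments.
-/

set_option autoImplicit false

open Finset

namespace Pool.Agent.Helper138_LS

open Pool.Agent.H480R2.LS

/-- blocks of a Steiner system -/
theorem steiner_count {k t l : ℕ} {T : Finset (Finset (Fin k))} (hI : IC T) (_htl : t ≤ l)
    (hT : ∀ A ∈ T, A.card ∈ insert l (Finset.range t))
    (hcov : ∀ X : Finset (Fin k), X.card ≤ t → ∃ A ∈ T, X ⊆ A) : l.choose t ∣ k.choose t := by
  classical
  have hbig : ∀ A ∈ T, t ≤ A.card → A.card = l := by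
    intro A hA h
    have := hT A hA
    rw [Finset.mem_insert, Finset.mem_range] at this
    omega
  have h1 : Finset.powersetCard t (Finset.univ : Finset (Fin k)) =
      (T.filter fun A => A.card = l).biUnion fun A => Finset.powersetCard t A := by
    ext X
    rw [Finset.mem_powersetCard, Finset.mem_biUnion]
    constructor
    · rintro ⟨_, hX⟩
      obtain ⟨A, hA, hXA⟩ := hcov X hX.le
      refine ⟨A, Finset.mem_filter.mpr ⟨hA, hbig A hA ?_⟩, Finset.mem_powersetCard.mpr ⟨hXA, hX⟩⟩
      rw [← hX]
      exact Finset.card_le_card hXA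
    · rintro ⟨A, _, hX⟩
      exact ⟨Finset.subset_univ _, (Finset.mem_powersetCard.mp hX).2⟩
  have h2 : (Finset.powersetCard t (Finset.univ : Finset (Fin k))).card = k.choose t := by
    rw [Finset.card_powersetCard, Finset.card_univ, Fintype.card_fin]
  rw [← h2, h1, Finset.card_biUnion]
  · have h3 : ∀ A ∈ (T.filter fun A => A.card = l), (Finset.powersetCard t A).card = l.choose t := by
      intro A hA
      rw [Finset.card_powersetCard, (Finset.mem_filter.mp hA).2]
    rw [Finset.sum_congr rfl h3, Finset.sum_const, smul_eq_mul]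
    exact dvd_mul_left _ _
  · intro A hA B hB hAB
    rw [Finset.mem_coe, Finset.mem_filter] at hA hB
    show Disjoint (Finset.powersetCard t A) (Finset.powersetCard t B)
    rw [Finset.disjoint_left]
    intro X hX1 hX2
    rw [Finset.mem_powersetCard] at hX1 hX2
    have h4 : t ≤ (A ∩ B).card := by
      rw [← hX1.2]
      exact Finset.card_le_card (Finset.subset_inter hX1.1 hX2.1)
    have h5 := hbig _ (hI A hA.1 B hB.1) h4
    have h6 : A ∩ B = A := Finset.eq_of_subset_of_card_le Finset.inter_subset_left (by omega)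
    have h7 : A ∩ B = B := Finset.eq_of_subset_of_card_le Finset.inter_subset_right (by omega)
    exact hAB (h6.symm.trans h7)

theorem RB.steiner {k t l : ℕ} (htl : t ≤ l) (h : ¬ l.choose t ∣ k.choose t) :
    RB k (insert l (Finset.range t)) (t + 1) :=
  RB.of_cover (by omega) fun _ hI hT hcov => h (steiner_count hI htl hT hcov)

theorem fisher {k l : ℕ} {T : Finset (Finset (Fin k))} (hI : IC T)
    (hT : ∀ A ∈ T, A.card ∈ ({0, 1, l} : Finset ℕ))
    (hcov : ∀ x y : Fin k, x ≠ y → ∃ A ∈ T, x ∈ A ∧ y ∈ A) (hl : 2 ≤ l) (hlk : l < k) :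
    l * (l - 1) ≤ k - 1 := by
  classical
  obtain ⟨A, hA, h1, h2⟩ := hcov ⟨0, by omega⟩ ⟨1, by omega⟩ (by simp)
  have hAc := cardT hT hA (by simp) h1 h2
  obtain ⟨p, hp⟩ : ((Finset.univ : Finset (Fin k)) \ A).Nonempty := by
    rw [← Finset.card_pos]
    have e1 := Finset.le_card_sdiff A (Finset.univ : Finset (Fin k))
    rw [Finset.card_univ, Fintype.card_fin] at e1
    omega
  replace hp := (Finset.mem_sdiff.mp hp).2
  have h3 : ∀ a ∈ A, ∃ B, B ∈ T.filter (fun B => B.card = l ∧ p ∈ B) ∧ a ∈ B := by
    intro a ha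
    have hpa : p ≠ a := by rintro rfl; exact hp ha
    obtain ⟨B, hB, e1, e2⟩ := hcov p a hpa
    exact ⟨B, Finset.mem_filter.mpr ⟨hB, cardT hT hB hpa e1 e2, e1⟩, e2⟩
  choose! ln hln1 hln2 using h3
  have h4 : A.card ≤ (T.filter fun B => B.card = l ∧ p ∈ B).card := by
    apply Finset.card_le_card_of_injOn ln
    · intro a ha
      exact hln1 a ha
    · intro a ha b hb hab
      by_contra hne
      have e1 := Finset.mem_filter.mp (hln1 a ha)
      have e2 : b ∈ ln a := by rw [hab]; exact hln2 b hb
      have e3 := sameT hI hT hA e1.1 hne ha hb (hln2 a ha) e2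
      rw [← e3] at e1
      exact hp e1.2.2
  have h5 := count_point hI hT hcov hl p
  rw [← h5]
  apply Nat.mul_le_mul_right
  omega

theorem RB.fisher {k l : ℕ} (hl : 2 ≤ l) (hlk : l < k) (h : k - 1 < l * (l - 1)) : RB k {0, 1, l} 3 := by
  classical
  apply RB.of_cover (by norm_num)
  intro T hI hT hcov
  have := Helper138_LS.fisher hI hT (fun x y hxy => by
    obtain ⟨A, hA, hX⟩ := hcov {x, y} (by rw [Finset.card_pair hxy])
    exact ⟨A, hA, hX (Finset.mem_insert_self _ _), hX (Finset.mem_insert_of_mem (Finset.mem_singleton_self _))⟩)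
    hl hlk
  omega

theorem RB_thirteen : RB 13 {0, 1, 3} 3 := by
  obtain ⟨e, he, he1, C, hC, h⟩ := rel13_bound
  refine ⟨e, he, he1, max C 1, le_max_right _ _, fun n hn T R hI hT hR => ?_⟩
  have h1 := h T hT hI n hn R hR
  have h2 : (0 : ℝ) ≤ (n : ℝ) ^ (((3 : ℕ) : ℝ) - e) := by positivity
  push_cast at h2 ⊢
  exact h1.trans (mul_le_mul_of_nonneg_right (le_max_left _ _) h2)

/-- **Planes that are too small.** -/
theorem RB.small_plane {k g m : ℕ} (hg : 2 ≤ g) (hm : 3 ≤ m)
    (hL : insert 0 ((Finset.range m).image fun i => 1 + g * i) ⊆ Finset.range k) :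
    RB k (insert 0 ((Finset.range m).image fun i => 1 + g * i)) (m + 1) := by
  classical
  set L := insert 0 ((Finset.range m).image fun i => 1 + g * i) with hLdef
  apply RB.of_cover (by omega)
  intro T hI hT hcov
  rw [Nat.add_sub_cancel] at hcov
  have hne : ∀ A ∈ T, A ≠ Finset.univ := by
    rintro A hA rfl
    have := hL (hT _ hA)
    simp at this
  have hcl : ∀ X : Finset (Fin k), X.card ≤ m → ∃ C ∈ T, X ⊆ C ∧ ∀ A ∈ T, X ⊆ A → C ⊆ A :=
    fun X hX => cl_exists hI X (hcov X hX)
  choose! cl cl1 cl2 cl3 using hcl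
  -- many larger sizes
  have chain : ∀ d j : ℕ, j + d = m → ∀ X : Finset (Fin k), X.card ≤ j →
      d ≤ (L.filter fun l => (cl X).card < l).card := by
    intro d
    induction d with
    | zero => intro j _ X _; exact Nat.zero_le _
    | succ d ih =>
      intro j hj X hX
      have hXm : X.card ≤ m := by omega
      obtain ⟨z, hz⟩ : ∃ z, z ∉ cl X := by
        by_contra hcon
        push Not at hcon
        exact hne _ (cl1 X hXm) (Finset.eq_univ_iff_forall.mpr hcon)
      have hX' : (insert z X).card ≤ j + 1 := (Finset.card_insert_le _ _).trans (by omega)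
      have hX'm : (insert z X).card ≤ m := by omega
      have h1 := ih (j + 1) (by omega) (insert z X) hX'
      have h2 : cl X ⊆ cl (insert z X) :=
        cl3 X hXm _ (cl1 _ hX'm) ((Finset.subset_insert _ _).trans (cl2 _ hX'm))
      have h3 : (cl X).card < (cl (insert z X)).card := by
        apply Finset.card_lt_card
        refine ⟨h2, fun h => hz (h (cl2 _ hX'm (Finset.mem_insert_self _ _)))⟩
      have h4 : insert (cl (insert z X)).card (L.filter fun l => (cl (insert z X)).card < l) ⊆
          L.filter fun l => (cl X).card < l := by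
        intro l hl
        rw [Finset.mem_insert] at hl
        rcases hl with rfl | hl
        · exact Finset.mem_filter.mpr ⟨hT _ (cl1 _ hX'm), h3⟩
        · rw [Finset.mem_filter] at hl ⊢
          exact ⟨hl.1, h3.trans hl.2⟩
      have h5 := Finset.card_le_card h4
      rw [Finset.card_insert_of_notMem (by simp)] at h5
      omega
  -- few larger sizes
  have few : ∀ c i : ℕ, 1 + g * i ≤ c → (L.filter fun l => c < l).card ≤ m - 1 - i := by
    intro c i hc
    have h1 : (L.filter fun l => c < l) ⊆ (Finset.Ico (i + 1) m).image fun j => 1 + g * j := by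
      intro l hl
      rw [Finset.mem_filter, hLdef, Finset.mem_insert, Finset.mem_image] at hl
      rcases hl with ⟨rfl | ⟨j, hj, rfl⟩, hlt⟩
      · omega
      · rw [Finset.mem_image]
        refine ⟨j, ?_, rfl⟩
        rw [Finset.mem_range] at hj
        rw [Finset.mem_Ico]
        refine ⟨?_, hj⟩
        by_contra hji
        have : g * j ≤ g * i := Nat.mul_le_mul_left _ (by omega)
        omega
    calc _ ≤ _ := Finset.card_le_card h1
      _ ≤ (Finset.Ico (i + 1) m).card := Finset.card_image_le
      _ = m - 1 - i := by rw [Nat.card_Ico]; omega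
  have hmem : ∀ A ∈ T, A.card = 0 ∨ ∃ i < m, A.card = 1 + g * i := by
    intro A hA
    have := hT A hA
    rw [hLdef, Finset.mem_insert, Finset.mem_image] at this
    rcases this with h | ⟨i, hi, h⟩
    · exact Or.inl h
    · exact Or.inr ⟨i, Finset.mem_range.mp hi, h.symm⟩
  -- lines
  have line : ∀ x y : Fin k, x ≠ y → (cl {x, y}).card = 1 + g := by
    intro x y hxy
    have hc : ({x, y} : Finset (Fin k)).card = 2 := Finset.card_pair hxy
    have h1 := chain (m - 2) 2 (by omega) {x, y} hc.le
    have h2 : 2 ≤ (cl {x, y}).card := by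
      rw [← hc]
      exact Finset.card_le_card (cl2 _ (by omega))
    rcases hmem _ (cl1 {x, y} (by omega)) with h | ⟨i, hi, h⟩
    · omega
    · have h3 := few _ i h.ge
      have h4 : i ≤ 1 := by omega
      interval_cases i
      · omega
      · omega
  have luniq : ∀ {x y : Fin k} {A : Finset (Fin k)}, x ≠ y → A ∈ T → A.card = 1 + g → x ∈ A → y ∈ A →
      cl {x, y} = A := by
    intro x y A hxy hA hAc hx hy
    apply Finset.eq_of_subset_of_card_le
    · apply cl3 _ (by rw [Finset.card_pair hxy]; omega) _ hA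
      intro z hz
      simp only [Finset.mem_insert, Finset.mem_singleton] at hz
      rcases hz with rfl | rfl
      · exact hx
      · exact hy
    · rw [line x y hxy, hAc]
  have lmem : ∀ {x y : Fin k}, x ≠ y → cl {x, y} ∈ T ∧ x ∈ cl {x, y} ∧ y ∈ cl {x, y} := by
    intro x y hxy
    have h : ({x, y} : Finset (Fin k)).card ≤ m := by rw [Finset.card_pair hxy]; omega
    exact ⟨cl1 _ h, cl2 _ h (Finset.mem_insert_self _ _),
      cl2 _ h (Finset.mem_insert_of_mem (Finset.mem_singleton_self _))⟩
  have hk : 2 ≤ k := by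
    have h1 : 1 ∈ L := by
      rw [hLdef, Finset.mem_insert, Finset.mem_image]
      exact Or.inr ⟨0, Finset.mem_range.mpr (by omega), by ring⟩
    have := Finset.mem_range.mp (hL h1)
    omega
  set x : Fin k := ⟨0, by omega⟩ with hx
  set y : Fin k := ⟨1, by omega⟩ with hy
  have hxy : x ≠ y := by simp [hx, hy]
  obtain ⟨tA, xA, yA⟩ := lmem hxy
  have cA := line x y hxy
  set A := cl {x, y} with hA
  obtain ⟨z, hz⟩ : ∃ z, z ∉ A := by
    by_contra hcon
    push Not at hcon
    exact hne _ tA (Finset.eq_univ_iff_forall.mpr hcon)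
  have hxz : x ≠ z := by rintro h; exact hz (h ▸ xA)
  have hyz : y ≠ z := by rintro h; exact hz (h ▸ yA)
  obtain ⟨tB, xB, zB⟩ := lmem hxz
  have cB := line x z hxz
  obtain ⟨tD, yD, zD⟩ := lmem hyz
  have cD := line y z hyz
  set B := cl {x, z} with hB
  set D := cl {y, z} with hD
  have hAB : A ∩ B = {x} := by
    rw [Finset.eq_singleton_iff_unique_mem]
    refine ⟨Finset.mem_inter.mpr ⟨xA, xB⟩, fun w hw => ?_⟩
    rw [Finset.mem_inter] at hw
    by_contra hne'
    have e1 := luniq (Ne.symm hne') tA cA xA hw.1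
    have e2 := luniq (Ne.symm hne') tB cB xB hw.2
    exact hz (by rw [← e1, e2]; exact zB)
  have hc3 : ({x, y, z} : Finset (Fin k)).card = 3 := by
    rw [Finset.card_eq_three]
    exact ⟨x, y, z, hxy, hxz, hyz, rfl⟩
  have hP1 := cl1 {x, y, z} (by omega)
  have hP2 := cl2 {x, y, z} (by omega)
  set P := cl {x, y, z} with hP
  have xP : x ∈ P := hP2 (by simp)
  have yP : y ∈ P := hP2 (by simp)
  have zP : z ∈ P := hP2 (by simp)
  have sub : ∀ {u v : Fin k}, u ≠ v → u ∈ P → v ∈ P → cl {u, v} ⊆ P := by
    intro u v huv hu hv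
    apply cl3 _ (by rw [Finset.card_pair huv]; omega) _ hP1
    intro w hw
    simp only [Finset.mem_insert, Finset.mem_singleton] at hw
    rcases hw with rfl | rfl
    · exact hu
    · exact hv
  have hAP : A ⊆ P := sub hxy xP yP
  have hBP : B ⊆ P := sub hxz xP zP
  have hDP : D ⊆ P := sub hyz yP zP
  have hPc : P.card ≤ 1 + 2 * g := by
    have h1 := chain (m - 3) 3 (by omega) {x, y, z} hc3.le
    rw [← hP] at h1
    rcases hmem _ hP1 with h | ⟨i, hi, h⟩
    · omega
    · have h3 := few _ i h.ge
      have h4 : i ≤ 2 := by omega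
      have : g * i ≤ g * 2 := Nat.mul_le_mul_left _ h4
      omega
  have hunion : A ∪ B = P := by
    apply Finset.eq_of_subset_of_card_le (Finset.union_subset hAP hBP)
    have := Finset.card_union_add_card_inter A B
    rw [hAB, Finset.card_singleton] at this
    omega
  -- a third point of the line `y z`
  obtain ⟨w, hw⟩ : (D \ {y, z}).Nonempty := by
    rw [← Finset.card_pos]
    have e1 := Finset.le_card_sdiff ({y, z} : Finset (Fin k)) D
    rw [Finset.card_pair hyz, cD] at e1
    omega
  rw [Finset.mem_sdiff, Finset.mem_insert, Finset.mem_singleton, not_or] at hw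
  obtain ⟨hwD, hwy, hwz⟩ := hw
  have hwP := hDP hwD
  rw [← hunion, Finset.mem_union] at hwP
  rcases hwP with h | h
  · have e1 := luniq (Ne.symm hwy) tA cA yA h
    have e2 := luniq (Ne.symm hwy) tD cD yD hwD
    exact hz (by rw [← e1, e2]; exact zD)
  · have e1 := luniq (Ne.symm hwz) tB cB zB h
    have e2 := luniq (Ne.symm hwz) tD cD zD hwD
    have yB : y ∈ B := by rw [← e1, e2]; exact yD
    have e3 := luniq hxy tB cB xB yB
    rw [← hA] at e3
    exact hz (by rw [e3]; exact zB)

end Pool.Agent.Helper138_LS
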