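import Pool.Agent.Helper138_LS.RelC

/-!
Restriction of a relation to a largest pattern.
-/

set_option autoImplicit false

open Finset

namespace Pool.Agent.Helper138_LS

open Pool.Agent.H480R2.LS

/-- restriction to a set of `l` coordinates where `l` is the largest size of a pattern -/
theorem RB.restrict {k l s : ℕ} {L : Finset ℕ} (hL : L ⊆ Finset.range k) (hl : l ∈ L)
    (hmax : ∀ i ∈ L, i ≤ l) (hs : L.card = s + 1) (hs1 : 1 ≤ s) (h : RB l (L.erase l) s) :
    RB k L (s + 1) := by
  classical
  obtain ⟨e, he, he1, C, hC, h⟩ := h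
  refine ⟨e, he, he1, C, hC, fun n hn T R hI hT hR => ?_⟩
  have hn' : (0 : ℝ) < n := by exact_mod_cast hn
  have hlk : l < k := Finset.mem_range.mp (hL hl)
  by_cases hA : ∃ A ∈ T, A.card = l
  swap
  · push Not at hA
    have h1 := triv_bound k n hn (L.erase l) T R hI (fun A hA' => Finset.mem_erase.mpr
      ⟨hA A hA', hT A hA'⟩) hR
    rw [Finset.card_erase_of_mem hl, hs] at h1
    exact nat_le_rpow hn (by omega) h1 he1 hC
  obtain ⟨A, hAT, hAl⟩ := hA
  let φ : Fin l → Fin k := fun i => A.orderEmbOfFin hAl i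
  have hφinj : Function.Injective φ := (A.orderEmbOfFin hAl).injective
  have hφmem : ∀ i, φ i ∈ A := fun i => Finset.orderEmbOfFin_mem A hAl i
  have hφsurj : ∀ x ∈ A, ∃ i, φ i = x := by
    intro x hx
    have : x ∈ Set.range (A.orderEmbOfFin hAl) := by
      rw [Finset.range_orderEmbOfFin]
      exact hx
    exact this
  set R' : Finset (Fin l → Fin n) := R.image fun f => f ∘ φ with hR'
  -- fibres
  have hfib : R.card ≤ n * R'.card := by
    apply Finset.card_le_mul_card_image
    intro g _
    obtain ⟨y, hy⟩ : ∃ y : Fin k, y ∉ A := by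
      by_contra hcon
      push Not at hcon
      have : A = Finset.univ := Finset.eq_univ_iff_forall.mpr hcon
      rw [this, Finset.card_univ, Fintype.card_fin] at hAl
      omega
    calc (R.filter fun f => f ∘ φ = g).card ≤ (Finset.univ : Finset (Fin n)).card := by
          apply Finset.card_le_card_of_injOn (fun f => f y) (fun _ _ => Finset.mem_univ _)
          intro f hf f' hf' hff
          rw [Finset.mem_coe, Finset.mem_filter] at hf hf'
          by_contra hne
          have h1 := hR f hf.1 f' hf'.1 hne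
          have h2 : A ⊆ agr f f' := by
            intro x hx
            obtain ⟨i, rfl⟩ := hφsurj x hx
            exact mem_agr.mpr (congrFun (hf.2.trans hf'.2.symm) i)
          have h3 : A = agr f f' := Finset.eq_of_subset_of_card_le h2 (by
            rw [hAl]
            exact hmax _ (hT _ h1))
          exact hy (h3 ▸ mem_agr.mpr hff)
      _ = n := by simp
  -- patterns
  set T' : Finset (Finset (Fin l)) := (T.filter fun B => B ⊆ A ∧ B ≠ A).image (pre φ) with hT'
  have hprec : ∀ B : Finset (Fin k), B ⊆ A → (pre φ B).card = B.card := by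
    intro B hB
    rw [← Finset.card_image_of_injective (pre φ B) hφinj]
    congr 1
    ext x
    rw [Finset.mem_image]
    constructor
    · rintro ⟨i, hi, rfl⟩
      exact mem_pre.mp hi
    · intro hx
      obtain ⟨i, rfl⟩ := hφsurj x (hB hx)
      exact ⟨i, mem_pre.mpr hx, rfl⟩
  have b1 : IC T' := by
    apply ic_pre
    intro B hB B' hB'
    rw [Finset.mem_filter] at hB hB' ⊢
    refine ⟨hI B hB.1 B' hB'.1, Finset.inter_subset_left.trans hB.2.1, ?_⟩
    intro h1
    apply hB.2.2
    apply Finset.Subset.antisymm hB.2.1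
    rw [← h1]
    exact Finset.inter_subset_left
  have b2 : ∀ B ∈ T', B.card ∈ L.erase l := by
    intro B hB
    rw [hT', Finset.mem_image] at hB
    obtain ⟨B, hB, rfl⟩ := hB
    rw [Finset.mem_filter] at hB
    rw [hprec B hB.2.1, Finset.mem_erase]
    refine ⟨?_, hT B hB.1⟩
    intro h1
    exact hB.2.2 (Finset.eq_of_subset_of_card_le hB.2.1 (by omega))
  have b3 : PatIn R' T' := by
    intro f hf g hg hfg
    rw [hR', Finset.mem_image] at hf hg
    obtain ⟨f, hf, rfl⟩ := hf
    obtain ⟨g, hg, rfl⟩ := hg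
    rw [hT', Finset.mem_image]
    have hne : f ≠ g := by rintro rfl; exact hfg rfl
    refine ⟨agr f g ∩ A, ?_, ?_⟩
    · rw [Finset.mem_filter]
      refine ⟨hI _ (hR f hf g hg hne) A hAT, Finset.inter_subset_right, ?_⟩
      intro h1
      apply hfg
      funext i
      have h2 : φ i ∈ agr f g ∩ A := by
        rw [h1]
        exact hφmem i
      show f (φ i) = g (φ i)
      exact mem_agr.mp (Finset.mem_inter.mp h2).1
    · ext i
      rw [mem_pre, Finset.mem_inter, mem_agr, mem_agr]
      exact ⟨fun h1 => h1.1, fun h1 => ⟨h1, hφmem i⟩⟩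
  have h1 := h n hn T' R' b1 b2 b3
  calc (R.card : ℝ) ≤ (n : ℝ) * R'.card := by exact_mod_cast hfib
    _ ≤ n * (C * (n : ℝ) ^ ((s : ℝ) - e)) := mul_le_mul_of_nonneg_left h1 hn'.le
    _ = C * (n : ℝ) ^ (((s + 1 : ℕ) : ℝ) - e) := by
      push_cast
      rw [show (s : ℝ) + 1 - e = 1 + ((s : ℝ) - e) by ring, Real.rpow_add hn', Real.rpow_one]
      ring

end Pool.Agent.Helper138_LS
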