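import Pool.Agent.Helper138_LS.RelD

/-!
Closures in covering families, and the pair `(19, {0,1,3,7})`.
-/

set_option autoImplicit false

open Finset

namespace Pool.Agent.Helper138_LS

open Pool.Agent.H480R2.LS

/-- closures and their sizes -/
theorem chain {k m : ℕ} {L : Finset ℕ} {T : Finset (Finset (Fin k))} (hI : IC T)
    (hT : ∀ A ∈ T, A.card ∈ L) (hL : L ⊆ Finset.range k)
    (hcov : ∀ X : Finset (Fin k), X.card ≤ m → ∃ A ∈ T, X ⊆ A) :
    ∃ cl : Finset (Fin k) → Finset (Fin k),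
      (∀ X : Finset (Fin k), X.card ≤ m → cl X ∈ T ∧ X ⊆ cl X ∧ ∀ A ∈ T, X ⊆ A → cl X ⊆ A) ∧
      ∀ d j : ℕ, j + d = m → ∀ X : Finset (Fin k), X.card ≤ j →
        d ≤ (L.filter fun l => (cl X).card < l).card := by
  classical
  have hne : ∀ A ∈ T, A ≠ Finset.univ := by
    rintro A hA rfl
    have := hL (hT _ hA)
    simp at this
  have hcl : ∀ X : Finset (Fin k), X.card ≤ m → ∃ C ∈ T, X ⊆ C ∧ ∀ A ∈ T, X ⊆ A → C ⊆ A :=
    fun X hX => cl_exists hI X (hcov X hX)
  choose! cl cl1 cl2 cl3 using hcl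
  refine ⟨cl, fun X hX => ⟨cl1 X hX, cl2 X hX, cl3 X hX⟩, ?_⟩
  intro d
  induction d with
  | zero => intro j _ X _; exact Nat.zero_le _
  | succ d ih =>
    intro j hj X hX
    have hXm : X.card ≤ m := by omega
    obtain ⟨z, hz⟩ : ∃ z, z ∉ cl X := by
      by_contra hcon
      push Not at hcon
      exact hne _ (cl1 X hXm) (Finset.eq_univ_iff_forall.mpr hcon)
    have hX' : (insert z X).card ≤ j + 1 := (Finset.card_insert_le _ _).trans (by omega)
    have hX'm : (insert z X).card ≤ m := by omega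
    have h1 := ih (j + 1) (by omega) (insert z X) hX'
    have h2 : cl X ⊆ cl (insert z X) :=
      cl3 X hXm _ (cl1 _ hX'm) ((Finset.subset_insert _ _).trans (cl2 _ hX'm))
    have h3 : (cl X).card < (cl (insert z X)).card := by
      apply Finset.card_lt_card
      refine ⟨h2, fun h => hz (h (cl2 _ hX'm (Finset.mem_insert_self _ _)))⟩
    have h4 : insert (cl (insert z X)).card (L.filter fun l => (cl (insert z X)).card < l) ⊆
        L.filter fun l => (cl X).card < l := by
      intro l hl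
      rw [Finset.mem_insert] at hl
      rcases hl with rfl | hl
      · exact Finset.mem_filter.mpr ⟨hT _ (cl1 _ hX'm), h3⟩
      · rw [Finset.mem_filter] at hl ⊢
        exact ⟨hl.1, h3.trans hl.2⟩
    have h5 := Finset.card_le_card h4
    rw [Finset.card_insert_of_notMem (by simp)] at h5
    omega

/-- the union of lines through a point -/
theorem star_card {k : ℕ} (p : Fin k) (Q : Finset (Fin k)) (ℓ : Fin k → Finset (Fin k))
    (h3 : ∀ u ∈ Q, (ℓ u).card = 3) (hp : ∀ u ∈ Q, p ∈ ℓ u)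
    (hd : ∀ u ∈ Q, ∀ v ∈ Q, u ≠ v → ∀ z ∈ ℓ u, z ∈ ℓ v → z = p) :
    ((Q.biUnion ℓ).erase p).card = 2 * Q.card := by
  classical
  have h1 : (Q.biUnion ℓ).erase p = Q.biUnion fun u => (ℓ u).erase p := by
    ext z
    simp only [Finset.mem_erase, Finset.mem_biUnion]
    constructor
    · rintro ⟨h1, u, hu, hz⟩
      exact ⟨u, hu, h1, hz⟩
    · rintro ⟨u, hu, h1, hz⟩
      exact ⟨h1, u, hu, hz⟩
  rw [h1, Finset.card_biUnion]
  · rw [Finset.sum_congr rfl (fun u hu => by rw [Finset.card_erase_of_mem (hp u hu), h3 u hu]),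
      Finset.sum_const, smul_eq_mul]
    ring
  · intro u hu v hv huv
    rw [Function.onFun, Finset.disjoint_left]
    intro z hz hz'
    rw [Finset.mem_erase] at hz hz'
    exact hz.1 (hd u hu v hv huv z hz.2 hz'.2)

theorem RB_nineteen : RB 19 {0, 1, 3, 7} 4 := by
  classical
  apply RB.of_cover (by norm_num)
  intro T hI hT hcov
  obtain ⟨cl, hcl, hch⟩ := chain (m := 3) hI hT (by decide) hcov
  have mem4 : ∀ A ∈ T, A.card = 0 ∨ A.card = 1 ∨ A.card = 3 ∨ A.card = 7 := by
    intro A hA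
    have := hT A hA
    simpa only [Finset.mem_insert, Finset.mem_singleton] using this
  -- lines
  have line : ∀ x y : Fin 19, x ≠ y → (cl {x, y}).card = 3 := by
    intro x y hxy
    have hc : ({x, y} : Finset (Fin 19)).card = 2 := Finset.card_pair hxy
    obtain ⟨h1, h2, _⟩ := hcl {x, y} (by omega)
    have h3 := hch 1 2 (by norm_num) {x, y} hc.le
    have h4 := Finset.card_le_card h2
    rcases mem4 _ h1 with h | h | h | h
    · omega
    · omega
    · exact h
    · rw [h] at h3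
      simp [Finset.filter_insert, Finset.filter_singleton] at h3
  have lmem : ∀ x y : Fin 19, x ≠ y → cl {x, y} ∈ T ∧ x ∈ cl {x, y} ∧ y ∈ cl {x, y} := by
    intro x y hxy
    obtain ⟨h1, h2, _⟩ := hcl {x, y} (by rw [Finset.card_pair hxy]; omega)
    exact ⟨h1, h2 (by simp), h2 (by simp)⟩
  have lsub : ∀ (x y : Fin 19) (A : Finset (Fin 19)), x ≠ y → A ∈ T → x ∈ A → y ∈ A → cl {x, y} ⊆ A := by
    intro x y A hxy hA hx hy
    apply (hcl {x, y} (by rw [Finset.card_pair hxy]; omega)).2.2 A hA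
    intro z hz
    simp only [Finset.mem_insert, Finset.mem_singleton] at hz
    rcases hz with rfl | rfl
    · exact hx
    · exact hy
  -- two points of a line determine it
  have luniq : ∀ (x y : Fin 19) (A : Finset (Fin 19)), x ≠ y → A ∈ T → A.card = 3 → x ∈ A → y ∈ A →
      A = cl {x, y} := by
    intro x y A hxy hA hc hx hy
    exact (Finset.eq_of_subset_of_card_le (lsub x y A hxy hA hx hy) (by rw [line x y hxy, hc])).symm
  -- a plane
  have plane : ∀ A ∈ T, (∃ x ∈ A, ∃ y ∈ A, x ≠ y ∧ ∃ z ∈ A, z ∉ cl {x, y}) → A.card = 7 := by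
    rintro A hA ⟨x, hx, y, hy, hxy, z, hz, hzl⟩
    have h1 := lsub x y A hxy hA hx hy
    have h2 : (cl {x, y}).card < A.card := Finset.card_lt_card ⟨h1, fun h => hzl (h hz)⟩
    rw [line x y hxy] at h2
    rcases mem4 _ hA with h | h | h | h <;> omega
  have h01 : (0 : Fin 19) ≠ 1 := by decide
  obtain ⟨z0, hz0⟩ : ∃ z, z ∉ cl {0, 1} := by
    by_contra hcon
    push Not at hcon
    have := line 0 1 h01
    rw [Finset.eq_univ_iff_forall.mpr hcon] at this
    simp at this
  have hc3 : ∀ x y z : Fin 19, ({x, y, z} : Finset (Fin 19)).card ≤ 3 := fun x y z =>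
    Finset.card_le_three
  obtain ⟨π, hπT, hπ7⟩ : ∃ π ∈ T, π.card = 7 := by
    obtain ⟨h1, h2, _⟩ := hcl {0, 1, z0} (hc3 _ _ _)
    exact ⟨_, h1, plane _ h1 ⟨0, h2 (by simp), 1, h2 (by simp), h01, z0, h2 (by simp), hz0⟩⟩
  obtain ⟨p, hp⟩ : ∃ p, p ∉ π := by
    by_contra hcon
    push Not at hcon
    rw [Finset.eq_univ_iff_forall.mpr hcon] at hπ7
    simp at hπ7
  have hpu : ∀ u ∈ π, p ≠ u := fun u hu h => hp (h ▸ hu)
  -- lines through p
  have hdl : ∀ u v : Fin 19, p ≠ u → p ≠ v → u ∉ cl {p, v} → ∀ z ∈ cl {p, u}, z ∈ cl {p, v} → z = p := by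
    intro u v hu hv huv z hz hz'
    by_contra hne
    have e1 := luniq p z _ (Ne.symm hne) (lmem p u hu).1 (line p u hu) (lmem p u hu).2.1 hz
    have e2 := luniq p z _ (Ne.symm hne) (lmem p v hv).1 (line p v hv) (lmem p v hv).2.1 hz'
    apply huv
    rw [e2, ← e1]
    exact (lmem p u hu).2.2
  have hπl : ∀ u ∈ π, ∀ v ∈ π, u ≠ v → u ∉ cl {p, v} := by
    intro u hu v hv huv h
    have e1 := luniq u v _ huv (lmem p v (hpu v hv)).1 (line p v (hpu v hv)) h (lmem p v (hpu v hv)).2.2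
    apply hp
    apply lsub u v π huv hπT hu hv
    rw [← e1]
    exact (lmem p v (hpu v hv)).2.1
  set ℓ : Fin 19 → Finset (Fin 19) := fun u => cl {p, u} with hℓ
  set U := π.biUnion ℓ with hU
  have hUc : (U.erase p).card = 14 := by
    rw [hU, star_card p π ℓ (fun u hu => line p u (hpu u hu)) (fun u hu => (lmem p u (hpu u hu)).2.1)
      (fun u hu v hv huv => hdl u v (hpu u hu) (hpu v hv) (hπl u hu v hv huv)), hπ7]
  have hπne : π.Nonempty := by
    rw [← Finset.card_pos, hπ7]
    norm_num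
  obtain ⟨u0, hu0⟩ := hπne
  have hpU : p ∈ U := Finset.mem_biUnion.mpr ⟨u0, hu0, (lmem p u0 (hpu u0 hu0)).2.1⟩
  have hUc' : U.card = 15 := by
    rw [Finset.card_erase_of_mem hpU] at hUc
    omega
  have hWc : (Finset.univ \ U).card = 4 := by
    rw [Finset.card_sdiff_of_subset (Finset.subset_univ _), Finset.card_univ, Fintype.card_fin, hUc']
  set W := Finset.univ \ U with hW
  have hπU : π ⊆ U := fun u hu => Finset.mem_biUnion.mpr ⟨u, hu, (lmem p u (hpu u hu)).2.2⟩
  obtain ⟨r, hr⟩ : W.Nonempty := by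
    rw [← Finset.card_pos, hWc]
    norm_num
  have hrU : r ∉ U := (Finset.mem_sdiff.mp hr).2
  have hpr : p ≠ r := by
    rintro rfl
    exact hrU hpU
  -- planes through the line p r
  have key : ∀ u ∈ π, ∃ σ ∈ T, σ.card = 7 ∧ p ∈ σ ∧ W ⊆ σ ∧ u ∈ σ ∧ ∀ v ∈ π, v ∈ σ → v = u := by
    intro u hu
    obtain ⟨h1, h2, _⟩ := hcl {p, r, u} (hc3 _ _ _)
    set σ := cl {p, r, u} with hσ
    have hpσ : p ∈ σ := h2 (by simp)
    have hrσ : r ∈ σ := h2 (by simp)
    have huσ : u ∈ σ := h2 (by simp)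
    have hrl : r ∉ cl {p, u} := fun h => hrU (Finset.mem_biUnion.mpr ⟨u, hu, h⟩)
    have hσ7 : σ.card = 7 := plane σ h1 ⟨p, hpσ, u, huσ, hpu u hu, r, hrσ, hrl⟩
    have hone : ∀ v ∈ π, v ∈ σ → v = u := by
      intro v hv hvσ
      by_contra hne
      -- the line u v
      set M := cl {u, v} with hM
      have hMc := line u v (Ne.symm hne)
      have hMσ := lsub u v σ (Ne.symm hne) h1 huσ hvσ
      have hMπ := lsub u v π (Ne.symm hne) hπT hu hv
      have e1 := star_card p M ℓ (fun w hw => line p w (hpu w (hMπ hw)))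
        (fun w hw => (lmem p w (hpu w (hMπ hw))).2.1)
        (fun w hw w' hw' hww => hdl w w' (hpu w (hMπ hw)) (hpu w' (hMπ hw'))
          (hπl w (hMπ hw) w' (hMπ hw') hww))
      rw [hMc] at e1
      have e2 : (M.biUnion ℓ).erase p ⊆ σ.erase p := by
        apply Finset.erase_subset_erase
        intro z hz
        rw [Finset.mem_biUnion] at hz
        obtain ⟨w, hw, hz⟩ := hz
        exact lsub p w σ (hpu w (hMπ hw)) h1 hpσ (hMσ hw) hz
      have e3 := Finset.eq_of_subset_of_card_le e2 (by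
        rw [e1, Finset.card_erase_of_mem hpσ, hσ7])
      have e4 : r ∈ σ.erase p := Finset.mem_erase.mpr ⟨hpr.symm, hrσ⟩
      rw [← e3, Finset.mem_erase, Finset.mem_biUnion] at e4
      obtain ⟨_, w, hw, hrw⟩ := e4
      exact hrU (Finset.mem_biUnion.mpr ⟨w, hMπ hw, hrw⟩)
    refine ⟨σ, h1, hσ7, hpσ, ?_, huσ, hone⟩
    -- the points of σ in U are on the line p u
    have e1 : σ ∩ U = cl {p, u} := by
      apply Finset.Subset.antisymm
      · intro z hz
        rw [Finset.mem_inter] at hz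
        by_cases hzp : z = p
        · rw [hzp]
          exact (lmem p u (hpu u hu)).2.1
        · obtain ⟨v, hv, hzv⟩ := Finset.mem_biUnion.mp hz.2
          have e2 := luniq p z _ (Ne.symm hzp) (lmem p v (hpu v hv)).1 (line p v (hpu v hv))
            (lmem p v (hpu v hv)).2.1 hzv
          have e3 := lsub p z σ (Ne.symm hzp) h1 hpσ hz.1
          have e4 : v ∈ σ := e3 (by rw [← e2]; exact (lmem p v (hpu v hv)).2.2)
          rw [← hone v hv e4]
          exact hzv
      · intro z hz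
        rw [Finset.mem_inter]
        exact ⟨lsub p u σ (hpu u hu) h1 hpσ huσ hz, Finset.mem_biUnion.mpr ⟨u, hu, hz⟩⟩
    have e2 : (σ ∩ W).card = 4 := by
      have e3 : σ ∩ W = σ \ U := by
        ext z
        simp [hW]
      have e4 := Finset.card_sdiff_add_card_inter σ U
      rw [e1, line p u (hpu u hu), hσ7] at e4
      rw [e3]
      omega
    have e3 : σ ∩ W = W := Finset.eq_of_subset_of_card_le Finset.inter_subset_right (by rw [e2, hWc])
    rw [← e3]
    exact Finset.inter_subset_left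
  obtain ⟨v0, hv0⟩ : (π.erase u0).Nonempty := by
    rw [← Finset.card_pos, Finset.card_erase_of_mem hu0, hπ7]
    norm_num
  rw [Finset.mem_erase] at hv0
  obtain ⟨σ, a1, a2, a3, a4, a5, a6⟩ := key u0 hu0
  obtain ⟨τ, b1, b2, b3, b4, b5, b6⟩ := key v0 hv0.2
  have hc : 5 ≤ (σ ∩ τ).card := by
    have e1 : insert p W ⊆ σ ∩ τ := by
      intro z hz
      rw [Finset.mem_insert] at hz
      rcases hz with rfl | hz
      · exact Finset.mem_inter.mpr ⟨a3, b3⟩
      · exact Finset.mem_inter.mpr ⟨a4 hz, b4 hz⟩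
    have e2 := Finset.card_le_card e1
    have e3 : p ∉ W := fun h => (Finset.mem_sdiff.mp h).2 hpU
    rw [Finset.card_insert_of_notMem e3, hWc] at e2
    exact e2
  have h7 : (σ ∩ τ).card = 7 := by
    rcases mem4 _ (hI σ a1 τ b1) with h | h | h | h <;> omega
  have e1 : σ ∩ τ = σ := Finset.eq_of_subset_of_card_le Finset.inter_subset_left (by omega)
  have e2 : σ ∩ τ = τ := Finset.eq_of_subset_of_card_le Finset.inter_subset_right (by omega)
  have e3 : v0 ∈ σ := by
    rw [← e1, e2]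
    exact b5
  exact hv0.1 (a6 v0 hv0.2 e3)

end Pool.Agent.Helper138_LS
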