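import Pool.Agent.Helper138_LS.RelE

/-!
The pair `(18, {0,1,2,3,6})`: there is no Steiner system `S(4,6,18)`.
-/

set_option autoImplicit false

open Finset

namespace Pool.Agent.Helper138_LS

open Pool.Agent.H480R2.LS

section plane

variable {k : ℕ} {P : Finset (Fin k)} {M : Finset (Finset (Fin k))}

theorem sum_star (_hMP : ∀ m ∈ M, m ⊆ P)
    (hex : ∀ p ∈ P, ∀ q ∈ P, p ≠ q → ∃ m ∈ M, p ∈ m ∧ q ∈ m)
    (huq : ∀ m ∈ M, ∀ m' ∈ M, ∀ p q, p ≠ q → p ∈ m → q ∈ m → p ∈ m' → q ∈ m' → m = m')
    {p : Fin k} (hp : p ∈ P) {Z : Finset (Fin k)} (hZ : Z ⊆ P) (hpZ : p ∉ Z) :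
    ∑ m ∈ M.filter (fun m => p ∈ m), (m ∩ Z).card = Z.card := by
  classical
  have h1 : Z = (M.filter fun m => p ∈ m).biUnion fun m => m ∩ Z := by
    ext z
    simp only [Finset.mem_biUnion, Finset.mem_filter, Finset.mem_inter]
    constructor
    · intro hz
      have hne : p ≠ z := by rintro rfl; exact hpZ hz
      obtain ⟨m, hm, h1, h2⟩ := hex p hp z (hZ hz) hne
      exact ⟨m, ⟨hm, h1⟩, h2, hz⟩
    · rintro ⟨m, _, _, h⟩
      exact h
  conv_rhs => rw [h1]
  rw [Finset.card_biUnion]
  intro m hm m' hm' hne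
  rw [Function.onFun, Finset.disjoint_left]
  intro z hz hz'
  rw [Finset.mem_coe, Finset.mem_filter] at hm hm'
  rw [Finset.mem_inter] at hz hz'
  have hpz : p ≠ z := by rintro rfl; exact hpZ hz.2
  exact hne (huq m hm.1 m' hm'.1 p z hpz hm.2 hz.1 hm'.2 hz'.1)

theorem sum_two {α : Type*} [DecidableEq α] (S : Finset α) (f : α → ℕ) (h : ∀ a ∈ S, f a ≤ 2) :
    ∑ a ∈ S, f a = (S.filter fun a => f a = 1).card + 2 * (S.filter fun a => f a = 2).card := by
  rw [Finset.card_filter, Finset.card_filter, Finset.mul_sum, ← Finset.sum_add_distrib]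
  apply Finset.sum_congr rfl
  intro a ha
  have := h a ha
  interval_cases f a <;> simp

/-- the nucleus of a five-arc in a plane of order four -/
theorem nucleus (hP : P.card = 16) (h4 : ∀ m ∈ M, m.card = 4) (hMP : ∀ m ∈ M, m ⊆ P)
    (hex : ∀ p ∈ P, ∀ q ∈ P, p ≠ q → ∃ m ∈ M, p ∈ m ∧ q ∈ m)
    (huq : ∀ m ∈ M, ∀ m' ∈ M, ∀ p q, p ≠ q → p ∈ m → q ∈ m → p ∈ m' → q ∈ m' → m = m')
    {c : Finset (Fin k)} (hcP : c ⊆ P) (hc : c.card = 5) (harc : ∀ m ∈ M, (m ∩ c).card ≤ 2) :
    ∃ n ∈ P, n ∉ c ∧ ∀ m ∈ M, n ∈ m → (m ∩ c).card ≤ 1 := by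
  classical
  have deg : ∀ p ∈ P, (M.filter fun m => p ∈ m).card = 5 := by
    intro p hp
    have h1 := sum_star hMP hex huq hp (Finset.erase_subset p P) (Finset.notMem_erase p P)
    rw [Finset.card_erase_of_mem hp, hP] at h1
    have h2 : ∀ m ∈ M.filter (fun m => p ∈ m), (m ∩ P.erase p).card = 3 := by
      intro m hm
      rw [Finset.mem_filter] at hm
      have e1 : m ∩ P.erase p = m.erase p := by
        ext z
        simp only [Finset.mem_inter, Finset.mem_erase]
        constructor
        · rintro ⟨a, b, _⟩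
          exact ⟨b, a⟩
        · rintro ⟨a, b⟩
          exact ⟨b, a, hMP m hm.1 b⟩
      rw [e1, Finset.card_erase_of_mem hm.2, h4 m hm.1]
    rw [Finset.sum_congr rfl h2, Finset.sum_const, smul_eq_mul] at h1
    omega
  set τ := M.filter fun m => (m ∩ c).card = 1 with hτ
  set t : Fin k → ℕ := fun p => (τ.filter fun m => p ∈ m).card with ht
  have tp : ∀ p, t p = ((M.filter fun m => p ∈ m).filter fun m => (m ∩ c).card = 1).card := by
    intro p
    simp only [ht, hτ, Finset.filter_filter]
    congr 1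
    ext m
    simp only [Finset.mem_filter]
    tauto
  -- off the arc
  have todd : ∀ p ∈ P, p ∉ c → t p % 2 = 1 := by
    intro p hp hpc
    have h1 := sum_star hMP hex huq hp hcP hpc
    rw [sum_two _ _ (fun m hm => harc m (Finset.mem_filter.mp hm).1), hc, ← tp] at h1
    omega
  have tle : ∀ p ∈ P, t p ≤ 5 := by
    intro p hp
    rw [tp, ← deg p hp]
    exact Finset.card_filter_le _ _
  -- on the arc
  have tone : ∀ p ∈ c, t p = 1 := by
    intro p hpc
    have hp := hcP hpc
    have h1 := sum_star hMP hex huq hp ((Finset.erase_subset p c).trans hcP) (Finset.notMem_erase p c)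
    rw [Finset.card_erase_of_mem hpc, hc] at h1
    have h2 : ∀ m ∈ M.filter (fun m => p ∈ m), (m ∩ c.erase p).card + 1 = (m ∩ c).card := by
      intro m hm
      rw [Finset.mem_filter] at hm
      rw [Finset.inter_erase]
      exact Finset.card_erase_add_one (Finset.mem_inter.mpr ⟨hm.2, hpc⟩)
    have h3 : ∑ m ∈ M.filter (fun m => p ∈ m), (m ∩ c).card = 4 + 5 := by
      rw [← Finset.sum_congr rfl h2, Finset.sum_add_distrib, h1, Finset.sum_const, deg p hp]
      norm_num
    rw [sum_two _ _ (fun m hm => harc m (Finset.mem_filter.mp hm).1), ← tp] at h3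
    have h4' : ((M.filter fun m => p ∈ m).filter fun m => (m ∩ c).card = 1).card +
        ((M.filter fun m => p ∈ m).filter fun m => (m ∩ c).card = 2).card = 5 := by
      rw [← Finset.card_union_of_disjoint, ← deg p hp]
      · congr 1
        ext m
        simp only [Finset.mem_union, Finset.mem_filter]
        constructor
        · rintro (h | h)
          · exact h.1
          · exact h.1
        · intro hm
          have e1 := h2 m (Finset.mem_filter.mpr hm)
          have e2 := harc m hm.1
          rcases Nat.lt_or_ge (m ∩ c).card 2 with h | h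
          · left
            exact ⟨hm, by omega⟩
          · right
            exact ⟨hm, by omega⟩
      · rw [Finset.disjoint_left]
        intro m hm hm'
        rw [Finset.mem_filter] at hm hm'
        omega
    rw [← tp] at h4'
    omega
  -- sums
  have dc : ∀ Z : Finset (Fin k), ∑ p ∈ Z, t p = ∑ m ∈ τ, (m ∩ Z).card := by
    intro Z
    simp only [ht, Finset.card_filter]
    rw [Finset.sum_comm]
    apply Finset.sum_congr rfl
    intro m _
    rw [← Finset.card_filter]
    congr 1
    ext z
    simp only [Finset.mem_filter, Finset.mem_inter]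
    tauto
  have hτ5 : τ.card = 5 := by
    have h1 := dc c
    rw [Finset.sum_congr rfl tone, Finset.sum_const, hc] at h1
    rw [Finset.sum_congr rfl (fun m hm => (Finset.mem_filter.mp hm).2), Finset.sum_const] at h1
    simp only [smul_eq_mul, mul_one] at h1
    exact h1.symm
  have hsP : ∑ p ∈ P, t p = 20 := by
    rw [dc P, Finset.sum_congr rfl (fun m hm => by
      rw [Finset.inter_eq_left.mpr (hMP m (Finset.mem_filter.mp hm).1), h4 m (Finset.mem_filter.mp hm).1]),
      Finset.sum_const, hτ5]
    norm_num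
  have hsQ : ∑ p ∈ P \ c, t p = 15 := by
    have h1 := Finset.sum_sdiff (f := t) hcP
    rw [hsP, Finset.sum_congr rfl tone, Finset.sum_const, hc] at h1
    simp only [smul_eq_mul, mul_one] at h1
    omega
  have hQ : (P \ c).card = 11 := by
    rw [Finset.card_sdiff_of_subset hcP, hP, hc]
  by_contra hcon
  push Not at hcon
  have t13 : ∀ p ∈ P \ c, t p = 1 ∨ t p = 3 := by
    intro p hp
    rw [Finset.mem_sdiff] at hp
    have h1 := todd p hp.1 hp.2
    have h2 := tle p hp.1
    have h3 : t p ≠ 5 := by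
      intro h
      obtain ⟨m, hm, hpm, h5⟩ := hcon p hp.1 hp.2
      have h6 : (M.filter fun m => p ∈ m).filter (fun m => (m ∩ c).card = 1) =
          M.filter fun m => p ∈ m := by
        apply Finset.eq_of_subset_of_card_le (Finset.filter_subset _ _)
        rw [deg p hp.1, ← tp, h]
      have h7 : m ∈ (M.filter fun m => p ∈ m).filter (fun m => (m ∩ c).card = 1) := by
        rw [h6, Finset.mem_filter]
        exact ⟨hm, hpm⟩
      rw [Finset.mem_filter] at h7
      omega
    omega
  set E := (P \ c).filter fun p => t p = 3 with hE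
  have hE2 : E.card = 2 := by
    have h1 : ∑ p ∈ P \ c, t p = (P \ c).card + 2 * E.card := by
      rw [hE, Finset.card_filter, Finset.card_eq_sum_ones, Finset.mul_sum, ← Finset.sum_add_distrib]
      apply Finset.sum_congr rfl
      intro p hp
      rcases t13 p hp with h | h
      · rw [if_neg (by omega)]
        omega
      · rw [if_pos h]
        omega
    rw [hsQ, hQ] at h1
    omega
  obtain ⟨p, q, hpq, hEpq⟩ := Finset.card_eq_two.mp hE2
  have hpE : p ∈ E := by rw [hEpq]; simp
  have hqE : q ∈ E := by rw [hEpq]; simp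
  rw [hE, Finset.mem_filter, Finset.mem_sdiff] at hpE hqE
  set A := τ.filter fun m => p ∈ m with hA
  set B := τ.filter fun m => q ∈ m with hB
  have hAc : A.card = 3 := hpE.2
  have hBc : B.card = 3 := hqE.2
  have hAB : (A ∩ B).card = 1 := by
    have h1 : 1 ≤ (A ∩ B).card := by
      have h2 := Finset.card_union_add_card_inter A B
      have h3 : (A ∪ B).card ≤ τ.card :=
        Finset.card_le_card (Finset.union_subset (Finset.filter_subset _ _) (Finset.filter_subset _ _))
      omega
    have h2 : (A ∩ B).card ≤ 1 := by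
      rw [Finset.card_le_one]
      intro m hm m' hm'
      simp only [hA, hB, hτ, Finset.mem_inter, Finset.mem_filter] at hm hm'
      exact huq m hm.1.1.1 m' hm'.1.1.1 p q hpq hm.1.2 hm.2.2 hm'.1.2 hm'.2.2
    omega
  obtain ⟨m0, hm0⟩ := Finset.card_eq_one.mp hAB
  obtain ⟨a, ha⟩ : ∃ a, a ∈ A ∧ a ∉ B := by
    by_contra hcon'
    push Not at hcon'
    have : A ∩ B = A := Finset.inter_eq_left.mpr hcon'
    rw [this, hAc] at hAB
    omega
  have haM : a ∈ M := (Finset.mem_filter.mp (Finset.mem_filter.mp ha.1).1).1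
  have hqa : q ∉ a := fun h => ha.2 (Finset.mem_filter.mpr ⟨(Finset.mem_filter.mp ha.1).1, h⟩)
  have hdis : ∀ b ∈ B \ A, (b ∩ a).card = 0 := by
    intro b hb
    rw [Finset.mem_sdiff] at hb
    rw [Finset.card_eq_zero, Finset.eq_empty_iff_forall_notMem]
    intro z hz
    rw [Finset.mem_inter] at hz
    have haτ : a ∈ τ := (Finset.mem_filter.mp ha.1).1
    have hbτ : b ∈ τ := (Finset.mem_filter.mp hb.1).1
    have hbM : b ∈ M := (Finset.mem_filter.mp hbτ).1
    have hab : a ≠ b := by
      rintro rfl
      exact ha.2 hb.1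
    have h2 : 2 ≤ t z := by
      have h3 : ({a, b} : Finset (Finset (Fin k))) ⊆ τ.filter fun m => z ∈ m := by
        intro m hm
        simp only [Finset.mem_insert, Finset.mem_singleton] at hm
        rcases hm with rfl | rfl
        · exact Finset.mem_filter.mpr ⟨haτ, hz.2⟩
        · exact Finset.mem_filter.mpr ⟨hbτ, hz.1⟩
      have h4 := Finset.card_le_card h3
      rw [Finset.card_pair hab] at h4
      exact h4
    have hzP := hMP a haM hz.2
    by_cases hzc : z ∈ c
    · have := tone z hzc
      omega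
    · have hzQ : z ∈ P \ c := Finset.mem_sdiff.mpr ⟨hzP, hzc⟩
      have hzE : z ∈ E := by
        rw [hE, Finset.mem_filter]
        refine ⟨hzQ, ?_⟩
        rcases t13 z hzQ with h | h
        · omega
        · exact h
      rw [hEpq] at hzE
      simp only [Finset.mem_insert, Finset.mem_singleton] at hzE
      rcases hzE with rfl | rfl
      · exact hb.2 (Finset.mem_filter.mpr ⟨hbτ, hz.1⟩)
      · exact hqa hz.2
  have hBA : (B \ A).card = 2 := by
    have h1 := Finset.card_sdiff_add_card_inter B A
    rw [Finset.inter_comm B A, hAB, hBc] at h1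
    omega
  have hBAM : B \ A ⊆ M.filter fun m => q ∈ m := by
    intro m hm
    rw [Finset.mem_sdiff] at hm
    have h1 := Finset.mem_filter.mp hm.1
    exact Finset.mem_filter.mpr ⟨(Finset.mem_filter.mp h1.1).1, h1.2⟩
  have h1 := sum_star hMP hex huq hqE.1.1 (hMP a haM) hqa
  rw [h4 a haM, ← Finset.sum_sdiff hBAM, Finset.sum_congr rfl hdis, Finset.sum_const_zero, add_zero] at h1
  have h2 : ∑ m ∈ (M.filter fun m => q ∈ m) \ (B \ A), (m ∩ a).card ≤
      ∑ m ∈ (M.filter fun m => q ∈ m) \ (B \ A), 1 := by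
    apply Finset.sum_le_sum
    intro m hm
    rw [Finset.mem_sdiff, Finset.mem_filter] at hm
    by_contra hlt
    push Not at hlt
    obtain ⟨u, hu, v, hv, huv⟩ := Finset.one_lt_card.mp hlt
    rw [Finset.mem_inter] at hu hv
    have := huq m hm.1.1 a haM u v huv hu.1 hv.1 hu.2 hv.2
    rw [this] at hm
    exact hqa hm.1.2
  rw [Finset.sum_const, smul_eq_mul, mul_one, Finset.card_sdiff_of_subset hBAM, deg q hqE.1.1, hBA] at h2
  omega

/-- the lines that meet a six-arc in a plane of order four -/
theorem secant (hP : P.card = 16) (h4 : ∀ m ∈ M, m.card = 4) (hMP : ∀ m ∈ M, m ⊆ P)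
    (hex : ∀ p ∈ P, ∀ q ∈ P, p ≠ q → ∃ m ∈ M, p ∈ m ∧ q ∈ m)
    (huq : ∀ m ∈ M, ∀ m' ∈ M, ∀ p q, p ≠ q → p ∈ m → q ∈ m → p ∈ m' → q ∈ m' → m = m')
    {H : Finset (Fin k)} (hHP : H ⊆ P) (hH : H.card = 6) (harc : ∀ m ∈ M, (m ∩ H).card ≤ 2)
    {h : Fin k} (hh : h ∈ H) {m : Finset (Fin k)} (hm : m ∈ M) (hhm : h ∈ m) :
    ∃ h' ∈ m ∩ H, h' ≠ h := by
  classical
  have deg : (M.filter fun m => h ∈ m).card = 5 := by
    have hp := hHP hh
    have h1 := sum_star hMP hex huq hp (Finset.erase_subset h P) (Finset.notMem_erase h P)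
    rw [Finset.card_erase_of_mem hp, hP] at h1
    have h2 : ∀ m ∈ M.filter (fun m => h ∈ m), (m ∩ P.erase h).card = 3 := by
      intro m hm
      rw [Finset.mem_filter] at hm
      have e1 : m ∩ P.erase h = m.erase h := by
        ext z
        simp only [Finset.mem_inter, Finset.mem_erase]
        constructor
        · rintro ⟨a, b, _⟩
          exact ⟨b, a⟩
        · rintro ⟨a, b⟩
          exact ⟨b, a, hMP m hm.1 b⟩
      rw [e1, Finset.card_erase_of_mem hm.2, h4 m hm.1]
    rw [Finset.sum_congr rfl h2, Finset.sum_const, smul_eq_mul] at h1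
    omega
  by_contra hcon
  push Not at hcon
  have h1 := sum_star hMP hex huq (hHP hh) ((Finset.erase_subset h H).trans hHP)
    (Finset.notMem_erase h H)
  rw [Finset.card_erase_of_mem hh, hH] at h1
  have hm' : m ∈ M.filter fun m => h ∈ m := Finset.mem_filter.mpr ⟨hm, hhm⟩
  rw [← Finset.add_sum_erase _ _ hm'] at h1
  have h2 : (m ∩ H.erase h).card = 0 := by
    rw [Finset.card_eq_zero, Finset.eq_empty_iff_forall_notMem]
    intro z hz
    rw [Finset.mem_inter, Finset.mem_erase] at hz
    exact hz.2.1 (hcon z (Finset.mem_inter.mpr ⟨hz.1, hz.2.2⟩))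
  have h3 : ∑ x ∈ (M.filter fun m => h ∈ m).erase m, (x ∩ H.erase h).card ≤
      ∑ x ∈ (M.filter fun m => h ∈ m).erase m, 1 := by
    apply Finset.sum_le_sum
    intro x hx
    rw [Finset.mem_erase, Finset.mem_filter] at hx
    have e1 := harc x hx.2.1
    have e2 : (x ∩ H.erase h).card + 1 = (x ∩ H).card := by
      rw [Finset.inter_erase]
      exact Finset.card_erase_add_one (Finset.mem_inter.mpr ⟨hx.2.2, hh⟩)
    omega
  rw [Finset.sum_const, smul_eq_mul, mul_one, Finset.card_erase_of_mem hm', deg] at h3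
  omega

end plane

/-- the blocks that contain a given set -/
theorem block_count {k : ℕ} {Bl : Finset (Finset (Fin k))} {t l : ℕ} (hc : ∀ B ∈ Bl, B.card = l)
    (hex : ∀ X : Finset (Fin k), X.card = t → ∃ B ∈ Bl, X ⊆ B)
    (huq : ∀ B ∈ Bl, ∀ B' ∈ Bl, ∀ X : Finset (Fin k), X.card = t → X ⊆ B → X ⊆ B' → B = B')
    {X : Finset (Fin k)} (hX : X.card ≤ t) :
    (Bl.filter fun B => X ⊆ B).card * (l - X.card).choose (t - X.card) =
      (k - X.card).choose (t - X.card) := by
  classical
  have h1 : (Finset.univ \ X).powersetCard (t - X.card) =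
      (Bl.filter fun B => X ⊆ B).biUnion fun B => (B \ X).powersetCard (t - X.card) := by
    ext Z
    simp only [Finset.mem_powersetCard, Finset.mem_biUnion, Finset.mem_filter]
    constructor
    · rintro ⟨h1, h2⟩
      have hd : Disjoint Z X := by
        rw [Finset.disjoint_left]
        intro z hz hz'
        exact (Finset.mem_sdiff.mp (h1 hz)).2 hz'
      have h3 : (Z ∪ X).card = t := by
        rw [Finset.card_union_of_disjoint hd, h2]
        omega
      obtain ⟨B, hB, h4⟩ := hex _ h3
      refine ⟨B, ⟨hB, Finset.subset_union_right.trans h4⟩, ?_, h2⟩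
      intro z hz
      rw [Finset.mem_sdiff]
      exact ⟨h4 (Finset.mem_union_left _ hz), (Finset.mem_sdiff.mp (h1 hz)).2⟩
    · rintro ⟨B, _, h1, h2⟩
      exact ⟨h1.trans (Finset.sdiff_subset_sdiff (Finset.subset_univ _) (Finset.Subset.refl _)), h2⟩
  have h2 := congrArg Finset.card h1
  rw [Finset.card_powersetCard, Finset.card_sdiff_of_subset (Finset.subset_univ _), Finset.card_univ,
    Fintype.card_fin, Finset.card_biUnion] at h2
  · rw [h2, Finset.card_eq_sum_ones, Finset.sum_mul]
    apply Finset.sum_congr rfl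
    intro B hB
    rw [Finset.mem_filter] at hB
    rw [one_mul, Finset.card_powersetCard, Finset.card_sdiff_of_subset hB.2, hc B hB.1]
  · intro B hB B' hB' hne
    rw [Finset.mem_coe, Finset.mem_filter] at hB hB'
    rw [Function.onFun, Finset.disjoint_left]
    intro Z hZ hZ'
    rw [Finset.mem_powersetCard] at hZ hZ'
    apply hne
    have hd : Disjoint Z X := by
      rw [Finset.disjoint_left]
      intro z hz hz'
      exact (Finset.mem_sdiff.mp (hZ.1 hz)).2 hz'
    apply huq B hB.1 B' hB'.1 (Z ∪ X)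
    · rw [Finset.card_union_of_disjoint hd, hZ.2]
      omega
    · exact Finset.union_subset (hZ.1.trans Finset.sdiff_subset) hB.2
    · exact Finset.union_subset (hZ'.1.trans Finset.sdiff_subset) hB'.2

/-- there is no Steiner system `S(4,6,18)` -/
theorem no_18 {Bl : Finset (Finset (Fin 18))} (hc : ∀ B ∈ Bl, B.card = 6)
    (hex : ∀ X : Finset (Fin 18), X.card = 4 → ∃ B ∈ Bl, X ⊆ B)
    (huq : ∀ B ∈ Bl, ∀ B' ∈ Bl, ∀ X : Finset (Fin 18), X.card = 4 → X ⊆ B → X ⊆ B' → B = B') :
    False := by
  classical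
  set N : Finset (Fin 18) → ℕ := fun X => (Bl.filter fun B => X ⊆ B).card with hN
  have n1 : ∀ X : Finset (Fin 18), X.card = 1 → N X = 68 := by
    intro X hX
    have := block_count hc hex huq (X := X) (by omega)
    rw [hX] at this
    have e1 : (6 - 1).choose (4 - 1) = 10 := by decide
    have e2 : (18 - 1).choose (4 - 1) = 680 := by decide
    rw [e1, e2] at this
    simp only [hN]
    omega
  have n2 : ∀ X : Finset (Fin 18), X.card = 2 → N X = 20 := by
    intro X hX
    have := block_count hc hex huq (X := X) (by omega)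
    rw [hX] at this
    have e1 : (6 - 2).choose (4 - 2) = 6 := by decide
    have e2 : (18 - 2).choose (4 - 2) = 120 := by decide
    rw [e1, e2] at this
    simp only [hN]
    omega
  have n3 : ∀ X : Finset (Fin 18), X.card = 3 → N X = 5 := by
    intro X hX
    have := block_count hc hex huq (X := X) (by omega)
    rw [hX] at this
    have e1 : (6 - 3).choose (4 - 3) = 3 := by decide
    have e2 : (18 - 3).choose (4 - 3) = 15 := by decide
    rw [e1, e2] at this
    simp only [hN]
    omega
  have n4 : ∀ X : Finset (Fin 18), X.card = 4 → N X = 1 := by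
    intro X hX
    have := block_count hc hex huq (X := X) (by omega)
    rw [hX] at this
    simpa [hN] using this
  have four : ∀ B ∈ Bl, ∀ B' ∈ Bl, 4 ≤ (B ∩ B').card → B = B' := by
    intro B hB B' hB' h
    obtain ⟨X, hX, hXc⟩ := Finset.exists_subset_card_eq h
    exact huq B hB B' hB' X hXc (hX.trans Finset.inter_subset_left) (hX.trans Finset.inter_subset_right)
  obtain ⟨x, y, hxy⟩ : ∃ x y : Fin 18, x ≠ y := ⟨0, 1, by decide⟩
  set P : Finset (Fin 18) := Finset.univ \ {x, y} with hP
  have hPmem : ∀ z, z ∈ P ↔ z ≠ x ∧ z ≠ y := by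
    intro z
    simp [hP]
  have hPc : P.card = 16 := by
    rw [hP, Finset.card_sdiff_of_subset (Finset.subset_univ _), Finset.card_pair hxy, Finset.card_univ,
      Fintype.card_fin]
  set M : Finset (Finset (Fin 18)) := (Bl.filter fun B => {x, y} ⊆ B).image fun B => B \ {x, y} with hM
  have hMmem : ∀ m ∈ M, ∃ B ∈ Bl, x ∈ B ∧ y ∈ B ∧ m = B \ {x, y} := by
    intro m hm
    rw [hM, Finset.mem_image] at hm
    obtain ⟨B, hB, rfl⟩ := hm
    rw [Finset.mem_filter] at hB
    exact ⟨B, hB.1, hB.2 (by simp), hB.2 (by simp), rfl⟩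
  have hM4 : ∀ m ∈ M, m.card = 4 := by
    intro m hm
    obtain ⟨B, hB, h1, h2, rfl⟩ := hMmem m hm
    have h3 : ({x, y} : Finset (Fin 18)) ⊆ B := by
      intro z hz
      simp only [Finset.mem_insert, Finset.mem_singleton] at hz
      rcases hz with rfl | rfl
      · exact h1
      · exact h2
    rw [Finset.card_sdiff_of_subset h3, Finset.card_pair hxy, hc B hB]
  have hMP : ∀ m ∈ M, m ⊆ P := by
    intro m hm
    obtain ⟨B, _, _, _, rfl⟩ := hMmem m hm
    exact Finset.sdiff_subset_sdiff (Finset.subset_univ _) (Finset.Subset.refl _)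
  have hMex : ∀ p ∈ P, ∀ q ∈ P, p ≠ q → ∃ m ∈ M, p ∈ m ∧ q ∈ m := by
    intro p hp q hq hpq
    rw [hPmem] at hp hq
    have h1 : ({x, y, p, q} : Finset (Fin 18)).card = 4 := by
      rw [Finset.card_insert_of_notMem, Finset.card_insert_of_notMem, Finset.card_pair hpq]
      · simp only [Finset.mem_insert, Finset.mem_singleton, not_or]
        exact ⟨hp.2.symm, hq.2.symm⟩
      · simp only [Finset.mem_insert, Finset.mem_singleton, not_or]
        exact ⟨hxy, hp.1.symm, hq.1.symm⟩
    obtain ⟨B, hB, hXB⟩ := hex _ h1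
    refine ⟨B \ {x, y}, ?_, ?_, ?_⟩
    · rw [hM, Finset.mem_image]
      refine ⟨B, Finset.mem_filter.mpr ⟨hB, ?_⟩, rfl⟩
      intro z hz
      apply hXB
      simp only [Finset.mem_insert, Finset.mem_singleton] at hz ⊢
      tauto
    · rw [Finset.mem_sdiff]
      refine ⟨hXB (by simp), ?_⟩
      simp only [Finset.mem_insert, Finset.mem_singleton, not_or]
      exact hp
    · rw [Finset.mem_sdiff]
      refine ⟨hXB (by simp), ?_⟩
      simp only [Finset.mem_insert, Finset.mem_singleton, not_or]
      exact hq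
  have hMuq : ∀ m ∈ M, ∀ m' ∈ M, ∀ p q, p ≠ q → p ∈ m → q ∈ m → p ∈ m' → q ∈ m' → m = m' := by
    intro m hm m' hm' p q hpq h1 h2 h3 h4
    obtain ⟨B, hB, b1, b2, rfl⟩ := hMmem m hm
    obtain ⟨B', hB', b3, b4, rfl⟩ := hMmem m' hm'
    have hp := (hPmem p).mp (hMP _ hm h1)
    have hq := (hPmem q).mp (hMP _ hm h2)
    rw [Finset.mem_sdiff] at h1 h2 h3 h4
    have h5 : ({x, y, p, q} : Finset (Fin 18)).card = 4 := by
      rw [Finset.card_insert_of_notMem, Finset.card_insert_of_notMem, Finset.card_pair hpq]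
      · simp only [Finset.mem_insert, Finset.mem_singleton, not_or]
        exact ⟨hp.2.symm, hq.2.symm⟩
      · simp only [Finset.mem_insert, Finset.mem_singleton, not_or]
        exact ⟨hxy, hp.1.symm, hq.1.symm⟩
    have h6 : ({x, y, p, q} : Finset (Fin 18)) ⊆ B := by
      intro z hz
      simp only [Finset.mem_insert, Finset.mem_singleton] at hz
      rcases hz with rfl | rfl | rfl | rfl
      · exact b1
      · exact b2
      · exact h1.1
      · exact h2.1
    have h7 : ({x, y, p, q} : Finset (Fin 18)) ⊆ B' := by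
      intro z hz
      simp only [Finset.mem_insert, Finset.mem_singleton] at hz
      rcases hz with rfl | rfl | rfl | rfl
      · exact b3
      · exact b4
      · exact h3.1
      · exact h4.1
    rw [huq B hB B' hB' _ h5 h6 h7]
  -- a block through x and not through y
  obtain ⟨B0, hB0, hx0, hy0⟩ : ∃ B ∈ Bl, x ∈ B ∧ y ∉ B := by
    by_contra hcon
    push Not at hcon
    have h1 := n1 {x} (Finset.card_singleton x)
    have h2 := n2 {x, y} (Finset.card_pair hxy)
    have h3 : (Bl.filter fun B => {x} ⊆ B) ⊆ Bl.filter fun B => {x, y} ⊆ B := by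
      intro B hB
      rw [Finset.mem_filter, Finset.singleton_subset_iff] at hB
      rw [Finset.mem_filter]
      refine ⟨hB.1, ?_⟩
      intro z hz
      simp only [Finset.mem_insert, Finset.mem_singleton] at hz
      rcases hz with rfl | rfl
      · exact hB.2
      · exact hcon B hB.1 hB.2
    have h4 := Finset.card_le_card h3
    simp only [hN] at h1 h2
    omega
  set c := B0.erase x with hcdef
  have hcP : c ⊆ P := by
    intro z hz
    rw [hcdef, Finset.mem_erase] at hz
    rw [hPmem]
    exact ⟨hz.1, fun h => hy0 (h ▸ hz.2)⟩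
  have hcc : c.card = 5 := by
    rw [hcdef, Finset.card_erase_of_mem hx0, hc B0 hB0]
  have hcB0 : c ⊆ B0 := Finset.erase_subset _ _
  have harc : ∀ m ∈ M, (m ∩ c).card ≤ 2 := by
    intro m hm
    obtain ⟨B, hB, b1, b2, rfl⟩ := hMmem m hm
    by_contra hcon
    push Not at hcon
    have h1 : insert x ((B \ {x, y}) ∩ c) ⊆ B ∩ B0 := by
      intro z hz
      rw [Finset.mem_insert] at hz
      rcases hz with rfl | hz
      · exact Finset.mem_inter.mpr ⟨b1, hx0⟩
      · rw [Finset.mem_inter, Finset.mem_sdiff] at hz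
        exact Finset.mem_inter.mpr ⟨hz.1.1, hcB0 hz.2⟩
    have h2 := Finset.card_le_card h1
    rw [Finset.card_insert_of_notMem (by simp [hcdef])] at h2
    have h3 := four B hB B0 hB0 (by omega)
    exact hy0 (h3 ▸ b2)
  obtain ⟨n, hnP, hnc, hn⟩ := nucleus hPc hM4 hMP hMex hMuq hcP hcc harc
  set H := insert n c with hHdef
  have hHP : H ⊆ P := Finset.insert_subset hnP hcP
  have hHc : H.card = 6 := by rw [hHdef, Finset.card_insert_of_notMem hnc, hcc]
  have hHarc : ∀ m ∈ M, (m ∩ H).card ≤ 2 := by
    intro m hm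
    by_cases hnm : n ∈ m
    · rw [hHdef, Finset.inter_insert_of_mem hnm, Finset.card_insert_of_notMem (by simp [hnc])]
      have := hn m hm hnm
      omega
    · rw [hHdef, Finset.inter_insert_of_notMem hnm]
      exact harc m hm
  have hxH : x ∉ H := fun h => ((hPmem x).mp (hHP h)).1 rfl
  have hyH : y ∉ H := fun h => ((hPmem y).mp (hHP h)).2 rfl
  -- the blocks through y and not through x
  set F := Bl.filter fun B => y ∈ B ∧ x ∉ B with hF
  have hFle : ∀ B ∈ F, (B ∩ H).card ≤ 3 := by
    intro B hB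
    rw [hF, Finset.mem_filter] at hB
    obtain ⟨hB, hyB, hxB⟩ := hB
    by_contra hcon
    push Not at hcon
    have hBc : (B ∩ c).card ≤ 3 := by
      by_contra h
      push Not at h
      have h1 : B = B0 := four B hB B0 hB0 ((show 4 ≤ (B ∩ c).card by omega).trans
        (Finset.card_le_card (Finset.inter_subset_inter (Finset.Subset.refl _) hcB0)))
      exact hy0 (h1 ▸ hyB)
    have h4 : (B ∩ H).card = 4 := by
      by_cases hnB : n ∈ B
      · rw [hHdef, Finset.inter_insert_of_mem hnB] at hcon ⊢
        have := Finset.card_insert_le n (B ∩ c)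
        omega
      · rw [hHdef, Finset.inter_insert_of_notMem hnB] at hcon
        omega
    -- the sixth point of B
    obtain ⟨f, hf⟩ : ∃ f, f ∈ B.erase y ∧ f ∉ H := by
      by_contra h
      push Not at h
      have h1 : B.erase y ⊆ B ∩ H := fun z hz =>
        Finset.mem_inter.mpr ⟨(Finset.mem_erase.mp hz).2, h z hz⟩
      have h2 := Finset.card_le_card h1
      rw [Finset.card_erase_of_mem hyB, hc B hB] at h2
      omega
    rw [Finset.mem_erase] at hf
    have hfP : f ∈ P := by
      rw [hPmem]
      exact ⟨fun h => hxB (h ▸ hf.1.2), hf.1.1⟩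
    -- lines through f
    have hline : ∀ a ∈ B ∩ H, ∃ h' ∈ H \ (B ∩ H), ∃ m ∈ M, f ∈ m ∧ a ∈ m ∧ h' ∈ m := by
      intro a ha
      rw [Finset.mem_inter] at ha
      have hfa : f ≠ a := by rintro rfl; exact hf.2 ha.2
      obtain ⟨m, hm, h1, h2⟩ := hMex f hfP a (hHP ha.2) hfa
      obtain ⟨h', hh', hne⟩ := secant hPc hM4 hMP hMex hMuq hHP hHc hHarc ha.2 hm h2
      rw [Finset.mem_inter] at hh'
      refine ⟨h', ?_, m, hm, h1, h2, hh'.1⟩
      rw [Finset.mem_sdiff]
      refine ⟨hh'.2, ?_⟩
      intro hB'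
      rw [Finset.mem_inter] at hB'
      obtain ⟨B1, hB1, b1, b2, rfl⟩ := hMmem m hm
      rw [Finset.mem_sdiff] at h1 h2 hh'
      have h3 : ({y, f, a, h'} : Finset (Fin 18)) ⊆ B1 ∩ B := by
        intro z hz
        simp only [Finset.mem_insert, Finset.mem_singleton] at hz
        rw [Finset.mem_inter]
        rcases hz with rfl | rfl | rfl | rfl
        · exact ⟨b2, hyB⟩
        · exact ⟨h1.1, hf.1.2⟩
        · exact ⟨h2.1, ha.1⟩
        · exact ⟨hh'.1.1, hB'.1⟩
      have h5 : ({y, f, a, h'} : Finset (Fin 18)).card = 4 := by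
        rw [Finset.card_insert_of_notMem, Finset.card_insert_of_notMem, Finset.card_pair hne.symm]
        · simp only [Finset.mem_insert, Finset.mem_singleton, not_or]
          exact ⟨hfa, fun h => hf.2 (h ▸ hB'.2)⟩
        · simp only [Finset.mem_insert, Finset.mem_singleton, not_or]
          exact ⟨hf.1.1.symm, fun h => hyH (h ▸ ha.2), fun h => hyH (h ▸ hB'.2)⟩
      have h6 := Finset.card_le_card h3
      have h7 := four B1 hB1 B hB (by omega)
      exact hxB (h7 ▸ b1)
    choose! g hg1 hg2 using hline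
    have hHB : (H \ (B ∩ H)).card = 2 := by
      rw [Finset.card_sdiff_of_subset Finset.inter_subset_right, hHc, h4]
    obtain ⟨a, ha, a', ha', hne, hgg⟩ := Finset.exists_ne_map_eq_of_card_lt_of_maps_to
      (s := B ∩ H) (t := H \ (B ∩ H)) (f := g) (by omega) (fun a ha => hg1 a ha)
    obtain ⟨m, hm, c1, c2, c3⟩ := hg2 a ha
    obtain ⟨m', hm', d1, d2, d3⟩ := hg2 a' ha'
    have hfg : f ≠ g a := by
      intro h
      have := (Finset.mem_sdiff.mp (hg1 a ha)).1
      rw [← h] at this
      exact hf.2 this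
    have e1 := hMuq m hm m' hm' f (g a) hfg c1 c3 d1 (by rw [hgg]; exact d3)
    subst e1
    have e2 := hHarc m hm
    have e3 : ({a, a', g a} : Finset (Fin 18)) ⊆ m ∩ H := by
      intro z hz
      simp only [Finset.mem_insert, Finset.mem_singleton] at hz
      rw [Finset.mem_inter]
      rcases hz with rfl | rfl | rfl
      · exact ⟨c2, (Finset.mem_inter.mp ha).2⟩
      · exact ⟨d2, (Finset.mem_inter.mp ha').2⟩
      · exact ⟨c3, (Finset.mem_sdiff.mp (hg1 a ha)).1⟩
    have e4 : ({a, a', g a} : Finset (Fin 18)).card = 3 := by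
      rw [Finset.card_eq_three]
      refine ⟨a, a', g a, hne, ?_, ?_, rfl⟩
      · intro h
        have := (Finset.mem_sdiff.mp (hg1 a ha)).2
        rw [← h] at this
        exact this ha
      · intro h
        have := (Finset.mem_sdiff.mp (hg1 a ha)).2
        rw [← h] at this
        exact this ha'
    have e5 := Finset.card_le_card e3
    omega
  -- the numbers of blocks in F that contain given points of H
  have hFN : ∀ X : Finset (Fin 18), X ⊆ H → (F.filter fun B => X ⊆ B).card +
      N (insert x (insert y X)) = N (insert y X) := by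
    intro X hX
    simp only [hN]
    rw [← Finset.card_union_of_disjoint]
    · congr 1
      ext B
      simp only [hF, Finset.mem_union, Finset.mem_filter, Finset.insert_subset_iff]
      tauto
    · rw [Finset.disjoint_left]
      intro B hB hB'
      simp only [hF, Finset.mem_filter, Finset.insert_subset_iff] at hB hB'
      tauto
  have hins : ∀ X : Finset (Fin 18), X ⊆ H → (insert y X).card = X.card + 1 ∧
      (insert x (insert y X)).card = X.card + 2 := by
    intro X hX
    have h1 : y ∉ X := fun h => hyH (hX h)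
    have h2 : x ∉ insert y X := by
      rw [Finset.mem_insert, not_or]
      exact ⟨hxy, fun h => hxH (hX h)⟩
    rw [Finset.card_insert_of_notMem h2, Finset.card_insert_of_notMem h1]
    exact ⟨rfl, rfl⟩
  have f0 : F.card = 48 := by
    have h1 := hFN ∅ (Finset.empty_subset _)
    have h2 := hins ∅ (Finset.empty_subset _)
    have e1 : N (insert y ∅) = 68 := n1 _ (by rw [h2.1]; rfl)
    have e2 : N (insert x (insert y ∅)) = 20 := n2 _ (by rw [h2.2]; rfl)
    simp only [Finset.empty_subset, Finset.filter_true] at h1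
    omega
  have f1 : ∀ X ⊆ H, X.card = 1 → (F.filter fun B => X ⊆ B).card = 15 := by
    intro X hX hXc
    have h1 := hFN X hX
    have h2 := hins X hX
    have e1 : N (insert y X) = 20 := n2 _ (by rw [h2.1, hXc])
    have e2 : N (insert x (insert y X)) = 5 := n3 _ (by rw [h2.2, hXc])
    omega
  have f2 : ∀ X ⊆ H, X.card = 2 → (F.filter fun B => X ⊆ B).card = 4 := by
    intro X hX hXc
    have h1 := hFN X hX
    have h2 := hins X hX
    have e1 : N (insert y X) = 5 := n3 _ (by rw [h2.1, hXc])
    have e2 : N (insert x (insert y X)) = 1 := n4 _ (by rw [h2.2, hXc])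
    omega
  have f3 : ∀ X ⊆ H, X.card = 3 → (F.filter fun B => X ⊆ B).card = 1 := by
    intro X hX hXc
    have h1 := hFN X hX
    have h2 := hins X hX
    have h3 : N (insert x (insert y X)) = 0 := by
      simp only [hN]
      rw [Finset.card_eq_zero, Finset.filter_eq_empty_iff]
      intro B hB hXB
      rw [Finset.insert_subset_iff, Finset.insert_subset_iff] at hXB
      have h4 : B \ {x, y} ∈ M := by
        rw [hM, Finset.mem_image]
        refine ⟨B, Finset.mem_filter.mpr ⟨hB, ?_⟩, rfl⟩
        intro z hz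
        simp only [Finset.mem_insert, Finset.mem_singleton] at hz
        rcases hz with rfl | rfl
        · exact hXB.1
        · exact hXB.2.1
      have h5 := hHarc _ h4
      have h6 : X ⊆ (B \ {x, y}) ∩ H := by
        intro z hz
        rw [Finset.mem_inter, Finset.mem_sdiff]
        refine ⟨⟨hXB.2.2 hz, ?_⟩, hX hz⟩
        simp only [Finset.mem_insert, Finset.mem_singleton, not_or]
        exact ⟨fun h => hxH (h ▸ hX hz), fun h => hyH (h ▸ hX hz)⟩
      have h7 := Finset.card_le_card h6
      omega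
    have e1 : N (insert y X) = 1 := n4 _ (by rw [h2.1, hXc])
    omega
  -- inclusion and exclusion
  have dcount : ∀ j : ℕ, ∑ B ∈ F, (B ∩ H).card.choose j =
      ∑ X ∈ H.powersetCard j, (F.filter fun B => X ⊆ B).card := by
    intro j
    simp_rw [Finset.card_filter]
    rw [Finset.sum_comm]
    apply Finset.sum_congr rfl
    intro B _
    rw [← Finset.card_filter, ← Finset.card_powersetCard]
    congr 1
    ext X
    simp only [Finset.mem_powersetCard, Finset.mem_filter, Finset.subset_inter_iff]
    tauto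
  have s1 : ∑ B ∈ F, (B ∩ H).card.choose 1 = 90 := by
    rw [dcount 1, Finset.sum_congr rfl (fun X hX => f1 X (Finset.mem_powersetCard.mp hX).1
      (Finset.mem_powersetCard.mp hX).2), Finset.sum_const, Finset.card_powersetCard, hHc]
    decide
  have s2 : ∑ B ∈ F, (B ∩ H).card.choose 2 = 60 := by
    rw [dcount 2, Finset.sum_congr rfl (fun X hX => f2 X (Finset.mem_powersetCard.mp hX).1
      (Finset.mem_powersetCard.mp hX).2), Finset.sum_const, Finset.card_powersetCard, hHc]
    decide
  have s3 : ∑ B ∈ F, (B ∩ H).card.choose 3 = 20 := by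
    rw [dcount 3, Finset.sum_congr rfl (fun X hX => f3 X (Finset.mem_powersetCard.mp hX).1
      (Finset.mem_powersetCard.mp hX).2), Finset.sum_const, Finset.card_powersetCard, hHc]
    decide
  have s4 : ∑ B ∈ F, ((B ∩ H).card.choose 1 + (B ∩ H).card.choose 3) ≤
      ∑ B ∈ F, (1 + (B ∩ H).card.choose 2) := by
    apply Finset.sum_le_sum
    intro B hB
    have := hFle B hB
    interval_cases (B ∩ H).card <;> decide
  rw [Finset.sum_add_distrib, Finset.sum_add_distrib, s1, s2, s3, Finset.sum_const, f0] at s4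
  norm_num at s4

theorem RB_eighteen : RB 18 {0, 1, 2, 3, 6} 5 := by
  classical
  apply RB.of_cover (by norm_num)
  intro T hI hT hcov
  apply no_18 (Bl := T.filter fun A => A.card = 6)
  · intro B hB
    exact (Finset.mem_filter.mp hB).2
  · intro X hX
    obtain ⟨A, hA, hXA⟩ := hcov X (by omega)
    refine ⟨A, Finset.mem_filter.mpr ⟨hA, ?_⟩, hXA⟩
    have h1 := hT A hA
    have h2 := Finset.card_le_card hXA
    simp only [Finset.mem_insert, Finset.mem_singleton] at h1
    omega
  · intro B hB B' hB' X hX hXB hXB'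
    rw [Finset.mem_filter] at hB hB'
    have h1 := hT _ (hI B hB.1 B' hB'.1)
    have h2 := Finset.card_le_card (Finset.subset_inter hXB hXB')
    simp only [Finset.mem_insert, Finset.mem_singleton] at h1
    have h3 : B ∩ B' = B := Finset.eq_of_subset_of_card_le Finset.inter_subset_left (by omega)
    have h4 : B ∩ B' = B' := Finset.eq_of_subset_of_card_le Finset.inter_subset_right (by omega)
    rw [← h3, h4]

end Pool.Agent.Helper138_LS
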