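import Pool.Agent.Helper138_LS.RelF
import Pool.Agent.Helper138_LS.AffNeg

/-!
From systems back to relations, and the pairs `(k, {0,1,l})` with `k` close to `l ^ 2`.
-/

set_option autoImplicit false

open Finset

namespace Pool.Agent.Helper138_LS

open Pool.Agent.H480R2.LS

/-- the graph of a function -/
def graphSet {k n : ℕ} (f : Fin k → Fin n) : Finset (Fin (k * n)) :=
  Finset.univ.image fun i : Fin k => finProdFinEquiv (i, f i)

theorem mem_graphSet {k n : ℕ} {f : Fin k → Fin n} {x : Fin (k * n)} :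
    x ∈ graphSet f ↔ ∃ i, finProdFinEquiv (i, f i) = x := by
  simp [graphSet]

theorem card_graphSet {k n : ℕ} (f : Fin k → Fin n) : (graphSet f).card = k := by
  rw [graphSet, Finset.card_image_of_injective, Finset.card_univ, Fintype.card_fin]
  intro i j hij
  have h := finProdFinEquiv.injective hij
  exact (Prod.mk.injEq _ _ _ _ ▸ h).1

theorem card_graphSet_inter {k n : ℕ} (f g : Fin k → Fin n) :
    (graphSet f ∩ graphSet g).card = (agr f g).card := by
  classical
  have h : graphSet f ∩ graphSet g = (agr f g).image fun i : Fin k => finProdFinEquiv (i, f i) := by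
    ext x
    rw [Finset.mem_inter, mem_graphSet, mem_graphSet, Finset.mem_image]
    constructor
    · rintro ⟨⟨i, hi⟩, ⟨j, hj⟩⟩
      have h1 := finProdFinEquiv.injective (hi.trans hj.symm)
      rw [Prod.mk.injEq] at h1
      obtain ⟨rfl, h2⟩ := h1
      exact ⟨i, mem_agr.mpr h2, hi⟩
    · rintro ⟨i, hi, hx⟩
      exact ⟨⟨i, hx⟩, ⟨i, by rw [← mem_agr.mp hi]; exact hx⟩⟩
  rw [h, Finset.card_image_of_injective]
  intro i j hij
  have h := finProdFinEquiv.injective hij
  exact (Prod.mk.injEq _ _ _ _ ▸ h).1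

theorem graphSet_injective {k n : ℕ} : Function.Injective (graphSet : (Fin k → Fin n) → _) := by
  intro f g hfg
  by_contra hne
  have h1 := card_graphSet_inter f g
  rw [hfg, Finset.inter_self, card_graphSet] at h1
  apply agr_ne_univ hne
  rw [← Finset.card_eq_iff_eq_univ, ← h1, Fintype.card_fin]

/-- from systems to relations -/
theorem RB.of_sys {k s : ℕ} {L : Finset ℕ} (hk : 1 ≤ k) (hs : 1 ≤ s)
    (h : ∃ e : ℝ, 0 < e ∧ ∃ C : ℝ, ∀ (n : ℕ) (F : Finset (Finset (Fin n))), (∀ A ∈ F, A.card = k) →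
      (∀ A ∈ F, ∀ B ∈ F, A ≠ B → (A ∩ B).card ∈ L) → (F.card : ℝ) ≤ C * (n : ℝ) ^ ((s : ℝ) - e)) :
    RB k L s := by
  classical
  obtain ⟨e, he, C, h⟩ := h
  refine ⟨min e 1, lt_min he one_pos, min_le_right _ _,
    max (max C 1 * (k : ℝ) ^ ((s : ℝ) - min e 1)) 1, le_max_right _ _, fun n hn T R hI hT hR => ?_⟩
  have hn' : (0 : ℝ) < n := by exact_mod_cast hn
  have hk' : (0 : ℝ) < k := by exact_mod_cast hk
  have hs' : (1 : ℝ) ≤ s := by exact_mod_cast hs
  have hkn : (1 : ℝ) ≤ ((k * n : ℕ) : ℝ) := by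
    exact_mod_cast Nat.mul_pos hk hn
  have h1 := h (k * n) (R.image graphSet) (by
    intro A hA
    rw [Finset.mem_image] at hA
    obtain ⟨f, _, rfl⟩ := hA
    exact card_graphSet f) (by
    intro A hA B hB hAB
    rw [Finset.mem_image] at hA hB
    obtain ⟨f, hf, rfl⟩ := hA
    obtain ⟨g, hg, rfl⟩ := hB
    rw [card_graphSet_inter]
    exact hT _ (hR f hf g hg (fun h => hAB (by rw [h]))))
  rw [Finset.card_image_of_injective _ graphSet_injective] at h1
  have h2 : ((k * n : ℕ) : ℝ) ^ ((s : ℝ) - e) ≤ ((k * n : ℕ) : ℝ) ^ ((s : ℝ) - min e 1) := by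
    apply Real.rpow_le_rpow_of_exponent_le hkn
    have := min_le_left e 1
    linarith
  have h3 : (0 : ℝ) ≤ ((k * n : ℕ) : ℝ) ^ ((s : ℝ) - e) := by positivity
  have h4 : (0 : ℝ) < max C 1 := lt_of_lt_of_le one_pos (le_max_right _ _)
  calc (R.card : ℝ) ≤ C * ((k * n : ℕ) : ℝ) ^ ((s : ℝ) - e) := h1
    _ ≤ max C 1 * ((k * n : ℕ) : ℝ) ^ ((s : ℝ) - e) := mul_le_mul_of_nonneg_right (le_max_left _ _) h3
    _ ≤ max C 1 * ((k * n : ℕ) : ℝ) ^ ((s : ℝ) - min e 1) := mul_le_mul_of_nonneg_left h2 h4.le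
    _ = max C 1 * (k : ℝ) ^ ((s : ℝ) - min e 1) * (n : ℝ) ^ ((s : ℝ) - min e 1) := by
      push_cast
      rw [Real.mul_rpow hk'.le hn'.le]
      ring
    _ ≤ _ := mul_le_mul_of_nonneg_right (le_max_left _ _) (by positivity)

/-- counting the blocks through a point -/
theorem RB.div_point {k l : ℕ} (hl : 3 ≤ l) (h : ¬ (l - 1) ∣ k) : RB (k + 1) {0, 1, l} 3 := by
  have h1 : dn {0, 1, l} = {0, l - 1} := by
    ext i
    rw [mem_dn]
    simp only [Finset.mem_insert, Finset.mem_singleton]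
    omega
  apply RB.link
  rw [h1]
  apply RB.scale (g := l - 1) (by omega) (by simp) (by simp)
  · intro i hi hi0
    simp only [Finset.mem_insert, Finset.mem_singleton] at hi
    omega
  · exact Finset.card_pair (by omega)
  · intro hd
    exact absurd hd h

/-- the pairs `(k, {0,1,l})` with `k < l ^ 2 + 2 l - 2` that are not parameters of a plane -/
theorem RB.near_plane {k l : ℕ} (hl : 3 ≤ l) (hlk : l < k) (hk : k + 2 < l ^ 2 + 2 * l)
    (h1 : k ≠ l ^ 2) (h2 : k + l ≠ l ^ 2 + 1) : RB k {0, 1, l} 3 := by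
  obtain ⟨l, rfl⟩ : ∃ m, l = m + 1 := ⟨l - 1, by omega⟩
  obtain ⟨k, rfl⟩ : ∃ m, k = m + 1 := ⟨k - 1, by omega⟩
  by_cases hdiv : l ∣ k
  swap
  · exact RB.div_point hl (by rw [Nat.add_sub_cancel]; exact hdiv)
  obtain ⟨r, rfl⟩ := hdiv
  by_cases hf : l * r < (l + 1) * l
  · apply RB.fisher (by omega) hlk
    rw [Nat.add_sub_cancel, Nat.add_sub_cancel]
    exact hf
  push Not at hf
  have hl0 : 0 < l := by omega
  have hr1 : l + 1 ≤ r := by
    by_contra hcon
    have : l * r ≤ l * l := Nat.mul_le_mul_left _ (by omega)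
    nlinarith
  have hr2 : r < l + 4 := by
    by_contra hcon
    have : l * (l + 4) ≤ l * r := Nat.mul_le_mul_left _ (by omega)
    nlinarith
  have hr3 : r = l + 3 := by
    by_contra hcon
    have : r = l + 1 ∨ r = l + 2 := by omega
    rcases this with rfl | rfl
    · apply h2
      ring
    · apply h1
      ring
  subst hr3
  have h3 : insert (l + 1) (Finset.range 2) = ({0, 1, l + 1} : Finset ℕ) := by
    ext i
    simp only [Finset.mem_insert, Finset.mem_range, Finset.mem_singleton]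
    omega
  rw [← h3]
  apply RB.steiner (by omega)
  rintro ⟨c, hc⟩
  have e1 : 2 * (l * (l + 3) + 1).choose 2 = (l * (l + 3) + 1) * (l * (l + 3)) := by
    have := Nat.triangle_succ (l * (l + 3))
    rw [Nat.choose_two_right, Nat.add_sub_cancel]
    exact Nat.mul_div_cancel' (Nat.even_mul_pred_self _ |>.two_dvd)
  have e2 : 2 * (l + 1).choose 2 = (l + 1) * l := by
    rw [Nat.choose_two_right, Nat.add_sub_cancel]
    exact Nat.mul_div_cancel' (Nat.even_mul_pred_self (l + 1) |>.two_dvd)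
  rw [hc] at e1
  have e3 : (l + 1) * l * c = (l * (l + 3) + 1) * (l * (l + 3)) := by
    rw [← e1, ← e2]
    ring
  have e4 : (l + 1) * c = (l * (l + 3) + 1) * (l + 3) := by
    apply Nat.eq_of_mul_eq_mul_left hl0
    calc l * ((l + 1) * c) = (l + 1) * l * c := by ring
      _ = _ := e3
      _ = _ := by ring
  have e5 : (l * (l + 3) + 1) * (l + 3) = (l + 1) * (l ^ 2 + 5 * l + 5) - 2 := by
    have : (l + 1) * (l ^ 2 + 5 * l + 5) = (l * (l + 3) + 1) * (l + 3) + 2 := by ring
    omega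
  have e6 : (l + 1) ∣ 2 := by
    have h7 : (l + 1) * (l ^ 2 + 5 * l + 5) = (l + 1) * c + 2 := by
      rw [e4]
      ring
    have h8 : (l + 1) ∣ (l + 1) * c + 2 := ⟨_, h7.symm⟩
    exact (Nat.dvd_add_right (dvd_mul_right _ _)).mp h8
  have := Nat.le_of_dvd (by norm_num) e6
  omega

end Pool.Agent.Helper138_LS
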