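import Pool.Agent.Helper138_LS.Vamos

/-!
Every Steiner system `S(3,6,22)` contains a Vamos type configuration.
-/

set_option autoImplicit false

open Finset

namespace Pool.Agent.Helper138_LS

open Pool.Agent.H480R2.LS

section w22

variable {T : Finset (Finset (Fin 22))}

theorem w_card (hT : ∀ A ∈ T, A.card ∈ ({0, 1, 2, 6} : Finset ℕ)) {A : Finset (Fin 22)} (hA : A ∈ T)
    {x y z : Fin 22} (hxy : x ≠ y) (hxz : x ≠ z) (hyz : y ≠ z) (hx : x ∈ A) (hy : y ∈ A) (hz : z ∈ A) :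
    A.card = 6 := by
  have h1 : ({x, y, z} : Finset (Fin 22)) ⊆ A := by
    intro t ht
    simp only [Finset.mem_insert, Finset.mem_singleton] at ht
    rcases ht with rfl | rfl | rfl <;> assumption
  have h2 : ({x, y, z} : Finset (Fin 22)).card = 3 := Finset.card_eq_three.mpr ⟨x, y, z, hxy, hxz, hyz, rfl⟩
  have h3 := Finset.card_le_card h1
  have h4 := hT A hA
  simp only [Finset.mem_insert, Finset.mem_singleton] at h4
  omega

theorem w_uniq (hI : IC T) (hT : ∀ A ∈ T, A.card ∈ ({0, 1, 2, 6} : Finset ℕ)) {A B : Finset (Fin 22)}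
    (hA : A ∈ T) (hB : B ∈ T) {x y z : Fin 22} (hxy : x ≠ y) (hxz : x ≠ z) (hyz : y ≠ z)
    (hx : x ∈ A) (hy : y ∈ A) (hz : z ∈ A) (hx' : x ∈ B) (hy' : y ∈ B) (hz' : z ∈ B) : A = B := by
  have h1 := hI A hA B hB
  have h2 := w_card hT h1 hxy hxz hyz (Finset.mem_inter.mpr ⟨hx, hx'⟩) (Finset.mem_inter.mpr ⟨hy, hy'⟩)
    (Finset.mem_inter.mpr ⟨hz, hz'⟩)
  have h3 := w_card hT hA hxy hxz hyz hx hy hz
  have h4 := w_card hT hB hxy hxz hyz hx' hy' hz'
  have h5 : A ∩ B = A := Finset.eq_of_subset_of_card_le Finset.inter_subset_left (by omega)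
  have h6 : A ∩ B = B := Finset.eq_of_subset_of_card_le Finset.inter_subset_right (by omega)
  rw [← h5]; exact h6

/-- two blocks with a common point have a second common point -/
theorem w_meet (hI : IC T) (hT : ∀ A ∈ T, A.card ∈ ({0, 1, 2, 6} : Finset ℕ))
    (hcov : ∀ x y z : Fin 22, x ≠ y → x ≠ z → y ≠ z → ∃ A ∈ T, x ∈ A ∧ y ∈ A ∧ z ∈ A)
    {A B : Finset (Fin 22)} (hA : A ∈ T) (hB : B ∈ T) (hA6 : A.card = 6) (hB6 : B.card = 6)
    {x : Fin 22} (hx : x ∈ A) (hx' : x ∈ B) : ∃ y, y ≠ x ∧ y ∈ A ∧ y ∈ B := by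
  classical
  by_contra hcon
  push Not at hcon
  obtain ⟨y, hyB, hyx⟩ : ∃ y ∈ B, y ≠ x := by
    apply Finset.exists_mem_ne
    omega
  have hyA : y ∉ A := fun h => hcon y hyx h hyB
  -- the blocks through x, y and the points of A
  have hex : ∀ z ∈ A.erase x, ∃ D ∈ T, x ∈ D ∧ y ∈ D ∧ z ∈ D := by
    intro z hz
    rw [Finset.mem_erase] at hz
    exact hcov x y z hyx.symm hz.1.symm (fun h => hyA (h ▸ hz.2))
  choose! D hD using hex
  set E : Finset (Finset (Fin 22)) := insert B ((A.erase x).image D) with hE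
  have hET : ∀ K ∈ E, K ∈ T ∧ x ∈ K ∧ y ∈ K ∧ K.card = 6 := by
    intro K hK
    rw [hE, Finset.mem_insert, Finset.mem_image] at hK
    rcases hK with rfl | ⟨z, hz, rfl⟩
    · exact ⟨hB, hx', hyB, hB6⟩
    · have h1 := hD z hz
      rw [Finset.mem_erase] at hz
      refine ⟨h1.1, h1.2.1, h1.2.2.1, ?_⟩
      exact w_card hT h1.1 hyx.symm hz.1.symm (fun h => hyA (h ▸ hz.2)) h1.2.1 h1.2.2.1 h1.2.2.2
  have hDinj : Set.InjOn D (A.erase x : Finset (Fin 22)) := by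
    intro z hz w hw hzw
    by_contra hne
    have h1 := hD z hz
    have h2 := hD w hw
    rw [Finset.mem_coe, Finset.mem_erase] at hz hw
    have h3 : D z = A := w_uniq hI hT h1.1 hA hz.1.symm hw.1.symm hne h1.2.1 h1.2.2.2
      (by rw [hzw]; exact h2.2.2.2) hx hz.2 hw.2
    exact hyA (h3 ▸ h1.2.2.1)
  have hBn : B ∉ (A.erase x).image D := by
    intro h
    rw [Finset.mem_image] at h
    obtain ⟨z, hz, hz'⟩ := h
    have h1 := hD z hz
    rw [Finset.mem_erase] at hz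
    exact hcon z hz.1 hz.2 (hz' ▸ h1.2.2.2)
  have hEcard : E.card = 6 := by
    rw [hE, Finset.card_insert_of_notMem hBn, Finset.card_image_of_injOn hDinj,
      Finset.card_erase_of_mem hx, hA6]
  have hdisj : ∑ K ∈ E, ((K.erase x).erase y).card ≤ 20 := by
    rw [← Finset.card_biUnion]
    · have h1 : E.biUnion (fun K => (K.erase x).erase y) ⊆ (Finset.univ.erase x).erase y := by
        intro t ht
        rw [Finset.mem_biUnion] at ht
        obtain ⟨K, _, hK⟩ := ht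
        rw [Finset.mem_erase, Finset.mem_erase] at hK ⊢
        exact ⟨hK.1, hK.2.1, Finset.mem_univ _⟩
      have h2 := Finset.card_le_card h1
      rw [Finset.card_erase_of_mem (Finset.mem_erase.mpr ⟨hyx, Finset.mem_univ _⟩),
        Finset.card_erase_of_mem (Finset.mem_univ _), Finset.card_univ, Fintype.card_fin] at h2
      exact h2
    · intro K hK M hM hKM
      rw [Function.onFun, Finset.disjoint_left]
      intro t ht1 ht2
      rw [Finset.mem_erase, Finset.mem_erase] at ht1 ht2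
      obtain ⟨k1, k2, k3, _⟩ := hET K hK
      obtain ⟨m1, m2, m3, _⟩ := hET M hM
      exact hKM (w_uniq hI hT k1 m1 hyx.symm ht1.2.1.symm ht1.1.symm k2 k3 ht1.2.2 m2 m3 ht2.2.2)
  have h4 : ∀ K ∈ E, ((K.erase x).erase y).card = 4 := by
    intro K hK
    obtain ⟨k1, k2, k3, k4⟩ := hET K hK
    rw [Finset.card_erase_of_mem (Finset.mem_erase.mpr ⟨hyx, k3⟩), Finset.card_erase_of_mem k2, k4]
  rw [Finset.sum_congr rfl h4, Finset.sum_const, hEcard] at hdisj
  norm_num at hdisj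

/-- **Every `S(3,6,22)` contains a Vamos configuration.** -/
theorem w22_vamos (hI : IC T) (hT : ∀ A ∈ T, A.card ∈ ({0, 1, 2, 6} : Finset ℕ))
    (hcov : ∀ x y z : Fin 22, x ≠ y → x ≠ z → y ≠ z → ∃ A ∈ T, x ∈ A ∧ y ∈ A ∧ z ∈ A) :
    ∃ a1 a2 b1 b2 c1 c2 d1 d2, Vam T a1 a2 b1 b2 c1 c2 d1 d2 := by
  classical
  by_contra hno
  push Not at hno
  -- a block and its six points
  obtain ⟨H, hH, h0, h1, h2⟩ := hcov 0 1 2 (by decide) (by decide) (by decide)
  have hH6 : H.card = 6 := w_card hT hH (by decide) (by decide) (by decide) h0 h1 h2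
  have hinj := (H.orderEmbOfFin hH6).injective
  have hmem : ∀ i, H.orderEmbOfFin hH6 i ∈ H := fun i => H.orderEmbOfFin_mem hH6 i
  obtain ⟨a1, ha1⟩ : ∃ a, a = H.orderEmbOfFin hH6 0 := ⟨_, rfl⟩
  obtain ⟨a2, ha2⟩ : ∃ a, a = H.orderEmbOfFin hH6 1 := ⟨_, rfl⟩
  obtain ⟨b1, hb1⟩ : ∃ a, a = H.orderEmbOfFin hH6 2 := ⟨_, rfl⟩
  obtain ⟨b2, hb2⟩ : ∃ a, a = H.orderEmbOfFin hH6 3 := ⟨_, rfl⟩
  obtain ⟨g, hg⟩ : ∃ a, a = H.orderEmbOfFin hH6 4 := ⟨_, rfl⟩
  obtain ⟨h, hh⟩ : ∃ a, a = H.orderEmbOfFin hH6 5 := ⟨_, rfl⟩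
  have hHeq : ∀ x, x ∈ H ↔ (x = a1 ∨ x = a2 ∨ x = b1 ∨ x = b2 ∨ x = g ∨ x = h) := by
    intro x
    constructor
    · intro hx
      have hr := H.range_orderEmbOfFin hH6
      have hx' : x ∈ Set.range (H.orderEmbOfFin hH6) := by rw [hr]; exact hx
      obtain ⟨i, hi⟩ := hx'
      fin_cases i
      · exact Or.inl (hi.symm.trans ha1.symm)
      · exact Or.inr (Or.inl (hi.symm.trans ha2.symm))
      · exact Or.inr (Or.inr (Or.inl (hi.symm.trans hb1.symm)))
      · exact Or.inr (Or.inr (Or.inr (Or.inl (hi.symm.trans hb2.symm))))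
      · exact Or.inr (Or.inr (Or.inr (Or.inr (Or.inl (hi.symm.trans hg.symm)))))
      · exact Or.inr (Or.inr (Or.inr (Or.inr (Or.inr (hi.symm.trans hh.symm)))))
    · rintro (rfl | rfl | rfl | rfl | rfl | rfl)
      · rw [ha1]; exact hmem _
      · rw [ha2]; exact hmem _
      · rw [hb1]; exact hmem _
      · rw [hb2]; exact hmem _
      · rw [hg]; exact hmem _
      · rw [hh]; exact hmem _
  have na1a2 : a1 ≠ a2 := by rw [ha1, ha2]; exact fun e => absurd (hinj e) (by decide)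
  have na1b1 : a1 ≠ b1 := by rw [ha1, hb1]; exact fun e => absurd (hinj e) (by decide)
  have na1b2 : a1 ≠ b2 := by rw [ha1, hb2]; exact fun e => absurd (hinj e) (by decide)
  have na1g : a1 ≠ g := by rw [ha1, hg]; exact fun e => absurd (hinj e) (by decide)
  have na1h : a1 ≠ h := by rw [ha1, hh]; exact fun e => absurd (hinj e) (by decide)
  have na2b1 : a2 ≠ b1 := by rw [ha2, hb1]; exact fun e => absurd (hinj e) (by decide)
  have na2b2 : a2 ≠ b2 := by rw [ha2, hb2]; exact fun e => absurd (hinj e) (by decide)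
  have na2g : a2 ≠ g := by rw [ha2, hg]; exact fun e => absurd (hinj e) (by decide)
  have na2h : a2 ≠ h := by rw [ha2, hh]; exact fun e => absurd (hinj e) (by decide)
  have nb1b2 : b1 ≠ b2 := by rw [hb1, hb2]; exact fun e => absurd (hinj e) (by decide)
  have nb1g : b1 ≠ g := by rw [hb1, hg]; exact fun e => absurd (hinj e) (by decide)
  have nb1h : b1 ≠ h := by rw [hb1, hh]; exact fun e => absurd (hinj e) (by decide)
  have nb2g : b2 ≠ g := by rw [hb2, hg]; exact fun e => absurd (hinj e) (by decide)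
  have nb2h : b2 ≠ h := by rw [hb2, hh]; exact fun e => absurd (hinj e) (by decide)
  have ngh : g ≠ h := by rw [hg, hh]; exact fun e => absurd (hinj e) (by decide)
  have ma1 : a1 ∈ H := (hHeq a1).mpr (by simp)
  have ma2 : a2 ∈ H := (hHeq a2).mpr (by simp)
  have mb1 : b1 ∈ H := (hHeq b1).mpr (by simp)
  have mb2 : b2 ∈ H := (hHeq b2).mpr (by simp)
  have mg : g ∈ H := (hHeq g).mpr (by simp)
  have mh : h ∈ H := (hHeq h).mpr (by simp)
  clear ha1 ha2 hb1 hb2 hg hh hinj hmem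
  -- the partner of a point outside `H`
  have hpart : ∀ e, e ∉ H → ∃ f, f ≠ e ∧ f ∉ H ∧ (∃ A ∈ T, a1 ∈ A ∧ a2 ∈ A ∧ e ∈ A ∧ f ∈ A) ∧
      (∃ B ∈ T, b1 ∈ B ∧ b2 ∈ B ∧ e ∈ B ∧ f ∈ B) := by
    intro e he
    have e1 : a1 ≠ e := fun q => he (q ▸ ma1)
    have e2 : a2 ≠ e := fun q => he (q ▸ ma2)
    have e3 : b1 ≠ e := fun q => he (q ▸ mb1)
    have e4 : b2 ≠ e := fun q => he (q ▸ mb2)
    obtain ⟨A, hA, A1, A2, A3⟩ := hcov a1 a2 e na1a2 e1 e2
    obtain ⟨B, hB, B1, B2, B3⟩ := hcov b1 b2 e nb1b2 e3 e4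
    have hA6 := w_card hT hA na1a2 e1 e2 A1 A2 A3
    have hB6 := w_card hT hB nb1b2 e3 e4 B1 B2 B3
    obtain ⟨f, hf, fA, fB⟩ := w_meet hI hT hcov hA hB hA6 hB6 A3 B3
    refine ⟨f, hf, ?_, ⟨A, hA, A1, A2, A3, fA⟩, ⟨B, hB, B1, B2, B3, fB⟩⟩
    intro hfH
    -- `f ∈ A ∩ H` gives `f ∈ {a1,a2}`, `f ∈ B ∩ H` gives `f ∈ {b1,b2}`
    have hfa : f = a1 ∨ f = a2 := by
      by_contra hc
      push Not at hc
      have := w_uniq hI hT hA hH na1a2 hc.1.symm hc.2.symm A1 A2 fA ma1 ma2 hfH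
      exact he (this ▸ A3)
    have hfb : f = b1 ∨ f = b2 := by
      by_contra hc
      push Not at hc
      have := w_uniq hI hT hB hH nb1b2 hc.1.symm hc.2.symm B1 B2 fB mb1 mb2 hfH
      exact he (this ▸ B3)
    rcases hfa with rfl | rfl <;> rcases hfb with q | q
    · exact na1b1 q
    · exact na1b2 q
    · exact na2b1 q
    · exact na2b2 q
  choose! φ hφ using hpart
  -- uniqueness of the partner
  have huniq : ∀ e, e ∉ H → ∀ f, f ≠ e → (∃ A ∈ T, a1 ∈ A ∧ a2 ∈ A ∧ e ∈ A ∧ f ∈ A) →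
      (∃ B ∈ T, b1 ∈ B ∧ b2 ∈ B ∧ e ∈ B ∧ f ∈ B) → f = φ e := by
    intro e he f hf hfA hfB
    have e1 : a1 ≠ e := fun q => he (q ▸ ma1)
    have e2 : a2 ≠ e := fun q => he (q ▸ ma2)
    have e3 : b1 ≠ e := fun q => he (q ▸ mb1)
    have e4 : b2 ≠ e := fun q => he (q ▸ mb2)
    obtain ⟨A, hA, A1, A2, A3, A4⟩ := hfA
    obtain ⟨B, hB, B1, B2, B3, B4⟩ := hfB
    obtain ⟨p1, p2, ⟨A', hA', A1', A2', A3', A4'⟩, ⟨B', hB', B1', B2', B3', B4'⟩⟩ := hφ e he
    have hAA := w_uniq hI hT hA hA' na1a2 e1 e2 A1 A2 A3 A1' A2' A3'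
    have hBB := w_uniq hI hT hB hB' nb1b2 e3 e4 B1 B2 B3 B1' B2' B3'
    by_contra hne
    have hAB : A = B := w_uniq hI hT hA hB hf.symm p1.symm hne A3 A4 (hAA ▸ A4') B3 B4 (hBB ▸ B4')
    have hAH : A = H := w_uniq hI hT hA hH na1a2 na1b1 na2b1 A1 A2 (hAB ▸ B1) ma1 ma2 mb1
    exact he (hAH ▸ A3)
  have hφφ : ∀ e, e ∉ H → φ (φ e) = e := by
    intro e he
    obtain ⟨p1, p2, ⟨A, hA, A1, A2, A3, A4⟩, ⟨B, hB, B1, B2, B3, B4⟩⟩ := hφ e he
    exact (huniq (φ e) p2 e p1.symm ⟨A, hA, A1, A2, A4, A3⟩ ⟨B, hB, B1, B2, B4, B3⟩).symm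
  -- no Vamos configuration: outside pairs are coplanar
  have hcop : ∀ e f, e ∉ H → f ∉ H → ∃ A ∈ T, e ∈ A ∧ φ e ∈ A ∧ f ∈ A ∧ φ f ∈ A := by
    intro e f he hf
    obtain ⟨p1, p2, ⟨A, hA, A1, A2, A3, A4⟩, ⟨B, hB, B1, B2, B3, B4⟩⟩ := hφ e he
    obtain ⟨q1, q2, ⟨C, hC, C1, C2, C3, C4⟩, ⟨D, hD, D1, D2, D3, D4⟩⟩ := hφ f hf
    by_contra hcon
    push Not at hcon
    have e1 : a1 ≠ e := fun q => he (q ▸ ma1)
    have e2 : a2 ≠ e := fun q => he (q ▸ ma2)
    have e3 : b1 ≠ e := fun q => he (q ▸ mb1)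
    have e4 : b2 ≠ e := fun q => he (q ▸ mb2)
    have e1' : a1 ≠ φ e := fun q => p2 (q ▸ ma1)
    have e3' : b1 ≠ φ e := fun q => p2 (q ▸ mb1)
    have f1 : a1 ≠ f := fun q => hf (q ▸ ma1)
    have f3 : b1 ≠ f := fun q => hf (q ▸ mb1)
    have f1' : a1 ≠ φ f := fun q => q2 (q ▸ ma1)
    have f3' : b1 ≠ φ f := fun q => q2 (q ▸ mb1)
    apply hno a1 a2 b1 b2 e (φ e) f (φ f)
    refine ⟨?_, ?_, ?_, ?_, ?_, ?_, ?_, ?_, ?_, ?_, ?_⟩
    · intro K hK k1 k2 k3
      rw [w_uniq hI hT hK hH na1a2 na1b1 na2b1 k1 k2 k3 ma1 ma2 mb1]; exact mb2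
    · intro K hK k1 k2 k3
      rw [w_uniq hI hT hK hA na1a2 e1 e2 k1 k2 k3 A1 A2 A3]; exact A4
    · intro K hK k1 k2 k3
      rw [w_uniq hI hT hK hA e1 e1' p1.symm k1 k2 k3 A1 A3 A4]; exact A2
    · intro K hK k1 k2 k3
      rw [w_uniq hI hT hK hB nb1b2 e3 e4 k1 k2 k3 B1 B2 B3]; exact B4
    · intro K hK k1 k2 k3
      rw [w_uniq hI hT hK hB e3 e3' p1.symm k1 k2 k3 B1 B3 B4]; exact B2
    · intro K hK k1 k2 k3
      rw [w_uniq hI hT hK hC f1 f1' q1.symm k1 k2 k3 C1 C3 C4]; exact C2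
    · intro K hK k1 k2 k3
      rw [w_uniq hI hT hK hD f3 f3' q1.symm k1 k2 k3 D1 D3 D4]; exact D2
    · rintro K hK ⟨k1, k2, k3, k4⟩
      rw [w_uniq hI hT hK hH na1a2 na1b1 na2b1 k1 k2 k3 ma1 ma2 mb1] at k4
      exact he k4
    · rintro K hK ⟨k1, k2, k3, k4⟩
      have h5 := w_uniq hI hT hK hA e1 e1' p1.symm k1 k3 k4 A1 A3 A4
      rw [w_uniq hI hT hK hH na1a2 na1b1 na2b1 k1 (h5 ▸ A2) k2 ma1 ma2 mb1] at k3
      exact he k3
    · rintro K hK ⟨k1, k2, k3, k4⟩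
      have h5 := w_uniq hI hT hK hC f1 f1' q1.symm k1 k3 k4 C1 C3 C4
      rw [w_uniq hI hT hK hH na1a2 na1b1 na2b1 k1 (h5 ▸ C2) k2 ma1 ma2 mb1] at k3
      exact hf k3
    · rintro K hK ⟨k1, k2, k3, k4⟩
      exact hcon K hK k1 k2 k3 k4
  -- the involution on all points
  set π : Fin 22 → Fin 22 := fun x => if x = a1 then a2 else if x = a2 then a1 else
    if x = b1 then b2 else if x = b2 then b1 else if x = g then h else if x = h then g else φ x with hπ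
  have πa1 : π a1 = a2 := by simp [hπ]
  have πa2 : π a2 = a1 := by simp [hπ, na1a2.symm]
  have πb1 : π b1 = b2 := by simp [hπ, na1b1.symm, na2b1.symm]
  have πb2 : π b2 = b1 := by simp [hπ, na1b2.symm, na2b2.symm, nb1b2.symm]
  have πg : π g = h := by simp [hπ, na1g.symm, na2g.symm, nb1g.symm, nb2g.symm]
  have πh : π h = g := by simp [hπ, na1h.symm, na2h.symm, nb1h.symm, nb2h.symm, ngh.symm]
  have πo : ∀ e, e ∉ H → π e = φ e := by
    intro e he
    have := (hHeq e).not.mp he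
    push Not at this
    simp [hπ, this.1, this.2.1, this.2.2.1, this.2.2.2.1, this.2.2.2.2.1, this.2.2.2.2.2]
  have πH : ∀ e, e ∈ H → π e ∈ H := by
    intro e he
    rcases (hHeq e).mp he with rfl | rfl | rfl | rfl | rfl | rfl
    · rw [πa1]; exact ma2
    · rw [πa2]; exact ma1
    · rw [πb1]; exact mb2
    · rw [πb2]; exact mb1
    · rw [πg]; exact mh
    · rw [πh]; exact mg
  have πne : ∀ e, π e ≠ e := by
    intro e
    by_cases he : e ∈ H
    · rcases (hHeq e).mp he with rfl | rfl | rfl | rfl | rfl | rfl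
      · rw [πa1]; exact na1a2.symm
      · rw [πa2]; exact na1a2
      · rw [πb1]; exact nb1b2.symm
      · rw [πb2]; exact nb1b2
      · rw [πg]; exact ngh.symm
      · rw [πh]; exact ngh
    · rw [πo e he]; exact (hφ e he).1
  have ππ : ∀ e, π (π e) = e := by
    intro e
    by_cases he : e ∈ H
    · rcases (hHeq e).mp he with rfl | rfl | rfl | rfl | rfl | rfl
      · rw [πa1, πa2]
      · rw [πa2, πa1]
      · rw [πb1, πb2]
      · rw [πb2, πb1]
      · rw [πg, πh]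
      · rw [πh, πg]
    · rw [πo e he, πo _ (hφ e he).2.1, hφφ e he]
  -- parity: the pair `g,h` is coplanar with every outside pair
  have hgh : ∀ y, y ∉ H → ∃ A ∈ T, g ∈ A ∧ h ∈ A ∧ y ∈ A ∧ φ y ∈ A := by
    intro y hy
    obtain ⟨p1, p2, ⟨B, hB, B1, B2, B3, B4⟩, ⟨C, hC, C1, C2, C3, C4⟩⟩ := hφ y hy
    have gy : g ≠ y := fun q => hy (q ▸ mg)
    have gy' : g ≠ φ y := fun q => p2 (q ▸ mg)
    obtain ⟨A, hA, A1, A2, A3⟩ := hcov g y (φ y) gy gy' p1.symm
    have hA6 := w_card hT hA gy gy' p1.symm A1 A2 A3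
    refine ⟨A, hA, A1, ?_, A2, A3⟩
    have e1 : a1 ≠ y := fun q => hy (q ▸ ma1)
    have e2 : a2 ≠ y := fun q => hy (q ▸ ma2)
    have e3 : b1 ≠ y := fun q => hy (q ▸ mb1)
    have e4 : b2 ≠ y := fun q => hy (q ▸ mb2)
    have e1' : a1 ≠ φ y := fun q => p2 (q ▸ ma1)
    have e2' : a2 ≠ φ y := fun q => p2 (q ▸ ma2)
    have e3' : b1 ≠ φ y := fun q => p2 (q ▸ mb1)
    have e4' : b2 ≠ φ y := fun q => p2 (q ▸ mb2)
    have na1A : a1 ∉ A := by
      intro q
      have h5 := w_uniq hI hT hA hB e1 e1' p1.symm q A2 A3 B1 B3 B4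
      rw [w_uniq hI hT hA hH na1a2 na1g na2g q (h5 ▸ B2) A1 ma1 ma2 mg] at A2
      exact hy A2
    have na2A : a2 ∉ A := by
      intro q
      have h5 := w_uniq hI hT hA hB e2 e2' p1.symm q A2 A3 B2 B3 B4
      exact na1A (h5 ▸ B1)
    have nb1A : b1 ∉ A := by
      intro q
      have h5 := w_uniq hI hT hA hC e3 e3' p1.symm q A2 A3 C1 C3 C4
      rw [w_uniq hI hT hA hH nb1b2 nb1g nb2g q (h5 ▸ C2) A1 mb1 mb2 mg] at A2
      exact hy A2
    have nb2A : b2 ∉ A := by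
      intro q
      have h5 := w_uniq hI hT hA hC e4 e4' p1.symm q A2 A3 C2 C3 C4
      exact nb1A (h5 ▸ C1)
    by_contra hhA
    -- `A \ {g}` is closed under the fixed point free involution `φ`
    have hclosed : ∀ e ∈ A.erase g, φ e ∈ A.erase g ∧ φ e ≠ e ∧ φ (φ e) = e := by
      intro e he
      rw [Finset.mem_erase] at he
      have heH : e ∉ H := by
        intro q
        rcases (hHeq e).mp q with rfl | rfl | rfl | rfl | rfl | rfl
        · exact na1A he.2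
        · exact na2A he.2
        · exact nb1A he.2
        · exact nb2A he.2
        · exact he.1 rfl
        · exact hhA he.2
      refine ⟨?_, (hφ e heH).1, hφφ e heH⟩
      rw [Finset.mem_erase]
      refine ⟨fun q => (hφ e heH).2.1 (q ▸ mg), ?_⟩
      by_cases hey : e = y
      · rw [hey]; exact A3
      by_cases hey' : e = φ y
      · rw [hey', hφφ y hy]; exact A2
      obtain ⟨K, hK, K1, K2, K3, K4⟩ := hcop y e hy heH
      rw [w_uniq hI hT hA hK p1.symm (Ne.symm hey) (Ne.symm hey') A2 A3 he.2 K1 K2 K3]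
      exact K4
    have hsum : ∑ e ∈ A.erase g, (1 : ZMod 2) = 0 :=
      Finset.sum_involution (fun e _ => φ e) (fun _ _ => by decide)
        (fun e he _ => (hclosed e he).2.1) (fun e he => (hclosed e he).1)
        (fun e he => (hclosed e he).2.2)
    rw [Finset.sum_const, Finset.card_erase_of_mem A1, hA6] at hsum
    exact absurd hsum (by decide)
  -- all pairs are coplanar
  have hall : ∀ x y, ∃ A ∈ T, x ∈ A ∧ π x ∈ A ∧ y ∈ A ∧ π y ∈ A := by
    have key : ∀ x y, x ∈ H → y ∉ H → ∃ A ∈ T, x ∈ A ∧ π x ∈ A ∧ y ∈ A ∧ π y ∈ A := by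
      intro x y hx hy
      obtain ⟨p1, p2, ⟨B, hB, B1, B2, B3, B4⟩, ⟨C, hC, C1, C2, C3, C4⟩⟩ := hφ y hy
      obtain ⟨D, hD, D1, D2, D3, D4⟩ := hgh y hy
      rw [πo y hy]
      rcases (hHeq x).mp hx with rfl | rfl | rfl | rfl | rfl | rfl
      · rw [πa1]; exact ⟨B, hB, B1, B2, B3, B4⟩
      · rw [πa2]; exact ⟨B, hB, B2, B1, B3, B4⟩
      · rw [πb1]; exact ⟨C, hC, C1, C2, C3, C4⟩
      · rw [πb2]; exact ⟨C, hC, C2, C1, C3, C4⟩
      · rw [πg]; exact ⟨D, hD, D1, D2, D3, D4⟩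
      · rw [πh]; exact ⟨D, hD, D2, D1, D3, D4⟩
    intro x y
    by_cases hx : x ∈ H <;> by_cases hy : y ∈ H
    · exact ⟨H, hH, hx, πH x hx, hy, πH y hy⟩
    · exact key x y hx hy
    · obtain ⟨A, hA, A1, A2, A3, A4⟩ := key y x hy hx
      exact ⟨A, hA, A3, A4, A1, A2⟩
    · obtain ⟨A, hA, A1, A2, A3, A4⟩ := hcop x y hx hy
      rw [πo x hx, πo y hy]
      exact ⟨A, hA, A1, A2, A3, A4⟩
  -- the invariant blocks
  set HH : Finset (Finset (Fin 22)) := T.filter fun A => A.card = 6 ∧ ∀ y ∈ A, π y ∈ A with hHH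
  have hblk : ∀ x y, y ≠ x → y ≠ π x → ∃ A ∈ HH, x ∈ A ∧ y ∈ A := by
    intro x y hyx hyπ
    obtain ⟨A, hA, A1, A2, A3, A4⟩ := hall x y
    have hA6 := w_card hT hA (πne x).symm hyx.symm hyπ.symm A1 A2 A3
    refine ⟨A, ?_, A1, A3⟩
    rw [hHH, Finset.mem_filter]
    refine ⟨hA, hA6, ?_⟩
    intro z hz
    by_cases hzx : z = x
    · rw [hzx]; exact A2
    by_cases hzπ : z = π x
    · rw [hzπ, ππ]; exact A1
    obtain ⟨B, hB, B1, B2, B3, B4⟩ := hall x z
    rw [w_uniq hI hT hA hB (πne x).symm (Ne.symm hzx) (Ne.symm hzπ) A1 A2 hz B1 B2 B3]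
    exact B4
  have hfive : ∀ x, (HH.filter fun A => x ∈ A).card = 5 := by
    intro x
    have h1 : (Finset.univ.erase x).erase (π x) =
        (HH.filter fun A => x ∈ A).biUnion fun A => (A.erase x).erase (π x) := by
      ext y
      rw [Finset.mem_biUnion, Finset.mem_erase, Finset.mem_erase]
      constructor
      · rintro ⟨h1, h2, _⟩
        obtain ⟨A, hA, A1, A2⟩ := hblk x y h2 h1
        exact ⟨A, Finset.mem_filter.mpr ⟨hA, A1⟩, Finset.mem_erase.mpr ⟨h1, Finset.mem_erase.mpr ⟨h2, A2⟩⟩⟩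
      · rintro ⟨A, hA, hy⟩
        rw [Finset.mem_erase, Finset.mem_erase] at hy
        exact ⟨hy.1, hy.2.1, Finset.mem_univ _⟩
    have h2 : ((Finset.univ.erase x).erase (π x)).card = 20 := by
      rw [Finset.card_erase_of_mem (Finset.mem_erase.mpr ⟨πne x, Finset.mem_univ _⟩),
        Finset.card_erase_of_mem (Finset.mem_univ _), Finset.card_univ, Fintype.card_fin]
    rw [h1, Finset.card_biUnion] at h2
    · have h3 : ∀ A ∈ HH.filter (fun A => x ∈ A), ((A.erase x).erase (π x)).card = 4 := by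
        intro A hA
        rw [Finset.mem_filter, hHH, Finset.mem_filter] at hA
        rw [Finset.card_erase_of_mem (Finset.mem_erase.mpr ⟨πne x, hA.1.2.2 x hA.2⟩),
          Finset.card_erase_of_mem hA.2, hA.1.2.1]
      rw [Finset.sum_congr rfl h3, Finset.sum_const, smul_eq_mul] at h2
      omega
    · intro A hA B hB hAB
      rw [Function.onFun, Finset.disjoint_left]
      intro t ht1 ht2
      rw [Finset.mem_coe, Finset.mem_filter, hHH, Finset.mem_filter] at hA hB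
      rw [Finset.mem_erase, Finset.mem_erase] at ht1 ht2
      exact hAB (w_uniq hI hT hA.1.1 hB.1.1 (πne x).symm ht1.2.1.symm ht1.1.symm hA.2
        (hA.1.2.2 x hA.2) ht1.2.2 hB.2 (hB.1.2.2 x hB.2) ht2.2.2)
  have hdc : ∑ x : Fin 22, (HH.filter fun A => x ∈ A).card = ∑ A ∈ HH, A.card := by
    simp_rw [Finset.card_filter]
    rw [Finset.sum_comm]
    apply Finset.sum_congr rfl
    intro A _
    rw [← Finset.card_filter]
    congr 1
    ext x
    simp
  have hsix : ∀ A ∈ HH, A.card = 6 := by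
    intro A hA
    rw [hHH, Finset.mem_filter] at hA
    exact hA.2.1
  have hs1 : ∑ x : Fin 22, (HH.filter fun A => x ∈ A).card = 22 * 5 := by
    rw [Finset.sum_congr rfl (fun x _ => hfive x), Finset.sum_const, Finset.card_univ,
      Fintype.card_fin, smul_eq_mul]
  have hs2 : ∑ A ∈ HH, A.card = HH.card * 6 := by
    rw [Finset.sum_congr rfl hsix, Finset.sum_const, smul_eq_mul]
  rw [hs1, hs2] at hdc
  omega

end w22

end Pool.Agent.Helper138_LS
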