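import Pool.Agent.Helper138_LS.RelG
import Pool.Agent.Helper138_LS.Reduce
import Pool.Agent.Helper138_LS.W22

/-!
Extensions of projective and affine planes.
-/

set_option autoImplicit false

open Finset

namespace Pool.Agent.Helper138_LS

open Pool.Agent.H480R2.LS

/-- the sizes `0, …, t + 1, t + l` -/
def SL (t l : ℕ) : Finset ℕ := insert (t + l) (Finset.range (t + 2))

theorem SL_zero (l : ℕ) : SL 0 l = {0, 1, l} := by
  ext i
  simp only [SL, Finset.mem_insert, Finset.mem_range, Finset.mem_singleton]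
  omega

theorem SL_one (l : ℕ) : SL 1 l = {0, 1, 2, l + 1} := by
  ext i
  simp only [SL, Finset.mem_insert, Finset.mem_range, Finset.mem_singleton]
  omega

theorem dn_SL (t l : ℕ) : dn (SL (t + 1) l) = SL t l := by
  ext i
  rw [mem_dn]
  simp only [SL, Finset.mem_insert, Finset.mem_range]
  omega

theorem RB.up {k t l : ℕ} (h : RB (k + t) (SL t l) (t + 3)) : ∀ j, RB (k + (t + j)) (SL (t + j) l) (t + j + 3) := by
  intro j
  induction j with
  | zero => exact h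
  | succ j ih =>
    rw [← dn_SL] at ih
    exact RB.link ih

/-- the orders of projective planes are prime powers -/
theorem RB.proj {q : ℕ} (hq : 2 ≤ q) (hnp : ¬ IsPrimePow q) : RB (q ^ 2 + q + 1) {0, 1, q + 1} 3 := by
  apply RB.of_sys (by omega) (by norm_num)
  obtain ⟨e, he, _, C, _, hb⟩ := projNeg hq hnp
  exact ⟨e, he, C, fun n F h1 h2 => by exact_mod_cast hb n F ⟨h1, h2⟩⟩

theorem RB.aff {q : ℕ} (hq : 2 ≤ q) (hnp : ¬ IsPrimePow q) : RB (q ^ 2) {0, 1, q} 3 := by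
  apply RB.of_sys (by nlinarith) (by norm_num)
  obtain ⟨e, he, _, C, _, hb⟩ := affNeg hq hnp
  exact ⟨e, he, C, fun n F h1 h2 => by exact_mod_cast hb n F ⟨h1, h2⟩⟩

theorem choose3 (n : ℕ) : 6 * (n + 2).choose 3 = (n + 2) * (n + 1) * n := by
  have h1 := Nat.add_one_mul_choose_eq (n + 1) 2
  have h2 := Nat.add_one_mul_choose_eq n 1
  simp only [Nat.choose_one_right] at h2
  have e1 : (n + 2) * (n + 1).choose 2 = (n + 2).choose 3 * 3 := h1
  have e2 : (n + 1) * n = (n + 1).choose 2 * 2 := h2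
  calc 6 * (n + 2).choose 3 = ((n + 2).choose 3 * 3) * 2 := by ring
    _ = (n + 2) * ((n + 1).choose 2 * 2) := by rw [← e1]; ring
    _ = _ := by rw [← e2]; ring

theorem choose4 (n : ℕ) : 24 * (n + 3).choose 4 = (n + 3) * ((n + 2) * (n + 1) * n) := by
  have h1 := Nat.add_one_mul_choose_eq (n + 2) 3
  have e1 : (n + 3) * (n + 2).choose 3 = (n + 3).choose 4 * 4 := h1
  calc 24 * (n + 3).choose 4 = ((n + 3).choose 4 * 4) * 6 := by ring
    _ = (n + 3) * (6 * (n + 2).choose 3) := by rw [← e1]; ring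
    _ = _ := by rw [choose3]

/-- extensions of projective planes -/
theorem proj_dvd {q : ℕ} (hq : 1 ≤ q) (h : (q + 2).choose 3 ∣ (q ^ 2 + q + 2).choose 3) : q + 2 ∣ 12 := by
  obtain ⟨c, hc⟩ := h
  have e1 := choose3 (q ^ 2 + q)
  have e2 := choose3 q
  rw [hc] at e1
  have e3 : (q * (q + 1)) * ((q + 2) * c) = (q * (q + 1)) * ((q ^ 2 + q + 2) * (q ^ 2 + q + 1)) := by
    calc (q * (q + 1)) * ((q + 2) * c) = ((q + 2) * (q + 1) * q) * c := by ring
      _ = 6 * ((q + 2).choose 3 * c) := by rw [← e2]; ring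
      _ = (q ^ 2 + q + 2) * (q ^ 2 + q + 1) * (q ^ 2 + q) := e1
      _ = _ := by ring
  have e4 := Nat.eq_of_mul_eq_mul_left (by positivity) e3
  have e5 : (q + 2) * (q ^ 3 + 4 * q) + 12 = (q + 2) * (c + 5) := by
    calc _ = (q ^ 2 + q + 2) * (q ^ 2 + q + 1) + 5 * (q + 2) := by ring
      _ = _ := by rw [← e4]; ring
  have e6 : (q + 2) ∣ (q + 2) * (q ^ 3 + 4 * q) + 12 := ⟨_, e5⟩
  exact (Nat.dvd_add_right (dvd_mul_right _ _)).mp e6

/-- twofold extensions of affine planes -/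
theorem aff_dvd {q : ℕ} (hq : 2 ≤ q) (h : (q + 2).choose 4 ∣ (q ^ 2 + 2).choose 4) : q + 2 ∣ 60 := by
  obtain ⟨c, hc⟩ := h
  obtain ⟨p, rfl⟩ : ∃ p, q = p + 1 := ⟨q - 1, by omega⟩
  have e1 := choose4 (p ^ 2 + 2 * p)
  have e2 := choose4 p
  have e0 : (p + 1) ^ 2 + 2 = p ^ 2 + 2 * p + 3 := by ring
  rw [e0] at hc
  have e0' : p + 1 + 2 = p + 3 := by ring
  rw [e0'] at hc ⊢
  rw [hc] at e1
  have hp : 0 < p := by omega
  have e3 : (p * (p + 1) * (p + 2)) * ((p + 3) * c) =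
      (p * (p + 1) * (p + 2)) * ((p ^ 2 + 2 * p + 3) * (p ^ 2 + 2 * p + 2) * (p + 1)) := by
    calc (p * (p + 1) * (p + 2)) * ((p + 3) * c) = ((p + 3) * ((p + 2) * (p + 1) * p)) * c := by ring
      _ = 24 * ((p + 3).choose 4 * c) := by rw [← e2]; ring
      _ = _ := e1
      _ = _ := by ring
  have e4 := Nat.eq_of_mul_eq_mul_left (by positivity) e3
  have e5 : (p + 3) * (c + 2 * p) + 60 = (p + 3) * (p ^ 4 + 2 * p ^ 3 + 7 * p ^ 2 + 22) := by
    rw [mul_add, e4]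
    ring
  have e6 : (p + 3) ∣ (p + 3) * (c + 2 * p) + 60 := ⟨_, e5⟩
  exact (Nat.dvd_add_right (dvd_mul_right _ _)).mp e6

end Pool.Agent.Helper138_LS
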