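import Pool.Agent.Helper138_LS.RelB

/-!
Power savings for relations: rules.
-/

set_option autoImplicit false

open Finset

namespace Pool.Agent.Helper138_LS

open Pool.Agent.H480R2.LS

/-- power saving for relations on `k` coordinates with intersection closed patterns of sizes in `L` -/
def RB (k : ℕ) (L : Finset ℕ) (s : ℕ) : Prop :=
  ∃ e : ℝ, 0 < e ∧ e ≤ 1 ∧ ∃ C : ℝ, 1 ≤ C ∧ ∀ n : ℕ, 0 < n → ∀ (T : Finset (Finset (Fin k)))
    (R : Finset (Fin k → Fin n)), IC T → (∀ A ∈ T, A.card ∈ L) → PatIn R T →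
      (R.card : ℝ) ≤ C * (n : ℝ) ^ ((s : ℝ) - e)

theorem nat_le_rpow {n s m : ℕ} (hn : 0 < n) (hs : 1 ≤ s) (h : m ≤ n ^ (s - 1)) {e C : ℝ} (he : e ≤ 1)
    (hC : 1 ≤ C) : (m : ℝ) ≤ C * (n : ℝ) ^ ((s : ℝ) - e) := by
  have hn1 : (1 : ℝ) ≤ n := by exact_mod_cast hn
  have h1 : (m : ℝ) ≤ (n : ℝ) ^ (s - 1) := by exact_mod_cast h
  have h2 : (n : ℝ) ^ (s - 1) ≤ (n : ℝ) ^ ((s : ℝ) - e) := by
    rw [← Real.rpow_natCast]
    apply Real.rpow_le_rpow_of_exponent_le hn1
    rw [Nat.cast_sub hs]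
    push_cast
    linarith
  have h3 : (0 : ℝ) ≤ (n : ℝ) ^ ((s : ℝ) - e) := by positivity
  calc (m : ℝ) ≤ (n : ℝ) ^ ((s : ℝ) - e) := h1.trans h2
    _ = 1 * (n : ℝ) ^ ((s : ℝ) - e) := (one_mul _).symm
    _ ≤ _ := mul_le_mul_of_nonneg_right hC h3

theorem RB.of_nat {k : ℕ} {L : Finset ℕ} {s : ℕ} (hs : 1 ≤ s)
    (h : ∀ n : ℕ, 0 < n → ∀ (T : Finset (Finset (Fin k))) (R : Finset (Fin k → Fin n)), IC T →
      (∀ A ∈ T, A.card ∈ L) → PatIn R T → R.card ≤ n ^ (s - 1)) : RB k L s :=
  ⟨1, one_pos, le_rfl, 1, le_rfl, fun n hn T R h1 h2 h3 => nat_le_rpow hn hs (h n hn T R h1 h2 h3)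
    le_rfl le_rfl⟩

/-- removing a point that lies in all patterns -/
theorem RB.shift {k : ℕ} {L : Finset ℕ} {s : ℕ} (hs : 1 ≤ s) (h0 : 0 ∉ L) (h : RB k (dn L) s) :
    RB (k + 1) L s := by
  obtain ⟨e, he, he1, C, hC, h⟩ := h
  refine ⟨e, he, he1, C, hC, fun n hn T R hI hT hR => ?_⟩
  by_cases hone : R.card ≤ 1
  · exact nat_le_rpow hn hs (hone.trans (Nat.one_le_pow _ _ hn)) he1 hC
  push Not at hone
  obtain ⟨f0, hf0, g0, hg0, hfg0⟩ := Finset.one_lt_card.mp hone
  have hne : T.Nonempty := ⟨_, hR f0 hf0 g0 hg0 hfg0⟩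
  obtain ⟨x, hx⟩ := common_point hI hT h0 hne
  obtain ⟨T', R', a1, a2, a3, a4, _⟩ := pull_point hI hT hR x (fun f hf g hg => by
    by_cases hfg : f = g
    · rw [hfg]
    · exact mem_agr.mp (hx _ (hR f hf g hg hfg)))
  rw [← a4]
  exact h n hn T' R' a1 a2 a3

/-- fixing a coordinate -/
theorem RB.link {k : ℕ} {L : Finset ℕ} {s : ℕ} (h : RB k (dn L) s) : RB (k + 1) L (s + 1) := by
  classical
  obtain ⟨e, he, he1, C, hC, h⟩ := h
  refine ⟨e, he, he1, C, hC, fun n hn T R hI hT hR => ?_⟩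
  have hn' : (0 : ℝ) < n := by exact_mod_cast hn
  have h1 : R.card = ∑ v : Fin n, (R.filter fun f => f 0 = v).card :=
    Finset.card_eq_sum_card_fiberwise (fun _ _ => Finset.mem_univ _)
  have h2 : ∀ v : Fin n, ((R.filter fun f => f 0 = v).card : ℝ) ≤ C * (n : ℝ) ^ ((s : ℝ) - e) := by
    intro v
    have hRv : PatIn (R.filter fun f => f 0 = v) T := fun f hf g hg =>
      hR f (Finset.mem_filter.mp hf).1 g (Finset.mem_filter.mp hg).1
    obtain ⟨T', R', a1, a2, a3, a4, _⟩ := pull_point hI hT hRv 0 (fun f hf g hg => by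
      rw [Finset.mem_filter] at hf hg
      rw [hf.2, hg.2])
    rw [← a4]
    exact h n hn T' R' a1 a2 a3
  rw [h1]
  push_cast
  calc ∑ v : Fin n, ((R.filter fun f => f 0 = v).card : ℝ)
      ≤ ∑ v : Fin n, C * (n : ℝ) ^ ((s : ℝ) - e) := Finset.sum_le_sum fun v _ => h2 v
    _ = n * (C * (n : ℝ) ^ ((s : ℝ) - e)) := by
      rw [Finset.sum_const, Finset.card_univ, Fintype.card_fin, nsmul_eq_mul]
    _ = C * (n : ℝ) ^ ((s : ℝ) + 1 - e) := by
      rw [show (s : ℝ) + 1 - e = 1 + ((s : ℝ) - e) by ring, Real.rpow_add hn', Real.rpow_one]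
      ring

/-- a set of coordinates that is not contained in a pattern -/
theorem cover_bound {k n m : ℕ} (hn : 0 < n) {T : Finset (Finset (Fin k))} {R : Finset (Fin k → Fin n)}
    (hR : PatIn R T) {X : Finset (Fin k)} (hX : X.card ≤ m) (h : ∀ A ∈ T, ¬ X ⊆ A) : R.card ≤ n ^ m := by
  classical
  calc R.card ≤ (Finset.univ : Finset ({x // x ∈ X} → Fin n)).card := by
        apply Finset.card_le_card_of_injOn (fun f x => f x.1) (fun _ _ => Finset.mem_univ _)
        intro f hf g hg hfg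
        by_contra hne
        apply h _ (hR f hf g hg hne)
        intro x hx
        exact mem_agr.mpr (congrFun hfg ⟨x, hx⟩)
    _ = n ^ X.card := by simp
    _ ≤ n ^ m := Nat.pow_le_pow_right hn hX

/-- it suffices to treat families that cover all sets of `s - 1` coordinates -/
theorem RB.of_cover {k : ℕ} {L : Finset ℕ} {s : ℕ} (hs : 1 ≤ s)
    (h : ∀ T : Finset (Finset (Fin k)), IC T → (∀ A ∈ T, A.card ∈ L) →
      (∀ X : Finset (Fin k), X.card ≤ s - 1 → ∃ A ∈ T, X ⊆ A) → False) : RB k L s := by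
  apply RB.of_nat hs
  intro n hn T R hI hT hR
  by_contra hcon
  apply h T hI hT
  intro X hX
  by_contra hX'
  push Not at hX'
  exact hcon (cover_bound hn hR hX hX')

/-- closures -/
theorem cl_exists {k : ℕ} {T : Finset (Finset (Fin k))} (hI : IC T) (X : Finset (Fin k))
    (h : ∃ A ∈ T, X ⊆ A) : ∃ C ∈ T, X ⊆ C ∧ ∀ A ∈ T, X ⊆ A → C ⊆ A := by
  classical
  obtain ⟨A, hA, hXA⟩ := h
  obtain ⟨C, hC, hmin⟩ := Finset.exists_min_image (T.filter fun A => X ⊆ A) Finset.card
    ⟨A, Finset.mem_filter.mpr ⟨hA, hXA⟩⟩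
  rw [Finset.mem_filter] at hC
  refine ⟨C, hC.1, hC.2, fun B hB hXB => ?_⟩
  have h2 := hmin (C ∩ B) (Finset.mem_filter.mpr ⟨hI C hC.1 B hB, Finset.subset_inter hC.2 hXB⟩)
  have h3 : C ∩ B = C := Finset.eq_of_subset_of_card_le Finset.inter_subset_left h2
  rw [← h3]
  exact Finset.inter_subset_right

/-- the sizes after identification of blocks of `g` points -/
def sc (g : ℕ) (L : Finset ℕ) : Finset ℕ := (L.filter fun l => g ∣ l).image (· / g)

theorem mem_sc {g : ℕ} (hg : 0 < g) {L : Finset ℕ} {i : ℕ} : i ∈ sc g L ↔ g * i ∈ L := by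
  rw [sc, Finset.mem_image]
  constructor
  · rintro ⟨j, hj, rfl⟩
    rw [Finset.mem_filter] at hj
    rw [Nat.mul_div_cancel' hj.2]
    exact hj.1
  · intro h
    exact ⟨g * i, Finset.mem_filter.mpr ⟨h, dvd_mul_right _ _⟩, Nat.mul_div_cancel_left _ hg⟩

/-- blocks of `g` points -/
theorem RB.scale {k g : ℕ} {L : Finset ℕ} {s : ℕ} (hg : 2 ≤ g) (h0 : 0 ∈ L) (hgL : g ∈ L)
    (hmin : ∀ l ∈ L, l ≠ 0 → g ≤ l) (hs : L.card = s)
    (H : g ∣ k → (∀ l ∈ L, g ∣ l) → RB (k / g) (sc g L) s) : RB k L s := by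
  classical
  have h2 : 2 ≤ s := by
    rw [← hs]
    have h3 : ({0, g} : Finset ℕ) ⊆ L := by
      intro x hx
      simp only [Finset.mem_insert, Finset.mem_singleton] at hx
      rcases hx with rfl | rfl
      · exact h0
      · exact hgL
    have h4 : ({0, g} : Finset ℕ).card = 2 := Finset.card_pair (by omega)
    rw [← h4]
    exact Finset.card_le_card h3
  -- everything except the last case
  have key : ∀ n : ℕ, 0 < n → ∀ (T : Finset (Finset (Fin k))) (R : Finset (Fin k → Fin n)), IC T →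
      (∀ A ∈ T, A.card ∈ L) → PatIn R T → (R.card ≤ n ^ (s - 1)) ∨
      (g ∣ k ∧ ∃ (T' : Finset (Finset (Fin (k / g)))) (R' : Finset (Fin (k / g) → Fin n)), IC T' ∧
        (∀ A ∈ T', A.card ∈ sc g L) ∧ PatIn R' T' ∧ R'.card = R.card ∧ ∀ A ∈ T, g ∣ A.card) := by
    intro n hn T R hI hT hR
    by_cases hcov : ∀ x : Fin k, ∃ A ∈ T, x ∈ A
    swap
    · left
      push Not at hcov
      obtain ⟨x, hx⟩ := hcov
      exact cover_bound hn hR (X := {x}) (by rw [Finset.card_singleton]; omega)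
        (fun A hA h => hx A hA (h (Finset.mem_singleton_self x)))
    have hcl : ∀ x : Fin k, ∃ C ∈ T, x ∈ C ∧ ∀ A ∈ T, x ∈ A → C ⊆ A := by
      intro x
      obtain ⟨A, hA, hx⟩ := hcov x
      obtain ⟨C, hC, h1, h2⟩ := cl_exists hI {x} ⟨A, hA, Finset.singleton_subset_iff.mpr hx⟩
      exact ⟨C, hC, Finset.singleton_subset_iff.mp h1, fun A hA hxA => h2 A hA
        (Finset.singleton_subset_iff.mpr hxA)⟩
    choose cl cl1 cl2 cl3 using hcl
    have clg : ∀ x, g ≤ (cl x).card := fun x => hmin _ (hT _ (cl1 x)) (by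
      have : 0 < (cl x).card := Finset.card_pos.mpr ⟨x, cl2 x⟩
      omega)
    by_cases hbig : ∃ x, g < (cl x).card
    · left
      obtain ⟨x, hx⟩ := hbig
      have h1 : R.card = ∑ v : Fin n, (R.filter fun f => f x = v).card :=
        Finset.card_eq_sum_card_fiberwise (fun _ _ => Finset.mem_univ _)
      have h3 : ∀ v : Fin n, (R.filter fun f => f x = v).card ≤ n ^ (s - 2) := by
        intro v
        have e1 : IC (T.filter fun A => x ∈ A) := by
          intro A hA B hB
          rw [Finset.mem_filter] at *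
          exact ⟨hI A hA.1 B hB.1, Finset.mem_inter.mpr ⟨hA.2, hB.2⟩⟩
        have e2 : ∀ A ∈ T.filter (fun A => x ∈ A), A.card ∈ L.filter fun l => g < l := by
          intro A hA
          rw [Finset.mem_filter] at hA ⊢
          exact ⟨hT A hA.1, lt_of_lt_of_le hx (Finset.card_le_card (cl3 x A hA.1 hA.2))⟩
        have e3 : PatIn (R.filter fun f => f x = v) (T.filter fun A => x ∈ A) := by
          intro f hf f' hf' hff
          rw [Finset.mem_filter] at hf hf' ⊢
          exact ⟨hR f hf.1 f' hf'.1 hff, mem_agr.mpr (by rw [hf.2, hf'.2])⟩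
        refine (triv_bound k n hn _ _ _ e1 e2 e3).trans (Nat.pow_le_pow_right hn ?_)
        have e4 : (L.filter fun l => g < l) ⊆ (L.erase 0).erase g := by
          intro l hl
          rw [Finset.mem_filter] at hl
          rw [Finset.mem_erase, Finset.mem_erase]
          exact ⟨by omega, by omega, hl.1⟩
        have e5 := Finset.card_le_card e4
        rw [Finset.card_erase_of_mem (Finset.mem_erase.mpr ⟨by omega, hgL⟩),
          Finset.card_erase_of_mem h0, hs] at e5
        omega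
      rw [h1]
      calc ∑ v : Fin n, (R.filter fun f => f x = v).card ≤ ∑ v : Fin n, n ^ (s - 2) :=
            Finset.sum_le_sum fun v _ => h3 v
        _ = n * n ^ (s - 2) := by rw [Finset.sum_const, Finset.card_univ, Fintype.card_fin, smul_eq_mul]
        _ = n ^ (s - 1) := by
          rw [← pow_succ']
          congr 1
          omega
    push Not at hbig
    have clc : ∀ x, (cl x).card = g := fun x => le_antisymm (hbig x) (clg x)
    right
    have clsub : ∀ {x y}, y ∈ cl x → cl y = cl x := by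
      intro x y hy
      exact Finset.eq_of_subset_of_card_le (cl3 y _ (cl1 x) hy) (by rw [clc, clc])
    -- representatives
    set reps : Finset (Fin k) := Finset.univ.filter fun x => ∀ y ∈ cl x, x ≤ y with hreps
    have hrep : ∀ y : Fin k, ∃ x ∈ reps, cl x = cl y := by
      intro y
      obtain ⟨x, hx, hmin'⟩ := Finset.exists_min_image (cl y) id ⟨y, cl2 y⟩
      refine ⟨x, ?_, clsub hx⟩
      rw [hreps, Finset.mem_filter]
      refine ⟨Finset.mem_univ _, fun z hz => hmin' z ?_⟩
      rw [clsub hx] at hz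
      exact hz
    have huniq : ∀ x ∈ reps, ∀ y ∈ reps, cl x = cl y → x = y := by
      intro x hx y hy hxy
      rw [hreps, Finset.mem_filter] at hx hy
      exact le_antisymm (hx.2 y (by rw [hxy]; exact cl2 y)) (hy.2 x (by rw [← hxy]; exact cl2 x))
    have hdisj : ∀ x ∈ reps, ∀ y ∈ reps, x ≠ y → Disjoint (cl x) (cl y) := by
      intro x hx y hy hxy
      rw [Finset.disjoint_left]
      intro z hz1 hz2
      exact hxy (huniq x hx y hy ((clsub hz1).symm.trans (clsub hz2)))
    -- sizes of unions of blocks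
    have hun : ∀ A : Finset (Fin k), (∀ x ∈ A, cl x ⊆ A) → A.card = (reps.filter fun x => x ∈ A).card * g := by
      intro A hA
      have e1 : A = (reps.filter fun x => x ∈ A).biUnion cl := by
        ext y
        rw [Finset.mem_biUnion]
        constructor
        · intro hy
          obtain ⟨x, hx, hxy⟩ := hrep y
          refine ⟨x, Finset.mem_filter.mpr ⟨hx, hA y hy ?_⟩, by rw [hxy]; exact cl2 y⟩
          rw [← hxy]
          exact cl2 x
        · rintro ⟨x, hx, hy⟩
          rw [Finset.mem_filter] at hx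
          exact hA x hx.2 hy
      conv_lhs => rw [e1]
      rw [Finset.card_biUnion]
      · rw [Finset.sum_congr rfl fun x _ => clc x, Finset.sum_const, smul_eq_mul]
      · intro x hx y hy hxy
        rw [Finset.mem_coe, Finset.mem_filter] at hx hy
        exact hdisj x hx.1 y hy.1 hxy
    have hk : k = reps.card * g := by
      have := hun Finset.univ (fun _ _ => Finset.subset_univ _)
      rw [Finset.card_univ, Fintype.card_fin] at this
      simpa using this
    have hm : reps.card = k / g := (Nat.div_eq_of_eq_mul_left (by omega) hk).symm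
    set φ : Fin (k / g) → Fin k := fun i => reps.orderEmbOfFin hm i with hφ
    have hφinj : Function.Injective φ := (reps.orderEmbOfFin hm).injective
    have hφmem : ∀ i, φ i ∈ reps := fun i => Finset.orderEmbOfFin_mem reps hm i
    have hφsurj : ∀ x ∈ reps, ∃ i, φ i = x := by
      intro x hx
      have : x ∈ Set.range (reps.orderEmbOfFin hm) := by
        rw [Finset.range_orderEmbOfFin]
        exact hx
      exact this
    have hprec : ∀ A : Finset (Fin k), (pre φ A).card = (reps.filter fun x => x ∈ A).card := by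
      intro A
      rw [← Finset.card_image_of_injective (pre φ A) hφinj]
      congr 1
      ext x
      rw [Finset.mem_image, Finset.mem_filter]
      constructor
      · rintro ⟨i, hi, rfl⟩
        exact ⟨hφmem i, mem_pre.mp hi⟩
      · rintro ⟨hx, hxA⟩
        obtain ⟨i, rfl⟩ := hφsurj x hx
        exact ⟨i, mem_pre.mpr hxA, rfl⟩
    obtain ⟨p1, p2⟩ := pull φ hR (fun f hf f' hf' hff => by
      by_contra hne
      have h5 := hR f hf f' hf' hne
      apply agr_ne_univ hne
      rw [Finset.eq_univ_iff_forall]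
      intro y
      obtain ⟨x, hx, hxy⟩ := hrep y
      obtain ⟨i, rfl⟩ := hφsurj x hx
      have h6 : φ i ∈ agr f f' := mem_agr.mpr (congrFun hff i)
      exact cl3 _ _ h5 h6 (by rw [hxy]; exact cl2 y))
    refine ⟨⟨reps.card, by rw [mul_comm]; exact hk⟩, _, _, ic_pre hI, ?_, p1, p2, ?_⟩
    · intro A hA
      rw [Finset.mem_image] at hA
      obtain ⟨A, hA, rfl⟩ := hA
      rw [mem_sc (by omega), hprec, mul_comm, ← hun A (fun x hx => cl3 x A hA hx)]
      exact hT A hA
    · intro A hA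
      rw [hun A (fun x hx => cl3 x A hA hx)]
      exact dvd_mul_left _ _
  by_cases hdiv : g ∣ k ∧ ∀ l ∈ L, g ∣ l
  · obtain ⟨e, he, he1, C, hC, h⟩ := H hdiv.1 hdiv.2
    refine ⟨e, he, he1, C, hC, fun n hn T R hI hT hR => ?_⟩
    rcases key n hn T R hI hT hR with h1 | ⟨_, T', R', a1, a2, a3, a4, _⟩
    · exact nat_le_rpow hn (by omega) h1 he1 hC
    · rw [← a4]
      exact h n hn T' R' a1 a2 a3
  · apply RB.of_nat (by omega)
    intro n hn T R hI hT hR
    rcases key n hn T R hI hT hR with h1 | ⟨h1, T', R', a1, a2, a3, a4, a5⟩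
    · exact h1
    · have h3 : ∃ l ∈ L, ¬ g ∣ l := by
        by_contra hcon
        push Not at hcon
        exact hdiv ⟨h1, hcon⟩
      obtain ⟨l, hl, hgl⟩ := h3
      have h4 : ∀ A ∈ T, A.card ∈ L.erase l := by
        intro A hA
        rw [Finset.mem_erase]
        refine ⟨?_, hT A hA⟩
        intro h
        exact hgl (h ▸ a5 A hA)
      have h5 := triv_bound k n hn _ T R hI h4 hR
      rw [Finset.card_erase_of_mem hl, hs] at h5
      exact h5

end Pool.Agent.Helper138_LS
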