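import Pool.Agent.Helper138_LS.SearchDef

/-!
Soundness of the search.
-/

set_option autoImplicit false

namespace Pool.Agent.Helper138_LS

/-- Steiner triple systems as a relation -/
structure STS (Bl : Fin 13 → Fin 13 → Fin 13 → Prop) : Prop where
  swap : ∀ x y z, Bl x y z → Bl y x z
  rot : ∀ x y z, Bl x y z → Bl y z x
  ne : ∀ x y z, Bl x y z → x ≠ y
  ex : ∀ x y, x ≠ y → ∃ z, Bl x y z
  uq : ∀ x y z w, Bl x y z → Bl x y w → z = w

/-- a non-collinear triple -/
def NBl (Bl : Fin 13 → Fin 13 → Fin 13 → Prop) (x y z : Fin 13) : Prop :=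
  x ≠ y ∧ x ≠ z ∧ y ≠ z ∧ ¬ Bl x y z

def Pat (Bl : Fin 13 → Fin 13 → Fin 13 → Prop) (bl ij : List (ℕ × ℕ × ℕ)) (q : ℕ → Fin 13) : Prop :=
  (∀ t ∈ bl, Bl (q t.1) (q t.2.1) (q t.2.2)) ∧ (∀ t ∈ ij, NBl Bl (q t.1) (q t.2.1) (q t.2.2))

def Goal2 (Bl : Fin 13 → Fin 13 → Fin 13 → Prop) : Prop :=
  (∃ q, Pat Bl blocksC injC q) ∨ (∃ q, Pat Bl blocksD injD q)

structure Valid (Bl : Fin 13 → Fin 13 → Fin 13 → Prop) (s : ℕ → Fin 13) (m : ℕ) (L : List ℕ) : Prop where
  inj : ∀ i < m, ∀ j < m, s i = s j → i = j
  bl : ∀ b ∈ L, ∃ i j k, i < m ∧ j < m ∧ k < m ∧ b = mk3 i j k ∧ Bl (s i) (s j) (s k)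

variable {Bl : Fin 13 → Fin 13 → Fin 13 → Prop}

theorem STS.all (h : STS Bl) {x y z : Fin 13} (hb : Bl x y z) :
    Bl x y z ∧ Bl x z y ∧ Bl y x z ∧ Bl y z x ∧ Bl z x y ∧ Bl z y x :=
  ⟨hb, h.rot _ _ _ (h.swap _ _ _ hb), h.swap _ _ _ hb, h.rot _ _ _ hb, h.rot _ _ _ (h.rot _ _ _ hb),
    h.swap _ _ _ (h.rot _ _ _ hb)⟩

/-- two names of a block -/
theorem two_names (h : STS Bl) {s : ℕ → Fin 13} {m : ℕ} {L : List ℕ} (hv : Valid Bl s m L) {b : ℕ}
    (hb : b ∈ L) {i k : ℕ} (hik : i ≠ k) (hi : b.testBit i = true) (hk : b.testBit k = true) :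
    ∃ l, l < m ∧ b.testBit l = true ∧ Bl (s i) (s k) (s l) := by
  obtain ⟨a, c, d, ha, hc, hd, rfl, hB⟩ := hv.bl b hb
  obtain ⟨e1, e2, e3, e4, e5, e6⟩ := h.all hB
  rw [testBit_mk3] at hi hk
  have ta : (mk3 a c d).testBit a = true := (testBit_mk3 _ _ _ _).mpr (Or.inl rfl)
  have tc : (mk3 a c d).testBit c = true := (testBit_mk3 _ _ _ _).mpr (Or.inr (Or.inl rfl))
  have td : (mk3 a c d).testBit d = true := (testBit_mk3 _ _ _ _).mpr (Or.inr (Or.inr rfl))
  rcases hi with rfl | rfl | rfl <;> rcases hk with rfl | rfl | rfl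
  · exact absurd rfl hik
  · exact ⟨d, hd, td, e1⟩
  · exact ⟨c, hc, tc, e2⟩
  · exact ⟨d, hd, td, e3⟩
  · exact absurd rfl hik
  · exact ⟨a, ha, ta, e4⟩
  · exact ⟨c, hc, tc, e5⟩
  · exact ⟨a, ha, ta, e6⟩
  · exact absurd rfl hik

theorem hasB_sound (h : STS Bl) {s : ℕ → Fin 13} {m : ℕ} {L : List ℕ} (hv : Valid Bl s m L)
    {x y z : ℕ} (hh : hasB L x y z = true) : Bl (s x) (s y) (s z) := by
  simp only [hasB, Bool.and_eq_true, Bool.not_eq_true', beq_eq_false_iff_ne, List.any_eq_true,
    beq_iff_eq] at hh
  obtain ⟨hxy, hxz, hyz, b, hb, rfl⟩ := hh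
  obtain ⟨l, hl, hl', hB⟩ := two_names h hv hb hxy ((testBit_mk3 _ _ _ _).mpr (Or.inl rfl))
    ((testBit_mk3 _ _ _ _).mpr (Or.inr (Or.inl rfl)))
  rw [testBit_mk3] at hl'
  rcases hl' with rfl | rfl | rfl
  · exact absurd rfl (h.ne _ _ _ (h.all hB).2.1)
  · exact absurd rfl (h.ne _ _ _ (h.all hB).2.2.2.1)
  · exact hB

theorem notB_sound (h : STS Bl) {s : ℕ → Fin 13} {m : ℕ} {L : List ℕ} (hv : Valid Bl s m L)
    {x y z : ℕ} (hh : notB m L x y z = true) : NBl Bl (s x) (s y) (s z) := by
  simp only [notB, Bool.and_eq_true, Bool.not_eq_true', beq_eq_false_iff_ne, List.any_eq_true] at hh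
  obtain ⟨hx, hy, hz, hxy, hxz, hyz, b, hb, hh⟩ := hh
  have hx' : x < m := by rwa [Nat.blt_eq] at hx
  have hy' : y < m := by rwa [Nat.blt_eq] at hy
  have hz' : z < m := by rwa [Nat.blt_eq] at hz
  refine ⟨fun e => hxy (hv.inj x hx' y hy' e), fun e => hxz (hv.inj x hx' z hz' e),
    fun e => hyz (hv.inj y hy' z hz' e), ?_⟩
  intro hB
  have key : ∀ {u v w : ℕ}, u ≠ v → w < m → b.testBit u = true → b.testBit v = true →
      b.testBit w = false → Bl (s u) (s v) (s w) → False := by
    intro u v w huv hw h1 h2 h3 h4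
    obtain ⟨l, hl, hl', hB'⟩ := two_names h hv hb huv h1 h2
    have := hv.inj l hl w hw (h.uq _ _ _ _ hB' h4)
    rw [this, h3] at hl'
    exact absurd hl' (by simp)
  cases h1 : b.testBit x <;> cases h2 : b.testBit y <;> cases h3 : b.testBit z <;>
    simp only [h1, h2, h3, cond_true, cond_false, Bool.and_true, Bool.and_false, Bool.not_true,
      Bool.not_false, Bool.and_self, reduceCtorEq] at hh
  · exact key hyz hx' h2 h3 h1 (h.all hB).2.2.2.1
  · exact key hxz hy' h1 h3 h2 (h.all hB).2.1
  · exact key hxy hz' h1 h2 h3 hB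

theorem okL_sound (h : STS Bl) {s : ℕ → Fin 13} {m : ℕ} {L : List ℕ} (hv : Valid Bl s m L)
    {bl ij : List (ℕ × ℕ × ℕ)} {c : ℕ} (hh : okL bl ij m L c = true) :
    Pat Bl bl ij fun x => s (dig c x) := by
  rw [okL, Bool.and_eq_true, List.all_eq_true, List.all_eq_true] at hh
  exact ⟨fun t ht => hasB_sound h hv (hh.1 t ht), fun t ht => notB_sound h hv (hh.2 t ht)⟩

theorem foldl_isSome {α β : Type*} (g : α → β → Option β) (ks : List α) (acc : Option β)
    (hh : (ks.foldl (fun acc k => acc.bind (g k)) acc).isSome = true) :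
    acc.isSome = true ∧ ∀ k ∈ ks, ∃ r, (g k r).isSome = true := by
  induction ks generalizing acc with
  | nil => exact ⟨hh, by simp⟩
  | cons k ks ih =>
    rw [List.foldl_cons] at hh
    obtain ⟨h1, h2⟩ := ih _ hh
    cases acc with
    | none => simp at h1
    | some a =>
      refine ⟨rfl, ?_⟩
      intro k' hk'
      rcases List.mem_cons.mp hk' with rfl | hk'
      · exact ⟨a, h1⟩
      · exact h2 k' hk'

theorem excl_sound (i j : ℕ) (L : List ℕ) (k : ℕ) (hh : (excl i j L).testBit k = true) :
    k = i ∨ k = j ∨ ∃ b ∈ L, b.testBit k = true ∧ (b.testBit i = true ∨ b.testBit j = true) := by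
  induction L with
  | nil =>
    rw [excl, Nat.testBit_or, Nat.testBit_two_pow, Nat.testBit_two_pow] at hh
    simp only [Bool.or_eq_true, decide_eq_true_eq] at hh
    rcases hh with h | h
    · exact Or.inl h.symm
    · exact Or.inr (Or.inl h.symm)
  | cons b L ih =>
    rw [excl] at hh
    have hrest : (excl i j L).testBit k = true → k = i ∨ k = j ∨ ∃ b' ∈ b :: L, b'.testBit k = true ∧
        (b'.testBit i = true ∨ b'.testBit j = true) := by
      intro h
      rcases ih h with h | h | ⟨b', h1, h2⟩
      · exact Or.inl h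
      · exact Or.inr (Or.inl h)
      · exact Or.inr (Or.inr ⟨b', List.mem_cons_of_mem _ h1, h2⟩)
    cases hc : (b.testBit i || b.testBit j) with
    | true =>
      rw [hc, cond_true, Nat.testBit_or, Bool.or_eq_true] at hh
      rcases hh with h | h
      · right; right
        rw [Bool.or_eq_true] at hc
        exact ⟨b, List.mem_cons_self, h, hc⟩
      · exact hrest h
    | false =>
      rw [hc, cond_false] at hh
      exact hrest hh

theorem Valid.add {s : ℕ → Fin 13} {m : ℕ} {L : List ℕ} (hv : Valid Bl s m L) {i j k : ℕ}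
    (hi : i < m) (hj : j < m) (hk : k < m) (hB : Bl (s i) (s j) (s k)) :
    Valid Bl s m (mk3 i j k :: L) := by
  refine ⟨hv.inj, ?_⟩
  intro b hb
  rcases List.mem_cons.mp hb with rfl | hb
  · exact ⟨i, j, k, hi, hj, hk, rfl, hB⟩
  · exact hv.bl b hb

theorem Valid.fresh {s : ℕ → Fin 13} {m : ℕ} {L : List ℕ} (hv : Valid Bl s m L) {z : Fin 13}
    (hz : ∀ i < m, s i ≠ z) : Valid Bl (Function.update s m z) (m + 1) L := by
  have hs : ∀ i < m, Function.update s m z i = s i := by
    intro i hi
    rw [Function.update_of_ne (Nat.ne_of_lt hi)]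
  refine ⟨?_, ?_⟩
  · intro i hi j hj hij
    rcases Nat.lt_succ_iff_lt_or_eq.mp hi with hi | rfl <;>
      rcases Nat.lt_succ_iff_lt_or_eq.mp hj with hj | rfl
    · rw [hs i hi, hs j hj] at hij
      exact hv.inj i hi j hj hij
    · rw [hs i hi, Function.update_self] at hij
      exact absurd hij (hz i hi)
    · rw [hs j hj, Function.update_self] at hij
      exact absurd hij.symm (hz j hj)
    · rfl
  · intro b hb
    obtain ⟨i, j, k, hi, hj, hk, rfl, hB⟩ := hv.bl b hb
    exact ⟨i, j, k, Nat.lt_succ_of_lt hi, Nat.lt_succ_of_lt hj, Nat.lt_succ_of_lt hk, rfl,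
      by rw [hs i hi, hs j hj, hs k hk]; exact hB⟩

theorem exists_fresh {s : ℕ → Fin 13} {m : ℕ} (hm : m < 13) : ∃ z, ∀ i < m, s i ≠ z := by
  by_contra hcon
  push Not at hcon
  have h1 : (Finset.univ : Finset (Fin 13)) ⊆ (Finset.range m).image s := by
    intro z _
    obtain ⟨i, hi, h⟩ := hcon z
    exact Finset.mem_image.mpr ⟨i, Finset.mem_range.mpr hi, h⟩
  have h2 := Finset.card_le_card h1
  have h3 : ((Finset.range m).image s).card ≤ m := Finset.card_image_le.trans (by simp)
  simp at h2
  omega

theorem lt_of_fresh {s : ℕ → Fin 13} {m : ℕ} (hinj : ∀ i < m, ∀ j < m, s i = s j → i = j)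
    {z : Fin 13} (hz : ∀ i < m, s i ≠ z) : m < 13 := by
  have h1 : ((Finset.range m).image s).card = m := by
    rw [Finset.card_image_of_injOn]
    · simp
    · intro i hi j hj hij
      exact hinj i (by simpa using hi) j (by simpa using hj) hij
  have h2 : (insert z ((Finset.range m).image s)).card = m + 1 := by
    rw [Finset.card_insert_of_notMem, h1]
    intro h
    obtain ⟨i, hi, h⟩ := Finset.mem_image.mp h
    exact hz i (Finset.mem_range.mp hi) h
  have h3 := Finset.card_le_univ (insert z ((Finset.range m).image s))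
  simp at h3
  omega

theorem run_sound (h : STS Bl) : ∀ (f m : ℕ) (L c : List ℕ) (s : ℕ → Fin 13), Valid Bl s m L →
    (run f m L c).isSome = true → Goal2 Bl := by
  intro f
  induction f with
  | zero => intro m L c s _ hh; simp [run] at hh
  | succ f ih =>
    intro m L c s hv hh
    cases c with
    | nil => simp [run] at hh
    | cons x r =>
      rw [run] at hh
      cases h0 : (x % 4 == 0) with
      | true =>
        rw [h0, cond_true] at hh
        generalize x / 64 = i at hh
        generalize x / 4 % 16 = j at hh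
        cases h1 : (Nat.blt i m && (Nat.blt j m && (!(i == j) && uncov i j L))) with
        | false => rw [h1] at hh; simp at hh
        | true =>
          rw [h1, cond_true] at hh
          simp only [Bool.and_eq_true, Bool.not_eq_true', beq_eq_false_iff_ne, Nat.blt_eq] at h1
          obtain ⟨hi, hj, hij, hunc⟩ := h1
          -- the two parts
          have hparts : (∀ k ∈ cands m i j L, ∃ r, (run f m (mk3 i j k :: L) r).isSome = true) ∧
              (m < 13 → ∃ r, (run f (m + 1) (mk3 i j m :: L) r).isSome = true) := by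
            cases h2 : Nat.blt m 13 with
            | false =>
              simp only [h2, cond_false] at hh
              refine ⟨(foldl_isSome _ _ _ hh).2, ?_⟩
              intro h3
              rw [← Nat.blt_eq, h2] at h3
              exact absurd h3 (by simp)
            | true =>
              simp only [h2, cond_true] at hh
              cases h3 : (cands m i j L).foldl
                  (fun acc k => acc.bind fun r => run f m (mk3 i j k :: L) r) (some r) with
              | none => rw [h3] at hh; simp at hh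
              | some r' =>
                rw [h3] at hh
                refine ⟨(foldl_isSome _ _ (some r) (by rw [h3]; rfl)).2, fun _ => ⟨r', hh⟩⟩
          have hne : s i ≠ s j := fun e => hij (hv.inj i hi j hj e)
          obtain ⟨z, hz⟩ := h.ex _ _ hne
          by_cases hk : ∃ k, k < m ∧ s k = z
          · obtain ⟨k, hk, rfl⟩ := hk
            by_cases hex : (excl i j L).testBit k = true
            · exfalso
              have hki : k ≠ i := by
                rintro rfl
                exact h.ne _ _ _ (h.all hz).2.1 rfl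
              have hkj : k ≠ j := by
                rintro rfl
                exact h.ne _ _ _ (h.all hz).2.2.2.1 rfl
              rcases excl_sound i j L k hex with h2 | h2 | ⟨b, hb, hbk, hb2⟩
              · exact hki h2
              · exact hkj h2
              · rw [uncov, List.all_eq_true] at hunc
                have hb3 := hunc b hb
                rcases hb2 with hbi | hbj
                · obtain ⟨l, hl, hl', hB⟩ := two_names h hv hb (Ne.symm hki) hbi hbk
                  have : l = j := hv.inj l hl j hj (h.uq _ _ _ _ hB (h.all hz).2.1)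
                  rw [this] at hl'
                  rw [hbi, hl'] at hb3
                  exact absurd hb3 (by simp)
                · obtain ⟨l, hl, hl', hB⟩ := two_names h hv hb (Ne.symm hkj) hbj hbk
                  have : l = i := hv.inj l hl i hi (h.uq _ _ _ _ hB (h.all hz).2.2.2.1)
                  rw [this] at hl'
                  rw [hbj, hl'] at hb3
                  exact absurd hb3 (by simp)
            · have hc : k ∈ cands m i j L := by
                rw [cands, List.mem_filter]
                refine ⟨List.mem_range.mpr hk, ?_⟩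
                simpa using hex
              obtain ⟨r', hr'⟩ := hparts.1 k hc
              exact ih m _ r' s (hv.add hi hj hk hz) hr'
          · push Not at hk
            have hm := lt_of_fresh hv.inj hk
            obtain ⟨r', hr'⟩ := hparts.2 hm
            refine ih (m + 1) _ r' (Function.update s m z) ?_ hr'
            apply (hv.fresh hk).add (Nat.lt_succ_of_lt hi) (Nat.lt_succ_of_lt hj) (Nat.lt_succ_self m)
            rw [Function.update_of_ne (Nat.ne_of_lt hi), Function.update_of_ne (Nat.ne_of_lt hj),
              Function.update_self]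
            exact hz
      | false =>
        rw [h0, cond_false] at hh
        cases h1 : (x % 4 == 1) with
        | true =>
          rw [h1, cond_true] at hh
          cases h2 : okL blocksC injC m L (x / 4) with
          | true => exact Or.inl ⟨_, okL_sound h hv h2⟩
          | false => rw [h2] at hh; simp at hh
        | false =>
          rw [h1, cond_false] at hh
          cases h2 : (x % 4 == 2) with
          | true =>
            rw [h2, cond_true] at hh
            cases h3 : okL blocksD injD m L (x / 4) with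
            | true => exact Or.inr ⟨_, okL_sound h hv h3⟩
            | false => rw [h3] at hh; simp at hh
          | false =>
            rw [h2, cond_false] at hh
            cases h3 : Nat.blt m 13 with
            | true =>
              rw [h3, cond_true] at hh
              have hm : m < 13 := by rwa [Nat.blt_eq] at h3
              obtain ⟨z, hz⟩ := exists_fresh (s := s) hm
              exact ih (m + 1) L r _ (hv.fresh hz) hh
            | false => rw [h3] at hh; simp at hh

end Pool.Agent.Helper138_LS
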