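import Pool.Agent.H480R2.LS.Fam
import Pool.Agent.Helper138_LS.Patterns
import Pool.Agent.Helper138_LS.SearchSound
import Pool.Agent.Helper138_LS.SearchCert

/-!
Relations whose patterns form a Steiner triple system on 13 points are sparse.
-/

set_option autoImplicit false

open Finset

namespace Pool.Agent.Helper138_LS

open Pool.Agent.H480R2.LS

theorem sts_goal {Bl : Fin 13 → Fin 13 → Fin 13 → Prop} (h : STS Bl) : Goal2 Bl := by
  refine run_sound h 60 2 [] cert (fun i => if i = 1 then 1 else 0) ⟨?_, by simp⟩ cert_ok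
  intro i hi j hj hij
  interval_cases i <;> interval_cases j <;> simp_all

variable {T : Finset (Finset (Fin 13))}

/-- the blocks -/
def Blk (T : Finset (Finset (Fin 13))) (x y z : Fin 13) : Prop :=
  x ≠ y ∧ x ≠ z ∧ y ≠ z ∧ ∃ A ∈ T, x ∈ A ∧ y ∈ A ∧ z ∈ A

theorem card3 (hT : ∀ A ∈ T, A.card ∈ ({0, 1, 3} : Finset ℕ)) {A : Finset (Fin 13)} (hA : A ∈ T)
    {x y : Fin 13} (hxy : x ≠ y) (hx : x ∈ A) (hy : y ∈ A) : A.card = 3 := by
  have h1 : 1 < A.card := Finset.one_lt_card.mpr ⟨x, hx, y, hy, hxy⟩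
  have h2 := hT A hA
  simp only [Finset.mem_insert, Finset.mem_singleton] at h2
  omega

theorem same (hI : IC T) (hT : ∀ A ∈ T, A.card ∈ ({0, 1, 3} : Finset ℕ)) {A B : Finset (Fin 13)}
    (hA : A ∈ T) (hB : B ∈ T) {x y : Fin 13} (hxy : x ≠ y) (hx : x ∈ A) (hy : y ∈ A) (hx' : x ∈ B)
    (hy' : y ∈ B) : A = B := by
  have h1 := hI A hA B hB
  have h2 := card3 hT h1 hxy (Finset.mem_inter.mpr ⟨hx, hx'⟩) (Finset.mem_inter.mpr ⟨hy, hy'⟩)
  have h3 := card3 hT hA hxy hx hy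
  have h4 := card3 hT hB hxy hx' hy'
  have h5 : A ∩ B = A := Finset.eq_of_subset_of_card_le Finset.inter_subset_left (by omega)
  have h6 : A ∩ B = B := Finset.eq_of_subset_of_card_le Finset.inter_subset_right (by omega)
  rw [← h5, h6]

theorem sts_of (hI : IC T) (hT : ∀ A ∈ T, A.card ∈ ({0, 1, 3} : Finset ℕ))
    (hcov : ∀ x y : Fin 13, x ≠ y → ∃ A ∈ T, x ∈ A ∧ y ∈ A) : STS (Blk T) where
  swap := fun x y z ⟨h1, h2, h3, A, hA, hx, hy, hz⟩ => ⟨h1.symm, h3, h2, A, hA, hy, hx, hz⟩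
  rot := fun x y z ⟨h1, h2, h3, A, hA, hx, hy, hz⟩ => ⟨h3, h1.symm, h2.symm, A, hA, hy, hz, hx⟩
  ne := fun x y z h => h.1
  ex := by
    intro x y hxy
    obtain ⟨A, hA, hx, hy⟩ := hcov x y hxy
    have h1 := card3 hT hA hxy hx hy
    obtain ⟨z, hz, hz'⟩ : ∃ z ∈ A, z ∉ ({x, y} : Finset (Fin 13)) := by
      apply Finset.exists_mem_notMem_of_card_lt_card
      rw [h1]
      exact (Finset.card_le_two).trans_lt (by norm_num)
    simp only [Finset.mem_insert, Finset.mem_singleton, not_or] at hz'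
    exact ⟨z, hxy, fun e => hz'.1 e.symm, fun e => hz'.2 e.symm, A, hA, hx, hy, hz⟩
  uq := by
    rintro x y z w ⟨h1, h2, h3, A, hA, hx, hy, hz⟩ ⟨_, h5, h6, B, hB, hx', hy', hw⟩
    have h7 := same hI hT hA hB h1 hx hy hx' hy'
    subst h7
    by_contra hne
    have h8 : ({x, y, z, w} : Finset (Fin 13)) ⊆ A := by
      intro t ht
      simp only [Finset.mem_insert, Finset.mem_singleton] at ht
      rcases ht with rfl | rfl | rfl | rfl <;> assumption
    have h9 := Finset.card_le_card h8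
    rw [card3 hT hA h1 hx hy] at h9
    have h10 : ({x, y, z, w} : Finset (Fin 13)).card = 4 := by
      rw [Finset.card_insert_of_notMem, Finset.card_insert_of_notMem, Finset.card_insert_of_notMem,
        Finset.card_singleton]
      · simpa using hne
      · simp only [Finset.mem_insert, Finset.mem_singleton, not_or]
        exact ⟨h3, h6⟩
      · simp only [Finset.mem_insert, Finset.mem_singleton, not_or]
        exact ⟨h1, h2, h5⟩
    omega

section rel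

variable {n : ℕ} {R : Finset (Fin 13 → Fin n)}

theorem blk_det (hI : IC T) (hT : ∀ A ∈ T, A.card ∈ ({0, 1, 3} : Finset ℕ)) (hR : PatIn R T)
    {x y z : Fin 13} (h : Blk T x y z) :
    Det2 R (fun f => f x) (fun f => f y) (fun f => f z) := by
  intro f hf g hg h1 h2
  by_cases hfg : f = g
  · rw [hfg]
  obtain ⟨hxy, _, _, A, hA, hx, hy, hz⟩ := h
  have h3 := same hI hT hA (hR f hf g hg hfg) hxy hx hy (mem_agr.mpr h1) (mem_agr.mpr h2)
  rw [h3] at hz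
  exact mem_agr.mp hz

theorem blk_col (hI : IC T) (hT : ∀ A ∈ T, A.card ∈ ({0, 1, 3} : Finset ℕ)) (hR : PatIn R T)
    {x y z : Fin 13} (h : Blk T x y z) :
    Col R (fun f => f x) (fun f => f y) (fun f => f z) := by
  obtain ⟨h1, h2, h3, A, hA, hx, hy, hz⟩ := h
  exact ⟨blk_det hI hT hR ⟨h1, h2, h3, A, hA, hx, hy, hz⟩,
    blk_det hI hT hR ⟨h2, h1, h3.symm, A, hA, hx, hz, hy⟩,
    blk_det hI hT hR ⟨h3, h1.symm, h2.symm, A, hA, hy, hz, hx⟩⟩

theorem nbl_inj (hR : PatIn R T) {x y z : Fin 13} (h : NBl (Blk T) x y z) :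
    Inj3 R (fun f => f x) (fun f => f y) (fun f => f z) := by
  intro f hf g hg h1 h2 h3
  by_contra hfg
  exact h.2.2.2 ⟨h.1, h.2.1, h.2.2.1, agr f g, hR f hf g hg hfg, mem_agr.mpr h1, mem_agr.mpr h2,
    mem_agr.mpr h3⟩

/-- the bound in terms of the density -/
theorem rel13 (hn : 0 < n) (hI : IC T) (hT : ∀ A ∈ T, A.card ∈ ({0, 1, 3} : Finset ℕ))
    (hR : PatIn R T) {c : ℝ} (hc : 0 ≤ c) (hS : c * (n : ℝ) ^ 3 ≤ R.card) :
    c * (n : ℝ) ^ 3 ≤ (n : ℝ) ^ 2 ∨ gC c * (n : ℝ) ^ 3 ≤ (n : ℝ) ^ 2 ∨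
      gD c * (n : ℝ) ^ 3 ≤ (n : ℝ) ^ 2 := by
  by_cases hcov : ∀ x y : Fin 13, x ≠ y → ∃ A ∈ T, x ∈ A ∧ y ∈ A
  · right
    have hcl : ∀ {x y z : Fin 13}, Blk T x y z → Col R (fun f => f x) (fun f => f y) (fun f => f z) :=
      fun h => blk_col hI hT hR h
    have hin : ∀ {x y z : Fin 13}, NBl (Blk T) x y z →
        Inj3 R (fun f => f x) (fun f => f y) (fun f => f z) := fun h => nbl_inj hR h
    rcases sts_goal (sts_of hI hT hcov) with ⟨q, h1, h2⟩ | ⟨q, h1, h2⟩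
    · left
      simp only [blocksC, injC, List.forall_mem_cons, List.not_mem_nil, false_implies, implies_true,
        and_true] at h1 h2
      obtain ⟨b1, b2, b3, b4, b5, b6, b7, b8, b9, b10, b11⟩ := h1
      obtain ⟨i1, i2, i3, i4, i5, i6, i7, i8, i9, i10⟩ := h2
      exact patC hn (hcl b1) (hcl b2) (hcl b3) (hcl b4) (hcl b5) (hcl b6) (hcl b7) (hcl b8) (hcl b9)
        (hcl b10) (hcl b11) (hin i1) (hin i2) (hin i3) (hin i4) (hin i5) (hin i6) (hin i7) (hin i8)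
        (hin i9) (hin i10) hc hS
    · right
      simp only [blocksD, injD, List.forall_mem_cons, List.not_mem_nil, false_implies, implies_true,
        and_true] at h1 h2
      obtain ⟨b1, b2, b3, b4, b5, b6, b7, b8, b9, b10, b11, b12, b13, b14, b15, b16, b17, b18⟩ := h1
      obtain ⟨i1, i2, i3, i4, i5, i6, i7, i8, i9, i10, i11, i12, i13, i14, i15, i16, i17, i18, i19⟩ := h2
      exact patD hn (hcl b1) (hcl b2) (hcl b3) (hcl b4) (hcl b5) (hcl b6) (hcl b7) (hcl b8) (hcl b9)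
        (hcl b10) (hcl b11) (hcl b12) (hcl b13) (hcl b14) (hcl b15) (hcl b16) (hcl b17) (hcl b18)
        (hin i1) (hin i2) (hin i3) (hin i4) (hin i5) (hin i6) (hin i7) (hin i8) (hin i9) (hin i10)
        (hin i11) (hin i12) (hin i13) (hin i14) (hin i15) (hin i16) (hin i17) (hin i18) (hin i19) hc hS
  · left
    push Not at hcov
    obtain ⟨x, y, _, h⟩ := hcov
    have h1 : R.card ≤ n ^ 2 := by
      apply card_le_sq R (fun f => f x) (fun f => f y)
      intro f hf g hg h1 h2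
      by_contra hfg
      exact h _ (hR f hf g hg hfg) (mem_agr.mpr h1) (mem_agr.mpr h2)
    have h2 : (R.card : ℝ) ≤ (n : ℝ) ^ 2 := by exact_mod_cast h1
    exact hS.trans h2

end rel

/-- from the density to a power saving -/
theorem mono_bound {g : ℝ → ℝ} (hg : Mono g) : ∃ e : ℝ, 0 < e ∧ e ≤ 1 ∧ ∃ C : ℝ, 0 < C ∧
    ∀ (n : ℕ) (x : ℝ), 0 < n → 0 ≤ x → g (x / (n : ℝ) ^ 3) * (n : ℝ) ^ 3 ≤ (n : ℝ) ^ 2 →
      x ≤ C * (n : ℝ) ^ (3 - e) := by
  obtain ⟨k, hk, K, hK, h⟩ := hg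
  have hK' : (0 : ℝ) < K := by exact_mod_cast hK
  have hK1 : (1 : ℝ) ≤ K := by exact_mod_cast hK
  refine ⟨1 / K, by positivity, by rw [div_le_one hK']; exact hK1, (1 / k) ^ (1 / (K : ℝ)), by positivity, ?_⟩
  intro n x hn hx hh
  have hn' : (0 : ℝ) < n := by exact_mod_cast hn
  rw [h] at hh
  set y := x / (n : ℝ) ^ 3 with hy
  have hy0 : 0 ≤ y := by positivity
  have h1 : y ^ K ≤ (1 / k) * (n : ℝ)⁻¹ := by
    have h2 : k * (n : ℝ) ^ 3 * y ^ K ≤ k * (n : ℝ) ^ 3 * ((1 / k) * (n : ℝ)⁻¹) := by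
      calc k * (n : ℝ) ^ 3 * y ^ K = k * y ^ K * (n : ℝ) ^ 3 := by ring
        _ ≤ (n : ℝ) ^ 2 := hh
        _ = k * (n : ℝ) ^ 3 * ((1 / k) * (n : ℝ)⁻¹) := by field_simp
    exact le_of_mul_le_mul_left h2 (by positivity)
  have h2 : y ≤ ((1 / k) * (n : ℝ)⁻¹) ^ (1 / (K : ℝ)) := by
    have h3 : (y ^ K) ^ (1 / (K : ℝ)) = y := by
      rw [← Real.rpow_natCast, ← Real.rpow_mul hy0, mul_one_div_cancel hK'.ne', Real.rpow_one]
    rw [← h3]
    exact Real.rpow_le_rpow (by positivity) h1 (by positivity)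
  have h3 : x = y * (n : ℝ) ^ 3 := by
    rw [hy]; field_simp
  rw [h3]
  calc y * (n : ℝ) ^ 3 ≤ ((1 / k) * (n : ℝ)⁻¹) ^ (1 / (K : ℝ)) * (n : ℝ) ^ 3 := by gcongr
    _ = (1 / k) ^ (1 / (K : ℝ)) * (n : ℝ) ^ (3 - 1 / (K : ℝ)) := by
      rw [Real.mul_rpow (by positivity) (by positivity), Real.inv_rpow hn'.le, Real.rpow_sub hn']
      have : (n : ℝ) ^ (3 : ℝ) = (n : ℝ) ^ 3 := by exact_mod_cast Real.rpow_natCast (n : ℝ) 3
      rw [this]
      ring

theorem rpow_mono_e {n : ℕ} (hn : 0 < n) {e e' C C' : ℝ} (he : e' ≤ e) (hC : 0 < C) (hCC : C ≤ C') :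
    C * (n : ℝ) ^ (3 - e) ≤ C' * (n : ℝ) ^ (3 - e') := by
  have h1 : (n : ℝ) ^ (3 - e) ≤ (n : ℝ) ^ (3 - e') :=
    Real.rpow_le_rpow_of_exponent_le (by exact_mod_cast hn) (by linarith)
  calc C * (n : ℝ) ^ (3 - e) ≤ C' * (n : ℝ) ^ (3 - e) := by gcongr
    _ ≤ _ := by gcongr; linarith

/-- the bound for relations -/
theorem rel13_bound : ∃ e : ℝ, 0 < e ∧ e ≤ 1 ∧ ∃ C : ℝ, 0 < C ∧
    ∀ (T : Finset (Finset (Fin 13))), (∀ A ∈ T, A.card ∈ ({0, 1, 3} : Finset ℕ)) → IC T →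
      ∀ (n : ℕ), 0 < n → ∀ R : Finset (Fin 13 → Fin n), PatIn R T →
        (R.card : ℝ) ≤ C * (n : ℝ) ^ (3 - e) := by
  obtain ⟨e1, he1, he1', C1, hC1, h1⟩ := mono_bound mono_gC
  obtain ⟨e2, he2, he2', C2, hC2, h2⟩ := mono_bound mono_gD
  refine ⟨min e1 e2, lt_min he1 he2, (min_le_left _ _).trans he1', C1 + C2 + 1, by positivity, ?_⟩
  intro T hT hI n hn R hR
  have hn' : (0 : ℝ) < n := by exact_mod_cast hn
  set c : ℝ := (R.card : ℝ) / (n : ℝ) ^ 3 with hc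
  have hc0 : 0 ≤ c := by positivity
  have hS : c * (n : ℝ) ^ 3 = R.card := by rw [hc]; field_simp
  rcases rel13 hn hI hT hR hc0 hS.le with h | h | h
  · rw [hS] at h
    calc (R.card : ℝ) ≤ 1 * (n : ℝ) ^ (3 - 1 : ℝ) := by
          rw [one_mul]
          have : (n : ℝ) ^ (3 - 1 : ℝ) = (n : ℝ) ^ 2 := by
            rw [show (3 - 1 : ℝ) = ((2 : ℕ) : ℝ) by norm_num, Real.rpow_natCast]
          rw [this]
          exact h
      _ ≤ _ := rpow_mono_e hn ((min_le_left _ _).trans he1') one_pos (by linarith)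
  · exact (h1 n _ hn (Nat.cast_nonneg _) h).trans (rpow_mono_e hn (min_le_left _ _) hC1 (by linarith))
  · exact (h2 n _ hn (Nat.cast_nonneg _) h).trans (rpow_mono_e hn (min_le_right _ _) hC2 (by linarith))

/-- reduction of systems to relations -/
theorem sys_red {k : ℕ} {L : Finset ℕ} (hk : 1 ≤ k) (hL : L ⊆ Finset.range k) {n : ℕ} {B : ℝ}
    (H : ∀ T : Finset (Finset (Fin k)), (∀ A ∈ T, A.card ∈ L) → IC T →
      ∀ R : Finset (Fin k → Fin n), PatIn R T → (R.card : ℝ) ≤ B)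
    {F : Finset (Finset (Fin n))} (hF : Sys n k L F) :
    (F.card : ℝ) ≤ (k : ℝ) ^ k * ((Kc k (TL k L).card : ℝ) * B) := by
  classical
  obtain ⟨R, hR, hFR⟩ := rainbow hk hF
  obtain ⟨S, hS, hRS, T, hT, hI, hP⟩ := furedi (TL k L) (univ_notMem_TL hL) R hR
  have hTL : ∀ A ∈ T, A.card ∈ L := by
    intro A hA
    have := hT hA
    rw [TL, Finset.mem_filter] at this
    exact this.2
  have h1 : (F.card : ℝ) ≤ (k:ℝ) ^ k * ((Kc k (TL k L).card : ℝ) * (S.card : ℝ)) := by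
    have h2 : F.card ≤ k ^ k * (Kc k (TL k L).card * S.card) :=
      hFR.trans (Nat.mul_le_mul_left _ hRS)
    exact_mod_cast h2
  have h2 := H T hTL hI S hP
  calc _ ≤ _ := h1
    _ ≤ _ := by gcongr

/-- the bound for `(n, 13, {0,1,3})`-systems -/
theorem sys13 : ∃ e : ℝ, 0 < e ∧ e ≤ 1 ∧ ∃ C : ℝ, 0 < C ∧ ∀ (n : ℕ) (F : Finset (Finset (Fin n))),
    Sys n 13 {0, 1, 3} F → (F.card : ℝ) ≤ C * (n : ℝ) ^ (3 - e) := by
  obtain ⟨e, he, he1, C, hC, h⟩ := rel13_bound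
  refine ⟨e, he, he1, (13 : ℕ) ^ 13 * ((Kc 13 (TL 13 {0, 1, 3}).card : ℝ) * C) + 1, by positivity, ?_⟩
  intro n F hF
  rcases Nat.eq_zero_or_pos n with rfl | hn
  · have : F = ∅ := by
      rw [Finset.eq_empty_iff_forall_notMem]
      intro A hA
      have h1 := hF.1 A hA
      have h2 := Finset.card_le_univ A
      simp at h2
      rw [h2] at h1
      simp at h1
    rw [this]
    simp only [Finset.card_empty, Nat.cast_zero]
    positivity
  · have h1 := sys_red (k := 13) (L := {0, 1, 3}) (by norm_num) (by decide)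
      (fun T hT hI R hR => h T hT hI n hn R hR) hF
    have h2 : (0 : ℝ) ≤ (n : ℝ) ^ (3 - e) := by positivity
    calc (F.card : ℝ) ≤ _ := h1
      _ = ((13 : ℕ) ^ 13 * ((Kc 13 (TL 13 {0, 1, 3}).card : ℝ) * C)) * (n : ℝ) ^ (3 - e) := by ring
      _ ≤ _ := by
        apply mul_le_mul_of_nonneg_right _ h2
        linarith

end Pool.Agent.Helper138_LS
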