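import Mathlib

/-!
A verified search: every Steiner triple system on 13 points contains one of two configurations.
Names `0, .., m-1` stand for distinct points; blocks are stored as bit masks.
-/

set_option autoImplicit false

namespace Pool.Agent.Helper138_LS

/-- mask of a triple of names -/
def mk3 (i j k : ℕ) : ℕ := 2 ^ i ||| 2 ^ j ||| 2 ^ k

theorem testBit_mk3 (i j k x : ℕ) : (mk3 i j k).testBit x = true ↔ i = x ∨ j = x ∨ k = x := by
  rw [mk3, Nat.testBit_or, Nat.testBit_or, Nat.testBit_two_pow, Nat.testBit_two_pow,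
    Nat.testBit_two_pow]
  simp [or_assoc]

/-- names that cannot be third point of `i`, `j` -/
def excl (i j : ℕ) : List ℕ → ℕ
  | [] => 2 ^ i ||| 2 ^ j
  | b :: L => bif b.testBit i || b.testBit j then b ||| excl i j L else excl i j L

def uncov (i j : ℕ) (L : List ℕ) : Bool := L.all fun b => !(b.testBit i && b.testBit j)

def cands (m i j : ℕ) (L : List ℕ) : List ℕ :=
  (List.range m).filter fun k => !(excl i j L).testBit k

/-- digit of a code -/
def dig (c x : ℕ) : ℕ := (c >>> (4 * x)) % 16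

def blocksC : List (ℕ × ℕ × ℕ) :=
  [(1,10,11),(1,6,12),(1,7,9),(4,10,12),(4,6,11),(5,7,12),(5,6,9),(3,5,10),(3,4,7),(6,7,10),(3,9,11)]
def injC : List (ℕ × ℕ × ℕ) :=
  [(1,10,12),(1,7,10),(1,7,12),(7,10,12),(1,5,12),(5,10,12),(1,5,10),(1,4,5),(5,6,7),(7,10,11)]
def blocksD : List (ℕ × ℕ × ℕ) :=
  [(2,3,6),(3,9,11),(3,5,10),(2,4,9),(4,6,11),(0,9,10),(0,5,11),(2,8,10),(5,6,12),(0,1,4),(4,5,8),
   (0,6,8),(1,2,5),(0,2,7),(1,10,11),(1,7,12),(1,3,8),(7,8,11)]
def injD : List (ℕ × ℕ × ℕ) :=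
  [(2,3,9),(2,3,10),(3,9,10),(2,9,10),(2,4,8),(2,6,8),(4,6,8),(0,4,6),(1,5,12),(1,3,12),(1,3,5),
   (3,5,12),(5,6,8),(1,2,10),(0,2,12),(0,2,5),(1,7,11),(7,10,11),(3,11,12)]

def hasB (L : List ℕ) (x y z : ℕ) : Bool :=
  !(x == y) && (!(x == z) && (!(y == z) && L.any fun b => b == mk3 x y z))

def notB (m : ℕ) (L : List ℕ) (x y z : ℕ) : Bool :=
  Nat.blt x m && (Nat.blt y m && (Nat.blt z m && (!(x == y) && (!(x == z) && (!(y == z) &&
  L.any fun b => bif b.testBit x then (bif b.testBit y then !b.testBit z else b.testBit z)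
    else b.testBit y && b.testBit z)))))

def okL (bl ij : List (ℕ × ℕ × ℕ)) (m : ℕ) (L : List ℕ) (c : ℕ) : Bool :=
  (bl.all fun t => hasB L (dig c t.1) (dig c t.2.1) (dig c t.2.2)) &&
    (ij.all fun t => notB m L (dig c t.1) (dig c t.2.1) (dig c t.2.2))

def run : ℕ → ℕ → List ℕ → List ℕ → Option (List ℕ)
  | 0, _, _, _ => none
  | _ + 1, _, _, [] => none
  | f + 1, m, L, x :: r =>
    bif x % 4 == 0 then
      bif Nat.blt (x / 64) m && (Nat.blt (x / 4 % 16) m && (!(x / 64 == x / 4 % 16) &&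
          uncov (x / 64) (x / 4 % 16) L)) then
        let r1 := (cands m (x / 64) (x / 4 % 16) L).foldl
          (fun acc k => acc.bind fun r => run f m (mk3 (x / 64) (x / 4 % 16) k :: L) r) (some r)
        bif Nat.blt m 13 then
          r1.bind fun r => run f (m + 1) (mk3 (x / 64) (x / 4 % 16) m :: L) r
        else r1
      else none
    else bif x % 4 == 1 then (bif okL blocksC injC m L (x / 4) then some r else none)
    else bif x % 4 == 2 then (bif okL blocksD injD m L (x / 4) then some r else none)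
    else (bif Nat.blt m 13 then run f (m + 1) L r else none)

end Pool.Agent.Helper138_LS
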