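import Pool.Agent.Helper138_LS.Reduce
import Pool.Agent.Helper138_LS.PlaneNeg

/-!
Counting: a family `T` with sizes 0, 1, 3 that covers all pairs exists only if `k` is 1 or 3 modulo 6.
-/

set_option autoImplicit false

open Finset

namespace Pool.Agent.Helper138_LS

open Pool.Agent.H480R2.LS

section count

variable {k l : ℕ} {T : Finset (Finset (Fin k))}

theorem count_point (hI : IC T) (hT : ∀ A ∈ T, A.card ∈ ({0, 1, l} : Finset ℕ))
    (hcov : ∀ x y : Fin k, x ≠ y → ∃ A ∈ T, x ∈ A ∧ y ∈ A) (_hl : 2 ≤ l) (x : Fin k) :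
    ((T.filter fun A => A.card = l ∧ x ∈ A).card) * (l - 1) = k - 1 := by
  classical
  have h1 : ((Finset.univ : Finset (Fin k)).erase x) =
      (T.filter fun A => A.card = l ∧ x ∈ A).biUnion fun A => A.erase x := by
    ext y
    rw [Finset.mem_erase, Finset.mem_biUnion]
    constructor
    · rintro ⟨hy, _⟩
      obtain ⟨A, hA, h1, h2⟩ := hcov x y hy.symm
      exact ⟨A, Finset.mem_filter.mpr ⟨hA, cardT hT hA hy.symm h1 h2, h1⟩, Finset.mem_erase.mpr ⟨hy, h2⟩⟩
    · rintro ⟨A, _, h2⟩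
      exact ⟨(Finset.mem_erase.mp h2).1, Finset.mem_univ _⟩
  have h2 : ((Finset.univ : Finset (Fin k)).erase x).card = k - 1 := by
    rw [Finset.card_erase_of_mem (Finset.mem_univ _), Finset.card_univ, Fintype.card_fin]
  rw [← h2, h1, Finset.card_biUnion]
  · have h3 : ∀ A ∈ (T.filter fun A => A.card = l ∧ x ∈ A), (A.erase x).card = l - 1 := by
      intro A hA
      rw [Finset.mem_filter] at hA
      rw [Finset.card_erase_of_mem hA.2.2, hA.2.1]
    rw [Finset.sum_congr rfl h3, Finset.sum_const, smul_eq_mul]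
  · intro A hA B hB hAB
    rw [Finset.mem_coe, Finset.mem_filter] at hA hB
    show Disjoint (A.erase x) (B.erase x)
    rw [Finset.disjoint_left]
    intro y hy1 hy2
    rw [Finset.mem_erase] at hy1 hy2
    exact hAB (sameT hI hT hA.1 hB.1 hy1.1.symm hA.2.2 hy1.2 hB.2.2 hy2.2)

theorem count_pairs (hI : IC T) (hT : ∀ A ∈ T, A.card ∈ ({0, 1, l} : Finset ℕ))
    (hcov : ∀ x y : Fin k, x ≠ y → ∃ A ∈ T, x ∈ A ∧ y ∈ A) (hl : 2 ≤ l) :
    (T.filter fun A => A.card = l).card * (l * (l - 1)) = k * (k - 1) := by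
  classical
  have h1 : ∑ x : Fin k, (T.filter fun A => A.card = l ∧ x ∈ A).card =
      ∑ A ∈ T.filter (fun A => A.card = l), A.card := by
    simp_rw [Finset.card_eq_sum_ones, Finset.sum_filter]
    rw [Finset.sum_comm]
    apply Finset.sum_congr rfl
    intro A _
    by_cases hA : A.card = l
    · simp [hA]
    · simp [hA]
  have h2 : ∑ A ∈ T.filter (fun A => A.card = l), A.card = (T.filter fun A => A.card = l).card * l := by
    rw [Finset.sum_congr rfl (fun A hA => (Finset.mem_filter.mp hA).2), Finset.sum_const, smul_eq_mul]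
  have h3 : (∑ x : Fin k, (T.filter fun A => A.card = l ∧ x ∈ A).card) * (l - 1) = k * (k - 1) := by
    rw [Finset.sum_mul, Finset.sum_congr rfl (fun x _ => count_point hI hT hcov hl x), Finset.sum_const,
      Finset.card_univ, Fintype.card_fin, smul_eq_mul]
  rw [h1, h2] at h3
  rw [← h3]
  ring

end count

theorem sts_mod {k : ℕ} (hk : 4 ≤ k) {T : Finset (Finset (Fin k))} (hI : IC T)
    (hT : ∀ A ∈ T, A.card ∈ ({0, 1, 3} : Finset ℕ))
    (hcov : ∀ x y : Fin k, x ≠ y → ∃ A ∈ T, x ∈ A ∧ y ∈ A) : k % 6 = 1 ∨ k % 6 = 3 := by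
  have h1 := count_point hI hT hcov (by norm_num) ⟨0, by omega⟩
  have h2 := count_pairs hI hT hcov (by norm_num)
  set a := (T.filter fun A => A.card = 3 ∧ (⟨0, by omega⟩ : Fin k) ∈ A).card
  set b := (T.filter fun A => A.card = 3).card
  have h3 : k = 2 * a + 1 := by omega
  have h4 : b * 6 = k * (k - 1) := by simpa using h2
  have h5 : k * (k - 1) = (k % 6) * ((k - 1) % 6) + 6 * ((k / 6) * (k - 1) + (k % 6) * ((k - 1) / 6)) := by
    have e1 := Nat.div_add_mod k 6
    have e2 := Nat.div_add_mod (k - 1) 6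
    calc k * (k - 1) = (6 * (k / 6) + k % 6) * (k - 1) := by rw [e1]
      _ = 6 * (k / 6) * (k - 1) + (k % 6) * (k - 1) := by ring
      _ = 6 * (k / 6) * (k - 1) + (k % 6) * (6 * ((k - 1) / 6) + (k - 1) % 6) := by rw [e2]
      _ = _ := by ring
  have h6 : ((k % 6) * ((k - 1) % 6)) % 6 = 0 := by
    have := congrArg (· % 6) h5
    simp only [Nat.add_mul_mod_self_left] at this
    rw [← h4] at this
    omega
  have h7 : k % 6 < 6 := Nat.mod_lt _ (by norm_num)
  have h8 : (k - 1) % 6 = (k % 6 + 5) % 6 := by omega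
  rw [h8] at h6
  have h9 : k % 2 = 1 := by omega
  have h10 : (k % 6) % 2 = 1 := by omega
  interval_cases h : k % 6 <;> simp_all

theorem tripleNeg {k : ℕ} (hk : 4 ≤ k) (h1 : k % 6 ≠ 1) (h3 : k % 6 ≠ 3) :
    ∃ e : ℝ, 0 < e ∧ e ≤ 1 ∧ ∃ C : ℝ, 0 < C ∧ ∀ (n : ℕ) (F : Finset (Finset (Fin n))),
      Sys n k {0, 1, 3} F → (F.card : ℝ) ≤ C * (n : ℝ) ^ (3 - e) := by
  apply sysMono mono_gN (by omega)
  · intro x hx
    simp only [Finset.mem_insert, Finset.mem_singleton] at hx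
    rw [Finset.mem_range]
    omega
  · intro T hT hI hcov
    rcases sts_mod hk hI hT hcov with h | h
    · exact absurd h h1
    · exact absurd h h3

/-- links, with exponents -/
theorem link_pow {k : ℕ} {L L' : Finset ℕ} {s : ℝ} (hL : ∀ l, l + 1 ∈ L → l ∈ L') {e : ℝ} (hs : 0 < s + 1 - e)
    {C : ℝ} (h : ∀ (n : ℕ) (F : Finset (Finset (Fin n))), Sys n k L' F → (F.card : ℝ) ≤ C * (n : ℝ) ^ (s - e))
    (n : ℕ) (F : Finset (Finset (Fin n))) (hF : Sys n (k + 1) L F) :
    (F.card : ℝ) ≤ C * (n : ℝ) ^ (s + 1 - e) := by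
  have h1 := link_bound hL hF (h n)
  have h2 : (n : ℝ) * (C * (n : ℝ) ^ (s - e)) = C * (n : ℝ) ^ (s + 1 - e) := by
    rcases Nat.eq_zero_or_pos n with rfl | hn
    · rw [Nat.cast_zero, Real.zero_rpow hs.ne']
      ring
    · have hn' : (0:ℝ) < n := by exact_mod_cast hn
      rw [show s + 1 - e = 1 + (s - e) by ring, Real.rpow_add hn', Real.rpow_one]
      ring
  rw [h2] at h1
  have h3 : (0:ℝ) ≤ F.card := Nat.cast_nonneg _
  have h4 : (0:ℝ) ≤ (k : ℝ) := Nat.cast_nonneg _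
  have h5 : 0 ≤ (k : ℝ) * (F.card : ℝ) := mul_nonneg h4 h3
  linarith

end Pool.Agent.Helper138_LS
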